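import Pool.Agent.Lib.MP_ae5b4e_an_N4.Itf
import Pool.Agent.Lib.MP_ae5b4e_an_SVC.Link
import Pool.Agent.Lib.MP_ae5b4e_an_NB4H.PerY

/-!
# MP_ae5b4e_an, section N4: the potential has no analytic extension across the boundary line

An extension of `Q` near `x + i h` gives an extension of the fundamental system, hence of the
locally univalent function `y2 / y1`, hence (`reg_of_lu`) of the family.
-/

noncomputable section

namespace Pool.Agent.MP_ae5b4e_an_N4

open Complex Set Filter Topology Metric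
open Pool.Agent.MP_ae5b4e_an_NBT
open Pool.Agent.MP_ae5b4e_an_NB2 (Sys)
open Pool.Agent.MP_ae5b4e_an_NB4H (SysOf)
open Pool.Agent.Lib.MP_ae5b4e_an_LL (exists_ode_convex ode_unique')

variable {k : ℂ → ℂ} {F G : ℂ × ℂ → ℂ} {c h : ℝ} {Y : Sys}

/-- solutions on a ball with initial values at any point -/
private theorem ne_ode {b c : ℂ} {δ : ℝ} (hc : c ∈ ball b δ) {q : ℂ → ℂ}
    (hq : DifferentiableOn ℂ q (ball b δ)) (a a' : ℂ) :
    ∃ y y' : ℂ → ℂ, (∀ z ∈ ball b δ, HasDerivAt y (y' z) z) ∧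
      (∀ z ∈ ball b δ, HasDerivAt y' (-(q z * y z)) z) ∧ y c = a ∧ y' c = a' := by
  refine exists_ode_convex isOpen_ball (convex_ball b δ) hc (fun φ hφ => ?_) hq a a'
  obtain ⟨g, hg⟩ := hφ.isExactOn_ball
  exact ⟨fun z => g z - g c, sub_self _, fun z hz => (hg z hz).sub_const _⟩

/-- the quotient of two solutions is locally univalent -/
private theorem ne_lu {y1 y1' y2 y2' : ℂ → ℂ} {S : Set ℂ} (hS : IsOpen S)
    (h1 : ∀ z ∈ S, HasDerivAt y1 (y1' z) z) (h2 : ∀ z ∈ S, HasDerivAt y2 (y2' z) z)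
    (hw : ∀ z ∈ S, y1 z * y2' z - y1' z * y2 z = 1) : LU (fun z => y2 z / y1 z) S := by
  have a1 : AnalyticOnNhd ℂ y1 S := DifferentiableOn.analyticOnNhd
    (fun z hz => (h1 z hz).differentiableAt.differentiableWithinAt) hS
  have a2 : AnalyticOnNhd ℂ y2 S := DifferentiableOn.analyticOnNhd
    (fun z hz => (h2 z hz).differentiableAt.differentiableWithinAt) hS
  intro z hz
  by_cases h0 : y1 z = 0
  · have h3 : y2 z ≠ 0 := by
      intro h3
      have := hw z hz
      rw [h0, h3] at this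
      simp at this
    right
    have h4 : (fun w => (y2 w / y1 w)⁻¹) = fun w => y1 w / y2 w := by
      ext w
      rw [inv_div]
    refine ⟨show y2 z / y1 z = 0 by rw [h0, div_zero], ?_, ?_⟩
    · rw [h4]
      exact (a1 z hz).fun_div (a2 z hz) h3
    · rw [h4, ((h1 z hz).fun_div (h2 z hz) h3).deriv]
      have h5 : y1' z * y2 z - y1 z * y2' z = -1 := by
        linear_combination -(hw z hz)
      rw [h5]
      have := pow_ne_zero 2 h3
      exact div_ne_zero (by norm_num) this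
  · left
    refine ⟨(a2 z hz).fun_div (a1 z hz) h0, ?_⟩
    rw [((h2 z hz).fun_div (h1 z hz) h0).deriv]
    have h5 : y2' z * y1 z - y2 z * y1' z = 1 := by
      linear_combination hw z hz
    rw [h5]
    exact div_ne_zero one_ne_zero (pow_ne_zero 2 h0)

/-- **the potential has no analytic extension across the boundary line** -/
theorem noExt_of_nbd (hN : NBd k F c h G) (hY : SysOf Y G h) : NoExt Y h := by
  rintro x d hd ⟨q, hq, hqQ⟩
  have hh : 0 < h := hN.pos.trans hN.hc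
  set b : ℂ := (x:ℂ) + (h:ℂ) * I with hb
  have hbi : b.im = h := by simp [hb]
  obtain ⟨hOn, hsl⟩ := hY
  set δ : ℝ := min d h with hδ
  have hδ0 : 0 < δ := lt_min hd hh
  have hδd : ball b δ ⊆ ball b d := ball_subset_ball (min_le_left _ _)
  have hδh : δ ≤ h := min_le_right _ _
  have him : ∀ z ∈ ball b δ, 0 < z.im := by
    intro z hz
    rw [mem_ball, dist_eq_norm] at hz
    have h1 : |(z - b).im| < δ := (abs_im_le_norm _).trans_lt hz
    rw [sub_im, hbi] at h1
    linarith [(abs_lt.1 h1).1]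
  -- the lower part of the ball
  set U : Set ℂ := ball b δ ∩ {z : ℂ | z.im < h} with hU
  have hUo : IsOpen U := isOpen_ball.inter (isOpen_lt continuous_im continuous_const)
  have hUc : IsPreconnected U := ((convex_ball b δ).inter (convex_halfSpace_im_lt h)).isPreconnected
  have hUS : U ⊆ St (-h) h := fun z hz => ⟨by linarith [him z hz.1], hz.2⟩
  set c₀ : ℂ := b - ((δ / 2 : ℝ) : ℂ) * I with hc₀
  have hc₀b : c₀ ∈ ball b δ := by
    rw [mem_ball, dist_eq_norm]
    have : c₀ - b = -(((δ / 2 : ℝ) : ℂ) * I) := by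
      rw [hc₀]
      ring
    rw [this, norm_neg, norm_mul, norm_I, mul_one, norm_real, Real.norm_eq_abs,
      abs_of_pos (half_pos hδ0)]
    exact half_lt_self hδ0
  have hc₀U : c₀ ∈ U := by
    refine ⟨hc₀b, ?_⟩
    show c₀.im < h
    have : c₀.im = h - δ / 2 := by
      rw [hc₀, sub_im, hbi]
      simp
    rw [this]
    linarith
  have hqd : DifferentiableOn ℂ q (ball b δ) := fun z hz =>
    (hq z (hδd hz)).differentiableAt.differentiableWithinAt
  obtain ⟨y1, y1', d1, d1', e1, e1'⟩ := ne_ode hc₀b hqd (Y.y1 c₀) (Y.y1' c₀)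
  obtain ⟨y2, y2', d2, d2', e2, e2'⟩ := ne_ode hc₀b hqd (Y.y2 c₀) (Y.y2' c₀)
  -- the Wronskian
  have hw : ∀ z ∈ ball b δ, y1 z * y2' z - y1' z * y2 z = 1 := by
    have hd : ∀ z ∈ ball b δ, HasDerivAt (fun z => y1 z * y2' z - y1' z * y2 z) 0 z := by
      intro z hz
      have := ((d1 z hz).mul (d2' z hz)).sub ((d1' z hz).mul (d2 z hz))
      convert! this using 1
      ring
    intro z hz
    have hcst := isOpen_ball.is_const_of_deriv_eq_zero (𝕜 := ℂ)
      (convex_ball b δ).isPreconnected (f := fun z => y1 z * y2' z - y1' z * y2 z)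
      (fun z hz => (hd z hz).differentiableAt.differentiableWithinAt)
      (fun z hz => (hd z hz).deriv) hz hc₀b
    rw [hcst, e1, e1', e2, e2']
    exact hOn.wr c₀ (hUS hc₀U)
  -- agreement
  have hqdU : DifferentiableOn ℂ q U := hqd.mono inter_subset_left
  have hag : ∀ (y y' w w' : ℂ → ℂ), (∀ z ∈ ball b δ, HasDerivAt y (y' z) z) →
      (∀ z ∈ ball b δ, HasDerivAt y' (-(q z * y z)) z) →
      (∀ z ∈ St (-h) h, HasDerivAt w (w' z) z) →
      (∀ z ∈ St (-h) h, HasDerivAt w' (-(Y.Q z * w z)) z) → y c₀ = w c₀ → y' c₀ = w' c₀ →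
      ∀ z ∈ U, y z = w z := by
    intro y y' w w' h1 h2 h3 h4 h5 h6 z hz
    have h7 := ode_unique' hUo hUc hc₀U hqdU (y := fun z => y z - w z)
      (y' := fun z => y' z - w' z) (fun z hz => (h1 z hz.1).fun_sub (h3 z (hUS hz)))
      (fun z hz => by
        refine ((h2 z hz.1).fun_sub (h4 z (hUS hz))).congr_deriv ?_
        rw [hqQ z (hδd hz.1) hz.2]
        ring) (by simp [h5]) (by simp [h6]) z hz
    exact sub_eq_zero.1 h7
  have ag1 := hag y1 y1' Y.y1 Y.y1' d1 d1' hOn.d1 hOn.d1' e1 e1'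
  have ag2 := hag y2 y2' Y.y2 Y.y2' d2 d2' hOn.d2 hOn.d2' e2 e2'
  refine hN.nb b (by rw [hbi]; exact abs_of_pos hh) ?_
  refine Pool.Agent.MP_ae5b4e_an_SVC.reg_of_lu hN.toConE (by rw [hbi]; exact abs_of_pos hh) hδ0
    (g := fun z => y2 z / y1 z) (ne_lu isOpen_ball d1 d2 hw) fun z hz hzh => ?_
  have hzU : z ∈ U := ⟨hz, (abs_lt.1 hzh).2⟩
  refine Filter.Eventually.filter_mono nhdsWithin_le_nhds ?_
  filter_upwards [hUo.mem_nhds hzU] with t ht
  obtain ⟨h1, h2⟩ := hsl t (hUS ht)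
  rw [ag1 t ht, ag2 t ht]
  by_cases h0 : Y.y1 t = 0
  · rw [h2 h0, h0, div_zero]
  · exact (h1 h0).symm

end Pool.Agent.MP_ae5b4e_an_N4
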