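import Pool.Agent.Lib.MP_ae5b4e_an_N4.PtD

/-!
# N4, module Mpx: maximum principles with a countable exceptional set

**`le_of_frontier_countable`.** `V` is bounded: `V ⊆ closedBall 0 R₀`.  If `E ∩ frontier V` is empty
use `SubH.le_of_frontier`.  Otherwise enumerate it, `c : ℕ → ℂ` with range `E ∩ frontier V`
(`Set.Countable.exists_eq_range`); `c j ∉ V` because `V` is open.  `D := 2 R₀ + 1`, so
`log (‖z - c j‖ / D) ≤ 0` for `z ∈ V`, and it is harmonic in `V` (`harmonicOnNhd_log_norm_sub`).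
For `e > 0` let `f_n z := f z + e ∑_{j < n} 2^(-j) log (‖z - c j‖ / D)`: subharmonic on `V`
(`SubH.add_harmonic`), antitone in `n`, convergent at each `z ∈ V` (`‖z - c j‖ ≥ dist z Vᶜ > 0`, so
the terms are bounded by `2^(-j) C_z`), so the limit `f_∞ = f + e h` is subharmonic
(`SubH.subH_of_antitone` in LL.Lim).  On `frontier V`: at `ζ ∉ E` from `f_∞ ≤ f`; at `ζ = c j` from
`f_∞ z ≤ B + e 2^(-j) log (‖z - c j‖ / D) → -∞`.  `SubH.le_of_frontier`: `f_∞ ≤ M` on `V`, that is
`f z ≤ M - e h z` for all `e > 0` (`h z` is a fixed number): `e → 0`.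

**`rc_le`.** Apply this to `f := w - M` (`SubH.sub_harmonic`; `M` is bounded on the bounded closed
rectangle, `f ≤ B - min M`), bound `0`, `E := {pt x a, pt x b | x ∈ N}`.  A frontier point `ζ` has
`|ζ.re| = ℓ` (and `a ≤ ζ.im ≤ b`): `w z ≤ B ≤ M ζ` and `M` is continuous (`hend`); or `|ζ.re| < ℓ` and
`ζ.im = a` or `ζ.im = b`: `ζ = pt ζ.re a`, hypothesis and continuity of `M`.

**`subH_conj`.** Upper semicontinuity: composition with a continuous map.  Mean values: `g` on
`sphere c r` gives `g ∘ conj` on `sphere (conj c) r`, and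
`circleAverage (g ∘ conj) (conj c) r = circleAverage g c r` (substitution `θ ↦ -θ`,
`circleMap (conj c) r (-θ) = conj (circleMap c r θ)`, periodicity).
-/

set_option autoImplicit false

noncomputable section

namespace Pool.Agent.MP_ae5b4e_an_N4

open Complex Set Filter Topology Metric InnerProductSpace
open Pool.Agent.Lib.MP_ae5b4e_an_LL (SubH)
open scoped ComplexConjugate

theorem isOpen_Rc (ℓ a b : ℝ) : IsOpen (Rc ℓ a b) := by
  have h1 : IsOpen {z : ℂ | |z.re| < ℓ} := isOpen_lt (by fun_prop) continuous_const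
  have h2 : IsOpen {z : ℂ | a < z.im} := isOpen_lt continuous_const (by fun_prop)
  have h3 : IsOpen {z : ℂ | z.im < b} := isOpen_lt (by fun_prop) continuous_const
  exact h1.inter (h2.inter h3)

private theorem mpx_norm {ℓ a b : ℝ} {z : ℂ} (hz : z ∈ Rc ℓ a b) : ‖z‖ ≤ ℓ + (|a| + |b|) := by
  obtain ⟨h1, h2, h3⟩ := hz
  have h4 := Complex.norm_le_abs_re_add_abs_im z
  have h5 : |z.im| ≤ |a| + |b| := by
    rw [abs_le]
    have ha := neg_abs_le a
    have hb := le_abs_self b
    have ha' := abs_nonneg a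
    have hb' := abs_nonneg b
    constructor <;> linarith
  linarith

theorem isBounded_Rc (ℓ a b : ℝ) : Bornology.IsBounded (Rc ℓ a b) := by
  refine (Metric.isBounded_closedBall (x := (0:ℂ)) (r := ℓ + (|a| + |b|))).subset fun z hz => ?_
  rw [mem_closedBall_zero_iff]
  exact mpx_norm hz

theorem frontier_Rc {ℓ a b : ℝ} {ζ : ℂ} (h : ζ ∈ frontier (Rc ℓ a b)) :
    (|ζ.re| = ℓ ∧ a ≤ ζ.im ∧ ζ.im ≤ b) ∨ (|ζ.re| < ℓ ∧ (ζ.im = a ∨ ζ.im = b)) := by
  have hcl : ζ ∈ {z : ℂ | |z.re| ≤ ℓ ∧ a ≤ z.im ∧ z.im ≤ b} := by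
    have h1 : IsClosed {z : ℂ | |z.re| ≤ ℓ} := isClosed_le (by fun_prop) continuous_const
    have h2 : IsClosed {z : ℂ | a ≤ z.im} := isClosed_le continuous_const (by fun_prop)
    have h3 : IsClosed {z : ℂ | z.im ≤ b} := isClosed_le (by fun_prop) continuous_const
    refine closure_minimal ?_ (h1.inter (h2.inter h3)) h.1
    rintro z ⟨h4, h5, h6⟩
    exact ⟨h4.le, h5.le, h6.le⟩
  obtain ⟨h1, h2, h3⟩ := hcl
  have hn : ζ ∉ Rc ℓ a b := by
    have := h.2
    rwa [(isOpen_Rc ℓ a b).interior_eq] at this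
  rcases h1.lt_or_eq with h4 | h4
  · right
    refine ⟨h4, ?_⟩
    rcases h2.lt_or_eq with h5 | h5
    · rcases h3.lt_or_eq with h6 | h6
      · exact absurd ⟨h4, h5, h6⟩ hn
      · exact Or.inr h6
    · exact Or.inl h5.symm
  · exact Or.inl ⟨h4, h2, h3⟩

theorem le_of_frontier_countable {V : Set ℂ} {f : ℂ → ℝ} (hV : IsOpen V)
    (hb : Bornology.IsBounded V) (hf : SubH f V) {B : ℝ} (hB : ∀ z ∈ V, f z ≤ B) {E : Set ℂ}
    (hE : E.Countable) {M : ℝ} (hfr : ∀ ζ ∈ frontier V, ζ ∉ E → BLe V f ζ M) :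
    ∀ z ∈ V, f z ≤ M := by
  by_cases hne : (E ∩ frontier V).Nonempty
  swap
  · refine hf.le_of_frontier hV hb fun ζ hζ ε hε => hfr ζ hζ (fun h => hne ⟨ζ, h, hζ⟩) ε hε
  obtain ⟨c, hc⟩ := (hE.mono (inter_subset_left (t := frontier V))).exists_eq_range hne
  have hcf : ∀ j, c j ∈ frontier V := fun j => by
    have : c j ∈ E ∩ frontier V := by
      rw [hc]
      exact mem_range_self j
    exact this.2
  have hcV : ∀ j, c j ∉ V := fun j => by
    have := (hcf j).2
    rwa [hV.interior_eq] at this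
  obtain ⟨R, hR0, hR⟩ : ∃ R : ℝ, 0 < R ∧ ∀ z ∈ V, ‖z‖ ≤ R := by
    obtain ⟨R, hR⟩ := hb.exists_norm_le
    exact ⟨max R 1, by positivity, fun z hz => (hR z hz).trans (le_max_left _ _)⟩
  have hcR : ∀ j, ‖c j‖ ≤ R := by
    intro j
    have h1 : closure V ⊆ closedBall (0:ℂ) R := closure_minimal (fun z hz => by
      rw [mem_closedBall_zero_iff]
      exact hR z hz) isClosed_closedBall
    have h2 := h1 (hcf j).1
    rwa [mem_closedBall_zero_iff] at h2
  set D : ℝ := 2 * R + 1 with hD
  have hD0 : 0 < D := by linarith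
  -- the terms
  set T : ℕ → ℂ → ℝ := fun j z => (1 / 2 : ℝ) ^ j * (Real.log D - Real.log ‖z - c j‖) with hT
  have hpos : ∀ j, ∀ z ∈ V, 0 < ‖z - c j‖ := fun j z hz => by
    rw [norm_pos_iff, sub_ne_zero]
    rintro rfl
    exact hcV j hz
  have hlog : ∀ j, ∀ z ∈ V, 0 ≤ Real.log D - Real.log ‖z - c j‖ := by
    intro j z hz
    have h1 : ‖z - c j‖ ≤ D := by
      have := norm_sub_le z (c j)
      have := hR z hz
      have := hcR j
      linarith
    have h2 := Real.log_le_log (hpos j z hz) h1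
    linarith
  have hT0 : ∀ j, ∀ z ∈ V, 0 ≤ T j z := fun j z hz => mul_nonneg (by positivity) (hlog j z hz)
  have hsum : ∀ z ∈ V, Summable fun j => T j z := by
    intro z hz
    obtain ⟨δ, hδ, hball⟩ := Metric.isOpen_iff.1 hV z hz
    have hδj : ∀ j, δ ≤ ‖z - c j‖ := by
      intro j
      by_contra hcon
      push Not at hcon
      refine hcV j (hball ?_)
      rw [mem_ball, dist_eq_norm, norm_sub_rev]
      exact hcon
    have h1 : Summable fun j : ℕ => (1 / 2 : ℝ) ^ j * (Real.log D - Real.log δ) :=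
      (summable_geometric_of_lt_one (by norm_num) (by norm_num)).mul_right _
    refine Summable.of_nonneg_of_le (fun j => hT0 j z hz) (fun j => ?_) h1
    refine mul_le_mul_of_nonneg_left ?_ (by positivity)
    have := Real.log_le_log hδ (hδj j)
    linarith
  -- the perturbed function
  have key : ∀ e > 0, ∀ z ∈ V, f z - e * ∑' j, T j z ≤ M := by
    intro e he
    have hn : ∀ n, SubH (fun z => f z - e * ∑ j ∈ Finset.range n, T j z) V := by
      intro n
      induction n with
      | zero =>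
        refine hf.congr hV fun z _ => ?_
        simp
      | succ n ih =>
        have hh : HarmonicOnNhd (fun z => e * (1 / 2 : ℝ) ^ n * (Real.log ‖z - c n‖ - Real.log D))
            V := by
          have h1 := Pool.Agent.Lib.MP_ae5b4e_an_LL.harmonicOnNhd_log_norm_sub (hcV n)
          have h2 : HarmonicOnNhd (fun _ : ℂ => Real.log D) V := fun z _ => by simp
          exact (h1.sub h2).const_smul (c := e * (1 / 2 : ℝ) ^ n)
        refine (ih.add_harmonic hV hh).congr hV fun z _ => ?_
        show f z - e * ∑ j ∈ Finset.range n, T j z +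
          e * (1 / 2 : ℝ) ^ n * (Real.log ‖z - c n‖ - Real.log D) =
            f z - e * ∑ j ∈ Finset.range (n + 1), T j z
        rw [Finset.sum_range_succ]
        show _ = f z - e * (∑ j ∈ Finset.range n, T j z +
          (1 / 2 : ℝ) ^ n * (Real.log D - Real.log ‖z - c n‖))
        ring
    have hlim : SubH (fun z => f z - e * ∑' j, T j z) V := by
      refine Pool.Agent.Lib.MP_ae5b4e_an_LL.subH_of_antitone hV hn (fun z hz => ?_) fun z hz => ?_
      · refine antitone_nat_of_succ_le fun n => ?_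
        show f z - e * ∑ j ∈ Finset.range (n + 1), T j z ≤ f z - e * ∑ j ∈ Finset.range n, T j z
        rw [Finset.sum_range_succ]
        have := mul_nonneg he.le (hT0 n z hz)
        linarith
      · exact ((hsum z hz).hasSum.tendsto_sum_nat.const_mul e).const_sub (f z)
    refine hlim.le_of_frontier hV hb fun ζ hζ ε hε => ?_
    have hnn : ∀ z ∈ V, 0 ≤ e * ∑' j, T j z := fun z hz =>
      mul_nonneg he.le (tsum_nonneg fun j => hT0 j z hz)
    by_cases hζE : ζ ∈ E
    · have h1 : ζ ∈ range c := by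
        rw [← hc]
        exact ⟨hζE, hζ⟩
      obtain ⟨j, rfl⟩ := h1
      have h2 : Tendsto (fun z => ‖z - c j‖) (𝓝[V] (c j)) (𝓝[>] 0) := by
        refine tendsto_nhdsWithin_iff.2 ⟨?_, ?_⟩
        · have h3 : Tendsto (fun z => ‖z - c j‖) (𝓝 (c j)) (𝓝 ‖c j - c j‖) :=
            (continuous_id.sub continuous_const).norm.tendsto (c j)
          rw [sub_self, norm_zero] at h3
          exact h3.mono_left nhdsWithin_le_nhds
        · filter_upwards [self_mem_nhdsWithin] with z hz
          exact hpos j z hz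
      have h3 := (Real.tendsto_log_nhdsGT_zero.comp h2).eventually
        (eventually_le_atBot (Real.log D - (B - M) / (e * (1 / 2) ^ j)))
      filter_upwards [h3, self_mem_nhdsWithin] with z hz1 hz2
      have h4 : T j z ≤ ∑' j, T j z := (hsum z hz2).le_tsum j fun i _ => hT0 i z hz2
      have h5 : (B - M) / (e * (1 / 2) ^ j) ≤ Real.log D - Real.log ‖z - c j‖ := by
        have : Real.log ‖z - c j‖ ≤ Real.log D - (B - M) / (e * (1 / 2) ^ j) := hz1
        linarith
      rw [div_le_iff₀ (by positivity)] at h5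
      have h6 : e * T j z ≤ e * ∑' j, T j z := mul_le_mul_of_nonneg_left h4 he.le
      have h7 : e * T j z = (Real.log D - Real.log ‖z - c j‖) * (e * (1 / 2) ^ j) := by
        simp only [hT]
        ring
      have h8 := hB z hz2
      linarith
    · filter_upwards [hfr ζ hζ hζE ε hε, self_mem_nhdsWithin] with z hz1 hz2
      have := hnn z hz2
      linarith
  intro z hz
  have hS : 0 ≤ ∑' j, T j z := tsum_nonneg fun j => hT0 j z hz
  refine le_of_forall_pos_le_add fun ε hε => ?_
  have h1 := key (ε / (∑' j, T j z + 1)) (by positivity) z hz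
  have h2 : ε / (∑' j, T j z + 1) * ∑' j, T j z ≤ ε := by
    rw [div_mul_eq_mul_div, div_le_iff₀ (by positivity)]
    nlinarith
  linarith

theorem rc_le {ℓ a b : ℝ} {w M : ℂ → ℝ} (hw : SubH w (Rc ℓ a b)) {B : ℝ}
    (hB : ∀ z ∈ Rc ℓ a b, w z ≤ B) (hM : HarmonicOnNhd M univ) {N : Set ℝ} (hN : N.Countable)
    (hbot : ∀ x, |x| < ℓ → x ∉ N → BLe (Rc ℓ a b) w (pt x a) (M (pt x a)))
    (htop : ∀ x, |x| < ℓ → x ∉ N → BLe (Rc ℓ a b) w (pt x b) (M (pt x b)))
    (hend : ∀ z : ℂ, |z.re| = ℓ → a ≤ z.im → z.im ≤ b → B ≤ M z) :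
    ∀ z ∈ Rc ℓ a b, w z ≤ M z := by
  have hMc : Continuous M := continuousOn_univ.1 hM.continuousOn
  obtain ⟨m, hm⟩ : ∃ m, ∀ z ∈ Rc ℓ a b, m ≤ M z := by
    obtain ⟨m, hm⟩ := (isCompact_closedBall (0:ℂ) (ℓ + (|a| + |b|))).bddBelow_image
      hMc.continuousOn
    refine ⟨m, fun z hz => hm ⟨z, ?_, rfl⟩⟩
    rw [mem_closedBall_zero_iff]
    exact mpx_norm hz
  have hsub : SubH (fun z => w z - M z) (Rc ℓ a b) :=
    hw.sub_harmonic (isOpen_Rc ℓ a b) (hM.mono (subset_univ _))
  have hnear : ∀ ζ : ℂ, ∀ e > 0, ∀ᶠ z in 𝓝[Rc ℓ a b] ζ, M ζ - e < M z := fun ζ e he =>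
    (hMc.continuousAt.eventually (lt_mem_nhds (by linarith))).filter_mono nhdsWithin_le_nhds
  have key := le_of_frontier_countable (isOpen_Rc ℓ a b) (isBounded_Rc ℓ a b) hsub
    (B := B - m) (fun z hz => by
      have h1 := hB z hz
      have h2 := hm z hz
      show w z - M z ≤ B - m
      linarith)
    (E := (fun x => pt x a) '' N ∪ (fun x => pt x b) '' N) ((hN.image _).union (hN.image _))
    (M := 0) (by
      intro ζ hζ hζE e he
      rcases frontier_Rc hζ with ⟨h1, h2, h3⟩ | ⟨h1, h2⟩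
      · filter_upwards [hnear ζ e he, self_mem_nhdsWithin] with z hz1 hz2
        have h4 := hend ζ h1 h2 h3
        have h5 := hB z hz2
        show w z - M z ≤ 0 + e
        linarith
      · have hloc : BLe (Rc ℓ a b) w ζ (M ζ) := by
          rcases h2 with h2 | h2
          · have e1 : ζ = pt ζ.re a := Complex.ext rfl h2
            have hn : ζ.re ∉ N := fun h => hζE (Or.inl ⟨ζ.re, h, e1.symm⟩)
            have h3 := hbot ζ.re h1 hn
            rwa [← e1] at h3
          · have e1 : ζ = pt ζ.re b := Complex.ext rfl h2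
            have hn : ζ.re ∉ N := fun h => hζE (Or.inr ⟨ζ.re, h, e1.symm⟩)
            have h3 := htop ζ.re h1 hn
            rwa [← e1] at h3
        filter_upwards [hloc (e / 2) (by positivity), hnear ζ (e / 2) (by positivity)] with z h3 h4
        show w z - M z ≤ 0 + e
        linarith)
  intro z hz
  have h1 : w z - M z ≤ 0 := key z hz
  linarith

private theorem mpx_avg (g : ℂ → ℝ) (c : ℂ) (r : ℝ) :
    Real.circleAverage (fun z => g (conj z)) (conj c) r = Real.circleAverage g c r := by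
  have h1 : ∀ θ : ℝ, conj (circleMap (conj c) r θ) = circleMap c r (-θ) := by
    intro θ
    simp only [circleMap, map_add, map_mul, Complex.conj_conj, Complex.conj_ofReal,
      ← Complex.exp_conj, Complex.conj_I]
    push_cast
    ring_nf
  rw [Real.circleAverage_def, Real.circleAverage_def]
  congr 1
  have h2 : (∫ θ in (0:ℝ)..2 * Real.pi, g (conj (circleMap (conj c) r θ))) =
      ∫ θ in (0:ℝ)..2 * Real.pi, g (circleMap c r (-θ)) := by
    simp only [h1]
  rw [h2, intervalIntegral.integral_comp_neg (fun θ => g (circleMap c r θ)), neg_zero]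
  have h3 : Function.Periodic (fun θ => g (circleMap c r θ)) (2 * Real.pi) := fun θ => by
    show g (circleMap c r (θ + 2 * Real.pi)) = g (circleMap c r θ)
    rw [periodic_circleMap c r θ]
  have h4 := h3.intervalIntegral_add_eq (-(2 * Real.pi)) 0
  rw [neg_add_cancel, zero_add] at h4
  exact h4

theorem subH_conj {u : ℂ → ℝ} {U : Set ℂ} (hu : SubH u U) :
    SubH (fun z => u (conj z)) {z | conj z ∈ U} := by
  refine ⟨fun z hz y hy => ?_, fun c hc => ?_⟩
  · have h1 : Tendsto (fun z : ℂ => conj z) (𝓝[{z | conj z ∈ U}] z) (𝓝[U] (conj z)) := by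
      refine tendsto_nhdsWithin_iff.2 ⟨?_, ?_⟩
      · exact (Complex.continuous_conj.tendsto z).mono_left nhdsWithin_le_nhds
      · filter_upwards [self_mem_nhdsWithin] with w hw
        exact hw
    exact h1.eventually (hu.usc (conj z) hz y hy)
  · filter_upwards [hu.mean (conj c) hc] with r h1 g hg1 hg2
    have hsp : ∀ z ∈ sphere (conj c) r, conj z ∈ sphere c r := by
      intro z hz
      rw [mem_sphere, dist_eq_norm] at hz ⊢
      rw [← RCLike.norm_conj, map_sub, Complex.conj_conj]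
      exact hz
    have h2 := h1 (fun z => g (conj z))
      (hg1.comp Complex.continuous_conj.continuousOn hsp) (fun z hz => by
        have h3 := hg2 (conj z) (hsp z hz)
        rwa [Complex.conj_conj] at h3)
    rwa [mpx_avg] at h2

end Pool.Agent.MP_ae5b4e_an_N4
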