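import Pool.Agent.Lib.MP_ae5b4e_an_N4.BD
import Pool.Agent.Lib.MP_ae5b4e_an_N4.Mpx

/-!
# N4, module BFill: a bound on the real axis off a countable set holds everywhere

Fix `x0`, `|x0| < ℓ`, and `e > 0`; `A := a x0 + e`.  Choose `0 < d ≤ 1` with `|x0| + d < ℓ` and `a x ≤ A` for `|x - x0| < d`.
`K' := max (K - A) 0`.  For `0 < th ≤ 1` let `μ := π/(2 th)`.
UPPER HALF: `W z := V (z + x0)` on `Rc d 0 th` is `SubH` (`SubH.comp` with the translation), `W ≤ K`.  Majorant
`M z := A + K' z.im/th + K' √2 cosh (μ z.re)/cosh (μ d) cos (μ (z.im - th/2))`, harmonic on `univ` (the last term is a constant times the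
real part of `Complex.cosh (μ (z - i th/2))`; `z.im` is harmonic; see the proof of `Hc_harm`, `bar_harm_re` in Bar.lean).
`rc_le` (Mpx.lean) with `ℓ := d`, `a := 0`, `b := th`, `B := K`, `N := {x | x + x0 ∈ N}` (countable):
for `0 ≤ z.im ≤ th` `|μ (z.im - th/2)| ≤ π/4`, so `√2 cos (..) ≥ 1`.  Ends `|z.re| = d`: `M z ≥ A + K' ≥ K`.  Top: `M ≥ A + K' ≥ K ≥ W`.
Bottom, `x + x0 ∉ N`: `BLe`: `V` is upper semicontinuous at `pt (x + x0) 0` and `V (pt (x+x0) 0) ≤ a (x + x0) ≤ A ≤ M (pt x 0)`.
So `V (z + x0) ≤ M z ≤ A + K' z.im/th + 2 K' cosh (μ z.re)/cosh (μ d)` on `Rc d 0 th`.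
LOWER HALF: the same for `z ↦ V (conj z)` (`subH_conj` in Mpx.lean).  So for `0 < |z.im| < th`, `|z.re| < d`:
`V (z + x0) ≤ A + K' |z.im|/th + 2 K' cosh (μ z.re)/cosh (μ d)`.
CIRCLES: for `0 < r < min d th`: `V (pt x0 0) ≤ circleAverage V (pt x0 0) r` (`SubH.le_average'`, LL/Int.lean, closed ball in the
domain; `SubH.circleIntegrable'`).  On the circle `V ≤ A + K' r/th + 2 K' cosh (μ r)/cosh (μ d)` except at the two points
with `z.im = 0`, i.e. for all angles except a finite set (`{0, π, 2π}` in `[0, 2π]`), so the average is `≤` this number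
(`intervalIntegral.integral_mono_ae`).  Take `r := th^2` with `th → 0`: `K' th → 0`, `cosh (μ r) = cosh (π th/2) ≤ 3`,
`cosh (μ d) → ∞`.  So `V (pt x0 0) ≤ A = a x0 + e`; `e → 0`.
-/

set_option autoImplicit false

noncomputable section

namespace Pool.Agent.MP_ae5b4e_an_N4

open Complex Set Filter Topology Metric InnerProductSpace
open Pool.Agent.MP_ae5b4e_an_NBT (St MerAt Mer EqM)
open Pool.Agent.Lib.MP_ae5b4e_an_LL (SubH ExtR prad mdom)
open scoped ComplexConjugate

private theorem BFill_re_cosh (a b : ℝ) :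
    (Complex.cosh (a + b * I)).re = Real.cosh a * Real.cos b := by
  rw [Complex.cosh_add, Complex.cosh_mul_I, Complex.sinh_mul_I, ← Complex.ofReal_cosh,
    ← Complex.ofReal_cos, ← Complex.ofReal_sinh, ← Complex.ofReal_sin]
  simp only [Complex.add_re, Complex.mul_re, Complex.ofReal_re, Complex.ofReal_im, Complex.I_re,
    Complex.I_im, Complex.mul_im]
  ring

/-- the majorant -/
private def BFill_M (A K' d th : ℝ) (z : ℂ) : ℝ :=
  A + K' * (z.im / th) + √2 * K' / Real.cosh (Real.pi / (2 * th) * d) *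
    (Real.cosh (Real.pi / (2 * th) * z.re) * Real.cos (Real.pi / (2 * th) * (z.im - th / 2)))

private theorem BFill_M_harm (A K' d th : ℝ) : HarmonicOnNhd (BFill_M A K' d th) univ := by
  intro z _
  have hd : Differentiable ℂ (fun z : ℂ => (A : ℂ) + ((K' / th : ℝ) : ℂ) * (-(I * z)) +
      ((√2 * K' / Real.cosh (Real.pi / (2 * th) * d) : ℝ) : ℂ) *
      Complex.cosh (((Real.pi / (2 * th) : ℝ) : ℂ) * (z - ((th / 2 : ℝ) : ℂ) * I))) := by
    fun_prop
  have h1 : BFill_M A K' d th = fun z => ((A : ℂ) + ((K' / th : ℝ) : ℂ) * (-(I * z)) +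
      ((√2 * K' / Real.cosh (Real.pi / (2 * th) * d) : ℝ) : ℂ) *
      Complex.cosh (((Real.pi / (2 * th) : ℝ) : ℂ) * (z - ((th / 2 : ℝ) : ℂ) * I))).re := by
    funext z
    have h2 : ((Real.pi / (2 * th) : ℝ) : ℂ) * (z - ((th / 2 : ℝ) : ℂ) * I) =
        ((Real.pi / (2 * th) * z.re : ℝ) : ℂ) +
        ((Real.pi / (2 * th) * (z.im - th / 2) : ℝ) : ℂ) * I := by
      conv_lhs => rw [← Complex.re_add_im z]
      push_cast
      ring
    rw [Complex.add_re, Complex.add_re, Complex.re_ofReal_mul, Complex.re_ofReal_mul, h2,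
      BFill_re_cosh, Complex.ofReal_re, Complex.neg_re, Complex.I_mul_re]
    unfold BFill_M
    ring
  rw [h1]
  exact (hd.analyticAt z).harmonicAt_re

private theorem BFill_cos {th y : ℝ} (hth : 0 < th) (h0 : 0 ≤ y) (h1 : y ≤ th) :
    1 ≤ √2 * Real.cos (Real.pi / (2 * th) * (y - th / 2)) := by
  have h2 : |Real.pi / (2 * th) * (y - th / 2)| ≤ Real.pi / 4 := by
    rw [abs_mul, abs_of_pos (div_pos Real.pi_pos (by linarith : (0:ℝ) < 2 * th))]
    have h3 : |y - th / 2| ≤ th / 2 := by
      rw [abs_le]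
      constructor <;> linarith
    calc Real.pi / (2 * th) * |y - th / 2| ≤ Real.pi / (2 * th) * (th / 2) :=
          mul_le_mul_of_nonneg_left h3 (by positivity)
      _ = Real.pi / 4 := by
          field_simp
          norm_num
  have h4 : Real.cos (Real.pi / 4) ≤ Real.cos (Real.pi / (2 * th) * (y - th / 2)) := by
    rw [← Real.cos_abs (Real.pi / (2 * th) * (y - th / 2))]
    refine Real.cos_le_cos_of_nonneg_of_le_pi (abs_nonneg _) ?_ h2
    linarith [Real.pi_pos]
  rw [Real.cos_pi_div_four] at h4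
  have h5 : √2 * (√2 / 2) = 1 := by
    rw [← mul_div_assoc, Real.mul_self_sqrt (by norm_num)]
    norm_num
  calc (1:ℝ) = √2 * (√2 / 2) := h5.symm
    _ ≤ _ := mul_le_mul_of_nonneg_left h4 (Real.sqrt_nonneg 2)

private theorem BFill_M_ge {A K' d th : ℝ} (hK' : 0 ≤ K') (hth : 0 < th) {z : ℂ} (h0 : 0 ≤ z.im)
    (h1 : z.im ≤ th) : A + K' * (z.im / th) ≤ BFill_M A K' d th z := by
  unfold BFill_M
  have h2 := BFill_cos hth h0 h1
  have h3 := Real.cosh_pos (Real.pi / (2 * th) * d)
  have h4 := Real.cosh_pos (Real.pi / (2 * th) * z.re)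
  have h5 : √2 * K' / Real.cosh (Real.pi / (2 * th) * d) *
      (Real.cosh (Real.pi / (2 * th) * z.re) * Real.cos (Real.pi / (2 * th) * (z.im - th / 2))) =
      K' / Real.cosh (Real.pi / (2 * th) * d) * Real.cosh (Real.pi / (2 * th) * z.re) *
      (√2 * Real.cos (Real.pi / (2 * th) * (z.im - th / 2))) := by ring
  rw [h5]
  have h6 : 0 ≤ K' / Real.cosh (Real.pi / (2 * th) * d) * Real.cosh (Real.pi / (2 * th) * z.re) *
      (√2 * Real.cos (Real.pi / (2 * th) * (z.im - th / 2))) := by
    refine mul_nonneg ?_ (by linarith)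
    positivity
  linarith

private theorem BFill_M_end {A K' d th : ℝ} (hK' : 0 ≤ K') (hth : 0 < th) {z : ℂ} (h0 : 0 ≤ z.im)
    (h1 : z.im ≤ th) (hz : |z.re| = d) : A + K' ≤ BFill_M A K' d th z := by
  unfold BFill_M
  have h2 := BFill_cos hth h0 h1
  have h3 := Real.cosh_pos (Real.pi / (2 * th) * d)
  have h4 : Real.cosh (Real.pi / (2 * th) * z.re) = Real.cosh (Real.pi / (2 * th) * d) := by
    rw [← hz, ← Real.cosh_abs (Real.pi / (2 * th) * z.re), abs_mul,
      abs_of_pos (div_pos Real.pi_pos (by linarith : (0:ℝ) < 2 * th))]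
  have h5 : √2 * K' / Real.cosh (Real.pi / (2 * th) * d) *
      (Real.cosh (Real.pi / (2 * th) * z.re) * Real.cos (Real.pi / (2 * th) * (z.im - th / 2))) =
      K' * (√2 * Real.cos (Real.pi / (2 * th) * (z.im - th / 2))) := by
    rw [h4]
    field_simp
  rw [h5]
  have h6 := mul_le_mul_of_nonneg_left h2 hK'
  have h7 : 0 ≤ K' * (z.im / th) := mul_nonneg hK' (div_nonneg h0 hth.le)
  linarith

private theorem BFill_M_le {A K' d th : ℝ} (hK' : 0 ≤ K') (z : ℂ) :
    BFill_M A K' d th z ≤ A + K' * (z.im / th) +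
      2 * K' * (Real.cosh (Real.pi / (2 * th) * z.re) / Real.cosh (Real.pi / (2 * th) * d)) := by
  unfold BFill_M
  have h3 := Real.cosh_pos (Real.pi / (2 * th) * d)
  have h4 := Real.cosh_pos (Real.pi / (2 * th) * z.re)
  have h5 : √2 * K' / Real.cosh (Real.pi / (2 * th) * d) *
      (Real.cosh (Real.pi / (2 * th) * z.re) * Real.cos (Real.pi / (2 * th) * (z.im - th / 2))) =
      (√2 * Real.cos (Real.pi / (2 * th) * (z.im - th / 2))) *
      (K' * (Real.cosh (Real.pi / (2 * th) * z.re) / Real.cosh (Real.pi / (2 * th) * d))) := by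
    ring
  rw [h5]
  have h6 : √2 * Real.cos (Real.pi / (2 * th) * (z.im - th / 2)) ≤ 2 := by
    have h7 : √2 ≤ 2 := by
      rw [Real.sqrt_le_left (by norm_num)]
      norm_num
    calc √2 * Real.cos (Real.pi / (2 * th) * (z.im - th / 2)) ≤ √2 * 1 :=
          mul_le_mul_of_nonneg_left (Real.cos_le_one _) (Real.sqrt_nonneg 2)
      _ ≤ 2 := by linarith
  have h7 : 0 ≤ K' * (Real.cosh (Real.pi / (2 * th) * z.re) /
      Real.cosh (Real.pi / (2 * th) * d)) := by positivity
  have h8 := mul_le_mul_of_nonneg_right h6 h7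
  linarith

/-- the bound in the upper half of a thin rectangle -/
private theorem BFill_half {W : ℂ → ℝ} {A K K' d th : ℝ} {N : Set ℝ} (hN : N.Countable)
    (hK' : 0 ≤ K') (hAK : K ≤ A + K') (hth : 0 < th) (hW : SubH W (Rc d 0 th))
    (hK : ∀ z ∈ Rc d 0 th, W z ≤ K)
    (h : ∀ x, |x| < d → x ∉ N → BLe (Rc d 0 th) W (pt x 0) A) :
    ∀ z ∈ Rc d 0 th, W z ≤ A + K' * (z.im / th) +
      2 * K' * (Real.cosh (Real.pi / (2 * th) * z.re) / Real.cosh (Real.pi / (2 * th) * d)) := by
  intro z hz
  refine le_trans ?_ (BFill_M_le hK' z)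
  refine rc_le hW hK (BFill_M_harm A K' d th) hN ?_ ?_ ?_ z hz
  · intro x hx hxN e he
    have h1 : A ≤ BFill_M A K' d th (pt x 0) := by
      have h2 := BFill_M_ge (A := A) (d := d) hK' hth (z := pt x 0) (by simp) (by simpa using hth.le)
      simpa using h2
    filter_upwards [h x hx hxN e he] with w hw
    linarith
  · intro x hx _ e he
    have h1 : A + K' ≤ BFill_M A K' d th (pt x th) := by
      have h2 := BFill_M_ge (A := A) (d := d) hK' hth (z := pt x th) (by simpa using hth.le)
        (by simp)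
      simpa [div_self hth.ne'] using h2
    filter_upwards [self_mem_nhdsWithin] with w hw
    have := hK w hw
    linarith
  · intro w hw h1 h2
    have := BFill_M_end (A := A) (d := d) hK' hth h1 h2 hw
    linarith

/-- the bound above the real axis -/
private theorem BFill_up {V : ℂ → ℝ} {ℓ K K' A d th x0 : ℝ} {N : Set ℝ} {a : ℝ → ℝ}
    (hN : N.Countable) (hV : SubH V {w | |w.re| < ℓ}) (hK : ∀ w : ℂ, |w.re| < ℓ → V w ≤ K)
    (h : ∀ x, |x| < ℓ → x ∉ N → V (pt x 0) ≤ a x) (hd : |x0| + d < ℓ)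
    (ha : ∀ x, |x - x0| < d → a x ≤ A) (hK' : 0 ≤ K') (hAK : K ≤ A + K') (hth : 0 < th) :
    ∀ z : ℂ, |z.re| < d → 0 < z.im → z.im < th → V (z + x0) ≤ A + K' * (z.im / th) +
      2 * K' * (Real.cosh (Real.pi / (2 * th) * z.re) / Real.cosh (Real.pi / (2 * th) * d)) := by
  intro z h1 h2 h3
  have hopen : IsOpen {w : ℂ | |w.re| < ℓ} := isOpen_lt (by fun_prop) continuous_const
  have hmaps : ∀ w : ℂ, |w.re| < d → |(w + x0).re| < ℓ := by
    intro w hw
    rw [Complex.add_re, Complex.ofReal_re]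
    have := abs_add_le w.re x0
    linarith
  have hW : SubH (fun z : ℂ => V (z + x0)) (Rc d 0 th) := by
    refine SubH.comp (φ := fun z : ℂ => z + x0) hopen (isOpen_Rc d 0 th) hV ?_ ?_
    · intro w _
      exact analyticAt_id.add analyticAt_const
    · intro w hw
      exact hmaps w hw.1
  have hN' : ({x : ℝ | x + x0 ∈ N} : Set ℝ).Countable := by
    have : Function.Injective fun x : ℝ => x + x0 := add_left_injective x0
    exact hN.preimage this
  refine BFill_half (W := fun z : ℂ => V (z + x0)) hN' hK' hAK hth hW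
    (fun w hw => hK _ (hmaps w hw.1)) ?_ z ⟨h1, h2, h3⟩
  intro x hx hxN e he
  have hx' : |x + x0| < ℓ := by
    have := abs_add_le x x0
    linarith
  have h4 : V (pt (x + x0) 0) ≤ A := by
    refine (h (x + x0) hx' hxN).trans (ha _ ?_)
    rw [add_sub_cancel_right]
    exact hx
  have h5 : V (pt (x + x0) 0) < A + e := by linarith
  have h6 := hV.usc (pt (x + x0) 0) hx' (A + e) h5
  rw [nhdsWithin_eq_nhds.2 (hopen.mem_nhds hx')] at h6
  have h7 : Tendsto (fun w : ℂ => w + (x0:ℂ)) (𝓝 (pt x 0)) (𝓝 (pt (x + x0) 0)) := by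
    have h8 : (pt x 0 + (x0:ℂ)) = pt (x + x0) 0 := by
      apply Complex.ext <;> simp
    rw [← h8]
    exact (continuous_id.add continuous_const).tendsto (pt x 0)
  have h9 : ∀ᶠ w in 𝓝 (pt x 0), V (w + x0) < A + e := h7.eventually h6
  exact (h9.filter_mono nhdsWithin_le_nhds).mono fun w hw => hw.le

theorem fill {V : ℂ → ℝ} {ℓ K : ℝ} {N : Set ℝ} {a : ℝ → ℝ} (hN : N.Countable)
    (hV : SubH V {w | |w.re| < ℓ}) (hK : ∀ w : ℂ, |w.re| < ℓ → V w ≤ K) (ha : Continuous a)
    (h : ∀ x, |x| < ℓ → x ∉ N → V (pt x 0) ≤ a x) : ∀ x, |x| < ℓ → V (pt x 0) ≤ a x := by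
  intro x0 hx0
  have hopen : IsOpen {w : ℂ | |w.re| < ℓ} := isOpen_lt (by fun_prop) continuous_const
  refine le_of_forall_pos_le_add fun e he => ?_
  set A : ℝ := a x0 + e with hA
  obtain ⟨d, hd0, hd1, hd2, hd3⟩ : ∃ d : ℝ, 0 < d ∧ d ≤ 1 ∧ |x0| + d < ℓ ∧
      ∀ x, |x - x0| < d → a x ≤ A := by
    have h1 : ∀ᶠ x in 𝓝 x0, a x < A :=
      ha.continuousAt.eventually (gt_mem_nhds (by rw [hA]; linarith))
    rw [Metric.eventually_nhds_iff] at h1
    obtain ⟨δ, hδ, h1⟩ := h1
    refine ⟨min (min δ 1) ((ℓ - |x0|) / 2), lt_min (lt_min hδ one_pos) (by linarith), ?_, ?_,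
      fun x hx => ?_⟩
    · exact (min_le_left _ _).trans (min_le_right _ _)
    · have : min (min δ 1) ((ℓ - |x0|) / 2) ≤ (ℓ - |x0|) / 2 := min_le_right _ _
      linarith
    · refine (h1 ?_).le
      rw [Real.dist_eq]
      exact hx.trans_le ((min_le_left _ _).trans (min_le_left _ _))
  set K' : ℝ := max (K - A) 0 with hK'
  have hK'0 : 0 ≤ K' := le_max_right _ _
  have hAK : K ≤ A + K' := by
    have : K - A ≤ K' := le_max_left _ _
    linarith
  -- the conjugate function
  have hVc : SubH (fun z => V (conj z)) {w : ℂ | |w.re| < ℓ} := by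
    refine (subH_conj hV).mono fun z hz => ?_
    show |(conj z).re| < ℓ
    rw [Complex.conj_re]
    exact hz
  have hup := fun th (hth : 0 < th) => BFill_up (th := th) hN hV hK h hd2 hd3 hK'0 hAK hth
  have hlo := fun th (hth : 0 < th) => BFill_up (V := fun z => V (conj z)) (th := th) hN hVc
    (fun w hw => hK (conj w) (by rw [Complex.conj_re]; exact hw))
    (fun x hx hxN => by
      have h1 : conj (pt x 0) = pt x 0 := by
        apply Complex.ext <;> simp
      show V (conj (pt x 0)) ≤ a x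
      rw [h1]
      exact h x hx hxN) hd2 hd3 hK'0 hAK hth
  -- the bound through the circle
  have hcirc : ∀ th : ℝ, 0 < th → th < 1 → th ^ 2 < d → V (pt x0 0) ≤ A + K' * th +
      2 * K' * (Real.cosh (Real.pi / (2 * th) * th ^ 2) / Real.cosh (Real.pi / (2 * th) * d)) := by
    intro th hth hth1 hthd
    obtain ⟨r, hr⟩ : ∃ r : ℝ, r = th ^ 2 := ⟨_, rfl⟩
    have hr0 : 0 < r := by rw [hr]; positivity
    have hrth : r < th := by rw [hr]; nlinarith
    have hrd : r < d := by rw [hr]; exact hthd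
    set B : ℝ := A + K' * th +
      2 * K' * (Real.cosh (Real.pi / (2 * th) * th ^ 2) / Real.cosh (Real.pi / (2 * th) * d))
      with hB
    have hball : closedBall (pt x0 0) r ⊆ {w : ℂ | |w.re| < ℓ} := by
      intro w hw
      rw [mem_closedBall, dist_eq_norm] at hw
      have h1 := (Complex.abs_re_le_norm (w - pt x0 0)).trans hw
      rw [Complex.sub_re, pt_re] at h1
      have h2 : |w.re| ≤ |w.re - x0| + |x0| := by
        have := abs_add_le (w.re - x0) x0
        rwa [sub_add_cancel] at this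
      show |w.re| < ℓ
      linarith
    have hint := hV.circleIntegrable' hr0 hball
    refine (hV.le_average' hr0 hball).trans ?_
    -- the pointwise bound
    have hpt : ∀ θ : ℝ, Real.sin θ ≠ 0 → V (circleMap (pt x0 0) r θ) ≤ B := by
      intro θ hθ
      have hz : circleMap (pt x0 0) r θ = pt (r * Real.cos θ) (r * Real.sin θ) + (x0:ℂ) := by
        rw [circleMap]
        have h1 : cexp ((θ:ℂ) * I) = pt (Real.cos θ) (Real.sin θ) :=
          Complex.ext (Complex.exp_ofReal_mul_I_re θ) (Complex.exp_ofReal_mul_I_im θ)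
        rw [h1]
        apply Complex.ext
        · simp
          ring
        · simp
      have hre : |r * Real.cos θ| ≤ r := by
        rw [abs_mul, abs_of_pos hr0]
        exact mul_le_of_le_one_right hr0.le (Real.abs_cos_le_one θ)
      have him : |r * Real.sin θ| ≤ r := by
        rw [abs_mul, abs_of_pos hr0]
        exact mul_le_of_le_one_right hr0.le (Real.abs_sin_le_one θ)
      have hfin : ∀ y : ℝ, y ≤ r → A + K' * (y / th) + 2 * K' *
          (Real.cosh (Real.pi / (2 * th) * (r * Real.cos θ)) /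
            Real.cosh (Real.pi / (2 * th) * d)) ≤ B := by
        intro y hy
        have h1 : y / th ≤ th := by
          rw [div_le_iff₀ hth]
          rw [hr] at hy
          nlinarith
        have h2 : Real.cosh (Real.pi / (2 * th) * (r * Real.cos θ)) ≤
            Real.cosh (Real.pi / (2 * th) * th ^ 2) := by
          rw [Real.cosh_le_cosh, abs_mul (Real.pi / (2 * th)) (r * Real.cos θ),
            abs_mul (Real.pi / (2 * th)) (th ^ 2)]
          refine mul_le_mul_of_nonneg_left ?_ (abs_nonneg (Real.pi / (2 * th)))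
          rw [← hr, abs_of_pos hr0]
          exact hre
        have h3 := mul_le_mul_of_nonneg_left h1 hK'0
        have h4 : Real.cosh (Real.pi / (2 * th) * (r * Real.cos θ)) /
            Real.cosh (Real.pi / (2 * th) * d) ≤ Real.cosh (Real.pi / (2 * th) * th ^ 2) /
            Real.cosh (Real.pi / (2 * th) * d) :=
          div_le_div_of_nonneg_right h2 (Real.cosh_pos _).le
        have h5 := mul_le_mul_of_nonneg_left h4 (by linarith : 0 ≤ 2 * K')
        rw [hB]
        linarith
      rw [hz]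
      rcases lt_or_gt_of_ne hθ with hs | hs
      · have h1 := hlo th hth (pt (r * Real.cos θ) (-(r * Real.sin θ)))
          (by rw [pt_re]; exact hre.trans_lt hrd)
          (by
            rw [pt_im]
            have := mul_neg_of_pos_of_neg hr0 hs
            linarith)
          (by
            rw [pt_im]
            exact ((neg_le_abs (r * Real.sin θ)).trans him).trans_lt hrth)
        have h2 : conj (pt (r * Real.cos θ) (-(r * Real.sin θ)) + (x0:ℂ)) =
            pt (r * Real.cos θ) (r * Real.sin θ) + (x0:ℂ) := by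
          apply Complex.ext <;> simp
        beta_reduce at h1
        rw [h2] at h1
        refine h1.trans ?_
        exact hfin (-(r * Real.sin θ)) ((neg_le_abs (r * Real.sin θ)).trans him)
      · have h1 := hup th hth (pt (r * Real.cos θ) (r * Real.sin θ))
          (by rw [pt_re]; exact hre.trans_lt hrd)
          (by rw [pt_im]; positivity)
          (by
            rw [pt_im]
            exact ((le_abs_self _).trans him).trans_lt hrth)
        refine h1.trans ?_
        exact hfin _ ((le_abs_self _).trans him)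
    have hcount : ({θ : ℝ | Real.sin θ = 0} : Set ℝ).Countable := by
      have h1 : {θ : ℝ | Real.sin θ = 0} = range fun n : ℤ => (n:ℝ) * Real.pi := by
        ext θ
        simp only [mem_ofPred_eq, mem_range]
        exact Real.sin_eq_zero_iff
      rw [h1]
      exact countable_range _
    have hae : ∀ᵐ θ : ℝ, Real.sin θ ≠ 0 := by
      have h1 := hcount.measure_zero MeasureTheory.volume
      rw [MeasureTheory.ae_iff]
      simpa using h1
    have h1 : ∫ θ in (0:ℝ)..2 * Real.pi, V (circleMap (pt x0 0) r θ) ≤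
        ∫ _ in (0:ℝ)..2 * Real.pi, B := by
      refine intervalIntegral.integral_mono_ae Real.two_pi_pos.le hint
        intervalIntegrable_const ?_
      filter_upwards [hae] with θ hθ
      exact hpt θ hθ
    rw [intervalIntegral.integral_const, smul_eq_mul, sub_zero] at h1
    rw [Real.circleAverage_def, smul_eq_mul, inv_mul_le_iff₀ Real.two_pi_pos]
    exact h1
  -- the limit
  have hlim : ∀ th : ℝ, 0 < th → th < 1 → th ^ 2 < d →
      V (pt x0 0) ≤ A + th * (K' + 2 * K' * (Real.cosh (Real.pi / 2) * (4 / (Real.pi * d)))) := by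
    intro th h1 h2 h3
    refine (hcirc th h1 h2 h3).trans ?_
    have hpi := Real.pi_pos
    have h4 : Real.cosh (Real.pi / (2 * th) * th ^ 2) ≤ Real.cosh (Real.pi / 2) := by
      have h5 : Real.pi / (2 * th) * th ^ 2 = Real.pi / 2 * th := by
        field_simp
      rw [h5, Real.cosh_le_cosh, abs_of_pos (by positivity), abs_of_pos (by positivity)]
      nlinarith
    have h5 : Real.pi * d / (4 * th) ≤ Real.cosh (Real.pi / (2 * th) * d) := by
      rw [Real.cosh_eq]
      have h6 := Real.add_one_le_exp (Real.pi / (2 * th) * d)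
      have h7 := Real.exp_pos (-(Real.pi / (2 * th) * d))
      have h8 : Real.pi * d / (4 * th) = Real.pi / (2 * th) * d / 2 := by
        field_simp
        norm_num
      rw [h8]
      linarith
    have h6 : Real.cosh (Real.pi / (2 * th) * th ^ 2) / Real.cosh (Real.pi / (2 * th) * d) ≤
        th * (Real.cosh (Real.pi / 2) * (4 / (Real.pi * d))) := by
      have h7 : (0:ℝ) < Real.pi * d / (4 * th) := by positivity
      calc Real.cosh (Real.pi / (2 * th) * th ^ 2) / Real.cosh (Real.pi / (2 * th) * d) ≤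
            Real.cosh (Real.pi / 2) / (Real.pi * d / (4 * th)) :=
            div_le_div₀ (Real.cosh_pos _).le h4 h7 h5
        _ = th * (Real.cosh (Real.pi / 2) * (4 / (Real.pi * d))) := by
            field_simp
    have h7 := mul_le_mul_of_nonneg_left h6 (by linarith : 0 ≤ 2 * K')
    linarith
  have hT : Tendsto (fun th : ℝ => A + th *
      (K' + 2 * K' * (Real.cosh (Real.pi / 2) * (4 / (Real.pi * d))))) (𝓝[>] 0) (𝓝 A) := by
    have h1 : Continuous fun th : ℝ => A + th *
      (K' + 2 * K' * (Real.cosh (Real.pi / 2) * (4 / (Real.pi * d)))) := by fun_prop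
    have h2 := h1.tendsto 0
    rw [zero_mul, add_zero] at h2
    exact h2.mono_left nhdsWithin_le_nhds
  refine ge_of_tendsto hT ?_
  filter_upwards [Ioo_mem_nhdsGT hd0] with th hth
  have h1 : th < 1 := hth.2.trans_le hd1
  refine hlim th hth.1 h1 ?_
  have h2 := hth.1
  have h3 := hth.2
  nlinarith

end Pool.Agent.MP_ae5b4e_an_N4
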