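import Pool.Agent.Lib.MP_ae5b4e_an_N4.BD
import Pool.Agent.Lib.MP_ae5b4e_an_N4.Mpx

/-!
# N4, module BMax: the maximum principle for the small radius

`Y := 1`, `p w := prad (ExtR G0 t₀) 1 (psiB rm w)`, `u := -log p`, `U0 := {η | ∃ s > 0, ExtR G0 t₀ s η}` open (`ExtR.eventually`),
`discP_extR` on `U0`.  On `D := Rc (1/4) (-ph0) ph0` `psiB rm w ∈ U0` (`h1`); `u` is `SubH` on `D` (`subH_neg_log_mrad`,
`SubH.comp` with `psiB rm`, `analyticAt_psi`); `p ≥ κ/2` (`le_prad`), so `u ≤ B := log (2/κ)`, `B ≥ 0`.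
Near `pt x (± ph0)` inside `D`: `p ≥ 1/16`, `u ≤ log 16`.
Majorant `M z := log 16 + B cosh (μ z.re) cos (μ z.im)/(cosh (μ/4) cos (μ ph0))`, `μ := π/(4 ph0) = 25 π`, `μ ph0 = π/4`;
harmonic on `univ`: `cosh (μ x) cos (μ y) = (Complex.cosh (μ z)).re` (as `Hc_harm` in Bar.lean).  For `|z.im| ≤ ph0`
`cos (μ z.im) ≥ cos (π/4) > 0`.  `rc_le` (Mpx.lean) with `ℓ := 1/4`, `a := -ph0`, `b := ph0`, `N := ∅`: top and bottom
`BLe D u _ (log 16)` and `log 16 ≤ M`; ends `|z.re| = 1/4`: `M z ≥ B`.  So `u ≤ M` on `D`.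
At `pt x 0`, `|x| ≤ 1/20`: `cosh (μ x) ≤ exp (5π/4)`, `cosh (μ/4) ≥ exp (25π/4)/2`, `cos (π/4) ≥ 7/10`: the factor of `B` is
`≤ 3 exp (-5π) ≤ 3 exp (-15) ≤ 1/100` (`exp 15 ≥ 2.7^15`).  `u ≤ log 16 + log (2/κ)/100 < log (1/(2κ))`: with `L := log (1/κ) ≥ log 10^4 ≥ 9`
this is `log 16 + (log 2 + L)/100 < L - log 2`; `log 2 < .6932`, `log 16 = 4 log 2`.  So `2κ < p`: take `s` with `2κ < s < p`
(`exists_between`), `DiscP.of_lt`.
-/

set_option autoImplicit false

noncomputable section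

namespace Pool.Agent.MP_ae5b4e_an_N4

open Complex Set Filter Topology Metric InnerProductSpace
open Pool.Agent.MP_ae5b4e_an_NBT (St MerAt Mer EqM)
open Pool.Agent.Lib.MP_ae5b4e_an_LL (SubH ExtR prad mdom)
open scoped ComplexConjugate

variable {κ rm : ℝ} {G0 : ℂ × ℂ → ℂ} {t₀ : ℂ}

/-- the majorant -/
private def BMax_M (B : ℝ) (z : ℂ) : ℝ :=
  B / (Real.cosh (25 * Real.pi / 4) * Real.cos (Real.pi / 4)) *
    (Real.cosh (25 * Real.pi * z.re) * Real.cos (25 * Real.pi * z.im)) + Real.log 16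

private theorem BMax_harm (B : ℝ) : HarmonicOnNhd (BMax_M B) univ := by
  intro z _
  let f : ℂ → ℂ := fun z =>
    ((B / (Real.cosh (25 * Real.pi / 4) * Real.cos (Real.pi / 4)) : ℝ) : ℂ) *
      Complex.cosh (((25 * Real.pi : ℝ) : ℂ) * z) + ((Real.log 16 : ℝ) : ℂ)
  have hf : Differentiable ℂ f := by
    intro z
    fun_prop
  have h1 : BMax_M B = fun z => (f z).re := by
    funext z
    have h2 : ((25 * Real.pi : ℝ) : ℂ) * z = ((25 * Real.pi * z.re : ℝ) : ℂ) +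
        ((25 * Real.pi * z.im : ℝ) : ℂ) * I := by
      apply Complex.ext
      · simp
      · simp
    change _ = (((B / (Real.cosh (25 * Real.pi / 4) * Real.cos (Real.pi / 4)) : ℝ) : ℂ) *
      Complex.cosh (((25 * Real.pi : ℝ) : ℂ) * z) + ((Real.log 16 : ℝ) : ℂ)).re
    rw [Complex.add_re, Complex.re_ofReal_mul, h2, Complex.cosh_add, Complex.cosh_mul_I,
      Complex.sinh_mul_I, ← Complex.ofReal_cosh, ← Complex.ofReal_cos, ← Complex.ofReal_sinh,
      ← Complex.ofReal_sin, Complex.ofReal_re]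
    simp only [Complex.add_re, Complex.mul_re, Complex.ofReal_re, Complex.ofReal_im, Complex.I_re,
      Complex.I_im, Complex.mul_im]
    unfold BMax_M
    ring
  rw [h1]
  exact (hf.analyticAt z).harmonicAt_re

private theorem BMax_c : 7 / 10 ≤ Real.cos (Real.pi / 4) := by
  rw [Real.cos_pi_div_four]
  have h1 : (14 / 10 : ℝ) ≤ √2 := by
    rw [Real.le_sqrt (by norm_num) (by norm_num)]
    norm_num
  linarith

private theorem BMax_cos {y : ℝ} (h1 : -ph0 ≤ y) (h2 : y ≤ ph0) :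
    Real.cos (Real.pi / 4) ≤ Real.cos (25 * Real.pi * y) := by
  have hπ := Real.pi_pos
  have h0 : ph0 = 1 / 100 := rfl
  rw [h0] at h1 h2
  have h3 : |y| ≤ 1 / 100 := abs_le.2 ⟨h1, h2⟩
  rw [← Real.cos_abs (25 * Real.pi * y), abs_mul, abs_of_pos (by positivity : 0 < 25 * Real.pi)]
  refine Real.cos_le_cos_of_nonneg_of_le_pi (by positivity) (by linarith) ?_
  have h4 := mul_le_mul_of_nonneg_left h3 (by positivity : 0 ≤ 25 * Real.pi)
  linarith

private theorem BMax_ge {B : ℝ} (hB : 0 ≤ B) {z : ℂ} (h1 : -ph0 ≤ z.im) (h2 : z.im ≤ ph0) :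
    Real.log 16 ≤ BMax_M B z := by
  have hc := BMax_cos h1 h2
  have hc0 := BMax_c
  have h3 : 0 ≤ Real.cos (25 * Real.pi * z.im) := by linarith
  have h4 : 0 < Real.cosh (25 * Real.pi / 4) := Real.cosh_pos _
  have h5 : 0 < Real.cosh (25 * Real.pi * z.re) := Real.cosh_pos _
  have h6 : 0 ≤ B / (Real.cosh (25 * Real.pi / 4) * Real.cos (Real.pi / 4)) *
      (Real.cosh (25 * Real.pi * z.re) * Real.cos (25 * Real.pi * z.im)) :=
    mul_nonneg (div_nonneg hB (mul_nonneg h4.le (by linarith))) (mul_nonneg h5.le h3)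
  unfold BMax_M
  linarith

private theorem BMax_end {B : ℝ} (hB : 0 ≤ B) {z : ℂ} (h0 : |z.re| = 1 / 4) (h1 : -ph0 ≤ z.im)
    (h2 : z.im ≤ ph0) : B ≤ BMax_M B z := by
  have hc := BMax_cos h1 h2
  have hc0 := BMax_c
  have hc1 : 0 < Real.cos (Real.pi / 4) := by linarith
  have h4 : 0 < Real.cosh (25 * Real.pi / 4) := Real.cosh_pos _
  have h5 : Real.cosh (25 * Real.pi * z.re) = Real.cosh (25 * Real.pi / 4) := by
    rw [← Real.cosh_abs (25 * Real.pi * z.re), abs_mul, h0,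
      abs_of_pos (mul_pos (by norm_num) Real.pi_pos : 0 < 25 * Real.pi)]
    congr 1
    ring
  have h6 : B ≤ B / (Real.cosh (25 * Real.pi / 4) * Real.cos (Real.pi / 4)) *
      (Real.cosh (25 * Real.pi * z.re) * Real.cos (25 * Real.pi * z.im)) := by
    rw [h5]
    have h7 : B = B / (Real.cosh (25 * Real.pi / 4) * Real.cos (Real.pi / 4)) *
        (Real.cosh (25 * Real.pi / 4) * Real.cos (Real.pi / 4)) := by
      field_simp
    conv_lhs => rw [h7]
    refine mul_le_mul_of_nonneg_left (mul_le_mul_of_nonneg_left hc h4.le) ?_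
    exact div_nonneg hB (mul_pos h4 hc1).le
  have h8 : 0 ≤ Real.log 16 := Real.log_nonneg (by norm_num)
  unfold BMax_M
  linarith

private theorem BMax_mid {B : ℝ} (hB : 0 ≤ B) {x : ℝ} (hx : |x| ≤ 1 / 20) :
    BMax_M B (pt x 0) ≤ B / 100 + Real.log 16 := by
  have hπ := Real.pi_gt_three
  have hπ0 := Real.pi_pos
  have hc0 := BMax_c
  have hc1 : 0 < Real.cos (Real.pi / 4) := by linarith
  have h4 : 0 < Real.cosh (25 * Real.pi / 4) := Real.cosh_pos _
  have h1 : Real.cosh (25 * Real.pi * x) ≤ Real.exp (5 * Real.pi / 4) := by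
    have h2 : Real.cosh (25 * Real.pi * x) ≤ Real.cosh (5 * Real.pi / 4) := by
      rw [Real.cosh_le_cosh, abs_mul, abs_of_pos (by positivity : 0 < 25 * Real.pi),
        abs_of_pos (by positivity : 0 < 5 * Real.pi / 4)]
      have h3 := mul_le_mul_of_nonneg_left hx (by positivity : 0 ≤ 25 * Real.pi)
      linarith
    refine h2.trans ?_
    rw [Real.cosh_eq]
    have h3 : Real.exp (-(5 * Real.pi / 4)) ≤ Real.exp (5 * Real.pi / 4) :=
      Real.exp_le_exp.2 (by linarith)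
    linarith
  have h5 : 100 * Real.exp (5 * Real.pi / 4) ≤
      Real.cosh (25 * Real.pi / 4) * Real.cos (Real.pi / 4) := by
    have h6 : Real.exp (25 * Real.pi / 4) / 2 ≤ Real.cosh (25 * Real.pi / 4) := by
      rw [Real.cosh_eq]
      have := Real.exp_pos (-(25 * Real.pi / 4))
      linarith
    have h7 : Real.exp (25 * Real.pi / 4) = Real.exp (5 * Real.pi / 4) * Real.exp (5 * Real.pi) := by
      rw [← Real.exp_add]
      congr 1
      ring
    have h8 : (1000 : ℝ) ≤ Real.exp (5 * Real.pi) := by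
      have h9 : Real.exp 15 ≤ Real.exp (5 * Real.pi) := Real.exp_le_exp.2 (by linarith)
      have h10 : Real.exp 15 = Real.exp 1 ^ 15 := by
        rw [← Real.exp_nat_mul]
        norm_num
      have h11 : (2.7 : ℝ) ≤ Real.exp 1 := by
        have := Real.exp_one_gt_d9
        linarith
      have h12 : (2.7 : ℝ) ^ 15 ≤ Real.exp 1 ^ 15 := pow_le_pow_left₀ (by norm_num) h11 15
      have h13 : (1000 : ℝ) ≤ 2.7 ^ 15 := by norm_num
      rw [h10] at h9
      linarith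
    have h14 : 0 < Real.exp (5 * Real.pi / 4) := Real.exp_pos _
    have h15 : Real.exp (5 * Real.pi / 4) * 1000 ≤
        Real.exp (5 * Real.pi / 4) * Real.exp (5 * Real.pi) :=
      mul_le_mul_of_nonneg_left h8 h14.le
    have h16 : Real.exp (5 * Real.pi / 4) * 500 ≤ Real.cosh (25 * Real.pi / 4) := by
      rw [h7] at h6
      linarith
    calc 100 * Real.exp (5 * Real.pi / 4) ≤ (Real.exp (5 * Real.pi / 4) * 500) * (7 / 10) := by
          linarith
      _ ≤ _ := mul_le_mul h16 hc0 (by norm_num) h4.le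
  have h20 : (pt x 0).re = x := rfl
  have h21 : (pt x 0).im = 0 := rfl
  unfold BMax_M
  rw [h20, h21, mul_zero, Real.cos_zero, mul_one]
  have h22 : B / (Real.cosh (25 * Real.pi / 4) * Real.cos (Real.pi / 4)) *
      Real.cosh (25 * Real.pi * x) ≤ B / 100 := by
    rw [div_mul_eq_mul_div, div_le_iff₀ (mul_pos h4 hc1)]
    have h23 : B * Real.cosh (25 * Real.pi * x) ≤ B * Real.exp (5 * Real.pi / 4) :=
      mul_le_mul_of_nonneg_left h1 hB
    have h24 := mul_le_mul_of_nonneg_left h5 hB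
    linarith
  linarith

theorem mic_max (hκ0 : 0 < κ) (hκ : κ ≤ 1 / 10 ^ 4)
    (h1 : ∀ w ∈ Rc (1 / 4) (-ph0) ph0, ExtR G0 t₀ (κ / 2) (psiB rm w))
    (h2 : ∀ x : ℝ, |x| < 1 / 4 →
      ∀ᶠ w in 𝓝[Rc (1 / 4) (-ph0) ph0] (pt x ph0), ExtR G0 t₀ (1 / 16) (psiB rm w))
    (h3 : ∀ x : ℝ, |x| < 1 / 4 →
      ∀ᶠ w in 𝓝[Rc (1 / 4) (-ph0) ph0] (pt x (-ph0)), ExtR G0 t₀ (1 / 16) (psiB rm w))
    {x : ℝ} (hx : |x| ≤ 1 / 20) : ∃ s > 2 * κ, ExtR G0 t₀ s (psiB rm (pt x 0)) := by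
  have hph : ph0 = 1 / 100 := rfl
  set D := Rc (1 / 4) (-ph0) ph0 with hD
  set U0 : Set ℂ := {η | ∃ s > 0, ExtR G0 t₀ s η} with hU0
  have hU0o : IsOpen U0 := by
    rw [isOpen_iff_mem_nhds]
    rintro η ⟨s, hs, h⟩
    filter_upwards [h.eventually] with η' hη'
    exact ⟨s, hs, hη'⟩
  have hDU : MapsTo (psiB rm) D U0 := fun w hw => ⟨κ / 2, by positivity, h1 w hw⟩
  have hsub0 := Pool.Agent.Lib.MP_ae5b4e_an_LL.subH_neg_log_mrad (F := G0) (t₁ := t₀) hU0o
    one_pos (fun η h => h)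
  have hsub := hsub0.comp hU0o (isOpen_Rc (1 / 4) (-ph0) ph0)
    (fun w _ => analyticAt_psi rm w) hDU
  have hκ1 : κ ≤ 1 := hκ.trans (by norm_num)
  set B := Real.log (2 / κ) with hB
  have hB0 : 0 ≤ B := Real.log_nonneg (by
    rw [le_div_iff₀ hκ0]
    linarith)
  have hBle : ∀ z ∈ D, -Real.log (prad (ExtR G0 t₀) 1 (psiB rm z)) ≤ B := by
    intro z hz
    have h4 : κ / 2 ≤ prad (ExtR G0 t₀) 1 (psiB rm z) :=
      Pool.Agent.Lib.MP_ae5b4e_an_LL.le_prad (by positivity) (by linarith) (h1 z hz)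
    have h5 := Real.log_le_log (by positivity) h4
    have h6 : B = -Real.log (κ / 2) := by
      rw [hB, ← Real.log_inv, inv_div]
    linarith
  have hloc : ∀ ζ : ℂ, -ph0 ≤ ζ.im → ζ.im ≤ ph0 →
      (∀ᶠ w in 𝓝[D] ζ, ExtR G0 t₀ (1 / 16) (psiB rm w)) →
      BLe D (fun w => -Real.log (prad (ExtR G0 t₀) 1 (psiB rm w))) ζ (BMax_M B ζ) := by
    intro ζ hζ1 hζ2 h e he
    filter_upwards [h] with w hw
    have h4 : (1 / 16 : ℝ) ≤ prad (ExtR G0 t₀) 1 (psiB rm w) :=
      Pool.Agent.Lib.MP_ae5b4e_an_LL.le_prad (by norm_num) (by norm_num) hw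
    have h5 := Real.log_le_log (by norm_num) h4
    have h6 : Real.log (1 / 16) = -Real.log 16 := by
      rw [one_div, Real.log_inv]
    have h7 := BMax_ge hB0 hζ1 hζ2
    linarith
  have key := rc_le hsub hBle (BMax_harm B) (N := ∅) Set.countable_empty
    (fun x hx _ => hloc _ le_rfl (by rw [pt_im, hph]; norm_num) (h3 x hx))
    (fun x hx _ => hloc _ (by rw [pt_im, hph]; norm_num) le_rfl (h2 x hx))
    (fun z hz hz1 hz2 => BMax_end hB0 hz hz1 hz2)
  have hxD : pt x 0 ∈ D := by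
    refine ⟨?_, ?_, ?_⟩
    · rw [pt_re]
      linarith
    · rw [pt_im, hph]
      norm_num
    · rw [pt_im, hph]
      norm_num
  have h10 := key _ hxD
  have h11 := BMax_mid hB0 hx
  have hP : Pool.Agent.Lib.MP_ae5b4e_an_LL.DiscP (ExtR G0 t₀) U0 :=
    Pool.Agent.Lib.MP_ae5b4e_an_LL.discP_extR hU0o (fun η h => h)
  have hp0 := hP.prad_pos (hDU hxD) one_pos
  have hlt : 2 * κ < prad (ExtR G0 t₀) 1 (psiB rm (pt x 0)) := by
    rw [← Real.log_lt_log_iff (by positivity) hp0]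
    have h12 : B = Real.log 2 - Real.log κ := by
      rw [hB, Real.log_div (by norm_num) hκ0.ne']
    have h13 : Real.log (2 * κ) = Real.log 2 + Real.log κ :=
      Real.log_mul (by norm_num) hκ0.ne'
    have h14 : Real.log 16 = 4 * Real.log 2 := by
      rw [show (16 : ℝ) = 2 ^ 4 by norm_num, Real.log_pow]
      norm_num
    have h15 := Real.log_two_lt_d9
    have h16 : Real.log κ ≤ -9 := by
      have h17 := Real.log_le_log hκ0 hκ
      have h18 : Real.log (1 / 10 ^ 4) ≤ -9 := by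
        rw [Real.log_le_iff_le_exp (by norm_num)]
        have h19 : Real.exp (-9) = (Real.exp 1 ^ 9)⁻¹ := by
          rw [Real.exp_neg, ← Real.exp_nat_mul]
          norm_num
        rw [h19, one_div]
        refine inv_anti₀ (by positivity) ?_
        have h20 : Real.exp 1 ≤ 2.72 := by
          have := Real.exp_one_lt_d9
          linarith
        have h21 : Real.exp 1 ^ 9 ≤ 2.72 ^ 9 := pow_le_pow_left₀ (Real.exp_pos 1).le h20 9
        have h22 : (2.72 : ℝ) ^ 9 ≤ 10 ^ 4 := by norm_num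
        linarith
      linarith
    have h24 : -Real.log (prad (ExtR G0 t₀) 1 (psiB rm (pt x 0))) ≤ B / 100 + Real.log 16 :=
      h10.trans h11
    rw [h13]
    rw [h12, h14] at h24
    norm_num at h15
    linarith
  obtain ⟨s, hs1, hs2⟩ := exists_between hlt
  exact ⟨s, hs1, hP.of_lt (hDU hxD) one_pos hs2⟩

end Pool.Agent.MP_ae5b4e_an_N4
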