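import Pool.Agent.Lib.MP_ae5b4e_an_N4.BGeo

/-!
# N4, module BReg: regular points of the line

`regZ_of_ext`: `hE`: `d > 0`, `G`, `Mer G (ball t₀ s ×ˢ ball c d)`, `EqM G G0 (t₀, η)` for `η ∈
ball c d`.  For `η` near `c`: `ra < ‖η‖ < rb`; `EqM G0 F (t₀, η)` (`eqM_slice`); `(η t₀).im < -v
η` (at `c` it is `ht`; `v` is upper semicontinuous at `c`: take `m` with `(c t₀).im < m < -v c`).
Take `0 < d' ≤ d` such that all this holds for `η ∈ ball c d'`. `N := ball t₀ s ×ˢ ball c d'`,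
open, contains the point (`hd`); `g := G`.  For `p = (z, η) ∈ N` with `(η z).im < -v η`:
`eqM_convex` with `C := ball t₀ s ∩ {z | (η z).im < -v η}` (convex: `z ↦ (η z).im` is real
linear), `z₀ := t₀` (`s > 0` by `hd`), `MerAt G`, `MerAt F` (`hS.cor.mer`, `‖z‖ ≤ ‖t₀‖ + s ≤ 4
k`), `EqM G F (t₀, η)`.

`mle`: `c := rm exp x`, `m := v c / c`, `0 ≤ m ≤ η k` (as in BBot: `hS.pos`, `hS.con` with
`(c:ℂ).im = 0`).  Suppose `uR k rm F q (pt x 0) < m` for `q = 0` and `q = -1`.  `ext_of_uR_lt`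
(`h0` from `ext_low`, `arg c = 0`): `s > k/16 - m` with `ExtR F (tq k q) s c` (`psi_real`); with
`ExtR.mono` we may take `s ≤ k/16 + 1` (`min s (k/16 + 1)`).  `regZ_of_ext` with `G0 := F`, `t₀ :=
tq k q`: `(c t₀).im = -c k/16 < -v c` as `m < k/16`; `dist (q - m I) (tq k q) = k/16 - m < s`;
`‖tq‖ + s ≤ 1 + k/16 + k/16 + 1`. So `RegZ v F c 0` and `RegZ v F c (-1)`; contradiction to `hgp`
with `q = 0` (`0 - 1 = -1`).
-/

set_option autoImplicit false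

noncomputable section

namespace Pool.Agent.MP_ae5b4e_an_N4

open Complex Set Filter Topology Metric InnerProductSpace
open Pool.Agent.MP_ae5b4e_an_NBT (St MerAt Mer EqM)
open Pool.Agent.Lib.MP_ae5b4e_an_LL (SubH ExtR prad)
open scoped ComplexConjugate

variable {k ra rb rm ℓ δ η ε r1 : ℝ} {v : ℂ → ℝ} {F E : ℂ × ℂ → ℂ} {z₁ : ℂ → ℂ}

theorem regZ_of_ext (hS : Side k ra rb rm ℓ δ η ε r1 v F E z₁) {c q s : ℝ} {t₀ : ℂ}
    {G0 : ℂ × ℂ → ℂ} (h1 : ra < c) (h2 : c < rb) (ht : ((c:ℂ) * t₀).im < -v c)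
    (hs : ‖t₀‖ + s ≤ 4 * k) (hE : ExtR G0 t₀ s c) (hG : EqM G0 F (t₀, (c:ℂ)))
    (hd : dist ((q:ℂ) - ((v c / c : ℝ) : ℂ) * I) t₀ < s) : RegZ v F c q := by
  have hc0 : 0 < c := hS.ra0.trans h1
  have hcn : ‖(c:ℂ)‖ = c := by rw [Complex.norm_real, Real.norm_of_nonneg hc0.le]
  have hs0 : 0 < s := dist_nonneg.trans_lt hd
  obtain ⟨d, hd0, G, hGm, hGe⟩ := hE
  have hmem : (c:ℂ) ∈ {ρ : ℂ | ra < ‖ρ‖ ∧ ‖ρ‖ < rb} := by
    rw [Set.mem_ofPred_eq, hcn]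
    exact ⟨h1, h2⟩
  have ha : ∀ᶠ ζ : ℂ in 𝓝 (c:ℂ), ra < ‖ζ‖ ∧ ‖ζ‖ < rb := (isOpen_ann ra rb).mem_nhds hmem
  obtain ⟨m, hm1, hm2⟩ := exists_between ht
  have hb : ∀ᶠ ζ : ℂ in 𝓝 (c:ℂ), (ζ * t₀).im < m := by
    have hcont : Continuous fun ζ : ℂ => (ζ * t₀).im :=
      Complex.continuous_im.comp (continuous_id.mul continuous_const)
    exact hcont.continuousAt.eventually_lt_const hm1
  have hv : ∀ᶠ ζ : ℂ in 𝓝 (c:ℂ), v ζ < -m := by
    have h3 := hS.usc (c:ℂ) hmem (-m) (by linarith)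
    rwa [(isOpen_ann ra rb).nhdsWithin_eq hmem] at h3
  have hdm : ∀ᶠ ζ : ℂ in 𝓝 (c:ℂ), ζ ∈ ball (c:ℂ) d := ball_mem_nhds _ hd0
  obtain ⟨d', hd', hall⟩ := Metric.eventually_nhds_iff_ball.1
    (hdm.and ((eqM_slice hG).and (ha.and (hb.and hv))))
  refine ⟨ball t₀ s ×ˢ ball (c:ℂ) d', (isOpen_ball.prod isOpen_ball).mem_nhds
    ⟨mem_ball.2 hd, mem_ball_self hd'⟩, G, ?_, ?_⟩
  · intro p hp
    exact hGm p ⟨hp.1, (hall p.2 hp.2).1⟩
  · rintro ⟨z, ζ⟩ ⟨hz, hζ⟩ hlt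
    obtain ⟨e1, e2, ⟨e3, e4⟩, e5, e6⟩ := hall ζ hζ
    have hlin : IsLinearMap ℝ fun x : ℂ => (ζ * x).im :=
      { map_add := fun x y => by rw [mul_add, add_im]
        map_smul := fun a x => by
          rw [mul_smul_comm, Complex.smul_im] }
    have hconv : Convex ℝ (ball t₀ s ∩ {x : ℂ | (ζ * x).im < -v ζ}) :=
      (convex_ball t₀ s).inter (convex_halfSpace_lt hlin _)
    refine eqM_convex hconv (z₀ := t₀) ⟨mem_ball_self hs0, ?_⟩ ?_ ?_ ?_ z ⟨hz, hlt⟩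
    · change (ζ * t₀).im < -v ζ
      linarith
    · intro x hx
      exact hGm (x, ζ) ⟨hx.1, e1⟩
    · intro x hx
      refine hS.cor.mer x ζ e3 e4 ?_ hx.2
      have h3 : ‖x‖ ≤ ‖t₀‖ + dist x t₀ := by
        rw [dist_eq_norm]
        have := norm_add_le t₀ (x - t₀)
        rwa [add_sub_cancel] at this
      have h4 := mem_ball.1 hx.1
      linarith
    · exact (hGe ζ e1).trans e2

theorem mle (hS : Side k ra rb rm ℓ δ η ε r1 v F E z₁)
    (hgp : ∀ c q : ℝ, ra < c → c < rb → Irrational c → |q| ≤ 2 →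
      ¬ (RegZ v F c q ∧ RegZ v F c (q - 1))) {x : ℝ} (hx : |x| < ℓ)
    (hi : Irrational (rm * Real.exp x)) :
    v ((rm * Real.exp x : ℝ) : ℂ) / (rm * Real.exp x) ≤
      max (uR k rm F 0 (pt x 0)) (uR k rm F (-1) (pt x 0)) := by
  obtain ⟨h1, h2⟩ := hS.memR hx
  obtain ⟨c, hc⟩ : ∃ c, c = rm * Real.exp x := ⟨_, rfl⟩
  rw [← hc] at h1 h2 hi ⊢
  have hc0 : 0 < c := hS.ra0.trans h1
  have hcn : ‖(c:ℂ)‖ = c := by rw [Complex.norm_real, Real.norm_of_nonneg hc0.le]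
  have hk := hS.hk
  have hk0 : 0 < k := hS.k0
  obtain ⟨m, hm⟩ : ∃ m, m = v (c:ℂ) / c := ⟨_, rfl⟩
  have hvm : v (c:ℂ) = m * c := by rw [hm]; field_simp
  have hm0 : 0 ≤ m := by
    rw [hm]
    exact div_nonneg (hS.pos c h1 h2) hc0.le
  have hm1 : m ≤ η * k := by
    have h3 := hS.con (c:ℂ) (by rw [hcn]; exact h1) (by rw [hcn]; exact h2)
    rw [hcn, Complex.ofReal_im, abs_zero, mul_zero, zero_add, hvm] at h3
    have h4 : m * c ≤ η * k * c := by linarith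
    exact le_of_mul_le_mul_right h4 hc0
  have hm2 : m ≤ 1 / 100000 * k := hm1.trans (mul_le_mul_of_nonneg_right hS.η1 hk0.le)
  by_contra hcon
  rw [not_le, max_lt_iff] at hcon
  have key : ∀ q : ℝ, |q| ≤ 1 → uR k rm F q (pt x 0) < m → RegZ v F c q := by
    intro q hq hu
    have hw : pt x 0 ∈ Rc ℓ (-ph0) ph0 := by
      refine ⟨hx, ?_, ?_⟩
      · rw [pt_im]; unfold ph0; norm_num
      · rw [pt_im]; unfold ph0; norm_num
    obtain ⟨s, hs1, hs2⟩ := ext_of_uR_lt hk0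
      ⟨k / 32, by positivity, ext_low_w hS hw (hq.trans (by norm_num))⟩ hu
    rw [psi_real, ← hc] at hs2
    have hs3 : ExtR F (tq k q) (min s (k / 16 + 1)) (c:ℂ) := hs2.mono (min_le_left _ _)
    have hs4 : k / 16 - m < min s (k / 16 + 1) := lt_min hs1 (by linarith)
    refine regZ_of_ext hS (t₀ := tq k q) (G0 := F) h1 h2 ?_ ?_ hs3 (EqM.refl _ _) ?_
    · rw [Complex.im_ofReal_mul, tq_im, hvm]
      have : c * m < c * (k / 16) := mul_lt_mul_of_pos_left (by linarith) hc0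
      linarith
    · have h3 := Complex.norm_le_abs_re_add_abs_im (tq k q)
      rw [tq_re, tq_im, abs_neg, abs_of_pos (by positivity : 0 < k / 16)] at h3
      have h4 := min_le_right s (k / 16 + 1)
      linarith
    · rw [← hm, dist_eq_norm]
      have e : (q:ℂ) - (m:ℂ) * I - tq k q = ((k / 16 - m : ℝ) : ℂ) * I := by
        apply Complex.ext
        · simp
        · simp
          ring
      rw [e, norm_mul, Complex.norm_I, mul_one, Complex.norm_real,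
        Real.norm_of_nonneg (by linarith : 0 ≤ k / 16 - m)]
      exact hs4
  rw [← hm] at hcon
  refine hgp c 0 h1 h2 hi (by norm_num) ⟨key 0 (by norm_num) hcon.1, ?_⟩
  have h3 := key (-1) (by norm_num) hcon.2
  rwa [show (0:ℝ) - 1 = -1 by norm_num]

end Pool.Agent.MP_ae5b4e_an_N4
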