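import Pool.Agent.Lib.MP_ae5b4e_an_N4.BEnd
import Pool.Agent.Lib.MP_ae5b4e_an_N4.BMax
import Pool.Agent.Lib.MP_ae5b4e_an_N4.BReg

/-!
# N4, module BMic: the micro end

If `Ω`, the heights and the functions `uR` are at most `κ ≤ 10^(-4)` for `|x| ≤ 2`, we get a contradiction.
-/

set_option autoImplicit false

noncomputable section

namespace Pool.Agent.MP_ae5b4e_an_N4

open Complex Set Filter Topology Metric InnerProductSpace
open Pool.Agent.MP_ae5b4e_an_NBT (St MerAt Mer EqM)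
open Pool.Agent.Lib.MP_ae5b4e_an_LL (SubH ExtR prad mdom exists_mext)
open scoped ComplexConjugate

variable {k ra rb rm ℓ δ η ε r1 κ : ℝ} {v : ℂ → ℝ} {F E E' : ℂ × ℂ → ℂ} {z₁ : ℂ → ℂ}

theorem BMic_ph : (0:ℝ) < ph2 ∧ ph2 < ph1 ∧ ph1 < ph0 ∧ ph0 < 1 := by
  unfold ph0 ph1 ph2
  norm_num

theorem BMic_sub {w : ℂ} (hw : w ∈ Rc (1 / 4) (-ph0) ph0) : w ∈ Rc 2 (-ph0) ph0 :=
  ⟨hw.1.trans (by norm_num), hw.2⟩

/-- one of the two centres -/
theorem BMic_one (hB : Both k ra rb rm ℓ δ η ε r1 v F E E' z₁) (hℓ : 2 < ℓ) (hκ0 : 0 < κ)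
    (hκ : κ ≤ 1 / 10 ^ 4)
    (hΩ : ∀ w : ℂ, |w.re| ≤ 2 → ph1 ≤ w.im → w.im ≤ Real.pi - ph1 → |Om rm z₁ w| ≤ κ)
    {q : ℝ} (hq : |q| ≤ 3)
    (hu : ∀ w ∈ Rc 2 (-ph0) ph0, uR k rm F q w ≤ κ)
    (ht : ∀ j : ℤ, 1 / 4 ≤ |q - (z₁ (psiB rm (pt 0 ph0))).re - j|)
    (hb : ∀ j : ℤ, 1 / 4 ≤ |q + (z₁ (psiB rm (pt 0 (Real.pi - ph0)))).re - j|)
    {x : ℝ} (hx : |x| ≤ 1 / 20) (hm0 : 0 ≤ v ((rm * Real.exp x : ℝ) : ℂ))
    (hm : v ((rm * Real.exp x : ℝ) : ℂ) / (rm * Real.exp x) ≤ κ) :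
    RegZ v F (rm * Real.exp x) q := by
  have hS := hB.s
  have hk := hS.hk
  have hk0 := hS.k0
  obtain ⟨E1, h1, h2⟩ := exists_mext F (tq k q)
  have hy0 : (0:ℝ) < 2 * κ := by linarith
  have hy1 : 2 * κ ≤ 1 / 16 := by norm_num at hκ; linarith
  have hκy : κ < 2 * κ := by linarith
  have hmem : pt x 0 ∈ Rc 2 (-ph0) ph0 := by
    have := BMic_ph
    refine ⟨?_, ?_, ?_⟩
    · show |x| < 2
      linarith
    · show -ph0 < 0
      linarith
    · show 0 < ph0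
      linarith
  obtain ⟨s, hs, hE⟩ : ∃ s > 2 * κ, ExtR E1 (pt q (-(2 * κ))) s (psiB rm (pt x 0)) := by
    refine mic_max hκ0 hκ (fun w hw => e1_small hS hℓ hq hκ0 hκ hu h1 (BMic_sub hw)) ?_ ?_ hx
    · intro x' hx'
      have h3 := end_top hS hℓ hκ0 hκ hΩ hq hy0 hy1 ht hx'.le
      filter_upwards [mem_nhdsWithin_of_mem_nhds h3, self_mem_nhdsWithin] with w hw1 hw2
      exact e1_cov hS hℓ hq hκ0 hκ hu h1 h2 (BMic_sub hw2) hκy hy1 (hw1 hw2.2.2.le)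
    · intro x' hx'
      have h3 := end_bot hB hℓ hκ0 hκ hΩ hq hy0 hy1 hb hx'.le
      filter_upwards [mem_nhdsWithin_of_mem_nhds h3, self_mem_nhdsWithin] with w hw1 hw2
      exact e1_cov hS hℓ hq hκ0 hκ hu h1 h2 (BMic_sub hw2) hκy hy1 (hw1 hw2.2.1.le)
  have hcpos : 0 < rm * Real.exp x := mul_pos hS.rm0 (Real.exp_pos _)
  have hxl : |x| < ℓ := by linarith
  obtain ⟨hc1, hc2⟩ := hS.memR hxl
  set c : ℝ := rm * Real.exp x with hc
  rw [psi_real, ← hc] at hE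
  have hvc : v c ≤ κ * c := (div_le_iff₀ hcpos).1 hm
  have him : ((c:ℂ) * pt q (-(2 * κ))).im = -(2 * κ * c) := by
    rw [Complex.im_ofReal_mul, pt_im]
    ring
  have hlt : ((c:ℂ) * pt q (-(2 * κ))).im < -v c := by
    rw [him]
    have : κ * c < 2 * κ * c := by
      have := mul_pos hκ0 hcpos
      linarith
    linarith
  have hdist : dist (pt q (-(2 * κ))) (tq k q) < k / 16 - κ := by
    rw [dist_eq_norm]
    have : pt q (-(2 * κ)) - tq k q = ((k / 16 - 2 * κ : ℝ) : ℂ) * I := by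
      apply Complex.ext
      · simp
      · simp
        ring
    rw [this, norm_mul, Complex.norm_I, mul_one, Complex.norm_real, Real.norm_eq_abs,
      abs_of_nonneg (by norm_num at hκ; linarith)]
    linarith
  have hG : EqM E1 F (pt q (-(2 * κ)), (c:ℂ)) := by
    have h3 := e1_eq hS hℓ hq hκ0 hκ hu h1 h2 hmem hdist (by
      rw [psi_real, ← hc]
      exact hlt)
    rwa [psi_real, ← hc] at h3
  have hs1 : 2 * κ < min s 1 := lt_min hs (by linarith)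
  refine regZ_of_ext hS (s := min s 1) hc1 hc2 hlt ?_ (hE.mono (min_le_left _ _)) hG ?_
  · have h3 : ‖pt q (-(2 * κ))‖ ≤ |q| + |-(2 * κ)| := Complex.norm_le_abs_re_add_abs_im _
    rw [abs_neg, abs_of_pos hy0] at h3
    have h4 : min s 1 ≤ 1 := min_le_right _ _
    linarith
  · refine lt_of_le_of_lt ?_ hs1
    have h5 : (q:ℂ) - ((v c / c : ℝ) : ℂ) * I - pt q (-(2 * κ)) =
        ((2 * κ - v c / c : ℝ) : ℂ) * I := by
      apply Complex.ext
      · simp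
      · simp
        ring
    rw [dist_eq_norm, h5, norm_mul, Complex.norm_I, mul_one, Complex.norm_real,
      Real.norm_eq_abs]
    have h6 : 0 ≤ v c / c := div_nonneg hm0 hcpos.le
    rw [abs_le]
    constructor <;> linarith

theorem micro (hB : Both k ra rb rm ℓ δ η ε r1 v F E E' z₁) (hℓ : 2 < ℓ) (hκ0 : 0 < κ)
    (hκ : κ ≤ 1 / 10 ^ 4)
    (hΩ : ∀ w : ℂ, |w.re| ≤ 2 → ph1 ≤ w.im → w.im ≤ Real.pi - ph1 → |Om rm z₁ w| ≤ κ)
    (hu : ∀ q : ℝ, |q| ≤ 3 → ∀ w ∈ Rc 2 (-ph0) ph0, uR k rm F q w ≤ κ)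
    (hm : ∀ x : ℝ, |x| ≤ 2 → Irrational (rm * Real.exp x) →
      v ((rm * Real.exp x : ℝ) : ℂ) / (rm * Real.exp x) ≤ κ) : False := by
  have hS := hB.s
  obtain ⟨q, hq0, hq1, ha, hb⟩ := exists_q (z₁ (psiB rm (pt 0 ph0))).re
    (-(z₁ (psiB rm (pt 0 (Real.pi - ph0)))).re)
  obtain ⟨c, hci, hc1, hc2⟩ : ∃ c : ℝ, Irrational c ∧ rm < c ∧ c < rm * Real.exp (1 / 20) := by
    have h1 : rm < rm * Real.exp (1 / 20) := by
      have := Real.add_one_lt_exp (x := 1 / 20) (by norm_num)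
      have h2 := mul_lt_mul_of_pos_left (this.trans_le' (by norm_num : (1:ℝ) ≤ 1 / 20 + 1)) hS.rm0
      linarith
    obtain ⟨c, h2, h3, h4⟩ := exists_irrational_btwn h1
    exact ⟨c, h2, h3, h4⟩
  have hc0 : 0 < c := hS.rm0.trans hc1
  set x := Real.log (c / rm) with hx
  have hcx : rm * Real.exp x = c := by
    rw [hx, Real.exp_log (div_pos hc0 hS.rm0)]
    field_simp [hS.rm0.ne']
  have hx0 : 0 ≤ x := Real.log_nonneg ((one_le_div hS.rm0).2 hc1.le)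
  have hx1 : x ≤ 1 / 20 := by
    have h1 : Real.exp x ≤ Real.exp (1 / 20) := by
      rw [← hcx] at hc2
      exact (lt_of_mul_lt_mul_left hc2 hS.rm0.le).le
    exact Real.exp_le_exp.1 h1
  have hxa : |x| ≤ 1 / 20 := by
    rw [abs_of_nonneg hx0]
    exact hx1
  have hxl : |x| < ℓ := by linarith
  obtain ⟨hr1, hr2⟩ := hS.memR hxl
  have hirr : Irrational (rm * Real.exp x) := by rwa [hcx]
  have hv0 : 0 ≤ v ((rm * Real.exp x : ℝ) : ℂ) := hS.pos _ hr1 hr2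
  have hv1 := hm x (by linarith) hirr
  have hqa : |q| ≤ 3 := by
    rw [abs_of_nonneg hq0]
    linarith
  have hqb : |q - 1| ≤ 3 := by
    rw [abs_le]
    constructor <;> linarith
  have R1 : RegZ v F (rm * Real.exp x) q := by
    refine BMic_one hB hℓ hκ0 hκ hΩ hqa (hu q hqa) ha (fun j => ?_) hxa hv0 hv1
    have := hb j
    rwa [sub_neg_eq_add] at this
  have R2 : RegZ v F (rm * Real.exp x) (q - 1) := by
    refine BMic_one hB hℓ hκ0 hκ hΩ hqb (hu (q - 1) hqb) (fun j => ?_) (fun j => ?_) hxa hv0 hv1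
    · have := ha (j + 1)
      push_cast at this
      rwa [show q - 1 - (z₁ (psiB rm (pt 0 ph0))).re - (j:ℝ) =
        q - (z₁ (psiB rm (pt 0 ph0))).re - (j + 1) by ring]
    · have := hb (j + 1)
      push_cast at this
      rwa [show q - 1 + (z₁ (psiB rm (pt 0 (Real.pi - ph0)))).re - (j:ℝ) =
        q - -(z₁ (psiB rm (pt 0 (Real.pi - ph0)))).re - (j + 1) by ring]
  exact hB.gp _ q hr1 hr2 hirr (by rw [abs_of_nonneg hq0]; linarith) ⟨R1, R2⟩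

end Pool.Agent.MP_ae5b4e_an_N4
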