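import Pool.Agent.Lib.MP_ae5b4e_an_N4.PtD
import Mathlib.Analysis.Real.Pi.Bounds

/-!
# N4, module Bar: the barriers

Harmonicity: `cosh (x/4) cos ((y-c)/4) = Re cosh ((z - c i)/4)`,
`cosh (x/4) sin ((t-y)/4) = - Im sinh ((z - t i)/4)`, `cosh (x/4) sin (y/4) = Im sinh (z/4)`, affine
functions of `y` are real parts of affine functions of `z`; `AnalyticAt.harmonicAt_re / im`.
`Hc`: `cos ((z.im - c)/4) ≥ cos (d/4) ≥ cos (π/4) > 0` for `|z.im - c| ≤ d ≤ π`; and `cos ≤ 1`, `ε ≤ ε / cos`.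
`Hs`: on `ph1 ≤ y ≤ π/2` the number `(π/2 + 1/10 - y)/4` is in `[1/40, (π/2 + 1/10 - ph1)/4] ⊆ [0, π/2]`,
`sin` is increasing there.  `Hs_ph0`: `a := (π/2 + 1/10 - ph0)/4 < b := (π/2 + 1/10 - ph1)/4`,
`b - a = 0.0021875`; mean value: `sin b - sin a ≥ (b - a) cos b`, `cos b ≥ 1 - b²/2 ≥ 0.9128`,
`sin b ≤ b ≤ 0.4174` (`Real.pi_lt_d4`), so `sin a / sin b ≤ 1 - 0.0021875 * 0.9128 / 0.4174 ≤ 0.9953`;
`(π/2 + 1/10 - ph0)/(π/2 + 1/10 - ph1) = 1 - 0.00875/(π/2 + 0.09875) ≤ 0.9953`.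
`Hs_end`: `cosh (z.re/4) = cosh (ℓ/4)`; `sin (1/40)/ sin b ≥ 0.024/0.4174 ≥ 1/20`.
`Hu_ph1`: `sin (ph1/4) ≤ ph1/4`, `sin (ph0/4) ≥ (ph0/4)(1 - (ph0/4)²/4)`, and `ph1/ph0 = 1/8 ≤ 1/7`.
`inv_cos`: `cos t ≥ 1 - t²/2`; `cos (π/8)⁻¹ ≤ 1.09` from `1 - (π/8)²/2 ≥ 0.9228`, `1/0.9228 ≤ 1.09`.
`PP_far`: if `ℓ ≥ 5/2`: `cosh (ℓ/4) ≤ exp (5/8) cosh (x/4)` (as `|x|/4 ≥ ℓ/4 - 5/8`,
`cosh (s + t) ≤ exp t cosh s` for `t ≥ 0`) and `exp (5/8) ≤ 2`; if `ℓ < 5/2`: `cosh (ℓ/4) ≤ 2`.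
-/

set_option autoImplicit false

noncomputable section

namespace Pool.Agent.MP_ae5b4e_an_N4

open Complex Set Filter Topology Metric InnerProductSpace

variable {k ℓ ε : ℝ}

/-! ### elementary inequalities -/

private lemma bar_cosh_abs {x : ℝ} (hx : |x| = ℓ) : Real.cosh (x / 4) = Real.cosh (ℓ / 4) := by
  rw [← hx, ← Real.cosh_abs (x / 4), abs_div, abs_of_pos (by norm_num : (0:ℝ) < 4)]

private lemma bar_nonneg (hk : 0 ≤ k) (x : ℝ) : 0 ≤ k * Real.cosh (x / 4) / Real.cosh (ℓ / 4) :=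
  div_nonneg (mul_nonneg hk (Real.cosh_pos _).le) (Real.cosh_pos _).le

private lemma bar_exp : Real.exp (5 / 8) ≤ 2 := by
  have h1 : Real.exp (5 / 8) ^ 8 = Real.exp 1 ^ 5 := by
    rw [← Real.exp_nat_mul, ← Real.exp_nat_mul]
    norm_num
  have h2 : Real.exp 1 ^ 5 ≤ 2.7182818286 ^ 5 :=
    pow_le_pow_left₀ (Real.exp_pos _).le Real.exp_one_lt_d9.le 5
  by_contra hcon
  push Not at hcon
  have h3 : (2:ℝ) ^ 8 < Real.exp (5 / 8) ^ 8 := pow_lt_pow_left₀ hcon (by norm_num) (by norm_num)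
  rw [h1] at h3
  norm_num at h2 h3
  linarith

private lemma bar_cosh_add {s t : ℝ} (ht : 0 ≤ t) :
    Real.cosh (s + t) ≤ Real.exp t * Real.cosh s := by
  rw [Real.cosh_add, ← Real.cosh_add_sinh]
  have h1 : Real.sinh s ≤ Real.cosh s := Real.sinh_lt_cosh s |>.le
  have h2 : 0 ≤ Real.sinh t := Real.sinh_nonneg_iff.2 ht
  nlinarith

private lemma bar_cos_pos {d : ℝ} (hd0 : 0 ≤ d) (hd : d ≤ Real.pi) : 0 < Real.cos (d / 4) := by
  have := Real.pi_pos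
  exact Real.cos_pos_of_mem_Ioo ⟨by linarith, by linarith⟩

private lemma bar_re_cosh (a b : ℝ) :
    (Complex.cosh (a + b * I)).re = Real.cosh a * Real.cos b := by
  rw [Complex.cosh_add, Complex.cosh_mul_I, Complex.sinh_mul_I, ← Complex.ofReal_cosh,
    ← Complex.ofReal_cos, ← Complex.ofReal_sinh, ← Complex.ofReal_sin]
  simp only [Complex.add_re, Complex.mul_re, Complex.ofReal_re, Complex.ofReal_im, Complex.I_re,
    Complex.I_im, Complex.mul_im]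
  ring

private lemma bar_im_sinh (a b : ℝ) :
    (Complex.sinh (a + b * I)).im = Real.cosh a * Real.sin b := by
  rw [Complex.sinh_add, Complex.cosh_mul_I, Complex.sinh_mul_I, ← Complex.ofReal_cosh,
    ← Complex.ofReal_cos, ← Complex.ofReal_sinh, ← Complex.ofReal_sin]
  simp only [Complex.add_im, Complex.mul_re, Complex.ofReal_re, Complex.ofReal_im, Complex.I_re,
    Complex.I_im, Complex.mul_im]
  ring

private lemma bar_harm_re {f : ℂ → ℂ} (hf : Differentiable ℂ f) {g : ℂ → ℝ}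
    (h : ∀ z, g z = (f z).re) : HarmonicOnNhd g univ := by
  intro z _
  have h1 : g = fun z => (f z).re := funext h
  rw [h1]
  exact (hf.analyticAt z).harmonicAt_re

private lemma bar_harm_im {f : ℂ → ℂ} (hf : Differentiable ℂ f) {g : ℂ → ℝ}
    (h : ∀ z, g z = (f z).im) : HarmonicOnNhd g univ := by
  intro z _
  have h1 : g = fun z => (f z).im := funext h
  rw [h1]
  exact (hf.analyticAt z).harmonicAt_im

private lemma bar_pi_lo : 3.1415 < Real.pi := Real.pi_gt_d4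
private lemma bar_pi_hi : Real.pi < 3.1416 := Real.pi_lt_d4

/-- the angle `b` -/
private lemma bar_b : 0 < (Real.pi / 2 + 1 / 10 - ph1) / 4 ∧
    (Real.pi / 2 + 1 / 10 - ph1) / 4 ≤ 0.4174 := by
  have h1 := bar_pi_lo
  have h2 := bar_pi_hi
  unfold ph1
  constructor <;> norm_num at * <;> linarith

private lemma bar_sinb_pos : 0 < Real.sin ((Real.pi / 2 + 1 / 10 - ph1) / 4) := by
  have h := bar_b
  have h2 := bar_pi_lo
  refine Real.sin_pos_of_pos_of_lt_pi h.1 ?_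
  norm_num at *
  linarith

private lemma bar_sinb_le : Real.sin ((Real.pi / 2 + 1 / 10 - ph1) / 4) ≤ 0.4174 :=
  (Real.sin_le bar_b.1.le).trans bar_b.2

private lemma bar_sin_mono {y y' : ℝ} (h1 : ph1 ≤ y) (h2 : y ≤ y') (h3 : y' ≤ Real.pi / 2) :
    Real.sin ((Real.pi / 2 + 1 / 10 - y') / 4) ≤ Real.sin ((Real.pi / 2 + 1 / 10 - y) / 4) := by
  have h := bar_b
  have h4 := bar_pi_lo
  have h5 : (0:ℝ) < ph1 := by unfold ph1; norm_num
  refine Real.sin_le_sin_of_le_of_le_pi_div_two ?_ ?_ ?_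
  · linarith
  · have : (Real.pi / 2 + 1 / 10 - y) / 4 ≤ (Real.pi / 2 + 1 / 10 - ph1) / 4 := by linarith
    norm_num at *
    linarith
  · linarith

theorem continuous_PP : Continuous (PP k ℓ ε) := by
  unfold PP
  have h : Continuous fun x : ℝ => Real.cosh (x / 4) :=
    Real.continuous_cosh.comp (continuous_id.div_const 4)
  exact ((continuous_const.mul h).div_const _).add continuous_const

theorem eps_le_PP (hk : 0 ≤ k) (x : ℝ) : ε ≤ PP k ℓ ε x := by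
  unfold PP
  have := bar_nonneg (ℓ := ℓ) hk x
  linarith

theorem PP_end (hε : 0 ≤ ε) {x : ℝ} (hx : |x| = ℓ) : k ≤ PP k ℓ ε x := by
  unfold PP
  rw [bar_cosh_abs hx, mul_div_assoc, div_self (Real.cosh_pos _).ne', mul_one]
  linarith

theorem PP_far (hk : 0 ≤ k) (hε : 0 ≤ ε) {x : ℝ} (hx : |x| < ℓ) (h : ℓ - 5 / 2 ≤ |x|) :
    k ≤ 2 * PP k ℓ ε x := by
  have hx0 := abs_nonneg x
  have h1 : Real.cosh (ℓ / 4) ≤ Real.cosh (|x| / 4 + 5 / 8) := by
    rw [Real.cosh_le_cosh, abs_of_nonneg (by linarith), abs_of_nonneg (by linarith)]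
    linarith
  have h2 : Real.cosh (|x| / 4 + 5 / 8) ≤ Real.exp (5 / 8) * Real.cosh (|x| / 4) :=
    bar_cosh_add (by norm_num)
  have h3 : Real.cosh (|x| / 4) = Real.cosh (x / 4) := by
    rw [← Real.cosh_abs (x / 4), abs_div, abs_of_pos (by norm_num : (0:ℝ) < 4)]
  have h4 : Real.cosh (ℓ / 4) ≤ 2 * Real.cosh (x / 4) := by
    refine h1.trans (h2.trans ?_)
    rw [h3]
    exact mul_le_mul_of_nonneg_right bar_exp (Real.cosh_pos _).le
  have h5 : k ≤ 2 * (k * Real.cosh (x / 4) / Real.cosh (ℓ / 4)) := by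
    rw [← mul_div_assoc, le_div_iff₀ (Real.cosh_pos _)]
    calc k * Real.cosh (ℓ / 4) ≤ k * (2 * Real.cosh (x / 4)) := mul_le_mul_of_nonneg_left h4 hk
      _ = 2 * (k * Real.cosh (x / 4)) := by ring
  unfold PP
  linarith

theorem Hc_harm (k ℓ ε c d : ℝ) : HarmonicOnNhd (Hc k ℓ ε c d) univ := by
  refine bar_harm_re (f := fun z : ℂ => ((k / Real.cosh (ℓ / 4) / Real.cos (d / 4) : ℝ) : ℂ) *
    Complex.cosh ((z - c * I) / 4) + (ε : ℂ)) ?_ fun z => ?_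
  · fun_prop
  · have h1 : (z - c * I) / 4 = ((z.re / 4 : ℝ) : ℂ) + (((z.im - c) / 4 : ℝ) : ℂ) * I := by
      apply Complex.ext <;> simp
    rw [Complex.add_re, Complex.re_ofReal_mul, h1, bar_re_cosh, Complex.ofReal_re]
    unfold Hc
    ring

theorem Hc_ge (hk : 0 ≤ k) {c d : ℝ} (hd0 : 0 ≤ d) (hd : d ≤ Real.pi) {z : ℂ}
    (hz : |z.im - c| ≤ d) : PP k ℓ ε z.re ≤ Hc k ℓ ε c d z := by
  have h0 := bar_cos_pos hd0 hd
  have h1 : Real.cos (d / 4) ≤ Real.cos ((z.im - c) / 4) := by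
    rw [← Real.cos_abs ((z.im - c) / 4), abs_div, abs_of_pos (by norm_num : (0:ℝ) < 4)]
    refine Real.cos_le_cos_of_nonneg_of_le_pi (by positivity) ?_ (by linarith)
    linarith [Real.pi_pos]
  have h2 : 1 ≤ Real.cos ((z.im - c) / 4) / Real.cos (d / 4) := (one_le_div h0).2 h1
  unfold PP Hc
  have := le_mul_of_one_le_right (bar_nonneg (ℓ := ℓ) hk z.re) h2
  linarith

theorem Hc_le (hk : 0 ≤ k) (hε : 0 ≤ ε) {c d : ℝ} (hd0 : 0 ≤ d) (hd : d ≤ Real.pi) (z : ℂ) :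
    Hc k ℓ ε c d z ≤ (Real.cos (d / 4))⁻¹ * PP k ℓ ε z.re := by
  have h0 := bar_cos_pos hd0 hd
  have h1 : 1 ≤ (Real.cos (d / 4))⁻¹ := (one_le_inv₀ h0).2 (Real.cos_le_one _)
  have h2 : Real.cos ((z.im - c) / 4) / Real.cos (d / 4) ≤ (Real.cos (d / 4))⁻¹ := by
    rw [div_eq_mul_inv]
    exact mul_le_of_le_one_left (inv_nonneg.2 h0.le) (Real.cos_le_one _)
  have h3 := mul_le_mul_of_nonneg_left h2 (bar_nonneg (ℓ := ℓ) hk z.re)
  have h4 : ε ≤ (Real.cos (d / 4))⁻¹ * ε := le_mul_of_one_le_left hε h1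
  unfold PP Hc
  rw [mul_add]
  linarith

theorem inv_cos_small {d : ℝ} (h0 : 0 ≤ d) (h : d ≤ ph0) :
    (Real.cos (d / 4))⁻¹ ≤ 1.00001 := by
  unfold ph0 at h
  have h1 := Real.one_sub_sq_div_two_le_cos (x := d / 4)
  have h2 : d ^ 2 ≤ (1 / 100) ^ 2 := pow_le_pow_left₀ h0 h 2
  have h3 : 1 - (1 / 100) ^ 2 / 32 ≤ Real.cos (d / 4) := by
    have : (d / 4) ^ 2 / 2 = d ^ 2 / 32 := by ring
    rw [this] at h1
    linarith
  have h4 : (0:ℝ) < Real.cos (d / 4) := by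
    norm_num at h3
    linarith
  rw [inv_le_comm₀ h4 (by norm_num)]
  refine le_trans ?_ h3
  norm_num

theorem inv_cos_mid {d : ℝ} (h0 : 0 ≤ d) (h : d ≤ Real.pi / 2) :
    (Real.cos (d / 4))⁻¹ ≤ 1.09 := by
  have hpi := bar_pi_hi
  have h1 := Real.one_sub_sq_div_two_le_cos (x := d / 4)
  have h2 : d ^ 2 ≤ (1.5708) ^ 2 := pow_le_pow_left₀ h0 (by norm_num at *; linarith) 2
  have h3 : 1 - (1.5708) ^ 2 / 32 ≤ Real.cos (d / 4) := by
    have : (d / 4) ^ 2 / 2 = d ^ 2 / 32 := by ring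
    rw [this] at h1
    linarith
  have h4 : (0:ℝ) < Real.cos (d / 4) := by
    norm_num at h3
    linarith
  rw [inv_le_comm₀ h4 (by norm_num)]
  refine le_trans ?_ h3
  norm_num

theorem Hs_harm (k ℓ ε : ℝ) : HarmonicOnNhd (Hs k ℓ ε) univ := by
  refine bar_harm_im (f := fun z : ℂ => ((-(k / Real.cosh (ℓ / 4) /
      Real.sin ((Real.pi / 2 + 1 / 10 - ph1) / 4)) : ℝ) : ℂ) *
      Complex.sinh ((z - ((Real.pi / 2 + 1 / 10 : ℝ) : ℂ) * I) / 4) +
      ((ε / (Real.pi / 2 + 1 / 10 - ph1) : ℝ) : ℂ) *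
      (((Real.pi / 2 + 1 / 10 : ℝ) : ℂ) * I - z)) ?_ fun z => ?_
  · fun_prop
  · have h1 : (z - ((Real.pi / 2 + 1 / 10 : ℝ) : ℂ) * I) / 4 =
        ((z.re / 4 : ℝ) : ℂ) + ((-((Real.pi / 2 + 1 / 10 - z.im) / 4) : ℝ) : ℂ) * I := by
      apply Complex.ext
      · simp
      · simp
        ring
    rw [Complex.add_im, Complex.im_ofReal_mul, h1, bar_im_sinh, Complex.im_ofReal_mul,
      Complex.sub_im, Complex.im_ofReal_mul, Complex.I_im, Real.sin_neg]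
    unfold Hs
    ring

theorem Hs_bot {z : ℂ} (hz : z.im = ph1) : Hs k ℓ ε z = PP k ℓ ε z.re := by
  have h1 := bar_sinb_pos
  have h2 := bar_b.1
  unfold Hs PP
  rw [hz, div_self h1.ne', mul_one, div_self (by linarith), mul_one]

theorem Hs_nonneg (hk : 0 ≤ k) (hε : 0 ≤ ε) {z : ℂ} (h1 : ph1 ≤ z.im)
    (h2 : z.im ≤ Real.pi / 2) : 0 ≤ Hs k ℓ ε z := by
  have h3 := bar_sinb_pos
  have h4 := bar_b.1
  have h5 : 0 ≤ Real.sin ((Real.pi / 2 + 1 / 10 - z.im) / 4) := by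
    refine le_trans ?_ (bar_sin_mono h1 h2 le_rfl)
    refine Real.sin_nonneg_of_nonneg_of_le_pi (by linarith) ?_
    have := bar_pi_lo
    norm_num at *
    linarith
  unfold Hs
  have h6 := bar_nonneg (ℓ := ℓ) hk z.re
  have h7 : 0 ≤ Real.pi / 2 + 1 / 10 - z.im := by linarith
  have h8 : 0 < Real.pi / 2 + 1 / 10 - ph1 := by linarith
  positivity

theorem Hs_le (hk : 0 ≤ k) (hε : 0 ≤ ε) {z : ℂ} (h1 : ph1 ≤ z.im)
    (h2 : z.im ≤ Real.pi / 2) : Hs k ℓ ε z ≤ PP k ℓ ε z.re := by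
  have h3 := bar_sinb_pos
  have h4 := bar_b.1
  have h5 : Real.sin ((Real.pi / 2 + 1 / 10 - z.im) / 4) /
      Real.sin ((Real.pi / 2 + 1 / 10 - ph1) / 4) ≤ 1 :=
    (div_le_one h3).2 (bar_sin_mono le_rfl h1 h2)
  have h6 : (Real.pi / 2 + 1 / 10 - z.im) / (Real.pi / 2 + 1 / 10 - ph1) ≤ 1 :=
    (div_le_one (by linarith)).2 (by linarith)
  have h7 := mul_le_of_le_one_right (bar_nonneg (ℓ := ℓ) hk z.re) h5
  have h8 := mul_le_of_le_one_right hε h6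
  unfold Hs PP
  linarith

theorem Hs_ph0 (hk : 0 ≤ k) (hε : 0 ≤ ε) {z : ℂ} (hz : z.im = ph0) :
    Hs k ℓ ε z ≤ 0.9953 * PP k ℓ ε z.re := by
  have h3 := bar_sinb_pos
  have h4 := bar_b
  have hp1 := bar_pi_lo
  have hp2 := bar_pi_hi
  have h5 : Real.sin ((Real.pi / 2 + 1 / 10 - ph0) / 4) /
      Real.sin ((Real.pi / 2 + 1 / 10 - ph1) / 4) ≤ 0.9953 := by
    rw [div_le_iff₀ h3]
    set b := (Real.pi / 2 + 1 / 10 - ph1) / 4 with hb
    have ha : (Real.pi / 2 + 1 / 10 - ph0) / 4 = b - 0.0021875 := by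
      rw [hb]
      unfold ph0 ph1
      norm_num
      ring
    rw [ha]
    have h6 : Real.sin b - Real.sin (b - 0.0021875) =
        2 * Real.sin (0.00109375) * Real.cos (b - 0.00109375) := by
      rw [Real.sin_sub_sin]
      congr 2
      · congr 1
        norm_num
      · norm_num
        ring
    have h7 : (0.00109:ℝ) ≤ Real.sin (0.00109375) := by
      have := (Real.sin_gt_sub_cube (x := 0.00109375) (by norm_num)).le
      refine le_trans ?_ this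
      norm_num
    have h8 : (0.9128:ℝ) ≤ Real.cos (b - 0.00109375) := by
      have h9 := Real.one_sub_sq_div_two_le_cos (x := b - 0.00109375)
      refine le_trans ?_ h9
      have h10 : (0.00109375 : ℝ) ≤ b := by
        rw [hb]
        unfold ph1
        norm_num at *
        linarith
      have h11 : (b - 0.00109375) ^ 2 ≤ (0.4174) ^ 2 := by
        refine pow_le_pow_left₀ (by linarith) ?_ 2
        have := h4.2
        norm_num at *
        linarith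
      norm_num at *
      linarith
    have h9 : (0.00198 : ℝ) ≤ 2 * Real.sin (0.00109375) * Real.cos (b - 0.00109375) := by
      have : (0.00198 : ℝ) ≤ 2 * 0.00109 * 0.9128 := by norm_num
      refine this.trans ?_
      refine mul_le_mul ?_ h8 (by norm_num) ?_
      · exact mul_le_mul_of_nonneg_left h7 (by norm_num)
      · exact mul_nonneg (by norm_num) (le_trans (by norm_num) h7)
    rw [← h6] at h9
    have h10 : Real.sin b ≤ 0.4174 := bar_sinb_le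
    norm_num at *
    linarith
  have h6 : (Real.pi / 2 + 1 / 10 - ph0) / (Real.pi / 2 + 1 / 10 - ph1) ≤ 0.9953 := by
    rw [div_le_iff₀ (by linarith [h4.1])]
    unfold ph0 ph1
    norm_num at *
    linarith
  have h7 := mul_le_mul_of_nonneg_left h5 (bar_nonneg (ℓ := ℓ) hk z.re)
  have h8 := mul_le_mul_of_nonneg_left h6 hε
  unfold Hs PP
  rw [hz, mul_add]
  linarith

theorem Hs_end (hk : 0 ≤ k) (hε : 0 ≤ ε) {z : ℂ} (hz : |z.re| = ℓ) (h1 : ph1 ≤ z.im)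
    (h2 : z.im ≤ Real.pi / 2) : k / 20 ≤ Hs k ℓ ε z := by
  have h3 := bar_sinb_pos
  have h4 := bar_b.1
  have h5 := bar_sinb_le
  have h6 : (0.0249:ℝ) ≤ Real.sin ((Real.pi / 2 + 1 / 10 - z.im) / 4) := by
    have h7 := bar_sin_mono h1 h2 le_rfl
    have h8 : (Real.pi / 2 + 1 / 10 - Real.pi / 2) / 4 = 1 / 40 := by ring
    rw [h8] at h7
    refine le_trans ?_ h7
    have := (Real.sin_gt_sub_cube (x := 1 / 40) (by norm_num)).le
    refine le_trans ?_ this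
    norm_num
  have h7 : 1 / 20 ≤ Real.sin ((Real.pi / 2 + 1 / 10 - z.im) / 4) /
      Real.sin ((Real.pi / 2 + 1 / 10 - ph1) / 4) := by
    rw [le_div_iff₀ h3]
    norm_num at *
    linarith
  have h8 : 0 ≤ ε * ((Real.pi / 2 + 1 / 10 - z.im) / (Real.pi / 2 + 1 / 10 - ph1)) := by
    refine mul_nonneg hε (div_nonneg (by linarith) (by linarith))
  unfold Hs
  rw [bar_cosh_abs hz, mul_div_assoc k, div_self (Real.cosh_pos _).ne', mul_one]
  have h9 := mul_le_mul_of_nonneg_left h7 hk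
  linarith

theorem Hu_harm (k ℓ ε : ℝ) : HarmonicOnNhd (Hu k ℓ ε) univ := by
  refine bar_harm_im (f := fun z : ℂ => ((k / Real.cosh (ℓ / 4) / Real.sin (ph0 / 4) : ℝ) : ℂ) *
      Complex.sinh (z / 4) + ((ε / ph0 : ℝ) : ℂ) * z) ?_ fun z => ?_
  · fun_prop
  · have h1 : z / 4 = ((z.re / 4 : ℝ) : ℂ) + ((z.im / 4 : ℝ) : ℂ) * I := by
      apply Complex.ext <;> simp
    rw [Complex.add_im, Complex.im_ofReal_mul, h1, bar_im_sinh, Complex.im_ofReal_mul]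
    unfold Hu
    ring

private lemma bar_ph0 : (0:ℝ) < ph0 := by unfold ph0; norm_num

private lemma bar_sin_ph0 : 1 / 401 ≤ Real.sin (ph0 / 4) := by
  unfold ph0
  have := (Real.sin_gt_sub_cube (x := 1 / 100 / 4) (by norm_num)).le
  refine le_trans ?_ this
  norm_num

theorem Hu_nonneg (hk : 0 ≤ k) (hε : 0 ≤ ε) {z : ℂ} (h1 : 0 ≤ z.im) (h2 : z.im ≤ ph0) :
    0 ≤ Hu k ℓ ε z := by
  have h3 : 0 ≤ Real.sin (z.im / 4) := by
    refine Real.sin_nonneg_of_nonneg_of_le_pi (by linarith) ?_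
    have := bar_pi_lo
    unfold ph0 at h2
    norm_num at *
    linarith
  have h4 : 0 ≤ Real.sin (ph0 / 4) := le_trans (by norm_num) bar_sin_ph0
  have h5 := bar_nonneg (ℓ := ℓ) hk z.re
  have h6 := bar_ph0
  unfold Hu
  positivity

theorem Hu_top {z : ℂ} (hz : z.im = ph0) : Hu k ℓ ε z = PP k ℓ ε z.re := by
  have h4 : 0 < Real.sin (ph0 / 4) := lt_of_lt_of_le (by norm_num) bar_sin_ph0
  unfold Hu PP
  rw [hz, div_self h4.ne', mul_one, div_self bar_ph0.ne', mul_one]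

theorem Hu_ph1 (hk : 0 ≤ k) (hε : 0 ≤ ε) {z : ℂ} (hz : z.im = ph1) :
    Hu k ℓ ε z ≤ PP k ℓ ε z.re / 7 := by
  have h0 := bar_sin_ph0
  have h4 : 0 < Real.sin (ph0 / 4) := lt_of_lt_of_le (by norm_num) h0
  have h5 : Real.sin (ph1 / 4) / Real.sin (ph0 / 4) ≤ 1 / 7 := by
    rw [div_le_iff₀ h4]
    have h6 : Real.sin (ph1 / 4) ≤ ph1 / 4 := Real.sin_le (by unfold ph1; norm_num)
    refine h6.trans ?_
    unfold ph1
    linarith
  have h6 : ph1 / ph0 ≤ 1 / 7 := by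
    unfold ph1 ph0
    norm_num
  have h7 := mul_le_mul_of_nonneg_left h5 (bar_nonneg (ℓ := ℓ) hk z.re)
  have h8 := mul_le_mul_of_nonneg_left h6 hε
  unfold Hu PP
  rw [hz, add_div]
  linarith

/-- the end of the contraction arguments: let `q⋆ = max 0 (sup (f / g))`, which is finite; then
`f ≤ q⋆ g`, so `f ≤ (θ q⋆ + C) g`, `q⋆ ≤ max 0 (θ q⋆ + C)` and `q⋆ ≤ C / (1 - θ)`. -/
theorem contract {ι : Type*} {f g : ι → ℝ} (hg : ∀ i, 0 < g i) {θ C q0 : ℝ} (hθ0 : 0 ≤ θ)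
    (hθ : θ < 1) (hC : 0 ≤ C) (h0 : ∀ i, f i ≤ q0 * g i)
    (hstep : ∀ q, 0 ≤ q → (∀ i, f i ≤ q * g i) → ∀ i, f i ≤ (θ * q + C) * g i) :
    ∀ i, f i ≤ C / (1 - θ) * g i := by
  set Q : Set ℝ := {q | 0 ≤ q ∧ ∀ i, f i ≤ q * g i} with hQ
  have hne : Q.Nonempty := by
    refine ⟨max 0 q0, le_max_left _ _, fun i => (h0 i).trans ?_⟩
    exact mul_le_mul_of_nonneg_right (le_max_right _ _) (hg i).le
  have hbd : BddBelow Q := ⟨0, fun q hq => hq.1⟩
  have hmem : sInf Q ∈ Q := by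
    refine ⟨le_csInf hne fun q hq => hq.1, fun i => ?_⟩
    rw [← div_le_iff₀ (hg i)]
    exact le_csInf hne fun q hq => (div_le_iff₀ (hg i)).2 (hq.2 i)
  have h1 : θ * sInf Q + C ∈ Q :=
    ⟨add_nonneg (mul_nonneg hθ0 hmem.1) hC, hstep _ hmem.1 hmem.2⟩
  have h2 : sInf Q ≤ θ * sInf Q + C := csInf_le hbd h1
  have h3 : sInf Q ≤ C / (1 - θ) := by
    rw [le_div_iff₀ (by linarith)]
    linarith
  intro i
  exact (hmem.2 i).trans (mul_le_mul_of_nonneg_right h3 (hg i).le)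

end Pool.Agent.MP_ae5b4e_an_N4
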