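import Pool.Agent.Lib.MP_ae5b4e_an_N4.PtD
import Pool.Agent.Lib.MP_4b1e7e_an.Asy.Julia
import Mathlib.Analysis.Real.Pi.Bounds

/-!
# N4, module Hrn: Harnack inequality along a chain of discs

**`harn_disc`.** `u = Re F` with `F` analytic on the ball (`HarmonicOnNhd.exists_analyticOnNhd_ball_re_eq`),
`Re F ≥ 0`.  For `e > 0` the function `f := (F + e - a)/(F + e + conj a)`, `a := F c + e`, maps the ball
to the unit disc, `f c = 0`: Schwarz: `|f w| ≤ 1/2` for `|w - c| ≤ r/2`, so with `X := Re (F w) + e`: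
`X ≥ Re a / 3` (the disc `|f| ≤ 1/2` corresponds to `Re ≥ Re a /3`: `|W - a| ≤ (1/2)|W + conj a|` gives
`Re W ≥ Re a / 3`, since `|W + conj a| ≤ |W - a| + 2 Re a` so `|W - a| ≤ 2 Re a`.. better: square:
`4 |W - a|² ≤ |W + conj a|²`, i.e. with `W = X + iy`, `a = A + ib`:
`4 (X-A)² + 4 (y-b)² ≤ (X+A)² + (y-b)²`, so `2 (X - A) ≥ -(X + A)`, `3 X ≥ A`).  `e → 0`.
(Or use `Pool.Agent.MobConv.harnack` in Lib/MP_4b1e7e_an/Asy/Julia.lean: `(1-s)/(1+s)` with `s = 1/2`.)

**`harn_seg`.** Induction on `n`: the points `a + (j/n)(b - a)`, consecutive distance `≤ r/2`.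

**`harn`.** `a = pt x1 ph1`, `b = pt x1 ph0`: all points of the segment are at distance
`≥ ph1 - ph2 = 1/1600` from the complement of the region (the horizontal room is `5/2`; the top is
`π/2 - ph0 > 1`), `|b - a| = 7/800 ≤ n r/2` with `r = 1/1600`, `n = 28`.  Then from `pt x1 ph0` to
`pt x ph0`: `r = 1/200`, `|x - x1| ≤ 2 ≤ n r / 2` with `n = 800`.  `c := (1/3)^828`.
-/

set_option autoImplicit false

noncomputable section

namespace Pool.Agent.MP_ae5b4e_an_N4

open Complex Set Filter Topology Metric InnerProductSpace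

theorem harn_disc {u : ℂ → ℝ} {c : ℂ} {r : ℝ} (hu : HarmonicOnNhd u (ball c r))
    (h0 : ∀ z ∈ ball c r, 0 ≤ u z) {w : ℂ} (hw : dist w c ≤ r / 2) (hr : 0 < r) :
    u c / 3 ≤ u w := by
  obtain ⟨F, hF, hFu⟩ := hu.exists_analyticOnNhd_ball_re_eq
  have hmap : ∀ z ∈ ball (0 : ℂ) 1, c + r * z ∈ ball c r := by
    intro z hz
    rw [mem_ball, dist_eq_norm, add_sub_cancel_left, norm_mul, norm_real,
      Real.norm_of_nonneg hr.le]
    have h1 : ‖z‖ < 1 := by simpa using hz
    nlinarith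
  have hd : DifferentiableOn ℂ (fun z => F (c + r * z)) (ball 0 1) := by
    intro z hz
    exact (DifferentiableAt.comp (g := F) z (hF _ (hmap z hz)).differentiableAt
      (by fun_prop)).differentiableWithinAt
  have hre : ∀ z ∈ ball (0 : ℂ) 1, 0 ≤ (F (c + r * z)).re := by
    intro z hz
    have h1 := hFu (hmap z hz)
    have h2 := h0 _ (hmap z hz)
    rw [← h1] at h2
    exact h2
  have hrc : (r : ℂ) ≠ 0 := by exact_mod_cast hr.ne'
  have hzn : ‖(w - c) / r‖ ≤ 1 / 2 := by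
    rw [norm_div, norm_real, Real.norm_of_nonneg hr.le, div_le_iff₀ hr, ← dist_eq_norm]
    linarith
  have hz : (w - c) / r ∈ ball (0 : ℂ) 1 := by
    rw [mem_ball_zero_iff]
    linarith
  have h1 := Pool.Agent.MobConv.harnack hd hre hz
  have e1 : c + r * ((w - c) / r) = w := by
    field_simp
    ring
  simp only [mul_zero, add_zero] at h1
  rw [e1] at h1
  have hwb : w ∈ ball c r := by
    rw [mem_ball]
    linarith
  have h2 := hFu hwb
  have h3 := hFu (mem_ball_self hr)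
  have h4 : (F c).re = u c := h3
  have h5 : (F w).re = u w := h2
  rw [h4, h5] at h1
  refine le_trans ?_ h1
  have h6 : 0 ≤ u c := h0 c (mem_ball_self hr)
  have h7 : (1 : ℝ) / 3 ≤ (1 - ‖(w - c) / r‖) / (1 + ‖(w - c) / r‖) := by
    have h8 := norm_nonneg ((w - c) / r)
    rw [div_le_div_iff₀ (by norm_num) (by linarith)]
    linarith
  have h9 := mul_le_mul_of_nonneg_right h7 h6
  linarith

theorem harn_seg {u : ℂ → ℝ} {a b : ℂ} {r : ℝ} (hr : 0 < r) (n : ℕ)
    (hu : ∀ t ∈ Icc (0:ℝ) 1, HarmonicOnNhd u (ball (a + t * (b - a)) r) ∧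
      ∀ z ∈ ball (a + t * (b - a)) r, 0 ≤ u z)
    (hn : dist a b ≤ n * (r / 2)) : (1 / 3 : ℝ) ^ n * u a ≤ u b := by
  rcases Nat.eq_zero_or_pos n with h0 | h0
  · subst h0
    have h1 : dist a b ≤ 0 := by simpa using hn
    have h2 : a = b := dist_le_zero.1 h1
    subst h2
    simp
  · have hn0 : (0 : ℝ) < n := by exact_mod_cast h0
    have key : ∀ j : ℕ, j ≤ n → (1 / 3 : ℝ) ^ j * u a ≤ u (a + ((j / n : ℝ) : ℂ) * (b - a)) := by
      intro j
      induction j with
      | zero => intro _; simp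
      | succ j ih =>
        intro hj
        have h1 := ih (by omega)
        have ht : ((j : ℝ) / n) ∈ Icc (0 : ℝ) 1 := by
          refine ⟨by positivity, ?_⟩
          rw [div_le_one hn0]
          exact_mod_cast (by omega : j ≤ n)
        have h2 := harn_disc (w := a + (((j + 1 : ℕ) / n : ℝ) : ℂ) * (b - a))
          (hu _ ht).1 (hu _ ht).2 ?_ hr
        · rw [pow_succ]
          linarith
        · rw [dist_eq_norm]
          have e1 : a + (((j + 1 : ℕ) / n : ℝ) : ℂ) * (b - a) -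
              (a + (((j : ℝ) / n : ℝ) : ℂ) * (b - a)) = ((1 / n : ℝ) : ℂ) * (b - a) := by
            push_cast
            ring
          rw [e1, norm_mul, norm_real, Real.norm_of_nonneg (by positivity), ← dist_eq_norm,
            dist_comm, one_div, inv_mul_le_iff₀ hn0]
          exact hn
    have h1 := key n le_rfl
    rw [div_self hn0.ne'] at h1
    simpa using h1

private theorem Hrn_mem {x1 r : ℝ} {p z : ℂ} (hz : z ∈ ball p r) (h1 : |p.re - x1| + r ≤ 5 / 2)
    (h2 : ph2 + r ≤ p.im) (h3 : p.im + r ≤ Real.pi / 2) :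
    z ∈ {z : ℂ | |z.re - x1| < 5 / 2 ∧ ph2 < z.im ∧ z.im < Real.pi / 2} := by
  rw [mem_ball, dist_eq_norm] at hz
  have h4 := (abs_re_le_norm (z - p)).trans_lt hz
  have h5 := (abs_im_le_norm (z - p)).trans_lt hz
  rw [sub_re] at h4
  rw [sub_im] at h5
  have h6 := abs_lt.1 h5
  refine ⟨?_, by linarith, by linarith⟩
  have h7 : z.re - x1 = (z.re - p.re) + (p.re - x1) := by ring
  rw [h7]
  have h8 := abs_add_le (z.re - p.re) (p.re - x1)
  linarith

theorem harn : ∃ c : ℝ, 0 < c ∧ ∀ (Y : ℂ → ℝ) (x1 : ℝ),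
    HarmonicOnNhd Y {z | |z.re - x1| < 5 / 2 ∧ ph2 < z.im ∧ z.im < Real.pi / 2} →
    (∀ z ∈ {z : ℂ | |z.re - x1| < 5 / 2 ∧ ph2 < z.im ∧ z.im < Real.pi / 2}, 0 ≤ Y z) →
    ∀ x, |x - x1| ≤ 2 → c * Y (pt x1 ph1) ≤ Y (pt x ph0) := by
  refine ⟨(1 / 3 : ℝ) ^ 800 * (1 / 3 : ℝ) ^ 28, by positivity, fun Y x1 hY h0 x hx => ?_⟩
  have hpi := Real.pi_gt_three
  have s1 : (1 / 3 : ℝ) ^ 28 * Y (pt x1 ph1) ≤ Y (pt x1 ph0) := by
    refine harn_seg (r := 1 / 1600) (by norm_num) 28 (fun t ht => ?_) ?_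
    · have e1 : (pt x1 ph1 + t * (pt x1 ph0 - pt x1 ph1)).re = x1 := by simp [pt]
      have e2 : (pt x1 ph1 + t * (pt x1 ph0 - pt x1 ph1)).im = ph1 + t * (ph0 - ph1) := by
        simp [pt]
      have hsub : ∀ z ∈ ball (pt x1 ph1 + t * (pt x1 ph0 - pt x1 ph1)) (1 / 1600),
          z ∈ {z : ℂ | |z.re - x1| < 5 / 2 ∧ ph2 < z.im ∧ z.im < Real.pi / 2} := by
        intro z hz
        refine Hrn_mem hz ?_ ?_ ?_
        · rw [e1, sub_self, abs_zero]
          norm_num
        · rw [e2]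
          unfold ph0 ph1 ph2
          linarith [ht.1]
        · rw [e2]
          unfold ph0 ph1
          linarith [ht.2]
      exact ⟨fun z hz => hY z (hsub z hz), fun z hz => h0 z (hsub z hz)⟩
    · rw [dist_eq_norm]
      have e3 : pt x1 ph1 - pt x1 ph0 = ((ph1 - ph0 : ℝ) : ℂ) * I := by
        apply Complex.ext <;> simp [pt]
      rw [e3, norm_mul, norm_I, mul_one, norm_real, Real.norm_eq_abs]
      unfold ph0 ph1
      rw [abs_le]
      constructor <;> norm_num
  have s2 : (1 / 3 : ℝ) ^ 800 * Y (pt x1 ph0) ≤ Y (pt x ph0) := by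
    refine harn_seg (r := 1 / 200) (by norm_num) 800 (fun t ht => ?_) ?_
    · have e1 : (pt x1 ph0 + t * (pt x ph0 - pt x1 ph0)).re = x1 + t * (x - x1) := by simp [pt]
      have e2 : (pt x1 ph0 + t * (pt x ph0 - pt x1 ph0)).im = ph0 := by
        simp [pt]
      have hsub : ∀ z ∈ ball (pt x1 ph0 + t * (pt x ph0 - pt x1 ph0)) (1 / 200),
          z ∈ {z : ℂ | |z.re - x1| < 5 / 2 ∧ ph2 < z.im ∧ z.im < Real.pi / 2} := by
        intro z hz
        refine Hrn_mem hz ?_ ?_ ?_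
        · rw [e1, add_sub_cancel_left, abs_mul, abs_of_nonneg ht.1]
          have h5 : t * |x - x1| ≤ 1 * 2 :=
            mul_le_mul ht.2 hx (abs_nonneg _) zero_le_one
          linarith
        · rw [e2]
          unfold ph0 ph2
          norm_num
        · rw [e2]
          unfold ph0
          linarith
      exact ⟨fun z hz => hY z (hsub z hz), fun z hz => h0 z (hsub z hz)⟩
    · rw [dist_eq_norm]
      have e3 : pt x1 ph0 - pt x ph0 = ((x1 - x : ℝ) : ℂ) := by
        apply Complex.ext <;> simp [pt]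
      rw [e3, norm_real, Real.norm_eq_abs, abs_sub_comm]
      push_cast
      linarith
  have h3 := mul_le_mul_of_nonneg_left s1 (by positivity : (0 : ℝ) ≤ (1 / 3 : ℝ) ^ 800)
  rw [mul_assoc]
  exact h3.trans s2

end Pool.Agent.MP_ae5b4e_an_N4
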