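import Pool.Agent.Lib.MP_ae5b4e_an_N4.Mpx
import Pool.Agent.Lib.MP_ae5b4e_an_N4.Bar
import Pool.Agent.Lib.MP_ae5b4e_an_N4.Hrn

/-!
# N4, module PtB: the antisymmetric part, lower bound

`c` from `harn`, `CB := 5 / c + 2`.  Let `|x1| < ℓ`.
If `ℓ - 5/2 ≤ |x1|`: `-Aa ≤ δ k ≤ k ≤ 2 P` (`PP_far`).
Otherwise `|x1| < ℓ - 5/2`.  Let `Pt := Hc k ℓ ε ((ph2 + π/2)/2) ((π/2 - ph2)/2)`:
`P ≤ Pt ≤ 1.09 P` on `ph2 ≤ Im z ≤ π/2` (`Hc_ge`, `Hc_le`, `inv_cos_mid`).  `Y := U Pt - Aa Ω` is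
harmonic and `≥ 0` on the region of `harn`.  `y := Y (pt x1 ph1) ≥ 0`.  `harn`: for `|x - x1| ≤ 2`
`Aa Ω (pt x ph0) ≤ 1.09 U P x - c y`.
Let `x1 ∉ N` first and `q ∈ {0, -1}`, `g z := (u q z + u q (conj z))/2`, on
`V₁ := {z | |z.re - x1| < π/2 ∧ |z.im| < ph0}` (`π/2 < 2`, so `V₁ ⊆ Rc ℓ (-ph0) ph0`).
Majorant `M z := 4 U Hc k ℓ ε 0 ph0 z - c y cosh (z.im) cos (z.re - x1) / cosh ph0`, harmonic
(`cosh y cos (x - x1) = Re cos (z - x1)`).  Frontier of `V₁`:
 - `|z.im| = ph0`, `|z.re - x1| ≤ π/2`: `g ≤ Aa Ω (pt x ph0) + 16 δ (|Ω₁| + |Ω₂|) + 2 ε`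
   `≤ 1.09 U P - c y + (32 δ Q + 2) P ≤ 3 U P - c y ≤ M` (`cos ≤ 1`, `Hc = P` there);
 - `|z.re - x1| = π/2`, `|z.im| < ph0`: `g ≤ U P` near this point (`hu`), `M = 4 U Hc ≥ 4 U P`,
   continuity of `P` and `M`.
`SubH.le_harmonic`: `g ≤ M` on `V₁`.  At `pt x1 0` (`conj (pt x1 0) = pt x1 0`):
`0 ≤ m x1 ≤ max (u 0 _) (u (-1) _) ≤ 4 U * 1.00001 P x1 - c y / cosh ph0`, so
`y ≤ (5 U / c) P x1` (`cosh ph0 ≤ 1.001`), and `-Aa Ω (pt x1 ph1) = y - U Pt ≤ y`.
For `x1 ∈ N`: `Nᶜ` is dense (`Set.Countable.dense_compl ℝ`), both sides are continuous in `x1`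
on `|x1| < ℓ - 5/2`.

**`b_two`.** For `ph1 ≤ Im z ≤ π/2`: upper bound `hA`, lower bound `rc_le` on `Rc ℓ ph1 (π/2)` for `-Aa Ω`,
majorant `CB U Hc k ℓ ε (π/4) (π/2)`: top `0`, ends `δ k ≤ k`; `Hc ≤ 1.09 P`.  For `Im z ≥ π/2`:
`Aa Ω z = - Aa Ω (pt z.re (π - z.im))`.
-/

set_option autoImplicit false

noncomputable section

namespace Pool.Agent.MP_ae5b4e_an_N4

open Complex Set Filter Topology Metric InnerProductSpace
open Pool.Agent.Lib.MP_ae5b4e_an_LL (SubH)
open scoped ComplexConjugate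

private theorem ptB_analytic_conj {F : ℂ → ℂ} {p : ℂ} (hF : AnalyticAt ℂ F p) :
    AnalyticAt ℂ (fun w => conj (F (conj w))) (conj p) := by
  rw [Complex.analyticAt_iff_eventually_differentiableAt] at hF ⊢
  have h1 : Tendsto (fun w : ℂ => conj w) (𝓝 (conj p)) (𝓝 p) := by
    have := Complex.continuous_conj.tendsto (conj p)
    simpa using this
  filter_upwards [h1.eventually hF] with w hw
  have := hw.conj_conj
  simpa [Function.comp_def] using this

private theorem ptB_refl {Ω : ℂ → ℝ} {z : ℂ} (h : HarmonicAt Ω (pt z.re (Real.pi - z.im))) :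
    HarmonicAt (fun w => Ω (pt w.re (Real.pi - w.im))) z := by
  obtain ⟨F, hF, hΩ⟩ := Pool.Agent.Lib.MP_ae5b4e_an_LL.HarmonicAt.exists_analytic h
  have hc : ∀ w : ℂ, conj (w - Real.pi * I) = pt w.re (Real.pi - w.im) := by
    intro w
    apply Complex.ext
    · simp [pt]
    · simp [pt]
      ring
  have hc' : conj (pt z.re (Real.pi - z.im)) = z - Real.pi * I := by
    rw [← hc z, Complex.conj_conj]
  have h1 := ptB_analytic_conj hF
  rw [hc'] at h1
  have h2 : AnalyticAt ℂ (fun w : ℂ => w - Real.pi * I) z := by fun_prop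
  have h3 : AnalyticAt ℂ (fun w : ℂ => conj (F (conj (w - Real.pi * I)))) z :=
    AnalyticAt.fun_comp (g := fun w => conj (F (conj w))) h1 h2
  refine (harmonicAt_congr_nhds ?_).2 (AnalyticAt.harmonicAt_re h3)
  have h4 : Tendsto (fun w : ℂ => pt w.re (Real.pi - w.im)) (𝓝 z)
      (𝓝 (pt z.re (Real.pi - z.im))) := by
    have h5 : (fun w : ℂ => pt w.re (Real.pi - w.im)) = fun w => conj (w - Real.pi * I) := by
      funext w
      exact (hc w).symm
    have h6 : Continuous fun w : ℂ => conj (w - Real.pi * I) := by fun_prop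
    rw [h5, ← hc z]
    exact h6.tendsto z
  filter_upwards [h4.eventually hΩ] with w hw
  rw [hw, hc w]
  simp

private theorem ptB_Sh_refl {ℓ : ℝ} {z : ℂ} (hz : z ∈ Sh ℓ) :
    pt z.re (Real.pi - z.im) ∈ Sh ℓ := by
  obtain ⟨h1, h2, h3⟩ := hz
  refine ⟨h1, ?_, ?_⟩
  · show ph2 ≤ Real.pi - z.im
    linarith
  · show Real.pi - z.im ≤ Real.pi - ph2
    linarith

private theorem ptB_harm {ℓ : ℝ} {Ω : ℂ → ℝ} (h : HarmonicOnNhd Ω (Sh ℓ)) {z : ℂ}
    (hz : z ∈ Sh ℓ) : HarmonicAt (Aa Ω) z := by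
  have h1 := (HarmonicAt.sub (h z hz) (ptB_refl (h _ (ptB_Sh_refl hz)))).const_smul (c := (1 / 2 : ℝ))
  refine (harmonicAt_congr_nhds (Eventually.of_forall fun w => ?_)).2 h1
  simp only [Aa, Pi.smul_apply, Pi.sub_apply, smul_eq_mul]
  ring

private theorem ptB_abs {ℓ δ k : ℝ} {Ω : ℂ → ℝ} (h : ∀ z ∈ Sh ℓ, |Ω z| ≤ δ * k) {z : ℂ}
    (hz : z ∈ Sh ℓ) : |Aa Ω z| ≤ δ * k := by
  have h1 := abs_le.mp (h z hz)
  have h2 := abs_le.mp (h _ (ptB_Sh_refl hz))
  rw [Aa, abs_le]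
  constructor <;> linarith [h1.1, h1.2, h2.1, h2.2]

private theorem ptB_nums : (0 : ℝ) < ph2 ∧ ph2 < ph1 ∧ ph1 < ph0 ∧ ph0 = 1 / 100 ∧
    ph1 = 1 / 800 ∧ ph2 = 1 / 1600 := by
  unfold ph0 ph1 ph2
  norm_num

private theorem ptB_Rc_conj {ℓ : ℝ} {z : ℂ} (hz : z ∈ Rc ℓ (-ph0) ph0) :
    conj z ∈ Rc ℓ (-ph0) ph0 := by
  obtain ⟨h1, h2, h3⟩ := hz
  refine ⟨by simpa using h1, ?_, ?_⟩
  · show -ph0 < (conj z).im
    rw [Complex.conj_im]
    linarith
  · show (conj z).im < ph0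
    rw [Complex.conj_im]
    linarith

private theorem ptB_conj_pt (x y : ℝ) : conj (pt x y) = pt x (-y) := by
  apply Complex.ext <;> simp [pt]

private theorem ptB_pt_eta (z : ℂ) : pt z.re z.im = z := by
  apply Complex.ext <;> simp [pt]

private theorem ptB_tendsto_conj {ℓ : ℝ} (ζ : ℂ) :
    Tendsto (fun z : ℂ => conj z) (𝓝[Rc ℓ (-ph0) ph0] ζ) (𝓝[Rc ℓ (-ph0) ph0] (conj ζ)) := by
  apply tendsto_nhdsWithin_iff.mpr
  refine ⟨(Complex.continuous_conj.tendsto ζ).mono_left nhdsWithin_le_nhds, ?_⟩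
  filter_upwards [self_mem_nhdsWithin] with z hz
  exact ptB_Rc_conj hz

/-- the symmetrised function at the two sides -/
private theorem ptB_side {ℓ a b : ℝ} {v : ℂ → ℝ} {x y : ℝ}
    (h1 : BLe (Rc ℓ (-ph0) ph0) v (pt x y) a) (h2 : BLe (Rc ℓ (-ph0) ph0) v (pt x (-y)) b) :
    BLe (Rc ℓ (-ph0) ph0) (fun z => (v z + v (conj z)) / 2) (pt x y) ((a + b) / 2) := by
  intro e he
  have h3 := (ptB_tendsto_conj (ℓ := ℓ) (pt x y)).eventually (by
    rw [ptB_conj_pt]
    exact h2 e he)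
  filter_upwards [h1 e he, h3] with z hz1 hz2
  linarith

private theorem ptB_cos_re (z : ℂ) (x1 : ℝ) :
    (Complex.cos (z - x1)).re = Real.cos (z.re - x1) * Real.cosh z.im := by
  rw [Complex.cos_eq]
  have e1 : (z - (x1 : ℂ)).re = z.re - x1 := by simp
  have e2 : (z - (x1 : ℂ)).im = z.im := by simp
  rw [e1, e2, ← Complex.ofReal_cos, ← Complex.ofReal_cosh, ← Complex.ofReal_sin,
    ← Complex.ofReal_sinh]
  simp only [Complex.sub_re, Complex.mul_re, Complex.ofReal_re, Complex.ofReal_im,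
    Complex.mul_im, Complex.I_re, Complex.I_im]
  ring

private theorem ptB_cosh : (1 : ℝ) ≤ Real.cosh ph0 ∧ Real.cosh ph0 ≤ 1.1 := by
  refine ⟨Real.one_le_cosh _, ?_⟩
  refine (Real.cosh_le_exp_half_sq _).trans ?_
  have h1 : (ph0 ^ 2 / 2 : ℝ) ≤ 1 / 20000 := by
    unfold ph0
    norm_num
  have h2 := Real.exp_bound_div_one_sub_of_interval (x := ph0 ^ 2 / 2) (by positivity) (by linarith)
  refine h2.trans ?_
  rw [div_le_iff₀ (by linarith)]
  linarith

private theorem ptB_key {k ℓ δ η ε Q U c : ℝ} {N : Set ℝ} {Ω : ℂ → ℝ} {m : ℝ → ℝ}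
    {u : ℝ → ℂ → ℝ} (hP : Pot k ℓ δ η ε N Ω m u) (hc : 0 < c) (hU : 1 ≤ U)
    (hQU : 32 * δ * Q + 2 ≤ U)
    (hQ1 : ∀ x, |x| < ℓ → |Ω (pt x ph0)| ≤ Q * PP k ℓ ε x)
    (hQ2 : ∀ x, |x| < ℓ → |Ω (pt x (Real.pi - ph0))| ≤ Q * PP k ℓ ε x)
    (hu : ∀ q, |q| ≤ 3 → ∀ z ∈ Rc ℓ (-ph0) ph0, (u q z + u q (conj z)) / 2 ≤ U * PP k ℓ ε z.re)
    {x1 y : ℝ} (hx1 : |x1| < ℓ - 5 / 2) (hy : 0 ≤ y)
    (htop : ∀ x, |x - x1| ≤ 2 → Aa Ω (pt x ph0) ≤ 1.09 * U * PP k ℓ ε x - c * y)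
    {q : ℝ} (hq : |q| ≤ 3) :
    u q (pt x1 0) ≤ 4.00004 * U * PP k ℓ ε x1 - c * y / Real.cosh ph0 := by
  obtain ⟨hch1, hch2⟩ := ptB_cosh
  have hch0 : 0 < Real.cosh ph0 := by linarith
  have hp0 : (0 : ℝ) < ph0 := by unfold ph0; norm_num
  have hpi : Real.pi / 2 < 2 := by have := Real.pi_lt_d2; linarith
  have hcy : 0 ≤ c * y := by positivity
  set V : Set ℂ := {z | |z.re - x1| < Real.pi / 2 ∧ |z.im| < ph0} with hV
  have hVR : V ⊆ Rc ℓ (-ph0) ph0 := by
    intro z hz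
    obtain ⟨h1, h2⟩ := hz
    refine ⟨?_, (abs_lt.mp h2).1, (abs_lt.mp h2).2⟩
    have h3 : |z.re| ≤ |z.re - x1| + |x1| := by
      have := abs_add_le (z.re - x1) x1
      simpa using this
    linarith
  have hVo : IsOpen V :=
    (isOpen_lt (Complex.continuous_re.sub continuous_const).abs continuous_const).inter
      (isOpen_lt Complex.continuous_im.abs continuous_const)
  have hVb : Bornology.IsBounded V := (isBounded_Rc ℓ (-ph0) ph0).subset hVR
  set g : ℂ → ℝ := fun z => (u q z + u q (conj z)) / 2 with hg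
  have hgs : SubH g V := by
    have h1 := hP.usub q hq
    have h2 : SubH (fun z => u q (conj z)) (Rc ℓ (-ph0) ph0) :=
      (subH_conj h1).mono fun z hz => ptB_Rc_conj hz
    have h3 := ((SubH.add (isOpen_Rc ℓ (-ph0) ph0) h1 h2).const_mul (a := 1 / 2)
      (by norm_num)).mono hVR
    refine h3.congr hVo fun z _ => ?_
    simp only [hg]
    ring
  set M : ℂ → ℝ := fun z => 4 * U * Hc k ℓ ε 0 ph0 z -
    c * y / Real.cosh ph0 * (Complex.cos (z - x1)).re with hM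
  have hMh : HarmonicOnNhd M univ := by
    intro z _
    have h1 : HarmonicAt (fun w => 4 * U * Hc k ℓ ε 0 ph0 w) z := by
      have := (Hc_harm k ℓ ε 0 ph0 z (mem_univ z)).const_smul (c := 4 * U)
      exact this
    have h2 : HarmonicAt (fun w : ℂ => c * y / Real.cosh ph0 * (Complex.cos (w - x1)).re) z := by
      have h3 : AnalyticAt ℂ (fun w : ℂ => Complex.cos (w - x1)) z :=
        (Complex.differentiable_cos.comp (differentiable_id.sub_const _)).analyticAt z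
      have := (AnalyticAt.harmonicAt_re h3).const_smul (c := c * y / Real.cosh ph0)
      exact this
    exact h1.sub h2
  have hMc : Continuous M := by
    rw [← continuousOn_univ]
    exact hMh.continuousOn
  have hPPpos : ∀ x, 0 < PP k ℓ ε x := fun x => hP.hε.trans_le (eps_le_PP hP.hk.le x)
  -- values of M
  have hMv : ∀ z : ℂ, |z.im| ≤ ph0 → 4 * U * PP k ℓ ε z.re -
      c * y / Real.cosh ph0 * (Real.cos (z.re - x1) * Real.cosh z.im) ≤ M z := by
    intro z hz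
    have h1 : PP k ℓ ε z.re ≤ Hc k ℓ ε 0 ph0 z :=
      Hc_ge hP.hk.le hp0.le (by have := Real.pi_gt_three; unfold ph0; linarith) (by simpa using hz)
    have h2 : 4 * U * PP k ℓ ε z.re ≤ 4 * U * Hc k ℓ ε 0 ph0 z :=
      mul_le_mul_of_nonneg_left h1 (by linarith)
    simp only [hM, ptB_cos_re]
    linarith
  have hmain : ∀ z ∈ V, g z ≤ M z := by
    apply hgs.le_harmonic hVo hVb (hMh.mono (subset_univ _))
    intro ζ hζ e he
    have hcl : |ζ.re - x1| ≤ Real.pi / 2 ∧ |ζ.im| ≤ ph0 := by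
      have h1 : closure V ⊆ {z : ℂ | |z.re - x1| ≤ Real.pi / 2 ∧ |z.im| ≤ ph0} := by
        apply closure_minimal
        · intro z hz
          exact ⟨hz.1.le, hz.2.le⟩
        · exact (isClosed_le (Complex.continuous_re.sub continuous_const).abs
            continuous_const).inter (isClosed_le Complex.continuous_im.abs continuous_const)
      exact h1 (frontier_subset_closure hζ)
    have hnot : ζ ∉ V := by
      have := hζ.2
      rwa [hVo.interior_eq] at this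
    have hMn : ∀ᶠ z in 𝓝[V] ζ, M ζ - e / 2 < M z :=
      (hMc.tendsto ζ).mono_left nhdsWithin_le_nhds |>.eventually
        (lt_mem_nhds (by linarith))
    by_cases him : |ζ.im| = ph0
    · -- the sides
      have hxl : |ζ.re - x1| ≤ 2 := by linarith [hcl.1]
      have hxℓ : |ζ.re| < ℓ := by
        have := abs_add_le (ζ.re - x1) x1
        simp only [sub_add_cancel] at this
        linarith
      have hT := hP.utop q hq ζ.re hxℓ
      have hB := hP.ubot q hq ζ.re hxℓ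
      have hA : (Ω (pt ζ.re ph0) + 32 * δ * |Ω (pt ζ.re ph0)| + 2 * ε +
          (-Ω (pt ζ.re (Real.pi - ph0)) + 32 * δ * |Ω (pt ζ.re (Real.pi - ph0))| + 2 * ε)) / 2 ≤
          3 * U * PP k ℓ ε ζ.re - c * y := by
        have e1 := htop ζ.re hxl
        have e2 : Aa Ω (pt ζ.re ph0) = (Ω (pt ζ.re ph0) - Ω (pt ζ.re (Real.pi - ph0))) / 2 := rfl
        have e3 := mul_le_mul_of_nonneg_left (hQ1 ζ.re hxℓ) hP.hδ
        have e4 := mul_le_mul_of_nonneg_left (hQ2 ζ.re hxℓ) hP.hδ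
        have e5 : ε ≤ PP k ℓ ε ζ.re := eps_le_PP hP.hk.le ζ.re
        have e6 := mul_le_mul_of_nonneg_right hQU (hPPpos ζ.re).le
        have e7 := mul_le_mul_of_nonneg_right hU (hPPpos ζ.re).le
        rw [e2] at e1
        have e8 := hPPpos ζ.re
        linarith
      have hMz : 3 * U * PP k ℓ ε ζ.re - c * y ≤ M ζ := by
        have e1 := hMv ζ him.le
        have e2 : Real.cosh ζ.im = Real.cosh ph0 := by
          rw [← Real.cosh_abs, him]
        rw [e2] at e1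
        have e3 : c * y / Real.cosh ph0 * (Real.cos (ζ.re - x1) * Real.cosh ph0) =
            c * y * Real.cos (ζ.re - x1) := by
          field_simp
        rw [e3] at e1
        have e4 : c * y * Real.cos (ζ.re - x1) ≤ c * y * 1 :=
          mul_le_mul_of_nonneg_left (Real.cos_le_one _) hcy
        have e5 : 0 ≤ U * PP k ℓ ε ζ.re := mul_nonneg (by linarith) (hPPpos _).le
        linarith
      have hgb : BLe (Rc ℓ (-ph0) ph0) g ζ (3 * U * PP k ℓ ε ζ.re - c * y) := by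
        rcases abs_choice ζ.im with h | h
        · have h' : ζ = pt ζ.re ph0 := by
            rw [← him, h]
            exact (ptB_pt_eta ζ).symm
          rw [h']
          have := ptB_side hT hB
          intro e he
          filter_upwards [this e he] with z hz
          have hre : (pt ζ.re ph0).re = ζ.re := rfl
          rw [hre]
          exact hz.trans (by linarith)
        · have h' : ζ = pt ζ.re (-ph0) := by
            rw [← him, h, neg_neg]
            exact (ptB_pt_eta ζ).symm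
          have := ptB_side (y := -ph0) hB (by rw [neg_neg]; exact hT)
          rw [h']
          intro e he
          filter_upwards [this e he] with z hz
          have hre : (pt ζ.re (-ph0)).re = ζ.re := rfl
          rw [hre]
          exact hz.trans (by linarith)
      have hgb' := (hgb (e / 2) (by linarith)).filter_mono (nhdsWithin_mono ζ hVR)
      filter_upwards [hgb', hMn] with z hz1 hz2
      linarith
    · -- the ends
      have hre : |ζ.re - x1| = Real.pi / 2 := by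
        apply le_antisymm hcl.1
        by_contra hlt
        exact hnot ⟨not_le.mp hlt, lt_of_le_of_ne hcl.2 him⟩
      have hcos : Real.cos (ζ.re - x1) = 0 := by
        rw [← Real.cos_abs, hre, Real.cos_pi_div_two]
      have e1 := hMv ζ hcl.2
      rw [hcos, zero_mul, mul_zero, sub_zero] at e1
      have hPc : ∀ᶠ z in 𝓝[V] ζ, U * PP k ℓ ε z.re < U * PP k ℓ ε ζ.re + e / 2 := by
        have h1 : Continuous fun z : ℂ => U * PP k ℓ ε z.re :=
          continuous_const.mul (continuous_PP.comp Complex.continuous_re)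
        exact (h1.tendsto ζ).mono_left nhdsWithin_le_nhds |>.eventually
          (gt_mem_nhds (by linarith))
      filter_upwards [hPc, hMn, self_mem_nhdsWithin] with z hz1 hz2 hz3
      have e2 := hu q hq z (hVR hz3)
      have e3 : 0 ≤ U * PP k ℓ ε ζ.re := mul_nonneg (by linarith) (hPPpos _).le
      show (u q z + u q (conj z)) / 2 ≤ M z + e
      linarith
  have hx1V : pt x1 0 ∈ V := by
    refine ⟨?_, ?_⟩
    · show |x1 - x1| < Real.pi / 2
      rw [sub_self, abs_zero]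
      exact Real.pi_div_two_pos
    · show |(0 : ℝ)| < ph0
      rw [abs_zero]
      exact hp0
  have h1 := hmain _ hx1V
  have h2 : g (pt x1 0) = u q (pt x1 0) := by
    simp only [hg]
    rw [ptB_conj_pt, neg_zero]
    ring
  rw [h2] at h1
  refine h1.trans ?_
  simp only [hM, ptB_cos_re]
  have e1 : (pt x1 0).re = x1 := rfl
  have e2 : (pt x1 0).im = 0 := rfl
  rw [e1, e2, sub_self, Real.cos_zero, Real.cosh_zero]
  have e3 : Hc k ℓ ε 0 ph0 (pt x1 0) ≤ (Real.cos (ph0 / 4))⁻¹ * PP k ℓ ε x1 :=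
    Hc_le hP.hk.le hP.hε.le hp0.le (by have := Real.pi_gt_three; unfold ph0; linarith) (pt x1 0)
  have e4 : (Real.cos (ph0 / 4))⁻¹ ≤ 1.00001 := inv_cos_small hp0.le le_rfl
  have e5 : (Real.cos (ph0 / 4))⁻¹ * PP k ℓ ε x1 ≤ 1.00001 * PP k ℓ ε x1 :=
    mul_le_mul_of_nonneg_right e4 (hPPpos _).le
  have e6 : 4 * U * Hc k ℓ ε 0 ph0 (pt x1 0) ≤ 4 * U * (1.00001 * PP k ℓ ε x1) :=
    mul_le_mul_of_nonneg_left (e3.trans e5) (by linarith)
  linarith

theorem b_one : ∃ CB : ℝ, 1 ≤ CB ∧ ∀ (k ℓ δ η ε Q U : ℝ) (N : Set ℝ) (Ω : ℂ → ℝ) (m : ℝ → ℝ)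
    (u : ℝ → ℂ → ℝ), Pot k ℓ δ η ε N Ω m u → 1 ≤ U → 32 * δ * Q + 2 ≤ U →
    (∀ x, |x| < ℓ → |Ω (pt x ph0)| ≤ Q * PP k ℓ ε x) →
    (∀ x, |x| < ℓ → |Ω (pt x (Real.pi - ph0))| ≤ Q * PP k ℓ ε x) →
    (∀ z : ℂ, |z.re| < ℓ → ph2 ≤ z.im → z.im ≤ Real.pi / 2 → Aa Ω z ≤ U * PP k ℓ ε z.re) →
    (∀ q, |q| ≤ 3 → ∀ z ∈ Rc ℓ (-ph0) ph0, (u q z + u q (conj z)) / 2 ≤ U * PP k ℓ ε z.re) →
    ∀ x, |x| < ℓ → -Aa Ω (pt x ph1) ≤ CB * U * PP k ℓ ε x := by
  obtain ⟨c, hc, hharn⟩ := harn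
  refine ⟨5 / c + 2, by have : 0 < 5 / c := by positivity
                        linarith, ?_⟩
  intro k ℓ δ η ε Q U N Ω m u hP hU hQU hQ1 hQ2 hA hu x1 hx1
  obtain ⟨n1, n2, n3, n4, n5, n6⟩ := ptB_nums
  have hpi3 := Real.pi_gt_three
  have hPPpos : ∀ x, 0 < PP k ℓ ε x := fun x => hP.hε.trans_le (eps_le_PP hP.hk.le x)
  have h5c : 0 < 5 / c := by positivity
  have hUP : ∀ x, 0 ≤ U * PP k ℓ ε x := fun x => mul_nonneg (by linarith) (hPPpos x).le
  by_cases hfar : ℓ - 5 / 2 ≤ |x1|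
  · have h1 : |Aa Ω (pt x1 ph1)| ≤ δ * k := ptB_abs hP.bd
      ⟨hx1, n2.le, by show ph1 ≤ Real.pi - ph2; linarith⟩
    have h2 : k ≤ 2 * PP k ℓ ε x1 := PP_far hP.hk.le hP.hε.le hx1 hfar
    have h3 : δ * k ≤ 1 * k := mul_le_mul_of_nonneg_right (by linarith [hP.hδ1]) hP.hk.le
    have h4 := (abs_le.mp h1).1
    have h5 : PP k ℓ ε x1 ≤ U * PP k ℓ ε x1 := by
      have := mul_le_mul_of_nonneg_right hU (hPPpos x1).le
      linarith
    have h6 : 0 ≤ 5 / c * (U * PP k ℓ ε x1) := mul_nonneg h5c.le (hUP x1)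
    have h7 : (5 / c + 2) * U * PP k ℓ ε x1 =
      5 / c * (U * PP k ℓ ε x1) + 2 * (U * PP k ℓ ε x1) := by ring
    rw [h7]
    linarith
  · have hnear : |x1| < ℓ - 5 / 2 := not_le.mp hfar
    set c0 : ℝ := (ph2 + Real.pi / 2) / 2 with hc0
    set d0 : ℝ := (Real.pi / 2 - ph2) / 2 with hd0
    set Pt : ℂ → ℝ := Hc k ℓ ε c0 d0 with hPt
    set Y : ℂ → ℝ := fun z => U * Pt z - Aa Ω z with hY
    have hPt1 : ∀ z : ℂ, ph2 ≤ z.im → z.im ≤ Real.pi / 2 → PP k ℓ ε z.re ≤ Pt z := by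
      intro z h1 h2
      apply Hc_ge hP.hk.le (by linarith) (by linarith)
      rw [abs_le]
      constructor <;> linarith
    have hPt2 : ∀ z : ℂ, Pt z ≤ 1.09 * PP k ℓ ε z.re := by
      intro z
      refine (Hc_le hP.hk.le hP.hε.le (by linarith) (by linarith) z).trans ?_
      exact mul_le_mul_of_nonneg_right (inv_cos_mid (by linarith) (by linarith)) (hPPpos _).le
    -- the inequality at one point
    have hyx : ∀ x, |x| < ℓ - 5 / 2 → 0 ≤ Y (pt x ph1) := by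
      intro x hx
      have h1 := hA (pt x ph1) (by show |x| < ℓ; linarith) n2.le
        (by show ph1 ≤ Real.pi / 2; linarith)
      have h2 := hPt1 (pt x ph1) n2.le (by show ph1 ≤ Real.pi / 2; linarith)
      have h3 := mul_le_mul_of_nonneg_left h2 (by linarith : (0 : ℝ) ≤ U)
      simp only [hY]
      linarith
    have hpoint : ∀ x, |x| < ℓ - 5 / 2 → x ∉ N → Y (pt x ph1) ≤ 5 / c * (U * PP k ℓ ε x) := by
      intro x hx hxN
      have hharm : HarmonicOnNhd Y {z | |z.re - x| < 5 / 2 ∧ ph2 < z.im ∧ z.im < Real.pi / 2} := by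
        intro z hz
        obtain ⟨h1, h2, h3⟩ := hz
        have hzℓ : |z.re| < ℓ := by
          have := abs_add_le (z.re - x) x
          simp only [sub_add_cancel] at this
          linarith
        have h4 : HarmonicAt (fun w => U * Pt w) z :=
          (Hc_harm k ℓ ε c0 d0 z (mem_univ z)).const_smul (c := U)
        have h5 : HarmonicAt (Aa Ω) z := ptB_harm hP.harm ⟨hzℓ, h2.le, by linarith⟩
        exact h4.sub h5
      have hnn : ∀ z ∈ {z : ℂ | |z.re - x| < 5 / 2 ∧ ph2 < z.im ∧ z.im < Real.pi / 2},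
          0 ≤ Y z := by
        intro z hz
        obtain ⟨h1, h2, h3⟩ := hz
        have hzℓ : |z.re| < ℓ := by
          have := abs_add_le (z.re - x) x
          simp only [sub_add_cancel] at this
          linarith
        have h4 := hA z hzℓ h2.le h3.le
        have h5 := mul_le_mul_of_nonneg_left (hPt1 z h2.le h3.le) (by linarith : (0 : ℝ) ≤ U)
        simp only [hY]
        linarith
      have hchain := hharn Y x hharm hnn
      have htop : ∀ x', |x' - x| ≤ 2 → Aa Ω (pt x' ph0) ≤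
          1.09 * U * PP k ℓ ε x' - c * Y (pt x ph1) := by
        intro x' hx'
        have h1 := hchain x' hx'
        have h2 : Y (pt x' ph0) = U * Pt (pt x' ph0) - Aa Ω (pt x' ph0) := rfl
        have h3 := mul_le_mul_of_nonneg_left (hPt2 (pt x' ph0)) (by linarith : (0 : ℝ) ≤ U)
        have h4 : (pt x' ph0).re = x' := rfl
        rw [h4] at h3
        rw [h2] at h1
        linarith
      have hk0 := ptB_key hP hc hU hQU hQ1 hQ2 hu hx (hyx x hx) htop (q := 0)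
        (by rw [abs_zero]; norm_num)
      have hk1 := ptB_key hP hc hU hQU hQ1 hQ2 hu hx (hyx x hx) htop (q := -1)
        (by rw [abs_neg, abs_one]; norm_num)
      have hm0 := hP.m0 x (by linarith)
      have hml := hP.mle x (by linarith) hxN
      have hmax := max_le hk0 hk1
      have h1 : 0 ≤ 4.00004 * U * PP k ℓ ε x - c * Y (pt x ph1) / Real.cosh ph0 := by linarith
      obtain ⟨hch1, hch2⟩ := ptB_cosh
      have hch0 : 0 < Real.cosh ph0 := by linarith
      have h2 : c * Y (pt x ph1) / Real.cosh ph0 ≤ 4.00004 * (U * PP k ℓ ε x) := by linarith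
      rw [div_le_iff₀ hch0] at h2
      have h3 : 4.00004 * (U * PP k ℓ ε x) * Real.cosh ph0 ≤
          4.00004 * (U * PP k ℓ ε x) * 1.1 :=
        mul_le_mul_of_nonneg_left hch2 (mul_nonneg (by norm_num) (hUP x))
      have h4 : c * Y (pt x ph1) ≤ 5 * (U * PP k ℓ ε x) := by linarith [hUP x]
      rw [div_mul_eq_mul_div, le_div_iff₀ hc]
      linarith
    have hfin : Y (pt x1 ph1) ≤ 5 / c * (U * PP k ℓ ε x1) := by
      by_contra hcon
      have hcon' := not_le.mp hcon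
      have hYc : ContinuousAt (fun x : ℝ => Y (pt x ph1)) x1 := by
        have h1 : HarmonicAt (Aa Ω) (pt x1 ph1) := ptB_harm hP.harm
          ⟨hx1, n2.le, by show ph1 ≤ Real.pi - ph2; linarith⟩
        have h2 : HarmonicAt (fun w => U * Pt w) (pt x1 ph1) :=
          (Hc_harm k ℓ ε c0 d0 _ (mem_univ _)).const_smul (c := U)
        have h3 : ContinuousAt Y (pt x1 ph1) := (h2.sub h1).1.continuousAt
        have h4 : Continuous fun x : ℝ => pt x ph1 := by
          have : (fun x : ℝ => pt x ph1) = fun x : ℝ => (x : ℂ) + ph1 * I := by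
            funext x
            apply Complex.ext <;> simp [pt]
          rw [this]
          fun_prop
        exact ContinuousAt.comp (f := fun x : ℝ => pt x ph1) h3 h4.continuousAt
      have hRc : Continuous fun x : ℝ => 5 / c * (U * PP k ℓ ε x) :=
        continuous_const.mul (continuous_const.mul continuous_PP)
      have h1 : ∀ᶠ x in 𝓝 x1, 5 / c * (U * PP k ℓ ε x) < Y (pt x ph1) :=
        hRc.continuousAt.eventually_lt hYc hcon'
      have h2 : ∀ᶠ x in 𝓝 x1, |x| < ℓ - 5 / 2 :=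
        continuous_abs.continuousAt.eventually_lt continuousAt_const hnear
      have h3 := (hP.hN.dense_compl ℝ).inter_nhds_nonempty (h1.and h2)
      obtain ⟨x, hxN, hx1', hx2'⟩ := h3
      exact absurd (hpoint x hx2' hxN) (not_le.mpr hx1')
    have h1 : Y (pt x1 ph1) = U * Pt (pt x1 ph1) - Aa Ω (pt x1 ph1) := rfl
    have h2 : 0 ≤ U * Pt (pt x1 ph1) := by
      have h3 := hPt1 (pt x1 ph1) n2.le (by show ph1 ≤ Real.pi / 2; linarith)
      exact mul_nonneg (by linarith) ((hPPpos _).le.trans h3)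
    have h7 : (5 / c + 2) * U * PP k ℓ ε x1 =
      5 / c * (U * PP k ℓ ε x1) + 2 * (U * PP k ℓ ε x1) := by ring
    rw [h7]
    rw [h1] at hfin
    linarith [hUP x1]

private theorem ptB_half {k ℓ δ η ε U CB : ℝ} {N : Set ℝ} {Ω : ℂ → ℝ} {m : ℝ → ℝ}
    {u : ℝ → ℂ → ℝ} (hP : Pot k ℓ δ η ε N Ω m u) (hU : 1 ≤ U) (hCB : 1 ≤ CB)
    (hA : ∀ z : ℂ, |z.re| < ℓ → ph2 ≤ z.im → z.im ≤ Real.pi / 2 → Aa Ω z ≤ U * PP k ℓ ε z.re)
    (hl : ∀ x, |x| < ℓ → -Aa Ω (pt x ph1) ≤ CB * U * PP k ℓ ε x) {z : ℂ} (hz : |z.re| < ℓ)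
    (h1 : ph1 ≤ z.im) (h2 : z.im ≤ Real.pi / 2) :
    |Aa Ω z| ≤ 2 * CB * U * PP k ℓ ε z.re := by
  obtain ⟨n1, n2, n3, n4, n5, n6⟩ := ptB_nums
  have hpi3 := Real.pi_gt_three
  have hPPpos : ∀ x, 0 < PP k ℓ ε x := fun x => hP.hε.trans_le (eps_le_PP hP.hk.le x)
  have hCU : 1 ≤ CB * U := by nlinarith
  have hCUP : ∀ x, 0 ≤ CB * U * PP k ℓ ε x := fun x => mul_nonneg (by linarith) (hPPpos x).le
  have hAzero : ∀ w : ℂ, w.im = Real.pi / 2 → Aa Ω w = 0 := by
    intro w hw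
    have : pt w.re (Real.pi - w.im) = w := by
      rw [hw, show Real.pi - Real.pi / 2 = Real.pi / 2 by ring, ← hw]
      exact ptB_pt_eta w
    rw [Aa, this, sub_self, zero_div]
  rw [abs_le]
  constructor
  swap
  · have h3 := hA z hz (by linarith) h2
    have h4 : U * PP k ℓ ε z.re ≤ CB * U * PP k ℓ ε z.re := by
      apply mul_le_mul_of_nonneg_right _ (hPPpos _).le
      nlinarith
    have h5 := hCUP z.re
    have h6 : 2 * CB * U * PP k ℓ ε z.re = 2 * (CB * U * PP k ℓ ε z.re) := by ring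
    rw [h6]
    linarith
  · have h6 : 2 * CB * U * PP k ℓ ε z.re = 2 * (CB * U * PP k ℓ ε z.re) := by ring
    rw [h6]
    rcases eq_or_lt_of_le h1 with he | hlt1
    · have h3 := hl z.re hz
      rw [he, ptB_pt_eta] at h3
      linarith [hCUP z.re]
    rcases eq_or_lt_of_le h2 with he | hlt2
    · rw [hAzero z he]
      linarith [hCUP z.re]
    have hsub : ∀ w ∈ Rc ℓ ph1 (Real.pi / 2), w ∈ Sh ℓ := by
      intro w hw
      exact ⟨hw.1, by linarith [hw.2.1], by linarith [hw.2.2]⟩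
    have hwh : HarmonicOnNhd (fun w => -Aa Ω w) (Rc ℓ ph1 (Real.pi / 2)) := by
      intro w hw
      exact (ptB_harm hP.harm (hsub w hw)).neg
    have hws : SubH (fun w => -Aa Ω w) (Rc ℓ ph1 (Real.pi / 2)) :=
      SubH.of_harmonic (isOpen_Rc _ _ _) hwh
    have hMge : ∀ w : ℂ, ph1 ≤ w.im → w.im ≤ Real.pi / 2 →
        CB * U * PP k ℓ ε w.re ≤ CB * U * Hc k ℓ ε (Real.pi / 4) (Real.pi / 2) w := by
      intro w hw1 hw2
      apply mul_le_mul_of_nonneg_left _ (by linarith)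
      apply Hc_ge hP.hk.le (by linarith) (by linarith)
      rw [abs_le]
      constructor <;> linarith
    have hcont : ∀ w ∈ Sh ℓ, ∀ a, -Aa Ω w ≤ a →
        BLe (Rc ℓ ph1 (Real.pi / 2)) (fun w => -Aa Ω w) w a := by
      intro w hw a ha e he
      have h3 : ContinuousAt (fun w => -Aa Ω w) w := (ptB_harm hP.harm hw).neg.1.continuousAt
      have h4 : ∀ᶠ z in 𝓝[Rc ℓ ph1 (Real.pi / 2)] w, -Aa Ω z < a + e :=
        (h3.tendsto.mono_left nhdsWithin_le_nhds).eventually (gt_mem_nhds (by linarith))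
      filter_upwards [h4] with z hz
      exact hz.le
    have h3 := rc_le hws (B := δ * k) (fun w hw => by
        have := (abs_le.mp (ptB_abs hP.bd (hsub w hw))).1
        linarith) (M := fun w => CB * U * Hc k ℓ ε (Real.pi / 4) (Real.pi / 2) w)
      (fun w _ => by
        have := (Hc_harm k ℓ ε (Real.pi / 4) (Real.pi / 2) w (mem_univ w)).const_smul
          (c := CB * U)
        exact this)
      (N := ∅) Set.countable_empty
      (fun x hx _ => by
        apply hcont (pt x ph1) ⟨hx, n2.le, by show ph1 ≤ Real.pi - ph2; linarith⟩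
        refine (hl x hx).trans ?_
        exact hMge (pt x ph1) le_rfl (by show ph1 ≤ Real.pi / 2; linarith))
      (fun x hx _ => by
        apply hcont (pt x (Real.pi / 2)) ⟨hx, by show ph2 ≤ Real.pi / 2; linarith,
          by show Real.pi / 2 ≤ Real.pi - ph2; linarith⟩
        rw [hAzero _ rfl, neg_zero]
        exact (hCUP x).trans (hMge (pt x (Real.pi / 2)) (by show ph1 ≤ Real.pi / 2; linarith)
          le_rfl))
      (fun w hw1 hw2 hw3 => by
        have e1 : k ≤ PP k ℓ ε w.re := PP_end hP.hε.le hw1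
        have e2 := hMge w hw2 hw3
        have e3 : δ * k ≤ 1 * k := mul_le_mul_of_nonneg_right (by linarith [hP.hδ1]) hP.hk.le
        have e4 : 1 * PP k ℓ ε w.re ≤ CB * U * PP k ℓ ε w.re :=
          mul_le_mul_of_nonneg_right hCU (hPPpos _).le
        linarith) z ⟨hz, hlt1, hlt2⟩
    have h4 : Hc k ℓ ε (Real.pi / 4) (Real.pi / 2) z ≤ 1.09 * PP k ℓ ε z.re := by
      refine (Hc_le hP.hk.le hP.hε.le (by linarith) (by linarith) z).trans ?_
      exact mul_le_mul_of_nonneg_right (inv_cos_mid (by linarith) (by linarith)) (hPPpos _).le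
    have h5 : CB * U * Hc k ℓ ε (Real.pi / 4) (Real.pi / 2) z ≤
        CB * U * (1.09 * PP k ℓ ε z.re) := mul_le_mul_of_nonneg_left h4 (by linarith)
    have h7 := hCUP z.re
    linarith

theorem b_two {k ℓ δ η ε U CB : ℝ} {N : Set ℝ} {Ω : ℂ → ℝ} {m : ℝ → ℝ}
    {u : ℝ → ℂ → ℝ} (hP : Pot k ℓ δ η ε N Ω m u) (hU : 1 ≤ U) (hCB : 1 ≤ CB)
    (hA : ∀ z : ℂ, |z.re| < ℓ → ph2 ≤ z.im → z.im ≤ Real.pi / 2 → Aa Ω z ≤ U * PP k ℓ ε z.re)
    (hl : ∀ x, |x| < ℓ → -Aa Ω (pt x ph1) ≤ CB * U * PP k ℓ ε x) {z : ℂ} (hz : |z.re| < ℓ)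
    (h1 : ph1 ≤ z.im) (h2 : z.im ≤ Real.pi - ph1) :
    |Aa Ω z| ≤ 2 * CB * U * PP k ℓ ε z.re := by
  by_cases h3 : z.im ≤ Real.pi / 2
  · exact ptB_half hP hU hCB hA hl hz h1 h3
  · have h3' := not_le.mp h3
    have h4 := ptB_half hP hU hCB hA hl (z := pt z.re (Real.pi - z.im)) hz
      (by show ph1 ≤ Real.pi - z.im; linarith) (by show Real.pi - z.im ≤ Real.pi / 2; linarith)
    have h5 : Aa Ω (pt z.re (Real.pi - z.im)) = -Aa Ω z := by
      have e1 : (pt z.re (Real.pi - z.im)).re = z.re := rfl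
      have e2 : (pt z.re (Real.pi - z.im)).im = Real.pi - z.im := rfl
      rw [Aa, Aa, e1, e2, sub_sub_cancel, ptB_pt_eta]
      ring
    rw [h5, abs_neg] at h4
    exact h4

end Pool.Agent.MP_ae5b4e_an_N4
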