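import Pool.Agent.Lib.MP_ae5b4e_an_N4.Mpx
import Pool.Agent.Lib.MP_ae5b4e_an_N4.Bar

/-!
# N4, module PtC: the symmetric part

**`c_one`.** `S = Ω - Aa`.  Let `ζ := pt x ph1`, `w₁` from `hP.one ζ`.  `rc_le` on `Rc ℓ 0 ph0`, `B = k`, majorant
`M := 3 T Hc k ℓ ε (ph0/2) (ph0/2) + Qs Hu k ℓ ε`.  Bottom (`x ∉ N`): `(1 + 16 η) m ≤ 1.00016 T P ≤ 3 T P`
(`Hu = 0` there).  Top: `Ω + 32 δ |Ω| + 2 ε ≤ S + Aa + 32 δ Q P + 2 P ≤ (Qs + 2 T) P ≤ M`.  Ends: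
`k ≤ P ≤ Hc`, `Hu ≥ 0`.  At `ζ`: `w₁ ζ ≤ 3 T * 1.00001 P + Qs P / 7`, so
`S ζ = Ω ζ - Aa ζ ≤ w₁ ζ + ε + T P ≤ (5.1 T + Qs/7) P`.
`w₂` from `hP.two ζ` in the same way: top value `-Ω (pt x (π-ph0)) + .. = -S (pt x ph0) + Aa (pt x ph0) + ..`
and `-S ζ = -Ω (pt x (π - ph1)) - Aa ζ`.. (`Ω (pt x (π - y)) = S - Aa` at `pt x y`.)
So `|S (pt x ph1)| ≤ (5.1 T + Qs/7) P x`; `S` is symmetric: the same at `π - ph1`.
`rc_le` on `Rc ℓ ph1 (π - ph1)` for `S` and `-S`, `B = δ k ≤ k`, majorant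
`(5.1 T + Qs/7) Hc k ℓ ε (π/2) (π/2 - ph1)` and `Hc ≤ 1.09 P`: `1.09 * 5.1 ≤ 6`, `1.09/7 ≤ 1/6`.

**`c_final`.** `contract` with `ι = {x // |x| < ℓ}`, `f x = |Ss Ω (pt x ph0)|`, `g = P`, `q0 = k/ε`, `θ = 1/6`,
`C = 6 T`: `|Ss (pt x ph0)| ≤ 7.2 T P`; `c_one` once more.
-/

set_option autoImplicit false

noncomputable section

namespace Pool.Agent.MP_ae5b4e_an_N4

open Complex Set Filter Topology Metric InnerProductSpace
open Pool.Agent.Lib.MP_ae5b4e_an_LL (SubH)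
open scoped ComplexConjugate

variable {k ℓ δ η ε Q T : ℝ} {N : Set ℝ} {Ω : ℂ → ℝ} {m : ℝ → ℝ} {u : ℝ → ℂ → ℝ}

namespace PtC

theorem ble_mono {V : Set ℂ} {w : ℂ → ℝ} {ζ : ℂ} {a b : ℝ} (h : BLe V w ζ a) (hab : a ≤ b) :
    BLe V w ζ b := fun e he => (h e he).mono fun z hz => by linarith

theorem ble_cont {V : Set ℂ} {w : ℂ → ℝ} {ζ : ℂ} {a : ℝ} (hc : ContinuousAt w ζ)
    (h : w ζ ≤ a) : BLe V w ζ a := by
  intro e he
  have h1 : w ζ < a + e := by linarith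
  have h2 : ∀ᶠ z in 𝓝 ζ, w z < a + e := hc.eventually (Iio_mem_nhds h1)
  exact (h2.filter_mono nhdsWithin_le_nhds).mono fun z hz => hz.le

theorem harm_refl {Ω : ℂ → ℝ} {z0 : ℂ} (h : HarmonicAt Ω (pt z0.re (Real.pi - z0.im))) :
    HarmonicAt (fun z => Ω (pt z.re (Real.pi - z.im))) z0 := by
  obtain ⟨F, hF, hFe⟩ := Pool.Agent.Lib.MP_ae5b4e_an_LL.HarmonicAt.exists_analytic h
  have hT : ∀ z : ℂ, pt z.re (Real.pi - z.im) = conj z + Real.pi * I := by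
    intro z
    apply Complex.ext
    · change z.re = (conj z + Real.pi * I).re
      simp
    · change Real.pi - z.im = (conj z + Real.pi * I).im
      simp
      ring
  rw [hT] at hF hFe
  have hcT : Continuous fun z : ℂ => conj z + Real.pi * I :=
    Complex.continuous_conj.add continuous_const
  have h1 : ∀ᶠ w in 𝓝 (conj z0 + Real.pi * I), DifferentiableAt ℂ F w :=
    hF.eventually_analyticAt.mono fun w hw => hw.differentiableAt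
  have h2 : ∀ᶠ z in 𝓝 z0, DifferentiableAt ℂ F (conj z + Real.pi * I) :=
    hcT.continuousAt.eventually h1
  have h3 : ∀ᶠ z in 𝓝 z0, DifferentiableAt ℂ
      (fun z => conj (F (conj z + Real.pi * I))) z := by
    filter_upwards [h2] with z hz
    have h4 : DifferentiableAt ℂ (fun w => F (w + Real.pi * I)) (conj z) := by
      refine DifferentiableAt.comp (conj z) (g := F) ?_ ?_
      · exact hz
      · exact differentiableAt_id.add_const _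
    have h5 := h4.conj_conj
    rw [Complex.conj_conj] at h5
    exact h5
  have h6 : AnalyticAt ℂ (fun z => conj (F (conj z + Real.pi * I))) z0 :=
    Complex.analyticAt_iff_eventually_differentiableAt.2 h3
  refine (harmonicAt_congr_nhds ?_).2 h6.harmonicAt_re
  filter_upwards [hcT.continuousAt.eventually hFe] with z hz
  rw [hT, hz, Complex.conj_re]

theorem pp_pos (hP : Pot k ℓ δ η ε N Ω m u) (x : ℝ) : 0 < PP k ℓ ε x :=
  lt_of_lt_of_le hP.hε (eps_le_PP hP.hk.le x)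

theorem ph_facts : (0 : ℝ) < ph2 ∧ ph2 < ph1 ∧ ph1 < ph0 ∧ (0 : ℝ) < ph1 ∧ (0 : ℝ) < ph0 ∧
    ph0 ≤ Real.pi - ph1 ∧ ph1 ≤ Real.pi - ph0 ∧ Real.pi - ph0 ≤ Real.pi - ph1 ∧
    ph0 < Real.pi / 2 := by
  have h := Real.pi_gt_three
  unfold ph0 ph1 ph2
  refine ⟨by norm_num, by norm_num, by norm_num, by norm_num, by norm_num, by linarith,
    by linarith, by linarith, by linarith⟩

theorem core (hP : Pot k ℓ δ η ε N Ω m u) {Qs : ℝ} (hQs : 0 ≤ Qs) (hT : 1 ≤ T)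
    (hm : ∀ x, |x| < ℓ → x ∉ N → m x ≤ T * PP k ℓ ε x) {w : ℂ → ℝ} {top : ℝ → ℝ}
    (hw : SubH w (Rc ℓ 0 ph0)) (hwk : ∀ z ∈ Rc ℓ 0 ph0, w z ≤ k)
    (hb : ∀ x, |x| < ℓ → BLe (Rc ℓ 0 ph0) w (pt x 0) ((1 + 16 * η) * m x))
    (ht : ∀ x, |x| < ℓ → BLe (Rc ℓ 0 ph0) w (pt x ph0) (top x))
    (htop : ∀ x, |x| < ℓ → top x ≤ (Qs + 2 * T) * PP k ℓ ε x) {x : ℝ} (hx : |x| < ℓ) :
    w (pt x ph1) ≤ (3.00003 * T + Qs / 7) * PP k ℓ ε x := by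
  obtain ⟨f1, f2, f3, f4, f5, f6, f7, f8, f9⟩ := ph_facts
  have hk := hP.hk.le
  have hε := hP.hε.le
  have hT0 : (0 : ℝ) ≤ 3 * T := by linarith
  have hd0 : (0 : ℝ) ≤ ph0 / 2 := by linarith
  have hpi : ph0 / 2 ≤ Real.pi := by linarith [Real.pi_pos]
  have hM : HarmonicOnNhd (fun z => 3 * T * Hc k ℓ ε (ph0 / 2) (ph0 / 2) z +
      Qs * Hu k ℓ ε z) univ := by
    have h1 : HarmonicOnNhd ((3 * T) • Hc k ℓ ε (ph0 / 2) (ph0 / 2)) univ :=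
      (Hc_harm k ℓ ε (ph0 / 2) (ph0 / 2)).const_smul
    have h2 : HarmonicOnNhd (Qs • Hu k ℓ ε) univ := (Hu_harm k ℓ ε).const_smul
    exact h1.add h2
  have key := rc_le hw hwk hM hP.hN (fun x' hx' hxN => ?_) (fun x' hx' hxN => ?_)
    (fun z hz1 hz2 hz3 => ?_) (pt x ph1) ⟨hx, f4, f3⟩
  · have h1 := Hc_le (ε := ε) (ℓ := ℓ) hk hε (c := ph0 / 2) hd0 hpi (pt x ph1)
    have h2 := inv_cos_small hd0 (by linarith : ph0 / 2 ≤ ph0)
    have h3 : Hu k ℓ ε (pt x ph1) ≤ PP k ℓ ε (pt x ph1).re / 7 := Hu_ph1 hk hε rfl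
    have h4 : (pt x ph1).re = x := rfl
    rw [h4] at h1 h3
    have h5 := pp_pos hP x
    have h6 : Hc k ℓ ε (ph0 / 2) (ph0 / 2) (pt x ph1) ≤ 1.00001 * PP k ℓ ε x :=
      h1.trans (mul_le_mul_of_nonneg_right h2 h5.le)
    have h7 := mul_le_mul_of_nonneg_left h6 hT0
    have h8 := mul_le_mul_of_nonneg_left h3 hQs
    refine key.trans ((add_le_add h7 h8).trans (le_of_eq ?_))
    ring
  · refine ble_mono (hb x' hx') ?_
    have h1 := hm x' hx' hxN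
    have h2 := hP.m0 x' hx'
    have h3 := pp_pos hP x'
    have h4 : PP k ℓ ε (pt x' 0).re ≤ Hc k ℓ ε (ph0 / 2) (ph0 / 2) (pt x' 0) := by
      refine Hc_ge hk hd0 hpi ?_
      change |(0 : ℝ) - ph0 / 2| ≤ ph0 / 2
      rw [zero_sub, abs_neg, abs_of_nonneg hd0]
    have h5 : 0 ≤ Hu k ℓ ε (pt x' 0) := Hu_nonneg hk hε (le_refl (0 : ℝ)) f5.le
    have h6 : (pt x' 0).re = x' := rfl
    rw [h6] at h4
    have h7 := mul_le_mul_of_nonneg_left h4 hT0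
    have h8 := mul_nonneg hQs h5
    have h9 := hP.hη
    have h10 := hP.hη1
    have h11 : (1 + 16 * η) * m x' ≤ (1 + 16 * η) * (T * PP k ℓ ε x') :=
      mul_le_mul_of_nonneg_left h1 (by linarith)
    have h12 : (0 : ℝ) ≤ T * PP k ℓ ε x' := mul_nonneg (by linarith) h3.le
    have h13 : (1 + 16 * η) * (T * PP k ℓ ε x') ≤ 3 * (T * PP k ℓ ε x') :=
      mul_le_mul_of_nonneg_right (by linarith) h12
    linarith
  · refine ble_mono (ht x' hx') ?_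
    have h4 : PP k ℓ ε (pt x' ph0).re ≤ Hc k ℓ ε (ph0 / 2) (ph0 / 2) (pt x' ph0) := by
      refine Hc_ge hk hd0 hpi ?_
      change |ph0 - ph0 / 2| ≤ ph0 / 2
      rw [abs_of_nonneg (by linarith)]
      linarith
    have h5 : Hu k ℓ ε (pt x' ph0) = PP k ℓ ε (pt x' ph0).re := Hu_top rfl
    have h6 : (pt x' ph0).re = x' := rfl
    rw [h6] at h4 h5
    have h7 := mul_le_mul_of_nonneg_left h4 hT0
    have h3 := pp_pos hP x'
    have h8 := htop x' hx'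
    rw [h5]
    have h9 : 0 ≤ T * PP k ℓ ε x' := mul_nonneg (by linarith) h3.le
    linarith
  · have h1 : k ≤ PP k ℓ ε z.re := PP_end hε hz1
    have h2 : PP k ℓ ε z.re ≤ Hc k ℓ ε (ph0 / 2) (ph0 / 2) z := by
      refine Hc_ge hk hd0 hpi ?_
      rw [abs_le]
      constructor <;> linarith
    have h3 : 0 ≤ Hu k ℓ ε z := Hu_nonneg hk hε hz2 hz3
    have h4 := mul_nonneg hQs h3
    have h5 : Hc k ℓ ε (ph0 / 2) (ph0 / 2) z ≤ 3 * T * Hc k ℓ ε (ph0 / 2) (ph0 / 2) z := by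
      have h6 : 0 ≤ Hc k ℓ ε (ph0 / 2) (ph0 / 2) z := by linarith [hP.hk]
      nlinarith
    linarith

theorem s_ph1 (hP : Pot k ℓ δ η ε N Ω m u) {Qs : ℝ} (hQs : 0 ≤ Qs) (hT : 1 ≤ T)
    (hQT : 32 * δ * Q + 2 ≤ T)
    (hQ1 : ∀ x, |x| < ℓ → |Ω (pt x ph0)| ≤ Q * PP k ℓ ε x)
    (hQ2 : ∀ x, |x| < ℓ → |Ω (pt x (Real.pi - ph0))| ≤ Q * PP k ℓ ε x)
    (hm : ∀ x, |x| < ℓ → x ∉ N → m x ≤ T * PP k ℓ ε x)
    (hA : ∀ z : ℂ, |z.re| < ℓ → ph1 ≤ z.im → z.im ≤ Real.pi - ph1 →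
      |Aa Ω z| ≤ T * PP k ℓ ε z.re)
    (hS : ∀ x, |x| < ℓ → |Ss Ω (pt x ph0)| ≤ Qs * PP k ℓ ε x) {x : ℝ} (hx : |x| < ℓ) :
    |Ss Ω (pt x ph1)| ≤ (5.1 * T + Qs / 7) * PP k ℓ ε x := by
  obtain ⟨f1, f2, f3, f4, f5, f6, f7, f8, f9⟩ := ph_facts
  have hpos := pp_pos hP x
  have hδ0 := hP.hδ
  have hA1 : |Aa Ω (pt x ph1)| ≤ T * PP k ℓ ε x :=
    hA (pt x ph1) hx le_rfl (show ph1 ≤ Real.pi - ph1 by linarith)
  have hAx : Aa Ω (pt x ph1) = (Ω (pt x ph1) - Ω (pt x (Real.pi - ph1))) / 2 := rfl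
  have hSx : Ss Ω (pt x ph1) = (Ω (pt x ph1) + Ω (pt x (Real.pi - ph1))) / 2 := rfl
  have heps := eps_le_PP (ε := ε) (ℓ := ℓ) hP.hk.le x
  have hTP : PP k ℓ ε x ≤ T * PP k ℓ ε x := by nlinarith
  have hA2 := abs_le.1 hA1
  have hfin : ∀ v : ℝ, v ≤ (3.00003 * T + Qs / 7) * PP k ℓ ε x →
      v + ε + T * PP k ℓ ε x ≤ (5.1 * T + Qs / 7) * PP k ℓ ε x := by
    intro v hv
    nlinarith
  rw [abs_le]
  constructor
  · obtain ⟨w, hw1, hw2, hw3, hw4, hw5⟩ := hP.two (pt x ph1) hx f2.le le_rfl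
    have h1 := core hP hQs hT hm hw1 hw2 hw3 hw4 (fun x' hx' => ?_) hx
    · have h2 : -Ω (pt x (Real.pi - ph1)) - ε ≤ w (pt x ph1) := hw5
      have h3 := hfin _ h1
      linarith
    · have g1 := abs_le.1 (hS x' hx')
      have g2 := abs_le.1 (hA (pt x' ph0) hx' (show ph1 ≤ ph0 from f3.le)
        (show ph0 ≤ Real.pi - ph1 from f6))
      have g3 : Aa Ω (pt x' ph0) = (Ω (pt x' ph0) - Ω (pt x' (Real.pi - ph0))) / 2 := rfl
      have g4 : Ss Ω (pt x' ph0) = (Ω (pt x' ph0) + Ω (pt x' (Real.pi - ph0))) / 2 := rfl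
      have g5 : (pt x' ph0).re = x' := rfl
      rw [g5] at g2
      have g6 := mul_le_mul_of_nonneg_left (hQ2 x' hx') (by linarith : (0 : ℝ) ≤ 32 * δ)
      have g7 := eps_le_PP (ε := ε) (ℓ := ℓ) hP.hk.le x'
      have g8 := pp_pos hP x'
      have g9 := mul_le_mul_of_nonneg_right hQT g8.le
      linarith
  · obtain ⟨w, hw1, hw2, hw3, hw4, hw5⟩ := hP.one (pt x ph1) hx f2.le le_rfl
    have h1 := core hP hQs hT hm hw1 hw2 hw3 hw4 (fun x' hx' => ?_) hx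
    · have h3 := hfin _ h1
      linarith
    · have g1 := abs_le.1 (hS x' hx')
      have g2 := abs_le.1 (hA (pt x' ph0) hx' (show ph1 ≤ ph0 from f3.le)
        (show ph0 ≤ Real.pi - ph1 from f6))
      have g3 : Aa Ω (pt x' ph0) = (Ω (pt x' ph0) - Ω (pt x' (Real.pi - ph0))) / 2 := rfl
      have g4 : Ss Ω (pt x' ph0) = (Ω (pt x' ph0) + Ω (pt x' (Real.pi - ph0))) / 2 := rfl
      have g5 : (pt x' ph0).re = x' := rfl
      rw [g5] at g2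
      have g6 := mul_le_mul_of_nonneg_left (hQ1 x' hx') (by linarith : (0 : ℝ) ≤ 32 * δ)
      have g7 := eps_le_PP (ε := ε) (ℓ := ℓ) hP.hk.le x'
      have g8 := pp_pos hP x'
      have g9 := mul_le_mul_of_nonneg_right hQT g8.le
      linarith

theorem refl_mem {z : ℂ} (hz : z ∈ Sh ℓ) : pt z.re (Real.pi - z.im) ∈ Sh ℓ := by
  obtain ⟨h1, h2, h3⟩ := hz
  refine ⟨h1, ?_, ?_⟩
  · change ph2 ≤ Real.pi - z.im
    linarith
  · change Real.pi - z.im ≤ Real.pi - ph2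
    linarith

theorem ss_harm (hP : Pot k ℓ δ η ε N Ω m u) {z : ℂ} (hz : z ∈ Sh ℓ) :
    HarmonicAt (Ss Ω) z := by
  have h1 : HarmonicAt Ω z := hP.harm z hz
  have h2 := harm_refl (hP.harm _ (refl_mem hz))
  have h3 : HarmonicAt ((1 / 2 : ℝ) • (Ω + fun z => Ω (pt z.re (Real.pi - z.im)))) z :=
    (h1.add h2).const_smul
  have h4 : (1 / 2 : ℝ) • (Ω + fun z => Ω (pt z.re (Real.pi - z.im))) = Ss Ω := by
    funext y
    change (1 / 2 : ℝ) * (Ω y + Ω (pt y.re (Real.pi - y.im))) =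
      (Ω y + Ω (pt y.re (Real.pi - y.im))) / 2
    ring
  rwa [h4] at h3

theorem ss_bd (hP : Pot k ℓ δ η ε N Ω m u) {z : ℂ} (hz : z ∈ Sh ℓ) : |Ss Ω z| ≤ k := by
  have h1 := abs_le.1 (hP.bd z hz)
  have h2 := abs_le.1 (hP.bd _ (refl_mem hz))
  have h3 : Ss Ω z = (Ω z + Ω (pt z.re (Real.pi - z.im))) / 2 := rfl
  have h4 := hP.hk
  have h5 := hP.hδ1
  have h6 : δ * k ≤ k := by nlinarith
  rw [abs_le]
  constructor <;> linarith

theorem ss_symm (x y : ℝ) : Ss Ω (pt x (Real.pi - y)) = Ss Ω (pt x y) := by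
  change (Ω (pt x (Real.pi - y)) + Ω (pt x (Real.pi - (Real.pi - y)))) / 2 =
    (Ω (pt x y) + Ω (pt x (Real.pi - y))) / 2
  rw [sub_sub_cancel, add_comm]

/-- the interior of the rectangle -/
theorem inner (hP : Pot k ℓ δ η ε N Ω m u) {K : ℝ} (hK : 1 ≤ K) {s : ℂ → ℝ}
    (hs : ∀ z ∈ Sh ℓ, HarmonicAt s z) (hk : ∀ z ∈ Sh ℓ, s z ≤ k)
    (h1 : ∀ x, |x| < ℓ → s (pt x ph1) ≤ K * PP k ℓ ε x)
    (h2 : ∀ x, |x| < ℓ → s (pt x (Real.pi - ph1)) ≤ K * PP k ℓ ε x) {z : ℂ}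
    (hz : z ∈ Rc ℓ ph1 (Real.pi - ph1)) : s z ≤ 1.09 * K * PP k ℓ ε z.re := by
  obtain ⟨f1, f2, f3, f4, f5, f6, f7, f8, f9⟩ := ph_facts
  have hpi := Real.pi_gt_three
  have hK0 : (0 : ℝ) ≤ K := by linarith
  have hd0 : (0 : ℝ) ≤ Real.pi / 2 - ph1 := by linarith
  have hd1 : Real.pi / 2 - ph1 ≤ Real.pi := by linarith
  have hkk := hP.hk.le
  have hε := hP.hε.le
  have hsub : Rc ℓ ph1 (Real.pi - ph1) ⊆ Sh ℓ := by
    rintro y ⟨g1, g2, g3⟩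
    exact ⟨g1, by linarith, by linarith⟩
  have hM : HarmonicOnNhd (fun z => K * Hc k ℓ ε (Real.pi / 2) (Real.pi / 2 - ph1) z) univ := by
    have g1 : HarmonicOnNhd (K • Hc k ℓ ε (Real.pi / 2) (Real.pi / 2 - ph1)) univ :=
      (Hc_harm k ℓ ε (Real.pi / 2) (Real.pi / 2 - ph1)).const_smul
    exact g1
  have hsS : SubH s (Rc ℓ ph1 (Real.pi - ph1)) :=
    SubH.of_harmonic (isOpen_Rc _ _ _) fun y hy => hs y (hsub hy)
  have hcont : ∀ y ∈ Sh ℓ, ContinuousAt s y := fun y hy => (hs y hy).1.continuousAt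
  have key := rc_le hsS (fun y hy => hk y (hsub hy)) hM hP.hN (fun x' hx' _ => ?_)
    (fun x' hx' _ => ?_) (fun y hy1 hy2 hy3 => ?_) z hz
  · have g1 := Hc_le (ε := ε) (ℓ := ℓ) hkk hε (c := Real.pi / 2) hd0 hd1 z
    have g2 := inv_cos_mid hd0 (by linarith : Real.pi / 2 - ph1 ≤ Real.pi / 2)
    have g3 := pp_pos hP z.re
    have g4 := g1.trans (mul_le_mul_of_nonneg_right g2 g3.le)
    have g5 := mul_le_mul_of_nonneg_left g4 hK0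
    refine key.trans (g5.trans (le_of_eq ?_))
    ring
  · refine ble_cont (hcont _ ⟨hx', f2.le, ?_⟩) ?_
    · change ph1 ≤ Real.pi - ph2
      linarith
    · refine (h1 x' hx').trans (mul_le_mul_of_nonneg_left ?_ hK0)
      refine Hc_ge (z := pt x' ph1) hkk hd0 hd1 ?_
      change |ph1 - Real.pi / 2| ≤ Real.pi / 2 - ph1
      rw [abs_sub_comm, abs_of_nonneg hd0]
  · refine ble_cont (hcont _ ⟨hx', ?_, ?_⟩) ?_
    · change ph2 ≤ Real.pi - ph1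
      linarith
    · change Real.pi - ph1 ≤ Real.pi - ph2
      linarith
    · refine (h2 x' hx').trans (mul_le_mul_of_nonneg_left ?_ hK0)
      refine Hc_ge (z := pt x' (Real.pi - ph1)) hkk hd0 hd1 ?_
      change |Real.pi - ph1 - Real.pi / 2| ≤ Real.pi / 2 - ph1
      rw [abs_of_nonneg (by linarith)]
      linarith
  · have g1 : k ≤ PP k ℓ ε y.re := PP_end hε hy1
    have g2 : PP k ℓ ε y.re ≤ Hc k ℓ ε (Real.pi / 2) (Real.pi / 2 - ph1) y := by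
      refine Hc_ge hkk hd0 hd1 ?_
      rw [abs_le]
      constructor <;> linarith
    have g3 : 0 ≤ Hc k ℓ ε (Real.pi / 2) (Real.pi / 2 - ph1) y := by linarith [hP.hk]
    change k ≤ K * Hc k ℓ ε (Real.pi / 2) (Real.pi / 2 - ph1) y
    nlinarith

end PtC

theorem c_one (hP : Pot k ℓ δ η ε N Ω m u) {Qs : ℝ} (hQs : 0 ≤ Qs) (hT : 1 ≤ T)
    (hQT : 32 * δ * Q + 2 ≤ T)
    (hQ1 : ∀ x, |x| < ℓ → |Ω (pt x ph0)| ≤ Q * PP k ℓ ε x)
    (hQ2 : ∀ x, |x| < ℓ → |Ω (pt x (Real.pi - ph0))| ≤ Q * PP k ℓ ε x)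
    (hm : ∀ x, |x| < ℓ → x ∉ N → m x ≤ T * PP k ℓ ε x)
    (hA : ∀ z : ℂ, |z.re| < ℓ → ph1 ≤ z.im → z.im ≤ Real.pi - ph1 →
      |Aa Ω z| ≤ T * PP k ℓ ε z.re)
    (hS : ∀ x, |x| < ℓ → |Ss Ω (pt x ph0)| ≤ Qs * PP k ℓ ε x) {z : ℂ} (hz : |z.re| < ℓ)
    (h1 : ph1 ≤ z.im) (h2 : z.im ≤ Real.pi - ph1) :
    |Ss Ω z| ≤ (1 / 6 * Qs + 6 * T) * PP k ℓ ε z.re := by
  obtain ⟨f1, f2, f3, f4, f5, f6, f7, f8, f9⟩ := PtC.ph_facts
  have hpos := PtC.pp_pos hP z.re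
  have hs1 := fun x (hx : |x| < ℓ) => PtC.s_ph1 hP hQs hT hQT hQ1 hQ2 hm hA hS hx
  have hs2 : ∀ x, |x| < ℓ →
      |Ss Ω (pt x (Real.pi - ph1))| ≤ (5.1 * T + Qs / 7) * PP k ℓ ε x := by
    intro x hx
    rw [PtC.ss_symm]
    exact hs1 x hx
  have hle : ∀ v : ℝ, v ≤ 1.09 * (5.1 * T + Qs / 7) * PP k ℓ ε z.re →
      v ≤ (1 / 6 * Qs + 6 * T) * PP k ℓ ε z.re := by
    intro v hv
    refine hv.trans (mul_le_mul_of_nonneg_right ?_ hpos.le)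
    linarith
  have hK0 : (0 : ℝ) ≤ 5.1 * T + Qs / 7 := by positivity
  have hle' : ∀ v : ℝ, v ≤ (5.1 * T + Qs / 7) * PP k ℓ ε z.re →
      v ≤ (1 / 6 * Qs + 6 * T) * PP k ℓ ε z.re := by
    intro v hv
    refine hv.trans (mul_le_mul_of_nonneg_right ?_ hpos.le)
    linarith
  have hzpt : z = pt z.re z.im := rfl
  rcases h1.eq_or_lt with e1 | e1
  · refine hle' _ ?_
    have g := hs1 z.re hz
    rw [e1] at g
    exact g
  rcases h2.eq_or_lt with e2 | e2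
  · refine hle' _ ?_
    have g := hs2 z.re hz
    rw [← e2] at g
    exact g
  have hzR : z ∈ Rc ℓ ph1 (Real.pi - ph1) := ⟨hz, e1, e2⟩
  refine hle _ ?_
  rw [abs_le]
  have hK1 : (1 : ℝ) ≤ 5.1 * T + Qs / 7 := by
    have : (0 : ℝ) ≤ Qs / 7 := by positivity
    linarith
  constructor
  · have g := PtC.inner hP hK1 (s := -Ss Ω) (fun y hy => (PtC.ss_harm hP hy).neg)
      (fun y hy => ?_) (fun x hx => ?_) (fun x hx => ?_) hzR
    · have g' : -Ss Ω z ≤ 1.09 * (5.1 * T + Qs / 7) * PP k ℓ ε z.re := g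
      linarith
    · have := abs_le.1 (PtC.ss_bd hP hy)
      change -Ss Ω y ≤ k
      linarith
    · have := abs_le.1 (hs1 x hx)
      change -Ss Ω (pt x ph1) ≤ _
      linarith
    · have := abs_le.1 (hs2 x hx)
      change -Ss Ω (pt x (Real.pi - ph1)) ≤ _
      linarith
  · exact PtC.inner hP hK1 (s := Ss Ω) (fun y hy => PtC.ss_harm hP hy)
      (fun y hy => (abs_le.1 (PtC.ss_bd hP hy)).2) (fun x hx => (abs_le.1 (hs1 x hx)).2)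
      (fun x hx => (abs_le.1 (hs2 x hx)).2) hzR

theorem c_final (hP : Pot k ℓ δ η ε N Ω m u) (hT : 1 ≤ T)
    (hQT : 32 * δ * Q + 2 ≤ T)
    (hQ1 : ∀ x, |x| < ℓ → |Ω (pt x ph0)| ≤ Q * PP k ℓ ε x)
    (hQ2 : ∀ x, |x| < ℓ → |Ω (pt x (Real.pi - ph0))| ≤ Q * PP k ℓ ε x)
    (hm : ∀ x, |x| < ℓ → x ∉ N → m x ≤ T * PP k ℓ ε x)
    (hA : ∀ z : ℂ, |z.re| < ℓ → ph1 ≤ z.im → z.im ≤ Real.pi - ph1 →
      |Aa Ω z| ≤ T * PP k ℓ ε z.re) {z : ℂ} (hz : |z.re| < ℓ)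
    (h1 : ph1 ≤ z.im) (h2 : z.im ≤ Real.pi - ph1) :
    |Ss Ω z| ≤ 8 * T * PP k ℓ ε z.re := by
  obtain ⟨f1, f2, f3, f4, f5, f6, f7, f8, f9⟩ := PtC.ph_facts
  have hT0 : (0 : ℝ) ≤ T := by linarith
  have hε := hP.hε
  have key := contract (ι := {x : ℝ // |x| < ℓ}) (f := fun x => |Ss Ω (pt x.1 ph0)|)
    (g := fun x => PP k ℓ ε x.1) (fun x => PtC.pp_pos hP x.1) (θ := 1 / 6) (C := 6 * T)
    (q0 := k / ε) (by norm_num) (by norm_num) (by linarith) (fun x => ?_)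
    (fun q hq hfq x => ?_)
  · have hS : ∀ x, |x| < ℓ → |Ss Ω (pt x ph0)| ≤ 7.2 * T * PP k ℓ ε x := by
      intro x hx
      have g := key ⟨x, hx⟩
      have g1 : 6 * T / (1 - 1 / 6) = 7.2 * T := by
        field_simp
        norm_num
      rw [g1] at g
      exact g
    have g := c_one hP (by positivity) hT hQT hQ1 hQ2 hm hA hS hz h1 h2
    refine g.trans (mul_le_mul_of_nonneg_right ?_ (PtC.pp_pos hP z.re).le)
    linarith
  · have hmem : pt x.1 ph0 ∈ Sh ℓ := by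
      refine ⟨x.2, ?_, ?_⟩
      · change ph2 ≤ ph0
        linarith
      · change ph0 ≤ Real.pi - ph2
        linarith
    refine (PtC.ss_bd hP hmem).trans ?_
    have g1 := eps_le_PP (ε := ε) (ℓ := ℓ) hP.hk.le x.1
    have g2 : k / ε * ε = k := div_mul_cancel₀ k hε.ne'
    have g3 : 0 ≤ k / ε := div_nonneg hP.hk.le hε.le
    calc k = k / ε * ε := g2.symm
      _ ≤ k / ε * PP k ℓ ε x.1 := mul_le_mul_of_nonneg_left g1 g3
  · exact c_one hP hq hT hQT hQ1 hQ2 hm hA (fun y hy => hfq ⟨y, hy⟩) (z := pt x.1 ph0) x.2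
      (show ph1 ≤ ph0 from f3.le) (show ph0 ≤ Real.pi - ph1 from f6)

end Pool.Agent.MP_ae5b4e_an_N4
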