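import Pool.Agent.Lib.MP_ae5b4e_an_N4.PtA
import Pool.Agent.Lib.MP_ae5b4e_an_N4.PtB
import Pool.Agent.Lib.MP_ae5b4e_an_N4.PtC

/-!
# N4, module PtE: the main theorem of the potential theoretic part

`CB` from `b_one`.  Given `Q ≥ 0` with `|Ω| ≤ Q P` at `ph0`, `π - ph0`: `U := 16300 (1 + δ Q)`
(`32 δ Q + 2 ≤ U`), `a_final`, `b_one`, `b_two` give `|Aa| ≤ 2 CB U P`; `T := 2 CB U`, `c_final`:
`|Ss| ≤ 8 T P`; so `|Ω| = |Aa + Ss| ≤ 9 T P = C₀ (1 + δ Q) P`, `C₀ := 18 CB * 16300`, on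
`ph1 ≤ Im z ≤ π - ph1`.  `contract` with `f x = max |Ω (pt x ph0)| |Ω (pt x (π - ph0))|`, `q0 = k/ε`,
`θ = C₀ δ ≤ 1/2`, `C = C₀`: this holds with `Q = 2 C₀` (`C₀/(1-θ) ≤ 2 C₀`).  `δ₀ := 1/(2 C₀)`.  Then
`δ Q ≤ 1`: `m ≤ 32600 P` for `x ∉ N`, `|Ω| ≤ 2 C₀ P`.  For `u q`: `rc_le` on `Rc ℓ (-ph0) ph0`, `N = ∅`, `B = k`,
majorant `(2 C₀ (1 + 32 δ) + 2) Hc k ℓ ε 0 ph0 ≤ (2 C₀ + 67) Hc ≤ C P`.  `C := 4 C₀ + 100000`.
-/

set_option autoImplicit false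

noncomputable section

namespace Pool.Agent.MP_ae5b4e_an_N4

open Complex Set Filter Topology Metric InnerProductSpace
open Pool.Agent.Lib.MP_ae5b4e_an_LL (SubH)
open scoped ComplexConjugate

theorem pot_main : ∃ C : ℝ, 1 ≤ C ∧ ∃ δ₀ : ℝ, 0 < δ₀ ∧ ∀ (k ℓ δ η ε : ℝ) (N : Set ℝ) (Ω : ℂ → ℝ)
    (m : ℝ → ℝ) (u : ℝ → ℂ → ℝ), δ ≤ δ₀ → Pot k ℓ δ η ε N Ω m u →
    (∀ x, |x| < ℓ → x ∉ N → m x ≤ C * PP k ℓ ε x) ∧
    (∀ z : ℂ, |z.re| < ℓ → ph1 ≤ z.im → z.im ≤ Real.pi - ph1 → |Ω z| ≤ C * PP k ℓ ε z.re) ∧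
    ∀ q, |q| ≤ 3 → ∀ z ∈ Rc ℓ (-ph0) ph0, u q z ≤ C * PP k ℓ ε z.re := by
  obtain ⟨CB, hCB, hb1⟩ := b_one
  set C₀ : ℝ := 18 * CB * 16300 with hC₀
  have hC₀1 : 1 ≤ C₀ := by rw [hC₀]; linarith
  have hC₀0 : 0 < C₀ := by linarith
  refine ⟨4 * C₀ + 100000, by linarith, 1 / (2 * C₀), by positivity, ?_⟩
  intro k ℓ δ η ε N Ω m u hδ hP
  have hk := hP.hk
  have hε := hP.hε
  have hδ0 := hP.hδ
  have hδ1 := hP.hδ1
  have hpi := Real.pi_gt_three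
  have hCδ : 2 * C₀ * δ ≤ 1 := by
    rw [le_div_iff₀ (by positivity)] at hδ
    linarith
  have hPε : ∀ x, ε ≤ PP k ℓ ε x := fun x => eps_le_PP hk.le x
  have hPpos : ∀ x, 0 < PP k ℓ ε x := fun x => hε.trans_le (hPε x)
  -- the main step
  have step : ∀ Q : ℝ, 0 ≤ Q → (∀ x, |x| < ℓ → |Ω (pt x ph0)| ≤ Q * PP k ℓ ε x) →
      (∀ x, |x| < ℓ → |Ω (pt x (Real.pi - ph0))| ≤ Q * PP k ℓ ε x) →
      (∀ x, |x| < ℓ → x ∉ N → m x ≤ 16300 * (1 + δ * Q) * PP k ℓ ε x) ∧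
      ∀ z : ℂ, |z.re| < ℓ → ph1 ≤ z.im → z.im ≤ Real.pi - ph1 →
        |Ω z| ≤ C₀ * (1 + δ * Q) * PP k ℓ ε z.re := by
    intro Q hQ hQ1 hQ2
    obtain ⟨hm, hA, hu⟩ := a_final hP hQ hQ1 hQ2
    have hδQ : 0 ≤ δ * Q := mul_nonneg hδ0 hQ
    set U : ℝ := 16300 * (1 + δ * Q) with hU
    have hU1 : 1 ≤ U := by rw [hU]; linarith
    have hU2 : 32 * δ * Q + 2 ≤ U := by rw [hU]; nlinarith
    have hl := hb1 k ℓ δ η ε Q U N Ω m u hP hU1 hU2 hQ1 hQ2 hA hu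
    have hAb : ∀ z : ℂ, |z.re| < ℓ → ph1 ≤ z.im → z.im ≤ Real.pi - ph1 →
        |Aa Ω z| ≤ 2 * CB * U * PP k ℓ ε z.re := fun z hz h1 h2 =>
      b_two hP hU1 hCB hA hl hz h1 h2
    have hUT : U ≤ 2 * CB * U := by nlinarith
    have hS : ∀ z : ℂ, |z.re| < ℓ → ph1 ≤ z.im → z.im ≤ Real.pi - ph1 →
        |Ss Ω z| ≤ 8 * (2 * CB * U) * PP k ℓ ε z.re := fun z hz h1 h2 =>
      c_final hP (T := 2 * CB * U) (by linarith) (by linarith) hQ1 hQ2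
        (fun x hx hxN => (hm x hx hxN).trans
          (mul_le_mul_of_nonneg_right hUT (hPpos x).le)) hAb hz h1 h2
    refine ⟨hm, fun z hz h1 h2 => ?_⟩
    have e1 : Ω z = Aa Ω z + Ss Ω z := by
      unfold Aa Ss
      ring
    have e2 : C₀ * (1 + δ * Q) * PP k ℓ ε z.re =
        2 * CB * U * PP k ℓ ε z.re + 8 * (2 * CB * U) * PP k ℓ ε z.re := by
      rw [hC₀, hU]
      ring
    rw [e1, e2]
    exact (abs_add_le _ _).trans (add_le_add (hAb z hz h1 h2) (hS z hz h1 h2))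
  -- the contraction
  have hph : ph2 ≤ ph0 ∧ ph1 ≤ ph0 ∧ ph0 ≤ Real.pi - ph2 ∧ ph0 ≤ Real.pi - ph1 ∧ 0 < ph0 := by
    unfold ph0 ph1 ph2
    refine ⟨?_, ?_, ?_, ?_, ?_⟩ <;> linarith
  obtain ⟨hp1, hp2, hp3, hp4, hp0⟩ := hph
  have hpp : ph0 ≤ Real.pi := by
    unfold ph0
    linarith
  have hcon := contract (ι := {x : ℝ // |x| < ℓ})
    (f := fun x => max |Ω (pt x.1 ph0)| |Ω (pt x.1 (Real.pi - ph0))|)
    (g := fun x => PP k ℓ ε x.1) (fun x => hPpos x.1) (θ := C₀ * δ) (C := C₀) (q0 := k / ε)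
    (by positivity) (by linarith) hC₀0.le
    (by
      rintro ⟨x, hx⟩
      have h1 : δ * k ≤ k / ε * PP k ℓ ε x := by
        have h2 : k / ε * ε ≤ k / ε * PP k ℓ ε x :=
          mul_le_mul_of_nonneg_left (hPε x) (by positivity)
        rw [div_mul_cancel₀ _ hε.ne'] at h2
        nlinarith
      refine max_le ?_ ?_
      · refine (hP.bd (pt x ph0) ⟨hx, hp1, hp3⟩).trans h1
      · refine (hP.bd (pt x (Real.pi - ph0)) ⟨hx, ?_, ?_⟩).trans h1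
        · show ph2 ≤ Real.pi - ph0
          linarith
        · show Real.pi - ph0 ≤ Real.pi - ph2
          linarith)
    (by
      intro q hq hf
      have hQ1 : ∀ x, |x| < ℓ → |Ω (pt x ph0)| ≤ q * PP k ℓ ε x := fun x hx =>
        (le_max_left _ _).trans (hf ⟨x, hx⟩)
      have hQ2 : ∀ x, |x| < ℓ → |Ω (pt x (Real.pi - ph0))| ≤ q * PP k ℓ ε x := fun x hx =>
        (le_max_right _ _).trans (hf ⟨x, hx⟩)
      obtain ⟨-, h1⟩ := step q hq hQ1 hQ2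
      have e1 : C₀ * δ * q + C₀ = C₀ * (1 + δ * q) := by ring
      rintro ⟨x, hx⟩
      show max |Ω (pt x ph0)| |Ω (pt x (Real.pi - ph0))| ≤ (C₀ * δ * q + C₀) * PP k ℓ ε x
      rw [e1]
      refine max_le ?_ ?_
      · exact h1 (pt x ph0) hx hp2 hp4
      · refine h1 (pt x (Real.pi - ph0)) hx ?_ ?_
        · show ph1 ≤ Real.pi - ph0
          linarith
        · show Real.pi - ph0 ≤ Real.pi - ph1
          linarith)
  have hθ : C₀ / (1 - C₀ * δ) ≤ 2 * C₀ := by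
    rw [div_le_iff₀ (by linarith)]
    nlinarith
  have hQ1 : ∀ x, |x| < ℓ → |Ω (pt x ph0)| ≤ 2 * C₀ * PP k ℓ ε x := fun x hx =>
    ((le_max_left _ _).trans (hcon ⟨x, hx⟩)).trans
      (mul_le_mul_of_nonneg_right hθ (hPpos x).le)
  have hQ2 : ∀ x, |x| < ℓ → |Ω (pt x (Real.pi - ph0))| ≤ 2 * C₀ * PP k ℓ ε x := fun x hx =>
    ((le_max_right _ _).trans (hcon ⟨x, hx⟩)).trans
      (mul_le_mul_of_nonneg_right hθ (hPpos x).le)
  obtain ⟨hm, hΩ⟩ := step (2 * C₀) (by linarith) hQ1 hQ2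
  have hδQ : δ * (2 * C₀) ≤ 1 := by linarith
  refine ⟨fun x hx hxN => (hm x hx hxN).trans
    (mul_le_mul_of_nonneg_right (by linarith) (hPpos x).le), fun z hz h1 h2 =>
    (hΩ z hz h1 h2).trans (mul_le_mul_of_nonneg_right (by nlinarith) (hPpos _).le), ?_⟩
  intro q hq
  set K : ℝ := 2 * C₀ * (1 + 32 * δ) + 2 with hK
  have hK1 : 1 ≤ K := by
    rw [hK]
    nlinarith
  have hK2 : K ≤ 2 * C₀ + 34 := by
    rw [hK]
    linarith
  have hmono : ∀ {V : Set ℂ} {w : ℂ → ℝ} {ζ : ℂ} {a a' : ℝ}, BLe V w ζ a → a ≤ a' →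
      BLe V w ζ a' := by
    intro V w ζ a a' h haa e he
    filter_upwards [h e he] with z hz
    linarith
  have hHge : ∀ z : ℂ, |z.im| ≤ ph0 → PP k ℓ ε z.re ≤ Hc k ℓ ε 0 ph0 z := by
    intro z hz
    refine Hc_ge hk.le hp0.le hpp ?_
    rwa [sub_zero]
  have hval : ∀ (s : ℝ) (x : ℝ), |s| ≤ 2 * C₀ * PP k ℓ ε x →
      s + 32 * δ * |s| + 2 * ε ≤ K * PP k ℓ ε x := by
    intro s x hs
    have h1 := le_abs_self s
    have h2 := hPε x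
    have h3 : 32 * δ * |s| ≤ 32 * δ * (2 * C₀ * PP k ℓ ε x) :=
      mul_le_mul_of_nonneg_left hs (by positivity)
    rw [hK]
    nlinarith
  have key := rc_le (hP.usub q hq) (hP.ule q hq) (M := fun z => K * Hc k ℓ ε 0 ph0 z)
    ((Hc_harm k ℓ ε 0 ph0).const_smul (c := K)) (N := ∅) countable_empty
    (by
      intro x hx _
      refine hmono (hP.ubot q hq x hx) ?_
      have h1 := hval (-Ω (pt x (Real.pi - ph0))) x (by rw [abs_neg]; exact hQ2 x hx)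
      rw [abs_neg] at h1
      refine h1.trans (mul_le_mul_of_nonneg_left ?_ (by linarith))
      refine hHge (pt x (-ph0)) ?_
      show |-ph0| ≤ ph0
      rw [abs_neg, abs_of_pos hp0])
    (by
      intro x hx _
      refine hmono (hP.utop q hq x hx) ?_
      have h1 := hval (Ω (pt x ph0)) x (hQ1 x hx)
      refine h1.trans (mul_le_mul_of_nonneg_left ?_ (by linarith))
      refine hHge (pt x ph0) ?_
      show |ph0| ≤ ph0
      rw [abs_of_pos hp0])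
    (by
      intro z hz h1 h2
      have h3 := PP_end (k := k) hε.le hz
      have h4 := hHge z (abs_le.2 ⟨h1, h2⟩)
      have h5 : 0 ≤ Hc k ℓ ε 0 ph0 z := (hPpos _).le.trans h4
      show k ≤ K * Hc k ℓ ε 0 ph0 z
      nlinarith)
  intro z hz
  refine (key z hz).trans ?_
  have h1 := Hc_le hk.le hε.le hp0.le (c := 0) hpp (ℓ := ℓ) z
  have h2 := inv_cos_small hp0.le le_rfl
  have h3 : Hc k ℓ ε 0 ph0 z ≤ 1.00001 * PP k ℓ ε z.re :=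
    h1.trans (mul_le_mul_of_nonneg_right h2 (hPpos _).le)
  have h4 := hPpos z.re
  show K * Hc k ℓ ε 0 ph0 z ≤ _
  calc K * Hc k ℓ ε 0 ph0 z ≤ K * (1.00001 * PP k ℓ ε z.re) :=
        mul_le_mul_of_nonneg_left h3 (by linarith)
    _ = (K * 1.00001) * PP k ℓ ε z.re := by ring
    _ ≤ _ := mul_le_mul_of_nonneg_right (by linarith) h4.le

end Pool.Agent.MP_ae5b4e_an_N4
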