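import Pool.Agent.Lib.MP_ae5b4e_an_N4.BPot
import Pool.Agent.Lib.MP_ae5b4e_an_N4.BMic
import Pool.Agent.Lib.MP_ae5b4e_an_N4.BFill
import Pool.Agent.Lib.MP_ae5b4e_an_N4.PtE

/-!
# N4, module BFin: the main theorem of part B
-/

set_option autoImplicit false

noncomputable section

namespace Pool.Agent.MP_ae5b4e_an_N4

open Complex Set Filter Topology Metric InnerProductSpace
open Pool.Agent.MP_ae5b4e_an_NBT (St MerAt Mer EqM)
open Pool.Agent.Lib.MP_ae5b4e_an_LL (SubH)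
open scoped ComplexConjugate

/-- the weight in terms of the radius -/
theorem BFin_PP {k ℓ ε rm ra rb x : ℝ} (hk : 0 ≤ k) (hrm : 0 < rm) (hra : ra = rm * Real.exp (-ℓ))
    (hrb : rb = rm * Real.exp ℓ) (hε : ε ≤ 1) :
    PP k ℓ ε x ≤ 1 + k * ((rm * Real.exp x / rb) ^ (1 / 4 : ℝ) +
      (ra / (rm * Real.exp x)) ^ (1 / 4 : ℝ)) := by
  have e1 : rm * Real.exp x / rb = Real.exp (x - ℓ) := by
    rw [hrb, Real.exp_sub]
    field_simp
  have e2 : ra / (rm * Real.exp x) = Real.exp (-ℓ - x) := by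
    rw [hra, Real.exp_sub]
    field_simp
  rw [e1, e2, ← Real.exp_mul, ← Real.exp_mul]
  have h1 : Real.cosh (x / 4) ≤ (Real.exp ((x - ℓ) * (1 / 4)) + Real.exp ((-ℓ - x) * (1 / 4))) *
      Real.cosh (ℓ / 4) := by
    rw [Real.cosh_eq, Real.cosh_eq, add_mul]
    have h2 : Real.exp ((x - ℓ) * (1 / 4)) * Real.exp (ℓ / 4) = Real.exp (x / 4) := by
      rw [← Real.exp_add]
      congr 1
      ring
    have h3 : Real.exp ((-ℓ - x) * (1 / 4)) * Real.exp (ℓ / 4) = Real.exp (-(x / 4)) := by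
      rw [← Real.exp_add]
      congr 1
      ring
    have h4 := mul_pos (Real.exp_pos ((x - ℓ) * (1 / 4))) (Real.exp_pos (-(ℓ / 4)))
    have h5 := mul_pos (Real.exp_pos ((-ℓ - x) * (1 / 4))) (Real.exp_pos (-(ℓ / 4)))
    nlinarith
  unfold PP
  have h6 := Real.cosh_pos (ℓ / 4)
  have h7 : k * Real.cosh (x / 4) / Real.cosh (ℓ / 4) ≤
      k * (Real.exp ((x - ℓ) * (1 / 4)) + Real.exp ((-ℓ - x) * (1 / 4))) := by
    rw [div_le_iff₀ h6, mul_assoc]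
    exact mul_le_mul_of_nonneg_left h1 hk
  linarith

/-- the bound for small `x` -/
theorem BFin_small {k ℓ ε x : ℝ} (hk : 0 < k) (hε : 0 < ε) (hx : |x| ≤ 2)
    (h : k / ε ≤ Real.cosh (ℓ / 4)) : PP k ℓ ε x ≤ 3 * ε := by
  have h1 : Real.cosh (x / 4) ≤ Real.cosh (1 / 2) := by
    rw [Real.cosh_le_cosh, abs_of_pos (by norm_num : (0:ℝ) < 1 / 2), abs_div,
      abs_of_pos (by norm_num : (0:ℝ) < 4)]
    linarith
  have h2 : Real.cosh (1 / 2) ≤ 2 := by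
    have h3 := Real.cosh_le_exp_half_sq (1 / 2)
    have h4 : Real.exp ((1 / 2) ^ 2 / 2) ≤ Real.exp (1 / 2) := Real.exp_le_exp.2 (by norm_num)
    have h5 := Real.exp_bound_div_one_sub_of_interval' (x := 1 / 2) (by norm_num) (by norm_num)
    norm_num at h5
    linarith
  have h6 := Real.cosh_pos (ℓ / 4)
  have h7 : k * Real.cosh (x / 4) / Real.cosh (ℓ / 4) ≤ 2 * ε := by
    rw [div_le_iff₀ h6]
    rw [div_le_iff₀ hε] at h
    have h8 : k * Real.cosh (x / 4) ≤ k * 2 := mul_le_mul_of_nonneg_left (h1.trans h2) hk.le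
    nlinarith
  unfold PP
  linarith

/-- the main theorem of part B (no use is made of the window form of `G'`) -/
theorem fin0 : ∃ C : ℝ, 1 ≤ C ∧ ∃ δ₀ > 0, ∃ K₀ : ℝ,
    ∀ (k ra rb δ η r1 : ℝ) (v : ℂ → ℝ) (F E E' : ℂ × ℂ → ℂ) (z₁ : ℂ → ℂ),
    K₀ ≤ k → 0 < ra → ra < rb → 0 < δ → δ ≤ δ₀ → 0 ≤ η → η ≤ δ₀ → r1 ≤ δ₀ →
    SubH v {ρ | ra < ‖ρ‖ ∧ ‖ρ‖ < rb} →
    (∀ ρ : ℂ, ra < ‖ρ‖ → ‖ρ‖ < rb → v (-ρ) = v ρ) →
    (∀ c : ℝ, ra < c → c < rb → 0 ≤ v c) →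
    (∀ ρ : ℂ, ra < ‖ρ‖ → ‖ρ‖ < rb → v ρ ≤ k * ((1 + η) * |ρ.im| + η * ‖ρ‖)) →
    (∀ z ρ : ℂ, ra < ‖ρ‖ → ‖ρ‖ < rb → ‖z‖ ≤ 4 * k → (ρ * z).im < -v ρ →
      EqM F (fun p => F (-p.1, -p.2)) (z, ρ)) →
    (∀ c q : ℝ, ra < c → c < rb → Irrational c → |q| ≤ 2 →
      ¬ (RegZ v F c q ∧ RegZ v F c (q - 1))) →
    Cor k ra rb δ r1 v F E z₁ →
    Cor k ra rb δ r1 (fun ρ => v (-conj ρ)) (mirE F) E' (fun ρ => conj (z₁ (-conj ρ))) →
    (∀ c : ℝ, ra < c → c < rb →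
      v c ≤ C * c * (1 + k * ((c / rb) ^ (1 / 4 : ℝ) + (ra / c) ^ (1 / 4 : ℝ)))) ∧
    (∀ ρ : ℂ, ra < ‖ρ‖ → ‖ρ‖ < rb → ph1 ≤ arg ρ → arg ρ ≤ Real.pi - ph1 →
      |(z₁ ρ).im| ≤ C * (1 + k * ((‖ρ‖ / rb) ^ (1 / 4 : ℝ) + (ra / ‖ρ‖) ^ (1 / 4 : ℝ)))) ∧
    Real.log (rb / ra) ≤ C * Real.log k := by
  obtain ⟨C, hC1, δ₁, hδ₁, hpot⟩ := pot_main
  have hC0 : 0 < C := by linarith
  set ε : ℝ := 1 / (30000 * C) with hε
  have hε0 : 0 < ε := by positivity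
  have hε1 : ε ≤ 1 := by
    rw [hε, div_le_one (by positivity)]
    linarith
  refine ⟨C + 16, by linarith, min δ₁ (min (1 / 100000) ε), by positivity,
    max (10 ^ 6) (2 / ε), ?_⟩
  intro k ra rb δ η r1 v F E E' z₁ hk hra hab hδ hδ' hη hη' hr1 hsub hev hpos hcon hF hgp hco hco'
  have hk6 : 10 ^ 6 ≤ k := (le_max_left _ _).trans hk
  have hkε : 2 / ε ≤ k := (le_max_right _ _).trans hk
  have hk0 : 0 < k := by linarith
  have hδa : δ ≤ δ₁ := hδ'.trans (min_le_left _ _)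
  have hδb : δ ≤ 1 / 100000 := hδ'.trans ((min_le_right _ _).trans (min_le_left _ _))
  have hηb : η ≤ 1 / 100000 := hη'.trans ((min_le_right _ _).trans (min_le_left _ _))
  have hr1b : r1 ≤ ε := hr1.trans ((min_le_right _ _).trans (min_le_right _ _))
  have hrb : 0 < rb := hra.trans hab
  set rm : ℝ := Real.sqrt (ra * rb) with hrm
  set ℓ : ℝ := Real.log (rb / ra) / 2 with hl
  have hrm0 : 0 < rm := Real.sqrt_pos.2 (mul_pos hra hrb)
  have hℓ0 : 0 < ℓ := by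
    have : 0 < Real.log (rb / ra) := Real.log_pos ((one_lt_div hra).2 hab)
    rw [hl]
    linarith
  have hexpl : Real.exp ℓ ^ 2 = rb / ra := by
    rw [← Real.exp_nat_mul, hl]
    rw [show ((2:ℕ):ℝ) * (Real.log (rb / ra) / 2) = Real.log (rb / ra) by push_cast; ring]
    exact Real.exp_log (div_pos hrb hra)
  have hrmsq : rm ^ 2 = ra * rb := Real.sq_sqrt (mul_pos hra hrb).le
  have hrb' : rb = rm * Real.exp ℓ := by
    have h1 : (rm * Real.exp ℓ) ^ 2 = rb ^ 2 := by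
      rw [mul_pow, hexpl, hrmsq]
      field_simp
    have h2 : 0 ≤ rm * Real.exp ℓ := by positivity
    exact ((sq_eq_sq₀ h2 hrb.le).1 h1).symm
  have hra' : ra = rm * Real.exp (-ℓ) := by
    have h1 : rm * Real.exp (-ℓ) * rb = rm ^ 2 := by
      rw [hrb', Real.exp_neg]
      field_simp
    rw [hrmsq] at h1
    exact (mul_right_cancel₀ hrb.ne' h1).symm
  have hek : Real.exp (-k) ≤ ε := by
    have h1 := Real.add_one_le_exp k
    rw [Real.exp_neg, inv_le_comm₀ (Real.exp_pos _) hε0]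
    have h2 : 1 / ε ≤ 2 / ε := by gcongr; norm_num
    rw [← one_div]
    linarith
  have hcm : ∀ ρ : ℂ, ‖-conj ρ‖ = ‖ρ‖ := fun ρ => by
    rw [norm_neg, RCLike.norm_conj]
  have hS : Side k ra rb rm ℓ δ η ε r1 v F E z₁ :=
    { hk := hk6, rm0 := hrm0, hℓ := hℓ0, hra := hra', hrb := hrb', δ0 := hδ.le
      δ1 := by linarith
      η0 := hη, η1 := hηb, ε0 := hε0, ε1 := hε1, ek := hek, hr1 := hr1b, usc := hsub.usc
      pos := hpos, con := hcon, cor := hco }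
  have hS' : Side k ra rb rm ℓ δ η ε r1 (fun ρ => v (-conj ρ)) (mirE F) E'
      (fun ρ => conj (z₁ (-conj ρ))) :=
    { hk := hk6, rm0 := hrm0, hℓ := hℓ0, hra := hra', hrb := hrb', δ0 := hδ.le
      δ1 := by linarith
      η0 := hη, η1 := hηb, ε0 := hε0, ε1 := hε1, ek := hek, hr1 := hr1b
      usc := by
        intro ρ hρ y hy
        have h1 : -conj ρ ∈ {ρ : ℂ | ra < ‖ρ‖ ∧ ‖ρ‖ < rb} := by
          show ra < ‖-conj ρ‖ ∧ ‖-conj ρ‖ < rb
          rw [hcm]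
          exact hρ
        have h2 : Tendsto (fun z : ℂ => -conj z) (𝓝[{ρ : ℂ | ra < ‖ρ‖ ∧ ‖ρ‖ < rb}] ρ)
            (𝓝[{ρ : ℂ | ra < ‖ρ‖ ∧ ‖ρ‖ < rb}] (-conj ρ)) := by
          refine tendsto_nhdsWithin_iff.2 ⟨?_, ?_⟩
          · exact (Complex.continuous_conj.neg.tendsto ρ).mono_left nhdsWithin_le_nhds
          · filter_upwards [self_mem_nhdsWithin] with z hz
            show ra < ‖-conj z‖ ∧ ‖-conj z‖ < rb
            rw [hcm]
            exact hz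
        exact h2.eventually (hsub.usc _ h1 y hy)
      pos := by
        intro c hc1 hc2
        rw [Complex.conj_ofReal]
        have h0 : 0 < c := hra.trans hc1
        have h1 : ‖(c:ℂ)‖ = c := by
          rw [Complex.norm_real, Real.norm_of_nonneg h0.le]
        rw [hev _ (by rwa [h1]) (by rwa [h1])]
        exact hpos c hc1 hc2
      con := by
        intro ρ h1 h2
        have h3 := hcon (-conj ρ) (by rwa [hcm]) (by rwa [hcm])
        rw [hcm] at h3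
        have h4 : (-conj ρ).im = ρ.im := by simp
        rw [h4] at h3
        exact h3
      cor := hco' }
  have hB : Both k ra rb rm ℓ δ η ε r1 v F E E' z₁ :=
    { s := hS, s' := hS', sub := hsub, vev := hev, ev := hF, gp := hgp }
  have hP := pot_inst hB
  obtain ⟨hm, hΩ, hu⟩ := hpot _ _ _ _ _ _ _ _ _ hδa hP
  -- the length
  have hlen : Real.cosh (ℓ / 4) < k / ε := by
    by_contra hcon'
    push Not at hcon'
    have h3ε : C * (3 * ε) = 1 / 10 ^ 4 := by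
      rw [hε]
      field_simp
      norm_num
    have hℓ2 : 2 < ℓ := by
      by_contra h1
      push Not at h1
      have h2 : Real.cosh (ℓ / 4) ≤ Real.cosh (1 / 2) := by
        rw [Real.cosh_le_cosh, abs_of_pos (by positivity), abs_of_pos (by norm_num : (0:ℝ) < 1 / 2)]
        linarith
      have h3 := BFin_small (ℓ := ℓ) (x := 2) hk0 hε0 (by norm_num) hcon'
      have h4 : 10 ^ 6 ≤ k / ε := by
        rw [le_div_iff₀ hε0]
        have : 10 ^ 6 * ε ≤ 10 ^ 6 * 1 := mul_le_mul_of_nonneg_left hε1 (by norm_num)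
        linarith
      have h5 : Real.cosh (1 / 2) ≤ Real.exp (1 / 2) := by
        rw [Real.cosh_eq]
        have : Real.exp (-(1 / 2)) ≤ Real.exp (1 / 2) := Real.exp_le_exp.2 (by norm_num)
        linarith
      have h6 := Real.exp_bound_div_one_sub_of_interval' (x := 1 / 2) (by norm_num) (by norm_num)
      norm_num at h6
      linarith
    refine micro hB hℓ2 (κ := 1 / 10 ^ 4) (by norm_num) le_rfl ?_ ?_ ?_
    · intro w h1 h2 h3
      have h4 := hΩ w (by linarith) h2 h3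
      have h5 := mul_le_mul_of_nonneg_left (BFin_small (ℓ := ℓ) hk0 hε0 h1 hcon') hC0.le
      linarith
    · intro q hq w hw
      have h4 := hu q hq w ⟨hw.1.trans hℓ2, hw.2⟩
      have h5 := mul_le_mul_of_nonneg_left (BFin_small (ℓ := ℓ) hk0 hε0 hw.1.le hcon') hC0.le
      linarith
    · intro x hx hi
      have h4 := hm x (by linarith) (not_not.2 hi)
      have h5 := mul_le_mul_of_nonneg_left (BFin_small (ℓ := ℓ) hk0 hε0 hx hcon') hC0.le
      linarith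
  -- the heights
  have hheight : ∀ x, |x| < ℓ → v ((rm * Real.exp x : ℝ) : ℂ) ≤
      C * PP k ℓ ε x * (rm * Real.exp x) := by
    have hV : SubH (fun w => v (psiB rm w)) {w | |w.re| < ℓ} := by
      refine hsub.comp (isOpen_ann ra rb) (isOpen_lt (by fun_prop) continuous_const)
        (fun w _ => analyticAt_psi rm w) fun w hw => hS.mem hw
    have h1 := fill (V := fun w => v (psiB rm w)) (K := k * (3 * rb)) (BPot_count hrm0) hV ?_
      (a := fun x => C * PP k ℓ ε x * (rm * Real.exp x)) ?_ ?_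
    · intro x hx
      have h2 := h1 x hx
      simp only [psi_real] at h2
      exact h2
    · intro w hw
      obtain ⟨h2, h3⟩ := hS.mem hw
      have h4 := hcon _ h2 h3
      refine h4.trans (mul_le_mul_of_nonneg_left ?_ hk0.le)
      have h5 : |(psiB rm w).im| ≤ ‖psiB rm w‖ := Complex.abs_im_le_norm _
      have h6 := norm_nonneg (psiB rm w)
      have h7 : (1 + η) * |(psiB rm w).im| ≤ 2 * ‖psiB rm w‖ :=
        mul_le_mul (by linarith) h5 (abs_nonneg _) (by norm_num)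
      have h8 : η * ‖psiB rm w‖ ≤ 1 * ‖psiB rm w‖ := mul_le_mul_of_nonneg_right (by linarith) h6
      linarith
    · exact (continuous_const.mul (continuous_PP)).mul (continuous_const.mul Real.continuous_exp)
    · intro x hx hi
      have h2 := hm x hx hi
      have h3 : 0 < rm * Real.exp x := by positivity
      show v (psiB rm (pt x 0)) ≤ _
      rw [psi_real]
      exact (div_le_iff₀ h3).1 h2
  refine ⟨?_, ?_, ?_⟩
  · intro c hc1 hc2
    have hc0 : 0 < c := hra.trans hc1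
    set x := Real.log (c / rm) with hx
    have hcx : rm * Real.exp x = c := by
      rw [hx, Real.exp_log (div_pos hc0 hrm0)]
      field_simp
    have hxl : |x| < ℓ := by
      rw [abs_lt]
      rw [hra', ← hcx] at hc1
      rw [hrb', ← hcx] at hc2
      exact ⟨Real.exp_lt_exp.1 (lt_of_mul_lt_mul_left hc1 hrm0.le),
        Real.exp_lt_exp.1 (lt_of_mul_lt_mul_left hc2 hrm0.le)⟩
    have h1 := hheight x hxl
    have h2 := BFin_PP (ℓ := ℓ) (x := x) hk0.le hrm0 hra' hrb' hε1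
    rw [hcx] at h1 h2
    have hnn : 0 ≤ 1 + k * ((c / rb) ^ (1 / 4 : ℝ) + (ra / c) ^ (1 / 4 : ℝ)) := by positivity
    calc v c ≤ C * PP k ℓ ε x * c := h1
      _ ≤ C * (1 + k * ((c / rb) ^ (1 / 4 : ℝ) + (ra / c) ^ (1 / 4 : ℝ))) * c :=
          mul_le_mul_of_nonneg_right (mul_le_mul_of_nonneg_left h2 hC0.le) hc0.le
      _ ≤ (C + 16) * (1 + k * ((c / rb) ^ (1 / 4 : ℝ) + (ra / c) ^ (1 / 4 : ℝ))) * c :=
          mul_le_mul_of_nonneg_right (mul_le_mul_of_nonneg_right (by linarith) hnn) hc0.le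
      _ = _ := by ring
  · intro ρ h1 h2 h3 h4
    have hρ0 : 0 < ‖ρ‖ := hra.trans h1
    set x := Real.log (‖ρ‖ / rm) with hx
    have hcx : rm * Real.exp x = ‖ρ‖ := by
      rw [hx, Real.exp_log (div_pos hρ0 hrm0)]
      field_simp
    have hxl : |x| < ℓ := by
      rw [abs_lt]
      have h1' := h1
      have h2' := h2
      rw [hra', ← hcx] at h1'
      rw [hrb', ← hcx] at h2'
      exact ⟨Real.exp_lt_exp.1 (lt_of_mul_lt_mul_left h1' hrm0.le),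
        Real.exp_lt_exp.1 (lt_of_mul_lt_mul_left h2' hrm0.le)⟩
    have hψ : psiB rm (pt x (arg ρ)) = ρ := by
      apply Complex.ext
      · rw [psi_re, ← Complex.norm_mul_cos_arg ρ, ← hcx]
        simp only [pt_re, pt_im]
        ring
      · rw [psi_im, ← Complex.norm_mul_sin_arg ρ, ← hcx]
        simp only [pt_re, pt_im]
        ring
    have h5 := hΩ (pt x (arg ρ)) hxl h3 h4
    rw [Om_eq, hψ, abs_neg] at h5
    have h6 := BFin_PP (ℓ := ℓ) (x := x) hk0.le hrm0 hra' hrb' hε1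
    rw [hcx] at h6
    have hnn : 0 ≤ 1 + k * ((‖ρ‖ / rb) ^ (1 / 4 : ℝ) + (ra / ‖ρ‖) ^ (1 / 4 : ℝ)) := by positivity
    calc |(z₁ ρ).im| ≤ C * PP k ℓ ε x := h5
      _ ≤ C * (1 + k * ((‖ρ‖ / rb) ^ (1 / 4 : ℝ) + (ra / ‖ρ‖) ^ (1 / 4 : ℝ))) :=
          mul_le_mul_of_nonneg_left h6 hC0.le
      _ ≤ _ := mul_le_mul_of_nonneg_right (by linarith) hnn
  · have h1 : Real.exp (ℓ / 4) / 2 ≤ Real.cosh (ℓ / 4) := by
      rw [Real.cosh_eq]
      have := Real.exp_pos (-(ℓ / 4))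
      linarith
    have h2 : Real.exp (ℓ / 4) < k ^ 2 := by
      have h3 : Real.exp (ℓ / 4) < 2 * (k / ε) := by linarith
      have h4 : 2 * (k / ε) ≤ k ^ 2 := by
        have : 2 * (k / ε) = k * (2 / ε) := by ring
        rw [this, sq]
        exact mul_le_mul_of_nonneg_left hkε hk0.le
      linarith
    have h5 : ℓ / 4 < 2 * Real.log k := by
      have h6 := Real.log_lt_log (Real.exp_pos _) h2
      rw [Real.log_exp, Real.log_pow] at h6
      exact_mod_cast h6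
    have h7 : Real.log (rb / ra) = 2 * ℓ := by
      rw [hl]
      ring
    have h8 : 0 ≤ Real.log k := Real.log_nonneg (by linarith)
    rw [h7]
    nlinarith

/-- PART B. -/
theorem fin : ∃ C : ℝ, 1 ≤ C ∧ ∃ δ₀ > 0, ∃ K₀ : ℝ,
    ∀ (k ra rb δ η r1 : ℝ) (v : ℂ → ℝ) (F E E' : ℂ × ℂ → ℂ) (z₁ : ℂ → ℂ),
    K₀ ≤ k → 0 < ra → ra < rb → 0 < δ → δ ≤ δ₀ → 0 ≤ η → η ≤ δ₀ → r1 ≤ δ₀ →
    SubH v {ρ | ra < ‖ρ‖ ∧ ‖ρ‖ < rb} →
    (∀ ρ : ℂ, ra < ‖ρ‖ → ‖ρ‖ < rb → v (-ρ) = v ρ) →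
    (∀ c : ℝ, ra < c → c < rb → 0 ≤ v c) →
    (∀ ρ : ℂ, ra < ‖ρ‖ → ‖ρ‖ < rb → v ρ ≤ k * ((1 + η) * |ρ.im| + η * ‖ρ‖)) →
    (∀ z ρ : ℂ, ra < ‖ρ‖ → ‖ρ‖ < rb → ‖z‖ ≤ 4 * k → (ρ * z).im < -v ρ →
      EqM F (fun p => F (-p.1, -p.2)) (z, ρ)) →
    (∀ c q : ℝ, ra < c → c < rb → Irrational c → |q| ≤ 2 →
      ¬ (RegZ v F c q ∧ RegZ v F c (q - 1))) →
    (∀ c : ℝ, ra < c → c < rb → ¬ ∀ q : ℝ, |q| ≤ 1 → RegZ v F c q) →
    Cor k ra rb δ r1 v F E z₁ →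
    Cor k ra rb δ r1 (fun ρ => v (-conj ρ)) (mirE F) E' (fun ρ => conj (z₁ (-conj ρ))) →
    (∀ c : ℝ, ra < c → c < rb →
      v c ≤ C * c * (1 + k * ((c / rb) ^ (1 / 4 : ℝ) + (ra / c) ^ (1 / 4 : ℝ)))) ∧
    (∀ ρ : ℂ, ra < ‖ρ‖ → ‖ρ‖ < rb → ph1 ≤ arg ρ → arg ρ ≤ Real.pi - ph1 →
      |(z₁ ρ).im| ≤ C * (1 + k * ((‖ρ‖ / rb) ^ (1 / 4 : ℝ) + (ra / ‖ρ‖) ^ (1 / 4 : ℝ)))) ∧
    Real.log (rb / ra) ≤ C * Real.log k := by
  obtain ⟨C, hC, δ₀, hδ₀, K₀, h⟩ := fin0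
  exact ⟨C, hC, δ₀, hδ₀, K₀, fun k ra rb δ η r1 v F E E' z₁ a1 a2 a3 a4 a5 a6 a7 a8 a9 a10 a11 a12
    a13 a14 _ a16 a17 => h k ra rb δ η r1 v F E E' z₁ a1 a2 a3 a4 a5 a6 a7 a8 a9 a10 a11 a12 a13
      a14 a16 a17⟩

end Pool.Agent.MP_ae5b4e_an_N4
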