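import Pool.Agent.Lib.MP_ae5b4e_an_N4.ChD
import Pool.Agent.Lib.MP_ae5b4e_an_PB.Defs

/-!
# MP_ae5b4e_an, NB_3 section N4: interfaces between the parts

Parts: PT (potential theory, done), S (start: Riccati equation, start zone of the chains),
CH (chains of labels, zero `z₁`), H (no regularity beyond the zero), B (radii of regularity,
application of PT, micro end), final theorem `n4core`.
-/

set_option autoImplicit false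

noncomputable section

namespace Pool.Agent.MP_ae5b4e_an_N4

open Complex Set Filter Topology Metric InnerProductSpace
open Pool.Agent.MP_ae5b4e_an_NBT (St MerAt Mer EqM)
open Pool.Agent.MP_ae5b4e_an_NB2 (Sys)
open Pool.Agent.MP_ae5b4e_an_PB (DFU DKU RegF Base)
open scoped ComplexConjugate

/-! ### Part S -/

/-- `Q` has no analytic extension at the points of the upper line -/
def NoExt (Y : Sys) (h : ℝ) : Prop :=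
  ∀ x : ℝ, ∀ d > 0, ¬ ∃ q : ℂ → ℂ, AnalyticOnNhd ℂ q (ball ((x:ℂ) + (h:ℂ) * I) d) ∧
    ∀ z ∈ ball ((x:ℂ) + (h:ℂ) * I) d, z.im < h → q z = Y.Q z

/-- the hypothesis of the conical interval `[rf, re]` with the constant `κ` at the place `x0` -/
structure Hyp (Y : Sys) (h R : ℝ) (v : ℂ → ℝ) (η lam a rf re κ x0 : ℝ) : Prop where
  rf0 : 0 < rf
  rle : rf ≤ re
  reR : 8 * re ≤ R
  sm : κ * re ≤ lam ^ 2 * h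
  con : ∀ ρ : ℂ, rf / 4 ≤ ‖ρ‖ → ‖ρ‖ ≤ 4 * re → v ρ ≤ κ * ((1 + η) * |ρ.im| + η * ‖ρ‖)
  cone : ∀ z : ℂ, lam * (κ * rf) ≤ ‖z‖ → lam * ‖z‖ ≤ κ * re → a * ‖z‖ ≤ -z.im →
    ‖z ^ 2 * Y.Q ((x0:ℂ) + (h:ℂ) * I + z) + (κ:ℂ) ^ 2‖ ≤ η * κ ^ 2

/-- the start data of a chain at `ρ₀`: `S0 (z, ρ) = (s, σ)` on the start zone -/
structure Std (k ν X δ η Dl s1 s2 : ℝ) (G n g : ℂ → ℂ) (S0 : ℂ × ℂ → ℂ × ℂ) (ρ₀ : ℂ) : Prop where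
  par : Par k ν X δ η Dl
  gd : Gd ν η s1 s2 G n g
  hρ : 0 < ρ₀.im
  th1 : ph2 / 2 ≤ arg ρ₀
  th2 : arg ρ₀ ≤ Real.pi - ph2 / 2
  b1 : s1 ≤ Real.log (X * ‖ρ₀‖) - Dl
  b2 : Real.log (X * ‖ρ₀‖) + Dl ≤ s2
  an : ∀ z : ℂ, -X - 1 ≤ z.re → z.re ≤ -X → |z.im| ≤ k → AnalyticAt ℂ S0 (z, ρ₀)
  ss : ∀ z : ℂ, -X - 1 ≤ z.re → z.re ≤ -X → |z.im| ≤ k →
    ‖(S0 (z, ρ₀)).1 - (z / ν - 1 / 2)‖ ≤ δ
  sds : ∀ z : ℂ, -X - 1 ≤ z.re → z.re ≤ -X → |z.im| ≤ k →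
    ‖ν * deriv (fun w => (S0 (w, ρ₀)).1) z - 1‖ ≤ δ
  sl : ∀ z : ℂ, -X - 1 ≤ z.re → z.re ≤ -X → |z.im| ≤ k →
    ‖(S0 (z, ρ₀)).2 - (Complex.log ρ₀ + lgu z)‖ ≤ δ
  sdl : ∀ z : ℂ, -X - 1 ≤ z.re → z.re ≤ -X → |z.im| ≤ k →
    ‖deriv (fun w => (S0 (w, ρ₀)).2) z‖ ≤ 2 / X
  st : ∀ z : ℂ, z.re = -X → |z.im| ≤ k →
    ∀ᶠ p in 𝓝 (z, ρ₀), S0 p = stp ellp (Bx s1 s2) G g (S0 (p.1 - 1, p.2))

/-- the reflection of the labels -/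
def tau (σ : ℂ) : ℂ := conj σ - (Real.pi : ℂ) * I

/-- the reflected functions of the label -/
def mirF (f : ℂ → ℂ) (σ : ℂ) : ℂ := conj (f (tau σ))

/-- the reflected start data -/
def mirS (S : ℂ × ℂ → ℂ × ℂ) (p : ℂ × ℂ) : ℂ × ℂ :=
  (conj (S (conj p.1, -conj p.2)).1, tau (S (conj p.1, -conj p.2)).2)

/-- the reflected function of `(z, ρ)` -/
def mirE (F : ℂ × ℂ → ℂ) (p : ℂ × ℂ) : ℂ := conj (F (conj p.1, -conj p.2))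

/-- the function `G` in the coordinates `(z, ρ)` -/
def Gz (G : ℂ × ℂ → ℂ) (x0 h : ℝ) (p : ℂ × ℂ) : ℂ :=
  G ((x0:ℂ) + (h:ℂ) * I + p.2 * p.1, p.2)

/-- a Moebius transformation -/
structure Mob where
  a : ℂ
  b : ℂ
  c : ℂ
  d : ℂ
  ne : a * d - b * c ≠ 0

/-- its value -/
def Mob.at (m : Mob) (w : ℂ) : ℂ := (m.a * w + m.b) / (m.c * w + m.d)

/-- the normalised function -/
def Fz (G : ℂ × ℂ → ℂ) (x0 h : ℝ) (m : Mob) (p : ℂ × ℂ) : ℂ := m.at (Gz G x0 h p)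

/-! ### Parts H and B -/

/-- the radius of the disc on which `F` is not regular -/
def rr (k X : ℝ) : ℝ := 1 / (32 * (Lk k X + 1))

/-- the points of the lower zone which are admissible for all angles -/
structure Adn (k : ℝ) (z₁ z : ℂ) : Prop where
  right : z.re ≤ z₁.re + 3
  low : -1 ≤ (z - z₁).im
  up : (z - z₁).im ≤ -Real.exp (-k)

/-- the facts about the function `F` of `(z, ρ)`, for `ra < |ρ| < rb`, which are used in part B;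
`z₁ ρ + 1` is the first zero of `F (·, ρ)`, `E` the continuation of `F` to the lower zone -/
structure Cor (k ra rb δ r1 : ℝ) (v : ℂ → ℝ) (F E : ℂ × ℂ → ℂ) (z₁ : ℂ → ℂ) : Prop where
  mer : ∀ z ρ : ℂ, ra < ‖ρ‖ → ‖ρ‖ < rb → ‖z‖ ≤ 4 * k → (ρ * z).im < -v ρ → MerAt F (z, ρ)
  an : ∀ ρ : ℂ, ra < ‖ρ‖ → ‖ρ‖ < rb → ph2 / 2 < arg ρ → arg ρ < Real.pi - ph2 / 2 →
    AnalyticAt ℂ z₁ ρ
  near : ∀ ρ : ℂ, ra < ‖ρ‖ → ‖ρ‖ < rb → ph2 / 2 < arg ρ → arg ρ < Real.pi - ph2 / 2 →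
    ‖z₁ ρ + k‖ ≤ δ * k
  mE : ∀ z ρ : ℂ, ra < ‖ρ‖ → ‖ρ‖ < rb → ph2 / 2 < arg ρ → arg ρ ≤ ph0 → ‖z‖ ≤ 4 * k →
    Adm k (z₁ ρ) z → MerAt E (z, ρ)
  eq : ∀ z ρ : ℂ, ra < ‖ρ‖ → ‖ρ‖ < rb → ph2 / 2 < arg ρ → arg ρ ≤ ph0 → ‖z‖ ≤ 4 * k →
    Adm k (z₁ ρ) z → (ρ * z).im < -v ρ → EqM E F (z, ρ)
  sing : ∀ ρ : ℂ, ra < ‖ρ‖ → ‖ρ‖ < rb → ph2 / 2 < arg ρ → arg ρ ≤ ph0 →
    ¬ ∃ f : ℂ × ℂ → ℂ, (∀ z ∈ ball (z₁ ρ + 2) r1, MerAt f (z, ρ)) ∧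
      ∀ z ∈ ball (z₁ ρ + 2) r1, (z - z₁ ρ).im < -Real.exp (-k) → EqM f E (z, ρ)

/-- the angular coordinate: `- Im` of the first zero -/
def Om (rm : ℝ) (z₁ : ℂ → ℂ) (w : ℂ) : ℝ := -(z₁ ((rm:ℂ) * cexp w)).im

/-- `F` is regular at the point `q` of the line over the real parameter `c` -/
def RegZ (v : ℂ → ℝ) (F : ℂ × ℂ → ℂ) (c q : ℝ) : Prop :=
  ∃ N ∈ 𝓝 ((q:ℂ) - ((v c / c : ℝ) : ℂ) * I, (c:ℂ)), ∃ g : ℂ × ℂ → ℂ, Mer g N ∧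
    ∀ p ∈ N, (p.2 * p.1).im < -v p.2 → EqM g F p

/-! ### The output -/

/-- (O3) at `ρ`: `G` is regular up to `- κ₁ - e κ`, and not regular near `- κ₁` -/
def Sg (G : ℂ × ℂ → ℂ) (x0 h A κ κ1 e : ℝ) (ρ : ℂ) : Prop :=
  ∃ E : ℂ × ℂ → ℂ,
    (∀ z : ℂ, -(A * κ) ≤ z.re → z.re ≤ -κ1 - e * κ → |z.im| ≤ κ / 10 ^ 10 → MerAt E (z, ρ)) ∧
    (∀ z : ℂ, -(A * κ) ≤ z.re → z.re ≤ -(A * κ / 2) → |z.im| ≤ κ / 10 ^ 10 →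
      EqM E (Gz G x0 h) (z, ρ)) ∧
    ¬ ∃ E' : ℂ × ℂ → ℂ, (∀ z ∈ closedBall (-κ1 : ℂ) (2 * e * κ), MerAt E' (z, ρ)) ∧
      EqM E' E ((-κ1 - 3 / 2 * e * κ : ℝ), ρ)

end Pool.Agent.MP_ae5b4e_an_N4
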