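import Pool.Agent.Lib.MP_ae5b4e_an_N4.HFin
import Pool.Agent.Lib.MP_ae5b4e_an_N4.Itf

/-!
# MP_ae5b4e_an N4, part H: the theorem `no_reg`
-/

set_option autoImplicit false

noncomputable section

namespace Pool.Agent.MP_ae5b4e_an_N4

open Complex Set Filter Topology Metric

private theorem HTop_zn {k ν X δ η Dl : ℝ} {O : ℂ × ℂ → ℂ × ℂ} {ρ₀ z₁ : ℂ}
    (hp : Par k ν X δ η Dl) (hz : IsZ1 k ν X δ O ρ₀ z₁) {z : ℂ} (h : z ∈ ball z₁ (1 / 2)) :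
    z ∈ Zn k X (z₁.re + 1 / 2) := by
  have h1 : ‖z - z₁‖ < 1 / 2 := by simpa [dist_eq_norm] using h
  have h2 := (Complex.abs_re_le_norm (z - z₁)).trans h1.le
  have h3 := (Complex.abs_im_le_norm (z - z₁)).trans h1.le
  have h4 := (Complex.abs_re_le_norm (z₁ + ν / 2)).trans hz.near
  have h5 := (Complex.abs_im_le_norm (z₁ + ν / 2)).trans hz.near
  have e1 : (z₁ + ν / 2).re = z₁.re + ν / 2 := by
    have : ((ν : ℂ) / 2) = ((ν / 2 : ℝ) : ℂ) := by push_cast; rfl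
    rw [this, Complex.add_re, Complex.ofReal_re]
  have e2 : (z₁ + ν / 2).im = z₁.im := by
    have : ((ν : ℂ) / 2) = ((ν / 2 : ℝ) : ℂ) := by push_cast; rfl
    rw [this, Complex.add_im, Complex.ofReal_im, add_zero]
  rw [e1, abs_le] at h4
  rw [e2, abs_le] at h5
  rw [Complex.sub_re, abs_le] at h2
  rw [Complex.sub_im, abs_le] at h3
  have k1 := hp.hk
  have k2 := hp.ν1
  have k3 := hp.ν2
  have k4 := hp.hX
  have k5 := hp.δ1
  have k6 := hp.δ0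
  have h6 : 3 * δ * ν ≤ 3 / 10 ^ 12 * (2 * k + 1) := by
    have : 3 * δ ≤ 3 / 10 ^ 12 := by linarith
    have : 0 ≤ ν := by linarith
    calc 3 * δ * ν ≤ 3 / 10 ^ 12 * ν := by gcongr
      _ ≤ 3 / 10 ^ 12 * (2 * k + 1) := by gcongr
  have h7 : e6 = 1 / 10 ^ 10 := rfl
  refine ⟨?_, ?_, ?_⟩
  · nlinarith
  · linarith
  · rw [h7, abs_le]
    constructor <;> linarith

/-- The data `HD` of a chain.  Proof: `ball z₁ (1 / 2) ⊆ Zn k X (z₁.re + 1 / 2)`: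
`‖z₁ + ν / 2‖ ≤ 3 δ ν` gives `|z₁.im| ≤ 3 δ ν`, `z₁.re ≥ - ν / 2 - 3 δ ν`, `δ ≤ 10^(-12)`,
`ν ≤ 2 k + 1`, `X ≥ 10^10 k`, `e6 k = k / 10^10`.  The fields from `GdZ` (`hz.good`): analyticity of the
components of `w ↦ O (w, ρ₀)`; `aa = 1 / 12800`, `ph2 / 2 = 1 / 3200`; `s1`, `s2` from `b1`, `b2`,
`hD`; `η ≤ 10^(-30)` from `η1`, `hX`, `δ1`; `Lk k X ≥ 100` (`log k ≥ 0`, `X / k ≥ 10^10`),
`Lk k X ≤ 10^12 k` from `X ≤ k²` (`log k ≤ k`). -/
theorem HD.of_chn {k ν X δ η Dl s1 s2 : ℝ} {G n g : ℂ → ℂ} {O : ℂ × ℂ → ℂ × ℂ} {ρ₀ z₁ : ℂ}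
    (hX2 : X ≤ k ^ 2)
    (hC : Chn k ν X δ η Dl s1 s2 G n g ellp O ρ₀) (hz : IsZ1 k ν X δ O ρ₀ z₁) :
    HD k ν η (Lk k X) s1 s2 G n g (fun z => (O (z, ρ₀)).1) (fun z => (O (z, ρ₀)).2) z₁ := by
  have hp := hC.par
  have hg : ∀ z ∈ ball z₁ (1 / 2), GdZ k ν X δ O ρ₀ z := fun z h =>
    hz.good z (HTop_zn hp hz h)
  have k1 := hp.hk
  have k0 : (0:ℝ) < k := by linarith
  have k2 := hp.ν1
  have k3 := hp.ν2
  have k4 := hp.hX
  have k5 := hp.δ1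
  have k6 := hp.δ0
  have k7 := hp.η0
  have k8 := hp.η1
  have k9 := hp.hD
  have q1 : 10 ^ 10 ≤ X / k := by rw [le_div_iff₀ k0]; linarith
  have q2 : X / k ≤ k := by rw [div_le_iff₀ k0]; nlinarith
  have q3 : 0 ≤ Real.log k := Real.log_nonneg (by linarith)
  have q4 : Real.log k ≤ k := (Real.log_le_sub_one_of_pos k0).trans (by linarith)
  have q5 : (10 ^ 10) ^ 2 ≤ (X / k) ^ 2 := by gcongr
  have a1 : aa = 1 / 12800 := rfl
  have a2 : ph2 = 1 / 1600 := rfl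
  have an : ∀ z ∈ ball z₁ (1 / 2), AnalyticAt ℂ (fun w => O (w, ρ₀)) z := fun z h =>
    (hg z h).an.comp_of_eq (analyticAt_id.prod analyticAt_const) rfl
  exact
    { hk := k1
      ν1 := k2
      ν2 := k3
      η0 := k7
      η1 := by
        have h1 : η * (10 ^ 10) ^ 2 * 10 ^ 14 ≤ η * (X / k) ^ 2 * 10 ^ 14 := by gcongr
        have h2 : η * (10 ^ 10) ^ 2 * 10 ^ 14 ≤ 1 / 10 ^ 12 := (h1.trans k8).trans k5
        norm_num at h2 ⊢
        linarith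
      gd := hC.gd
      L0 := by unfold Lk; linarith
      L1 := by unfold Lk; linarith
      anS := fun z h => analyticAt_fst.comp_of_eq (an z h) rfl
      anL := fun z h => analyticAt_snd.comp_of_eq (an z h) rfl
      S0 := hz.zero
      dS := fun z h => (hg z h).ds
      dL := fun z h => (hg z h).dl
      im1 := fun z h => by
        have h1 := (abs_le.1 (hg z h).im).1
        have h2 := hC.th1
        change -Real.pi + 2 * aa ≤ (O (z, ρ₀)).2.im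
        rw [a1]
        rw [a2] at h2
        linarith
      im2 := fun z h => by
        have h1 := (abs_le.1 (hg z h).im).2
        have h2 := hC.th2
        change (O (z, ρ₀)).2.im ≤ -(2 * aa)
        rw [a1]
        rw [a2] at h2
        linarith
      re1 := fun z h => by
        have h1 := (abs_le.1 (hg z h).re).1
        have h2 := hC.b1
        change s1 + 600 ≤ (O (z, ρ₀)).2.re
        linarith
      re2 := fun z h => by
        have h1 := (abs_le.1 (hg z h).re).2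
        have h2 := hC.b2
        change (O (z, ρ₀)).2.re ≤ s2 - 600
        linarith }

/-- PART H. -/
theorem no_reg' {k ν X δ η Dl s1 s2 : ℝ} {G n g : ℂ → ℂ} {O : ℂ × ℂ → ℂ × ℂ} {ρ₀ z₁ : ℂ}
    (hX2 : X ≤ k ^ 2)
    (hC : Chn k ν X δ η Dl s1 s2 G n g ellp O ρ₀) (hz : IsZ1 k ν X δ O ρ₀ z₁)
    (hx : NoX s1 s2 n) :
    ¬ ∃ f : ℂ → ℂ, MeromorphicOn f (ball (z₁ + 2) (rr k X)) ∧
      ∀ z ∈ ball (z₁ + 2) (rr k X), (z - z₁).im < -Real.exp (-k) →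
        f z = cexp (G (stp ellu (Bx s1 s2) G g
          (stp ellu (Bx s1 s2) G g (O (z - 2, ρ₀)))).2) :=
  (HD.of_chn hX2 hC hz).no_reg hx

/-- PART H. -/
theorem no_reg {k ν X δ η Dl s1 s2 : ℝ} {G n g : ℂ → ℂ} {O : ℂ × ℂ → ℂ × ℂ} {ρ₀ z₁ : ℂ}
    (hC : Chn k ν X δ η Dl s1 s2 G n g ellp O ρ₀) (hz : IsZ1 k ν X δ O ρ₀ z₁)
    (hx : NoX s1 s2 n) :
    ¬ ∃ f : ℂ → ℂ, MeromorphicOn f (ball (z₁ + 2) (rr k X)) ∧
      ∀ z ∈ ball (z₁ + 2) (rr k X), (z - z₁).im < -Real.exp (-k) →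
        f z = cexp (G (stp ellu (Bx s1 s2) G g
          (stp ellu (Bx s1 s2) G g (O (z - 2, ρ₀)))).2) :=
  no_reg' hC.par.hX2 hC hz hx

end Pool.Agent.MP_ae5b4e_an_N4
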