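import Pool.Agent.Lib.MP_ae5b4e_an_N4.AsI
import Pool.Agent.Lib.MP_ae5b4e_an_N4.HTop
import Pool.Agent.Lib.MP_ae5b4e_an_N4.BFin

/-!
# N4: theorem `n4core`
-/

set_option autoImplicit false

noncomputable section

namespace Pool.Agent.MP_ae5b4e_an_N4

open Complex Set Filter Topology Metric
open Pool.Agent.MP_ae5b4e_an_NB2 (Sys)
open Pool.Agent.MP_ae5b4e_an_PB (Base)

/-- THEOREM N4CORE -/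
theorem n4core : ∃ η > 0, ∃ lam > 0, ∃ a > 0, ∃ A : ℝ, 10 ^ 10 ≤ A ∧ ∃ C ≥ 1, ∃ M : ℝ,
    ∀ (Y : Sys) (h R C0 : ℝ) (v : ℂ → ℝ) (G L : ℂ × ℂ → ℂ), Base Y h R C0 v G L → NoExt Y h →
    ∀ rf re κ x0 : ℝ, M ≤ κ → Hyp Y h R v η lam a rf re κ x0 →
    (∀ r : ℝ, rf ≤ r → r ≤ re →
      v r ≤ C * r * (1 + κ * ((r / re) ^ (1 / 4 : ℝ) + (rf / r) ^ (1 / 4 : ℝ)))) ∧
    Real.log (re / rf) ≤ C * Real.log κ ∧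
    ∃ κ1 : ℝ, |κ1 - κ| ≤ κ / 10 ∧ ∀ l : ℝ, C ≤ l → ∀ r : ℝ, rf * Real.exp l ≤ r →
      r ≤ re * Real.exp (-l) → ∀ ρ : ℂ, ‖ρ - r * I‖ ≤ r / 10 →
        Sg G x0 h A κ κ1 (C * (Real.exp (-(l / 4)) + Real.log κ / κ)) ρ := by
  obtain ⟨C, hC, δ₀, hδ₀, K₀, hfin⟩ := fin
  exact n4core_of (fun _ _ _ _ _ _ _ _ _ _ _ _ _ _ hC hz hx => no_reg hC hz hx) hC hδ₀ hfin

end Pool.Agent.MP_ae5b4e_an_N4
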