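import Mathlib

/-!
# MP_ae5b4e_an N4, part H: nearly affine maps
-/

set_option autoImplicit false

noncomputable section

namespace Pool.Agent.MP_ae5b4e_an_N4

open Complex Set Filter Topology Metric

/-- `f` is near to the affine maps of slope `a` on `D` -/
def NAff (f : ℂ → ℂ) (a : ℂ) (e : ℝ) (D : Set ℂ) : Prop :=
  ∀ w ∈ D, ∀ w' ∈ D, ‖f w - f w' - a * (w - w')‖ ≤ e * ‖a‖ * ‖w - w'‖

/-- Proof: `Convex.norm_image_sub_le_of_norm_hasDerivWithin_le` for `w ↦ f w - a w`. -/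
theorem naff_of_deriv {f f' : ℂ → ℂ} {a : ℂ} {e : ℝ} {D : Set ℂ} (hD : Convex ℝ D)
    (hf : ∀ w ∈ D, HasDerivAt f (f' w) w) (hb : ∀ w ∈ D, ‖f' w - a‖ ≤ e * ‖a‖) :
    NAff f a e D := by
  intro w hw w' hw'
  have h1 := Convex.norm_image_sub_le_of_norm_hasDerivWithin_le (f := fun w => f w - a * w)
    (f' := fun w => f' w - a) (C := e * ‖a‖) (s := D) (x := w') (y := w)
    (fun x hx => ?_) hb hD hw' hw
  · have h2 : f w - a * w - (f w' - a * w') = f w - f w' - a * (w - w') := by ring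
    rwa [h2] at h1
  · have h3 : HasDerivAt (fun w => a * w) (a * 1) x := (hasDerivAt_id x).const_mul a
    rw [mul_one] at h3
    exact ((hf x hx).sub h3).hasDerivWithinAt

/-- Proof: if `f w = f w'` then `‖a‖ ‖w - w'‖ ≤ e ‖a‖ ‖w - w'‖`. -/
theorem NAff.injOn {f : ℂ → ℂ} {a : ℂ} {e : ℝ} {D : Set ℂ} (h : NAff f a e D) (ha : a ≠ 0)
    (he : e < 1) : InjOn f D := by
  intro w hw w' hw' hww
  by_contra hne
  have h1 := h w hw w' hw'
  rw [hww, sub_self, zero_sub, norm_neg, norm_mul] at h1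
  have h2 : 0 < ‖a‖ * ‖w - w'‖ := mul_pos (norm_pos_iff.2 ha) (norm_pos_iff.2 (sub_ne_zero.2 hne))
  nlinarith

/-- Proof: Mathlib's `ApproximatesLinearOn.surjOn_closedBall_of_nonlinearRightInverse` (or the Banach
fixed point theorem for `w ↦ w + (y - f w) / a`) on the ball about `w₁ = w₀ + (y - f w₀) / a`:
`‖y - f w₁‖ = ‖f w₀ - f w₁ - a (w₀ - w₁)‖ ≤ e ‖y - f w₀‖ ≤ (1 - e) ‖a‖ (2 e ‖y - f w₀‖ / ‖a‖)`. -/
theorem NAff.solve {f : ℂ → ℂ} {a : ℂ} {e : ℝ} {D : Set ℂ} (h : NAff f a e D) (ha : a ≠ 0)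
    (h0 : 0 ≤ e) (he : e ≤ 1 / 2) {w₀ : ℂ} (hw : w₀ ∈ D) (y : ℂ)
    (hb : closedBall (w₀ + (y - f w₀) / a) (2 * e * (‖y - f w₀‖ / ‖a‖)) ⊆ D) :
    ∃ w ∈ closedBall (w₀ + (y - f w₀) / a) (2 * e * (‖y - f w₀‖ / ‖a‖)), f w = y := by
  have hna : 0 < ‖a‖ := norm_pos_iff.2 ha
  obtain ⟨w₁, hw₁⟩ : ∃ w₁, w₁ = w₀ + (y - f w₀) / a := ⟨_, rfl⟩
  obtain ⟨δ, hδ⟩ : ∃ δ : ℝ, δ = ‖y - f w₀‖ / ‖a‖ := ⟨_, rfl⟩
  have hδ0 : 0 ≤ δ := by rw [hδ]; positivity
  rw [← hw₁, ← hδ] at hb ⊢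
  have hw10 : ‖w₁ - w₀‖ = δ := by
    rw [hw₁, hδ, add_sub_cancel_left, norm_div]
  obtain ⟨T, hT⟩ : ∃ T : ℂ → ℂ, T = fun w => w + (y - f w) / a := ⟨_, rfl⟩
  have hcon : ∀ w ∈ D, ∀ w' ∈ D, ‖T w - T w'‖ ≤ e * ‖w - w'‖ := by
    intro w hw w' hw'
    have h1 := h w hw w' hw'
    have h2 : T w - T w' = -(f w - f w' - a * (w - w')) / a := by
      rw [hT]
      field_simp
      ring
    rw [h2, norm_div, norm_neg, div_le_iff₀ hna]
    calc ‖f w - f w' - a * (w - w')‖ ≤ e * ‖a‖ * ‖w - w'‖ := h1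
      _ = e * ‖w - w'‖ * ‖a‖ := by ring
  have hT0 : T w₀ = w₁ := by simp only [hT, hw₁]
  have hmaps : MapsTo T (closedBall w₁ (2 * e * δ)) (closedBall w₁ (2 * e * δ)) := by
    intro w hw
    have h1 := hcon w (hb hw) w₀ ‹_›
    rw [mem_closedBall, dist_eq_norm] at hw ⊢
    rw [hT0] at h1
    have h2 : ‖w - w₀‖ ≤ ‖w - w₁‖ + ‖w₁ - w₀‖ := by
      simpa using norm_add_le (w - w₁) (w₁ - w₀)
    have h3 : ‖w - w₀‖ ≤ 2 * e * δ + δ := by linarith
    have h4 : e * ‖w - w₀‖ ≤ e * (2 * e * δ + δ) := mul_le_mul_of_nonneg_left h3 h0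
    have h5 : e * (2 * e * δ + δ) ≤ 2 * e * δ := by
      have h6 : 0 ≤ e * δ := mul_nonneg h0 hδ0
      nlinarith
    linarith
  have hctr : ContractingWith (⟨1 / 2, by norm_num⟩ : NNReal) (hmaps.restrict T _ _) := by
    refine ⟨by change (1 / 2 : ℝ) < 1; norm_num, ?_⟩
    refine LipschitzWith.of_dist_le_mul ?_
    rintro ⟨x, hx⟩ ⟨x', hx'⟩
    have h1 := hcon x (hb hx) x' (hb hx')
    rw [Subtype.dist_eq, Subtype.dist_eq, dist_eq_norm, dist_eq_norm]
    refine h1.trans ?_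
    exact mul_le_mul_of_nonneg_right he (norm_nonneg _)
  have hmem : w₁ ∈ closedBall w₁ (2 * e * δ) := mem_closedBall_self (by positivity)
  obtain ⟨x, hx1, hx2, -⟩ := ContractingWith.exists_fixedPoint'
    (isClosed_closedBall.isComplete) hmaps hctr hmem (edist_ne_top _ _)
  refine ⟨x, hx1, ?_⟩
  have h1 : T x = x := hx2
  rw [hT] at h1
  have h2 : (y - f x) / a = 0 := by
    have h3 : x + (y - f x) / a = x := h1
    linear_combination h3
  rcases div_eq_zero_iff.1 h2 with h3 | h3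
  · exact (sub_eq_zero.1 h3).symm
  · exact absurd h3 ha

/-- The inverse function.  Proof: `f` has a strict derivative `d` at `w` and `‖d - a‖ ≤ e ‖a‖` (limit
of the difference quotients), so `d ≠ 0`; `HasStrictDerivAt.localInverse`: near `f w` there is a
continuous local inverse with values near `w`, hence in `D`; by `NAff.injOn` it is equal to
`Function.invFunOn f D`.  The same at all points near `w`: `Function.invFunOn f D` is differentiable
in a neighbourhood of `f w`, hence analytic there (`DifferentiableOn.analyticAt`). -/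
theorem NAff.inv {f : ℂ → ℂ} {a : ℂ} {e : ℝ} {D : Set ℂ} (h : NAff f a e D) (ha : a ≠ 0)
    (he : e < 1) (hD : IsOpen D) (hf : DifferentiableOn ℂ f D) {w : ℂ} (hw : w ∈ D) :
    AnalyticAt ℂ (Function.invFunOn f D) (f w) ∧
      ∀ᶠ y in 𝓝 (f w), Function.invFunOn f D y ∈ D ∧ f (Function.invFunOn f D y) = y := by
  have hna : 0 < ‖a‖ := norm_pos_iff.2 ha
  have hinj := h.injOn ha he
  -- the derivative does not vanish
  have hder : ∀ v ∈ D, deriv f v ≠ 0 := by
    intro v hv h0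
    have h1 : HasDerivAt (fun w => f w - a * w) (deriv f v - a) v := by
      have h3 : HasDerivAt (fun w => a * w) (a * 1) v := (hasDerivAt_id v).const_mul a
      rw [mul_one] at h3
      exact ((hf v hv).differentiableAt (hD.mem_nhds hv)).hasDerivAt.sub h3
    have h2 := h1.le_of_lip' (C := max e 0 * ‖a‖) (by positivity) (by
      filter_upwards [hD.mem_nhds hv] with x hx
      have h4 := h x hx v hv
      have h5 : f x - a * x - (f v - a * v) = f x - f v - a * (x - v) := by ring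
      rw [h5]
      refine h4.trans ?_
      gcongr
      exact le_max_left _ _)
    rw [h0, zero_sub, norm_neg] at h2
    have h6 : max e 0 < 1 := max_lt he one_pos
    nlinarith
  have hstr : ∀ v ∈ D, HasStrictDerivAt f (deriv f v) v := fun v hv =>
    ((hf.analyticAt (hD.mem_nhds hv)).hasStrictDerivAt)
  have hmap : ∀ v ∈ D, ∀ V ∈ 𝓝 v, f '' V ∈ 𝓝 (f v) := by
    intro v hv V hV
    rw [← (hstr v hv).map_nhds_eq (hder v hv)]
    exact image_mem_map hV
  have hleft : ∀ v ∈ D, Function.invFunOn f D (f v) = v := fun v hv =>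
    hinj.leftInvOn_invFunOn hv
  have hev : ∀ v ∈ D, ∀ᶠ y in 𝓝 (f v), Function.invFunOn f D y ∈ D ∧
      f (Function.invFunOn f D y) = y := by
    intro v hv
    filter_upwards [hmap v hv D (hD.mem_nhds hv)] with y hy
    exact ⟨Function.invFunOn_mem hy, Function.invFunOn_eq hy⟩
  have hdiff : ∀ v ∈ D, DifferentiableAt ℂ (Function.invFunOn f D) (f v) := by
    intro v hv
    have hcont : ContinuousAt (Function.invFunOn f D) (f v) := by
      rw [ContinuousAt, hleft v hv]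
      intro V hV
      have h1 := hmap v hv (V ∩ D) (Filter.inter_mem hV (hD.mem_nhds hv))
      rw [mem_map]
      refine mem_of_superset h1 ?_
      rintro _ ⟨x, ⟨hx1, hx2⟩, rfl⟩
      rw [mem_preimage, hleft x hx2]
      exact hx1
    have h2 := HasDerivAt.of_local_left_inverse (f := f) (f' := deriv f v) hcont
      (by rw [hleft v hv]; exact (hstr v hv).hasDerivAt) (hder v hv)
      ((hev v hv).mono fun y hy => hy.2)
    exact h2.differentiableAt
  refine ⟨?_, hev w hw⟩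
  rw [Complex.analyticAt_iff_eventually_differentiableAt]
  filter_upwards [hev w hw] with y hy
  have h1 := hdiff _ hy.1
  rwa [hy.2] at h1

end Pool.Agent.MP_ae5b4e_an_N4
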