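import Pool.Agent.Lib.MP_ae5b4e_an_N4.SRic

/-!
# MP_ae5b4e_an, N4, part S: the Moebius coordinate over a cone
-/

set_option autoImplicit false

noncomputable section

namespace Pool.Agent.MP_ae5b4e_an_N4

open Complex Set Filter Topology Metric
open Pool.Agent.MP_ae5b4e_an_NB2 (Sys)

/-- the bigger box -/
def Bb (s1 s2 : ℝ) : Set ℂ :=
  {σ | s1 - 4 < σ.re ∧ σ.re < s2 + 4 ∧ -Real.pi + aa / 2 < σ.im ∧ σ.im < -(aa / 2)}

/-- the middle box -/
def Bm (s1 s2 : ℝ) : Set ℂ :=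
  {σ | s1 - 1 < σ.re ∧ σ.re < s2 + 1 ∧ -Real.pi + aa / 2 < σ.im ∧ σ.im < -(aa / 2)}

/-- the solutions `w₊`, `w₋` and the data derived from them -/
structure Sol (Y : Sys) (b : ℂ) (ν η s1 s2 : ℝ) (α β α' β' : ℂ) (G n g : ℂ → ℂ) : Prop where
  gd : Gd ν η s1 s2 G n g
  hc : β * α' - α * β' ≠ 0
  hne : ∀ σ ∈ Bx s1 s2, wc Y b α β σ ≠ 0 ∧ wc Y b α' β' σ ≠ 0
  hn : ∀ σ ∈ Bx s1 s2, n σ = wc1 Y b α β σ / wc Y b α β σ - wc1 Y b α' β' σ / wc Y b α' β' σ
  hd : ∀ σ ∈ Bx s1 s2, -deriv n σ / n σ =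
    wc1 Y b α β σ / wc Y b α β σ + wc1 Y b α' β' σ / wc Y b α' β' σ
  hF : ∀ σ ∈ Bx s1 s2, cexp (G σ) = wc Y b α β σ / wc Y b α' β' σ
  hV : ∀ σ ∈ Bx s1 s2, 4 * Vc Y b σ =
    n σ ^ 2 - 2 * deriv (fun σ => deriv n σ / n σ) σ + (deriv n σ / n σ) ^ 2

private theorem SGd_isOpen_box (a b c d : ℝ) :
    IsOpen {σ : ℂ | a < σ.re ∧ σ.re < b ∧ c < σ.im ∧ σ.im < d} :=
  (isOpen_lt continuous_const Complex.continuous_re).inter
    ((isOpen_lt Complex.continuous_re continuous_const).inter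
      ((isOpen_lt continuous_const Complex.continuous_im).inter
        (isOpen_lt Complex.continuous_im continuous_const)))

private theorem SGd_convex_box (a b c d : ℝ) :
    Convex ℝ {σ : ℂ | a < σ.re ∧ σ.re < b ∧ c < σ.im ∧ σ.im < d} :=
  (convex_halfSpace_re_gt a).inter ((convex_halfSpace_re_lt b).inter
    ((convex_halfSpace_im_gt c).inter (convex_halfSpace_im_lt d)))

/-- a holomorphic function without zeros on an open convex set has a logarithm with given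
derivative: if `F' = n F` on the convex open set `B`, `F ≠ 0`, there is `G` with `G' = n` and
`exp G = F`. -/
theorem exists_logF {B : Set ℂ} (hB : IsOpen B) (hc : Convex ℝ B) {F n : ℂ → ℂ}
    (hF : ∀ σ ∈ B, HasDerivAt F (n σ * F σ) σ) (h0 : ∀ σ ∈ B, F σ ≠ 0)
    (hn : DifferentiableOn ℂ n B) :
    ∃ G : ℂ → ℂ, (∀ σ ∈ B, HasDerivAt G (n σ) σ) ∧ ∀ σ ∈ B, cexp (G σ) = F σ := by
  obtain ⟨G₀, hG₀⟩ := hc.exists_forall_hasDerivWithinAt (f := n) hn
  have hG : ∀ σ ∈ B, HasDerivAt G₀ (n σ) σ := fun σ hσ => (hG₀ σ hσ).hasDerivAt (hB.mem_nhds hσ)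
  rcases B.eq_empty_or_nonempty with rfl | ⟨σ₀, hσ₀⟩
  · exact ⟨G₀, fun σ hσ => absurd hσ (notMem_empty σ), fun σ hσ => absurd hσ (notMem_empty σ)⟩
  have hder : ∀ σ ∈ B, HasDerivAt (fun σ => F σ * cexp (-G₀ σ)) 0 σ := by
    intro σ hσ
    have h1 := (hF σ hσ).mul ((hG σ hσ).neg.cexp)
    have h2 : n σ * F σ * cexp ((-G₀) σ) + F σ * (cexp ((-G₀) σ) * -n σ) = 0 := by ring
    rw [h2] at h1
    exact h1
  have hconst : ∀ σ ∈ B, F σ * cexp (-G₀ σ) = F σ₀ * cexp (-G₀ σ₀) := by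
    intro σ hσ
    exact hB.is_const_of_deriv_eq_zero hc.isPreconnected
      (fun τ hτ => (hder τ hτ).differentiableAt.differentiableWithinAt)
      (fun τ hτ => (hder τ hτ).deriv) hσ hσ₀
  set c : ℂ := F σ₀ * cexp (-G₀ σ₀) with hcdef
  have hc0 : c ≠ 0 := mul_ne_zero (h0 σ₀ hσ₀) (Complex.exp_ne_zero _)
  refine ⟨fun σ => G₀ σ + Complex.log c, fun σ hσ => (hG σ hσ).add_const _, fun σ hσ => ?_⟩
  rw [Complex.exp_add, Complex.exp_log hc0, ← hconst σ hσ, Complex.exp_neg]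
  field_simp

/-- EXISTENCE OF THE MOEBIUS COORDINATE. There is an absolute constant `C` such that for
`η ≤ 1 / C`: if `‖V - ν² / 4‖ ≤ η k²` on the bigger box, `ν = 2 √(k² + 1/4)`, then `Sol` holds with
the constant `C η`.

Proof. `m = ν / 2`, `m² = k² + 1/4 = ν²/4`, `r = η ν / 2`, `e0 = η k² ≤ η ν² / 4`. Let `σL = s1 - 3 - i π / 2`,
`σR = s2 + 3 - i π / 2`. `w₊`: `exists_wc` with `w = 1`, `w' = m` at `σL`; `w₋`: `w = 1`, `w' = - m` at `σR`.
For `p` in the middle box: `e = p - σL` has `Re e ≥ 2 ≥ |Im e|`, so `‖e‖ ≤ √2 Re e ≤ (3/2) Re e` and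
`(e0 + r²) ‖e‖ ≤ (η ν²/4 + η² ν²/4)(3/2) Re e ≤ η ν² / 2 Re e = 2 r Re (m e)` if `η ≤ 1/3`: `ric` gives
`‖φ₊ - m‖ ≤ η ν / 2`, `φ₊ = w₊'/w₊`. For `w₋` use `ric` with `m` replaced by `- m` and `p0 = σR`:
`Re (- m (p - σR)) = m Re (σR - p)`. So `‖φ₋ + m‖ ≤ η ν / 2`. `n := φ₊ - φ₋`: `‖n - ν‖ ≤ η ν` on the middle
box, holomorphic. `φ' = V - φ²`, so `n' = φ₋² - φ₊² = - n (φ₊ + φ₋)`: this is `hd`. `hV`: from
`φ± = (- n'/n ± n) / 2` and `V = φ₊' + φ₊²`. `hc`: the Wronskian is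
`w₊ w₋ (φ₊ - φ₋) = w₊ w₋ n ≠ 0` (`wc_wr`). `F = w₊ / w₋`, `F' = n F`; `exists_logF`. `g := (1 - n'/n) / n`.
Cauchy's estimate for `n - ν` on discs of radius `aa / 4` about the points of the box (slightly bigger
than `Bx`): `‖n'‖ ≤ 4 η ν / aa`, so `‖ν g - 1‖ ≤ C₁ η` on the `aa / 4`-neighbourhood of `Bx` (discs of radius
`aa / 8` for `n'` there), and Cauchy again for `g'`: `‖ν g'‖ ≤ C η`. -/
theorem exists_sol : ∃ C : ℝ, 1 ≤ C ∧ ∀ (Y : Sys) (S : Set ℂ) (b : ℂ) (k η s1 s2 : ℝ), Y.On S →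
    1 ≤ k → 0 < η → C * η ≤ 1 → s1 < s2 → (∀ σ ∈ Bb s1 s2, b + cexp σ ∈ S) →
    (∀ σ ∈ Bb s1 s2, ‖Vc Y b σ - (k ^ 2 + 1 / 4 : ℝ)‖ ≤ η * k ^ 2) →
    ∃ (α β α' β' : ℂ) (G n g : ℂ → ℂ),
      Sol Y b (2 * Real.sqrt (k ^ 2 + 1 / 4)) (C * η) s1 s2 α β α' β' G n g := by
  have haa : (0 : ℝ) < aa := by unfold aa; norm_num
  have haa1 : aa < 1 := by unfold aa; norm_num
  have hpi := Real.pi_gt_three
  have hpi2 := Real.pi_lt_four
  refine ⟨(2 + 32 / aa) * (8 / aa), ?_, ?_⟩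
  · have h1 : 1 ≤ 8 / aa := by
      rw [le_div_iff₀ haa]
      linarith
    have h2 : 0 < 32 / aa := by positivity
    nlinarith
  intro Y S b k η s1 s2 hY hk hη hCη hs hS hVb
  set m : ℝ := Real.sqrt (k ^ 2 + 1 / 4) with hm
  have hmsq : m ^ 2 = k ^ 2 + 1 / 4 := Real.sq_sqrt (by positivity)
  have hm0 : 0 < m := Real.sqrt_pos.2 (by positivity)
  have hη1 : η ≤ 1 / 100 := by
    have h1 : 1 ≤ 8 / aa := by
      rw [le_div_iff₀ haa]
      linarith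
    have h2 : (100 : ℝ) ≤ (2 + 32 / aa) * (8 / aa) := by
      unfold aa
      norm_num
    nlinarith
  -- the boxes
  have hBbc : Convex ℝ (Bb s1 s2) := SGd_convex_box _ _ _ _
  have hBmo : IsOpen (Bm s1 s2) := SGd_isOpen_box _ _ _ _
  have hBmc : Convex ℝ (Bm s1 s2) := SGd_convex_box _ _ _ _
  have hmb : Bm s1 s2 ⊆ Bb s1 s2 := by
    rintro σ ⟨h1, h2, h3, h4⟩
    exact ⟨by linarith, by linarith, h3, h4⟩
  have hxm : Bx s1 s2 ⊆ Bm s1 s2 := by
    rintro σ ⟨h1, h2, h3, h4⟩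
    exact ⟨by linarith, by linarith, by linarith, by linarith⟩
  set σL : ℂ := ⟨s1 - 3, -(Real.pi / 2)⟩ with hσL
  set σR : ℂ := ⟨s2 + 3, -(Real.pi / 2)⟩ with hσR
  have hL : σL ∈ Bb s1 s2 := by
    refine ⟨?_, ?_, ?_, ?_⟩ <;> simp only [hσL] <;> linarith
  have hR : σR ∈ Bb s1 s2 := by
    refine ⟨?_, ?_, ?_, ?_⟩ <;> simp only [hσR] <;> linarith
  obtain ⟨α, β, hw0, hw1⟩ := exists_wc hY (hS σL hL) 1 m
  obtain ⟨α', β', hw0', hw1'⟩ := exists_wc hY (hS σR hR) 1 (-(m : ℂ))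
  have hdw : ∀ (α β σ : ℂ), σ ∈ Bb s1 s2 → HasDerivAt (wc Y b α β) (wc1 Y b α β σ) σ :=
    fun α β σ hσ => hasDerivAt_wc hY (hS σ hσ)
  have hdw1 : ∀ (α β σ : ℂ), σ ∈ Bb s1 s2 →
      HasDerivAt (wc1 Y b α β) (Vc Y b σ * wc Y b α β σ) σ :=
    fun α β σ hσ => hasDerivAt_wc1 hY (hS σ hσ)
  have hVm : ∀ σ ∈ Bb s1 s2, ‖Vc Y b σ - (m : ℂ) ^ 2‖ ≤ η * k ^ 2 := by
    intro σ hσ
    have h1 := hVb σ hσ
    rw [← hmsq] at h1
    push_cast at h1
    exact h1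
  have hVm' : ∀ σ ∈ Bb s1 s2, ‖Vc Y b σ - (-(m : ℂ)) ^ 2‖ ≤ η * k ^ 2 := by
    intro σ hσ
    rw [neg_sq]
    exact hVm σ hσ
  have hdirg : ∀ e : ℂ, 2 < |e.re| → |e.im| < 2 →
      (η * k ^ 2 + (η * m) ^ 2) * ‖e‖ ≤ 2 * (η * m) * (m * |e.re|) := by
    intro e h1 h2
    have h3 : ‖e‖ ≤ 3 / 2 * |e.re| := by
      have h4 : ‖e‖ ^ 2 ≤ (3 / 2 * |e.re|) ^ 2 := by
        rw [← Complex.normSq_eq_norm_sq, Complex.normSq_apply]
        have h5 : e.re * e.re = |e.re| * |e.re| := (abs_mul_abs_self _).symm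
        have h6 : e.im * e.im = |e.im| * |e.im| := (abs_mul_abs_self _).symm
        rw [h5, h6]
        have h7 := abs_nonneg e.im
        nlinarith
      exact le_of_sq_le_sq h4 (by positivity)
    have h4 : η * k ^ 2 + (η * m) ^ 2 ≤ 4 / 3 * (η * m ^ 2) := by
      have h5 : η * k ^ 2 ≤ η * m ^ 2 := mul_le_mul_of_nonneg_left (by linarith) hη.le
      have h6 : (η * m) ^ 2 ≤ 1 / 3 * (η * m ^ 2) := by
        have h7 : (η * m) ^ 2 = η * (η * m ^ 2) := by ring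
        rw [h7]
        exact mul_le_mul_of_nonneg_right (by linarith) (by positivity)
      linarith
    calc (η * k ^ 2 + (η * m) ^ 2) * ‖e‖ ≤ 4 / 3 * (η * m ^ 2) * (3 / 2 * |e.re|) :=
          mul_le_mul h4 h3 (norm_nonneg _) (by positivity)
      _ = 2 * (η * m) * (m * |e.re|) := by ring
  have hplus : ∀ p ∈ Bm s1 s2, ‖wc1 Y b α β p - m * wc Y b α β p‖ ≤ η * m * ‖wc Y b α β p‖ ∧
      wc Y b α β p ≠ 0 := by
    intro p hp
    refine ric hBbc (mul_pos hη hm0) (fun σ hσ => hdw α β σ hσ) (fun σ hσ => hdw1 α β σ hσ)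
      hVm hL (hmb hp) (by rw [hw0, hw1, mul_one]) (by rw [hw0]; exact one_ne_zero) ?_
    obtain ⟨h1, h2, h3, h4⟩ := hp
    have h5 : (p - σL).re = p.re - s1 + 3 := by
      rw [Complex.sub_re]
      simp only [hσL]
      ring
    have h6 : (p - σL).im = p.im + Real.pi / 2 := by
      rw [Complex.sub_im]
      simp only [hσL]
      ring
    have h7 : |(p - σL).re| = (p - σL).re := abs_of_pos (by rw [h5]; linarith)
    have h8 := hdirg (p - σL) (by rw [h7, h5]; linarith)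
      (by rw [h6, abs_lt]; constructor <;> linarith)
    rw [h7] at h8
    rw [Complex.re_ofReal_mul]
    exact h8
  have hminus : ∀ p ∈ Bm s1 s2,
      ‖wc1 Y b α' β' p - -(m : ℂ) * wc Y b α' β' p‖ ≤ η * m * ‖wc Y b α' β' p‖ ∧
      wc Y b α' β' p ≠ 0 := by
    intro p hp
    refine ric hBbc (mul_pos hη hm0) (fun σ hσ => hdw α' β' σ hσ) (fun σ hσ => hdw1 α' β' σ hσ)
      hVm' hR (hmb hp) (by rw [hw0', hw1', mul_one]) (by rw [hw0']; exact one_ne_zero) ?_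
    obtain ⟨h1, h2, h3, h4⟩ := hp
    have h5 : (p - σR).re = p.re - s2 - 3 := by
      rw [Complex.sub_re]
      simp only [hσR]
      ring
    have h6 : (p - σR).im = p.im + Real.pi / 2 := by
      rw [Complex.sub_im]
      simp only [hσR]
      ring
    have h7 : |(p - σR).re| = -(p - σR).re := abs_of_neg (by rw [h5]; linarith)
    have h8 := hdirg (p - σR) (by rw [h7, h5]; linarith)
      (by rw [h6, abs_lt]; constructor <;> linarith)
    rw [h7] at h8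
    have h9 : (-(m : ℂ) * (p - σR)).re = m * -(p - σR).re := by
      rw [neg_mul, Complex.neg_re, Complex.re_ofReal_mul]
      ring
    rw [h9]
    exact h8
  set φ : ℂ → ℂ := fun σ => wc1 Y b α β σ / wc Y b α β σ with hφ
  set ψ : ℂ → ℂ := fun σ => wc1 Y b α' β' σ / wc Y b α' β' σ with hψ
  have hφb : ∀ p ∈ Bm s1 s2, ‖φ p - m‖ ≤ η * m := by
    intro p hp
    obtain ⟨h1, h2⟩ := hplus p hp
    have h3 : φ p - m = (wc1 Y b α β p - m * wc Y b α β p) / wc Y b α β p := by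
      rw [hφ]
      field_simp
    rw [h3, norm_div, div_le_iff₀ (norm_pos_iff.2 h2)]
    exact h1
  have hψb : ∀ p ∈ Bm s1 s2, ‖ψ p + m‖ ≤ η * m := by
    intro p hp
    obtain ⟨h1, h2⟩ := hminus p hp
    have h3 : ψ p + m = (wc1 Y b α' β' p - -(m : ℂ) * wc Y b α' β' p) / wc Y b α' β' p := by
      rw [hψ]
      field_simp
      ring
    rw [h3, norm_div, div_le_iff₀ (norm_pos_iff.2 h2)]
    exact h1
  have hφd : ∀ p ∈ Bm s1 s2, HasDerivAt φ (Vc Y b p - φ p ^ 2) p := by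
    intro p hp
    have h2 := (hplus p hp).2
    have h3 := (hdw1 α β p (hmb hp)).div (hdw α β p (hmb hp)) h2
    have h4 : (Vc Y b p * wc Y b α β p * wc Y b α β p - wc1 Y b α β p * wc1 Y b α β p) /
        wc Y b α β p ^ 2 = Vc Y b p - φ p ^ 2 := by
      rw [hφ]
      field_simp
    rw [h4] at h3
    exact h3
  have hψd : ∀ p ∈ Bm s1 s2, HasDerivAt ψ (Vc Y b p - ψ p ^ 2) p := by
    intro p hp
    have h2 := (hminus p hp).2
    have h3 := (hdw1 α' β' p (hmb hp)).div (hdw α' β' p (hmb hp)) h2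
    have h4 : (Vc Y b p * wc Y b α' β' p * wc Y b α' β' p - wc1 Y b α' β' p * wc1 Y b α' β' p) /
        wc Y b α' β' p ^ 2 = Vc Y b p - ψ p ^ 2 := by
      rw [hψ]
      field_simp
    rw [h4] at h3
    exact h3
  set n : ℂ → ℂ := fun σ => φ σ - ψ σ with hn
  have hnd : ∀ p ∈ Bm s1 s2, HasDerivAt n (-(n p) * (φ p + ψ p)) p := by
    intro p hp
    have h1 := (hφd p hp).sub (hψd p hp)
    have h2 : Vc Y b p - φ p ^ 2 - (Vc Y b p - ψ p ^ 2) = -(n p) * (φ p + ψ p) := by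
      rw [hn]
      ring
    rw [h2] at h1
    exact h1
  have hnc : ∀ p ∈ Bm s1 s2, ‖n p - (2 * m : ℝ)‖ ≤ η * (2 * m) := by
    intro p hp
    have h1 : n p - (2 * m : ℝ) = (φ p - m) - (ψ p + m) := by
      rw [hn]
      push_cast
      ring
    rw [h1]
    refine (norm_sub_le _ _).trans ?_
    have h2 := hφb p hp
    have h3 := hψb p hp
    linarith
  have hn2 : ∀ p ∈ Bm s1 s2, m ≤ ‖n p‖ := by
    intro p hp
    have h1 := hnc p hp
    have h2 := norm_sub_norm_le ((2 * m : ℝ) : ℂ) (n p)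
    rw [norm_sub_rev ((2 * m : ℝ) : ℂ) (n p), Complex.norm_real,
      Real.norm_of_nonneg (by positivity)] at h2
    have h3 : η * (2 * m) ≤ 1 / 100 * (2 * m) :=
      mul_le_mul_of_nonneg_right hη1 (by positivity)
    linarith
  have hn0 : ∀ p ∈ Bm s1 s2, n p ≠ 0 := fun p hp => by
    have h1 := hn2 p hp
    exact norm_pos_iff.1 (by linarith)
  have hφdo : DifferentiableOn ℂ φ (Bm s1 s2) := fun p hp =>
    (hφd p hp).differentiableAt.differentiableWithinAt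
  have hψdo : DifferentiableOn ℂ ψ (Bm s1 s2) := fun p hp =>
    (hψd p hp).differentiableAt.differentiableWithinAt
  have hndo : DifferentiableOn ℂ n (Bm s1 s2) := fun p hp =>
    (hnd p hp).differentiableAt.differentiableWithinAt
  have hdn : ∀ p ∈ Bm s1 s2, deriv n p / n p = -(φ p + ψ p) := by
    intro p hp
    have h1 := hn0 p hp
    rw [(hnd p hp).deriv]
    field_simp
  -- the smaller box
  set B1 : Set ℂ := {σ | s1 - 1 / 2 < σ.re ∧ σ.re < s2 + 1 / 2 ∧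
    -Real.pi + 3 / 4 * aa < σ.im ∧ σ.im < -(3 / 4 * aa)} with hB1
  have hB1o : IsOpen B1 := SGd_isOpen_box _ _ _ _
  have hball : ∀ p σ : ℂ, σ ∈ closedBall p (aa / 8) →
      |σ.re - p.re| ≤ aa / 8 ∧ |σ.im - p.im| ≤ aa / 8 := by
    intro p σ h
    rw [mem_closedBall, dist_eq_norm] at h
    have h1 := Complex.abs_re_le_norm (σ - p)
    have h2 := Complex.abs_im_le_norm (σ - p)
    rw [Complex.sub_re] at h1
    rw [Complex.sub_im] at h2
    exact ⟨h1.trans h, h2.trans h⟩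
  have hcb1 : ∀ p ∈ B1, closedBall p (aa / 8) ⊆ Bm s1 s2 := by
    rintro p ⟨h1, h2, h3, h4⟩ σ hσ
    obtain ⟨h5, h6⟩ := hball p σ hσ
    rw [abs_le] at h5 h6
    exact ⟨by linarith, by linarith, by linarith, by linarith⟩
  have hcb2 : ∀ p ∈ Bx s1 s2, closedBall p (aa / 8) ⊆ B1 := by
    rintro p ⟨h1, h2, h3, h4⟩ σ hσ
    obtain ⟨h5, h6⟩ := hball p σ hσ
    rw [abs_le] at h5 h6
    exact ⟨by linarith, by linarith, by linarith, by linarith⟩
  have h1m : B1 ⊆ Bm s1 s2 := fun p hp => hcb1 p hp (mem_closedBall_self (by positivity))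
  have hx1 : Bx s1 s2 ⊆ B1 := fun p hp => hcb2 p hp (mem_closedBall_self (by positivity))
  have hdnb : ∀ p ∈ B1, ‖deriv n p‖ ≤ η * (2 * m) / (aa / 8) := by
    intro p hp
    have h1 : deriv (fun σ => n σ - ((2 * m : ℝ) : ℂ)) p = deriv n p := deriv_sub_const _
    rw [← h1]
    refine Complex.norm_deriv_le_of_forall_mem_sphere_norm_le (by positivity)
      ((hndo.sub_const _).diffContOnCl_ball (hcb1 p hp)) fun z hz =>
        hnc z (hcb1 p hp (sphere_subset_closedBall hz))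
  set g : ℂ → ℂ := fun σ => (1 - deriv n σ / n σ) / n σ with hg
  have hgeq : ∀ p ∈ Bm s1 s2, g p = (1 + (φ p + ψ p)) / n p := by
    intro p hp
    rw [hg]
    dsimp only
    rw [hdn p hp, sub_neg_eq_add]
  have hgdo : DifferentiableOn ℂ g (Bm s1 s2) :=
    (((differentiableOn_const (c := (1 : ℂ))).add (hφdo.add hψdo)).div hndo hn0).congr hgeq
  have hqb : ∀ p ∈ B1, ‖((2 * m : ℝ) : ℂ) * g p - 1‖ ≤ (2 + 32 / aa) * η := by
    intro p hp
    have hpm := h1m hp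
    have h0 := hn0 p hpm
    have e1 : ((2 * m : ℝ) : ℂ) * g p - 1 =
        (((2 * m : ℝ) : ℂ) - n p) / n p - (((2 * m : ℝ) : ℂ) / n p) * (deriv n p / n p) := by
      rw [hg]
      dsimp only
      field_simp
      ring
    rw [e1]
    refine (norm_sub_le _ _).trans ?_
    have h2 := hn2 p hpm
    have h3 := hnc p hpm
    rw [norm_sub_rev] at h3
    have h4 := hdnb p hp
    rw [norm_div, norm_mul, norm_div, norm_div, Complex.norm_real,
      Real.norm_of_nonneg (by positivity)]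
    have h5 : ‖((2 * m : ℝ) : ℂ) - n p‖ / ‖n p‖ ≤ η * (2 * m) / m :=
      div_le_div₀ (by positivity) h3 hm0 h2
    have h6 : 2 * m / ‖n p‖ ≤ 2 * m / m := div_le_div_of_nonneg_left (by positivity) hm0 h2
    have h7 : ‖deriv n p‖ / ‖n p‖ ≤ η * (2 * m) / (aa / 8) / m :=
      div_le_div₀ (by positivity) h4 hm0 h2
    have h8 : 2 * m / ‖n p‖ * (‖deriv n p‖ / ‖n p‖) ≤
        2 * m / m * (η * (2 * m) / (aa / 8) / m) :=
      mul_le_mul h6 h7 (by positivity) (by positivity)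
    have h9 : η * (2 * m) / m + 2 * m / m * (η * (2 * m) / (aa / 8) / m) =
        (2 + 32 / aa) * η := by
      field_simp
      ring
    linarith
  obtain ⟨G, hG1, hG2⟩ := exists_logF hBmo hBmc (F := fun σ => wc Y b α β σ / wc Y b α' β' σ)
    (n := n) (by
      intro p hp
      have h2 := (hminus p hp).2
      have h2' := (hplus p hp).2
      have h3 := (hdw α β p (hmb hp)).div (hdw α' β' p (hmb hp)) h2
      have h4 : (wc1 Y b α β p * wc Y b α' β' p - wc Y b α β p * wc1 Y b α' β' p) /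
          wc Y b α' β' p ^ 2 = n p * (wc Y b α β p / wc Y b α' β' p) := by
        rw [hn]
        dsimp only
        rw [hφ, hψ]
        dsimp only
        field_simp
      rw [h4] at h3
      exact h3) (fun p hp => div_ne_zero (hplus p hp).2 (hminus p hp).2) hndo
  have hCge : 1 ≤ (2 + 32 / aa) * (8 / aa) := by
    have h1 : 1 ≤ 8 / aa := by
      rw [le_div_iff₀ haa]
      linarith
    have h2 : 0 < 32 / aa := by positivity
    nlinarith
  have h8a : 1 ≤ 8 / aa := by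
    rw [le_div_iff₀ haa]
    linarith
  have hC1 : (2 + 32 / aa) * η ≤ (2 + 32 / aa) * (8 / aa) * η := by
    have h2 : 0 < (2 + 32 / aa) * η := by positivity
    nlinarith
  refine ⟨α, β, α', β', G, n, g, ?_, ?_, ?_, ?_, ?_, ?_, ?_⟩
  · refine ⟨fun p hp => hG1 p (hxm hp), hndo.mono hxm, fun p hp => ?_, fun p hp => ?_,
      fun p hp => (hqb p (hx1 hp)).trans hC1, fun p hp => ?_⟩
    · refine (hnc p (hxm hp)).trans ?_
      refine mul_le_mul_of_nonneg_right ?_ (by positivity)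
      nlinarith
    · have h0 := hn0 p (hxm hp)
      rw [hg]
      dsimp only
      rw [mul_div_cancel₀ _ h0]
    · have h1 : deriv (fun σ => ((2 * m : ℝ) : ℂ) * g σ - 1) p =
          ((2 * m : ℝ) : ℂ) * deriv g p := by
        rw [deriv_sub_const, deriv_const_mul]
        exact (hgdo p (hxm hp)).differentiableAt (hBmo.mem_nhds (hxm hp))
      rw [← h1]
      have h2 := Complex.norm_deriv_le_of_forall_mem_sphere_norm_le
        (f := fun σ => ((2 * m : ℝ) : ℂ) * g σ - 1) (c := p) (R := aa / 8)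
        (C := (2 + 32 / aa) * η) (by positivity)
        ((((hgdo.const_mul _).sub_const _).mono h1m).diffContOnCl_ball (hcb2 p hp))
        fun z hz => hqb z (hcb2 p hp (sphere_subset_closedBall hz))
      refine h2.trans (le_of_eq ?_)
      field_simp
  · have hp : (⟨(s1 + s2) / 2, -(Real.pi / 2)⟩ : ℂ) ∈ Bm s1 s2 := by
      refine ⟨?_, ?_, ?_, ?_⟩ <;> dsimp only <;> linarith
    have h1 := wc_wr hY (hS _ (hmb hp)) (α := α) (β := β) (α' := α') (β' := β')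
    rw [← h1]
    have h2 := (hminus _ hp).2
    have h2' := (hplus _ hp).2
    have h3 := hn0 _ hp
    have h4 : wc1 Y b α β ⟨(s1 + s2) / 2, -(Real.pi / 2)⟩ *
          wc Y b α' β' ⟨(s1 + s2) / 2, -(Real.pi / 2)⟩ -
        wc Y b α β ⟨(s1 + s2) / 2, -(Real.pi / 2)⟩ *
          wc1 Y b α' β' ⟨(s1 + s2) / 2, -(Real.pi / 2)⟩ =
        wc Y b α β ⟨(s1 + s2) / 2, -(Real.pi / 2)⟩ *
          wc Y b α' β' ⟨(s1 + s2) / 2, -(Real.pi / 2)⟩ *
            n ⟨(s1 + s2) / 2, -(Real.pi / 2)⟩ := by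
      rw [hn]
      dsimp only
      rw [hφ, hψ]
      dsimp only
      field_simp
    rw [h4]
    exact mul_ne_zero (mul_ne_zero h2' h2) h3
  · exact fun p hp => ⟨(hplus p (hxm hp)).2, (hminus p (hxm hp)).2⟩
  · exact fun p _ => rfl
  · intro p hp
    rw [neg_div, hdn p (hxm hp), neg_neg]
  · exact fun p hp => hG2 p (hxm hp)
  · intro p hp
    have hpm := hxm hp
    have e1 : (fun σ => deriv n σ / n σ) =ᶠ[𝓝 p] fun σ => -(φ σ + ψ σ) := by
      filter_upwards [hBmo.mem_nhds hpm] with σ hσ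
      exact hdn σ hσ
    have e2 : HasDerivAt (fun σ => -(φ σ + ψ σ))
        (-((Vc Y b p - φ p ^ 2) + (Vc Y b p - ψ p ^ 2))) p :=
      ((hφd p hpm).add (hψd p hpm)).neg
    rw [e1.deriv_eq, e2.deriv, hdn p hpm]
    have e3 : n p = φ p - ψ p := rfl
    rw [e3]
    ring

private theorem SGd_lin {ν η s1 s2 : ℝ} {G n g : ℂ → ℂ} (h : Gd ν η s1 s2 G n g) {σ σ' : ℂ}
    (hσ : σ ∈ Bx s1 s2) (hσ' : σ' ∈ Bx s1 s2) :
    ‖G σ' - G σ - ν * (σ' - σ)‖ ≤ η * ν * ‖σ' - σ‖ := by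
  have h1 := (SGd_convex_box s1 s2 (-Real.pi + aa) (-aa)).norm_image_sub_le_of_norm_hasDerivWithin_le
    (f := fun σ => G σ - ν * σ) (f' := fun σ => n σ - ν) (C := η * ν)
    (fun τ hτ => by
      have h2 := (h.dG τ hτ).sub ((hasDerivAt_id τ).const_mul (ν : ℂ))
      rw [mul_one] at h2
      exact h2.hasDerivWithinAt) (fun τ hτ => h.nc τ hτ) hσ hσ'
  have h3 : G σ' - G σ - ν * (σ' - σ) = G σ' - ν * σ' - (G σ - ν * σ) := by ring
  rw [h3]
  exact h1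

/-- `G` is injective on the box: `‖n - ν‖ ≤ η ν < ν` on a convex set. -/
theorem Gd.inj {ν η s1 s2 : ℝ} {G n g : ℂ → ℂ} (h : Gd ν η s1 s2 G n g) (hν : 0 < ν)
    (hη : η < 1) : InjOn G (Bx s1 s2) := by
  intro σ hσ σ' hσ' he
  have h1 := SGd_lin h hσ hσ'
  rw [he, sub_self, zero_sub, norm_neg, norm_mul, Complex.norm_real,
    Real.norm_of_nonneg hν.le] at h1
  have h2 : (1 - η) * ν * ‖σ' - σ‖ ≤ 0 := by nlinarith
  have h3 : ‖σ' - σ‖ = 0 := by
    have h4 : 0 < (1 - η) * ν := mul_pos (by linarith) hν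
    have h5 := norm_nonneg (σ' - σ)
    nlinarith
  exact (sub_eq_zero.1 (norm_eq_zero.1 h3)).symm

/-- `‖G σ' - G σ - ν (σ' - σ)‖ ≤ η ν ‖σ' - σ‖` on the box. -/
theorem Gd.lin {ν η s1 s2 : ℝ} {G n g : ℂ → ℂ} (h : Gd ν η s1 s2 G n g) {σ σ' : ℂ}
    (hσ : σ ∈ Bx s1 s2) (hσ' : σ' ∈ Bx s1 s2) :
    ‖G σ' - G σ - ν * (σ' - σ)‖ ≤ η * ν * ‖σ' - σ‖ :=
  SGd_lin h hσ hσ'

end Pool.Agent.MP_ae5b4e_an_N4
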