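import Pool.Agent.Lib.MP_ae5b4e_an_N4.Itf

/-!
# N4, module AsA: changes of coordinates, Moebius transformations, reflection

* `Mob.inv_at`: `(d w' - b) / (- c w' + a)` with `w' = (a w + b) / (c w + d)`: field arithmetic,
  `a d - b c ≠ 0` (numerator `(a d - b c) w / (c w + d)`, denominator `(a d - b c) / (c w + d)`).
* `merAt_mob`: `MerAt.div`, `MerAt.mul`, `MerAt.add`, constants.
* `eqM_mob`: `EqM.map`.
* `merAt_comp_loc`, `eqM_comp_loc` (local version of `MerAt.comp`, `EqM.comp` in `NBT/Mer.lean`):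
`φ` analytic at
   `p`, `ψ` continuous at `φ p` with `ψ (φ p) = p` and `φ (ψ q) = q` for `q` near `φ p`.  If `Den B
  (φ p)` then
   `Den (B ∘ φ) p`: if `B (φ q) = 0` for `q` near `p` then `B q' = B (φ (ψ q')) = 0` for `q'` near
  `φ p`.
* `merAt_cz`, `eqM_cz`: `φ = cz x0 h`, `ψ = ct x0 h`, `ρ ≠ 0`.  `merAt_ct`, `eqM_ct`: the same with
`φ`, `ψ`
  exchanged.
* `merAt_mirE`, `eqM_mirE`: `c p = (conj p.1, - conj p.2)` is a continuous involution; if `A` is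
analytic at
   `c p`, then `fun q => conj (A (c q))` is analytic at `p` (power series with conjugate
  coefficients,
  or differentiability on a neighbourhood; module `Mir.lean` proves `mir_an`, it may be copied or
  imported); `Den` is preserved.
-/

set_option autoImplicit false

noncomputable section

namespace Pool.Agent.MP_ae5b4e_an_N4

open Complex Set Filter Topology Metric
open Pool.Agent.MP_ae5b4e_an_NBT (St MerAt Mer EqM Den)
open scoped ComplexConjugate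

/-- the inverse transformation -/
def Mob.inv (m : Mob) : Mob where
  a := m.d
  b := -m.b
  c := -m.c
  d := m.a
  ne := by
    have h := m.ne
    intro h1
    apply h
    linear_combination h1

theorem Mob.inv_at (m : Mob) {w : ℂ} (h : m.c * w + m.d ≠ 0) : m.inv.at (m.at w) = w := by
  have hne := m.ne
  have h2 : -m.c * ((m.a * w + m.b) / (m.c * w + m.d)) + m.a =
      (m.a * m.d - m.b * m.c) / (m.c * w + m.d) := by
    rw [eq_div_iff h, add_mul, mul_assoc, div_mul_cancel₀ _ h]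
    ring
  have h1 : m.d * ((m.a * w + m.b) / (m.c * w + m.d)) + -m.b =
      (m.a * m.d - m.b * m.c) * w / (m.c * w + m.d) := by
    rw [eq_div_iff h, add_mul, mul_assoc, div_mul_cancel₀ _ h]
    ring
  change (m.d * ((m.a * w + m.b) / (m.c * w + m.d)) + -m.b) /
    (-m.c * ((m.a * w + m.b) / (m.c * w + m.d)) + m.a) = w
  rw [h1, h2]
  field_simp

theorem merAt_mob (m : Mob) {f : ℂ × ℂ → ℂ} {p : ℂ × ℂ} (h : MerAt f p) :
    MerAt (fun q => m.at (f q)) p := by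
  have hc : ∀ c : ℂ, MerAt (fun _ => c) p := fun c =>
    Pool.Agent.MP_ae5b4e_an_NBT.merAt_of_analyticAt analyticAt_const
  exact MerAt.div (((hc m.a).mul h).add (hc m.b)) (((hc m.c).mul h).add (hc m.d))

private theorem AsA_den_comp {B : ℂ × ℂ → ℂ} {φ ψ : ℂ × ℂ → ℂ × ℂ} {p : ℂ × ℂ}
    (hφ : AnalyticAt ℂ φ p) (hψ : ContinuousAt ψ (φ p)) (h1 : ψ (φ p) = p)
    (h2 : ∀ᶠ q in 𝓝 (φ p), φ (ψ q) = q) (h : Den B (φ p)) : Den (fun q => B (φ q)) p := by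
  refine ⟨AnalyticAt.fun_comp h.an hφ, fun h3 => h.ne ?_⟩
  have h4 : Tendsto ψ (𝓝 (φ p)) (𝓝 p) := by
    have h5 := hψ.tendsto
    rwa [h1] at h5
  filter_upwards [h4.eventually h3, h2] with q hq hq2
  have h5 : B (φ (ψ q)) = 0 := hq
  rwa [hq2] at h5

theorem merAt_comp_loc {f : ℂ × ℂ → ℂ} {φ ψ : ℂ × ℂ → ℂ × ℂ} {p : ℂ × ℂ} (hφ : AnalyticAt ℂ φ p)
    (hψ : ContinuousAt ψ (φ p)) (h1 : ψ (φ p) = p) (h2 : ∀ᶠ q in 𝓝 (φ p), φ (ψ q) = q)
    (hf : MerAt f (φ p)) : MerAt (fun q => f (φ q)) p := by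
  obtain ⟨A, B, hA, hB, h⟩ := hf
  exact ⟨fun q => A (φ q), _, AnalyticAt.fun_comp hA hφ, AsA_den_comp hφ hψ h1 h2 hB,
    hφ.continuousAt.eventually h⟩

theorem eqM_comp_loc {f g : ℂ × ℂ → ℂ} {φ ψ : ℂ × ℂ → ℂ × ℂ} {p : ℂ × ℂ} (hφ : AnalyticAt ℂ φ p)
    (hψ : ContinuousAt ψ (φ p)) (h1 : ψ (φ p) = p) (h2 : ∀ᶠ q in 𝓝 (φ p), φ (ψ q) = q)
    (hf : EqM f g (φ p)) : EqM (fun q => f (φ q)) (fun q => g (φ q)) p := by
  obtain ⟨B, hB, h⟩ := hf
  exact ⟨_, AsA_den_comp hφ hψ h1 h2 hB, hφ.continuousAt.eventually h⟩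

/-- from `(z, ρ)` to `(t, ρ)` -/
def cz (x0 h : ℝ) (p : ℂ × ℂ) : ℂ × ℂ := ((x0:ℂ) + (h:ℂ) * I + p.2 * p.1, p.2)

/-- from `(t, ρ)` to `(z, ρ)` -/
def ct (x0 h : ℝ) (p : ℂ × ℂ) : ℂ × ℂ := ((p.1 - (x0:ℂ) - (h:ℂ) * I) / p.2, p.2)

theorem ct_cz {x0 h : ℝ} {z ρ : ℂ} (hρ : ρ ≠ 0) : ct x0 h (cz x0 h (z, ρ)) = (z, ρ) := by
  unfold ct cz
  ext
  · change ((x0:ℂ) + (h:ℂ) * I + ρ * z - (x0:ℂ) - (h:ℂ) * I) / ρ = z
    field_simp
    ring
  · rfl

theorem cz_ct {x0 h : ℝ} {t ρ : ℂ} (hρ : ρ ≠ 0) : cz x0 h (ct x0 h (t, ρ)) = (t, ρ) := by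
  unfold ct cz
  ext
  · change (x0:ℂ) + (h:ℂ) * I + ρ * ((t - (x0:ℂ) - (h:ℂ) * I) / ρ) = t
    field_simp
    ring
  · rfl

private theorem AsA_cz_an {x0 h : ℝ} (p : ℂ × ℂ) : AnalyticAt ℂ (cz x0 h) p := by
  change AnalyticAt ℂ (fun p : ℂ × ℂ => ((x0:ℂ) + (h:ℂ) * I + p.2 * p.1, p.2)) p
  exact (analyticAt_const.add (analyticAt_snd.mul analyticAt_fst)).prod analyticAt_snd

private theorem AsA_ct_an {x0 h : ℝ} {p : ℂ × ℂ} (hp : p.2 ≠ 0) : AnalyticAt ℂ (ct x0 h) p := by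
  change AnalyticAt ℂ (fun p : ℂ × ℂ => ((p.1 - (x0:ℂ) - (h:ℂ) * I) / p.2, p.2)) p
  exact (((analyticAt_fst.sub analyticAt_const).sub analyticAt_const).div analyticAt_snd
    hp).prod analyticAt_snd

private theorem AsA_ev1 {x0 h : ℝ} {p : ℂ × ℂ} (hp : p.2 ≠ 0) :
    ∀ᶠ q in 𝓝 p, cz x0 h (ct x0 h q) = q := by
  filter_upwards [continuous_snd.continuousAt.eventually_ne hp] with q hq
  exact cz_ct (t := q.1) (ρ := q.2) hq

private theorem AsA_ev2 {x0 h : ℝ} {p : ℂ × ℂ} (hp : p.2 ≠ 0) :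
    ∀ᶠ q in 𝓝 p, ct x0 h (cz x0 h q) = q := by
  filter_upwards [continuous_snd.continuousAt.eventually_ne hp] with q hq
  exact ct_cz (z := q.1) (ρ := q.2) hq

theorem merAt_cz {f : ℂ × ℂ → ℂ} {x0 h : ℝ} {z ρ : ℂ} (hρ : ρ ≠ 0)
    (hf : MerAt f (cz x0 h (z, ρ))) : MerAt (fun q => f (cz x0 h q)) (z, ρ) := by
  exact merAt_comp_loc (AsA_cz_an _) (AsA_ct_an (by simpa [cz] using hρ)).continuousAt
    (ct_cz hρ) (AsA_ev1 (by simpa [cz] using hρ)) hf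

theorem eqM_cz {f g : ℂ × ℂ → ℂ} {x0 h : ℝ} {z ρ : ℂ} (hρ : ρ ≠ 0)
    (hf : EqM f g (cz x0 h (z, ρ))) :
    EqM (fun q => f (cz x0 h q)) (fun q => g (cz x0 h q)) (z, ρ) := by
  exact eqM_comp_loc (AsA_cz_an _) (AsA_ct_an (by simpa [cz] using hρ)).continuousAt
    (ct_cz hρ) (AsA_ev1 (by simpa [cz] using hρ)) hf

theorem merAt_ct {f : ℂ × ℂ → ℂ} {x0 h : ℝ} {t ρ : ℂ} (hρ : ρ ≠ 0)
    (hf : MerAt f (ct x0 h (t, ρ))) : MerAt (fun q => f (ct x0 h q)) (t, ρ) := by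
  exact merAt_comp_loc (AsA_ct_an hρ) (AsA_cz_an _).continuousAt
    (cz_ct hρ) (AsA_ev2 (by simpa [ct] using hρ)) hf

theorem eqM_ct {f g : ℂ × ℂ → ℂ} {x0 h : ℝ} {t ρ : ℂ} (hρ : ρ ≠ 0)
    (hf : EqM f g (ct x0 h (t, ρ))) :
    EqM (fun q => f (ct x0 h q)) (fun q => g (ct x0 h q)) (t, ρ) := by
  exact eqM_comp_loc (AsA_ct_an hρ) (AsA_cz_an _).continuousAt
    (cz_ct hρ) (AsA_ev2 (by simpa [ct] using hρ)) hf

private theorem AsA_mir_cc : Continuous fun q : ℂ × ℂ => ((conj q.1, -conj q.2) : ℂ × ℂ) :=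
  (continuous_conj.comp continuous_fst).prodMk (continuous_conj.comp continuous_snd).neg

private theorem AsA_mir_tendsto (z ρ : ℂ) :
    Tendsto (fun q : ℂ × ℂ => ((conj q.1, -conj q.2) : ℂ × ℂ)) (𝓝 (z, ρ))
      (𝓝 (conj z, -conj ρ)) := AsA_mir_cc.tendsto (z, ρ)

private theorem AsA_mir_an {f : ℂ × ℂ → ℂ} {z ρ : ℂ} (h : AnalyticAt ℂ f (conj z, -conj ρ)) :
    AnalyticAt ℂ (mirE f) (z, ρ) := by
  obtain ⟨V, hV, hVo, hpV⟩ := _root_.eventually_nhds_iff.1 h.eventually_analyticAt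
  have hU : IsOpen ((fun q : ℂ × ℂ => ((conj q.1, -conj q.2) : ℂ × ℂ)) ⁻¹' V) :=
    hVo.preimage AsA_mir_cc
  refine Pool.Agent.SCV.osgood _ hU _ ?_ ?_ ?_ (z, ρ) hpV
  · intro q hq
    have h1 : ContinuousAt f (conj q.1, -conj q.2) := (hV _ hq).continuousAt
    have h2 : ContinuousAt (fun q : ℂ × ℂ => f (conj q.1, -conj q.2)) q :=
      ContinuousAt.comp (f := fun q : ℂ × ℂ => ((conj q.1, -conj q.2) : ℂ × ℂ)) h1
        AsA_mir_cc.continuousAt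
    exact (continuous_conj.continuousAt.comp h2).continuousWithinAt
  · intro q hq
    have h1 : DifferentiableAt ℂ f (conj q.1, -conj q.2) := (hV _ hq).differentiableAt
    have h2 : DifferentiableAt ℂ (fun x : ℂ => f (x, -conj q.2)) (conj q.1) :=
      DifferentiableAt.comp (f := fun x : ℂ => (x, -conj q.2)) (conj q.1) h1 (by fun_prop)
    have h3 := h2.conj_conj
    rw [conj_conj] at h3
    exact h3
  · intro q hq
    have h1 : DifferentiableAt ℂ f (conj q.1, -conj q.2) := (hV _ hq).differentiableAt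
    have h2 : DifferentiableAt ℂ (fun x : ℂ => f (conj q.1, -x)) (conj q.2) :=
      DifferentiableAt.comp (f := fun x : ℂ => (conj q.1, -x)) (conj q.2) h1 (by fun_prop)
    have h3 := h2.conj_conj
    rw [conj_conj] at h3
    exact h3

private theorem AsA_mir_den {B : ℂ × ℂ → ℂ} {z ρ : ℂ} (h : Den B (conj z, -conj ρ)) :
    Den (mirE B) (z, ρ) := by
  refine ⟨AsA_mir_an h.an, fun h1 => h.ne ?_⟩
  have h2 := AsA_mir_tendsto (conj z) (-conj ρ)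
  rw [conj_conj, map_neg, neg_neg, conj_conj] at h2
  filter_upwards [h2.eventually h1] with q hq
  have h3 : conj (B (conj (conj q.1), -conj (-conj q.2))) = 0 := hq
  rw [conj_conj, map_neg, neg_neg, conj_conj, map_eq_zero] at h3
  exact h3

theorem mirE_mirE (f : ℂ × ℂ → ℂ) : mirE (mirE f) = f := by
  funext p
  simp [mirE]

theorem merAt_mirE {f : ℂ × ℂ → ℂ} {z ρ : ℂ} (h : MerAt f (conj z, -conj ρ)) :
    MerAt (mirE f) (z, ρ) := by
  obtain ⟨A, B, hA, hB, h1⟩ := h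
  refine ⟨mirE A, mirE B, AsA_mir_an hA, AsA_mir_den hB, ?_⟩
  filter_upwards [(AsA_mir_tendsto z ρ).eventually h1] with q hq h0
  have h2 : B (conj q.1, -conj q.2) ≠ 0 := by
    intro h3
    apply h0
    simp [mirE, h3]
  change conj (f (conj q.1, -conj q.2)) = conj (A (conj q.1, -conj q.2)) /
    conj (B (conj q.1, -conj q.2))
  rw [hq h2, map_div₀]

theorem eqM_mirE {f g : ℂ × ℂ → ℂ} {z ρ : ℂ} (h : EqM f g (conj z, -conj ρ)) :
    EqM (mirE f) (mirE g) (z, ρ) := by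
  obtain ⟨B, hB, h1⟩ := h
  refine ⟨mirE B, AsA_mir_den hB, ?_⟩
  filter_upwards [(AsA_mir_tendsto z ρ).eventually h1] with q hq h0
  have h2 : B (conj q.1, -conj q.2) ≠ 0 := by
    intro h3
    apply h0
    simp [mirE, h3]
  change conj (f (conj q.1, -conj q.2)) = conj (g (conj q.1, -conj q.2))
  rw [hq h2]

end Pool.Agent.MP_ae5b4e_an_N4
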