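import Pool.Agent.Lib.MP_ae5b4e_an_N4.AsA

/-!
# N4, module AsB: the normalised function `Fz` and the base facts

`Dp v h R z ρ`: the point `t = x0 + h i + ρ z` is in the domain `DFU` and within `h` of `x0 + h i`.
* `dp_mem`: `Im t = h + Im (ρ z)`, `|Im (ρ z)| ≤ ‖ρ z‖ < h`.
* `dp_convex`: for fixed `ρ` the conditions on `z` define a half plane and a disc.
* `fz_mer`: `Base.merG`, `merAt_cz`, `merAt_mob` (`Fz G x0 h m q = m.at (G (cz x0 h q))` by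
definition).
* `g_nonconst`: suppose `EqM (c G + d) 0 p`, `p = (t, ρ) ∈ DFU`.  The set `{(t.re + i y, ρ) | 0 < y
≤ t.im}` is
   connected and in `DFU` (`Im` is smaller), both functions are meromorphic there: `Mer.eqM`, so
  `EqM` at
   `(t', ρ)`, `t' = t.re + i h / 4` or smaller.  The set `{0 < Im t < h / 2} × ball 0 R` is convex
  and contained
  in `DKU` (`Base.half`) and in `DFU`: `EqM (c G + d) 0` at `(t, 0)` for all `0 < Im t < h / 2`.
  Choose such a `t` with `Y.y1 t ≠ 0` (otherwise `y1` vanishes on an open set, so does `y1'`,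
   contradiction to `wr`); near `(t, 0)` `G` is `EqM` to `Y.y2 (L q) / Y.y1 (L q)` (`eqG`), which is
  analytic
   there (`L (t, 0) = t`), so `c y2 (L q) + d y1 (L q) = 0` near `(t, 0)` (`EqM.eventuallyEq`), in
  particular
   `c y2 t' + d y1 t' = 0` for `t'` near `t` (`zero`), the derivative gives `c y2' + d y1' = 0`, and
  `wr` gives
  `c = d = 0`.
* `fz_inv`: `g_nonconst` and `MerAt.eqM_or` for `c G + d` and `0`: `c G + d ≠ 0` off a denominator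
near
  `cz x0 h (z, ρ)`, so `EqM (m.inv.at (m.at G)) G` there (`Mob.inv_at`); `eqM_cz`.
* `fz_even`: with `N (t, ρ) = (t, - ρ)`: `EqM G (G ∘ N)` at every point `(t, ρ)` of `DFU`: `G ∘ N`
is meromorphic at
   the points of `DFU` (`v` is even on the ball; `MerAt.comp` with the homeomorphism `N`); on the
  vertical
   segment below `(t, ρ)` (connected, in `DFU`) there is a point `(t', ρ)` with `0 < Im t' < h / 2`,
  in `DKU`, and
   there `G` is `EqM` to `y2 (L q) / y1 (L q)`, and `G ∘ N` is `EqM` to `y2 (L (N q)) / y1 (L (N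
  q))`, and
  `L (N q) = L q` near (`DKU` is open near such points: it contains `{0 < Im < h / 2} × ball 0 R`).
  Then `Gz G x0 h (-z, -ρ) = G (x0 + h i + ρ z, - ρ)`; `eqM_cz`, `EqM.map`.
* `reg_of`: let `N`, `g` be as in `RegZ`.  `N' := ct ⁻¹ (N ∩ {…})`: for `(t', ρ')` near
   `P = (x0 + c q + (h - v c) i, c)` (`ct P = (q - i v c / c, c)`) we have `ρ' ≠ 0`, `ct (t', ρ') ∈
  interior N`,
   `‖ρ'‖ < R`, `‖t' - x0 - h i‖ < h` (at `P`: `≤ c |q| + v c < h`).  `g' := m.inv.at (g (ct ·))` is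
  meromorphic near
  (`merAt_ct`, `merAt_mob`); if moreover `(t', ρ') ∈ DFU` then `ct (t', ρ')` is a `Dp` point with
  `Im (ρ' z') = Im t' - h < - v ρ'`, so `EqM g (Fz …) (ct (t', ρ'))`, and
   `m.inv.at (g ·)` is `EqM` to `m.inv.at (Fz ·)`, to `Gz` (`fz_inv`); `eqM_ct` and `Gz G x0 h (ct
  q) = G q`
  (`cz_ct`, near `(t', ρ')`).
-/

set_option autoImplicit false

noncomputable section

namespace Pool.Agent.MP_ae5b4e_an_N4

open Complex Set Filter Topology Metric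
open Pool.Agent.MP_ae5b4e_an_NBT (St MerAt Mer EqM Den merAt_of_analyticAt)
open Pool.Agent.MP_ae5b4e_an_NB2 (Sys)
open Pool.Agent.MP_ae5b4e_an_PB (DFU DKU RegF Base)
open scoped ComplexConjugate

/-- deep points -/
def Dp (v : ℂ → ℝ) (h R : ℝ) (z ρ : ℂ) : Prop :=
  0 < ‖ρ‖ ∧ ‖ρ‖ < R ∧ (ρ * z).im < -v ρ ∧ ‖ρ * z‖ < h

variable {Y : Sys} {h R C0 x0 : ℝ} {v : ℂ → ℝ} {G L : ℂ × ℂ → ℂ}

theorem dp_mem {z ρ : ℂ} (hd : Dp v h R z ρ) : cz x0 h (z, ρ) ∈ DFU v h R := by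
  obtain ⟨h1, h2, h3, h4⟩ := hd
  have e1 : ((x0:ℂ) + (h:ℂ) * I + ρ * z).im = h + (ρ * z).im := by
    rw [add_im, add_im, ofReal_im, im_ofReal_mul, I_im, mul_one, zero_add]
  have h5 := abs_le.1 ((abs_im_le_norm (ρ * z)).trans h4.le)
  have h6 := (abs_im_le_norm (ρ * z)).trans_lt h4
  have h7 := abs_lt.1 h6
  refine ⟨h2, ?_, ?_⟩
  · change 0 < ((x0:ℂ) + (h:ℂ) * I + ρ * z).im
    rw [e1]
    linarith
  · change ((x0:ℂ) + (h:ℂ) * I + ρ * z).im < h - v ρ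
    rw [e1]
    linarith

theorem dp_convex (ρ : ℂ) : Convex ℝ {z | Dp v h R z ρ} := by
  intro z hz w hw a b ha hb hab
  obtain ⟨h1, h2, h3, h4⟩ := hz
  obtain ⟨_, _, k3, k4⟩ := hw
  have e1 : ρ * (a • z + b • w) = a • (ρ * z) + b • (ρ * w) := by
    simp only [real_smul]
    ring
  refine ⟨h1, h2, ?_, ?_⟩
  · rw [e1, add_im, smul_im, smul_im]
    exact convex_Iio (-v ρ) h3 k3 ha hb hab
  · rw [e1, ← mem_ball_zero_iff]
    exact convex_ball (0:ℂ) h (mem_ball_zero_iff.2 h4) (mem_ball_zero_iff.2 k4) ha hb hab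

theorem fz_mer (hB : Base Y h R C0 v G L) (m : Mob) {z ρ : ℂ} (hd : Dp v h R z ρ) :
    MerAt (Fz G x0 h m) (z, ρ) := by
  exact merAt_mob m (merAt_cz (norm_pos_iff.1 hd.1) (hB.merG _ (dp_mem hd)))

private theorem AsB_W_conv (h R : ℝ) :
    Convex ℝ {p : ℂ × ℂ | 0 < p.1.im ∧ p.1.im < h / 2 ∧ ‖p.2‖ < R} := by
  intro x hx y hy a b ha hb hab
  obtain ⟨h1, h2, h3⟩ := hx
  obtain ⟨k1, k2, k3⟩ := hy
  have e1 : (a • x + b • y).1.im = a • x.1.im + b • y.1.im := by simp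
  have e2 : (a • x + b • y).2 = a • x.2 + b • y.2 := by simp
  refine ⟨?_, ?_, ?_⟩
  · rw [e1]
    exact convex_Ioi (0:ℝ) h1 k1 ha hb hab
  · rw [e1]
    exact convex_Iio (h / 2) h2 k2 ha hb hab
  · rw [e2, ← mem_ball_zero_iff]
    exact convex_ball (0:ℂ) R (mem_ball_zero_iff.2 h3) (mem_ball_zero_iff.2 k3) ha hb hab

private theorem AsB_W_open (h R : ℝ) :
    IsOpen {p : ℂ × ℂ | 0 < p.1.im ∧ p.1.im < h / 2 ∧ ‖p.2‖ < R} := by
  have h1 : Continuous fun p : ℂ × ℂ => p.1.im := by fun_prop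
  have h2 : Continuous fun p : ℂ × ℂ => ‖p.2‖ := by fun_prop
  exact (isOpen_lt continuous_const h1).inter ((isOpen_lt h1 continuous_const).inter
    (isOpen_lt h2 continuous_const))

private theorem AsB_W_DKU (hB : Base Y h R C0 v G L) {p : ℂ × ℂ}
    (hp : p ∈ {p : ℂ × ℂ | 0 < p.1.im ∧ p.1.im < h / 2 ∧ ‖p.2‖ < R}) : p ∈ DKU v h R := by
  obtain ⟨h1, h2, h3⟩ := hp
  have h4 := hB.half p.2 (mem_ball_zero_iff.2 h3)
  exact ⟨h3, h1, by linarith⟩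

private theorem AsB_W_DFU (hB : Base Y h R C0 v G L) {p : ℂ × ℂ}
    (hp : p ∈ {p : ℂ × ℂ | 0 < p.1.im ∧ p.1.im < h / 2 ∧ ‖p.2‖ < R}) : p ∈ DFU v h R := by
  obtain ⟨h1, h2, h3⟩ := hp
  have h4 := hB.half p.2 (mem_ball_zero_iff.2 h3)
  have h5 := abs_nonneg p.2.im
  exact ⟨h3, h1, by linarith⟩

/-- the vertical segment below a point of the domain -/
private theorem AsB_seg {p : ℂ × ℂ} (hp : p ∈ DFU v h R) :
    ∃ U : Set (ℂ × ℂ), IsPreconnected U ∧ U ⊆ DFU v h R ∧ p ∈ U ∧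
      ∀ y : ℝ, 0 < y → y ≤ p.1.im → (((p.1.re : ℂ) + (y:ℂ) * I, p.2) : ℂ × ℂ) ∈ U := by
  have hc : Continuous fun y : ℝ => (((p.1.re : ℂ) + (y:ℂ) * I, p.2) : ℂ × ℂ) := by fun_prop
  refine ⟨(fun y : ℝ => (((p.1.re : ℂ) + (y:ℂ) * I, p.2) : ℂ × ℂ)) '' Ioc 0 p.1.im,
    isPreconnected_Ioc.image _ hc.continuousOn, ?_, ⟨p.1.im, ⟨hp.2.1, le_rfl⟩, ?_⟩, ?_⟩
  · rintro q ⟨y, hy, rfl⟩
    have e1 : ((p.1.re : ℂ) + (y:ℂ) * I).im = y := by
      rw [add_im, ofReal_im, im_ofReal_mul, I_im, mul_one, zero_add]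
    refine ⟨hp.1, ?_, ?_⟩
    · change 0 < ((p.1.re : ℂ) + (y:ℂ) * I).im
      rw [e1]
      exact hy.1
    · change ((p.1.re : ℂ) + (y:ℂ) * I).im < h - v p.2
      rw [e1]
      exact lt_of_le_of_lt hy.2 hp.2.2
  · change (((p.1.re : ℂ) + (p.1.im:ℂ) * I, p.2) : ℂ × ℂ) = p
    rw [re_add_im]
  · intro y hy0 hy1
    exact ⟨y, ⟨hy0, hy1⟩, rfl⟩

/-- equality propagates to the lower strip -/
private theorem AsB_down (hB : Base Y h R C0 v G L) {f g : ℂ × ℂ → ℂ} {p : ℂ × ℂ}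
    (hp : p ∈ DFU v h R) (hf : Mer f (DFU v h R)) (hg : Mer g (DFU v h R)) (hE : EqM f g p) :
    ∀ q ∈ {p : ℂ × ℂ | 0 < p.1.im ∧ p.1.im < h / 2 ∧ ‖p.2‖ < R}, EqM f g q := by
  have hh := hB.h_pos
  obtain ⟨U, hU, hUs, hpU, hUy⟩ := AsB_seg hp
  have hp1 : 0 < p.1.im := hp.2.1
  have hy0 : 0 < min p.1.im (h / 4) := lt_min hp1 (by linarith)
  have h1 := Mer.eqM hU (hf.mono hUs) (hg.mono hUs) hpU hE _
    (hUy (min p.1.im (h / 4)) hy0 (min_le_left _ _))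
  have hsub : {p : ℂ × ℂ | 0 < p.1.im ∧ p.1.im < h / 2 ∧ ‖p.2‖ < R} ⊆ DFU v h R :=
    fun q hq => AsB_W_DFU hB hq
  refine Mer.eqM (AsB_W_conv h R).isPreconnected (hf.mono hsub) (hg.mono hsub) ?_ h1
  have e1 : ((p.1.re : ℂ) + ((min p.1.im (h / 4) : ℝ):ℂ) * I).im = min p.1.im (h / 4) := by
    rw [add_im, ofReal_im, im_ofReal_mul, I_im, mul_one, zero_add]
  refine ⟨?_, ?_, hp.1⟩
  · change 0 < ((p.1.re : ℂ) + ((min p.1.im (h / 4) : ℝ):ℂ) * I).im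
    rw [e1]
    exact hy0
  · change ((p.1.re : ℂ) + ((min p.1.im (h / 4) : ℝ):ℂ) * I).im < h / 2
    rw [e1]
    exact lt_of_le_of_lt (min_le_right _ _) (by linarith)

/-- equality in the lower strip propagates upwards -/
private theorem AsB_up (hB : Base Y h R C0 v G L) {f g : ℂ × ℂ → ℂ} {p : ℂ × ℂ}
    (hp : p ∈ DFU v h R) (hf : Mer f (DFU v h R)) (hg : Mer g (DFU v h R))
    (hE : ∀ q ∈ {p : ℂ × ℂ | 0 < p.1.im ∧ p.1.im < h / 2 ∧ ‖p.2‖ < R}, EqM f g q) :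
    EqM f g p := by
  have hh := hB.h_pos
  obtain ⟨U, hU, hUs, hpU, hUy⟩ := AsB_seg hp
  have hp1 : 0 < p.1.im := hp.2.1
  have hy0 : 0 < min p.1.im (h / 4) := lt_min hp1 (by linarith)
  have e1 : ((p.1.re : ℂ) + ((min p.1.im (h / 4) : ℝ):ℂ) * I).im = min p.1.im (h / 4) := by
    rw [add_im, ofReal_im, im_ofReal_mul, I_im, mul_one, zero_add]
  refine Mer.eqM hU (hf.mono hUs) (hg.mono hUs)
    (hUy (min p.1.im (h / 4)) hy0 (min_le_left _ _)) (hE _ ⟨?_, ?_, hp.1⟩) _ hpU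
  · change 0 < ((p.1.re : ℂ) + ((min p.1.im (h / 4) : ℝ):ℂ) * I).im
    rw [e1]
    exact hy0
  · change ((p.1.re : ℂ) + ((min p.1.im (h / 4) : ℝ):ℂ) * I).im < h / 2
    rw [e1]
    exact lt_of_le_of_lt (min_le_right _ _) (by linarith)

private theorem AsB_an {f : ℂ → ℂ} {h : ℝ} (hf : ∀ z ∈ St (-h) h, DifferentiableAt ℂ f z) {t : ℂ}
    (ht : t ∈ St (-h) h) : AnalyticAt ℂ f t := by
  have h1 : DifferentiableOn ℂ f (St (-h) h) := fun z hz => (hf z hz).differentiableWithinAt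
  have h2 : IsOpen (St (-h) h) :=
    (isOpen_lt continuous_const continuous_im).inter (isOpen_lt continuous_im continuous_const)
  exact h1.analyticAt (h2.mem_nhds ht)

/-- the function is even in `ρ` -/
private theorem AsB_even (hB : Base Y h R C0 v G L) {p : ℂ × ℂ} (hp : p ∈ DFU v h R) :
    EqM G (fun q => G (q.1, -q.2)) p := by
  have hN : ∀ q : ℂ × ℂ, AnalyticAt ℂ ((Homeomorph.refl ℂ).prodCongr (Homeomorph.neg ℂ)) q := by
    intro q
    change AnalyticAt ℂ (fun q : ℂ × ℂ => (q.1, -q.2)) q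
    exact analyticAt_fst.prod analyticAt_snd.neg
  have hG2 : Mer (fun q => G (q.1, -q.2)) (DFU v h R) := by
    intro q hq
    have h1 : (q.1, -q.2) ∈ DFU v h R := by
      refine ⟨?_, hq.2.1, ?_⟩
      · change ‖-q.2‖ < R
        rw [norm_neg]
        exact hq.1
      · change q.1.im < h - v (-q.2)
        rw [hB.nv.even q.2 (mem_ball_zero_iff.2 hq.1)]
        exact hq.2.2
    exact MerAt.comp ((Homeomorph.refl ℂ).prodCongr (Homeomorph.neg ℂ)) (hN q) (hB.merG _ h1)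
  refine AsB_up hB hp hB.merG hG2 fun q hq => ?_
  have hq' : (q.1, -q.2) ∈ {p : ℂ × ℂ | 0 < p.1.im ∧ p.1.im < h / 2 ∧ ‖p.2‖ < R} := by
    refine ⟨hq.1, hq.2.1, ?_⟩
    change ‖-q.2‖ < R
    rw [norm_neg]
    exact hq.2.2
  have h1 := hB.eqG q (AsB_W_DKU hB hq)
  have h2 : EqM (fun q => G (q.1, -q.2))
      (fun q => Y.y2 (L (q.1, -q.2)) / Y.y1 (L (q.1, -q.2))) q :=
    EqM.comp ((Homeomorph.refl ℂ).prodCongr (Homeomorph.neg ℂ)) (hN q)
      (hB.eqG _ (AsB_W_DKU hB hq'))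
  refine h1.trans (EqM.trans (EqM.of_eventuallyEq ?_) h2.symm)
  filter_upwards [(AsB_W_open h R).mem_nhds hq] with x hx
  rw [hB.even x (AsB_W_DKU hB hx)]

theorem g_nonconst (hB : Base Y h R C0 v G L) {c d : ℂ} (hcd : c ≠ 0 ∨ d ≠ 0) {p : ℂ × ℂ}
    (hp : p ∈ DFU v h R) : ¬ EqM (fun q => c * G q + d) (fun _ => 0) p := by
  intro hE
  have hh := hB.h_pos
  have hmer : ∀ q ∈ DFU v h R, MerAt (fun q => c * G q + d) q := fun q hq =>
    ((merAt_of_analyticAt analyticAt_const).mul (hB.merG q hq)).add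
      (merAt_of_analyticAt analyticAt_const)
  have hz0 : ∀ q : ℂ × ℂ, MerAt (fun _ => (0:ℂ)) q := fun q =>
    merAt_of_analyticAt analyticAt_const
  have h1 := AsB_down hB hp hmer (fun q _ => hz0 q) hE
  -- a point at which `y1` does not vanish
  obtain ⟨t, ht0, ht1, hty⟩ : ∃ t : ℂ, 0 < t.im ∧ t.im < h / 2 ∧ Y.y1 t ≠ 0 := by
    by_contra hne
    push Not at hne
    have hopen : IsOpen {t : ℂ | 0 < t.im ∧ t.im < h / 2} :=
      (isOpen_lt continuous_const continuous_im).inter (isOpen_lt continuous_im continuous_const)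
    have hmem : ((h / 4 : ℝ) : ℂ) * I ∈ {t : ℂ | 0 < t.im ∧ t.im < h / 2} := by
      refine ⟨?_, ?_⟩
      · rw [im_ofReal_mul, I_im]
        linarith
      · rw [im_ofReal_mul, I_im]
        linarith
    have hev : Y.y1 =ᶠ[𝓝 (((h / 4 : ℝ) : ℂ) * I)] fun _ => 0 := by
      filter_upwards [hopen.mem_nhds hmem] with t ht
      exact hne t ht.1 ht.2
    have hSt : ((h / 4 : ℝ) : ℂ) * I ∈ St (-h) h := by
      refine ⟨?_, ?_⟩
      · rw [im_ofReal_mul, I_im]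
        linarith
      · rw [im_ofReal_mul, I_im]
        linarith
    have h2 := ((hB.on.d1 _ hSt).congr_of_eventuallyEq hev.symm).unique
      (hasDerivAt_const (((h / 4 : ℝ) : ℂ) * I) (0:ℂ))
    have h3 := hB.on.wr _ hSt
    have h4 := hev.self_of_nhds
    rw [h2, h4] at h3
    simp at h3
  have hStt : t ∈ St (-h) h := ⟨by linarith, by linarith⟩
  have hW : (t, (0:ℂ)) ∈ {p : ℂ × ℂ | 0 < p.1.im ∧ p.1.im < h / 2 ∧ ‖p.2‖ < R} :=
    ⟨ht0, ht1, by rw [norm_zero]; exact hB.R_pos⟩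
  have h2 : EqM (fun q => c * G q + d) (fun _ => 0) (t, 0) := h1 _ hW
  have hDK := AsB_W_DKU hB hW
  have h3 : EqM (fun q => c * G q + d) (fun q => c * (Y.y2 (L q) / Y.y1 (L q)) + d) (t, 0) :=
    EqM.map (fun w => c * w + d) (hB.eqG _ hDK)
  have hL0 : L (t, 0) = t := hB.zero t ht0 (by linarith)
  have hLan : AnalyticAt ℂ L (t, 0) := hB.an _ hDK
  have hy1 : AnalyticAt ℂ Y.y1 (L (t, 0)) := by
    rw [hL0]
    exact AsB_an (fun z hz => (hB.on.d1 z hz).differentiableAt) hStt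
  have hy2 : AnalyticAt ℂ Y.y2 (L (t, 0)) := by
    rw [hL0]
    exact AsB_an (fun z hz => (hB.on.d2 z hz).differentiableAt) hStt
  have h4 : AnalyticAt ℂ (fun q => c * (Y.y2 (L q) / Y.y1 (L q)) + d) (t, 0) := by
    refine (analyticAt_const.mul ((AnalyticAt.fun_comp hy2 hLan).div
      (AnalyticAt.fun_comp hy1 hLan) ?_)).add analyticAt_const
    rw [hL0]
    exact hty
  have h5 := (h3.symm.trans h2).eventuallyEq h4 analyticAt_const
  have hcont : ContinuousAt (fun s : ℂ => ((s, (0:ℂ)) : ℂ × ℂ)) t := by fun_prop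
  have ht2 : t.im < h := by linarith
  have hStev : ∀ᶠ s : ℂ in 𝓝 t, 0 < s.im ∧ s.im < h :=
    ((isOpen_lt continuous_const continuous_im).inter
      (isOpen_lt continuous_im continuous_const)).mem_nhds ⟨ht0, ht2⟩
  have hy1c : ContinuousAt Y.y1 t := (hB.on.d1 t hStt).continuousAt
  have h6 : (fun s => c * Y.y2 s + d * Y.y1 s) =ᶠ[𝓝 t] fun _ => 0 := by
    filter_upwards [hcont.eventually h5, hStev, hy1c.eventually_ne hty] with s hs hs2 hs3
    have h7 : c * (Y.y2 (L (s, 0)) / Y.y1 (L (s, 0))) + d = 0 := hs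
    rw [hB.zero s hs2.1 hs2.2] at h7
    field_simp at h7
    linear_combination h7
  have h7 : HasDerivAt (fun s => c * Y.y2 s + d * Y.y1 s) (c * Y.y2' t + d * Y.y1' t) t :=
    ((hB.on.d2 t hStt).const_mul c).add ((hB.on.d1 t hStt).const_mul d)
  have h8 : c * Y.y2' t + d * Y.y1' t = 0 :=
    (h7.congr_of_eventuallyEq h6.symm).unique (hasDerivAt_const t (0:ℂ))
  have h9 : c * Y.y2 t + d * Y.y1 t = 0 := h6.self_of_nhds
  have h10 := hB.on.wr t hStt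
  have hc0 : c = 0 := by
    linear_combination (-c) * h10 + Y.y1 t * h8 - Y.y1' t * h9
  have hd0 : d = 0 := by
    linear_combination (-d) * h10 + Y.y2' t * h9 - Y.y2 t * h8
  rcases hcd with h11 | h11
  · exact h11 hc0
  · exact h11 hd0

theorem fz_inv (hB : Base Y h R C0 v G L) (m : Mob) {z ρ : ℂ} (hd : Dp v h R z ρ) :
    EqM (fun q => m.inv.at (Fz G x0 h m q)) (Gz G x0 h) (z, ρ) := by
  have hP := dp_mem (x0 := x0) hd
  have hcd : m.c ≠ 0 ∨ m.d ≠ 0 := by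
    by_contra hne
    push Not at hne
    apply m.ne
    rw [hne.1, hne.2]
    ring
  have hmer : MerAt (fun q => m.c * G q + m.d) (cz x0 h (z, ρ)) :=
    ((merAt_of_analyticAt analyticAt_const).mul (hB.merG _ hP)).add
      (merAt_of_analyticAt analyticAt_const)
  have hz0 : MerAt (fun _ => (0:ℂ)) (cz x0 h (z, ρ)) := merAt_of_analyticAt analyticAt_const
  rcases hmer.eqM_or hz0 with h1 | ⟨B, hBd, h1⟩
  · exact absurd h1 (g_nonconst hB hcd hP)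
  · have h2 : EqM (fun q => m.inv.at (m.at (G q))) G (cz x0 h (z, ρ)) := by
      refine ⟨B, hBd, ?_⟩
      filter_upwards [h1] with q hq h0
      exact m.inv_at (hq h0)
    exact eqM_cz (norm_pos_iff.1 hd.1) h2

theorem fz_even (hB : Base Y h R C0 v G L) (m : Mob) {z ρ : ℂ} (hd : Dp v h R z ρ) :
    EqM (Fz G x0 h m) (fun p => Fz G x0 h m (-p.1, -p.2)) (z, ρ) := by
  have hP := dp_mem (x0 := x0) hd
  have h1 := AsB_even hB hP
  have h2 := EqM.map m.at (eqM_cz (x0 := x0) (norm_pos_iff.1 hd.1) h1)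
  have e1 : (fun p : ℂ × ℂ => Fz G x0 h m (-p.1, -p.2)) =
      fun q => m.at (G ((cz x0 h q).1, -(cz x0 h q).2)) := by
    funext p
    change m.at (G ((x0:ℂ) + (h:ℂ) * I + -p.2 * -p.1, -p.2)) =
      m.at (G ((x0:ℂ) + (h:ℂ) * I + p.2 * p.1, -p.2))
    rw [neg_mul_neg]
  rw [e1]
  exact h2

theorem reg_of (hB : Base Y h R C0 v G L) (m : Mob) {c q : ℝ} (hc : 0 < c) (hcR : c < R)
    (hq : c * |q| + v c < h) (hr : RegZ v (Fz G x0 h m) c q) :
    RegF v h R G (((x0 + c * q : ℝ) : ℂ) + ((h - v c : ℝ) : ℂ) * I, (c:ℂ)) := by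
  obtain ⟨N, hN, g, hg, hgE⟩ := hr
  set P : ℂ × ℂ := (((x0 + c * q : ℝ) : ℂ) + ((h - v c : ℝ) : ℂ) * I, (c:ℂ)) with hP
  have hc0 : (c:ℂ) ≠ 0 := by exact_mod_cast hc.ne'
  have hctP : ct x0 h P = ((q:ℂ) - ((v c / c : ℝ) : ℂ) * I, (c:ℂ)) := by
    rw [hP]
    unfold ct
    ext
    · change (((x0 + c * q : ℝ) : ℂ) + ((h - v c : ℝ) : ℂ) * I - (x0:ℂ) - (h:ℂ) * I) / (c:ℂ) =
        (q:ℂ) - ((v c / c : ℝ) : ℂ) * I
      push_cast
      field_simp
      ring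
    · rfl
  have hcc : ContinuousAt (ct x0 h) P := by
    change ContinuousAt (fun p : ℂ × ℂ => ((p.1 - (x0:ℂ) - (h:ℂ) * I) / p.2, p.2)) P
    refine ContinuousAt.prodMk (ContinuousAt.div (by fun_prop) (by fun_prop) ?_) (by fun_prop)
    exact hc0
  have hN1 : ∀ᶠ p in 𝓝 P, ct x0 h p ∈ N := by
    refine hcc.eventually ?_
    rw [hctP]
    exact hN
  have hN2 : ∀ᶠ p : ℂ × ℂ in 𝓝 P, p.2 ≠ 0 := continuous_snd.continuousAt.eventually_ne hc0
  have hN3 : ∀ᶠ p : ℂ × ℂ in 𝓝 P, ‖p.2‖ < R := by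
    have h1 : ContinuousAt (fun p : ℂ × ℂ => ‖p.2‖) P := by fun_prop
    refine h1.eventually_lt continuousAt_const ?_
    change ‖(c:ℂ)‖ < R
    rw [norm_real, Real.norm_of_nonneg hc.le]
    exact hcR
  have hN4 : ∀ᶠ p : ℂ × ℂ in 𝓝 P, ‖p.1 - (x0:ℂ) - (h:ℂ) * I‖ < h := by
    have h1 : ContinuousAt (fun p : ℂ × ℂ => ‖p.1 - (x0:ℂ) - (h:ℂ) * I‖) P := by fun_prop
    refine h1.eventually_lt continuousAt_const ?_
    change ‖((x0 + c * q : ℝ) : ℂ) + ((h - v c : ℝ) : ℂ) * I - (x0:ℂ) - (h:ℂ) * I‖ < h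
    have e1 : ((x0 + c * q : ℝ) : ℂ) + ((h - v c : ℝ) : ℂ) * I - (x0:ℂ) - (h:ℂ) * I =
        ((c * q : ℝ) : ℂ) + ((-v c : ℝ) : ℂ) * I := by
      push_cast
      ring
    rw [e1]
    have hcb : (c:ℂ) ∈ ball (0:ℂ) R := by
      rw [mem_ball_zero_iff, norm_real, Real.norm_of_nonneg hc.le]
      exact hcR
    have hv := hB.nv.low c hcb
    rw [ofReal_im, abs_zero, neg_zero] at hv
    calc ‖((c * q : ℝ) : ℂ) + ((-v c : ℝ) : ℂ) * I‖
        ≤ ‖((c * q : ℝ) : ℂ)‖ + ‖((-v c : ℝ) : ℂ) * I‖ := norm_add_le _ _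
      _ = c * |q| + v c := by
        rw [norm_mul, norm_I, mul_one, norm_real, norm_real, Real.norm_eq_abs, Real.norm_eq_abs,
          abs_mul, abs_neg, abs_of_pos hc, abs_of_nonneg hv]
      _ < h := hq
  refine ⟨{p | ct x0 h p ∈ N ∧ p.2 ≠ 0 ∧ ‖p.2‖ < R ∧ ‖p.1 - (x0:ℂ) - (h:ℂ) * I‖ < h}, ?_,
    fun p => m.inv.at (g (ct x0 h p)), ?_, ?_⟩
  · filter_upwards [hN1, hN2, hN3, hN4] with p k1 k2 k3 k4
    exact ⟨k1, k2, k3, k4⟩
  · rintro p ⟨k1, k2, k3, k4⟩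
    exact merAt_ct (t := p.1) (ρ := p.2) k2 (merAt_mob m.inv (hg _ k1))
  · rintro p ⟨⟨k1, k2, k3, k4⟩, k5⟩
    have hm1 : (ct x0 h p).2 * (ct x0 h p).1 = p.1 - (x0:ℂ) - (h:ℂ) * I := by
      change p.2 * ((p.1 - (x0:ℂ) - (h:ℂ) * I) / p.2) = _
      field_simp
    have him : (p.1 - (x0:ℂ) - (h:ℂ) * I).im = p.1.im - h := by
      rw [sub_im, sub_im, ofReal_im, im_ofReal_mul, I_im, mul_one, sub_zero]
    have hd : Dp v h R (ct x0 h p).1 (ct x0 h p).2 := by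
      refine ⟨norm_pos_iff.2 k2, k3, ?_, ?_⟩
      · rw [hm1, him]
        have h1 := k5.2.2
        change p.1.im - h < -v p.2
        linarith
      · rw [hm1]
        exact k4
    have h1 : EqM g (Fz G x0 h m) (ct x0 h p) := hgE _ k1 hd.2.2.1
    have h2 : EqM (fun q => m.inv.at (g q)) (Gz G x0 h) (ct x0 h p) :=
      (EqM.map m.inv.at h1).trans (fz_inv hB m hd)
    have h3 := eqM_ct (x0 := x0) (h := h) (t := p.1) (ρ := p.2) k2 h2
    refine h3.trans (EqM.of_eventuallyEq ?_)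
    filter_upwards [continuous_snd.continuousAt.eventually_ne k2] with q hq
    change G (cz x0 h (ct x0 h q)) = G q
    rw [cz_ct (t := q.1) (ρ := q.2) hq]

end Pool.Agent.MP_ae5b4e_an_N4
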