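import Pool.Agent.Lib.MP_ae5b4e_an_N4.Itf
import Pool.Agent.Lib.MP_ae5b4e_an_NBT.Slice

/-!
# N4, module AsC: the two variable form of `no_reg`

`hH` is the conclusion of `no_reg`.
Suppose `f` is given.  `B = ball (z₁ + 2) (rr k X)`; `E = fun p => cexp (G (OU p).2)` is analytic at
every
`(z, ρ₀)` with `z ∈ B`, `(z - z₁).im < - e^{-k}` (`han`: `Adn k z₁ z` since `rr k X ≤ 1 / 32`; `G`
is analytic on
the open set `Bx`, `Gd.dG`).
The point `z* = z₁ + 2 - i rr / 2` is such a point: `rr k X > 2 e^{-k}` because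
`Lk k X ≤ 10 (log k + 10 ^ 10 k + 10)` (`Par.hX2`: `X / k ≤ k`) and `e^k` is larger.
`SlAt E (z*, ρ₀)` (`slAt_of_analyticAt`), `SlAt.congr` for `f`; `slAt_of_mer` on the ball `B`: `SlAt
f (z, ρ₀)` for
all `z ∈ B`; so `sl f ρ₀` is `MeromorphicOn B` (`SlAt.meromorphicAt`), and for `z ∈ B` with
`(z - z₁).im < - e^{-k}`: `sl f ρ₀ z = sl E ρ₀ z = E (z, ρ₀)` (`sl_congr` at the point itself:
`Filter.Eventually.self_of_nhds`; `sl_of_analyticAt`).
And `OU (z, ρ₀) = T (OU (z - 1, ρ₀)) = T (T (OU (z - 2, ρ₀)))`, `T = stp ellu …` (`Chn.step`: the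
real parts are
`> - X`), `OU (z - 2, ρ₀) = OP (z - 2, ρ₀)` (`heq`: `z - 2 ∈ Zn k X (z₁.re + 1 / 2)` as `|z - 2 -
z₁| < 1 / 32`,
`IsZ1.near`).  So `sl f ρ₀` contradicts `hH`.
-/

set_option autoImplicit false

noncomputable section

namespace Pool.Agent.MP_ae5b4e_an_N4

open Complex Set Filter Topology Metric
open Pool.Agent.MP_ae5b4e_an_NBT (MerAt Mer EqM SlAt sl slAt_of_analyticAt slAt_of_mer sl_congr
  sl_of_analyticAt)

private theorem AsC_isOpen_Bx (s1 s2 : ℝ) : IsOpen (Bx s1 s2) := by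
  have h1 : Bx s1 s2 = {σ : ℂ | s1 < σ.re} ∩ {σ : ℂ | σ.re < s2} ∩
      {σ : ℂ | -Real.pi + aa < σ.im} ∩ {σ : ℂ | σ.im < -aa} := by
    ext σ
    simp only [Bx, mem_ofPred_eq, mem_inter_iff]
    tauto
  rw [h1]
  exact (((isOpen_lt continuous_const continuous_re).inter
    (isOpen_lt continuous_re continuous_const)).inter
    (isOpen_lt continuous_const continuous_im)).inter
    (isOpen_lt continuous_im continuous_const)

private theorem AsC_rr {k ν X δ η Dl : ℝ} (hP : Par k ν X δ η Dl) :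
    0 < rr k X ∧ rr k X ≤ 1 / 32 ∧ 2 * Real.exp (-k) < rr k X := by
  have hk := hP.hk
  have hX := hP.hX
  have hX2 := hP.hX2
  have hk0 : (0:ℝ) < k := by linarith
  have hl0 : 0 ≤ Real.log k := Real.log_nonneg (by linarith)
  have hl1 : Real.log k ≤ k := Real.log_le_self hk0.le
  have hXk0 : 0 ≤ X / k := div_nonneg (by linarith) hk0.le
  have hXk1 : X / k ≤ k := by
    rw [div_le_iff₀ hk0]
    linarith [sq k, hX2, pow_two k]
  have hL0 : 0 ≤ Lk k X := by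
    unfold Lk
    positivity
  have hL1 : Lk k X + 1 ≤ 10 ^ 12 * k := by
    unfold Lk
    linarith
  have hr0 : 0 < rr k X := by
    unfold rr
    positivity
  have hr1 : rr k X ≤ 1 / 32 := by
    unfold rr
    rw [div_le_div_iff₀ (by positivity) (by norm_num)]
    linarith
  refine ⟨hr0, hr1, ?_⟩
  have he : 1 + k + k ^ 2 / 2 ≤ Real.exp k := Real.quadratic_le_exp_of_nonneg hk0.le
  have he2 : 64 * (Lk k X + 1) < Real.exp k := by
    have h1 : 64 * (10 ^ 12 * k) < 1 + k + k ^ 2 / 2 := by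
      nlinarith
    linarith
  unfold rr
  rw [Real.exp_neg, lt_div_iff₀ (by positivity)]
  have h2 := Real.exp_pos k
  have h3 : 2 * (Real.exp k)⁻¹ * (32 * (Lk k X + 1)) = 64 * (Lk k X + 1) / Real.exp k := by
    field_simp
    ring
  rw [h3, div_lt_one h2]
  exact he2

private theorem AsC_z1 {k ν X δ η Dl : ℝ} {z₁ : ℂ} (hP : Par k ν X δ η Dl)
    (hz : ‖z₁ + ν / 2‖ ≤ 3 * δ * ν) :
    -X + 10 ≤ z₁.re ∧ z₁.re ≤ -1 ∧ |z₁.im| + 1 / 32 ≤ e6 * k := by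
  have hk := hP.hk
  have hX := hP.hX
  have hν1 := hP.ν1
  have hν2 := hP.ν2
  have hδ0 := hP.δ0
  have hδ1 := hP.δ1
  have h1 : 3 * δ * ν ≤ 3 * (1 / 10 ^ 12) * (2 * k + 1) := by
    have h2 : δ * ν ≤ 1 / 10 ^ 12 * (2 * k + 1) := by
      apply mul_le_mul hδ1 hν2 (by linarith) (by norm_num)
    linarith
  have h2 := (abs_re_le_norm (z₁ + ν / 2)).trans hz
  have h3 := (abs_im_le_norm (z₁ + ν / 2)).trans hz
  have e1 : (z₁ + ν / 2).re = z₁.re + ν / 2 := by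
    rw [add_re]
    congr 1
    rw [show (ν : ℂ) / 2 = ((ν / 2 : ℝ) : ℂ) by push_cast; ring, ofReal_re]
  have e2 : (z₁ + ν / 2).im = z₁.im := by
    rw [add_im, show (ν : ℂ) / 2 = ((ν / 2 : ℝ) : ℂ) by push_cast; ring, ofReal_im, add_zero]
  rw [e1] at h2
  rw [e2] at h3
  have h4 := abs_le.1 h2
  unfold e6
  refine ⟨by linarith, by linarith, by linarith⟩

theorem no_reg2 {k ν X δ η Dl s1 s2 : ℝ} {G n g : ℂ → ℂ} {OP OU : ℂ × ℂ → ℂ × ℂ} {ρ₀ z₁ : ℂ}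
    (hC : Chn k ν X δ η Dl s1 s2 G n g ellp OP ρ₀)
    (hC' : Chn k ν X δ η Dl s1 s2 G n g ellu OU ρ₀) (hz : IsZ1 k ν X δ OP ρ₀ z₁)
    (hH : ¬ ∃ f : ℂ → ℂ, MeromorphicOn f (ball (z₁ + 2) (rr k X)) ∧
      ∀ z ∈ ball (z₁ + 2) (rr k X), (z - z₁).im < -Real.exp (-k) →
        f z = cexp (G (stp ellu (Bx s1 s2) G g
          (stp ellu (Bx s1 s2) G g (OP (z - 2, ρ₀)))).2))
    (heq : ∀ z ∈ Zn k X (z₁.re + 1 / 2), (z - z₁).im ≤ 1 / 8 → OU =ᶠ[𝓝 (z, ρ₀)] OP)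
    (han : ∀ z : ℂ, -X - 1 ≤ z.re → Adn k z₁ z →
      AnalyticAt ℂ OU (z, ρ₀) ∧ (OU (z, ρ₀)).2 ∈ Bx s1 s2) :
    ¬ ∃ f : ℂ × ℂ → ℂ, (∀ z ∈ ball (z₁ + 2) (rr k X), MerAt f (z, ρ₀)) ∧
      ∀ z ∈ ball (z₁ + 2) (rr k X), (z - z₁).im < -Real.exp (-k) →
        EqM f (fun p => cexp (G (OU p).2)) (z, ρ₀) := by
  rintro ⟨f, hf, hfe⟩
  apply hH
  obtain ⟨r0, r1, r2⟩ := AsC_rr hC.par
  obtain ⟨m1, m2, m3⟩ := AsC_z1 hC.par hz.near
  have hX := hC.par.hX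
  have hk := hC.par.hk
  -- real and imaginary parts on the ball
  have hb : ∀ z ∈ ball (z₁ + 2) (rr k X), z₁.re + 2 - 1 / 32 ≤ z.re ∧
      z.re ≤ z₁.re + 2 + 1 / 32 ∧ |z.im - z₁.im| ≤ 1 / 32 := by
    intro z hz
    rw [mem_ball, dist_eq_norm] at hz
    have h1 := (abs_re_le_norm (z - (z₁ + 2))).trans (hz.le.trans r1)
    have h2 := (abs_im_le_norm (z - (z₁ + 2))).trans (hz.le.trans r1)
    have e1 : (z - (z₁ + 2)).re = z.re - (z₁.re + 2) := by simp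
    have e2 : (z - (z₁ + 2)).im = z.im - z₁.im := by simp
    rw [e1] at h1
    rw [e2] at h2
    have h3 := abs_le.1 h1
    exact ⟨by linarith, by linarith, h2⟩
  have hE : ∀ z ∈ ball (z₁ + 2) (rr k X), (z - z₁).im < -Real.exp (-k) →
      AnalyticAt ℂ (fun p => cexp (G (OU p).2)) (z, ρ₀) := by
    intro z hz hzi
    obtain ⟨a1, a2, a3⟩ := hb z hz
    have a4 := abs_le.1 a3
    obtain ⟨h1, h2⟩ := han z (by linarith)
      ⟨by linarith, by rw [sub_im]; linarith, hzi.le⟩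
    have h3 : AnalyticAt ℂ G (OU (z, ρ₀)).2 := by
      have h4 : DifferentiableOn ℂ G (Bx s1 s2) := fun σ hσ =>
        (hC.gd.dG σ hσ).differentiableAt.differentiableWithinAt
      exact h4.analyticAt ((AsC_isOpen_Bx s1 s2).mem_nhds h2)
    have h5 : AnalyticAt ℂ (fun p => (OU p).2) (z, ρ₀) :=
      AnalyticAt.fun_comp (g := Prod.snd) (f := OU) analyticAt_snd h1
    exact (AnalyticAt.fun_comp (g := G) (f := fun p => (OU p).2) h3 h5).cexp
  -- the point at which the slice exists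
  have hzs : z₁ + 2 - ((rr k X / 2 : ℝ) : ℂ) * I ∈ ball (z₁ + 2) (rr k X) := by
    have e1 : z₁ + 2 - ((rr k X / 2 : ℝ) : ℂ) * I - (z₁ + 2) =
        -(((rr k X / 2 : ℝ) : ℂ) * I) := by ring
    rw [mem_ball, dist_eq_norm, e1, norm_neg, norm_mul, norm_I, mul_one, norm_real,
      Real.norm_of_nonneg (by linarith)]
    linarith
  have hzi : (z₁ + 2 - ((rr k X / 2 : ℝ) : ℂ) * I - z₁).im < -Real.exp (-k) := by
    have e1 : (z₁ + 2 - ((rr k X / 2 : ℝ) : ℂ) * I - z₁).im = -(rr k X / 2) := by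
      have e2 : z₁ + 2 - ((rr k X / 2 : ℝ) : ℂ) * I - z₁ =
          2 - ((rr k X / 2 : ℝ) : ℂ) * I := by ring
      rw [e2, sub_im, im_ofReal_mul, I_im, mul_one, im_ofNat, zero_sub]
    rw [e1]
    linarith
  have hs1 : SlAt f (z₁ + 2 - ((rr k X / 2 : ℝ) : ℂ) * I, ρ₀) :=
    (slAt_of_analyticAt (hE _ hzs hzi)).congr (hfe _ hzs hzi).symm
  have hs2 := slAt_of_mer (convex_ball (z₁ + 2) (rr k X)).isPreconnected hf hzs hs1
  refine ⟨sl f ρ₀, fun z hz => (hs2 z hz).meromorphicAt, fun z hz hzi => ?_⟩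
  rw [(sl_congr (hfe z hz hzi)).self_of_nhds, sl_of_analyticAt (hE z hz hzi)]
  obtain ⟨a1, a2, a3⟩ := hb z hz
  have a4 := abs_le.1 a3
  have h1 := hC'.step z (by linarith) ρ₀
  have h2 := hC'.step (z - 1) (by rw [sub_re, one_re]; linarith) ρ₀
  have e3 : z - 1 - 1 = z - 2 := by ring
  rw [e3] at h2
  have h3 : OU (z - 2, ρ₀) = OP (z - 2, ρ₀) := by
    have e4 : (z - 2).re = z.re - 2 := by simp
    have e5 : (z - 2).im = z.im := by simp
    refine (heq (z - 2) ⟨?_, ?_, ?_⟩ ?_).self_of_nhds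
    · rw [e4]
      linarith
    · rw [e4]
      linarith
    · rw [e5]
      have h5 := abs_sub_abs_le_abs_sub z.im z₁.im
      linarith
    · rw [sub_im, e5]
      linarith
  show cexp (G (OU (z, ρ₀)).2) = _
  rw [h1, h2, h3]

end Pool.Agent.MP_ae5b4e_an_N4
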