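import Pool.Agent.Lib.MP_ae5b4e_an_N4.ChD

/-!
# N4, module Gin: near affine maps, the function `G` on the box

* `near_inv` (`κ < 1`, `a ≠ 0`): for `w ∈ closedBall (f c) ((1 - κ) ‖a‖ r)` the map
  `T z = z + (w - f z) / a` maps `closedBall c r` into itself
  (`T z - c = (w - f c) / a - (f z - f c - a (z - c)) / a`, norm `≤ (1 - κ) r + κ r`) and is a contraction
  with constant `κ`; its fixed point is a solution of `f z = w`.  (Mathlib: `ContractingWith` on the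
  complete subtype `closedBall c r`.)
* `G_aff`: the function `G σ - ν σ` has the derivative `n σ - ν`, of norm `≤ η ν`, on the convex set
  (`Convex.norm_image_sub_le_of_norm_hasDerivWithin_le`).
* `G_inj`: `‖G σ - G σ'‖ ≥ (1 - η) ν ‖σ - σ'‖`.
* `G_solve`: put `c = σ + w / ν`, `r = 2 η ‖w‖ / ν`; `near_inv`-type contraction
  `T τ = τ + (G σ + w - G τ) / ν` on `closedBall c r`: `T τ - c = (G σ - G τ - ν (σ - τ)) / ν`, of norm
  `≤ η ‖σ - τ‖ ≤ η (‖w‖ / ν + r) ≤ r` as `η ≤ 1 / 2`; contraction constant `η`.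
  `Function.invFunOn G (Bx s1 s2) (G σ')= σ'` for `σ' ∈ Bx s1 s2`, by injectivity.
* `inv_an`: `n σ' ≠ 0`, `G` is analytic with nonzero derivative and injective on the open set `Bx`:
  local inverse (`HasStrictDerivAt.localInverse` / inverse function theorem: the local inverse `ψ`
  is analytic at `G σ'`, with values near `σ'`, hence in `Bx`, so `ψ = invFunOn G Bx` near
  `G σ'`).
-/

set_option autoImplicit false

noncomputable section

namespace Pool.Agent.MP_ae5b4e_an_N4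

open Complex Set Filter Topology Metric

variable {ν η s1 s2 : ℝ} {G n g : ℂ → ℂ}

theorem near_inv {f : ℂ → ℂ} {c a : ℂ} {r κ : ℝ} (hr : 0 ≤ r) (ha : a ≠ 0) (hκ : 0 ≤ κ) (hκ1 : κ < 1)
    (h : ∀ z ∈ closedBall c r, ∀ w ∈ closedBall c r, ‖f z - f w - a * (z - w)‖ ≤ κ * ‖a‖ * ‖z - w‖) :
    closedBall (f c) ((1 - κ) * ‖a‖ * r) ⊆ f '' closedBall c r := by
  let f' : ℂ →L[ℂ] ℂ := ContinuousLinearMap.mul ℂ ℂ a
  have hf' : ∀ z, f' z = a * z := fun z => rfl
  let g : f'.NonlinearRightInverse :=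
    { toFun := fun w => a⁻¹ * w
      nnnorm := ‖a‖₊⁻¹
      bound' := fun w => by
        rw [norm_mul, norm_inv]
        exact le_of_eq rfl
      right_inv' := fun w => by
        rw [hf', mul_inv_cancel_left₀ ha] }
  have hA : ApproximatesLinearOn f f' (closedBall c r) (⟨κ, hκ⟩ * ‖a‖₊) := by
    intro z hz w hw
    exact h z hz w hw
  have h1 := hA.surjOn_closedBall_of_nonlinearRightInverse g hr subset_rfl
  have h2 : ((g.nnnorm : ℝ)⁻¹ - ((⟨κ, hκ⟩ * ‖a‖₊ : NNReal) : ℝ)) * r = (1 - κ) * ‖a‖ * r := by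
    change (((‖a‖₊⁻¹ : NNReal) : ℝ)⁻¹ - κ * ‖a‖) * r = (1 - κ) * ‖a‖ * r
    rw [NNReal.coe_inv, inv_inv, coe_nnnorm]
    ring
  rw [h2] at h1
  exact h1

theorem isOpen_Bx : IsOpen (Bx s1 s2) := by
  exact (isOpen_lt continuous_const Complex.continuous_re).inter
    ((isOpen_lt Complex.continuous_re continuous_const).inter
      ((isOpen_lt continuous_const Complex.continuous_im).inter
        (isOpen_lt Complex.continuous_im continuous_const)))

theorem convex_Bx : Convex ℝ (Bx s1 s2) := by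
  have hre : IsLinearMap ℝ Complex.re := ⟨Complex.add_re, fun c x => by simp⟩
  have him : IsLinearMap ℝ Complex.im := ⟨Complex.add_im, fun c x => by simp⟩
  exact (convex_halfSpace_gt hre s1).inter ((convex_halfSpace_lt hre s2).inter
    ((convex_halfSpace_gt him (-Real.pi + aa)).inter (convex_halfSpace_lt him (-aa))))

theorem G_an (hg : Gd ν η s1 s2 G n g) {σ : ℂ} (h : σ ∈ Bx s1 s2) : AnalyticAt ℂ G σ := by
  have h1 : DifferentiableOn ℂ G (Bx s1 s2) := fun z hz =>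
    (hg.dG z hz).differentiableAt.differentiableWithinAt
  exact (h1.analyticOnNhd isOpen_Bx) σ h

theorem n_an (hg : Gd ν η s1 s2 G n g) {σ : ℂ} (h : σ ∈ Bx s1 s2) : AnalyticAt ℂ n σ := by
  exact (hg.dn.analyticOnNhd isOpen_Bx) σ h

private theorem Gin_n_ne (hg : Gd ν η s1 s2 G n g) (hν : 0 < ν) (hη : η < 1) {σ : ℂ}
    (h : σ ∈ Bx s1 s2) : n σ ≠ 0 := by
  intro h0
  have h1 := hg.nc σ h
  rw [h0, zero_sub, norm_neg, Complex.norm_real, Real.norm_eq_abs, abs_of_pos hν] at h1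
  nlinarith

/-- `g = (1 - n' / n) / n` near every point of the box -/
theorem g_an (hg : Gd ν η s1 s2 G n g) (hν : 0 < ν) (hη : η < 1) {σ : ℂ} (h : σ ∈ Bx s1 s2) :
    AnalyticAt ℂ g σ := by
  have hn := n_an hg h
  have hn0 := Gin_n_ne hg hν hη h
  have h1 : AnalyticAt ℂ (fun z => (1 - deriv n z / n z) / n z) σ :=
    (analyticAt_const.sub (hn.deriv.div hn hn0)).div hn hn0
  refine h1.congr ?_
  filter_upwards [isOpen_Bx.mem_nhds h] with z hz
  have h2 := Gin_n_ne hg hν hη hz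
  rw [← hg.geq z hz, mul_div_cancel_left₀ _ h2]

theorem G_aff (hg : Gd ν η s1 s2 G n g) {σ σ' : ℂ} (h : σ ∈ Bx s1 s2)
    (h' : σ' ∈ Bx s1 s2) : ‖G σ - G σ' - ν * (σ - σ')‖ ≤ η * ν * ‖σ - σ'‖ := by
  have h1 := Convex.norm_image_sub_le_of_norm_hasDerivWithin_le (𝕜 := ℂ)
    (f := fun z => G z - ν * z) (f' := fun z => n z - ν) (C := η * ν) (s := Bx s1 s2)
    (x := σ') (y := σ) (fun z hz => ?_) (fun z hz => hg.nc z hz) convex_Bx h' h
  · have h2 : G σ - G σ' - ν * (σ - σ') = G σ - ν * σ - (G σ' - ν * σ') := by ring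
    rw [h2]
    exact h1
  · have h3 : HasDerivAt (fun z : ℂ => (ν : ℂ) * z) (ν : ℂ) z := by
      simpa using (hasDerivAt_id z).const_mul (ν : ℂ)
    exact ((hg.dG z hz).sub h3).hasDerivWithinAt

theorem G_inj (hg : Gd ν η s1 s2 G n g) (hν : 0 < ν) (hη : η < 1) : InjOn G (Bx s1 s2) := by
  intro σ h σ' h' heq
  have h1 := G_aff hg h h'
  rw [heq, sub_self, zero_sub, norm_neg, norm_mul, Complex.norm_real, Real.norm_eq_abs,
    abs_of_pos hν] at h1
  have h2 : ‖σ - σ'‖ ≤ 0 := by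
    by_contra hcon
    rw [not_le] at hcon
    have h3 : η * (ν * ‖σ - σ'‖) < 1 * (ν * ‖σ - σ'‖) :=
      mul_lt_mul_of_pos_right hη (mul_pos hν hcon)
    linarith
  exact sub_eq_zero.1 (norm_le_zero_iff.1 h2)

theorem inv_eq (hg : Gd ν η s1 s2 G n g) (hν : 0 < ν) (hη : η < 1) {σ : ℂ} (h : σ ∈ Bx s1 s2) :
    Function.invFunOn G (Bx s1 s2) (G σ) = σ := by
  exact (G_inj hg hν hη).leftInvOn_invFunOn h

theorem G_solve (hg : Gd ν η s1 s2 G n g) (hν : 0 < ν) (hη0 : 0 ≤ η) (hη : η ≤ 1 / 2) {σ w : ℂ}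
    (h : σ ∈ Bx s1 s2) (hb : closedBall (σ + w / ν) (2 * η * ‖w‖ / ν) ⊆ Bx s1 s2) :
    ∃ σ' ∈ closedBall (σ + w / ν) (2 * η * ‖w‖ / ν), G σ' = G σ + w ∧
      Function.invFunOn G (Bx s1 s2) (G σ + w) = σ' := by
  have hνc : (ν : ℂ) ≠ 0 := by
    exact_mod_cast hν.ne'
  have hη1 : η < 1 := by linarith
  have hr : 0 ≤ 2 * η * ‖w‖ / ν := by positivity
  have hnν : ‖(ν : ℂ)‖ = ν := by
    rw [Complex.norm_real, Real.norm_eq_abs, abs_of_pos hν]
  have hc : σ + w / ν ∈ Bx s1 s2 := hb (mem_closedBall_self hr)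
  have h1 := near_inv (f := G) (c := σ + w / ν) (a := ν) hr hνc hη0 hη1
    (fun z hz z' hz' => by
      rw [hnν]
      exact G_aff hg (hb hz) (hb hz'))
  have h2 : G σ + w ∈ closedBall (G (σ + w / ν)) ((1 - η) * ‖(ν : ℂ)‖ * (2 * η * ‖w‖ / ν)) := by
    rw [mem_closedBall, dist_eq_norm, hnν]
    have h3 := G_aff hg h hc
    have h4 : G σ - G (σ + w / ν) - ν * (σ - (σ + w / ν)) = G σ + w - G (σ + w / ν) := by
      field_simp
      ring
    rw [h4] at h3
    have h5 : ‖σ - (σ + w / ν)‖ = ‖w‖ / ν := by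
      have : σ - (σ + w / ν) = -(w / ν) := by ring
      rw [this, norm_neg, norm_div, hnν]
    rw [h5] at h3
    refine h3.trans ?_
    have h6 : η * ν * (‖w‖ / ν) = η * ‖w‖ := by
      field_simp
    have h7 : (1 - η) * ν * (2 * η * ‖w‖ / ν) = (1 - η) * 2 * (η * ‖w‖) := by
      field_simp
    rw [h6, h7]
    have h8 : 0 ≤ η * ‖w‖ := mul_nonneg hη0 (norm_nonneg w)
    nlinarith
  obtain ⟨σ', hσ', h3⟩ := h1 h2
  refine ⟨σ', hσ', h3, ?_⟩
  rw [← h3]
  exact inv_eq hg hν hη1 (hb hσ')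

theorem inv_an (hg : Gd ν η s1 s2 G n g) (hν : 0 < ν) (hη : η < 1) {σ : ℂ} (h : σ ∈ Bx s1 s2) :
    AnalyticAt ℂ (Function.invFunOn G (Bx s1 s2)) (G σ) ∧
      HasDerivAt (Function.invFunOn G (Bx s1 s2)) (n σ)⁻¹ (G σ) := by
  have hGa := G_an hg h
  have hderiv : deriv G σ = n σ := (hg.dG σ h).deriv
  have hn0 := Gin_n_ne hg hν hη h
  have hd : deriv G σ ≠ 0 := by rwa [hderiv]
  have hga := hGa.analyticAt_localInverse hd
  have hright := hGa.hasStrictDerivAt.eventually_right_inverse hd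
  have hder := (hGa.hasStrictDerivAt.to_localInverse hd).hasDerivAt
  have hgP : hGa.hasStrictDerivAt.localInverse _ _ _ hd (G σ) = σ :=
    HasStrictFDerivAt.localInverse_apply_image ..
  generalize hGa.hasStrictDerivAt.localInverse _ _ _ hd = ψ at hga hright hgP hder
  have hBx : ∀ᶠ w in 𝓝 (G σ), ψ w ∈ Bx s1 s2 := by
    have h1 := hga.continuousAt.tendsto
    rw [hgP] at h1
    exact h1.eventually (isOpen_Bx.mem_nhds h)
  have heq : ψ =ᶠ[𝓝 (G σ)] Function.invFunOn G (Bx s1 s2) := by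
    filter_upwards [hright, hBx] with w h1 h2
    have h3 := inv_eq hg hν hη h2
    rw [h1] at h3
    exact h3.symm
  refine ⟨hga.congr heq, ?_⟩
  rw [← hderiv]
  exact hder.congr_of_eventuallyEq heq.symm

end Pool.Agent.MP_ae5b4e_an_N4
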