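import Pool.Agent.Lib.MP_ae5b4e_an_N4.AsA
import Pool.Agent.Lib.MP_ae5b4e_an_N4.Gin

/-!
# N4, module AsD: the structure `Cor` from the chains

`Sec ra rb ρ`: the open sector.  `OP`, `OU` are the chains with `ellp`, `ellu`; `E p = cexp (G (OU p).2)`.
* `mer`: `hF`, `4 k ≤ 2 X`.
* `an`, `near`: hypotheses `hzan`, and `IsZ1.near`: `‖z₁ + k‖ ≤ ‖z₁ + ν / 2‖ + |ν / 2 - k| ≤ 3 δ (2 k + 1) + 1 / 2 ≤
  8 δ k` (`Par.kδ`: `1 / 2 ≤ δ k / 2`) `≤ δ' k`.
* `mE`: `GdU` (`hlow`) at `(z, ρ)` (`- X - 1 ≤ z.re` as `‖z‖ ≤ 4 k`): `OU` is analytic at `(z, ρ)`, its label is in the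
  box (`GdU.im1`, `im2`, `re`, `th1`, `b1`, `b2`), `G` is analytic there (`G_an`): `merAt_of_analyticAt`.
* `eq`: let `z` be admissible, `‖z‖ ≤ 4 k`, `(ρ z).im < - v ρ`, `ρ` of angle `≤ ph0`.
  `A := {w | (w - z₁ ρ).im ≤ - e^{-k} ∧ - (k / 7) ≤ w.im ∧ w.re ≤ k / 15 ∧ - X - 1 ≤ w.re ∧ (ρ w).im < - v ρ ∧ ‖w‖ ≤ 2 X}` is
  convex; `z_s := - X - 1 / 2 - i k / 8 ∈ A`: `(ρ z_s).im = - (X + 1 / 2) Im ρ - (k / 8) Re ρ ≤ - X Im ρ < - v ρ`, as
  `Im ρ ≥ ‖ρ‖ sin (ph2 / 2) ≥ ‖ρ‖ / 6400` (`sin x ≥ x / 2`) and `v ρ ≤ k (2 ‖ρ‖)` (`hv`).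
  `z' := z.re - i k / 8 ∈ A` (if `z.im < - k / 8` take `z' := z`, which is in `A` since then
  `(z - z₁).im ≤ - e^{-k}`): going down from `z` decreases `(ρ w).im` (`Re ρ > 0`), and the vertical
  segment `[z', z]` consists of admissible points (`Adm.col`: the second alternative has
  `|Re (w - z₁) - j| ≥ 1 / 8`, `Im ≤ 1 / 8`, the first is preserved too) with `(ρ w).im < - v ρ`.
  On `(A ∪ [z', z]) × {ρ}` (preconnected: two convex sets with a common point) `F` is meromorphic (`hF`)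
  and `E` is analytic; at `z_s`: `OU =ᶠ S0` (`hst`), so `E =ᶠ cexp (G (S0 ·).2)` and `hE` gives `EqM E F`.
  `Mer.eqM`.
* `sing`: `hsing`.
-/

set_option autoImplicit false

noncomputable section

namespace Pool.Agent.MP_ae5b4e_an_N4

open Complex Set Filter Topology Metric
open Pool.Agent.MP_ae5b4e_an_NBT (St MerAt Mer EqM Den)
open scoped ComplexConjugate

/-- the open sector -/
def Sec (ra rb : ℝ) (ρ : ℂ) : Prop :=
  ra < ‖ρ‖ ∧ ‖ρ‖ < rb ∧ ph2 / 2 < arg ρ ∧ arg ρ < Real.pi - ph2 / 2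

/-- angles in the lower part of the sector -/
private theorem AsD_sin {ρ : ℂ} (h1 : ph2 / 2 < arg ρ) (h2 : arg ρ ≤ ph0) :
    0 < ρ.re ∧ ‖ρ‖ / 6400 ≤ ρ.im := by
  have e1 : ph2 = 1 / 1600 := rfl
  have e2 : ph0 = 1 / 100 := rfl
  rw [e1] at h1
  rw [e2] at h2
  have hp := Real.pi_gt_three
  have hp4 := Real.pi_le_four
  have hρ0 : ρ ≠ 0 := by
    rintro rfl
    rw [arg_zero] at h1
    norm_num at h1
  refine ⟨?_, ?_⟩
  · have h3 : |arg ρ| < Real.pi / 2 := by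
      rw [abs_lt]
      constructor <;> linarith
    exact (Complex.abs_arg_lt_pi_div_two_iff.1 h3).resolve_right hρ0
  · have h3 : 2 / Real.pi * arg ρ ≤ Real.sin (arg ρ) :=
      Real.mul_le_sin (by linarith) (by linarith)
    have h4 : (1 : ℝ) / 2 ≤ 2 / Real.pi := by
      rw [div_le_div_iff₀ (by norm_num) Real.pi_pos]
      linarith
    have h5 : 1 / 6400 ≤ Real.sin (arg ρ) := by
      refine le_trans ?_ h3
      have h6 : 1 / 2 * (1 / 3200) ≤ 2 / Real.pi * arg ρ :=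
        mul_le_mul h4 (by linarith) (by norm_num) (by positivity)
      linarith
    have hn : 0 < ‖ρ‖ := norm_pos_iff.2 hρ0
    rw [Complex.sin_arg, le_div_iff₀ hn] at h5
    linarith

/-- the first zero is near `- k` -/
private theorem AsD_near {k ν X δ η Dl : ℝ} (hP : Par k ν X δ η Dl) {z : ℂ}
    (h : ‖z + ν / 2‖ ≤ 3 * δ * ν) : ‖z + k‖ ≤ 8 * δ * k := by
  have h1 := hP.ν1
  have h2 := hP.ν2
  have h3 := hP.kδ
  have hk := hP.hk
  have hδ := hP.δ0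
  have h4 : ‖((k - ν / 2 : ℝ) : ℂ)‖ ≤ 1 / 2 := by
    rw [Complex.norm_real, Real.norm_eq_abs, abs_le]
    constructor <;> linarith
  have h5 : ‖z + k‖ ≤ ‖z + ν / 2‖ + ‖((k - ν / 2 : ℝ) : ℂ)‖ := by
    have h6 := norm_add_le (z + ν / 2) ((k - ν / 2 : ℝ) : ℂ)
    rwa [show z + ν / 2 + ((k - ν / 2 : ℝ) : ℂ) = z + k by push_cast; ring] at h6
  have h7 : 3 * δ * ν ≤ 3 * δ * (2 * k + 1) := mul_le_mul_of_nonneg_left h2 (by positivity)
  have h8 : 3 * δ ≤ δ * k := by nlinarith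
  linarith

/-- the label of an admissible point is in the box -/
private theorem AsD_box {k ν X δ η Dl s1 s2 : ℝ} {G n g : ℂ → ℂ} {S0 OU : ℂ × ℂ → ℂ × ℂ}
    {ρ z : ℂ} (hS : Std k ν X δ η Dl s1 s2 G n g S0 ρ) (hg : GdU k ν X δ OU ρ z) :
    (OU (z, ρ)).2 ∈ Bx s1 s2 := by
  have h1 := hg.im1
  have h2 := hg.im2
  have h3 := abs_le.1 hg.re
  have h4 := hS.th1
  have h5 := hS.b1
  have h6 := hS.b2
  have h7 := hS.par.hD
  have e1 : ph2 = 1 / 1600 := rfl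
  have e2 : aa = 1 / 12800 := rfl
  rw [e1] at h4
  refine ⟨?_, ?_, ?_, ?_⟩
  · linarith [h3.1]
  · linarith [h3.2]
  · rw [e2]
    linarith
  · rw [e2]
    linarith

/-- `E` is meromorphic at the admissible points -/
private theorem AsD_mer {k ν X δ η Dl s1 s2 : ℝ} {G n g : ℂ → ℂ} {S0 OU : ℂ × ℂ → ℂ × ℂ}
    {ρ z : ℂ} (hS : Std k ν X δ η Dl s1 s2 G n g S0 ρ) (hg : GdU k ν X δ OU ρ z) :
    MerAt (fun p => cexp (G (OU p).2)) (z, ρ) := by
  have h1 : AnalyticAt ℂ (fun p => (OU p).2) (z, ρ) :=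
    AnalyticAt.fun_comp (g := fun q : ℂ × ℂ => q.2) (f := OU) (x := (z, ρ))
      analyticAt_snd hg.an
  have h2 : AnalyticAt ℂ (fun p => G (OU p).2) (z, ρ) :=
    AnalyticAt.fun_comp (g := G) (f := fun p => (OU p).2) (x := (z, ρ))
      (G_an hS.gd (AsD_box hS hg)) h1
  exact Pool.Agent.MP_ae5b4e_an_NBT.merAt_of_analyticAt h2.cexp

theorem cor_of {k ν X δ η Dl s1 s2 ra rb δ' η' : ℝ} {G n g : ℂ → ℂ} {S0 OU : ℂ × ℂ → ℂ × ℂ}
    {v : ℂ → ℝ} {F : ℂ × ℂ → ℂ} {z₁ : ℂ → ℂ} (h8 : 8 * δ ≤ δ') (hη : η' ≤ 1 / 100)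
    (hra : 0 < ra)
    (hS : ∀ ρ, Sec ra rb ρ → Std k ν X δ η Dl s1 s2 G n g S0 ρ)
    (hzn : ∀ ρ, Sec ra rb ρ → ‖z₁ ρ + ν / 2‖ ≤ 3 * δ * ν)
    (hzan : ∀ ρ, Sec ra rb ρ → AnalyticAt ℂ z₁ ρ)
    (hst : ∀ ρ, Sec ra rb ρ → ∀ z : ℂ, -X - 1 ≤ z.re → z.re ≤ -X → |z.im| ≤ k →
      OU =ᶠ[𝓝 (z, ρ)] S0)
    (hlow : ∀ ρ, Sec ra rb ρ → arg ρ ≤ ph0 → ∀ z : ℂ, -X - 1 ≤ z.re → Adm k (z₁ ρ) z →
      GdU k ν X δ OU ρ z)
    (hsing : ∀ ρ, Sec ra rb ρ →
      ¬ ∃ f : ℂ × ℂ → ℂ, (∀ z ∈ ball (z₁ ρ + 2) (rr k X), MerAt f (z, ρ)) ∧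
      ∀ z ∈ ball (z₁ ρ + 2) (rr k X), (z - z₁ ρ).im < -Real.exp (-k) →
        EqM f (fun p => cexp (G (OU p).2)) (z, ρ))
    (hF : ∀ z ρ : ℂ, ra < ‖ρ‖ → ‖ρ‖ < rb → ‖z‖ ≤ 2 * X → (ρ * z).im < -v ρ → MerAt F (z, ρ))
    (hv : ∀ ρ : ℂ, ra < ‖ρ‖ → ‖ρ‖ < rb → v ρ ≤ k * ((1 + η') * |ρ.im| + η' * ‖ρ‖))
    (hE : ∀ ρ, Sec ra rb ρ → ∀ z : ℂ, -X - 1 ≤ z.re → z.re ≤ -X → |z.im| ≤ k →
      EqM F (fun p => cexp (G (S0 p).2)) (z, ρ)) :
    Cor k ra rb δ' (rr k X) v F (fun p => cexp (G (OU p).2)) z₁ := by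
  have hsec : ∀ ρ : ℂ, ra < ‖ρ‖ → ‖ρ‖ < rb → ph2 / 2 < arg ρ → arg ρ ≤ ph0 → Sec ra rb ρ := by
    intro ρ h1 h2 h3 h4
    refine ⟨h1, h2, h3, ?_⟩
    have e1 : ph2 = 1 / 1600 := rfl
    have e2 : ph0 = 1 / 100 := rfl
    rw [e2] at h4
    rw [e1]
    linarith [Real.pi_gt_three]
  have hpar : ∀ ρ : ℂ, ra < ‖ρ‖ → ‖ρ‖ < rb → Par k ν X δ η Dl := by
    intro ρ h1 h2
    have hn : 0 < ‖ρ‖ := hra.trans h1
    have h3 : ‖((‖ρ‖ : ℝ) : ℂ) * I‖ = ‖ρ‖ := by
      rw [norm_mul, Complex.norm_real, norm_norm, norm_I, mul_one]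
    have h4 : arg (((‖ρ‖ : ℝ) : ℂ) * I) = Real.pi / 2 := by
      rw [Complex.arg_real_mul _ hn, arg_I]
    have e1 : ph2 = 1 / 1600 := rfl
    refine (hS (((‖ρ‖ : ℝ) : ℂ) * I) ⟨by rw [h3]; exact h1, by rw [h3]; exact h2, ?_, ?_⟩).par
    · rw [h4, e1]
      linarith [Real.pi_gt_three]
    · rw [h4, e1]
      linarith [Real.pi_gt_three]
  refine ⟨?_, ?_, ?_, ?_, ?_, ?_⟩
  · intro z ρ h1 h2 hz hv'
    have hP := hpar ρ h1 h2
    refine hF z ρ h1 h2 (hz.trans ?_) hv'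
    have := hP.hX
    have := hP.hk
    linarith
  · exact fun ρ h1 h2 h3 h4 => hzan ρ ⟨h1, h2, h3, h4⟩
  · intro ρ h1 h2 h3 h4
    have hP := hpar ρ h1 h2
    have hk := hP.hk
    refine (AsD_near hP (hzn ρ ⟨h1, h2, h3, h4⟩)).trans ?_
    exact mul_le_mul_of_nonneg_right h8 (by linarith)
  · intro z ρ h1 h2 h3 h4 hz ha
    have hs := hsec ρ h1 h2 h3 h4
    have hP := hpar ρ h1 h2
    have hk := hP.hk
    have hX := hP.hX
    have hre := (abs_le.1 ((Complex.abs_re_le_norm z).trans hz)).1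
    exact AsD_mer (hS ρ hs) (hlow ρ hs h4 z (by linarith) ha)
  · intro z ρ h1 h2 h3 h4 hz ha hv'
    have hs := hsec ρ h1 h2 h3 h4
    have hP := hpar ρ h1 h2
    have hk := hP.hk
    have hX := hP.hX
    have hδ := hP.δ1
    obtain ⟨hr0, hi0⟩ := AsD_sin h3 h4
    have hn : 0 < ‖ρ‖ := hra.trans h1
    have hi1 : 0 < ρ.im := lt_of_lt_of_le (by positivity) hi0
    have hreb := abs_le.1 ((Complex.abs_re_le_norm z).trans hz)
    have hz1 := AsD_near hP (hzn ρ hs)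
    have hz1i : |(z₁ ρ).im| ≤ k / 1000 := by
      have h5 := Complex.abs_im_le_norm (z₁ ρ + k)
      rw [Complex.add_im, Complex.ofReal_im, add_zero] at h5
      refine h5.trans (hz1.trans ?_)
      have h6 : 8 * δ ≤ 1 / 1000 := by linarith
      nlinarith
    rw [abs_le] at hz1i
    have hexp : Real.exp (-k) ≤ 1 := Real.exp_le_one_iff.2 (by linarith)
    obtain ⟨A, hA⟩ : ∃ A : Set ℂ, A = {w : ℂ | (w - z₁ ρ).im ≤ -Real.exp (-k)} ∩
        ({w : ℂ | -(k / 7) ≤ w.im} ∩ ({w : ℂ | w.re ≤ k / 15} ∩ ({w : ℂ | -X - 1 ≤ w.re} ∩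
          ({w : ℂ | (ρ * w).im < -v ρ} ∩ closedBall 0 (2 * X))))) := ⟨_, rfl⟩
    have hAc : Convex ℝ A := by
      have l1 : IsLinearMap ℝ (fun w : ℂ => w.im) := ⟨fun _ _ => rfl, fun _ _ => by simp⟩
      have l2 : IsLinearMap ℝ (fun w : ℂ => w.re) := ⟨fun _ _ => rfl, fun _ _ => by simp⟩
      have l3 : IsLinearMap ℝ (fun w : ℂ => (ρ * w).im) :=
        ⟨fun x y => by rw [mul_add]; rfl, fun c x => by simp; ring⟩
      have c1 : Convex ℝ {w : ℂ | (w - z₁ ρ).im ≤ -Real.exp (-k)} := by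
        have h5 : {w : ℂ | (w - z₁ ρ).im ≤ -Real.exp (-k)} =
            {w : ℂ | w.im ≤ -Real.exp (-k) + (z₁ ρ).im} := by
          ext w
          simp only [mem_ofPred_eq, Complex.sub_im]
          constructor <;> intro h6 <;> linarith
        rw [h5]
        exact convex_halfSpace_le l1 _
      rw [hA]
      exact c1.inter ((convex_halfSpace_ge l1 _).inter ((convex_halfSpace_le l2 _).inter
        ((convex_halfSpace_ge l2 _).inter ((convex_halfSpace_lt l3 _).inter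
          (convex_closedBall _ _)))))
    -- the two functions on sets of good points
    have hmain : ∀ U : Set ℂ, Convex ℝ U → (∀ w ∈ U, -X - 1 ≤ w.re ∧ Adm k (z₁ ρ) w ∧
        ‖w‖ ≤ 2 * X ∧ (ρ * w).im < -v ρ) → ∀ w ∈ U, ∀ w' ∈ U,
        EqM (fun p => cexp (G (OU p).2)) F (w, ρ) →
        EqM (fun p => cexp (G (OU p).2)) F (w', ρ) := by
      intro U hU hgood w hw w' hw' hww
      refine Pool.Agent.MP_ae5b4e_an_NBT.Mer.eqM (U := U ×ˢ {ρ})
        (hU.isPreconnected.prod isPreconnected_singleton) ?_ ?_ (p := (w, ρ)) ?_ hww (w', ρ) ?_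
      · rintro ⟨u, r⟩ ⟨hu, hr⟩
        obtain rfl : r = ρ := hr
        exact AsD_mer (hS r hs) (hlow r hs h4 u (hgood u hu).1 (hgood u hu).2.1)
      · rintro ⟨u, r⟩ ⟨hu, hr⟩
        obtain rfl : r = ρ := hr
        exact hF u r h1 h2 (hgood u hu).2.2.1 (hgood u hu).2.2.2
      · exact ⟨hw, rfl⟩
      · exact ⟨hw', rfl⟩
    have hAgood : ∀ w ∈ A, -X - 1 ≤ w.re ∧ Adm k (z₁ ρ) w ∧ ‖w‖ ≤ 2 * X ∧
        (ρ * w).im < -v ρ := by
      intro w hw
      rw [hA] at hw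
      obtain ⟨a1, a2, a3, a4, a5, a6⟩ := hw
      exact ⟨a4, ⟨a2, a3, Or.inl a1⟩, by rwa [mem_closedBall, dist_zero_right] at a6, a5⟩
    -- the start point
    have hzs : (⟨-X - 1 / 2, -(k / 8)⟩ : ℂ) ∈ A := by
      rw [hA]
      refine ⟨?_, ?_, ?_, ?_, ?_, ?_⟩
      · show (⟨-X - 1 / 2, -(k / 8)⟩ - z₁ ρ : ℂ).im ≤ -Real.exp (-k)
        rw [Complex.sub_im]
        show -(k / 8) - (z₁ ρ).im ≤ -Real.exp (-k)
        linarith [hz1i.1]
      · show -(k / 7) ≤ -(k / 8)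
        linarith
      · show -X - 1 / 2 ≤ k / 15
        linarith
      · show -X - 1 ≤ -X - 1 / 2
        linarith
      · show (ρ * ⟨-X - 1 / 2, -(k / 8)⟩).im < -v ρ
        rw [Complex.mul_im]
        show ρ.re * (-(k / 8)) + ρ.im * (-X - 1 / 2) < -v ρ
        have h5 := hv ρ h1 h2
        have h6 : |ρ.im| ≤ ‖ρ‖ := Complex.abs_im_le_norm ρ
        rw [abs_of_pos hi1] at h5 h6
        have h7 : k * ((1 + η') * ρ.im + η' * ‖ρ‖) ≤ 2 * (k * ‖ρ‖) := by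
          have h8 : (1 + η') * ρ.im + η' * ‖ρ‖ ≤ 2 * ‖ρ‖ := by nlinarith
          have h9 := mul_le_mul_of_nonneg_left h8 (show (0:ℝ) ≤ k by linarith)
          linarith
        have h8 : k * ‖ρ‖ * 10 ^ 5 ≤ X * ρ.im := by
          have h9 : (10 ^ 10 * k) * (‖ρ‖ / 6400) ≤ X * ρ.im :=
            mul_le_mul hX hi0 (by positivity) (by linarith)
          have h10 : 0 ≤ k * ‖ρ‖ := mul_nonneg (by linarith) hn.le
          linarith
        have h9 : 0 ≤ ρ.re * (k / 8) := by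
          have : (0:ℝ) ≤ k / 8 := by linarith
          positivity
        have h10 : 0 < k * ‖ρ‖ := mul_pos (by linarith) hn
        nlinarith
      · rw [mem_closedBall, dist_zero_right]
        refine (Complex.norm_le_abs_re_add_abs_im _).trans ?_
        show |-X - 1 / 2| + |-(k / 8)| ≤ 2 * X
        rw [abs_of_nonpos (by linarith), abs_of_nonpos (by linarith)]
        linarith
    have hstart : EqM (fun p => cexp (G (OU p).2)) F ((⟨-X - 1 / 2, -(k / 8)⟩ : ℂ), ρ) := by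
      have b1 : -X - 1 ≤ (⟨-X - 1 / 2, -(k / 8)⟩ : ℂ).re := by
        show -X - 1 ≤ -X - 1 / 2
        linarith
      have b2 : (⟨-X - 1 / 2, -(k / 8)⟩ : ℂ).re ≤ -X := by
        show -X - 1 / 2 ≤ -X
        linarith
      have b3 : |(⟨-X - 1 / 2, -(k / 8)⟩ : ℂ).im| ≤ k := by
        show |-(k / 8)| ≤ k
        rw [abs_of_nonpos (by linarith)]
        linarith
      refine EqM.trans (Pool.Agent.MP_ae5b4e_an_NBT.EqM.of_eventuallyEq ?_)
        (hE ρ hs _ b1 b2 b3).symm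
      filter_upwards [hst ρ hs _ b1 b2 b3] with p hp
      rw [hp]
    by_cases hzi : z.im < -(k / 8)
    · -- deep points
      have hzA : z ∈ A := by
        rw [hA]
        refine ⟨?_, ha.low, ha.right, ?_, hv', ?_⟩
        · show (z - z₁ ρ).im ≤ -Real.exp (-k)
          rw [Complex.sub_im]
          linarith [hz1i.1]
        · show -X - 1 ≤ z.re
          linarith [hreb.1]
        · rw [mem_closedBall, dist_zero_right]
          linarith
      exact hmain A hAc hAgood _ hzs _ hzA hstart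
    · rw [not_lt] at hzi
      have hzA : (⟨z.re, -(k / 8)⟩ : ℂ) ∈ A := by
        rw [hA]
        refine ⟨?_, ?_, ha.right, ?_, ?_, ?_⟩
        · show (⟨z.re, -(k / 8)⟩ - z₁ ρ : ℂ).im ≤ -Real.exp (-k)
          rw [Complex.sub_im]
          show -(k / 8) - (z₁ ρ).im ≤ -Real.exp (-k)
          linarith [hz1i.1]
        · show -(k / 7) ≤ -(k / 8)
          linarith
        · show -X - 1 ≤ z.re
          linarith [hreb.1]
        · show (ρ * ⟨z.re, -(k / 8)⟩).im < -v ρ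
          rw [Complex.mul_im] at hv' ⊢
          show ρ.re * (-(k / 8)) + ρ.im * z.re < -v ρ
          have h5 := mul_le_mul_of_nonneg_left hzi hr0.le
          linarith
        · rw [mem_closedBall, dist_zero_right]
          refine (Complex.norm_le_abs_re_add_abs_im _).trans ?_
          show |z.re| + |-(k / 8)| ≤ 2 * X
          rw [abs_of_nonpos (show -(k / 8) ≤ 0 by linarith)]
          have h5 : |z.re| ≤ 4 * k := (Complex.abs_re_le_norm z).trans hz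
          linarith
      have h5 := hmain A hAc hAgood _ hzs _ hzA hstart
      -- the vertical segment
      refine hmain (segment ℝ (⟨z.re, -(k / 8)⟩ : ℂ) z) (convex_segment _ _) ?_ _
        (left_mem_segment ℝ _ _) _ (right_mem_segment ℝ _ _) h5
      intro w hw
      have hwre : w.re = z.re := by
        obtain ⟨a, b, ha0, hb0, hab, rfl⟩ := hw
        simp only [Complex.add_re, Complex.smul_re, smul_eq_mul]
        rw [← add_mul, hab, one_mul]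
      have hwim : -(k / 8) ≤ w.im ∧ w.im ≤ z.im := by
        obtain ⟨a, b, ha0, hb0, hab, rfl⟩ := hw
        simp only [Complex.add_im, Complex.smul_im, smul_eq_mul]
        constructor
        · nlinarith
        · nlinarith
      refine ⟨?_, ⟨?_, ?_, ?_⟩, ?_, ?_⟩
      · rw [hwre]
        linarith [hreb.1]
      · linarith [hwim.1]
      · rw [hwre]
        exact ha.right
      · rcases ha.col with h6 | ⟨h6, h7⟩
        · left
          rw [Complex.sub_im] at h6 ⊢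
          linarith [hwim.2]
        · right
          refine ⟨?_, fun j => ?_⟩
          · rw [Complex.sub_im] at h6 ⊢
            linarith [hwim.2]
          · have h8 := h7 j
            rw [Complex.sub_re] at h8 ⊢
            rwa [hwre]
      · refine (Complex.norm_le_abs_re_add_abs_im _).trans ?_
        have h6 : |z.re| ≤ 4 * k := (Complex.abs_re_le_norm z).trans hz
        have h7 : |w.im| ≤ 4 * k + k / 8 := by
          have h8 := abs_le.1 ((Complex.abs_im_le_norm z).trans hz)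
          rw [abs_le]
          constructor <;> linarith [hwim.1, hwim.2, h8.2]
        rw [hwre]
        linarith
      · rw [Complex.mul_im] at hv' ⊢
        rw [hwre]
        have h6 := mul_le_mul_of_nonneg_left hwim.2 hr0.le
        linarith
  · exact fun ρ h1 h2 h3 h4 => hsing ρ (hsec ρ h1 h2 h3 h4)

end Pool.Agent.MP_ae5b4e_an_N4
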