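import Pool.Agent.Lib.MP_ae5b4e_an_N4.AsB
import Pool.Agent.Lib.MP_ae5b4e_an_N4.Gin

/-!
# N4, module AsE: the output (O3) at one `ρ`

`E₀ p := cexp (Gc (OP p).2)`, `E p := m.inv.at (E₀ p)`, `F = Fz G x0 h m`, `X = A k`, `e6 k = k / 10 ^ 10`.
For `w ∈ Zn k X (z₁.re + 1 / 2)`: `OP` is analytic at `(w, ρ)` and its label is in the box (`IsZ1.good`;
`GdZ.im`, `GdZ.re`, `Std.th1`, `th2`, `b1`, `b2`), so `E₀` is analytic at `(w, ρ)` (`G_an`).
(1) if `- (A k) ≤ z.re ≤ - κ₁ - e k`, `|z.im| ≤ k / 10 ^ 10`: `z.re ≤ z₁.re + e k / 2 - e k ≤ z₁.re + 1 / 2` (`he`), so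
`z ∈ Zn …`, `merAt_mob`.
(2) `D := {z | - X - 1 ≤ z.re ≤ - (X / 2), |z.im| ≤ e6 k}` is convex, `⊆ Zn …`, consists of deep points
(`hdeep`); `F` is meromorphic (`fz_mer`), `E₀` analytic, and `EqM F E₀` at the points of the start zone
(`hE`, `hst`: `OP =ᶠ S0`); so `EqM F E₀` on `D` (`Mer.eqM`), and `E = m.inv.at E₀` is `EqM` to `m.inv.at F`
(`EqM.map`), to `Gz` (`fz_inv`).
(3) CLAIM: at every `w ∈ Zn …`: `EqM (m.at (m.inv.at E₀)) E₀ (w, ρ)`.  `m.at (m.inv.at u) = u` if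
`- m.c u + m.a ≠ 0` (`Mob.inv_at` for `m.inv`, `m.inv.inv = m` up to signs; or directly).  By `MerAt.eqM_or` it
remains to exclude `EqM (m.a - m.c E₀) 0` at `(w, ρ)`; by the identity theorem on the convex set
`Zn …` it would hold at a point `z_s` of the start zone, where `EqM F E₀`: so `m.a - m.c F = 0` off a
denominator, and `F = (m.a G + m.b) / (m.c G + m.d)`, `m.c G + m.d ≠ 0` off a denominator (`g_nonconst` with
`eqM_or`, `eqM_cz`): `m.a (m.c G + m.d) = m.c (m.a G + m.b)`, so `m.a m.d = m.b m.c`: contradiction to `m.ne`.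
(4) Suppose `E'` is meromorphic at all points of `closedBall (- κ₁) (2 e k) × {ρ}` and `EqM E' E` at
`z' = - κ₁ - 3 / 2 e k`.  `z' ∈ Zn …`: `z'.re ≤ z₁.re - e k`; `z'.re ≥ - 3 k ≥ - X` (`he`, `he1`, `IsZ1.near`).
`f := m.at ∘ E'` is meromorphic on the closed disc, `EqM f E₀` at `z'` (`EqM.map` and (3)).
`z'' := z₁ - 1 - i / 2`: the segment `[z', z'']` is in `Zn …` and in the closed disc
(`‖z'' + κ₁‖ ≤ e k / 2 + 2 ≤ 2 e k`, `he4`): `EqM f E₀` at `z''`; near `(z'', ρ)` `OU = OP` (`heq`), so `EqM f E_U` there,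
`E_U p := cexp (Gc (OU p).2)`.  The convex set `W = {w | - 1 ≤ (w - z₁).im ≤ - e^{-k}, z₁.re - 2 ≤ w.re ≤ z₁.re + 3}`
contains `z''`, its points satisfy `Adn` (`han`: `E_U` is analytic there) and `‖w + κ₁‖ ≤ e k / 2 + 4 ≤ 2 e k`; so
`EqM f E_U` on `W`, which contains the points of `ball (z₁ + 2) (rr k X)` (`rr ≤ 1 / 32`) with
`(z - z₁).im < - e^{-k}`; the ball is in the closed disc.  Contradiction to `hsing`.
-/

set_option autoImplicit false

noncomputable section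

namespace Pool.Agent.MP_ae5b4e_an_N4

open Complex Set Filter Topology Metric
open Pool.Agent.MP_ae5b4e_an_NBT (St MerAt Mer EqM Den merAt_of_analyticAt)
open Pool.Agent.MP_ae5b4e_an_NB2 (Sys)
open Pool.Agent.MP_ae5b4e_an_PB (DFU DKU RegF Base)

private theorem ase_conv (a b c d : ℝ) :
    Convex ℝ {z : ℂ | a ≤ z.re ∧ z.re ≤ b ∧ c ≤ z.im ∧ z.im ≤ d} :=
  (convex_halfSpace_re_ge a).inter ((convex_halfSpace_re_le b).inter
    ((convex_halfSpace_im_ge c).inter (convex_halfSpace_im_le d)))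

private theorem ase_conv' (a b c : ℝ) :
    Convex ℝ {z : ℂ | a ≤ z.re ∧ z.re ≤ b ∧ |z.im| ≤ c} := by
  have h : {z : ℂ | a ≤ z.re ∧ z.re ≤ b ∧ |z.im| ≤ c} =
      {z : ℂ | a ≤ z.re ∧ z.re ≤ b ∧ -c ≤ z.im ∧ z.im ≤ c} := by
    ext z
    change (a ≤ z.re ∧ z.re ≤ b ∧ |z.im| ≤ c) ↔ (a ≤ z.re ∧ z.re ≤ b ∧ -c ≤ z.im ∧ z.im ≤ c)
    rw [abs_le]
  rw [h]
  exact ase_conv a b (-c) c

private theorem ase_pre {D : Set ℂ} (hD : Convex ℝ D) (ρ : ℂ) :
    IsPreconnected (D ×ˢ ({ρ} : Set ℂ)) :=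
  (hD.prod (convex_singleton ρ)).isPreconnected

private theorem ase_box {k ν X δ η Dl s1 s2 : ℝ} {Gc n g : ℂ → ℂ} {S0 OP : ℂ × ℂ → ℂ × ℂ}
    {ρ z : ℂ} (hS : Std k ν X δ η Dl s1 s2 Gc n g S0 ρ) (hg : GdZ k ν X δ OP ρ z) :
    (OP (z, ρ)).2 ∈ Bx s1 s2 := by
  have hD := hS.par.hD
  have h1 := abs_le.1 hg.im
  have h2 := abs_le.1 hg.re
  have h3 := hS.th1
  have h4 := hS.th2
  have h5 := hS.b1
  have h6 := hS.b2
  unfold ph2 at h3 h4
  refine ⟨by linarith [h2.1], by linarith [h2.2], ?_, ?_⟩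
  · unfold aa
    linarith [h1.1]
  · unfold aa
    linarith [h1.2]

private theorem ase_an {ν η s1 s2 : ℝ} {Gc n g : ℂ → ℂ} (hg : Gd ν η s1 s2 Gc n g)
    {O : ℂ × ℂ → ℂ × ℂ} {p : ℂ × ℂ} (hO : AnalyticAt ℂ O p) (hb : (O p).2 ∈ Bx s1 s2) :
    AnalyticAt ℂ (fun q => cexp (Gc (O q).2)) p := by
  have h1 : AnalyticAt ℂ (fun q => (O q).2) p :=
    AnalyticAt.fun_comp (g := fun q : ℂ × ℂ => q.2) (f := O) analyticAt_snd hO
  have h2 : AnalyticAt ℂ (fun q => Gc (O q).2) p :=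
    AnalyticAt.fun_comp (g := Gc) (f := fun q => (O q).2) (G_an hg hb) h1
  exact h2.cexp

private theorem ase_inv_inv (m : Mob) (u : ℂ) : m.inv.inv.at u = m.at u := by
  simp only [Mob.at, Mob.inv, neg_neg]

/-- the label coordinate is not locally zero -/
private theorem ase_gz {Y : Sys} {h R C0 x0 : ℝ} {v : ℂ → ℝ} {G L : ℂ × ℂ → ℂ}
    (hB : Base Y h R C0 v G L) {z ρ : ℂ} (hρ : ρ ≠ 0) (hd : Dp v h R z ρ) :
    ¬ EqM (Gz G x0 h) (fun _ => 0) (z, ρ) := by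
  intro h1
  obtain ⟨t, ht⟩ : ∃ t, t = (x0:ℂ) + (h:ℂ) * I + ρ * z := ⟨_, rfl⟩
  have hc : cz x0 h (z, ρ) = (t, ρ) := by
    rw [ht]
    rfl
  have hmem := dp_mem (x0 := x0) hd
  rw [hc] at hmem
  have hct : ct x0 h (t, ρ) = (z, ρ) := by
    rw [← hc, ct_cz hρ]
  rw [← hct] at h1
  have h2 := eqM_ct hρ h1
  have h3 : (fun q => Gz G x0 h (ct x0 h q)) =ᶠ[𝓝 (t, ρ)] G := by
    have h4 : ∀ᶠ q : ℂ × ℂ in 𝓝 (t, ρ), q.2 ≠ 0 :=
      continuousAt_snd.eventually_ne hρ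
    filter_upwards [h4] with q hq
    have h5 : cz x0 h (ct x0 h (q.1, q.2)) = (q.1, q.2) := cz_ct hq
    change G (cz x0 h (ct x0 h (q.1, q.2))) = G q
    rw [h5]
  refine g_nonconst hB (c := 1) (d := 0) (Or.inl one_ne_zero) hmem ?_
  have h6 : EqM (fun q => 1 * G q + 0) G (t, ρ) :=
    EqM.of_eventuallyEq (Eventually.of_forall fun q => by
      change 1 * G q + 0 = G q
      rw [one_mul, add_zero])
  exact h6.trans ((EqM.of_eventuallyEq h3).symm.trans h2)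

theorem sg_of {Y : Sys} {h R C0 x0 : ℝ} {v : ℂ → ℝ} {G L : ℂ × ℂ → ℂ}
    {k ν A δ η Dl s1 s2 κ1 e : ℝ} {Gc n g : ℂ → ℂ} {S0 OP OU : ℂ × ℂ → ℂ × ℂ} {ρ z₁ : ℂ}
    (hB : Base Y h R C0 v G L) (m : Mob)
    (hS : Std k ν (A * k) δ η Dl s1 s2 Gc n g S0 ρ)
    (hz : IsZ1 k ν (A * k) δ OP ρ z₁)
    (hst : ∀ z : ℂ, -(A * k) - 1 ≤ z.re → z.re ≤ -(A * k) → |z.im| ≤ k → OP =ᶠ[𝓝 (z, ρ)] S0)
    (heq : ∀ z ∈ Zn k (A * k) (z₁.re + 1 / 2), (z - z₁).im ≤ 1 / 8 → OU =ᶠ[𝓝 (z, ρ)] OP)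
    (han : ∀ z : ℂ, -(A * k) - 1 ≤ z.re → Adn k z₁ z →
      AnalyticAt ℂ OU (z, ρ) ∧ (OU (z, ρ)).2 ∈ Bx s1 s2)
    (hsing : ¬ ∃ f : ℂ × ℂ → ℂ, (∀ z ∈ ball (z₁ + 2) (rr k (A * k)), MerAt f (z, ρ)) ∧
      ∀ z ∈ ball (z₁ + 2) (rr k (A * k)), (z - z₁).im < -Real.exp (-k) →
        EqM f (fun p => cexp (Gc (OU p).2)) (z, ρ))
    (hE : ∀ z : ℂ, -(A * k) - 1 ≤ z.re → z.re ≤ -(A * k) → |z.im| ≤ k →
      EqM (Fz G x0 h m) (fun p => cexp (Gc (S0 p).2)) (z, ρ))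
    (hdeep : ∀ z : ℂ, -(A * k) - 1 ≤ z.re → z.re ≤ -(A * k / 2) → |z.im| ≤ e6 * k →
      Dp v h R z ρ)
    (he : ‖z₁ + κ1‖ ≤ e * k / 2) (he4 : 8 ≤ e * k) (he1 : e ≤ 1) :
    Sg G x0 h A k κ1 e ρ := by
  have hk := hS.par.hk
  have hν1 := hS.par.ν1
  have hν2 := hS.par.ν2
  have hXk := hS.par.hX
  have hδ0 := hS.par.δ0
  have hδ1 := hS.par.δ1
  have hρ0 : ρ ≠ 0 := by
    intro h0
    have := hS.hρ
    rw [h0] at this
    simp at this
  norm_num at hk hXk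
  have hk0 : 0 < k := by linarith
  have hδν : 3 * δ * ν ≤ k / 10 ^ 11 := by
    have h1 : ν ≤ 3 * k := by linarith
    have h2 : δ * ν ≤ 1 / 10 ^ 12 * (3 * k) :=
      mul_le_mul hδ1 h1 (by linarith) (by norm_num)
    norm_num at h2 ⊢
    linarith
  have hz1 : |z₁.re + ν / 2| ≤ k / 10 ^ 11 := by
    have h1 := (Complex.abs_re_le_norm (z₁ + (ν:ℂ) / 2)).trans (hz.near.trans hδν)
    have h2 : (z₁ + (ν:ℂ) / 2).re = z₁.re + ν / 2 := by simp
    rwa [h2] at h1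
  have hz2 : |z₁.im| ≤ k / 10 ^ 11 := by
    have h1 := (Complex.abs_im_le_norm (z₁ + (ν:ℂ) / 2)).trans (hz.near.trans hδν)
    have h2 : (z₁ + (ν:ℂ) / 2).im = z₁.im := by simp
    rwa [h2] at h1
  have hκ : |z₁.re + κ1| ≤ e * k / 2 := by
    have h1 := (Complex.abs_re_le_norm (z₁ + (κ1:ℂ))).trans he
    have h2 : (z₁ + (κ1:ℂ)).re = z₁.re + κ1 := by simp
    rwa [h2] at h1
  rw [abs_le] at hz1 hz2 hκ
  norm_num at hz1 hz2
  have hek : e * k ≤ 1 * k := mul_le_mul_of_nonneg_right he1 hk0.le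
  have hlow : -(2 * k) ≤ z₁.re := by linarith [hz1.1]
  have he6 : e6 * k = k / 10 ^ 10 := by
    unfold e6
    ring
  have he6' : e6 * k = k / 10000000000 := by
    unfold e6
    norm_num
    ring
  obtain ⟨F, hF⟩ : ∃ F : ℂ × ℂ → ℂ, F = Fz G x0 h m := ⟨_, rfl⟩
  obtain ⟨E₀, hE₀⟩ : ∃ E₀ : ℂ × ℂ → ℂ, E₀ = fun p => cexp (Gc (OP p).2) := ⟨_, rfl⟩
  obtain ⟨Z, hZ⟩ : ∃ Z : Set ℂ, Z = Zn k (A * k) (z₁.re + 1 / 2) := ⟨_, rfl⟩
  have hZc : Convex ℝ Z := by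
    rw [hZ]
    exact ase_conv' _ _ _
  have hZmem : ∀ w : ℂ, w ∈ Z ↔ -(A * k) - 1 ≤ w.re ∧ w.re ≤ z₁.re + 1 / 2 ∧
      |w.im| ≤ e6 * k := fun w => by
    rw [hZ]
    rfl
  have hE₀an : ∀ w ∈ Z, AnalyticAt ℂ E₀ (w, ρ) := fun w hw => by
    rw [hZ] at hw
    rw [hE₀]
    exact ase_an hS.gd (hz.good w hw).an (ase_box hS (hz.good w hw))
  have hE₀mer : Mer E₀ (Z ×ˢ ({ρ} : Set ℂ)) := by
    rintro ⟨w, r⟩ ⟨hw, hr⟩
    rw [mem_singleton_iff] at hr
    simp only at hr hw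
    rw [hr]
    exact merAt_of_analyticAt (hE₀an w hw)
  -- the start point
  obtain ⟨zs, hzs⟩ : ∃ zs : ℂ, zs = ((-(A * k) : ℝ) : ℂ) := ⟨_, rfl⟩
  have hzsre : zs.re = -(A * k) := by rw [hzs, Complex.ofReal_re]
  have hzsim : zs.im = 0 := by rw [hzs, Complex.ofReal_im]
  have hzsZ : zs ∈ Z := by
    rw [hZmem, hzsre, hzsim, abs_zero, he6']
    refine ⟨by linarith, by linarith, by linarith⟩
  have hzsd : Dp v h R zs ρ := hdeep zs (by rw [hzsre]; linarith) (by rw [hzsre]; linarith)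
    (by rw [hzsim, abs_zero, he6']; linarith)
  have hFE : EqM F E₀ (zs, ρ) := by
    have h1 := hE zs (by rw [hzsre]; linarith) (by rw [hzsre])
      (by rw [hzsim, abs_zero]; linarith)
    have h2 := hst zs (by rw [hzsre]; linarith) (by rw [hzsre])
      (by rw [hzsim, abs_zero]; linarith)
    rw [hF, hE₀]
    refine h1.trans (EqM.of_eventuallyEq ?_)
    filter_upwards [h2] with q hq
    rw [hq]
  -- the claim
  have hclaim : ∀ w ∈ Z, EqM (fun p => m.at (m.inv.at (E₀ p))) E₀ (w, ρ) := by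
    intro w hw
    have hmer : ∀ w ∈ Z, MerAt (fun p => -m.c * E₀ p + m.a) (w, ρ) := fun w hw =>
      merAt_of_analyticAt ((analyticAt_const.mul (hE₀an w hw)).add analyticAt_const)
    have hmer0 : ∀ p : ℂ × ℂ, MerAt (fun _ => (0:ℂ)) p := fun p =>
      merAt_of_analyticAt analyticAt_const
    rcases (hmer w hw).eqM_or (hmer0 (w, ρ)) with h1 | ⟨B, hB1, hB2⟩
    · exfalso
      have h2 := Mer.eqM (ase_pre hZc ρ) (f := fun p => -m.c * E₀ p + m.a)
        (g := fun _ => (0:ℂ)) (by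
          rintro ⟨w', r⟩ ⟨hw', hr⟩
          rw [mem_singleton_iff] at hr
          simp only at hr hw'
          rw [hr]
          exact hmer w' hw') (fun p _ => hmer0 p) (p := (w, ρ)) ⟨hw, rfl⟩ h1
        (zs, ρ) ⟨hzsZ, rfl⟩
      have h3 : EqM (fun p => -m.c * F p + m.a) (fun p => -m.c * E₀ p + m.a) (zs, ρ) :=
        hFE.map (fun u => -m.c * u + m.a)
      obtain ⟨B, hB1, hB2⟩ := h3.trans h2
      have h5 : EqM (fun p => m.inv.at (F p)) (fun _ => 0) (zs, ρ) := by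
        refine ⟨B, hB1, hB2.mono fun q hq h0 => ?_⟩
        have h6 : -m.c * F q + m.a = 0 := hq h0
        change (m.d * F q + -m.b) / (-m.c * F q + m.a) = 0
        rw [h6, div_zero]
      have h7 := fz_inv (x0 := x0) hB m hzsd
      rw [← hF] at h7
      exact ase_gz (x0 := x0) hB hρ0 hzsd (h7.symm.trans h5)
    · refine ⟨B, hB1, hB2.mono fun q hq h0 => ?_⟩
      have h1 := Mob.inv_at m.inv (w := E₀ q) (hq h0)
      rw [ase_inv_inv] at h1
      exact h1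
  refine ⟨fun p => m.inv.at (E₀ p), ?_, ?_, ?_⟩
  · -- (1)
    intro z h1 h2 h3
    refine merAt_mob m.inv (merAt_of_analyticAt (hE₀an z ?_))
    rw [hZmem, he6]
    exact ⟨by linarith, by linarith [hκ.1], h3⟩
  · -- (2)
    intro z h1 h2 h3
    obtain ⟨D, hD⟩ : ∃ D : Set ℂ, D = {z : ℂ | -(A * k) - 1 ≤ z.re ∧ z.re ≤ -(A * k / 2) ∧
      |z.im| ≤ e6 * k} := ⟨_, rfl⟩
    have hDc : Convex ℝ D := by
      rw [hD]
      exact ase_conv' _ _ _
    have hDZ : ∀ w ∈ D, w ∈ Z := by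
      intro w hw
      rw [hD] at hw
      obtain ⟨g1, g2, g3⟩ := hw
      rw [hZmem]
      exact ⟨g1, by linarith, g3⟩
    have hDd : ∀ w ∈ D, Dp v h R w ρ := by
      intro w hw
      rw [hD] at hw
      obtain ⟨g1, g2, g3⟩ := hw
      exact hdeep w g1 g2 g3
    have hzD : z ∈ D := by
      rw [hD]
      refine ⟨by linarith, h2, ?_⟩
      rw [he6]
      exact h3
    have hzsD : zs ∈ D := by
      rw [hD]
      refine ⟨by rw [hzsre]; linarith, by rw [hzsre]; linarith, ?_⟩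
      rw [hzsim, abs_zero, he6']
      linarith
    have h4 := Mer.eqM (ase_pre hDc ρ) (f := F) (g := E₀) (by
      rintro ⟨w', r⟩ ⟨hw', hr⟩
      rw [mem_singleton_iff] at hr
      simp only at hr hw'
      rw [hr, hF]
      exact fz_mer hB m (hDd w' hw')) (hE₀mer.mono (by
      rintro ⟨w', r⟩ ⟨hw', hr⟩
      exact ⟨hDZ w' hw', hr⟩)) (p := (zs, ρ)) ⟨hzsD, rfl⟩ hFE (z, ρ) ⟨hzD, rfl⟩
    have h5 : EqM (fun p => m.inv.at (E₀ p)) (fun p => m.inv.at (F p)) (z, ρ) :=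
      h4.symm.map (fun u => m.inv.at u)
    have h6 := fz_inv (x0 := x0) hB m (hDd z hzD)
    rw [← hF] at h6
    exact h5.trans h6
  · -- (4)
    rintro ⟨E', hE'1, hE'2⟩
    obtain ⟨z', hz'⟩ : ∃ z' : ℂ, z' = ((-κ1 - 3 / 2 * e * k : ℝ) : ℂ) := ⟨_, rfl⟩
    rw [← hz'] at hE'2
    have hz're : z'.re = -κ1 - 3 / 2 * e * k := by rw [hz', Complex.ofReal_re]
    have hz'im : z'.im = 0 := by rw [hz', Complex.ofReal_im]
    have hz'Z : z' ∈ Z := by
      rw [hZmem, hz're, hz'im, abs_zero, he6']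
      refine ⟨by linarith [hκ.2], by linarith [hκ.1], by linarith⟩
    obtain ⟨f, hf⟩ : ∃ f : ℂ × ℂ → ℂ, f = fun p => m.at (E' p) := ⟨_, rfl⟩
    have hfmer : ∀ z ∈ closedBall (-(κ1:ℂ)) (2 * e * k), MerAt f (z, ρ) := fun z hz' => by
      rw [hf]
      exact merAt_mob m (hE'1 z hz')
    have hball : ∀ w : ℂ, w ∈ closedBall (-(κ1:ℂ)) (2 * e * k) ↔ ‖w + κ1‖ ≤ 2 * e * k := by
      intro w
      rw [mem_closedBall_iff_norm, sub_neg_eq_add]
    have hnear : ∀ w : ℂ, ‖w + κ1‖ ≤ ‖w - z₁‖ + e * k / 2 := fun w => by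
      have h1 := norm_add_le (w - z₁) (z₁ + κ1)
      rw [show w - z₁ + (z₁ + (κ1:ℂ)) = w + κ1 by ring] at h1
      linarith
    have hfz' : EqM f E₀ (z', ρ) := by
      have h1 : EqM f (fun p => m.at (m.inv.at (E₀ p))) (z', ρ) := by
        rw [hf]
        exact hE'2.map (fun u => m.at u)
      exact h1.trans (hclaim z' hz'Z)
    obtain ⟨z'', hz''⟩ : ∃ z'' : ℂ, z'' = z₁ + ⟨-1, -(1 / 2)⟩ := ⟨_, rfl⟩
    have hz''re : z''.re = z₁.re - 1 := by
      rw [hz'', Complex.add_re]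
      ring
    have hz''im : z''.im = z₁.im - 1 / 2 := by
      rw [hz'', Complex.add_im]
      ring
    have hz''Z : z'' ∈ Z := by
      rw [hZmem, hz''re, hz''im, he6', abs_le]
      refine ⟨by linarith, by linarith, by linarith [hz2.1], by linarith [hz2.2]⟩
    have hcl : ∀ w : ℂ, |w.re - z₁.re| ≤ 3 → |w.im - z₁.im| ≤ 1 →
        w ∈ closedBall (-(κ1:ℂ)) (2 * e * k) := by
      intro w h1 h2
      rw [hball]
      have h3 := hnear w
      have h4 := Complex.norm_le_abs_re_add_abs_im (w - z₁)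
      rw [Complex.sub_re, Complex.sub_im] at h4
      linarith
    have hz''b : z'' ∈ closedBall (-(κ1:ℂ)) (2 * e * k) := by
      refine hcl z'' ?_ ?_
      · rw [hz''re, abs_le]
        constructor <;> linarith
      · rw [hz''im, abs_le]
        constructor <;> linarith
    have hz'b : z' ∈ closedBall (-(κ1:ℂ)) (2 * e * k) := by
      rw [hball, hz']
      have h1 : ((-κ1 - 3 / 2 * e * k : ℝ) : ℂ) + κ1 = ((-(3 / 2 * e * k) : ℝ) : ℂ) := by
        push_cast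
        ring
      rw [h1, Complex.norm_real, Real.norm_eq_abs, abs_neg, abs_of_nonneg (by linarith)]
      linarith
    have hfz'' : EqM f E₀ (z'', ρ) := by
      refine Mer.eqM (ase_pre (hZc.inter (convex_closedBall (-(κ1:ℂ)) (2 * e * k))) ρ)
        (f := f) (g := E₀) ?_ ?_ (p := (z', ρ)) ⟨⟨hz'Z, hz'b⟩, rfl⟩ hfz' (z'', ρ)
        ⟨⟨hz''Z, hz''b⟩, rfl⟩
      · rintro ⟨w', r⟩ ⟨hw', hr⟩
        rw [mem_singleton_iff] at hr
        simp only at hr hw'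
        rw [hr]
        exact hfmer w' hw'.2
      · rintro ⟨w', r⟩ ⟨hw', hr⟩
        rw [mem_singleton_iff] at hr
        simp only at hr hw'
        rw [hr]
        exact merAt_of_analyticAt (hE₀an w' hw'.1)
    obtain ⟨EU, hEU⟩ : ∃ EU : ℂ × ℂ → ℂ, EU = fun p => cexp (Gc (OU p).2) := ⟨_, rfl⟩
    have hfU : EqM f EU (z'', ρ) := by
      refine hfz''.trans (EqM.of_eventuallyEq ?_)
      have h1 := heq z'' (by rw [← hZ]; exact hz''Z)
        (by rw [Complex.sub_im, hz''im]; linarith)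
      rw [hE₀, hEU]
      filter_upwards [h1] with q hq
      rw [hq]
    obtain ⟨W, hW⟩ : ∃ W : Set ℂ, W = {w : ℂ | z₁.re - 2 ≤ w.re ∧ w.re ≤ z₁.re + 3 ∧
      z₁.im - 1 ≤ w.im ∧ w.im ≤ z₁.im - Real.exp (-k)} := ⟨_, rfl⟩
    have hWc : Convex ℝ W := by
      rw [hW]
      exact ase_conv _ _ _ _
    have hexp0 := Real.exp_pos (-k)
    have hexp : Real.exp (-k) ≤ 1 / 2 := by
      have h1 : Real.exp (-k) ≤ Real.exp (-1) := Real.exp_le_exp.2 (by linarith)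
      have h2 : Real.exp (-1) ≤ 1 / 2 := by
        rw [Real.exp_neg, one_div]
        refine inv_anti₀ (by norm_num) ?_
        have := Real.add_one_le_exp 1
        linarith
      linarith
    have hWb : ∀ w ∈ W, w ∈ closedBall (-(κ1:ℂ)) (2 * e * k) := by
      intro w hw
      rw [hW] at hw
      obtain ⟨g1, g2, g3, g4⟩ := hw
      refine hcl w ?_ ?_ <;> rw [abs_le] <;> constructor <;> linarith
    have hz''W : z'' ∈ W := by
      rw [hW]
      refine ⟨?_, ?_, ?_, ?_⟩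
      · rw [hz''re]
        linarith
      · rw [hz''re]
        linarith
      · rw [hz''im]
        linarith
      · rw [hz''im]
        linarith
    have hWE : ∀ q ∈ W ×ˢ ({ρ} : Set ℂ), EqM f EU q := by
      refine Mer.eqM (ase_pre hWc ρ) (f := f) (g := EU) ?_ ?_ (p := (z'', ρ))
        ⟨hz''W, rfl⟩ hfU
      · rintro ⟨w', r⟩ ⟨hw', hr⟩
        rw [mem_singleton_iff] at hr
        simp only at hr hw'
        rw [hr]
        exact hfmer w' (hWb w' hw')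
      · rintro ⟨w', r⟩ ⟨hw', hr⟩
        rw [mem_singleton_iff] at hr
        simp only at hr hw'
        rw [hr, hEU]
        rw [hW] at hw'
        obtain ⟨g1, g2, g3, g4⟩ := hw'
        obtain ⟨a1, a2⟩ := han w' (by linarith) ⟨g2, by rw [Complex.sub_im]; linarith,
          by rw [Complex.sub_im]; linarith⟩
        exact merAt_of_analyticAt (ase_an hS.gd a1 a2)
    have hrr : rr k (A * k) ≤ 1 / 32 := by
      unfold rr Lk
      have h1 : 0 ≤ Real.log k := Real.log_nonneg (by linarith)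
      have h2 : 0 ≤ A * k / k * 10 ^ 10 := by
        have : 0 ≤ A * k := by linarith
        positivity
      refine one_div_le_one_div_of_le (by norm_num) ?_
      linarith
    refine hsing ⟨f, fun z hz3 => ?_, fun z hz3 hz4 => ?_⟩
    · rw [mem_ball_iff_norm] at hz3
      have h1 := (Complex.abs_re_le_norm (z - (z₁ + 2))).trans hz3.le
      have h2 := (Complex.abs_im_le_norm (z - (z₁ + 2))).trans hz3.le
      have h3 : (z - (z₁ + 2)).re = z.re - z₁.re - 2 := by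
        simp
        ring
      have h4 : (z - (z₁ + 2)).im = z.im - z₁.im := by simp
      rw [h3, abs_le] at h1
      rw [h4, abs_le] at h2
      refine hfmer z (hcl z ?_ ?_)
      · rw [abs_le]
        constructor <;> linarith [h1.1, h1.2]
      · rw [abs_le]
        constructor <;> linarith [h2.1, h2.2]
    · rw [mem_ball_iff_norm] at hz3
      have h1 := (Complex.abs_re_le_norm (z - (z₁ + 2))).trans hz3.le
      have h2 := (Complex.abs_im_le_norm (z - (z₁ + 2))).trans hz3.le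
      have h3 : (z - (z₁ + 2)).re = z.re - z₁.re - 2 := by
        simp
        ring
      have h4 : (z - (z₁ + 2)).im = z.im - z₁.im := by simp
      rw [h3, abs_le] at h1
      rw [h4, abs_le] at h2
      rw [Complex.sub_im] at hz4
      have h5 : EqM f EU (z, ρ) := by
        refine hWE (z, ρ) ⟨?_, rfl⟩
        rw [hW]
        exact ⟨by linarith [h1.1], by linarith [h1.2], by linarith [h2.1], by linarith⟩
      rw [hEU] at h5
      exact h5

end Pool.Agent.MP_ae5b4e_an_N4
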