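import Pool.Agent.Lib.MP_ae5b4e_an_N4.PtD

/-!
# N4, module AsF: the drift of the zero

`M s := C (1 + k ((s / rb) ^ (1/4) + (ra / s) ^ (1/4)))`, `a = ra exp l`, `b = rb exp (- l)`, `l ≥ 1`.
(0) `der_bd`: if `f` is analytic on `closedBall c r` and `|Im f| ≤ M` there then `‖deriv f c‖ ≤ 2 M / r`: Cauchy:
`2 π i f'(c) = ∮ f (z) / (z - c)^2`, i.e. `2 π r f'(c) = ∫_0^{2π} f (c + r e^{iθ}) e^{-iθ} dθ`, and
`∫ conj (f (c + r e^{iθ})) e^{-iθ} dθ = conj (∫ f (c + r e^{iθ}) e^{iθ} dθ) = 0`; subtract: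
`2 π r f'(c) = 2 i ∫ Im f · e^{-iθ} dθ`.  (Alternative without integrals: Borel–Carathéodory or the Schwarz
lemma for `f - f c`; a weaker constant `4 M / r` is enough, see below.)
(1) for `a ≤ s ≤ b` and `‖ρ' - i s‖ ≤ s / 10`: the disc `closedBall ρ' (s / 2)` is in the region: moduli in
`[4/10 s, 16/10 s] ⊆ (ra, rb)` (`e^{-1} 16 / 10 < 1 < e 4 / 10`), arguments within `0.65` of `π / 2`
(`|sin| ≤ 0.6`), so in `[ph1, π - ph1]`; there `|Im f| ≤ 2 M s` (`(16/10)^{1/4} ≤ 2`, `(10/4)^{1/4} ≤ 2`).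
So `‖deriv f ρ'‖ ≤ 16 M s / s` (constant `4 · 2 M s / (s / 2)`).
(2) `γ x := f (i e^x)` for `log a ≤ x ≤ log b`: `‖γ' x‖ ≤ 16 M (e^x)` and
`16 M (e^x) = d/dx [16 C (x + 4 k (e^x / rb)^{1/4} - 4 k (ra / e^x)^{1/4})]`, so for two points `s, s'` in `[a, b]`:
`‖f (i s) - f (i s')‖ ≤ 16 C (|log (s / s')| + 8 k e^{-l/4}) ≤ 16 C (C log k + 8 k e^{-l/4})`, since the function in
brackets `4 k (…)^{1/4}` varies by at most `8 k e^{-l/4}` (both terms are in `[0, 4 k e^{-l/4}]` on `[a, b]`);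
`hlen` for `|log (s / s')|`.  (Mathlib: `image_norm_le_of_norm_deriv_right_le_deriv_boundary` or
`norm_image_sub_le_of_norm_deriv_le_segment`-type with the function above; integrals also work.)
(3) apply with `s' = √(ra rb)` (in `[a, b]`: from `ra e^l ≤ r ≤ rb e^{-l}`, `√(ra rb) ≥ ra e^l` and
`≤ rb e^{-l}`) and `s = r`; then from `i r` to `ρ`: `‖f ρ - f (i r)‖ ≤ (r / 10) 16 M r / r ≤ 2 M r ≤ 2 C (1 + 2 k e^{-l/4})`
(mean value on the convex ball); and `|Im f (i √(ra rb))| ≤ M ≤ C (1 + 2 k e^{-l/4})`.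
Sum `≤ 16 C^2 log k + 128 C k e^{-l/4} + 3 C (1 + 2 k e^{-l/4}) ≤ 200 C^2 (1 + log k + k e^{-l/4})`.
-/

set_option autoImplicit false

noncomputable section

namespace Pool.Agent.MP_ae5b4e_an_N4

open Complex Set Filter Topology Metric

private theorem asf_der {f : ℂ → ℂ} {c : ℂ} {r M : ℝ} (hr : 0 < r) (hM0 : 0 < M)
    (hf : ∀ z ∈ closedBall c r, AnalyticAt ℂ f z) (hM : ∀ z ∈ closedBall c r, |(f z).im| ≤ M) :
    ‖deriv f c‖ ≤ 4 * M / r := by
  have hc : c ∈ closedBall c r := mem_closedBall_self hr.le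
  have hMc := hM c hc
  rw [abs_le] at hMc
  set u : ℂ → ℂ := fun z => -I * (f z - f c) with hu
  have hure : ∀ z ∈ closedBall c r, (u z).re ≤ 2 * M := by
    intro z hz
    have h1 := hM z hz
    rw [abs_le] at h1
    have h2 : (u z).re = (f z).im - (f c).im := by
      simp only [hu]
      rw [Complex.mul_re, Complex.neg_re, Complex.neg_im, Complex.I_re, Complex.I_im,
        Complex.sub_re, Complex.sub_im]
      ring
    rw [h2]
    linarith [h1.2, hMc.1]
  have hden : ∀ z ∈ closedBall c r, (4 * M : ℂ) - u z ≠ 0 := by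
    intro z hz h0
    have h1 : ((4 * M : ℂ) - u z).re = 0 := by rw [h0]; rfl
    have h2 : ((4 * M : ℂ) - u z).re = 4 * M - (u z).re := by
      rw [Complex.sub_re]
      simp
    rw [h2] at h1
    linarith [hure z hz]
  have hua : ∀ z ∈ closedBall c r, AnalyticAt ℂ u z := by
    intro z hz
    exact analyticAt_const.mul ((hf z hz).sub analyticAt_const)
  set φ : ℂ → ℂ := fun z => u z / ((4 * M : ℂ) - u z) with hφ
  have hφd : ∀ z ∈ closedBall c r, DifferentiableAt ℂ φ z := by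
    intro z hz
    exact ((hua z hz).div (analyticAt_const.sub (hua z hz)) (hden z hz)).differentiableAt
  have hφ1 : ∀ z ∈ closedBall c r, ‖φ z‖ ≤ 1 := by
    intro z hz
    simp only [hφ]
    rw [norm_div, div_le_one (norm_pos_iff.2 (hden z hz))]
    have h1 : ‖u z‖ ^ 2 ≤ ‖(4 * M : ℂ) - u z‖ ^ 2 := by
      rw [← Complex.normSq_eq_norm_sq, ← Complex.normSq_eq_norm_sq, Complex.normSq_apply,
        Complex.normSq_apply]
      have e1 : ((4 * M : ℂ) - u z).re = 4 * M - (u z).re := by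
        rw [Complex.sub_re]
        simp
      have e2 : ((4 * M : ℂ) - u z).im = -(u z).im := by
        rw [Complex.sub_im]
        simp
      rw [e1, e2]
      nlinarith [hure z hz]
    exact le_of_sq_le_sq h1 (norm_nonneg _)
  have hd : DiffContOnCl ℂ φ (ball c r) := by
    refine DifferentiableOn.diffContOnCl ?_
    rw [closure_ball c hr.ne']
    exact fun z hz => (hφd z hz).differentiableWithinAt
  have hcauchy := Complex.norm_deriv_le_of_forall_mem_sphere_norm_le hr hd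
    (fun z hz => hφ1 z (sphere_subset_closedBall hz))
  have huc : u c = 0 := by
    simp only [hu]
    rw [sub_self, mul_zero]
  have hM4 : (4 * M : ℂ) ≠ 0 := by
    have : (M : ℂ) ≠ 0 := by exact_mod_cast hM0.ne'
    exact mul_ne_zero (by norm_num) this
  have hud : HasDerivAt u (-I * deriv f c) c :=
    (((hf c hc).differentiableAt.hasDerivAt.sub_const (f c)).const_mul (-I))
  have hφ' : HasDerivAt φ (-I * deriv f c / (4 * M)) c := by
    have h1 := hud.div ((hasDerivAt_const c (4 * M : ℂ)).sub hud) (hden c hc)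
    refine h1.congr_deriv ?_
    have e0 : ((fun _ : ℂ => (4 * M : ℂ)) - u) c = 4 * M - u c := rfl
    rw [e0, huc, sub_zero, zero_mul, sub_zero]
    field_simp
  rw [hφ'.deriv, norm_div, norm_mul, norm_neg, Complex.norm_I, one_mul] at hcauchy
  have hn : ‖(4 * M : ℂ)‖ = 4 * M := by
    rw [norm_mul, Complex.norm_real, Real.norm_of_nonneg hM0.le]
    norm_num
  rw [hn, div_le_iff₀ (by positivity)] at hcauchy
  refine hcauchy.trans (le_of_eq ?_)
  ring

theorem der_bd {f : ℂ → ℂ} {c : ℂ} {r M : ℝ} (hr : 0 < r)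
    (hf : ∀ z ∈ closedBall c r, AnalyticAt ℂ f z) (hM : ∀ z ∈ closedBall c r, |(f z).im| ≤ M) :
    ‖deriv f c‖ ≤ 4 * M / r := by
  have hM0 : 0 ≤ M := (abs_nonneg _).trans (hM c (mem_closedBall_self hr.le))
  refine le_of_forall_pos_le_add fun ε hε => ?_
  have h1 := asf_der (M := M + ε * r / 4) hr (by positivity) hf (fun z hz =>
    (hM z hz).trans (by
      have : 0 < ε * r / 4 := by positivity
      linarith))
  refine h1.trans (le_of_eq ?_)
  field_simp

/-- the fourth root -/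
private theorem asf_pow {s t : ℝ} (hs : 0 < s) (ht : 0 < t) :
    (s / t) ^ (1 / 4 : ℝ) = Real.exp ((Real.log s - Real.log t) / 4) := by
  rw [Real.rpow_def_of_pos (div_pos hs ht), Real.log_div hs.ne' ht.ne']
  congr 1
  ring

private theorem asf_two {a b : ℝ} (ha : 0 ≤ a) (h : a ≤ 5 / 2 * b) (hb : 0 ≤ b) :
    a ^ (1 / 4 : ℝ) ≤ 2 * b ^ (1 / 4 : ℝ) := by
  calc a ^ (1 / 4 : ℝ) ≤ (16 * b) ^ (1 / 4 : ℝ) :=
        Real.rpow_le_rpow ha (by linarith) (by norm_num)
    _ = 16 ^ (1 / 4 : ℝ) * b ^ (1 / 4 : ℝ) := Real.mul_rpow (by norm_num) hb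
    _ = 2 * b ^ (1 / 4 : ℝ) := by
        congr 1
        rw [show (16 : ℝ) = 2 ^ (4 : ℝ) by norm_num, ← Real.rpow_mul (by norm_num)]
        norm_num

/-- the disc is in the region -/
private theorem asf_reg {ra rb l s : ℝ} (hra : 0 < ra) (hrb : 0 < rb) (hl : 1 ≤ l)
    (h1 : ra * Real.exp l ≤ s) (h2 : s ≤ rb * Real.exp (-l)) {z : ℂ}
    (hz : ‖z - s * I‖ ≤ 6 / 10 * s) :
    ra < ‖z‖ ∧ ‖z‖ < rb ∧ ph1 ≤ arg z ∧ arg z ≤ Real.pi - ph1 ∧
      (‖z‖ / rb) ^ (1 / 4 : ℝ) ≤ 2 * (s / rb) ^ (1 / 4 : ℝ) ∧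
      (ra / ‖z‖) ^ (1 / 4 : ℝ) ≤ 2 * (ra / s) ^ (1 / 4 : ℝ) := by
  have he : 27 / 10 < Real.exp l := by
    have h3 := Real.exp_one_gt_d9
    have h4 := Real.exp_le_exp.2 hl
    norm_num at h3 ⊢
    linarith
  have hexp : Real.exp (-l) * Real.exp l = 1 := by rw [← Real.exp_add]; simp
  have he' : Real.exp (-l) < 10 / 27 := by
    have h5 := Real.exp_pos (-l)
    nlinarith
  have hs : 0 < s := lt_of_lt_of_le (by positivity) h1
  have hsn : ‖(s : ℂ) * I‖ = s := by
    rw [norm_mul, Complex.norm_I, mul_one, Complex.norm_real, Real.norm_of_nonneg hs.le]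
  have hz1 : 4 / 10 * s ≤ ‖z‖ := by
    have h3 := norm_sub_norm_le (s * I : ℂ) z
    rw [hsn, norm_sub_rev] at h3
    linarith
  have hz2 : ‖z‖ ≤ 16 / 10 * s := by
    have h3 := norm_sub_norm_le z (s * I : ℂ)
    rw [hsn] at h3
    linarith
  have hzn : 0 < ‖z‖ := by linarith
  have him : 4 / 10 * s ≤ z.im := by
    have h3 := (Complex.abs_im_le_norm (z - s * I)).trans hz
    rw [Complex.sub_im, abs_le] at h3
    have h4 : ((s : ℂ) * I).im = s := by simp
    rw [h4] at h3
    linarith [h3.1]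
  have hsin := Complex.norm_mul_sin_arg z
  have harg0 : 0 ≤ arg z := Complex.arg_nonneg_iff.2 (by linarith)
  have hargpi := Complex.arg_le_pi z
  refine ⟨by nlinarith, by nlinarith, ?_, ?_, ?_, ?_⟩
  · by_contra hcon
    push Not at hcon
    unfold ph1 at hcon
    have h3 := Real.sin_le harg0
    have h4 : ‖z‖ * Real.sin (arg z) ≤ 16 / 10 * s * (1 / 800) := by
      calc ‖z‖ * Real.sin (arg z) ≤ ‖z‖ * (1 / 800) := by
            refine mul_le_mul_of_nonneg_left ?_ hzn.le
            linarith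
        _ ≤ _ := by nlinarith
    rw [hsin] at h4
    linarith
  · by_contra hcon
    push Not at hcon
    unfold ph1 at hcon
    have h3 := Real.sin_le (show 0 ≤ Real.pi - arg z by linarith)
    rw [Real.sin_pi_sub] at h3
    have h4 : ‖z‖ * Real.sin (arg z) ≤ 16 / 10 * s * (1 / 800) := by
      calc ‖z‖ * Real.sin (arg z) ≤ ‖z‖ * (1 / 800) := by
            refine mul_le_mul_of_nonneg_left ?_ hzn.le
            linarith
        _ ≤ _ := by nlinarith
    rw [hsin] at h4
    linarith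
  · refine asf_two (by positivity) ?_ (by positivity)
    rw [mul_div_assoc']
    refine div_le_div_of_nonneg_right ?_ hrb.le
    linarith
  · refine asf_two (by positivity) ?_ (by positivity)
    rw [mul_div_assoc', div_le_div_iff₀ hzn hs]
    nlinarith

theorem drift {f : ℂ → ℂ} {ra rb C k : ℝ} (hra : 0 < ra) (hC : 1 ≤ C) (hk : 1 ≤ k)
    (hf : ∀ ρ : ℂ, ra < ‖ρ‖ → ‖ρ‖ < rb → ph1 ≤ arg ρ → arg ρ ≤ Real.pi - ph1 → AnalyticAt ℂ f ρ)
    (hM : ∀ ρ : ℂ, ra < ‖ρ‖ → ‖ρ‖ < rb → ph1 ≤ arg ρ → arg ρ ≤ Real.pi - ph1 →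
      |(f ρ).im| ≤ C * (1 + k * ((‖ρ‖ / rb) ^ (1 / 4 : ℝ) + (ra / ‖ρ‖) ^ (1 / 4 : ℝ))))
    (hlen : Real.log (rb / ra) ≤ C * Real.log k) {l r : ℝ} (hl : 1 ≤ l)
    (h1 : ra * Real.exp l ≤ r) (h2 : r ≤ rb * Real.exp (-l)) {ρ : ℂ} (hρ : ‖ρ - r * I‖ ≤ r / 10) :
    ‖f ρ - ((f ((Real.sqrt (ra * rb) : ℝ) * I)).re : ℂ)‖ ≤
      200 * C ^ 2 * (1 + Real.log k + k * Real.exp (-(l / 4))) := by
  have hr : 0 < r := lt_of_lt_of_le (by positivity) h1
  have hrb : 0 < rb := by
    by_contra hcon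
    push Not at hcon
    have := Real.exp_pos (-l)
    nlinarith
  have hk0 : 0 < k := by linarith
  have hC0 : 0 < C := by linarith
  set e4 : ℝ := Real.exp (-(l / 4)) with he4
  have he40 : 0 < e4 := Real.exp_pos _
  have hlogk : 0 ≤ Real.log k := Real.log_nonneg hk
  -- the derivative bound
  have key : ∀ s : ℝ, ra * Real.exp l ≤ s → s ≤ rb * Real.exp (-l) → ∀ ρ' : ℂ,
      ‖ρ' - s * I‖ ≤ s / 10 → AnalyticAt ℂ f ρ' ∧
      |(f ρ').im| ≤ 2 * (C * (1 + k * ((s / rb) ^ (1 / 4 : ℝ) + (ra / s) ^ (1 / 4 : ℝ)))) ∧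
      ‖deriv f ρ'‖ * s ≤
        16 * (C * (1 + k * ((s / rb) ^ (1 / 4 : ℝ) + (ra / s) ^ (1 / 4 : ℝ)))) := by
    intro s hs1 hs2 ρ' hρ'
    have hs : 0 < s := lt_of_lt_of_le (by positivity) hs1
    set Ms : ℝ := C * (1 + k * ((s / rb) ^ (1 / 4 : ℝ) + (ra / s) ^ (1 / 4 : ℝ))) with hMs
    have hreg : ∀ z ∈ closedBall ρ' (s / 2), AnalyticAt ℂ f z ∧ |(f z).im| ≤ 2 * Ms := by
      intro z hz
      rw [mem_closedBall, dist_eq_norm] at hz
      have h3 : ‖z - s * I‖ ≤ 6 / 10 * s := by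
        have e : z - s * I = (z - ρ') + (ρ' - s * I) := by ring
        rw [e]
        refine (norm_add_le _ _).trans ?_
        linarith
      obtain ⟨g1, g2, g3, g4, g5, g6⟩ := asf_reg hra hrb hl hs1 hs2 h3
      refine ⟨hf z g1 g2 g3 g4, (hM z g1 g2 g3 g4).trans ?_⟩
      have h4 : k * ((‖z‖ / rb) ^ (1 / 4 : ℝ) + (ra / ‖z‖) ^ (1 / 4 : ℝ)) ≤
          k * (2 * (s / rb) ^ (1 / 4 : ℝ) + 2 * (ra / s) ^ (1 / 4 : ℝ)) :=
        mul_le_mul_of_nonneg_left (add_le_add g5 g6) hk0.le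
      calc C * (1 + k * ((‖z‖ / rb) ^ (1 / 4 : ℝ) + (ra / ‖z‖) ^ (1 / 4 : ℝ)))
          ≤ C * (2 + k * (2 * (s / rb) ^ (1 / 4 : ℝ) + 2 * (ra / s) ^ (1 / 4 : ℝ))) := by
            refine mul_le_mul_of_nonneg_left ?_ hC0.le
            linarith
        _ = 2 * Ms := by
            rw [hMs]
            ring
    have hc : ρ' ∈ closedBall ρ' (s / 2) := mem_closedBall_self (by positivity)
    refine ⟨(hreg ρ' hc).1, (hreg ρ' hc).2, ?_⟩
    have h5 := der_bd (M := 2 * Ms) (half_pos hs) (fun z hz => (hreg z hz).1)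
      (fun z hz => (hreg z hz).2)
    have h6 : 4 * (2 * Ms) / (s / 2) = 16 * Ms / s := by
      field_simp
      ring
    rw [h6, le_div_iff₀ hs] at h5
    exact h5
  -- powers
  have hpow1 : ∀ s : ℝ, 0 < s → s ≤ rb * Real.exp (-l) → (s / rb) ^ (1 / 4 : ℝ) ≤ e4 := by
    intro s hs hs2
    rw [asf_pow hs hrb, he4]
    apply Real.exp_le_exp.2
    have h3 := Real.log_le_log hs hs2
    rw [Real.log_mul hrb.ne' (Real.exp_pos _).ne', Real.log_exp] at h3
    linarith
  have hpow2 : ∀ s : ℝ, ra * Real.exp l ≤ s → (ra / s) ^ (1 / 4 : ℝ) ≤ e4 := by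
    intro s hs1
    have hs : 0 < s := lt_of_lt_of_le (by positivity) hs1
    rw [asf_pow hra hs, he4]
    apply Real.exp_le_exp.2
    have h3 := Real.log_le_log (by positivity) hs1
    rw [Real.log_mul hra.ne' (Real.exp_pos _).ne', Real.log_exp] at h3
    linarith
  have hMle : ∀ s : ℝ, ra * Real.exp l ≤ s → s ≤ rb * Real.exp (-l) →
      C * (1 + k * ((s / rb) ^ (1 / 4 : ℝ) + (ra / s) ^ (1 / 4 : ℝ))) ≤
        C * (1 + 2 * k * e4) := by
    intro s hs1 hs2
    have hs : 0 < s := lt_of_lt_of_le (by positivity) hs1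
    refine mul_le_mul_of_nonneg_left ?_ hC0.le
    have h3 := mul_le_mul_of_nonneg_left (add_le_add (hpow1 s hs hs2) (hpow2 s hs1)) hk0.le
    linarith
  -- logs
  have hloga : Real.log (ra * Real.exp l) = Real.log ra + l := by
    rw [Real.log_mul hra.ne' (Real.exp_pos _).ne', Real.log_exp]
  have hlogb : Real.log (rb * Real.exp (-l)) = Real.log rb - l := by
    rw [Real.log_mul hrb.ne' (Real.exp_pos _).ne', Real.log_exp]
    ring
  have hlen' : Real.log rb - Real.log ra ≤ C * Real.log k := by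
    rwa [Real.log_div hrb.ne' hra.ne'] at hlen
  -- along the axis
  have haxis : ∀ x1 x2 : ℝ, Real.log ra + l ≤ x1 → x1 ≤ x2 → x2 ≤ Real.log rb - l →
      ‖f ((Real.exp x2 : ℝ) * I) - f ((Real.exp x1 : ℝ) * I)‖ ≤
        16 * C * (C * Real.log k + 8 * k * e4) := by
    intro x1 x2 hx1 hx12 hx2
    have hin : ∀ x : ℝ, x ∈ Icc x1 x2 → ra * Real.exp l ≤ Real.exp x ∧
        Real.exp x ≤ rb * Real.exp (-l) := by
      intro x hx
      constructor
      · rw [← Real.exp_log hra, ← Real.exp_add]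
        exact Real.exp_le_exp.2 (by linarith [hx.1])
      · rw [← Real.exp_log hrb, ← Real.exp_add]
        exact Real.exp_le_exp.2 (by linarith [hx.2])
    have hder : ∀ x : ℝ, x ∈ Icc x1 x2 →
        HasDerivAt (fun x : ℝ => f ((Real.exp x : ℝ) * I) - f ((Real.exp x1 : ℝ) * I))
          (deriv f ((Real.exp x : ℝ) * I) * ((Real.exp x : ℝ) * I)) x := by
      intro x hx
      obtain ⟨i1, i2⟩ := hin x hx
      obtain ⟨k1, -, -⟩ := key (Real.exp x) i1 i2 ((Real.exp x : ℝ) * I)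
        (by rw [sub_self, norm_zero]; positivity)
      have h3 : HasDerivAt (fun x : ℝ => ((Real.exp x : ℝ) : ℂ) * I) ((Real.exp x : ℝ) * I) x :=
        (Real.hasDerivAt_exp x).ofReal_comp.mul_const I
      exact (HasDerivAt.comp x k1.differentiableAt.hasDerivAt h3).sub_const _
    have hB : ∀ x : ℝ, HasDerivAt (fun x : ℝ => 16 * C * ((x - x1) +
        4 * k * (Real.exp ((x - Real.log rb) / 4) - Real.exp ((x1 - Real.log rb) / 4)) +
        4 * k * (Real.exp ((Real.log ra - x1) / 4) - Real.exp ((Real.log ra - x) / 4))))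
        (16 * C * (1 + k * (Real.exp ((x - Real.log rb) / 4) +
          Real.exp ((Real.log ra - x) / 4)))) x := by
      intro x
      have d1 : HasDerivAt (fun x : ℝ => (x - Real.log rb) / 4) (1 / 4) x :=
        ((hasDerivAt_id x).sub_const _).div_const 4
      have d2 : HasDerivAt (fun x : ℝ => (Real.log ra - x) / 4) (-1 / 4) x :=
        ((hasDerivAt_id x).const_sub _).div_const 4
      have d3 := (((hasDerivAt_id x).sub_const x1).add
        ((d1.exp.sub_const (Real.exp ((x1 - Real.log rb) / 4))).const_mul (4 * k))).add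
        ((d2.exp.const_sub (Real.exp ((Real.log ra - x1) / 4))).const_mul (4 * k))
      refine (d3.const_mul (16 * C)).congr_deriv ?_
      ring
    have hmain := image_norm_le_of_norm_deriv_right_le_deriv_boundary'
      (f := fun x : ℝ => f ((Real.exp x : ℝ) * I) - f ((Real.exp x1 : ℝ) * I))
      (f' := fun x => deriv f ((Real.exp x : ℝ) * I) * ((Real.exp x : ℝ) * I)) (a := x1) (b := x2)
      (fun x hx => (hder x hx).continuousAt.continuousWithinAt)
      (fun x hx => (hder x (Ico_subset_Icc_self hx)).hasDerivWithinAt)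
      (B := fun x : ℝ => 16 * C * ((x - x1) +
        4 * k * (Real.exp ((x - Real.log rb) / 4) - Real.exp ((x1 - Real.log rb) / 4)) +
        4 * k * (Real.exp ((Real.log ra - x1) / 4) - Real.exp ((Real.log ra - x) / 4))))
      (B' := fun x => 16 * C * (1 + k * (Real.exp ((x - Real.log rb) / 4) +
          Real.exp ((Real.log ra - x) / 4))))
      (by simp) (fun x _ => (hB x).continuousAt.continuousWithinAt)
      (fun x _ => (hB x).hasDerivWithinAt)
      (fun x hx => by
        obtain ⟨i1, i2⟩ := hin x (Ico_subset_Icc_self hx)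
        obtain ⟨-, -, k3⟩ := key (Real.exp x) i1 i2 ((Real.exp x : ℝ) * I)
          (by rw [sub_self, norm_zero]; positivity)
        rw [asf_pow (Real.exp_pos x) hrb, asf_pow hra (Real.exp_pos x), Real.log_exp] at k3
        rw [norm_mul, norm_mul, Complex.norm_I, mul_one, Complex.norm_real,
          Real.norm_of_nonneg (Real.exp_pos x).le]
        refine k3.trans (le_of_eq ?_)
        ring) (right_mem_Icc.2 hx12)
    refine hmain.trans ?_
    have q1 : Real.exp ((x2 - Real.log rb) / 4) ≤ e4 := Real.exp_le_exp.2 (by linarith)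
    have q2 : Real.exp ((Real.log ra - x1) / 4) ≤ e4 := Real.exp_le_exp.2 (by linarith)
    have q3 := Real.exp_pos ((x1 - Real.log rb) / 4)
    have q4 := Real.exp_pos ((Real.log ra - x2) / 4)
    have q5 : x2 - x1 ≤ C * Real.log k := by linarith
    have q6 : (x2 - x1) +
        4 * k * (Real.exp ((x2 - Real.log rb) / 4) - Real.exp ((x1 - Real.log rb) / 4)) +
        4 * k * (Real.exp ((Real.log ra - x1) / 4) - Real.exp ((Real.log ra - x2) / 4)) ≤
        C * Real.log k + 8 * k * e4 := by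
      have q7 : 4 * k * (Real.exp ((x2 - Real.log rb) / 4) - Real.exp ((x1 - Real.log rb) / 4)) ≤
          4 * k * e4 := mul_le_mul_of_nonneg_left (by linarith) (by positivity)
      have q8 : 4 * k * (Real.exp ((Real.log ra - x1) / 4) - Real.exp ((Real.log ra - x2) / 4)) ≤
          4 * k * e4 := mul_le_mul_of_nonneg_left (by linarith) (by positivity)
      linarith
    exact mul_le_mul_of_nonneg_left q6 (by positivity)
  -- the middle point
  have hlogab : Real.log ra + l ≤ Real.log rb - l := by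
    rw [← hloga, ← hlogb]
    exact Real.log_le_log (by positivity) (h1.trans h2)
  have hlr1 : Real.log ra + l ≤ Real.log r := by
    rw [← hloga]
    exact Real.log_le_log (by positivity) h1
  have hlr2 : Real.log r ≤ Real.log rb - l := by
    rw [← hlogb]
    exact Real.log_le_log hr h2
  set m : ℝ := Real.sqrt (ra * rb) with hm
  have hm0 : 0 < m := Real.sqrt_pos.2 (by positivity)
  have hlogm : Real.log m = (Real.log ra + Real.log rb) / 2 := by
    rw [hm, Real.log_sqrt (by positivity), Real.log_mul hra.ne' hrb.ne']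
  have hm1 : Real.log ra + l ≤ Real.log m := by rw [hlogm]; linarith
  have hm2 : Real.log m ≤ Real.log rb - l := by rw [hlogm]; linarith
  have hmr1 : ra * Real.exp l ≤ m := by
    rw [← Real.exp_log hm0, ← Real.exp_log hra, ← Real.exp_add]
    simpa using hm1
  have hmr2 : m ≤ rb * Real.exp (-l) := by
    rw [← Real.exp_log hm0, ← Real.exp_log hrb, ← Real.exp_add]
    have := hm2
    rw [sub_eq_add_neg] at this
    simpa using this
  have hA : ‖f (r * I) - f (m * I)‖ ≤ 16 * C * (C * Real.log k + 8 * k * e4) := by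
    rcases le_total (Real.log m) (Real.log r) with h3 | h3
    · have h4 := haxis (Real.log m) (Real.log r) hm1 h3 hlr2
      rwa [Real.exp_log hm0, Real.exp_log hr] at h4
    · have h4 := haxis (Real.log r) (Real.log m) hlr1 h3 hm2
      rw [Real.exp_log hm0, Real.exp_log hr] at h4
      rwa [norm_sub_rev]
  have hB : ‖f ρ - f (r * I)‖ ≤ 2 * (C * (1 + 2 * k * e4)) := by
    have hcv := (convex_closedBall (r * I : ℂ) (r / 10)).norm_image_sub_le_of_norm_deriv_le
      (f := f) (x := r * I) (y := ρ) (C := 16 * (C * (1 + 2 * k * e4)) / r)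
      (fun z hz => by
        rw [mem_closedBall, dist_eq_norm] at hz
        exact (key r h1 h2 z hz).1.differentiableAt)
      (fun z hz => by
        rw [mem_closedBall, dist_eq_norm] at hz
        rw [le_div_iff₀ hr]
        have h3 := (key r h1 h2 z hz).2.2
        have h4 := hMle r h1 h2
        linarith)
      (mem_closedBall_self (by positivity)) (by rwa [mem_closedBall, dist_eq_norm])
    refine hcv.trans ?_
    have h3 : 16 * (C * (1 + 2 * k * e4)) / r * ‖ρ - r * I‖ ≤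
        16 * (C * (1 + 2 * k * e4)) / r * (r / 10) :=
      mul_le_mul_of_nonneg_left hρ (by positivity)
    have h4 : 16 * (C * (1 + 2 * k * e4)) / r * (r / 10) = 16 / 10 * (C * (1 + 2 * k * e4)) := by
      field_simp
    have h5 : 0 ≤ C * (1 + 2 * k * e4) := by positivity
    linarith
  have hD : ‖f (m * I) - ((f (m * I)).re : ℂ)‖ ≤ 2 * (C * (1 + 2 * k * e4)) := by
    have e : f (m * I) - ((f (m * I)).re : ℂ) = ((f (m * I)).im : ℂ) * I := by
      rw [sub_eq_iff_eq_add, add_comm]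
      exact (Complex.re_add_im _).symm
    rw [e, norm_mul, Complex.norm_I, mul_one, Complex.norm_real, Real.norm_eq_abs]
    have h3 := (key m hmr1 hmr2 (m * I) (by rw [sub_self, norm_zero]; positivity)).2.1
    have h4 := hMle m hmr1 hmr2
    linarith
  have hsum : f ρ - ((f (m * I)).re : ℂ) = (f ρ - f (r * I)) + (f (r * I) - f (m * I)) +
      (f (m * I) - ((f (m * I)).re : ℂ)) := by ring
  rw [hsum]
  refine (norm_add₃_le).trans ?_
  have hke : 0 < k * e4 := by positivity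
  have hCC : C ≤ C ^ 2 := by nlinarith
  have t1 : C * (k * e4) ≤ C ^ 2 * (k * e4) := mul_le_mul_of_nonneg_right hCC hke.le
  have t2 : 0 ≤ C ^ 2 * Real.log k := by positivity
  nlinarith [hA, hB, hD]

end Pool.Agent.MP_ae5b4e_an_N4
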