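import Pool.Agent.Lib.MP_ae5b4e_an_N4.Ell
import Pool.Agent.Lib.MP_ae5b4e_an_N4.Itf

/-!
# N4, module Orb: the chain as an orbit, `Std` implies `Chn`

* `orb_left`: `nst X p.1 = 0`.
* `orb_step`: `nst X p.1 = nst X (p.1 - 1) + 1` for `-X < p.1.re` (`Nat.ceil_sub_one`, or
  `Nat.ceil` of `x > 0` is `⌈x - 1⌉₊ + 1`, also for `x ≤ 1`), and
  `p.1 - nst X p.1 = (p.1 - 1) - nst X (p.1 - 1)`; `Function.iterate_succ_apply'`.
* `orb_near`: for `z.re = -X`: near `(z, ρ₀)`, if `p.1.re ≤ -X`, then `orb_left`; if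
  `-X < p.1.re`, then `orb T S0 X p = T (orb T S0 X (p.1 - 1, p.2)) = T (S0 (p.1 - 1, p.2)) = S0 p`.
* `chn_p`: `an`, `ss`, `sds`, `sl`, `sdl` from the fields of `Std`, since
  `orb … =ᶠ[𝓝 (z, ρ₀)] S0` for every `z` of the start zone (`orb_near` if `z.re = -X`, otherwise
  `orb_left` near `(z, ρ₀)`); the derivatives of `w ↦ (orb … (w, ρ₀)).1` and of `w ↦ (S0 (w, ρ₀)).1`
  at `z` agree (`Filter.EventuallyEq.deriv_eq`, the map `w ↦ (w, ρ₀)` is continuous);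
  `step` is `orb_step`.
* `chn_u`: the same; the hypothesis of `orb_near` for `ellu`: near `(z - 1, ρ₀)` (continuity of `S0`
  there, `S0 (z - 1, ρ₀)).1` is within `δ` of `(z - 1) / ν - 1 / 2`, whose real part is
  `-(X + 1) / ν - 1 / 2 ≤ -10 ^ 9`) the first component `s` of `S0 (p.1 - 1, p.2)` satisfies
  `s.re < -1`, so
  `ellp s = ellu s` (`ellp_eq_ellu`) and `stp ellp … = stp ellu …` at this state.
-/

set_option autoImplicit false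

noncomputable section

namespace Pool.Agent.MP_ae5b4e_an_N4

open Complex Set Filter Topology Metric

theorem orb_left {T S0 : ℂ × ℂ → ℂ × ℂ} {X : ℝ} {p : ℂ × ℂ} (h : p.1.re ≤ -X) :
    orb T S0 X p = S0 p := by
  have h0 : nst X p.1 = 0 := by
    unfold nst
    rw [Nat.ceil_eq_zero]
    linarith
  unfold orb
  rw [h0]
  simp

theorem orb_step {T S0 : ℂ × ℂ → ℂ × ℂ} {X : ℝ} {p : ℂ × ℂ} (h : -X < p.1.re) :
    orb T S0 X p = T (orb T S0 X (p.1 - 1, p.2)) := by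
  have h0 : nst X p.1 = nst X (p.1 - 1) + 1 := by
    unfold nst
    have h1 : (p.1 - 1).re + X = p.1.re + X - 1 := by
      rw [sub_re, one_re]
      ring
    have h2 : 0 < ⌈p.1.re + X⌉₊ := Nat.ceil_pos.2 (by linarith)
    rw [h1, Nat.ceil_sub_one]
    omega
  unfold orb
  rw [h0, Function.iterate_succ_apply']
  have h3 : p.1 - ((nst X (p.1 - 1) + 1 : ℕ) : ℂ) = p.1 - 1 - (nst X (p.1 - 1) : ℂ) := by
    push_cast
    ring
  rw [h3]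

theorem orb_near {T S0 : ℂ × ℂ → ℂ × ℂ} {X : ℝ} {z ρ₀ : ℂ} (h : z.re = -X)
    (hT : ∀ᶠ p in 𝓝 (z, ρ₀), S0 p = T (S0 (p.1 - 1, p.2))) :
    orb T S0 X =ᶠ[𝓝 (z, ρ₀)] S0 := by
  have h1 : ∀ᶠ p : ℂ × ℂ in 𝓝 (z, ρ₀), p.1.re < -X + 1 :=
    ((continuous_re.comp continuous_fst).tendsto (z, ρ₀)).eventually_lt_const
      (show z.re < -X + 1 by linarith)
  filter_upwards [hT, h1] with p hp hp1
  rcases le_or_gt p.1.re (-X) with h2 | h2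
  · exact orb_left h2
  · rw [orb_step h2, hp]
    congr 1
    refine orb_left ?_
    show (p.1 - 1).re ≤ -X
    rw [sub_re, one_re]
    linarith

private theorem orb_aux {T S0 : ℂ × ℂ → ℂ × ℂ} {X : ℝ} {z ρ₀ : ℂ} (h : z.re ≤ -X)
    (hT : z.re = -X → ∀ᶠ p in 𝓝 (z, ρ₀), S0 p = T (S0 (p.1 - 1, p.2))) :
    orb T S0 X =ᶠ[𝓝 (z, ρ₀)] S0 := by
  rcases h.lt_or_eq with h1 | h1
  · have h2 : ∀ᶠ p : ℂ × ℂ in 𝓝 (z, ρ₀), p.1.re < -X :=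
      ((continuous_re.comp continuous_fst).tendsto (z, ρ₀)).eventually_lt_const h1
    filter_upwards [h2] with p hp
    exact orb_left hp.le
  · exact orb_near h1 (hT h1)

private theorem orb_aux_u {k ν X δ η Dl s1 s2 : ℝ} {G n g : ℂ → ℂ} {S0 : ℂ × ℂ → ℂ × ℂ}
    {ρ₀ : ℂ} (hS : Std k ν X δ η Dl s1 s2 G n g S0 ρ₀) {z : ℂ} (h : z.re = -X)
    (him : |z.im| ≤ k) :
    ∀ᶠ p in 𝓝 (z, ρ₀), S0 p = stp ellu (Bx s1 s2) G g (S0 (p.1 - 1, p.2)) := by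
  have hre : (z - 1).re = -X - 1 := by
    rw [sub_re, one_re, h]
  have him' : |(z - 1).im| ≤ k := by
    rw [sub_im, one_im, sub_zero]
    exact him
  have h1 : -X - 1 ≤ (z - 1).re := hre.ge
  have h2 : (z - 1).re ≤ -X := by
    rw [hre]
    linarith
  have hss := hS.ss (z - 1) h1 h2 him'
  have hk := hS.par.hk
  have hX := hS.par.hX
  have hν1 := hS.par.ν1
  have hν2 := hS.par.ν2
  have hδ := hS.par.δ1
  have hk0 : (0:ℝ) < k := lt_of_lt_of_le (by positivity) hk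
  have hν0 : 0 < ν := by linarith
  have hlt : (S0 (z - 1, ρ₀)).1.re < -1 := by
    have e1 := (abs_le.1 ((Complex.abs_re_le_norm _).trans hss)).2
    rw [sub_re, sub_re] at e1
    have e2 : ((z - 1) / (ν:ℂ)).re = (-X - 1) / ν := by
      rw [Complex.div_ofReal_re, hre]
    have e3 : ((1:ℂ) / 2).re = 1 / 2 := by norm_num
    rw [e2, e3] at e1
    have e4 : (-X - 1) / ν ≤ -1 := by
      rw [div_le_iff₀ hν0]
      nlinarith
    have e5 : (1:ℝ) / 10 ^ 12 < 1 / 2 := by norm_num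
    linarith
  have hcont : ContinuousAt (fun p : ℂ × ℂ => S0 (p.1 - 1, p.2)) (z, ρ₀) := by
    have e1 : ContinuousAt (fun p : ℂ × ℂ => (p.1 - 1, p.2)) (z, ρ₀) := by fun_prop
    exact ContinuousAt.comp (g := S0) (f := fun p : ℂ × ℂ => (p.1 - 1, p.2))
      (hS.an (z - 1) h1 h2 him').continuousAt e1
  have hev : ∀ᶠ p in 𝓝 (z, ρ₀), (S0 (p.1 - 1, p.2)).1.re < -1 :=
    ((continuous_re.comp continuous_fst).continuousAt.comp hcont).tendsto.eventually_lt_const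
      hlt
  filter_upwards [hS.st z h him, hev] with p hp1 hp2
  rw [hp1]
  unfold stp
  rw [ellp_eq_ellu (Or.inl hp2)]

private theorem chn_of {k ν X δ η Dl s1 s2 : ℝ} {G n g ell : ℂ → ℂ} {S0 O : ℂ × ℂ → ℂ × ℂ}
    {ρ₀ : ℂ} (hS : Std k ν X δ η Dl s1 s2 G n g S0 ρ₀)
    (hO : ∀ z : ℂ, -X - 1 ≤ z.re → z.re ≤ -X → |z.im| ≤ k → O =ᶠ[𝓝 (z, ρ₀)] S0)
    (hst : ∀ z : ℂ, -X < z.re → ∀ ρ, O (z, ρ) = stp ell (Bx s1 s2) G g (O (z - 1, ρ))) :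
    Chn k ν X δ η Dl s1 s2 G n g ell O ρ₀ := by
  have hd : ∀ z : ℂ, -X - 1 ≤ z.re → z.re ≤ -X → |z.im| ≤ k →
      (fun w => O (w, ρ₀)) =ᶠ[𝓝 z] fun w => S0 (w, ρ₀) := by
    intro z h1 h2 h3
    have e1 : Tendsto (fun w : ℂ => (w, ρ₀)) (𝓝 z) (𝓝 (z, ρ₀)) :=
      (Continuous.prodMk_left ρ₀).tendsto z
    exact e1.eventually (hO z h1 h2 h3)
  refine ⟨hS.par, hS.gd, hS.hρ, hS.th1, hS.th2, hS.b1, hS.b2, ?_, ?_, ?_, ?_, ?_, hst⟩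
  · intro z h1 h2 h3
    exact (hS.an z h1 h2 h3).congr (hO z h1 h2 h3).symm
  · intro z h1 h2 h3
    rw [(hO z h1 h2 h3).self_of_nhds]
    exact hS.ss z h1 h2 h3
  · intro z h1 h2 h3
    have e1 : (fun w => (O (w, ρ₀)).1) =ᶠ[𝓝 z] fun w => (S0 (w, ρ₀)).1 := by
      filter_upwards [hd z h1 h2 h3] with w hw
      rw [hw]
    rw [e1.deriv_eq]
    exact hS.sds z h1 h2 h3
  · intro z h1 h2 h3
    rw [(hO z h1 h2 h3).self_of_nhds]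
    exact hS.sl z h1 h2 h3
  · intro z h1 h2 h3
    have e1 : (fun w => (O (w, ρ₀)).2) =ᶠ[𝓝 z] fun w => (S0 (w, ρ₀)).2 := by
      filter_upwards [hd z h1 h2 h3] with w hw
      rw [hw]
    rw [e1.deriv_eq]
    exact hS.sdl z h1 h2 h3

theorem chn_p {k ν X δ η Dl s1 s2 : ℝ} {G n g : ℂ → ℂ} {S0 : ℂ × ℂ → ℂ × ℂ} {ρ₀ : ℂ}
    (hS : Std k ν X δ η Dl s1 s2 G n g S0 ρ₀) :
    Chn k ν X δ η Dl s1 s2 G n g ellp (orb (stp ellp (Bx s1 s2) G g) S0 X) ρ₀ := by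
  refine chn_of hS (fun z _ h2 h3 => orb_aux h2 fun h => hS.st z h h3) fun z hz ρ => ?_
  exact orb_step (p := (z, ρ)) hz

theorem chn_u {k ν X δ η Dl s1 s2 : ℝ} {G n g : ℂ → ℂ} {S0 : ℂ × ℂ → ℂ × ℂ} {ρ₀ : ℂ}
    (hS : Std k ν X δ η Dl s1 s2 G n g S0 ρ₀) :
    Chn k ν X δ η Dl s1 s2 G n g ellu (orb (stp ellu (Bx s1 s2) G g) S0 X) ρ₀ := by
  refine chn_of hS (fun z _ h2 h3 => orb_aux h2 fun h => orb_aux_u hS h h3) fun z hz ρ => ?_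
  exact orb_step (p := (z, ρ)) hz

/-- the two chains agree near the start zone -/
theorem orb_eq {k ν X δ η Dl s1 s2 : ℝ} {G n g : ℂ → ℂ} {S0 : ℂ × ℂ → ℂ × ℂ} {ρ₀ : ℂ}
    (hS : Std k ν X δ η Dl s1 s2 G n g S0 ρ₀) {z : ℂ} (h1 : -X - 1 ≤ z.re) (h2 : z.re ≤ -X)
    (h3 : |z.im| ≤ k) :
    orb (stp ellu (Bx s1 s2) G g) S0 X =ᶠ[𝓝 (z, ρ₀)] S0 ∧
      orb (stp ellp (Bx s1 s2) G g) S0 X =ᶠ[𝓝 (z, ρ₀)] S0 := by
  have _ := h1
  exact ⟨orb_aux h2 fun h => orb_aux_u hS h h3, orb_aux h2 fun h => hS.st z h h3⟩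

end Pool.Agent.MP_ae5b4e_an_N4
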