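import Pool.Agent.Lib.MP_ae5b4e_an_N4.Ell

/-!
# N4, module EllB: bounds for `ellp` and `ellu`

* `ellp_far`: `‖log (1 + w)‖ ≤ 2 ‖w‖` for `‖w‖ ≤ 1 / 2` (Mathlib:
  `Complex.norm_log_one_add_le` or `norm_log_one_add_half_le_self`), `w = 1 / s`.
* `ellp_near`, `ellu_near`: the real part is `log ‖s + 1‖ - log ‖s‖` (`lgu_re`; for `ellp`:
  `log_re`, `‖1 + 1/s‖ = ‖s + 1‖ / ‖s‖`), `‖s + 1‖ ≤ 5`, `1/3 ≤ ‖s‖ ≤ 4`:
  it is `≤ log 15 ≤ 3` and `≥ - log⁺ (1 / ‖s + 1‖) - log 4 ≥ - log⁺ (1 / ‖s + 1‖) - 3 / 2`.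
  The imaginary part is `≤ π` (`ellp`), `≤ 2 π < 7` (`ellu`: `lgu_im` twice) in absolute value.
* `ellp_im_pi`: `arg ∈ (-π, π]`.
* `ellp_im`: let `x = s.re + 1 < 0`, `y = s.im`.  `1 + 1 / s = (s + 1) conj s / ‖s‖ ^ 2`, and
  `(s + 1) conj s = (x + i y) (x - 1 - i y)` has real part `x (x - 1) + y ^ 2 > 0` and imaginary part
  `y (x - 1) - x y = - y`.  So `|Im ellp s| = |arctan (y / (x (x - 1) + y ^ 2))| ≤
  |y| / (x (x - 1)) = |y| / (|x| (|x| + 1))` (`|arctan t| ≤ |t|`; `Complex.arg` of a number with positive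
  real part is `arcsin (im / norm)` or `arctan (im / re)`; alternatively: for a complex number `w` with
  `w.re > 0`: `|arg w| ≤ |w.im| / w.re`).
* `ellu_im_low`: for `s.im < 0`: `ellu = ellp`, and `Im ellp s ∈ [0, π]` as the imaginary part of
  `(s + 1) conj s` is `- s.im > 0`.
* `ellu_im_right`: `a = s + 1`, `a.re > 0`, `a.im ≤ 1.1 a.re`: `Im lgu a = arg a ∈ (- π / 2, arctan 1.1]`,
  `arctan 1.1 ≤ 0.84`; `s.re ≤ - 1 / 3`, `s.im ≤ 1 / 100`: `Im lgu s ∈ [- π - 0.03, - π / 2)`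
  (`lgu_neg`; `s.im ≤ 0`: `≥ -π`; `0 < s.im ≤ 1/100`: `- π - arctan (s.im / |s.re|)`,
  `arctan ≤ 0.03`).  The difference is in `[0, 0.84 + π + 0.03] ⊆ [0, 4.05]`.
  (`lgu w` for `w.re > 0` is the principal logarithm; for `w.re < 0` it is `log (- w) - π I`: both
  follow from `exp_lgu`, `lgu_neg` and the injectivity of `exp` on horizontal strips of width
  `2 π`.)
-/

set_option autoImplicit false

noncomputable section

namespace Pool.Agent.MP_ae5b4e_an_N4

open Complex Set Filter Topology Metric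
open scoped ComplexConjugate

private theorem EllB_arctan {t : ℝ} (ht : 0 ≤ t) : Real.arctan t ≤ t := by
  rcases ht.eq_or_lt with h | h
  · rw [← h, Real.arctan_zero]
  · have h1 : 0 < Real.arctan t := Real.arctan_pos.2 h
    have h2 := Real.lt_tan h1 (Real.arctan_lt_pi_div_two t)
    rw [Real.tan_arctan] at h2
    exact h2.le

private theorem EllB_arg_eq {w : ℂ} (h : 0 < w.re) : arg w = Real.arctan (w.im / w.re) := by
  have h1 : |arg w| < Real.pi / 2 := abs_arg_lt_pi_div_two_iff.2 (Or.inl h)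
  rw [abs_lt] at h1
  rw [← tan_arg, Real.arctan_tan h1.1 h1.2]

private theorem EllB_arg {w : ℂ} (h : 0 < w.re) : |arg w| ≤ |w.im| / w.re := by
  rw [EllB_arg_eq h]
  rcases le_total 0 w.im with h0 | h0
  · rw [abs_of_nonneg (Real.arctan_nonneg.2 (div_nonneg h0 h.le)), abs_of_nonneg h0]
    exact EllB_arctan (div_nonneg h0 h.le)
  · have h1 : 0 ≤ -w.im / w.re := div_nonneg (by linarith) h.le
    rw [← abs_neg, ← Real.arctan_neg, ← neg_div, abs_of_nonneg (Real.arctan_nonneg.2 h1),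
      abs_of_nonpos h0]
    exact EllB_arctan h1

/-- `lgu` is the principal logarithm on the right half plane -/
private theorem EllB_right {w : ℂ} (h : 0 < w.re) : (lgu w).im = arg w := by
  have hw : w ≠ 0 := by
    rintro rfl
    simp at h
  have h1 : 0 ≤ arg (w * I) := arg_nonneg_iff.2 (by simp [h.le])
  have h2 : arg (w * I) ≤ Real.pi := arg_le_pi _
  have h3 : (lgu w).im = arg (w * I) - Real.pi / 2 := by
    unfold lgu
    rw [sub_im, log_im, mul_im, ofReal_re, ofReal_im, I_im, I_re]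
    ring
  have hpi := Real.pi_pos
  have h4 := log_exp (x := lgu w) (by rw [h3]; linarith) (by rw [h3]; linarith)
  rw [exp_lgu hw] at h4
  rw [← h4, log_im]

/-- `lgu` on the left half plane -/
private theorem EllB_left {w : ℂ} (h : w.re < 0) : (lgu w).im = arg (-w) - Real.pi := by
  have hw : w ≠ 0 := by
    rintro rfl
    simp at h
  obtain ⟨h1, h2⟩ := lgu_neg h
  have hpi := Real.pi_pos
  have h3 : (lgu w + (Real.pi : ℂ) * I).im = (lgu w).im + Real.pi := by
    rw [add_im, mul_im, ofReal_re, ofReal_im, I_im, I_re]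
    ring
  have h4 := log_exp (x := lgu w + (Real.pi : ℂ) * I) (by rw [h3]; linarith) (by rw [h3]; linarith)
  rw [exp_add, exp_lgu hw, exp_pi_mul_I, mul_neg_one] at h4
  have h5 : (log (-w)).im = (lgu w + (Real.pi : ℂ) * I).im := by rw [h4]
  rw [h3, log_im] at h5
  linarith

private theorem EllB_log4 : Real.log 4 ≤ 3 / 2 := by
  have h1 : Real.log 4 = 2 * Real.log 2 := by
    rw [show (4 : ℝ) = 2 ^ 2 by norm_num, Real.log_pow]
    norm_num
  have h2 := Real.log_two_lt_d9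
  linarith

private theorem EllB_log5 : Real.log 5 ≤ 2 := by
  rw [Real.log_le_iff_le_exp (by norm_num)]
  have h1 := Real.exp_one_gt_d9
  have h2 : Real.exp 2 = Real.exp 1 * Real.exp 1 := by
    rw [← Real.exp_add]
    norm_num
  rw [h2]
  nlinarith

/-- the real part -/
private theorem EllB_re {s : ℂ} (h : 1 / 3 ≤ ‖s‖) (h2 : ‖s‖ ≤ 4) (h1 : s + 1 ≠ 0) :
    |Real.log ‖s + 1‖ - Real.log ‖s‖| ≤ 7 / 2 + Real.posLog (1 / ‖s + 1‖) := by
  have hs : 0 < ‖s‖ := by linarith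
  have hs1 : 0 < ‖s + 1‖ := norm_pos_iff.2 h1
  have h3 : ‖s + 1‖ ≤ 5 := by
    refine (norm_add_le _ _).trans ?_
    rw [norm_one]
    linarith
  have e1 : Real.log ‖s + 1‖ ≤ 2 := (Real.log_le_log hs1 h3).trans EllB_log5
  have e2 : Real.log ‖s‖ ≤ 3 / 2 := (Real.log_le_log hs h2).trans EllB_log4
  have e3 : -(3 / 2) ≤ Real.log ‖s‖ := by
    have h5 : Real.log (1 / 4) ≤ Real.log ‖s‖ := Real.log_le_log (by norm_num) (by linarith)
    rw [one_div, Real.log_inv] at h5
    have := EllB_log4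
    linarith
  have e4 : -Real.log ‖s + 1‖ ≤ Real.posLog (1 / ‖s + 1‖) := by
    rw [← Real.log_inv, ← one_div]
    exact le_max_right _ _
  have e5 : 0 ≤ Real.posLog (1 / ‖s + 1‖) := le_max_left _ _
  rw [abs_le]
  constructor <;> linarith

private theorem EllB_add {s : ℂ} (hs : s ≠ 0) : (1 + s⁻¹).re = ((s.re + 1) * s.re + s.im ^ 2) /
    normSq s ∧ (1 + s⁻¹).im = -s.im / normSq s := by
  have hn : normSq s ≠ 0 := by rwa [Ne, normSq_eq_zero]
  constructor
  · rw [add_re, one_re, inv_re, eq_div_iff hn, add_mul, div_mul_cancel₀ _ hn, normSq_apply]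
    ring
  · rw [add_im, one_im, inv_im, zero_add]

theorem ellp_far {s : ℂ} (h : 2 ≤ ‖s‖) : ‖ellp s‖ ≤ 2 / ‖s‖ := by
  have hs : 0 < ‖s‖ := by linarith
  have h1 : ‖s⁻¹‖ ≤ 1 / 2 := by
    rw [norm_inv, ← one_div]
    exact one_div_le_one_div_of_le (by norm_num) h
  have h2 := norm_log_one_add_half_le_self h1
  unfold ellp
  refine h2.trans ?_
  rw [norm_inv, div_eq_mul_inv]
  exact mul_le_mul_of_nonneg_right (by norm_num) (by positivity)

theorem ellp_im_pi (s : ℂ) : |(ellp s).im| ≤ Real.pi := by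
  unfold ellp
  rw [log_im]
  exact abs_arg_le_pi _

theorem ellp_near {s : ℂ} (h : 1 / 3 ≤ ‖s‖) (h2 : ‖s‖ ≤ 4) (h1 : s + 1 ≠ 0) :
    ‖ellp s‖ ≤ 12 + Real.posLog (1 / ‖s + 1‖) := by
  have hs : s ≠ 0 := by
    rintro rfl
    rw [norm_zero] at h
    linarith
  have e1 : (ellp s).re = Real.log ‖s + 1‖ - Real.log ‖s‖ := by
    unfold ellp
    have h3 : 1 + s⁻¹ = (s + 1) / s := by field_simp
    rw [log_re, h3, norm_div, Real.log_div (norm_ne_zero_iff.2 h1) (norm_ne_zero_iff.2 hs)]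
  have e2 := EllB_re h h2 h1
  have e3 := ellp_im_pi s
  have e4 := norm_le_abs_re_add_abs_im (ellp s)
  rw [e1] at e4
  have := Real.pi_lt_four
  linarith

theorem ellu_near {s : ℂ} (h : 1 / 3 ≤ ‖s‖) (h2 : ‖s‖ ≤ 4) (h1 : s + 1 ≠ 0) :
    ‖ellu s‖ ≤ 12 + Real.posLog (1 / ‖s + 1‖) := by
  have e1 : (ellu s).re = Real.log ‖s + 1‖ - Real.log ‖s‖ := by
    unfold ellu
    rw [sub_re, lgu_re, lgu_re]
  have e2 := EllB_re h h2 h1
  have e3 : |(ellu s).im| ≤ 2 * Real.pi := by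
    unfold ellu
    rw [sub_im]
    obtain ⟨a1, a2⟩ := lgu_im (s + 1)
    obtain ⟨b1, b2⟩ := lgu_im s
    rw [abs_le]
    constructor <;> linarith
  have e4 := norm_le_abs_re_add_abs_im (ellu s)
  rw [e1] at e4
  have := Real.pi_lt_four
  linarith

theorem ellp_im {s : ℂ} (h : s.re < -1) :
    |(ellp s).im| ≤ |s.im| / (|s.re + 1| * (|s.re + 1| + 1)) := by
  have hs : s ≠ 0 := by
    rintro rfl
    norm_num at h
  have hn : 0 < normSq s := normSq_pos.2 hs
  obtain ⟨e1, e2⟩ := EllB_add hs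
  have h1 : |s.re + 1| = -(s.re + 1) := abs_of_neg (by linarith)
  have hp : 0 < (s.re + 1) * s.re := mul_pos_of_neg_of_neg (by linarith) (by linarith)
  have hre : 0 < (1 + s⁻¹).re := by
    rw [e1]
    have := sq_nonneg s.im
    positivity
  unfold ellp
  rw [log_im]
  refine (EllB_arg hre).trans ?_
  rw [e1, e2, h1, abs_div, abs_neg, abs_of_pos hn, div_div_div_cancel_right₀ hn.ne']
  have h2 : -(s.re + 1) * (-(s.re + 1) + 1) = (s.re + 1) * s.re := by ring
  rw [h2]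
  exact div_le_div_of_nonneg_left (abs_nonneg _) hp (by linarith [sq_nonneg s.im])

theorem ellu_im_low {s : ℂ} (h : s.im < 0) : 0 ≤ (ellu s).im ∧ (ellu s).im ≤ Real.pi := by
  have hs : s ≠ 0 := by
    rintro rfl
    simp at h
  have hn : 0 < normSq s := normSq_pos.2 hs
  rw [← ellp_eq_ellu (Or.inr h)]
  unfold ellp
  rw [log_im]
  refine ⟨arg_nonneg_iff.2 ?_, arg_le_pi _⟩
  rw [(EllB_add hs).2]
  exact div_nonneg (by linarith) hn.le

theorem ellu_im_right {s : ℂ} (h1 : 0 < (s + 1).re) (h2 : (s + 1).im ≤ 11 / 10 * (s + 1).re)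
    (h3 : s.re ≤ -(1 / 3)) (h4 : s.im ≤ 1 / 100) : 0 ≤ (ellu s).im ∧ (ellu s).im ≤ 81 / 20 := by
  have hsre : s.re < 0 := by linarith
  have hpi1 := Real.pi_gt_three
  have hpi2 := Real.pi_lt_d2
  have e1 := EllB_right h1
  have e2 := EllB_left hsre
  have e3 := (lgu_neg hsre).2
  -- the first argument
  have a1 : -(Real.pi / 2) < arg (s + 1) := by
    rw [EllB_arg_eq h1]
    exact Real.neg_pi_div_two_lt_arctan _
  have a2 : arg (s + 1) ≤ Real.pi / 4 + 1 / 21 := by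
    rw [EllB_arg_eq h1]
    have h5 : (s + 1).im / (s + 1).re ≤ 11 / 10 := by rwa [div_le_iff₀ h1]
    have h6 := Real.arctan_strictMono.monotone h5
    have h7 := Real.arctan_add (x := 1) (y := 1 / 21) (by norm_num)
    rw [Real.arctan_one] at h7
    have h8 : ((1 : ℝ) + 1 / 21) / (1 - 1 * (1 / 21)) = 11 / 10 := by norm_num
    rw [h8] at h7
    have h9 := EllB_arctan (t := 1 / 21) (by norm_num)
    linarith
  -- the second argument
  have a3 : -(3 / 100) ≤ arg (-s) := by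
    rcases le_total 0 (-s).im with h5 | h5
    · have := arg_nonneg_iff.2 h5
      linarith
    · have h6 : 0 < (-s).re := by
        rw [neg_re]
        linarith
      have h7 := EllB_arg h6
      have h8 : |(-s).im| / (-s).re ≤ 3 / 100 := by
        rw [abs_of_nonpos h5, div_le_iff₀ h6, neg_im, neg_re]
        linarith
      have h9 := (abs_le.1 (h7.trans h8)).1
      linarith
  unfold ellu
  rw [sub_im, e1]
  constructor
  · linarith
  · rw [e2]
    linarith

/-- the label of the start zone: `z = x + i y`, `x < 0`, `|y| ≤ |x|` -/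
theorem lgu_start {z : ℂ} (h : z.re < 0) : |(lgu z).im + Real.pi| ≤ |z.im| / |z.re| := by
  have h1 : 0 < (-z).re := by
    rw [neg_re]
    linarith
  have h2 := EllB_arg h1
  rw [EllB_left h, sub_add_cancel]
  rw [neg_im, neg_re, abs_neg] at h2
  rwa [abs_of_neg h]

end Pool.Agent.MP_ae5b4e_an_N4
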