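import Pool.Agent.Lib.MP_ae5b4e_an_N4.Ell
import Pool.Agent.Lib.MP_ae5b4e_an_N4.Gin

/-!
# N4, module StA: one step of the chain, analyticity and derivatives

Let `s = (O (z - 1, ρ₀)).1`, `σ = (O (z - 1, ρ₀)).2`, `σ⁺ = (O (z, ρ₀)).2`.  Near `(z, ρ₀)`:
`O p = (O₁ (p.1 - 1, p.2) + g (Λ p), Λ p)`, `Λ p = Function.invFunOn G Bx (G (O₂ (p.1 - 1, p.2)) +
ell (O₁ (p.1 - 1, p.2)))` (definition of `stp`).  `p ↦ O (p.1 - 1, p.2)` is analytic at `(z, ρ₀)`, `G` at `σ`,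
`ell` at `s`, the inverse at `G σ + ell s = G σ⁺` (`h6`, `inv_an`, `σ⁺ ∈ Bx`), `g` at `σ⁺`.
DERIVATIVES along `w ↦ (w, ρ₀)`: `(1 / n σ⁺) (n σ · σ' + ell' (s) s')` for `Λ` (`inv_an`, `Gd.dG`),
multiply by `n σ⁺ ≠ 0`; `s' + g' (σ⁺) Λ'` for the first component.  (`w ↦ O (w - 1, ρ₀)` has at `z` the
derivative of `w ↦ O (w, ρ₀)` at `z - 1`.)  All functions are differentiable by analyticity.
-/

set_option autoImplicit false

noncomputable section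

namespace Pool.Agent.MP_ae5b4e_an_N4

open Complex Set Filter Topology Metric

theorem step_an {ν η s1 s2 : ℝ} {G n g ell : ℂ → ℂ} {O : ℂ × ℂ → ℂ × ℂ} {z ρ₀ : ℂ}
    (hg : Gd ν η s1 s2 G n g) (hν : 0 < ν) (hη : η < 1)
    (h1 : AnalyticAt ℂ O (z - 1, ρ₀))
    (h2 : ∀ᶠ p in 𝓝 (z, ρ₀), O p = stp ell (Bx s1 s2) G g (O (p.1 - 1, p.2)))
    (h3 : AnalyticAt ℂ ell (O (z - 1, ρ₀)).1)
    (h4 : (O (z - 1, ρ₀)).2 ∈ Bx s1 s2) (h5 : (O (z, ρ₀)).2 ∈ Bx s1 s2)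
    (h6 : G (O (z, ρ₀)).2 = G (O (z - 1, ρ₀)).2 + ell (O (z - 1, ρ₀)).1) :
    AnalyticAt ℂ O (z, ρ₀) ∧
    n (O (z, ρ₀)).2 * deriv (fun w => (O (w, ρ₀)).2) z =
      n (O (z - 1, ρ₀)).2 * deriv (fun w => (O (w, ρ₀)).2) (z - 1) +
        deriv ell (O (z - 1, ρ₀)).1 * deriv (fun w => (O (w, ρ₀)).1) (z - 1) ∧
    deriv (fun w => (O (w, ρ₀)).1) z = deriv (fun w => (O (w, ρ₀)).1) (z - 1) +
      deriv g (O (z, ρ₀)).2 * deriv (fun w => (O (w, ρ₀)).2) z := by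
  have hn0 : n (O (z, ρ₀)).2 ≠ 0 := by
    intro h0
    have h7 := hg.nc _ h5
    rw [h0, zero_sub, norm_neg, Complex.norm_real, Real.norm_eq_abs, abs_of_pos hν] at h7
    nlinarith
  have hinv : Function.invFunOn G (Bx s1 s2) (G (O (z - 1, ρ₀)).2 + ell (O (z - 1, ρ₀)).1)
      = (O (z, ρ₀)).2 := by
    rw [← h6]
    exact inv_eq hg hν hη h5
  have hI := inv_an hg hν hη h5
  rw [h6] at hI
  obtain ⟨hI1, hI2⟩ := hI
  have hgan := g_an hg hν hη h5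
  -- analyticity
  have hsh : AnalyticAt ℂ (fun p : ℂ × ℂ => O (p.1 - 1, p.2)) (z, ρ₀) := by
    have e1 : AnalyticAt ℂ (fun p : ℂ × ℂ => ((p.1 - 1, p.2) : ℂ × ℂ)) (z, ρ₀) :=
      (analyticAt_fst.sub analyticAt_const).prod analyticAt_snd
    exact AnalyticAt.fun_comp (g := O) (f := fun p : ℂ × ℂ => ((p.1 - 1, p.2) : ℂ × ℂ)) h1 e1
  have hA1 : AnalyticAt ℂ (fun p : ℂ × ℂ => (O (p.1 - 1, p.2)).1) (z, ρ₀) :=
    AnalyticAt.fun_comp (g := fun q : ℂ × ℂ => q.1) (f := fun p : ℂ × ℂ => O (p.1 - 1, p.2))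
      analyticAt_fst hsh
  have hA2 : AnalyticAt ℂ (fun p : ℂ × ℂ => (O (p.1 - 1, p.2)).2) (z, ρ₀) :=
    AnalyticAt.fun_comp (g := fun q : ℂ × ℂ => q.2) (f := fun p : ℂ × ℂ => O (p.1 - 1, p.2))
      analyticAt_snd hsh
  have hW : AnalyticAt ℂ (fun p : ℂ × ℂ => G (O (p.1 - 1, p.2)).2 + ell (O (p.1 - 1, p.2)).1)
      (z, ρ₀) :=
    (AnalyticAt.fun_comp (g := G) (f := fun p : ℂ × ℂ => (O (p.1 - 1, p.2)).2)
      (G_an hg h4) hA2).add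
    (AnalyticAt.fun_comp (g := ell) (f := fun p : ℂ × ℂ => (O (p.1 - 1, p.2)).1) h3 hA1)
  have hL : AnalyticAt ℂ (fun p : ℂ × ℂ => Function.invFunOn G (Bx s1 s2)
      (G (O (p.1 - 1, p.2)).2 + ell (O (p.1 - 1, p.2)).1)) (z, ρ₀) :=
    AnalyticAt.fun_comp (g := Function.invFunOn G (Bx s1 s2))
      (f := fun p : ℂ × ℂ => G (O (p.1 - 1, p.2)).2 + ell (O (p.1 - 1, p.2)).1) hI1 hW
  have hgL : AnalyticAt ℂ (fun p : ℂ × ℂ => g (Function.invFunOn G (Bx s1 s2)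
      (G (O (p.1 - 1, p.2)).2 + ell (O (p.1 - 1, p.2)).1))) (z, ρ₀) := by
    refine AnalyticAt.fun_comp (g := g) (f := fun p : ℂ × ℂ => Function.invFunOn G (Bx s1 s2)
      (G (O (p.1 - 1, p.2)).2 + ell (O (p.1 - 1, p.2)).1)) ?_ hL
    simpa only [hinv] using hgan
  have hOan : AnalyticAt ℂ O (z, ρ₀) := by
    refine AnalyticAt.congr ((hA1.add hgL).prod hL) ?_
    filter_upwards [h2] with p hp
    rw [hp]
    rfl
  refine ⟨hOan, ?_⟩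
  -- the line
  have hpth : ∀ w : ℂ, AnalyticAt ℂ (fun w : ℂ => ((w, ρ₀) : ℂ × ℂ)) w := fun w =>
    analyticAt_id.prod analyticAt_const
  have hcur : ∀ w : ℂ, AnalyticAt ℂ O (w, ρ₀) →
      DifferentiableAt ℂ (fun w => (O (w, ρ₀)).1) w ∧
      DifferentiableAt ℂ (fun w => (O (w, ρ₀)).2) w := by
    intro w hw
    have e1 : AnalyticAt ℂ (fun w : ℂ => O (w, ρ₀)) w :=
      AnalyticAt.fun_comp (g := O) (f := fun w : ℂ => ((w, ρ₀) : ℂ × ℂ)) hw (hpth w)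
    exact ⟨(AnalyticAt.fun_comp (g := fun q : ℂ × ℂ => q.1) (f := fun w : ℂ => O (w, ρ₀))
      analyticAt_fst e1).differentiableAt,
      (AnalyticAt.fun_comp (g := fun q : ℂ × ℂ => q.2) (f := fun w : ℂ => O (w, ρ₀))
      analyticAt_snd e1).differentiableAt⟩
  have hd1 := (hcur (z - 1) h1).1.hasDerivAt.comp_sub_const z 1
  have hd2 := (hcur (z - 1) h1).2.hasDerivAt.comp_sub_const z 1
  have hWd : HasDerivAt (fun w : ℂ => G (O (w - 1, ρ₀)).2 + ell (O (w - 1, ρ₀)).1)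
      (n (O (z - 1, ρ₀)).2 * deriv (fun w => (O (w, ρ₀)).2) (z - 1) +
        deriv ell (O (z - 1, ρ₀)).1 * deriv (fun w => (O (w, ρ₀)).1) (z - 1)) z :=
    (HasDerivAt.comp (h₂ := G) (h := fun w : ℂ => (O (w - 1, ρ₀)).2) z
      (hg.dG _ h4) hd2).add
    (HasDerivAt.comp (h₂ := ell) (h := fun w : ℂ => (O (w - 1, ρ₀)).1) z
      h3.differentiableAt.hasDerivAt hd1)
  have hLd : HasDerivAt (fun w : ℂ => Function.invFunOn G (Bx s1 s2)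
      (G (O (w - 1, ρ₀)).2 + ell (O (w - 1, ρ₀)).1)) ((n (O (z, ρ₀)).2)⁻¹ *
      (n (O (z - 1, ρ₀)).2 * deriv (fun w => (O (w, ρ₀)).2) (z - 1) +
        deriv ell (O (z - 1, ρ₀)).1 * deriv (fun w => (O (w, ρ₀)).1) (z - 1))) z :=
    HasDerivAt.comp (h₂ := Function.invFunOn G (Bx s1 s2))
      (h := fun w : ℂ => G (O (w - 1, ρ₀)).2 + ell (O (w - 1, ρ₀)).1) z hI2 hWd
  have hev : ∀ᶠ w in 𝓝 z, O (w, ρ₀) = stp ell (Bx s1 s2) G g (O (w - 1, ρ₀)) := by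
    have e1 : Tendsto (fun w : ℂ => ((w, ρ₀) : ℂ × ℂ)) (𝓝 z) (𝓝 (z, ρ₀)) :=
      (hpth z).continuousAt.tendsto
    exact e1.eventually h2
  have hev2 : (fun w : ℂ => (O (w, ρ₀)).2) =ᶠ[𝓝 z] fun w : ℂ => Function.invFunOn G (Bx s1 s2)
      (G (O (w - 1, ρ₀)).2 + ell (O (w - 1, ρ₀)).1) := by
    filter_upwards [hev] with w hw
    rw [hw]
    rfl
  have hev1 : (fun w : ℂ => (O (w, ρ₀)).1) =ᶠ[𝓝 z] fun w : ℂ => (O (w - 1, ρ₀)).1 +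
      g (Function.invFunOn G (Bx s1 s2)
      (G (O (w - 1, ρ₀)).2 + ell (O (w - 1, ρ₀)).1)) := by
    filter_upwards [hev] with w hw
    rw [hw]
    rfl
  have hb := hLd.congr_of_eventuallyEq hev2
  refine ⟨?_, ?_⟩
  · rw [hb.deriv, mul_inv_cancel_left₀ hn0]
  · have hgd : HasDerivAt g (deriv g (O (z, ρ₀)).2)
        (Function.invFunOn G (Bx s1 s2) (G (O (z - 1, ρ₀)).2 + ell (O (z - 1, ρ₀)).1)) := by
      rw [hinv]
      exact hgan.differentiableAt.hasDerivAt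
    have ha := (hd1.add (HasDerivAt.comp (h₂ := g) (h := fun w : ℂ =>
      Function.invFunOn G (Bx s1 s2) (G (O (w - 1, ρ₀)).2 + ell (O (w - 1, ρ₀)).1)) z
      hgd hLd)).congr_of_eventuallyEq hev1
    rw [ha.deriv, hb.deriv]

end Pool.Agent.MP_ae5b4e_an_N4
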