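import Pool.Agent.Lib.MP_ae5b4e_an_N4.LfD
import Pool.Agent.Lib.MP_ae5b4e_an_N4.StA
import Pool.Agent.Lib.MP_ae5b4e_an_N4.EllB

/-!
# N4, module PU: the two chains agree in the left zone

`OP` is the chain with `ellp`, `OU` the chain with `ellu`; they agree near the start zone (`h0`).

* `z1_aff`: for `w ∈ Zn k X (z₁.re + 1 / 2)`: `‖(s w + 1) - (w - z₁) / ν‖ ≤ ‖w - z₁‖ / (50 ν)`: `s_aff` on the convex set
  `Zn k X (z₁.re + 1 / 2) ∋ z₁`, `s z₁ = -1`.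
* `z1_left`: if moreover `w.re ≤ z₁.re - 1 / 2` and `(w - z₁).im ≤ 10`: `s w .re < -1` or `s w .im < 0`.
  Let `u = w - z₁`.  If `|u.im| ≤ 20 |u.re|`: `‖u‖ / 50 ≤ 21 |u.re| / 50 < |u.re|`, so
  `Re (s w + 1) < 0`.  Otherwise `u.im < 0` (if `u.im > 20 |u.re| ≥ 10` then `u.im > 10`) and
  `‖u‖ / 50 ≤ 2 |u.im| / 50 < |u.im|`, so `Im s w < 0`.
* `z1_left'`: without the condition on `(w - z₁).im`: `s w .re < -1` or `s w .im ≠ 0`.
* `relp`: for `w ∈ Zn k X (z₁.re + 1 / 2)` with `- X < w.re`: the label relation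
  `G (σ w) = G (σ (w - 1)) + ellp (s (w - 1))` (all for `OP`).
  As `OP (w, ρ₀) = stp … (OP (w - 1, ρ₀))` (`Chn.step`), `σ w = invFunOn G Bx (G (σ (w - 1)) + ellp (s (w - 1)))` and
  it remains to see that the value is attained: `G_solve` from `σ (w - 1) ∈ Bx` with
  `e = ellp (s (w - 1))`: `s = s (w - 1)`, `‖s‖ ≥ 9 / 10`; `‖e‖ ≤ ν / 2`: if `‖s‖ ≥ 2`: `ellp_far`; otherwise
  `ellp_near` with `‖s + 1‖ ≥ 49 / 50 · ‖w - 1 - z₁‖ / ν ≥ 1 / (4 ν)` (`z1_aff`, `(w - 1).re ≤ z₁.re - 1 / 2`):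
  `‖e‖ ≤ 12 + log (4 ν) ≤ ν / 2`; `|Im e| ≤ π`.  So `σ (w - 1) + e / ν` moves the real part by at most `1 / 2` and
  the imaginary part by at most `π / ν ≤ 10 ^ (-19)`; `2 η ‖e‖ / ν ≤ η ≤ 10 ^ (-20)`; `GdZ.im`, `GdZ.re` leave room
  (`1 / 3200 - 1 / 10000 > aa + 10 ^ (-6)`, `Dl ≥ X / k + 1000`).
* `pu_eq`: `OU =ᶠ OP` near `(z, ρ₀)` for `z ∈ Zn k X (z₁.re + 1 / 2)`, `(z - z₁).im ≤ 1 / 8`.  Induction on `nst X z`:
  `z.re ≤ - X`: `h0`.  Otherwise `z - 1` is in the set and `OU =ᶠ OP` near `(z - 1, ρ₀)`; near `(z, ρ₀)`: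
  `OU p = stp ellu … (OU (p.1 - 1, p.2)) = stp ellu … (OP (p.1 - 1, p.2)) = stp ellp … (OP (p.1 - 1, p.2)) = OP p`,
  where `ellu = ellp` at `s (p.1 - 1, p.2)` since the condition of `z1_left` at `z - 1` is open and
  `OP` is continuous at `(z - 1, ρ₀)`.
-/

set_option autoImplicit false

noncomputable section

namespace Pool.Agent.MP_ae5b4e_an_N4

open Complex Set Filter Topology Metric

variable {k ν X δ η Dl s1 s2 : ℝ} {G n g : ℂ → ℂ} {OP OU : ℂ × ℂ → ℂ × ℂ} {ρ₀ z₁ : ℂ}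

private theorem par_nu (hP : Par k ν X δ η Dl) : 0 < k ∧ 0 < ν ∧ 2 * 10 ^ 20 ≤ ν ∧ ν ≤ 3 * k ∧
    δ * ν ≤ 3 / 10 ^ 12 * k := by
  have hk := hP.hk
  have h1 := hP.ν1
  have h2 := hP.ν2
  have h3 := hP.δ1
  have h4 := hP.δ0
  have hk0 : (0:ℝ) < k := by
    have : (0:ℝ) < 10 ^ 20 := by positivity
    linarith
  have hk1 : (1:ℝ) ≤ k := by
    have : (1:ℝ) ≤ 10 ^ 20 := by norm_num
    linarith
  have hν3 : ν ≤ 3 * k := by linarith
  have hν0 : 0 < ν := by linarith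
  refine ⟨hk0, hν0, by linarith, hν3, ?_⟩
  calc δ * ν ≤ 1 / 10 ^ 12 * (3 * k) := mul_le_mul h3 hν3 hν0.le (by positivity)
    _ = 3 / 10 ^ 12 * k := by ring

private theorem par_eta (hP : Par k ν X δ η Dl) : η ≤ 1 / 10 ^ 20 := by
  obtain ⟨hk0, hν0, -, -, -⟩ := par_nu hP
  have h1 := hP.η1
  have h2 := hP.δ1
  have h3 := hP.hX
  have h4 : (10:ℝ) ^ 10 ≤ X / k := by
    rw [le_div_iff₀ hk0]
    exact h3
  have h5 : ((10:ℝ) ^ 10) ^ 2 ≤ (X / k) ^ 2 := by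
    apply pow_le_pow_left₀ (by positivity) h4
  have h6 : η * ((10:ℝ) ^ 10) ^ 2 ≤ η * (X / k) ^ 2 := mul_le_mul_of_nonneg_left h5 hP.η0
  have h7 : η * ((10:ℝ) ^ 10) ^ 2 * 10 ^ 14 ≤ 1 / 10 ^ 12 := by
    calc η * ((10:ℝ) ^ 10) ^ 2 * 10 ^ 14 ≤ η * (X / k) ^ 2 * 10 ^ 14 :=
          mul_le_mul_of_nonneg_right h6 (by positivity)
      _ ≤ δ := h1
      _ ≤ 1 / 10 ^ 12 := h2
  rw [le_div_iff₀ (by positivity)]
  norm_num at h7 ⊢
  nlinarith [hP.η0]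

theorem z1_mem (hC : Chn k ν X δ η Dl s1 s2 G n g ellp OP ρ₀) (hz : IsZ1 k ν X δ OP ρ₀ z₁) :
    z₁ ∈ Zn k X (z₁.re + 1 / 2) := by
  obtain ⟨hk0, hν0, hν20, hν3, hδν⟩ := par_nu hC.par
  have hX := hC.par.hX
  have hn := hz.near
  have hre : |(z₁ + (ν:ℂ) / 2).re| ≤ 3 * δ * ν := (Complex.abs_re_le_norm _).trans hn
  have him : |(z₁ + (ν:ℂ) / 2).im| ≤ 3 * δ * ν := (Complex.abs_im_le_norm _).trans hn
  have e1 : (z₁ + (ν:ℂ) / 2).re = z₁.re + ν / 2 := by simp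
  have e2 : (z₁ + (ν:ℂ) / 2).im = z₁.im := by simp
  rw [e1] at hre
  rw [e2] at him
  refine ⟨?_, by linarith, ?_⟩
  · have h1 := (abs_le.1 hre).1
    have h2 : 3 * δ * ν ≤ 9 / 10 ^ 12 * k := by linarith
    have h3 : 9 / 10 ^ 12 * k ≤ k := by
      have : (9:ℝ) / 10 ^ 12 ≤ 1 := by norm_num
      nlinarith
    have h4 : 10 * k ≤ X := by
      have : (10:ℝ) ≤ 10 ^ 10 := by norm_num
      nlinarith
    linarith
  · unfold e6
    have h2 : 3 * δ * ν ≤ 9 / 10 ^ 12 * k := by linarith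
    have h3 : (9:ℝ) / 10 ^ 12 * k ≤ 1 / 10 ^ 10 * k := by
      apply mul_le_mul_of_nonneg_right _ hk0.le
      norm_num
    linarith

theorem z1_aff (hC : Chn k ν X δ η Dl s1 s2 G n g ellp OP ρ₀) (hz : IsZ1 k ν X δ OP ρ₀ z₁) {w : ℂ}
    (hw : w ∈ Zn k X (z₁.re + 1 / 2)) :
    ‖(OP (w, ρ₀)).1 + 1 - (1 / ν : ℂ) * (w - z₁)‖ ≤ 1 / 50 * (1 / ν) * ‖w - z₁‖ := by
  obtain ⟨hk0, hν0, -, -, -⟩ := par_nu hC.par
  have h := s_aff hν0 (zn_convex k X (z₁.re + 1 / 2)) hz.good hw (z1_mem hC hz)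
  rw [hz.zero, sub_neg_eq_add] at h
  exact h

private theorem z1_parts (hC : Chn k ν X δ η Dl s1 s2 G n g ellp OP ρ₀)
    (hz : IsZ1 k ν X δ OP ρ₀ z₁) {w : ℂ} (hw : w ∈ Zn k X (z₁.re + 1 / 2)) :
    0 < ν ∧ |ν * ((OP (w, ρ₀)).1.re + 1) - (w - z₁).re| ≤ 1 / 50 * ‖w - z₁‖ ∧
      |ν * (OP (w, ρ₀)).1.im - (w - z₁).im| ≤ 1 / 50 * ‖w - z₁‖ := by
  obtain ⟨hk0, hν0, -, -, -⟩ := par_nu hC.par
  have h := z1_aff hC hz hw
  have hνc : (ν:ℂ) ≠ 0 := by exact_mod_cast hν0.ne'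
  have h2 : ‖(ν:ℂ) * ((OP (w, ρ₀)).1 + 1) - (w - z₁)‖ ≤ 1 / 50 * ‖w - z₁‖ := by
    have e : (ν:ℂ) * ((OP (w, ρ₀)).1 + 1) - (w - z₁) =
        (ν:ℂ) * ((OP (w, ρ₀)).1 + 1 - (1 / ν : ℂ) * (w - z₁)) := by
      field_simp
    rw [e, norm_mul, Complex.norm_real, Real.norm_eq_abs, abs_of_pos hν0]
    calc ν * ‖(OP (w, ρ₀)).1 + 1 - (1 / ν : ℂ) * (w - z₁)‖
        ≤ ν * (1 / 50 * (1 / ν) * ‖w - z₁‖) := mul_le_mul_of_nonneg_left h hν0.le
      _ = 1 / 50 * ‖w - z₁‖ := by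
        field_simp
  refine ⟨hν0, ?_, ?_⟩
  · have h3 := (Complex.abs_re_le_norm _).trans h2
    simpa using h3
  · have h3 := (Complex.abs_im_le_norm _).trans h2
    simpa using h3

private theorem zn_mono {a b : ℝ} (hab : a ≤ b) {w : ℂ} (hw : w ∈ Zn k X a) : w ∈ Zn k X b :=
  ⟨hw.1, hw.2.1.trans hab, hw.2.2⟩

theorem z1_left (hC : Chn k ν X δ η Dl s1 s2 G n g ellp OP ρ₀) (hz : IsZ1 k ν X δ OP ρ₀ z₁)
    {w : ℂ} (hw : w ∈ Zn k X (z₁.re - 1 / 2)) (h : (w - z₁).im ≤ 10) :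
    (OP (w, ρ₀)).1.re < -1 ∨ (OP (w, ρ₀)).1.im < 0 := by
  obtain ⟨hν0, h1, h2⟩ := z1_parts hC hz (zn_mono (by linarith) hw)
  have hre : (w - z₁).re ≤ -(1 / 2) := by
    rw [Complex.sub_re]
    linarith [hw.2.1]
  have hn := Complex.norm_le_abs_re_add_abs_im (w - z₁)
  have hr : |(w - z₁).re| = -(w - z₁).re := abs_of_neg (by linarith)
  rw [hr] at hn
  rcases le_or_gt |(w - z₁).im| (20 * -(w - z₁).re) with hc | hc
  · left
    have h3 := (abs_le.1 h1).2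
    have h4 : ν * ((OP (w, ρ₀)).1.re + 1) < 0 := by linarith
    have h5 : (OP (w, ρ₀)).1.re + 1 < 0 := by
      by_contra hcon
      push Not at hcon
      have := mul_nonneg hν0.le hcon
      linarith
    linarith
  · right
    have hneg : (w - z₁).im < 0 := by
      by_contra hcon
      push Not at hcon
      rw [abs_of_nonneg hcon] at hc
      linarith
    rw [abs_of_neg hneg] at hn hc
    have h3 := (abs_le.1 h2).2
    have h4 : ν * (OP (w, ρ₀)).1.im < 0 := by linarith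
    by_contra hcon
    push Not at hcon
    have := mul_nonneg hν0.le hcon
    linarith

theorem z1_left' (hC : Chn k ν X δ η Dl s1 s2 G n g ellp OP ρ₀) (hz : IsZ1 k ν X δ OP ρ₀ z₁)
    {w : ℂ} (hw : w ∈ Zn k X (z₁.re - 1 / 2)) :
    (OP (w, ρ₀)).1.re < -1 ∨ (OP (w, ρ₀)).1.im ≠ 0 := by
  obtain ⟨hν0, h1, h2⟩ := z1_parts hC hz (zn_mono (by linarith) hw)
  have hre : (w - z₁).re ≤ -(1 / 2) := by
    rw [Complex.sub_re]
    linarith [hw.2.1]
  have hn := Complex.norm_le_abs_re_add_abs_im (w - z₁)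
  have hr : |(w - z₁).re| = -(w - z₁).re := abs_of_neg (by linarith)
  rw [hr] at hn
  rcases le_or_gt |(w - z₁).im| (20 * -(w - z₁).re) with hc | hc
  · left
    have h3 := (abs_le.1 h1).2
    have h4 : ν * ((OP (w, ρ₀)).1.re + 1) < 0 := by linarith
    have h5 : (OP (w, ρ₀)).1.re + 1 < 0 := by
      by_contra hcon
      push Not at hcon
      have := mul_nonneg hν0.le hcon
      linarith
    linarith
  · right
    intro h0
    rw [h0, mul_zero, zero_sub, abs_neg] at h2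
    linarith

private theorem zn_pred {X' : ℝ} {w : ℂ} (hw : w ∈ Zn k X X') (h : -X < w.re) :
    w - 1 ∈ Zn k X (X' - 1) := by
  refine ⟨?_, ?_, ?_⟩
  · rw [Complex.sub_re, Complex.one_re]
    linarith
  · rw [Complex.sub_re, Complex.one_re]
    linarith [hw.2.1]
  · rw [Complex.sub_im, Complex.one_im, sub_zero]
    exact hw.2.2

private theorem ell_bd (hC : Chn k ν X δ η Dl s1 s2 G n g ellp OP ρ₀)
    (hz : IsZ1 k ν X δ OP ρ₀ z₁) {w : ℂ} (hw : w ∈ Zn k X (z₁.re - 1 / 2)) :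
    ‖ellp (OP (w, ρ₀)).1‖ ≤ ν / 2 := by
  obtain ⟨hk0, hν0, hν20, hν3, hδν⟩ := par_nu hC.par
  have hν20' : (10:ℝ) ^ 3 ≤ ν := by
    have : (10:ℝ) ^ 3 ≤ 2 * 10 ^ 20 := by norm_num
    linarith
  have hgd := hz.good w (zn_mono (by linarith) hw)
  rcases le_or_gt 2 ‖(OP (w, ρ₀)).1‖ with h2 | h2
  · have h3 := ellp_far h2
    have h4 : 2 / ‖(OP (w, ρ₀)).1‖ ≤ 1 := by
      rw [div_le_one (by linarith)]
      exact h2
    norm_num at hν20'
    linarith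
  · have hs := hgd.s
    have hsr : |((OP (w, ρ₀)).1 - (w / ν - 1 / 2)).re| ≤ 2 * δ :=
      (Complex.abs_re_le_norm _).trans hs
    have e : ((OP (w, ρ₀)).1 - (w / ν - 1 / 2)).re =
        (OP (w, ρ₀)).1.re - (w.re / ν - 1 / 2) := by
      simp [Complex.div_ofReal_re]
    rw [e] at hsr
    have h3 := (abs_le.1 hsr).2
    have hzr : z₁.re ≤ -(ν / 2) + 3 * δ * ν := by
      have hre : |(z₁ + (ν:ℂ) / 2).re| ≤ 3 * δ * ν :=
        (Complex.abs_re_le_norm _).trans hz.near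
      have e1 : (z₁ + (ν:ℂ) / 2).re = z₁.re + ν / 2 := by simp
      rw [e1] at hre
      linarith [(abs_le.1 hre).2]
    have h4 : w.re ≤ -(ν / 2) + 3 * δ * ν := by linarith [hw.2.1]
    have h5 : w.re / ν ≤ -(1 / 2) + 3 * δ := by
      rw [div_le_iff₀ hν0]
      linarith
    have hδ := hC.par.δ1
    have hδ' : δ ≤ 1 / 100 := hδ.trans (by norm_num)
    have h6 : (OP (w, ρ₀)).1.re ≤ -(9 / 10) := by linarith
    have h7 : 9 / 10 ≤ ‖(OP (w, ρ₀)).1‖ := by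
      have := Complex.abs_re_le_norm (OP (w, ρ₀)).1
      rw [abs_of_neg (by linarith)] at this
      linarith
    have haff := z1_aff hC hz (zn_mono (by linarith) hw)
    have hre : (w - z₁).re ≤ -(1 / 2) := by
      rw [Complex.sub_re]
      linarith [hw.2.1]
    have hun : 1 / 2 ≤ ‖w - z₁‖ := by
      have := Complex.abs_re_le_norm (w - z₁)
      rw [abs_of_neg (by linarith)] at this
      linarith
    have hnn : ‖(1 / ν : ℂ) * (w - z₁)‖ = 1 / ν * ‖w - z₁‖ := by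
      rw [norm_mul, norm_div, norm_one, Complex.norm_real, Real.norm_eq_abs, abs_of_pos hν0]
    have h8 : 1 / (4 * ν) ≤ ‖(OP (w, ρ₀)).1 + 1‖ := by
      have h9 : ‖(1 / ν : ℂ) * (w - z₁)‖ ≤ ‖(OP (w, ρ₀)).1 + 1‖ +
          ‖(OP (w, ρ₀)).1 + 1 - (1 / ν : ℂ) * (w - z₁)‖ := by
        have := norm_sub_le ((OP (w, ρ₀)).1 + 1)
          ((OP (w, ρ₀)).1 + 1 - (1 / ν : ℂ) * (w - z₁))
        rwa [sub_sub_cancel] at this
      rw [hnn] at h9
      have h10 : 1 / ν * (49 / 100) ≤ 1 / ν * ‖w - z₁‖ - 1 / 50 * (1 / ν) * ‖w - z₁‖ := by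
        have : (0:ℝ) < 1 / ν := by positivity
        nlinarith
      have h11 : 1 / (4 * ν) ≤ 1 / ν * (49 / 100) := by
        rw [one_div, mul_inv, one_div, mul_comm]
        apply mul_le_mul_of_nonneg_left _ (inv_nonneg.2 hν0.le)
        norm_num
      linarith
    have hpos : 0 < ‖(OP (w, ρ₀)).1 + 1‖ := lt_of_lt_of_le (by positivity) h8
    have hne : (OP (w, ρ₀)).1 + 1 ≠ 0 := norm_pos_iff.1 hpos
    have h12 := ellp_near (by linarith) (by linarith) hne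
    have h13 : 1 / ‖(OP (w, ρ₀)).1 + 1‖ ≤ 4 * ν := by
      rw [div_le_iff₀ hpos]
      rw [div_le_iff₀ (by positivity)] at h8
      linarith
    have h14 : Real.posLog (1 / ‖(OP (w, ρ₀)).1 + 1‖) ≤ Real.log (4 * ν) := by
      have h15 : Real.posLog (1 / ‖(OP (w, ρ₀)).1 + 1‖) ≤ Real.posLog (4 * ν) :=
        Real.posLog_le_posLog (by positivity) h13
      have h16 : Real.posLog (4 * ν) = Real.log (4 * ν) := by
        apply Real.posLog_eq_log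
        rw [abs_of_pos (by positivity)]
        norm_num at hν20'
        linarith
      linarith
    have h17 : Real.log (4 * ν) ≤ 15 + (ν / 4 - 1) := by
      have e1 : 4 * ν = 16 * (ν / 4) := by ring
      rw [e1, Real.log_mul (by norm_num) (by positivity)]
      have h18 := Real.log_le_sub_one_of_pos (show (0:ℝ) < 16 by norm_num)
      have h19 := Real.log_le_sub_one_of_pos (show (0:ℝ) < ν / 4 by positivity)
      linarith
    norm_num at hν20'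
    linarith

theorem relp (hC : Chn k ν X δ η Dl s1 s2 G n g ellp OP ρ₀) (hz : IsZ1 k ν X δ OP ρ₀ z₁)
    {w : ℂ} (hw : w ∈ Zn k X (z₁.re + 1 / 2)) (h : -X < w.re) :
    G (OP (w, ρ₀)).2 = G (OP (w - 1, ρ₀)).2 + ellp (OP (w - 1, ρ₀)).1 := by
  obtain ⟨hk0, hν0, hν20, hν3, hδν⟩ := par_nu hC.par
  have hη := par_eta hC.par
  have hη' : η ≤ 1 / 10 ^ 6 := hη.trans (by norm_num)
  have hν6 : (10:ℝ) ^ 6 * 4 ≤ ν := by
    have : (10:ℝ) ^ 6 * 4 ≤ 2 * 10 ^ 20 := by norm_num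
    linarith
  have hw1 : w - 1 ∈ Zn k X (z₁.re - 1 / 2) := by
    have := zn_pred hw h
    have e : z₁.re + 1 / 2 - 1 = z₁.re - 1 / 2 := by ring
    rwa [e] at this
  have hgd := hz.good (w - 1) (zn_mono (by linarith) hw1)
  have hbox := good_box hC hgd
  have he := ell_bd hC hz hw1
  have hei := ellp_im_pi (OP (w - 1, ρ₀)).1
  have hstep := hC.step w h ρ₀
  have h2 : (OP (w, ρ₀)).2 = Function.invFunOn G (Bx s1 s2)
      (G (OP (w - 1, ρ₀)).2 + ellp (OP (w - 1, ρ₀)).1) := by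
    rw [hstep]
    rfl
  have hball : closedBall ((OP (w - 1, ρ₀)).2 + ellp (OP (w - 1, ρ₀)).1 / ν)
      (2 * η * ‖ellp (OP (w - 1, ρ₀)).1‖ / ν) ⊆ Bx s1 s2 := by
    intro τ hτ
    rw [mem_closedBall, dist_eq_norm] at hτ
    have hrad : 2 * η * ‖ellp (OP (w - 1, ρ₀)).1‖ / ν ≤ η := by
      rw [div_le_iff₀ hν0]
      have := mul_le_mul_of_nonneg_left he hC.par.η0
      linarith
    have hτ' := hτ.trans hrad
    have hr := (Complex.abs_re_le_norm _).trans hτ'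
    have hi := (Complex.abs_im_le_norm _).trans hτ'
    have er : (τ - ((OP (w - 1, ρ₀)).2 + ellp (OP (w - 1, ρ₀)).1 / ν)).re =
        τ.re - ((OP (w - 1, ρ₀)).2.re + (ellp (OP (w - 1, ρ₀)).1).re / ν) := by
      simp [Complex.div_ofReal_re]
    have ei : (τ - ((OP (w - 1, ρ₀)).2 + ellp (OP (w - 1, ρ₀)).1 / ν)).im =
        τ.im - ((OP (w - 1, ρ₀)).2.im + (ellp (OP (w - 1, ρ₀)).1).im / ν) := by
      simp [Complex.div_ofReal_im]
    rw [er] at hr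
    rw [ei] at hi
    have hr2 : |(ellp (OP (w - 1, ρ₀)).1).re / ν| ≤ 1 / 2 := by
      rw [abs_div, abs_of_pos hν0, div_le_iff₀ hν0]
      have := Complex.abs_re_le_norm (ellp (OP (w - 1, ρ₀)).1)
      linarith
    have hi2 : |(ellp (OP (w - 1, ρ₀)).1).im / ν| ≤ 1 / 10 ^ 6 := by
      rw [abs_div, abs_of_pos hν0, div_le_iff₀ hν0]
      have := Real.pi_le_four
      have h5 : (4:ℝ) ≤ 1 / 10 ^ 6 * ν := by
        have h6 := mul_le_mul_of_nonneg_left hν6 (show (0:ℝ) ≤ 1 / 10 ^ 6 by positivity)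
        norm_num at h6 ⊢
        linarith
      linarith
    have g1 := abs_le.1 hgd.im
    have g2 := abs_le.1 hgd.re
    have t1 := hC.th1
    have t2 := hC.th2
    have b1 := hC.b1
    have b2 := hC.b2
    have hD := hC.par.hD
    have r1 := abs_le.1 hr
    have i1 := abs_le.1 hi
    have r2 := abs_le.1 hr2
    have i2 := abs_le.1 hi2
    have hph : ph2 / 2 = 1 / 3200 := by unfold ph2; norm_num
    have haa : aa = 1 / 12800 := rfl
    rw [hph] at t1 t2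
    have hη6 : η ≤ 1 / 1000000 := by norm_num at hη' ⊢; exact hη'
    have hi6 : (1:ℝ) / 10 ^ 6 = 1 / 1000000 := by norm_num
    rw [hi6] at i2
    refine ⟨?_, ?_, ?_, ?_⟩
    · linarith [r1.1, r2.1, g2.1]
    · linarith [r1.2, r2.2, g2.2]
    · rw [haa]
      linarith [i1.1, i2.1, g1.1]
    · rw [haa]
      linarith [i1.2, i2.2, g1.2]
  obtain ⟨σ', -, hσ1, hσ2⟩ := G_solve hC.gd hν0 hC.par.η0 (hη'.trans (by norm_num)) hbox hball
  rw [h2, hσ2, hσ1]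

theorem pu_eq (hC : Chn k ν X δ η Dl s1 s2 G n g ellp OP ρ₀)
    (hC' : Chn k ν X δ η Dl s1 s2 G n g ellu OU ρ₀) (hz : IsZ1 k ν X δ OP ρ₀ z₁)
    (h0 : ∀ z : ℂ, -X - 1 ≤ z.re → z.re ≤ -X → |z.im| ≤ k → OU =ᶠ[𝓝 (z, ρ₀)] OP)
    {z : ℂ} (hw : z ∈ Zn k X (z₁.re + 1 / 2)) (h : (z - z₁).im ≤ 1 / 8) :
    OU =ᶠ[𝓝 (z, ρ₀)] OP := by
  obtain ⟨hk0, hν0, -, -, -⟩ := par_nu hC.par
  have hstart : ∀ z : ℂ, z ∈ Zn k X (z₁.re + 1 / 2) → z.re ≤ -X → OU =ᶠ[𝓝 (z, ρ₀)] OP := by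
    intro z hz1 hz2
    refine h0 z hz1.1 hz2 (hz1.2.2.trans ?_)
    unfold e6
    have : (1:ℝ) / 10 ^ 10 ≤ 1 := by norm_num
    nlinarith
  have key : ∀ m : ℕ, ∀ z : ℂ, nst X z ≤ m → z ∈ Zn k X (z₁.re + 1 / 2) →
      (z - z₁).im ≤ 1 / 8 → OU =ᶠ[𝓝 (z, ρ₀)] OP := by
    intro m
    induction m with
    | zero =>
      intro z hm hz1 _
      refine hstart z hz1 ?_
      have h1 : z.re + X ≤ ((0 : ℕ) : ℝ) := Nat.ceil_le.1 hm
      simp only [Nat.cast_zero] at h1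
      linarith
    | succ m ih =>
      intro z hm hz1 hz2
      rcases le_or_gt z.re (-X) with hzr | hzr
      · exact hstart z hz1 hzr
      have hz3 : z - 1 ∈ Zn k X (z₁.re - 1 / 2) := by
        have := zn_pred hz1 hzr
        have e : z₁.re + 1 / 2 - 1 = z₁.re - 1 / 2 := by ring
        rwa [e] at this
      have hz4 : z - 1 ∈ Zn k X (z₁.re + 1 / 2) := zn_mono (by linarith) hz3
      have him : (z - 1 - z₁).im ≤ 1 / 8 := by
        have : (z - 1 - z₁).im = (z - z₁).im := by simp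
        rw [this]
        exact hz2
      have hm' : nst X (z - 1) ≤ m := by
        unfold nst at hm ⊢
        rw [Nat.ceil_le] at hm ⊢
        rw [Complex.sub_re, Complex.one_re]
        push_cast at hm
        linarith
      have hIH := ih (z - 1) hm' hz4 him
      have hcont : Tendsto (fun p : ℂ × ℂ => (p.1 - 1, p.2)) (𝓝 (z, ρ₀)) (𝓝 (z - 1, ρ₀)) := by
        have : Continuous (fun p : ℂ × ℂ => (p.1 - 1, p.2)) := by fun_prop
        exact this.tendsto (z, ρ₀)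
      have hA : ∀ᶠ p in 𝓝 (z, ρ₀), OU (p.1 - 1, p.2) = OP (p.1 - 1, p.2) :=
        hcont.eventually hIH
      have hB : ∀ᶠ p : ℂ × ℂ in 𝓝 (z, ρ₀), -X < p.1.re := by
        have hc : Continuous (fun p : ℂ × ℂ => p.1.re) := by fun_prop
        exact (isOpen_lt continuous_const hc).mem_nhds hzr
      have hopen : IsOpen {s : ℂ × ℂ | s.1.re < -1 ∨ s.1.im < 0} := by
        have c1 : Continuous (fun s : ℂ × ℂ => s.1.re) := by fun_prop
        have c2 : Continuous (fun s : ℂ × ℂ => s.1.im) := by fun_prop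
        exact (isOpen_lt c1 continuous_const).union (isOpen_lt c2 continuous_const)
      have hD : ∀ᶠ q in 𝓝 (z - 1, ρ₀), (OP q).1.re < -1 ∨ (OP q).1.im < 0 := by
        have hca : ContinuousAt OP (z - 1, ρ₀) := (hz.good (z - 1) hz4).an.continuousAt
        exact hca (hopen.mem_nhds (z1_left hC hz hz3 (by linarith)))
      have hE := hcont.eventually hD
      filter_upwards [hA, hB, hE] with p h1 h2 h3
      have e1 := hC.step p.1 h2 p.2
      have e2 := hC'.step p.1 h2 p.2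
      have e3 : OU p = stp ellu (Bx s1 s2) G g (OU (p.1 - 1, p.2)) := e2
      have e4 : OP p = stp ellp (Bx s1 s2) G g (OP (p.1 - 1, p.2)) := e1
      rw [e3, e4, h1]
      unfold stp
      rw [ellp_eq_ellu h3]
  exact key _ z le_rfl hw h

end Pool.Agent.MP_ae5b4e_an_N4
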