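import Pool.Agent.Lib.MP_ae5b4e_an_N4.Mir
import Pool.Agent.Lib.MP_ae5b4e_an_N4.PU
import Pool.Agent.Lib.MP_ae5b4e_an_N4.Orb

/-!
# N4, module MirZ: the reflected chain has the reflected zero

`OP = orb (stp ellp Bx G g) S0 X`, `OP' = orb (stp ellp Bx (mirF G) (mirF g)) (mirS S0) X`, `ρ' = - conj ρ₀`.
(1) `OP' =ᶠ mirS OP` near `(conj z, ρ')` for every `z ∈ Zn k X (z₁.re + 1 / 2)`.  Induction on `nst X z`.
`z.re ≤ - X`: near `(conj z, ρ')` both sides are `mirS S0` (`orb_eq` for `Std` and for `std_mir`; `mirS` of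
functions which agree near `(z, ρ₀)` agree near `(conj z, ρ')`).  `- X < z.re`: near `(conj z, ρ')`
`OP' p = stp … (OP' (p.1 - 1, p.2)) = stp … (mirS OP (p.1 - 1, p.2))` (`orb_step`, induction for `z - 1`), and with
`p' = (conj p.1, - conj p.2)`, `(s, σ) = OP (p'.1 - 1, p'.2)`: `mir_stp` gives `(conj (s + g σ⁺), tau σ⁺)`,
`σ⁺ = (OP p').2`, which is `mirS OP p`; its hypotheses hold near: at `(z, ρ₀)` itself: `z1_left'` for `z - 1`
(`(z - 1).re ≤ z₁.re - 1 / 2`), `good_box`, `relp`; near `(z, ρ₀)`: `s.re < -1 ∨ s.im ≠ 0` is open, the box is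
open, and the relation `G σ⁺ = G σ + ellp s` near `(z, ρ₀)`: `OP p' = stp … (OP (p'.1 - 1, p'.2))`, so
`σ⁺ = invFunOn G Bx (G σ + ellp s)`, and `G (invFunOn G Bx w) = w` for `w` near `G (σ⁺ (z, ρ₀))`: `G '' Bx` is a
neighbourhood of it (open mapping, `near_inv` or `inv_an`).
(2) `GdZ` at `(conj z, ρ')` from `GdZ` at `(z, ρ₀)`: `an`: `mir_an` and (1); `im`: `Im (tau σ) = - Im σ - π`,
`arg ρ' = π - arg ρ₀`; `re`, `s` (`conj (z / ν - 1 / 2)`), `ds`, `dl`: derivatives of `mirS OP` along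
`w ↦ (w, ρ')` are the conjugates.
(3) `IsZ1` for `conj z₁`: `near`: `ν` is real; `zero`; `good`: `Zn` is invariant under `conj`, `(conj z₁).re = z₁.re`;
`uniq` from `IsZ1.uniq` for `conj z`.
-/

set_option autoImplicit false

noncomputable section

namespace Pool.Agent.MP_ae5b4e_an_N4

open Complex Set Filter Topology Metric
open scoped ComplexConjugate

section aux

variable {k ν X δ η Dl s1 s2 : ℝ} {G n g : ℂ → ℂ}

private theorem MirZ_par (h : Par k ν X δ η Dl) : 0 < k ∧ 0 < ν ∧ η < 1 := by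
  have hk : 0 < k := lt_of_lt_of_le (by norm_num) h.hk
  have hν : 0 < ν := by
    have := h.ν1
    linarith
  refine ⟨hk, hν, ?_⟩
  have h1 : 10 ^ 10 ≤ X / k := by
    rw [le_div_iff₀ hk]
    exact h.hX
  have h2 : (1:ℝ) ≤ (X / k) ^ 2 * 10 ^ 14 := by nlinarith
  have h3 := h.η1
  have h4 := h.δ1
  have h5 : η ≤ η * ((X / k) ^ 2 * 10 ^ 14) := le_mul_of_one_le_right h.η0 h2
  have h6 : η * ((X / k) ^ 2 * 10 ^ 14) = η * (X / k) ^ 2 * 10 ^ 14 := by ring
  rw [h6] at h5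
  have h7 : (1:ℝ) / 10 ^ 12 < 1 := by norm_num
  linarith

private theorem MirZ_n_ne (hg : Gd ν η s1 s2 G n g) (hν : 0 < ν) (hη : η < 1) {σ : ℂ}
    (h : σ ∈ Bx s1 s2) : n σ ≠ 0 := by
  intro h0
  have h1 := hg.nc σ h
  rw [h0, zero_sub, norm_neg, Complex.norm_real, Real.norm_eq_abs, abs_of_pos hν] at h1
  nlinarith

/-- the values of `G` on the box are a neighbourhood of each of them -/
private theorem MirZ_img (hg : Gd ν η s1 s2 G n g) (hν : 0 < ν) (hη : η < 1) {σ : ℂ}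
    (h : σ ∈ Bx s1 s2) : ∀ᶠ w in 𝓝 (G σ), G (Function.invFunOn G (Bx s1 s2) w) = w ∧
      Function.invFunOn G (Bx s1 s2) w ∈ Bx s1 s2 := by
  have hGa := G_an hg h
  have hd : deriv G σ ≠ 0 := by
    rw [(hg.dG σ h).deriv]
    exact MirZ_n_ne hg hν hη h
  have h1 := hGa.hasStrictDerivAt.map_nhds_eq hd
  have h2 : G '' Bx s1 s2 ∈ 𝓝 (G σ) := by
    rw [← h1]
    exact image_mem_map (isOpen_Bx.mem_nhds h)
  filter_upwards [h2] with w hw
  exact ⟨Function.invFunOn_eq hw, Function.invFunOn_mem hw⟩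

/-- the reflection -/
private def MirZ_i (p : ℂ × ℂ) : ℂ × ℂ := (conj p.1, -conj p.2)

private theorem MirZ_i_cont : Continuous MirZ_i :=
  (continuous_conj.comp continuous_fst).prodMk (continuous_conj.comp continuous_snd).neg

private theorem MirZ_i_tend (z ρ : ℂ) : Tendsto MirZ_i (𝓝 (conj z, -conj ρ)) (𝓝 (z, ρ)) := by
  have h := MirZ_i_cont.tendsto (conj z, -conj ρ)
  have h2 : MirZ_i (conj z, -conj ρ) = (z, ρ) := by
    unfold MirZ_i
    simp
  rwa [h2] at h

private theorem MirZ_sh_cont : Continuous (fun p : ℂ × ℂ => (p.1 - 1, p.2)) :=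
  (continuous_fst.sub continuous_const).prodMk continuous_snd

private theorem MirZ_zn {z : ℂ} {X' : ℝ} (hk : 0 < k) (h : z ∈ Zn k X X') : |z.im| ≤ k := by
  refine h.2.2.trans ?_
  unfold e6
  nlinarith

/-- the facts near a point of the left zone -/
private theorem MirZ_ev {S0 : ℂ × ℂ → ℂ × ℂ} {ρ₀ z₁ : ℂ}
    (hS : Std k ν X δ η Dl s1 s2 G n g S0 ρ₀)
    (hz : IsZ1 k ν X δ (orb (stp ellp (Bx s1 s2) G g) S0 X) ρ₀ z₁) {z : ℂ}
    (h : z ∈ Zn k X (z₁.re + 1 / 2)) (hX : -X < z.re) :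
    ∀ᶠ q in 𝓝 (z, ρ₀), -X < q.1.re ∧
      ((orb (stp ellp (Bx s1 s2) G g) S0 X (q.1 - 1, q.2)).1.re < -1 ∨
        (orb (stp ellp (Bx s1 s2) G g) S0 X (q.1 - 1, q.2)).1.im ≠ 0) ∧
      (orb (stp ellp (Bx s1 s2) G g) S0 X (q.1 - 1, q.2)).2 ∈ Bx s1 s2 ∧
      (orb (stp ellp (Bx s1 s2) G g) S0 X q).2 ∈ Bx s1 s2 ∧
      G (orb (stp ellp (Bx s1 s2) G g) S0 X q).2 =
        G (orb (stp ellp (Bx s1 s2) G g) S0 X (q.1 - 1, q.2)).2 +
          ellp (orb (stp ellp (Bx s1 s2) G g) S0 X (q.1 - 1, q.2)).1 := by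
  obtain ⟨hk, hν, hη⟩ := MirZ_par hS.par
  have hC := chn_p hS
  have hrel := relp hC hz h hX
  have hG1 := hz.good z h
  have hz1 : z - 1 ∈ Zn k X (z₁.re - 1 / 2) := by
    refine ⟨?_, ?_, ?_⟩
    · rw [sub_re, one_re]
      linarith
    · rw [sub_re, one_re]
      have := h.2.1
      linarith
    · rw [sub_im, one_im, sub_zero]
      exact h.2.2
  have hz1' : z - 1 ∈ Zn k X (z₁.re + 1 / 2) := ⟨hz1.1, by have := hz1.2.1; linarith, hz1.2.2⟩
  have hG0 := hz.good (z - 1) hz1'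
  have hleft := z1_left' hC hz hz1
  have hb0 := good_box hC hG0
  have hb1 := good_box hC hG1
  have hdef : ∀ q : ℂ × ℂ, -X < q.1.re → orb (stp ellp (Bx s1 s2) G g) S0 X q =
      stp ellp (Bx s1 s2) G g (orb (stp ellp (Bx s1 s2) G g) S0 X (q.1 - 1, q.2)) :=
    fun q hq => orb_step hq
  generalize orb (stp ellp (Bx s1 s2) G g) S0 X = O at *
  have hsh : Tendsto (fun q : ℂ × ℂ => (q.1 - 1, q.2)) (𝓝 (z, ρ₀)) (𝓝 (z - 1, ρ₀)) :=
    MirZ_sh_cont.tendsto (z, ρ₀)
  have hO : Tendsto (fun q : ℂ × ℂ => O (q.1 - 1, q.2)) (𝓝 (z, ρ₀)) (𝓝 (O (z - 1, ρ₀))) :=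
    hG0.an.continuousAt.tendsto.comp hsh
  have hO1 : Tendsto (fun q : ℂ × ℂ => (O (q.1 - 1, q.2)).1) (𝓝 (z, ρ₀))
      (𝓝 (O (z - 1, ρ₀)).1) := (continuous_fst.tendsto _).comp hO
  have hO2 : Tendsto (fun q : ℂ × ℂ => (O (q.1 - 1, q.2)).2) (𝓝 (z, ρ₀))
      (𝓝 (O (z - 1, ρ₀)).2) := (continuous_snd.tendsto _).comp hO
  have e1 : ∀ᶠ q : ℂ × ℂ in 𝓝 (z, ρ₀), -X < q.1.re :=
    (isOpen_lt continuous_const (Complex.continuous_re.comp continuous_fst)).mem_nhds hX
  have e2 : ∀ᶠ q : ℂ × ℂ in 𝓝 (z, ρ₀), (O (q.1 - 1, q.2)).1.re < -1 ∨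
      (O (q.1 - 1, q.2)).1.im ≠ 0 := by
    rcases hleft with hl | hl
    · have := hO1.eventually ((isOpen_lt Complex.continuous_re continuous_const).mem_nhds hl)
      filter_upwards [this] with q hq using Or.inl hq
    · have := hO1.eventually ((isOpen_ne_fun Complex.continuous_im continuous_const).mem_nhds hl)
      filter_upwards [this] with q hq using Or.inr hq
  have e3 : ∀ᶠ q : ℂ × ℂ in 𝓝 (z, ρ₀), (O (q.1 - 1, q.2)).2 ∈ Bx s1 s2 :=
    hO2.eventually (isOpen_Bx.mem_nhds hb0)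
  have e4 : ∀ᶠ q : ℂ × ℂ in 𝓝 (z, ρ₀), (O q).2 ∈ Bx s1 s2 :=
    ((continuous_snd.tendsto _).comp hG1.an.continuousAt.tendsto).eventually
      (isOpen_Bx.mem_nhds hb1)
  have hw : Tendsto (fun q : ℂ × ℂ => G (O (q.1 - 1, q.2)).2 + ellp (O (q.1 - 1, q.2)).1)
      (𝓝 (z, ρ₀)) (𝓝 (G (O (z, ρ₀)).2)) := by
    rw [hrel]
    have h3 : (O (z - 1, ρ₀)).1.re < -1 ∨ (O (z - 1, ρ₀)).1.im ≠ 0 ∨ 0 < (O (z - 1, ρ₀)).1.re := by
      rcases hleft with hl | hl
      · exact Or.inl hl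
      · exact Or.inr (Or.inl hl)
    exact ((G_an hS.gd hb0).continuousAt.tendsto.comp hO2).add
      ((ellp_an h3).continuousAt.tendsto.comp hO1)
  have e5 := hw.eventually (MirZ_img hS.gd hν hη hb1)
  filter_upwards [e1, e2, e3, e4, e5] with q h1 h2 h3 h4 h5
  refine ⟨h1, h2, h3, h4, ?_⟩
  rw [hdef q h1]
  exact h5.1

end aux

theorem mir_eq {k ν X δ η Dl s1 s2 : ℝ} {G n g : ℂ → ℂ} {S0 : ℂ × ℂ → ℂ × ℂ} {ρ₀ z₁ : ℂ}
    (hS : Std k ν X δ η Dl s1 s2 G n g S0 ρ₀)
    (hz : IsZ1 k ν X δ (orb (stp ellp (Bx s1 s2) G g) S0 X) ρ₀ z₁) {z : ℂ}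
    (h : z ∈ Zn k X (z₁.re + 1 / 2)) :
    orb (stp ellp (Bx s1 s2) (mirF G) (mirF g)) (mirS S0) X =ᶠ[𝓝 (conj z, -conj ρ₀)]
      mirS (orb (stp ellp (Bx s1 s2) G g) S0 X) := by
  obtain ⟨hk, hν, hη⟩ := MirZ_par hS.par
  have key : ∀ (N : ℕ) (z : ℂ), nst X z = N → z ∈ Zn k X (z₁.re + 1 / 2) →
      orb (stp ellp (Bx s1 s2) (mirF G) (mirF g)) (mirS S0) X =ᶠ[𝓝 (conj z, -conj ρ₀)]
        mirS (orb (stp ellp (Bx s1 s2) G g) S0 X) := by
    intro N
    induction N using Nat.strong_induction_on with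
    | _ N ih =>
    intro z hN h
    by_cases hX : z.re ≤ -X
    · have h1 := (orb_eq hS h.1 hX (MirZ_zn hk h)).2
      have h2 := (orb_eq (std_mir hS) (z := conj z) (by rw [conj_re]; exact h.1)
        (by rw [conj_re]; exact hX) (by rw [conj_im, abs_neg]; exact MirZ_zn hk h)).2
      have h3 := (MirZ_i_tend z ρ₀).eventually h1
      filter_upwards [h2, h3] with p hp hp'
      rw [hp]
      unfold mirS
      change orb (stp ellp (Bx s1 s2) G g) S0 X (conj p.1, -conj p.2) =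
        S0 (conj p.1, -conj p.2) at hp'
      rw [hp']
    · rw [not_le] at hX
      have h1 := MirZ_ev hS hz h hX
      have hz1 : z - 1 ∈ Zn k X (z₁.re + 1 / 2) := by
        refine ⟨?_, ?_, ?_⟩
        · rw [sub_re, one_re]
          linarith
        · rw [sub_re, one_re]
          have := h.2.1
          linarith
        · rw [sub_im, one_im, sub_zero]
          exact h.2.2
      have hlt : nst X (z - 1) < N := by
        rw [← hN]
        unfold nst
        rw [sub_re, one_re]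
        apply Nat.lt_of_lt_of_le _ le_rfl
        rw [Nat.lt_ceil]
        by_cases h0 : z.re - 1 + X ≤ 0
        · rw [Nat.ceil_eq_zero.2 h0, Nat.cast_zero]
          linarith
        · rw [not_le] at h0
          have := Nat.ceil_lt_add_one h0.le
          linarith
      have h2 := ih _ hlt (z - 1) rfl hz1
      have h3 : Tendsto (fun p : ℂ × ℂ => (p.1 - 1, p.2)) (𝓝 (conj z, -conj ρ₀))
          (𝓝 (conj (z - 1), -conj ρ₀)) := by
        have := MirZ_sh_cont.tendsto (conj z, -conj ρ₀)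
        rw [map_sub, map_one]
        exact this
      have h4 := h3.eventually h2
      have h5 := (MirZ_i_tend z ρ₀).eventually h1
      filter_upwards [h4, h5] with p hp hq
      simp only [MirZ_i] at hq
      obtain ⟨q1, q2, q3, q4, q5⟩ := hq
      have hpX : -X < p.1.re := by
        rwa [conj_re] at q1
      rw [orb_step hpX, hp]
      have q1' : -X < ((conj p.1, -conj p.2) : ℂ × ℂ).1.re := q1
      have e1 : mirS (orb (stp ellp (Bx s1 s2) G g) S0 X) (p.1 - 1, p.2) =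
          (conj (orb (stp ellp (Bx s1 s2) G g) S0 X (conj p.1 - 1, -conj p.2)).1,
            tau (orb (stp ellp (Bx s1 s2) G g) S0 X (conj p.1 - 1, -conj p.2)).2) := by
        unfold mirS
        simp only [map_sub, map_one]
      rw [e1]
      have hcond : (orb (stp ellp (Bx s1 s2) G g) S0 X (conj p.1 - 1, -conj p.2)).1.re < -1 ∨
          (orb (stp ellp (Bx s1 s2) G g) S0 X (conj p.1 - 1, -conj p.2)).1.im ≠ 0 ∨
          0 < (orb (stp ellp (Bx s1 s2) G g) S0 X (conj p.1 - 1, -conj p.2)).1.re := by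
        rcases q2 with hl | hl
        · exact Or.inl hl
        · exact Or.inr (Or.inl hl)
      obtain ⟨m1, m2⟩ := mir_stp hS.gd hν hη hcond q3 q4 q5
      rw [m2]
      have e2 : orb (stp ellp (Bx s1 s2) G g) S0 X (conj p.1, -conj p.2) =
          stp ellp (Bx s1 s2) G g
            (orb (stp ellp (Bx s1 s2) G g) S0 X (conj p.1 - 1, -conj p.2)) := orb_step q1'
      have e3 : orb (stp ellp (Bx s1 s2) G g) S0 X (conj p.1, -conj p.2) =
          ((orb (stp ellp (Bx s1 s2) G g) S0 X (conj p.1 - 1, -conj p.2)).1 +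
            g (orb (stp ellp (Bx s1 s2) G g) S0 X (conj p.1, -conj p.2)).2,
            (orb (stp ellp (Bx s1 s2) G g) S0 X (conj p.1, -conj p.2)).2) := by
        exact e2.trans m1
      have e4 : (orb (stp ellp (Bx s1 s2) G g) S0 X (conj p.1, -conj p.2)).1 =
          (orb (stp ellp (Bx s1 s2) G g) S0 X (conj p.1 - 1, -conj p.2)).1 +
            g (orb (stp ellp (Bx s1 s2) G g) S0 X (conj p.1, -conj p.2)).2 :=
        congrArg Prod.fst e3
      unfold mirS
      rw [e4]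
  exact key _ z rfl h

private theorem MirZ_arg {ρ : ℂ} (h : 0 < ρ.im) : arg (-conj ρ) = Real.pi - arg ρ := by
  have h1 : (conj ρ).im < 0 := by
    rw [conj_im]
    linarith
  rw [arg_neg_eq_arg_add_pi_of_im_neg h1, arg_conj, if_neg]
  · ring
  · intro h2
    have h3 := (arg_eq_pi_iff.1 h2).2
    linarith

private theorem MirZ_tau_im (σ : ℂ) : (tau σ).im = -σ.im - Real.pi := by
  unfold tau
  simp

private theorem MirZ_tau_re (σ : ℂ) : (tau σ).re = σ.re := by
  unfold tau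
  simp

private theorem MirZ_two : conj (2 : ℂ) = 2 := Complex.conj_ofNat 2

private theorem MirZ_d {f : ℂ → ℂ} (z : ℂ) :
    deriv (fun w => conj (f (conj w))) (conj z) = conj (deriv f z) := by
  have h := congrFun (deriv_conj_conj (f := f)) (conj z)
  simp only [Function.comp_apply, Complex.conj_conj] at h
  exact h

theorem z1_mir {k ν X δ η Dl s1 s2 : ℝ} {G n g : ℂ → ℂ} {S0 : ℂ × ℂ → ℂ × ℂ} {ρ₀ z₁ : ℂ}
    (hS : Std k ν X δ η Dl s1 s2 G n g S0 ρ₀)
    (hz : IsZ1 k ν X δ (orb (stp ellp (Bx s1 s2) G g) S0 X) ρ₀ z₁) :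
    IsZ1 k ν X δ (orb (stp ellp (Bx s1 s2) (mirF G) (mirF g)) (mirS S0) X) (-conj ρ₀)
      (conj z₁) := by
  have hC := chn_p hS
  have heq : ∀ z ∈ Zn k X (z₁.re + 1 / 2),
      orb (stp ellp (Bx s1 s2) (mirF G) (mirF g)) (mirS S0) X =ᶠ[𝓝 (conj z, -conj ρ₀)]
        mirS (orb (stp ellp (Bx s1 s2) G g) S0 X) := fun z h => mir_eq hS hz h
  have hz1 := z1_mem hC hz
  generalize orb (stp ellp (Bx s1 s2) (mirF G) (mirF g)) (mirS S0) X = O' at *
  generalize orb (stp ellp (Bx s1 s2) G g) S0 X = O at *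
  have hval : ∀ z ∈ Zn k X (z₁.re + 1 / 2), O' (conj z, -conj ρ₀) =
      (conj (O (z, ρ₀)).1, tau (O (z, ρ₀)).2) := by
    intro z h
    have h1 := (heq z h).eq_of_nhds
    rw [h1]
    unfold mirS
    simp
  have hcj : ∀ z ∈ Zn k X ((conj z₁).re + 1 / 2), conj z ∈ Zn k X (z₁.re + 1 / 2) := by
    intro z h
    refine ⟨?_, ?_, ?_⟩
    · rw [conj_re]
      exact h.1
    · rw [conj_re]
      have := h.2.1
      rwa [conj_re] at this
    · rw [conj_im, abs_neg]
      exact h.2.2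
  have hgood : ∀ z ∈ Zn k X (z₁.re + 1 / 2), GdZ k ν X δ O' (-conj ρ₀) (conj z) := by
    intro z h
    have hG := hz.good z h
    have hE := heq z h
    have hline : Tendsto (fun w : ℂ => (w, -conj ρ₀)) (𝓝 (conj z)) (𝓝 (conj z, -conj ρ₀)) :=
      (continuous_id.prodMk continuous_const).tendsto _
    have hd1 : deriv (fun w => (O' (w, -conj ρ₀)).1) (conj z) =
        conj (deriv (fun w => (O (w, ρ₀)).1) z) := by
      rw [← MirZ_d]
      refine Filter.EventuallyEq.deriv_eq ?_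
      filter_upwards [hline.eventually hE] with w hw
      rw [hw]
      unfold mirS
      simp
    have hd2 : deriv (fun w => (O' (w, -conj ρ₀)).2) (conj z) =
        conj (deriv (fun w => (O (w, ρ₀)).2) z) := by
      rw [← MirZ_d]
      have h1 : deriv (fun w => (O' (w, -conj ρ₀)).2) (conj z) =
          deriv (fun w => conj ((O (conj w, ρ₀)).2) - (Real.pi : ℂ) * I) (conj z) := by
        refine Filter.EventuallyEq.deriv_eq ?_
        filter_upwards [hline.eventually hE] with w hw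
        rw [hw]
        unfold mirS tau
        simp
      rw [h1, deriv_sub_const]
    refine ⟨?_, ?_, ?_, ?_, ?_, ?_⟩
    · refine AnalyticAt.congr ?_ hE.symm
      have h0 : ((conj (conj z), -conj (-conj ρ₀)) : ℂ × ℂ) = (z, ρ₀) := by simp
      have h1 : AnalyticAt ℂ (fun p : ℂ × ℂ => conj (O (conj p.1, -conj p.2)).1)
          (conj z, -conj ρ₀) := by
        refine mir_an (f := fun p => (O p).1) ?_
        rw [h0]
        exact AnalyticAt.comp (g := Prod.fst) (f := O) analyticAt_fst hG.an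
      have h2 : AnalyticAt ℂ (fun p : ℂ × ℂ => conj (O (conj p.1, -conj p.2)).2)
          (conj z, -conj ρ₀) := by
        refine mir_an (f := fun p => (O p).2) ?_
        rw [h0]
        exact AnalyticAt.comp (g := Prod.snd) (f := O) analyticAt_snd hG.an
      exact h1.prod (h2.sub analyticAt_const)
    · rw [hval z h, MirZ_arg hS.hρ]
      simp only [MirZ_tau_im]
      have h1 := hG.im
      have e : -(O (z, ρ₀)).2.im - Real.pi - (Real.pi - arg ρ₀ - Real.pi) =
          -((O (z, ρ₀)).2.im - (arg ρ₀ - Real.pi)) := by ring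
      rw [e, abs_neg]
      exact h1
    · rw [hval z h]
      simp only [MirZ_tau_re]
      rw [norm_neg, Complex.norm_conj]
      exact hG.re
    · rw [hval z h]
      have e : conj (O (z, ρ₀)).1 - (conj z / ν - 1 / 2) =
          conj ((O (z, ρ₀)).1 - (z / ν - 1 / 2)) := by
        simp only [map_sub, map_div₀, map_one, Complex.conj_ofReal, MirZ_two]
      simp only
      rw [e, Complex.norm_conj]
      exact hG.s
    · rw [hd1]
      have e : (ν : ℂ) * conj (deriv (fun w => (O (w, ρ₀)).1) z) - 1 =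
          conj ((ν : ℂ) * deriv (fun w => (O (w, ρ₀)).1) z - 1) := by simp
      rw [e, Complex.norm_conj]
      exact hG.ds
    · rw [hd2]
      have e : (ν : ℂ) * conj (deriv (fun w => (O (w, ρ₀)).2) z) =
          conj ((ν : ℂ) * deriv (fun w => (O (w, ρ₀)).2) z) := by simp
      rw [e, Complex.norm_conj]
      exact hG.dl
  refine ⟨?_, ?_, ?_, ?_⟩
  · have e : conj z₁ + (ν : ℂ) / 2 = conj (z₁ + (ν : ℂ) / 2) := by
      simp only [map_add, map_div₀, Complex.conj_ofReal, MirZ_two]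
    rw [e, Complex.norm_conj]
    exact hz.near
  · rw [hval z₁ hz1]
    simp only
    rw [hz.zero]
    simp
  · intro z h
    have h1 := hgood _ (hcj z h)
    rwa [conj_conj] at h1
  · intro z h h1
    have h2 := hval _ (hcj z h)
    rw [conj_conj] at h2
    rw [h2] at h1
    simp only at h1
    have h3 : (O (conj z, ρ₀)).1 = -1 := by
      have := congrArg conj h1
      rw [conj_conj, map_neg, map_one] at this
      exact this
    have h4 := hz.uniq _ (hcj z h) h3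
    rw [← h4, conj_conj]

end Pool.Agent.MP_ae5b4e_an_N4
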