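import Pool.Agent.Lib.MP_ae5b4e_an_N4.LfD

/-!
# N4, module Zer: the zero is an analytic function of `ρ`

Let `ρ₀ ∈ U`, `a = z₁ ρ₀`.  `f (z, ρ) = (O (z, ρ)).1` is analytic at `(a, ρ₀)` (`IsZ1.good`, `GdZ.an`: `a ∈ Zn k X (a.re + 1/2)`,
as `‖a + ν / 2‖ ≤ 3 δ ν`), `f (a, ρ₀) = -1`, `∂f/∂z (a, ρ₀) ≠ 0` (`GdZ.ds`).  Implicit function theorem: there is `ζ`
analytic at `ρ₀`, `ζ ρ₀ = a`, `f (ζ ρ, ρ) = -1` near `ρ₀` (Mathlib: `HasStrictFDerivAt` implicit function, or: the map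
`(z, ρ) ↦ (f (z, ρ), ρ)` has an invertible derivative at `(a, ρ₀)`, its local inverse is analytic,
`AnalyticAt` version `…toOpenPartialHomeomorph`/`HasStrictFDerivAt.to_localInverse`; check how the
folders `MP_ae5b4e_an_LL`, `MP_ae5b4e_an_NBT`, `SCV` do it).
Claim: `z₁ ρ = ζ ρ` for `ρ` near `ρ₀`.  Let `0 < e < 1 / 8` and
`K = Zn k X (a.re + 1 / 2) ∩ {z | e ≤ ‖z - a‖}`, compact; `f (·, ρ₀) ≠ -1` on `K` (`IsZ1.uniq`), `f` is
continuous at every `(z, ρ₀)`, `z ∈ K`; so for `ρ` near `ρ₀`: `f (z, ρ) ≠ -1` for all `z ∈ K`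
(compactness; `IsCompact.eventually_forall_of_forall_eventually` or the generalized tube lemma), and
`‖ζ ρ - a‖ < e`, `‖ζ ρ - ζ ρ₀‖` small so that `ζ ρ` has `|Im| ≤ 3 δ ν + e ≤ e6 k` and real part `≥ - X - 1`.
`ρ ∈ U`: if `ζ ρ ∈ Zn k X ((z₁ ρ).re + 1 / 2)`, then `z₁ ρ = ζ ρ` by `IsZ1.uniq` at `ρ`.  Otherwise
`(ζ ρ).re > (z₁ ρ).re + 1 / 2`, so `(z₁ ρ).re < a.re + e - 1 / 2`: `z₁ ρ ∈ Zn k X (a.re + 1 / 2)`
(`IsZ1.near` at `ρ`) and `‖z₁ ρ - a‖ ≥ 1 / 2 - e ≥ e`: `z₁ ρ ∈ K`, `f (z₁ ρ, ρ) = -1`: contradiction.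
-/

set_option autoImplicit false

noncomputable section

namespace Pool.Agent.MP_ae5b4e_an_N4

open Complex Set Filter Topology Metric
open scoped ContDiff

/-- implicit function theorem, complex analytic version -/
theorem zer_implicit {F : ℂ × ℂ → ℂ} {u : ℂ × ℂ} (hF : AnalyticAt ℂ F u)
    (h0 : deriv (fun w => F (u.1, w)) u.2 ≠ 0) :
    ∃ ζ : ℂ → ℂ, AnalyticAt ℂ ζ u.1 ∧ ζ u.1 = u.2 ∧ ∀ᶠ x in 𝓝 u.1, F (x, ζ x) = F u := by
  have hc : ContDiffAt ℂ ω F u := hF.contDiffAt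
  have hw : (ω : ℕ∞ω) ≠ 0 := by simp
  have hd : HasDerivAt (fun w => F (u.1, w)) (fderiv ℂ F u (0, 1)) u.2 := by
    have e1 : HasFDerivAt F (fderiv ℂ F u) (u.1, u.2) := hF.differentiableAt.hasFDerivAt
    have e2 : HasDerivAt (fun w : ℂ => ((u.1, w) : ℂ × ℂ)) (0, 1) u.2 :=
      (hasDerivAt_const u.2 u.1).prodMk (hasDerivAt_id u.2)
    exact e1.comp_hasDerivAt u.2 e2
  have hne : fderiv ℂ F u (0, 1) ≠ 0 := by
    rw [← hd.deriv]
    exact h0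
  have hinv : (fderiv ℂ F u ∘L .inr ℂ ℂ ℂ).IsInvertible := by
    refine ⟨ContinuousLinearEquiv.unitsEquivAut ℂ (Units.mk0 _ hne), ?_⟩
    ext
    simp
  exact ⟨hc.implicitFunction hw hinv, (hc.contDiffAt_implicitFunction hw hinv).analyticAt,
    hc.implicitFunction_apply_self hw hinv, hc.eventually_apply_implicitFunction hw hinv⟩

theorem zer {k ν X δ : ℝ} {O : ℂ × ℂ → ℂ × ℂ} {z₁ : ℂ → ℂ} {U : Set ℂ} (hU : IsOpen U)
    (hk : 10 ^ 20 ≤ k) (hν : 2 * k ≤ ν) (hν2 : ν ≤ 2 * k + 1) (hX : 10 ^ 10 * k ≤ X)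
    (hδ : 0 < δ) (hδ1 : δ ≤ 1 / 10 ^ 12)
    (h : ∀ ρ ∈ U, IsZ1 k ν X δ O ρ (z₁ ρ)) : AnalyticOnNhd ℂ z₁ U := by
  intro ρ₀ hρ₀
  have hk0 : 0 < k := lt_of_lt_of_le (by positivity) hk
  have hν0 : 0 < ν := by linarith
  -- size of the zero
  have hsize : ∀ ρ ∈ U, |(z₁ ρ).re + ν / 2| ≤ 3 * δ * ν ∧ |(z₁ ρ).im| ≤ 3 * δ * ν := by
    intro ρ hρ
    have h1 := (h ρ hρ).near
    have h2 := (Complex.abs_re_le_norm (z₁ ρ + ν / 2)).trans h1
    have h3 := (Complex.abs_im_le_norm (z₁ ρ + ν / 2)).trans h1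
    have e1 : (z₁ ρ + ν / 2 : ℂ).re = (z₁ ρ).re + ν / 2 := by
      simp [Complex.add_re]
    have e2 : (z₁ ρ + ν / 2 : ℂ).im = (z₁ ρ).im := by
      simp [Complex.add_im]
    rw [e1] at h2
    rw [e2] at h3
    exact ⟨h2, h3⟩
  have hδν : 3 * δ * ν ≤ 1 / 10 ^ 11 * k := by
    have e1 : 3 * δ * ν ≤ 3 * (1 / 10 ^ 12) * (2 * k + 1) := by
      have e2 : 3 * δ ≤ 3 * (1 / 10 ^ 12) := by linarith
      exact mul_le_mul e2 hν2 hν0.le (by norm_num)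
    have e3 : 3 * (1 / 10 ^ 12) * (2 * k + 1) ≤ 1 / 10 ^ 11 * k := by
      norm_num at hk ⊢
      linarith
    linarith
  have hδν0 : 0 ≤ 3 * δ * ν := by positivity
  -- membership in the zone
  have hmem : ∀ ρ ∈ U, ∀ w : ℂ, ‖w - z₁ ρ‖ ≤ 1 / 16 → ∀ X' : ℝ, w.re ≤ X' → w ∈ Zn k X X' := by
    intro ρ hρ w hw X' hX'
    obtain ⟨h1, h2⟩ := hsize ρ hρ
    have h3 := (Complex.abs_re_le_norm (w - z₁ ρ)).trans hw
    have h4 := (Complex.abs_im_le_norm (w - z₁ ρ)).trans hw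
    rw [Complex.sub_re] at h3
    rw [Complex.sub_im] at h4
    rw [abs_le] at h1 h2 h3 h4
    refine ⟨?_, hX', ?_⟩
    · norm_num at hk hX hδν
      linarith [h1.1, h3.1]
    · rw [abs_le]
      unfold e6
      norm_num at hk hX hδν ⊢
      constructor
      · linarith [h2.1, h4.1]
      · linarith [h2.2, h4.2]
  set a : ℂ := z₁ ρ₀ with ha
  have hH := h ρ₀ hρ₀
  have haZ : a ∈ Zn k X (a.re + 1 / 2) :=
    hmem ρ₀ hρ₀ a (by rw [ha, sub_self, norm_zero]; norm_num) _ (by linarith)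
  have hG := hH.good a haZ
  -- the implicit function
  have hsw : ∀ z : ℂ, AnalyticAt ℂ O (z, ρ₀) →
      AnalyticAt ℂ (fun q : ℂ × ℂ => (O (q.2, q.1)).1) (ρ₀, z) := by
    intro z hz
    have e1 : AnalyticAt ℂ (fun q : ℂ × ℂ => ((q.2, q.1) : ℂ × ℂ)) (ρ₀, z) :=
      analyticAt_snd.prod analyticAt_fst
    have e2 : AnalyticAt ℂ (fun q : ℂ × ℂ => O (q.2, q.1)) (ρ₀, z) :=
      AnalyticAt.fun_comp (g := O) (f := fun q : ℂ × ℂ => ((q.2, q.1) : ℂ × ℂ)) hz e1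
    exact AnalyticAt.fun_comp (g := fun q : ℂ × ℂ => q.1)
      (f := fun q : ℂ × ℂ => O (q.2, q.1)) analyticAt_fst e2
  have hder : deriv (fun w => (O (w, ρ₀)).1) a ≠ 0 := by
    intro h0
    have h1 := hG.ds
    rw [h0, mul_zero, zero_sub, norm_neg, norm_one] at h1
    norm_num at h1
  obtain ⟨ζ, hζ1, hζ2, hζ3⟩ := zer_implicit (u := (ρ₀, a)) (hsw a hG.an) hder
  simp only at hζ1 hζ2 hζ3
  have hζ4 : ∀ᶠ ρ in 𝓝 ρ₀, ‖ζ ρ - a‖ < 1 / 16 := by
    have e1 := hζ1.continuousAt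
    rw [ContinuousAt, hζ2] at e1
    have e2 := e1.eventually (Metric.ball_mem_nhds a (show (0:ℝ) < 1 / 16 by norm_num))
    filter_upwards [e2] with ρ hρ
    rwa [dist_eq_norm] at hρ
  -- compactness
  set K : Set ℂ := Zn k X (a.re + 1 / 2) ∩ {z | 1 / 16 ≤ ‖z - a‖} with hK
  have hKc : IsCompact K := by
    have hcl : IsClosed K := by
      have e1 : IsClosed (Zn k X (a.re + 1 / 2)) :=
        (isClosed_le continuous_const Complex.continuous_re).inter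
          ((isClosed_le Complex.continuous_re continuous_const).inter
            (isClosed_le (continuous_abs.comp Complex.continuous_im) continuous_const))
      have e2 : IsClosed {z : ℂ | 1 / 16 ≤ ‖z - a‖} :=
        isClosed_le continuous_const (continuous_norm.comp (continuous_id.sub continuous_const))
      exact e1.inter e2
    refine Metric.isCompact_of_isClosed_isBounded hcl ?_
    refine (Metric.isBounded_iff_subset_closedBall 0).2 ⟨|X + 1| + |a.re + 1 / 2| + e6 * k, ?_⟩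
    rintro z ⟨⟨h1, h2, h3⟩, -⟩
    rw [mem_closedBall, dist_zero_right]
    have h4 := Complex.norm_le_abs_re_add_abs_im z
    have h5 : |z.re| ≤ |X + 1| + |a.re + 1 / 2| := by
      rw [abs_le]
      constructor
      · have := le_abs_self (X + 1)
        have := abs_nonneg (a.re + 1 / 2)
        linarith
      · have := le_abs_self (a.re + 1 / 2)
        have := abs_nonneg (X + 1)
        linarith
    linarith
  have hKe : ∀ᶠ ρ in 𝓝 ρ₀, ∀ z ∈ K, (O (z, ρ)).1 ≠ -1 := by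
    refine hKc.eventually_forall_of_forall_eventually (x₀ := ρ₀)
      (P := fun ρ z => (O (z, ρ)).1 ≠ -1) ?_
    intro z hz
    have e1 := (hsw z (hH.good z hz.1).an).continuousAt
    have e2 : (O (z, ρ₀)).1 ≠ -1 := by
      intro h0
      have e3 := hH.uniq z hz.1 h0
      have e4 : (1:ℝ) / 16 ≤ ‖z - a‖ := hz.2
      rw [e3, ← ha, sub_self, norm_zero] at e4
      norm_num at e4
    exact e1.eventually_ne e2
  have heq : ζ =ᶠ[𝓝 ρ₀] z₁ := by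
    filter_upwards [hU.mem_nhds hρ₀, hKe, hζ4, hζ3] with ρ hρU hρK hρζ hρ0
    have hval : (O (ζ ρ, ρ)).1 = -1 := by
      rw [hρ0]
      exact hH.zero
    by_cases hc : (ζ ρ).re ≤ (z₁ ρ).re + 1 / 2
    · exact (h ρ hρU).uniq (ζ ρ) (hmem ρ₀ hρ₀ _ hρζ.le _ hc) hval
    · exfalso
      rw [not_le] at hc
      have h1 := (Complex.abs_re_le_norm (ζ ρ - a)).trans hρζ.le
      rw [Complex.sub_re, abs_le] at h1
      have h2 : z₁ ρ ∈ Zn k X (a.re + 1 / 2) :=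
        hmem ρ hρU _ (by rw [sub_self, norm_zero]; norm_num) _ (by linarith [h1.2])
      have h3 : (1:ℝ) / 16 ≤ ‖z₁ ρ - a‖ := by
        have h4 := Complex.abs_re_le_norm (z₁ ρ - a)
        rw [Complex.sub_re] at h4
        have h5 : (1:ℝ) / 16 ≤ |(z₁ ρ).re - a.re| := by
          rw [le_abs]
          right
          linarith [h1.2]
        linarith
      exact hρK (z₁ ρ) ⟨h2, h3⟩ (h ρ hρU).zero
  exact hζ1.congr heq

end Pool.Agent.MP_ae5b4e_an_N4
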