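import Pool.Agent.Lib.MP_ae5b4e_an_N4.ChM
import Pool.Agent.Lib.MP_ae5b4e_an_N4.MirZ
import Pool.Agent.Lib.MP_ae5b4e_an_N4.Zer
import Pool.Agent.Lib.MP_ae5b4e_an_N4.AsC
import Pool.Agent.Lib.MP_ae5b4e_an_N4.AsD
import Pool.Agent.Lib.MP_ae5b4e_an_N4.AsE

/-!
# N4, module AsG: the structure `Cor` for the function and its reflection
-/

set_option autoImplicit false

noncomputable section

namespace Pool.Agent.MP_ae5b4e_an_N4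

open Complex Set Filter Topology Metric
open Pool.Agent.MP_ae5b4e_an_NBT (St MerAt Mer EqM Den)
open Pool.Agent.MP_ae5b4e_an_NB2 (Sys)
open Pool.Agent.MP_ae5b4e_an_PB (DFU DKU RegF Base)
open Pool.Agent.Lib.MP_ae5b4e_an_LL (SubH)
open scoped ComplexConjugate

/-- the statement of part H -/
def NoRegP : Prop :=
  ∀ (k ν X δ η Dl s1 s2 : ℝ) (G n g : ℂ → ℂ) (O : ℂ × ℂ → ℂ × ℂ) (ρ₀ z₁ : ℂ),
    Chn k ν X δ η Dl s1 s2 G n g ellp O ρ₀ → IsZ1 k ν X δ O ρ₀ z₁ → NoX s1 s2 n →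
    ¬ ∃ f : ℂ → ℂ, MeromorphicOn f (ball (z₁ + 2) (rr k X)) ∧
      ∀ z ∈ ball (z₁ + 2) (rr k X), (z - z₁).im < -Real.exp (-k) →
        f z = cexp (G (stp ellu (Bx s1 s2) G g
          (stp ellu (Bx s1 s2) G g (O (z - 2, ρ₀)))).2)

/-- all facts about one chain -/
structure Fct (k ν X δ s1 s2 : ℝ) (G : ℂ → ℂ) (S0 OP OU : ℂ × ℂ → ℂ × ℂ) (ρ z₁ : ℂ) : Prop where
  z1 : IsZ1 k ν X δ OP ρ z₁
  stp : ∀ z : ℂ, -X - 1 ≤ z.re → z.re ≤ -X → |z.im| ≤ k → OP =ᶠ[𝓝 (z, ρ)] S0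
  stu : ∀ z : ℂ, -X - 1 ≤ z.re → z.re ≤ -X → |z.im| ≤ k → OU =ᶠ[𝓝 (z, ρ)] S0
  heq : ∀ z ∈ Zn k X (z₁.re + 1 / 2), (z - z₁).im ≤ 1 / 8 → OU =ᶠ[𝓝 (z, ρ)] OP
  han : ∀ z : ℂ, -X - 1 ≤ z.re → Adn k z₁ z →
    AnalyticAt ℂ OU (z, ρ) ∧ (OU (z, ρ)).2 ∈ Bx s1 s2
  low : arg ρ ≤ ph0 → ∀ z : ℂ, -X - 1 ≤ z.re → Adm k z₁ z → GdU k ν X δ OU ρ z
  sing : ¬ ∃ f : ℂ × ℂ → ℂ, (∀ z ∈ ball (z₁ + 2) (rr k X), MerAt f (z, ρ)) ∧
      ∀ z ∈ ball (z₁ + 2) (rr k X), (z - z₁).im < -Real.exp (-k) →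
        EqM f (fun p => cexp (G (OU p).2)) (z, ρ)

variable {k ν X δ η Dl s1 s2 : ℝ} {G n g : ℂ → ℂ} {S0 : ℂ × ℂ → ℂ × ℂ} {ρ₀ z₁ : ℂ}

theorem fct_of (hH : NoRegP) (hS : Std k ν X δ η Dl s1 s2 G n g S0 ρ₀) (hx : NoX s1 s2 n)
    (hz : IsZ1 k ν X δ (orb (stp ellp (Bx s1 s2) G g) S0 X) ρ₀ z₁) :
    Fct k ν X δ s1 s2 G S0 (orb (stp ellp (Bx s1 s2) G g) S0 X)
      (orb (stp ellu (Bx s1 s2) G g) S0 X) ρ₀ z₁ := by
  have hP := chn_p hS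
  have hU := chn_u hS
  have h0 : ∀ z : ℂ, -X - 1 ≤ z.re → z.re ≤ -X → |z.im| ≤ k →
      orb (stp ellu (Bx s1 s2) G g) S0 X =ᶠ[𝓝 (z, ρ₀)]
        orb (stp ellp (Bx s1 s2) G g) S0 X := fun z h1 h2 h3 =>
    (orb_eq hS h1 h2 h3).1.trans (orb_eq hS h1 h2 h3).2.symm
  have heq := fun z (hw : z ∈ Zn k X (z₁.re + 1 / 2)) (h : (z - z₁).im ≤ 1 / 8) =>
    pu_eq hP hU hz h0 hw h
  have han := fun z (h1 : -X - 1 ≤ z.re) (hw : Adn k z₁ z) => low_three hP hU hz h0 h1 hw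
  exact
    { z1 := hz
      stp := fun z h1 h2 h3 => (orb_eq hS h1 h2 h3).2
      stu := fun z h1 h2 h3 => (orb_eq hS h1 h2 h3).1
      heq := heq
      han := han
      low := fun hθ z h1 hw => low_zone hP hU hz h0 hθ h1 hw
      sing := no_reg2 hP hU hz (hH _ _ _ _ _ _ _ _ _ _ _ _ _ _ hP hz hx) heq han }

/-- the reflection preserves the sector -/
theorem sec_mir {ra rb : ℝ} {ρ : ℂ} (h : Sec ra rb ρ) : Sec ra rb (-conj ρ) := by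
  obtain ⟨h1, h2, h3, h4⟩ := h
  have hp : (0:ℝ) < ph2 := by unfold ph2; norm_num
  have h0 : ρ ≠ 0 := by
    rintro rfl
    simp at h3
    linarith
  have h5 : arg (-conj ρ) = Real.pi - arg ρ := by
    have h6 : arg (conj ρ) = -arg ρ := by
      rw [Complex.arg_conj, if_neg (by linarith)]
    have h7 : 0 < ρ.im := by
      by_contra h8
      rcases eq_or_lt_of_le (not_lt.1 h8) with h9 | h9
      · rcases le_or_gt 0 ρ.re with h10 | h10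
        · rw [Complex.arg_of_re_nonneg h10, h9] at h3
          simp at h3
          linarith
        · have h11 : arg ρ = Real.pi := Complex.arg_eq_pi_iff.2 ⟨h10, h9⟩
          linarith
      · have h10 := Complex.arg_neg_iff.2 h9
        linarith
    rw [Complex.arg_neg_eq_arg_add_pi_of_im_neg (by simpa using h7), h6]
    ring
  refine ⟨by simpa using h1, by simpa using h2, ?_, ?_⟩
  · rw [h5]; linarith
  · rw [h5]; linarith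

theorem mir_mir (ρ : ℂ) : -conj (-conj ρ) = ρ := by simp

/-- `Cor` for one function -/
theorem cor_fct {ra rb δ' η' : ℝ} {v : ℂ → ℝ} {F : ℂ × ℂ → ℂ} {z₁ : ℂ → ℂ} (hH : NoRegP)
    (h8 : 8 * δ ≤ δ') (hη : η' ≤ 1 / 100) (hra : 0 < ra)
    (hpar : Par k ν X δ η Dl)
    (hS : ∀ ρ, Sec ra rb ρ → Std k ν X δ η Dl s1 s2 G n g S0 ρ)
    (hz : ∀ ρ, Sec ra rb ρ →
      IsZ1 k ν X δ (orb (stp ellp (Bx s1 s2) G g) S0 X) ρ (z₁ ρ))
    (hx : NoX s1 s2 n)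
    (hF : ∀ z ρ : ℂ, ra < ‖ρ‖ → ‖ρ‖ < rb → ‖z‖ ≤ 2 * X → (ρ * z).im < -v ρ → MerAt F (z, ρ))
    (hv : ∀ ρ : ℂ, ra < ‖ρ‖ → ‖ρ‖ < rb → v ρ ≤ k * ((1 + η') * |ρ.im| + η' * ‖ρ‖))
    (hE : ∀ ρ, Sec ra rb ρ → ∀ z : ℂ, -X - 1 ≤ z.re → z.re ≤ -X → |z.im| ≤ k →
      EqM F (fun p => cexp (G (S0 p).2)) (z, ρ)) :
    Cor k ra rb δ' (rr k X) v F
      (fun p => cexp (G (orb (stp ellu (Bx s1 s2) G g) S0 X p).2)) z₁ := by
  have hfc := fun ρ (hρ : Sec ra rb ρ) => fct_of hH (hS ρ hρ) hx (hz ρ hρ)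
  have hopen : IsOpen {ρ | Sec ra rb ρ} := by
    rw [isOpen_iff_mem_nhds]
    rintro ρ ⟨h1, h2, h3, h4⟩
    have hp : (0:ℝ) < ph2 := by unfold ph2; norm_num
    have hsl : ρ ∈ slitPlane := by
      rw [Complex.mem_slitPlane_iff_arg]
      refine ⟨by linarith, ?_⟩
      rintro rfl
      simp at h3
      linarith
    have hc := Complex.continuousAt_arg hsl
    have hn : ContinuousAt (fun ρ : ℂ => ‖ρ‖) ρ := continuous_norm.continuousAt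
    filter_upwards [hn.eventually (lt_mem_nhds h1), hn.eventually (gt_mem_nhds h2),
      hc.eventually (lt_mem_nhds h3), hc.eventually (gt_mem_nhds h4)] with w a1 a2 a3 a4
    exact ⟨a1, a2, a3, a4⟩
  have han := zer hopen hpar.hk hpar.ν1 hpar.ν2 hpar.hX hpar.δ0 hpar.δ1
    (fun ρ (hρ : Sec ra rb ρ) => hz ρ hρ)
  exact cor_of (η := η) (Dl := Dl) (s1 := s1) (s2 := s2) (n := n) (g := g) (S0 := S0)
    h8 hη hra hS (fun ρ hρ => (hz ρ hρ).near) (fun ρ hρ => han ρ hρ)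
    (fun ρ hρ => (hfc ρ hρ).stu) (fun ρ hρ h0 => (hfc ρ hρ).low h0)
    (fun ρ hρ => (hfc ρ hρ).sing) hF hv hE

/-- `Cor` for the reflected function -/
theorem cor_mir {ra rb δ' η' : ℝ} {v : ℂ → ℝ} {F : ℂ × ℂ → ℂ} {z₁ : ℂ → ℂ} (hH : NoRegP)
    (h8 : 8 * δ ≤ δ') (hη : η' ≤ 1 / 100) (hra : 0 < ra)
    (hpar : Par k ν X δ η Dl)
    (hS : ∀ ρ, Sec ra rb ρ → Std k ν X δ η Dl s1 s2 G n g S0 ρ)
    (hz : ∀ ρ, Sec ra rb ρ →
      IsZ1 k ν X δ (orb (stp ellp (Bx s1 s2) G g) S0 X) ρ (z₁ ρ))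
    (hx : NoX s1 s2 (mirF n))
    (hF : ∀ z ρ : ℂ, ra < ‖ρ‖ → ‖ρ‖ < rb → ‖z‖ ≤ 2 * X → (ρ * z).im < -v ρ → MerAt F (z, ρ))
    (hv : ∀ ρ : ℂ, ra < ‖ρ‖ → ‖ρ‖ < rb → v ρ ≤ k * ((1 + η') * |ρ.im| + η' * ‖ρ‖))
    (hE : ∀ ρ, Sec ra rb ρ → ∀ z : ℂ, -X - 1 ≤ z.re → z.re ≤ -X → |z.im| ≤ k →
      EqM F (fun p => cexp (G (S0 p).2)) (z, ρ)) :
    Cor k ra rb δ' (rr k X) (fun ρ => v (-conj ρ)) (mirE F)
      (fun p => cexp (mirF G (orb (stp ellu (Bx s1 s2) (mirF G) (mirF g)) (mirS S0) X p).2))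
      (fun ρ => conj (z₁ (-conj ρ))) := by
  refine cor_fct (η' := η') hH h8 hη hra hpar (S0 := mirS S0) (n := mirF n) ?_ ?_ hx ?_ ?_ ?_
  · intro ρ hρ
    have h := std_mir (hS _ (sec_mir hρ))
    rwa [mir_mir] at h
  · intro ρ hρ
    have h := z1_mir (hS _ (sec_mir hρ)) (hz _ (sec_mir hρ))
    rwa [mir_mir] at h
  · intro z ρ h1 h2 h3 h4
    refine merAt_mirE (hF _ _ (by simpa using h1) (by simpa using h2) (by simpa using h3) ?_)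
    have h5 : -conj ρ * conj z = -conj (ρ * z) := by
      rw [map_mul]; ring
    rw [h5, neg_im, conj_im, neg_neg]
    exact h4
  · intro ρ h1 h2
    have h := hv (-conj ρ) (by simpa using h1) (by simpa using h2)
    simpa using h
  · intro ρ hρ z h1 h2 h3
    have h := hE _ (sec_mir hρ) (conj z) (by simpa using h1) (by simpa using h2) (by simpa using h3)
    have h4 := eqM_mirE h
    refine h4.trans (EqM.of_eventuallyEq (Filter.Eventually.of_forall fun p => ?_))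
    show conj (cexp (G (S0 (conj p.1, -conj p.2)).2)) = cexp (mirF G (mirS S0 p).2)
    rw [← Complex.exp_conj]
    congr 1
    show conj (G (S0 (conj p.1, -conj p.2)).2) = conj (G (tau (tau (S0 (conj p.1, -conj p.2)).2)))
    rw [tau_tau]

end Pool.Agent.MP_ae5b4e_an_N4
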