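import Pool.Agent.Lib.MP_ae5b4e_an_N4.SGd
import Pool.Agent.Lib.MP_ae5b4e_an_M0.Jet

/-!
# MP_ae5b4e_an, N4, part S: no continuation of `n` across the real axis
-/

set_option autoImplicit false

noncomputable section

namespace Pool.Agent.MP_ae5b4e_an_N4

open Complex Set Filter Topology Metric
open Pool.Agent.MP_ae5b4e_an_NBT (St)
open Pool.Agent.MP_ae5b4e_an_NB2 (Sys)
open scoped ComplexConjugate

private theorem nox_core {Y : Sys} {h x0 x' : ℝ} {f lg : ℂ → ℂ}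
    (hlg : AnalyticAt ℂ lg (x' : ℂ)) (hexp : ∀ᶠ w in 𝓝 (x' : ℂ), cexp (lg w) = w)
    (hf : AnalyticAt ℂ f (lg x'))
    (hV : ∀ᶠ w in 𝓝 (x' : ℂ), w.im < 0 → f (lg w) = Vc Y ((x0:ℂ) + (h:ℂ) * I) (lg w)) :
    ¬ NoExt Y h := by
  intro hN
  set b : ℂ := (x0:ℂ) + (h:ℂ) * I with hb
  have hbx : (((x0 + x' : ℝ) : ℂ) + (h:ℂ) * I) - b = (x' : ℂ) := by
    rw [hb]
    push_cast
    ring
  have hq : AnalyticAt ℂ (fun z => (1 / 4 - f (lg (z - b))) * cexp (-2 * lg (z - b)))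
      (((x0 + x' : ℝ) : ℂ) + (h:ℂ) * I) := by
    have h1 : AnalyticAt ℂ (fun z : ℂ => z - b) (((x0 + x' : ℝ) : ℂ) + (h:ℂ) * I) :=
      analyticAt_id.sub analyticAt_const
    have h2 : AnalyticAt ℂ (fun z : ℂ => lg (z - b)) (((x0 + x' : ℝ) : ℂ) + (h:ℂ) * I) :=
      AnalyticAt.comp_of_eq hlg h1 hbx
    have h3 : AnalyticAt ℂ (fun z : ℂ => f (lg (z - b))) (((x0 + x' : ℝ) : ℂ) + (h:ℂ) * I) :=
      AnalyticAt.comp_of_eq hf h2 (by rw [hbx])
    exact (analyticAt_const.sub h3).mul ((analyticAt_const.mul h2).cexp)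
  obtain ⟨d1, hd1, hq1⟩ := hq.exists_ball_analyticOnNhd
  have ht : Tendsto (fun z : ℂ => z - b) (𝓝 (((x0 + x' : ℝ) : ℂ) + (h:ℂ) * I))
      (𝓝 (x':ℂ)) := by
    have h1 : Continuous (fun z : ℂ => z - b) := by fun_prop
    have h2 := h1.tendsto (((x0 + x' : ℝ) : ℂ) + (h:ℂ) * I)
    rwa [hbx] at h2
  obtain ⟨d2, hd2, h2⟩ := Metric.eventually_nhds_iff_ball.1
    ((ht.eventually hexp).and (ht.eventually hV))
  refine hN (x0 + x') (min d1 d2) (lt_min hd1 hd2)
    ⟨_, fun z hz => hq1 z (ball_subset_ball (min_le_left _ _) hz), fun z hz hzi => ?_⟩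
  obtain ⟨h3, h4⟩ := h2 z (ball_subset_ball (min_le_right _ _) hz)
  have h5 : (z - b).im < 0 := by
    rw [hb]
    simp
    linarith
  rw [h4 h5]
  unfold Vc
  rw [h3, add_sub_cancel]
  have h6 : cexp (2 * lg (z - b)) * cexp (-2 * lg (z - b)) = 1 := by
    rw [← Complex.exp_add]
    have : 2 * lg (z - b) + -2 * lg (z - b) = 0 := by ring
    rw [this, Complex.exp_zero]
  linear_combination Y.Q z * h6

private theorem nox_open (x r c c' : ℝ) :
    IsOpen {σ : ℂ | |σ.re - x| < r ∧ c < σ.im ∧ σ.im < c'} := by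
  refine IsOpen.inter ?_ (IsOpen.inter ?_ ?_)
  · exact isOpen_lt (continuous_re.sub continuous_const).abs continuous_const
  · exact isOpen_lt continuous_const continuous_im
  · exact isOpen_lt continuous_im continuous_const

private theorem nox_convex (x r c c' : ℝ) :
    Convex ℝ {σ : ℂ | |σ.re - x| < r ∧ c < σ.im ∧ σ.im < c'} := by
  have e : {σ : ℂ | |σ.re - x| < r ∧ c < σ.im ∧ σ.im < c'} =
      ({σ : ℂ | x - r < σ.re} ∩ {σ : ℂ | σ.re < x + r}) ∩
        ({σ : ℂ | c < σ.im} ∩ {σ : ℂ | σ.im < c'}) := by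
    ext σ
    simp only [mem_ofPred_eq, mem_inter_iff, abs_lt]
    constructor
    · rintro ⟨⟨h1, h2⟩, h3, h4⟩
      exact ⟨⟨by linarith, by linarith⟩, h3, h4⟩
    · rintro ⟨⟨h1, h2⟩, h3, h4⟩
      exact ⟨⟨by linarith, by linarith⟩, h3, h4⟩
  rw [e]
  exact ((convex_halfSpace_re_gt _).inter (convex_halfSpace_re_lt _)).inter
    ((convex_halfSpace_im_gt _).inter (convex_halfSpace_im_lt _))

private theorem nox_id {Y : Sys} {h x0 : ℝ} (hY : Y.On (St (-h) h)) {x r : ℝ} (hr : 0 < r)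
    (hx : Real.exp (x + r) < h) {c₀ c₁ c₂ c₃ : ℝ} (h0 : -Real.pi ≤ c₀) (h01 : c₀ ≤ c₁)
    (h12 : c₁ < c₂) (h23 : c₂ ≤ c₃) (h3 : c₃ ≤ 0) {f : ℂ → ℂ}
    (hf : ∀ σ : ℂ, |σ.re - x| < r → c₀ < σ.im → σ.im < c₃ → AnalyticAt ℂ f σ)
    (he : ∀ σ : ℂ, |σ.re - x| < r → c₁ < σ.im → σ.im < c₂ →
      f σ = Vc Y ((x0:ℂ) + (h:ℂ) * I) σ) :
    ∀ σ : ℂ, |σ.re - x| < r → c₀ < σ.im → σ.im < c₃ →
      f σ = Vc Y ((x0:ℂ) + (h:ℂ) * I) σ := by
  have hSo : IsOpen (St (-h) h) := by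
    have h1 : IsOpen {t : ℂ | -h < t.im} := isOpen_lt continuous_const continuous_im
    have h2 : IsOpen {t : ℂ | t.im < h} := isOpen_lt continuous_im continuous_const
    exact h1.inter h2
  have hQ := Pool.Agent.MP_ae5b4e_an_M0.Q_an hY hSo
  have hVan : AnalyticOnNhd ℂ (Vc Y ((x0:ℂ) + (h:ℂ) * I))
      {σ : ℂ | |σ.re - x| < r ∧ c₀ < σ.im ∧ σ.im < c₃} := by
    rintro σ ⟨h1, h2, h4⟩
    have hmem : (x0:ℂ) + (h:ℂ) * I + cexp σ ∈ St (-h) h := by
      have e1 : ((x0:ℂ) + (h:ℂ) * I + cexp σ).im = h + Real.exp σ.re * Real.sin σ.im := by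
        rw [add_im, Complex.exp_im]
        simp
      have h5 : Real.sin σ.im < 0 :=
        Real.sin_neg_of_neg_of_neg_pi_lt (by linarith) (by linarith)
      have h6 := Real.exp_pos σ.re
      have h7 : Real.exp σ.re ≤ Real.exp (x + r) :=
        Real.exp_le_exp.2 (by linarith [(abs_lt.1 h1).2])
      have h8 := Real.neg_one_le_sin σ.im
      refine ⟨?_, ?_⟩
      · rw [e1]
        nlinarith [mul_le_mul_of_nonneg_left h8 h6.le]
      · rw [e1]
        nlinarith [mul_pos_of_neg_of_neg (neg_neg_of_pos h6) h5]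
    have h5 : AnalyticAt ℂ (fun s : ℂ => (x0:ℂ) + (h:ℂ) * I + cexp s) σ :=
      analyticAt_const.add analyticAt_cexp
    have h6 : AnalyticAt ℂ (fun s : ℂ => Y.Q ((x0:ℂ) + (h:ℂ) * I + cexp s)) σ :=
      AnalyticAt.comp_of_eq (hQ _ hmem) h5 rfl
    exact analyticAt_const.sub ((analyticAt_const.mul analyticAt_id).cexp.mul h6)
  have hfan : AnalyticOnNhd ℂ f {σ : ℂ | |σ.re - x| < r ∧ c₀ < σ.im ∧ σ.im < c₃} :=
    fun σ hσ => hf σ hσ.1 hσ.2.1 hσ.2.2
  set σ₀ : ℂ := (x : ℂ) + (((c₁ + c₂) / 2 : ℝ) : ℂ) * I with hσ₀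
  have hre : σ₀.re = x := by
    rw [hσ₀]
    simp
  have him : σ₀.im = (c₁ + c₂) / 2 := by
    rw [hσ₀]
    simp
  have hmem1 : σ₀ ∈ {σ : ℂ | |σ.re - x| < r ∧ c₁ < σ.im ∧ σ.im < c₂} := by
    refine ⟨?_, ?_, ?_⟩
    · rw [hre, sub_self, abs_zero]
      exact hr
    · rw [him]
      linarith
    · rw [him]
      linarith
  have hmem2 : σ₀ ∈ {σ : ℂ | |σ.re - x| < r ∧ c₀ < σ.im ∧ σ.im < c₃} :=
    ⟨hmem1.1, lt_of_le_of_lt h01 hmem1.2.1, lt_of_lt_of_le hmem1.2.2 h23⟩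
  have hev : f =ᶠ[𝓝 σ₀] Vc Y ((x0:ℂ) + (h:ℂ) * I) := by
    filter_upwards [(nox_open x r c₁ c₂).mem_nhds hmem1] with σ hσ
    exact he σ hσ.1 hσ.2.1 hσ.2.2
  intro σ h1 h2 h4
  exact hfan.eqOn_of_preconnected_of_eventuallyEq hVan (nox_convex x r c₀ c₃).isPreconnected
    hmem2 hev ⟨h1, h2, h4⟩

/-- the potential in terms of `n` -/
private def nox_f (n : ℂ → ℂ) (σ : ℂ) : ℂ :=
  (n σ ^ 2 - 2 * deriv (fun σ => deriv n σ / n σ) σ + (deriv n σ / n σ) ^ 2) / 4

private theorem nox_f_an {n : ℂ → ℂ} {σ : ℂ} (h : AnalyticAt ℂ n σ) (h0 : n σ ≠ 0) :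
    AnalyticAt ℂ (nox_f n) σ := by
  have h1 : AnalyticAt ℂ (fun σ => deriv n σ / n σ) σ := h.deriv.div h h0
  exact (((h.pow 2).sub (analyticAt_const.mul h1.deriv)).add (h1.pow 2)).div_const

private theorem nox_f_congr {n n' : ℂ → ℂ} {σ : ℂ} (h : n =ᶠ[𝓝 σ] n') :
    nox_f n σ = nox_f n' σ := by
  have h1 : (fun σ => deriv n σ / n σ) =ᶠ[𝓝 σ] fun σ => deriv n' σ / n' σ := by
    filter_upwards [h.deriv, h] with s h2 h3
    rw [h2, h3]
  unfold nox_f
  rw [h.eq_of_nhds, h1.deriv_eq, h.deriv_eq]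

private theorem nox_tau (σ : ℂ) : tau (tau σ) = σ := by
  unfold tau
  apply Complex.ext <;> simp

private theorem nox_tau_re (σ : ℂ) : (tau σ).re = σ.re := by
  unfold tau
  simp

private theorem nox_tau_im (σ : ℂ) : (tau σ).im = -σ.im - Real.pi := by
  unfold tau
  simp

private theorem nox_mir_an {n : ℂ → ℂ} {σ : ℂ} (h : AnalyticAt ℂ n (tau σ)) :
    AnalyticAt ℂ (mirF n) σ := by
  rw [Complex.analyticAt_iff_eventually_differentiableAt] at h ⊢
  have hc : ContinuousAt tau σ := by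
    unfold tau
    fun_prop
  filter_upwards [hc.eventually h] with s hs
  have e : mirF n = (fun z => conj ((fun w => n (w - (Real.pi : ℂ) * I)) (conj z))) := by
    funext z
    rfl
  rw [e]
  have h1 : DifferentiableAt ℂ (fun w => n (w - (Real.pi : ℂ) * I)) (conj s) := by
    have h2 : DifferentiableAt ℂ (fun w : ℂ => w - (Real.pi : ℂ) * I) (conj s) := by fun_prop
    exact DifferentiableAt.comp (conj s) hs h2
  have h2 := h1.conj_conj
  rw [Complex.conj_conj] at h2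
  exact h2

/-- An analytic continuation of `σ ↦ Vc Y b σ` to a neighbourhood of the real point `x` extends `Q`
near `b + exp x`.

Proof. `f` analytic on `D = {|σ.re - x| < r, -2 < σ.im < 1/10}`, `f = Vc` for `σ.im < -aa`. `Vc` is analytic
on `{-π < σ.im < 0, |σ.re - x| < r}` (`Q_an`; `b + exp σ` is in the strip `St (-h) h` there, because
`exp (x + r) < h`), so by the identity theorem `f = Vc` for `-2 < σ.im < 0`. For `z` in a small ball about
`b + exp x` put `σ = log (z - b)` (principal logarithm near the positive number `exp x`) and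
`q z = (1/4 - f σ) exp (-2 σ)`; for `z.im < h`: `σ.im < 0` and `q z = Q z`. -/
theorem ext_right {Y : Sys} {h x0 : ℝ} (hY : Y.On (St (-h) h)) {x r : ℝ} (hr : 0 < r)
    (hx : Real.exp (x + r) < h) {f : ℂ → ℂ}
    (hf : AnalyticOnNhd ℂ f {σ | |σ.re - x| < r ∧ -2 < σ.im ∧ σ.im < 1 / 10})
    (he : ∀ σ : ℂ, |σ.re - x| < r → -2 < σ.im → σ.im < -aa →
      f σ = Vc Y ((x0:ℂ) + (h:ℂ) * I) σ) : ¬ NoExt Y h := by
  have hpi := Real.pi_gt_three
  have h1 := nox_id hY hr hx (c₀ := -2) (c₁ := -2) (c₂ := -aa) (c₃ := 0) (by linarith) le_rfl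
    (by unfold aa; norm_num) (by unfold aa; norm_num) le_rfl
    (fun σ h1 h2 h3 => hf σ ⟨h1, h2, by linarith⟩) he
  have hlogx : Complex.log ((Real.exp x : ℝ) : ℂ) = (x : ℂ) := by
    rw [← Complex.ofReal_log (Real.exp_pos x).le, Real.log_exp]
  have hslit : ((Real.exp x : ℝ) : ℂ) ∈ slitPlane := Or.inl (by
    rw [ofReal_re]
    exact Real.exp_pos x)
  have hxr : |((x : ℂ)).re - x| < r := by
    rw [ofReal_re, sub_self, abs_zero]
    exact hr
  refine nox_core (x0 := x0) (f := f) (x' := Real.exp x) (lg := Complex.log)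
    (analyticAt_clog hslit) ?_ ?_ ?_
  · filter_upwards [isOpen_slitPlane.mem_nhds hslit] with w hw
    exact Complex.exp_log (slitPlane_ne_zero hw)
  · rw [hlogx]
    refine hf _ ⟨hxr, ?_, ?_⟩
    · rw [ofReal_im]
      norm_num
    · rw [ofReal_im]
      norm_num
  · have hc : ContinuousAt Complex.log ((Real.exp x : ℝ) : ℂ) := continuousAt_clog hslit
    have hm : {σ : ℂ | |σ.re - x| < r ∧ -2 < σ.im ∧ σ.im < 1 / 10} ∈
        𝓝 (Complex.log ((Real.exp x : ℝ) : ℂ)) := by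
      rw [hlogx]
      refine (nox_open x r _ _).mem_nhds ⟨hxr, ?_, ?_⟩
      · rw [ofReal_im]
        norm_num
      · rw [ofReal_im]
        norm_num
    filter_upwards [hc.preimage_mem_nhds hm] with w hw hwi
    refine h1 _ hw.1 hw.2.1 ?_
    rw [Complex.log_im]
    exact Complex.arg_neg_iff.2 hwi

/-- the same at the left end of the box: near `σ = x - π i`, `exp σ = - exp x` -/
theorem ext_left {Y : Sys} {h x0 : ℝ} (hY : Y.On (St (-h) h)) {x r : ℝ} (hr : 0 < r)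
    (hx : Real.exp (x + r) < h) {f : ℂ → ℂ}
    (hf : AnalyticOnNhd ℂ f
      {σ | |σ.re - x| < r ∧ -Real.pi - 1 / 10 < σ.im ∧ σ.im < -Real.pi + 2})
    (he : ∀ σ : ℂ, |σ.re - x| < r → -Real.pi + aa < σ.im → σ.im < -Real.pi + 2 →
      f σ = Vc Y ((x0:ℂ) + (h:ℂ) * I) σ) : ¬ NoExt Y h := by
  have hpi := Real.pi_gt_three
  have h1 := nox_id hY hr hx (c₀ := -Real.pi) (c₁ := -Real.pi + aa) (c₂ := -Real.pi + 2)
    (c₃ := -Real.pi + 2) le_rfl (by unfold aa; linarith) (by unfold aa; linarith) le_rfl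
    (by linarith) (fun σ h1 h2 h3 => hf σ ⟨h1, by linarith, h3⟩) he
  have hlogx : Complex.log ((Real.exp x : ℝ) : ℂ) = (x : ℂ) := by
    rw [← Complex.ofReal_log (Real.exp_pos x).le, Real.log_exp]
  have hslit : ((Real.exp x : ℝ) : ℂ) ∈ slitPlane := Or.inl (by
    rw [ofReal_re]
    exact Real.exp_pos x)
  have hneg : -(((-Real.exp x : ℝ) : ℂ)) = ((Real.exp x : ℝ) : ℂ) := by
    push_cast
    ring
  set lg : ℂ → ℂ := fun w => Complex.log (-w) - (Real.pi : ℂ) * I with hlg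
  have hlgx : lg ((-Real.exp x : ℝ) : ℂ) = (x : ℂ) - (Real.pi : ℂ) * I := by
    rw [hlg]
    dsimp only
    rw [hneg, hlogx]
  have hlgan : AnalyticAt ℂ lg ((-Real.exp x : ℝ) : ℂ) := by
    have h2 : AnalyticAt ℂ (fun w : ℂ => -w) ((-Real.exp x : ℝ) : ℂ) := analyticAt_id.neg
    have h3 : AnalyticAt ℂ (fun w : ℂ => Complex.log (-w)) ((-Real.exp x : ℝ) : ℂ) :=
      AnalyticAt.comp_of_eq (analyticAt_clog hslit) h2 hneg
    exact h3.sub analyticAt_const
  have hre : ((x : ℂ) - (Real.pi : ℂ) * I).re = x := by simp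
  have him : ((x : ℂ) - (Real.pi : ℂ) * I).im = -Real.pi := by simp
  have hxr : |((x : ℂ) - (Real.pi : ℂ) * I).re - x| < r := by
    rw [hre, sub_self, abs_zero]
    exact hr
  refine nox_core (x0 := x0) (f := f) (x' := -Real.exp x) (lg := lg) hlgan ?_ ?_ ?_
  · have hm : ∀ᶠ w in 𝓝 (((-Real.exp x : ℝ)) : ℂ), -w ≠ 0 := by
      have h2 : Continuous (fun w : ℂ => -w) := continuous_neg
      refine h2.continuousAt.eventually_ne ?_
      rw [hneg]
      exact slitPlane_ne_zero hslit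
    filter_upwards [hm] with w hw
    rw [hlg]
    dsimp only
    rw [Complex.exp_sub, Complex.exp_log hw, Complex.exp_pi_mul_I]
    ring
  · rw [hlgx]
    refine hf _ ⟨hxr, ?_, ?_⟩
    · rw [him]
      linarith
    · rw [him]
      linarith
  · have hm : {σ : ℂ | |σ.re - x| < r ∧ -Real.pi - 1 / 10 < σ.im ∧ σ.im < -Real.pi + 2} ∈
        𝓝 (lg ((-Real.exp x : ℝ) : ℂ)) := by
      rw [hlgx]
      refine (nox_open x r _ _).mem_nhds ⟨hxr, ?_, ?_⟩
      · rw [him]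
        linarith
      · rw [him]
        linarith
    filter_upwards [hlgan.continuousAt.preimage_mem_nhds hm] with w hw hwi
    refine h1 _ hw.1 ?_ hw.2.2
    have h2 : (lg w).im = Complex.arg (-w) - Real.pi := by
      rw [hlg]
      dsimp only
      rw [sub_im, Complex.log_im]
      simp
    rw [h2]
    have h3 : 0 ≤ Complex.arg (-w) := Complex.arg_nonneg_iff.2 (by
      rw [neg_im]
      linarith)
    have h4 : Complex.arg (-w) ≠ 0 := by
      intro h5
      have h6 := (Complex.arg_eq_zero_iff.1 h5).2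
      rw [neg_im] at h6
      linarith
    have h5 := lt_of_le_of_ne h3 (Ne.symm h4)
    linarith

/-- (S2) `NoX` for `n` and for the reflected function.

Proof. If `n'` is a continuation of `n` without zeros, then
`f = (n'² - 2 (n'_σ / n')_σ + (n'_σ / n')²) / 4` is analytic on the rectangle and equals `Vc` for
`σ.im < -aa` (`Sol.hV`; on this open set the derivatives of `n'` and `n` agree; the points are in
`Bx s1 s2` since `-2 > -π + aa`). `ext_right`. For `mirF n`: a continuation `n'` of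
`mirF n` gives `n'' σ = conj (n' (tau σ))` on the reflected rectangle (`tau` is an involution,
`Im (tau σ) = - π - Im σ`; `n''` is analytic), equal to `n` for `σ.im > -π + aa`; `ext_left`.
`exp (s2) < h` bounds the radii. -/
theorem nox_of_noext {Y : Sys} {h x0 : ℝ} (hY : Y.On (St (-h) h)) {ν η s1 s2 : ℝ}
    (hs : Real.exp s2 < h) {α β α' β' : ℂ} {G n g : ℂ → ℂ}
    (hS : Sol Y ((x0:ℂ) + (h:ℂ) * I) ν η s1 s2 α β α' β' G n g) (hN : NoExt Y h) :
    NoX s1 s2 n ∧ NoX s1 s2 (mirF n) := by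
  have hpi := Real.pi_gt_three
  have hpi4 := Real.pi_lt_four
  have ha : aa = 1 / 12800 := rfl
  have hBo : IsOpen (Bx s1 s2) := by
    have h1 : IsOpen {σ : ℂ | s1 < σ.re} := isOpen_lt continuous_const continuous_re
    have h2 : IsOpen {σ : ℂ | σ.re < s2} := isOpen_lt continuous_re continuous_const
    have h3 : IsOpen {σ : ℂ | -Real.pi + aa < σ.im} := isOpen_lt continuous_const continuous_im
    have h4 : IsOpen {σ : ℂ | σ.im < -aa} := isOpen_lt continuous_im continuous_const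
    exact h1.inter (h2.inter (h3.inter h4))
  have hV : ∀ σ ∈ Bx s1 s2, nox_f n σ = Vc Y ((x0:ℂ) + (h:ℂ) * I) σ := by
    intro σ hσ
    have h1 := hS.hV σ hσ
    unfold nox_f
    rw [← h1]
    ring
  have hexp : ∀ x r : ℝ, x + r < s2 → Real.exp (x + r) < h := fun x r hxr =>
    (Real.exp_lt_exp.2 hxr).trans hs
  constructor
  · rintro x r hr h1 h2 ⟨n', han, hn0, heq⟩
    refine ext_right (x0 := x0) hY hr (hexp x r h2) (f := nox_f n')
      (fun σ hσ => nox_f_an (han σ hσ) (hn0 σ hσ.1 hσ.2.1 hσ.2.2)) ?_ hN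
    intro σ h3 h4 h5
    have h6 := abs_lt.1 h3
    have hσ : σ ∈ Bx s1 s2 := ⟨by linarith, by linarith, by linarith, h5⟩
    rw [← hV σ hσ]
    refine nox_f_congr ?_
    filter_upwards [(nox_open x r (-2) (-aa)).mem_nhds ⟨h3, h4, h5⟩] with s hs'
    exact heq s hs'.1 hs'.2.1 hs'.2.2
  · rintro x r hr h1 h2 ⟨n', han, hn0, heq⟩
    have hD : ∀ σ : ℂ, |σ.re - x| < r → -Real.pi - 1 / 10 < σ.im → σ.im < -Real.pi + 2 →
        |(tau σ).re - x| < r ∧ -2 < (tau σ).im ∧ (tau σ).im < 1 / 10 := by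
      intro σ h3 h4 h5
      rw [nox_tau_re, nox_tau_im]
      exact ⟨h3, by linarith, by linarith⟩
    refine ext_left (x0 := x0) hY hr (hexp x r h2) (f := nox_f (mirF n')) ?_ ?_ hN
    · rintro σ ⟨h3, h4, h5⟩
      obtain ⟨h6, h7, h8⟩ := hD σ h3 h4 h5
      refine nox_f_an (nox_mir_an (han _ ⟨h6, h7, h8⟩)) ?_
      unfold mirF
      intro h9
      rw [map_eq_zero] at h9
      exact hn0 _ h6 h7 h8 h9
    · intro σ h3 h4 h5
      have h6 := abs_lt.1 h3
      have hσ : σ ∈ Bx s1 s2 := ⟨by linarith, by linarith, h4, by linarith⟩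
      rw [← hV σ hσ]
      refine nox_f_congr ?_
      filter_upwards [(nox_open x r (-Real.pi + aa) (-Real.pi + 2)).mem_nhds ⟨h3, h4, h5⟩]
        with s hs'
      obtain ⟨h7, h8, h9⟩ := hs'
      have h10 : mirF n' s = conj (n' (tau s)) := rfl
      rw [h10, heq (tau s) (by rw [nox_tau_re]; exact h7) (by rw [nox_tau_im]; linarith)
        (by rw [nox_tau_im]; linarith)]
      unfold mirF
      rw [nox_tau, Complex.conj_conj]

end Pool.Agent.MP_ae5b4e_an_N4
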