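import Pool.Agent.Lib.MP_ae5b4e_an_N4.SSt
import Pool.Agent.Lib.MP_ae5b4e_an_N4.SNox

/-!
# MP_ae5b4e_an, N4, part S: theorem `start`
-/

set_option autoImplicit false

noncomputable section

namespace Pool.Agent.MP_ae5b4e_an_N4

open Complex Set Filter Topology Metric InnerProductSpace
open Pool.Agent.MP_ae5b4e_an_NBT (St MerAt Mer EqM)
open Pool.Agent.MP_ae5b4e_an_NB2 (Sys)
open Pool.Agent.MP_ae5b4e_an_PB (DFU DKU RegF Base)
open Pool.Agent.Lib.MP_ae5b4e_an_LL (SubH)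
open scoped ComplexConjugate

/-- the start data -/
def S0f (Gc : ℂ → ℂ) (L : ℂ × ℂ → ℂ) (x0 h : ℝ) (p : ℂ × ℂ) : ℂ × ℂ :=
  ((cexp (Gc (sg L x0 h (p.1 + 1, p.2)) - Gc (sg L x0 h p)) - 1)⁻¹, sg L x0 h p)

/-- for fixed `ρ` the function `z ↦ sg (z, ρ)` satisfies `Sgz` with `c = log ρ`, `ψ = psi (·, ρ)` -/
theorem sgz_of {Y : Sys} {h R C0 : ℝ} {v : ℂ → ℝ} {G L : ℂ × ℂ → ℂ} {η lam a A rf re k x0 : ℝ}
    (hB : Base Y h R C0 v G L) (hc : Cst A lam a) (hk : 2 ≤ k) (hη : η ≤ 1 / 4)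
    (hη0 : 0 ≤ η) (H : Hyp Y h R v η lam a rf re k x0) {ρ : ℂ} (hρ : Dir lam rf re ρ) :
    Sgz (sL A k rf) (sR A k lam re) (A * k) A (Complex.log ρ) (fun z => sg L x0 h (z, ρ))
      (fun z => psi L x0 h (z, ρ)) := by
  have hX : ((A * k : ℝ) : ℂ) = (A:ℂ) * (k:ℂ) := by push_cast; rfl
  refine ⟨fun z hz => ?_, fun z hz => rfl, fun z hz => ?_, fun z hz => ?_⟩
  · rw [hX] at hz
    exact sg_mem hB hc hk hη hη0 H hρ hz
  · rw [Metric.mem_ball, dist_eq_norm, sub_neg_eq_add, hX] at hz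
    have h1 := (sg_exp hB hc hk hη hη0 H hρ hz).2.2.2
    have h2 : AnalyticAt ℂ (fun z : ℂ => (z, ρ)) z := AnalyticAt.prod analyticAt_id analyticAt_const
    have h3 : AnalyticAt ℂ (psi L x0 h ∘ fun z : ℂ => (z, ρ)) z := h1.comp_of_eq h2 rfl
    exact h3.differentiableAt.differentiableWithinAt
  · rw [hX] at hz
    exact (sg_exp hB hc hk hη hη0 H hρ hz).2.1

/-- THE RECURSION at a point `(z, ρ)` with `ρ` a direction, `‖z + X‖ < X / 70000`.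

Proof. `σ = sg (·, ρ)`, `s = sv Gc σ`. `st_ell` at `z - 1`: `ellp (s (z-1)) = Gc (σ z) - Gc (σ (z-1))`, so
`Gc (σ (z - 1)) + ellp (..) = Gc (σ z)` and `invFunOn Gc (Bx ..)` of it is `σ z` (`Gd.inj`,
`Function.invFunOn_eq`, `sg_mem`). The first coordinate: `s z = s (z - 1) + g (σ z)` by `st_rec` and
`node_F` with `F = exp (Gc (σ z))`, `Fp = exp (Gc (σ (z + 1)))`, `Fm = exp (Gc (σ (z - 1)))` (`Sol.hF`), the
node relation `hB.node` at `(t, ρ)`, `t = b + ρ z` (the three points are in `DKU` by `lab_est`;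
`b + exp (σ z) = L (t, ρ)` etc. by `sg_exp`: `lbl (z ± 1, ρ) = L (t ± ρ, ρ) - b`), `Fp ≠ F`, `Fm ≠ F` since
`D ≠ 0`, `‖D‖ ≤ 10 / A < π` (`st_D`, `exp D ≠ 1` by `bern`), and `Gd.geq`: `g = (1 - n'/n)/n`. -/
theorem step_of {Y : Sys} {h R C0 : ℝ} {v : ℂ → ℝ} {G L : ℂ × ℂ → ℂ} {η lam a A rf re k x0 : ℝ}
    (hB : Base Y h R C0 v G L) (hc : Cst A lam a) (hη : η ≤ 1 / 4)
    (hη0 : 0 ≤ η) (H : Hyp Y h R v η lam a rf re k x0) {ν η' δ : ℝ} {α β α' β' : ℂ}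
    {Gc n g : ℂ → ℂ} (hN : Num k A ν η' δ)
    (hS : Sol Y ((x0:ℂ) + (h:ℂ) * I) ν η' (sL A k rf) (sR A k lam re) α β α' β' Gc n g)
    {ρ z : ℂ} (hρ : Dir lam rf re ρ) (hz : ‖z + A * k‖ < A * k / 70000) :
    S0f Gc L x0 h (z, ρ) =
      stp ellp (Bx (sL A k rf) (sR A k lam re)) Gc g (S0f Gc L x0 h (z - 1, ρ)) := by
  have hk2 : 2 ≤ k := le_trans (by norm_num) hN.hk
  have hA := hN.hA
  have hk0 := hN.hk
  have hX0 : (10:ℝ) ^ 30 ≤ A * k := by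
    calc (10:ℝ) ^ 30 = 10 ^ 10 * 10 ^ 20 := by norm_num
      _ ≤ A * k := mul_le_mul hA hk0 (by positivity) (by linarith)
  have hX : ((A * k : ℝ) : ℂ) = (A:ℂ) * (k:ℂ) := by push_cast; rfl
  have hσ := sgz_of hB hc hk2 hη hη0 H hρ
  have hν0 : 0 < ν := by linarith [hN.ν1]
  have hη1 : η' < 1 := by
    have h1 := hN.η1
    have h2 : (1:ℝ) ≤ A ^ 2 * 10 ^ 14 := by nlinarith
    have h3 := hN.δ1
    have h4 := hN.η0
    nlinarith
  have hz1 : ‖z + (A * k : ℝ)‖ < A * k / 70000 := by rw [hX]; exact hz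
  have hz0 : ‖z + (A * k : ℝ)‖ ≤ A * k / 60000 := by linarith
  have hzm : ‖z - 1 + (A * k : ℝ)‖ ≤ A * k / 60000 := by
    have h1 : z - 1 + (A * k : ℝ) = (z + (A * k : ℝ)) - 1 := by ring
    rw [h1]
    refine (norm_sub_le _ _).trans ?_
    rw [norm_one]
    linarith
  have hzp : ‖z + 1 + (A * k : ℝ)‖ < A * k / 25600 := by
    have h1 : z + 1 + (A * k : ℝ) = (z + (A * k : ℝ)) + 1 := by ring
    rw [h1]
    refine (norm_add_le _ _).trans_lt ?_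
    rw [norm_one]
    linarith
  have hz25 : ‖z + (A * k : ℝ)‖ < A * k / 25600 := by linarith
  have hzm25 : ‖z - 1 + (A * k : ℝ)‖ < A * k / 25600 := by linarith
  have hm0 : sg L x0 h (z, ρ) ∈ Bx (sL A k rf) (sR A k lam re) := hσ.mem z hz25
  have hmp : sg L x0 h (z + 1, ρ) ∈ Bx (sL A k rf) (sR A k lam re) := hσ.mem (z + 1) hzp
  have hmm : sg L x0 h (z - 1, ρ) ∈ Bx (sL A k rf) (sR A k lam re) := hσ.mem (z - 1) hzm25
  have hD0 := st_D hN rfl hS.gd hσ hz0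
  have hDm := st_D hN rfl hS.gd hσ hzm
  have hell := st_ell hN rfl hS.gd hσ hzm
  simp only [sub_add_cancel] at hell hDm
  have hA10 : 10 / A ≤ 1 / 2 := by
    rw [div_le_div_iff₀ (by linarith) (by norm_num)]
    linarith
  have hb0 := (bern hD0.2.2 (hD0.2.1.trans hA10)).1
  have hbm := (bern hDm.2.2 (hDm.2.1.trans hA10)).1
  have hinv : Function.invFunOn Gc (Bx (sL A k rf) (sR A k lam re)) (Gc (sg L x0 h (z, ρ))) =
      sg L x0 h (z, ρ) := (hS.gd.inj hν0 hη1).leftInvOn_invFunOn hm0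
  -- the second coordinate
  have hsec : Gc (sg L x0 h (z - 1, ρ)) + ellp (S0f Gc L x0 h (z - 1, ρ)).1 =
      Gc (sg L x0 h (z, ρ)) := by
    have h1 : (S0f Gc L x0 h (z - 1, ρ)).1 = sv Gc (fun z => sg L x0 h (z, ρ)) (z - 1) := rfl
    rw [h1, hell]
    ring
  have hsnd : (S0f Gc L x0 h (z - 1, ρ)).2 = sg L x0 h (z - 1, ρ) := rfl
  -- the labels
  have hlab : ∀ w : ℂ, ‖w + (A * k : ℝ)‖ < A * k / 25600 →
      (((x0:ℂ) + (h:ℂ) * I + ρ * w, ρ) ∈ DKU v h R ∧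
      (x0:ℂ) + (h:ℂ) * I + cexp (sg L x0 h (w, ρ)) = L ((x0:ℂ) + (h:ℂ) * I + ρ * w, ρ)) := by
    intro w hw
    rw [hX] at hw
    refine ⟨(lab_est hB hc hk2 hη hη0 H hρ hw.le).1, ?_⟩
    rw [(sg_exp hB hc hk2 hη hη0 H hρ hw).1]
    simp only [lbl]
    ring
  have hl0 := hlab z hz25
  have hlp := hlab (z + 1) hzp
  have hlm := hlab (z - 1) hzm25
  have e1 : (x0:ℂ) + (h:ℂ) * I + ρ * (z + 1) = (x0:ℂ) + (h:ℂ) * I + ρ * z + ρ := by ring
  have e2 : (x0:ℂ) + (h:ℂ) * I + ρ * (z - 1) = (x0:ℂ) + (h:ℂ) * I + ρ * z - ρ := by ring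
  have hnode : Y.node ((x0:ℂ) + (h:ℂ) * I + cexp (sg L x0 h (z, ρ)))
      ((x0:ℂ) + (h:ℂ) * I + cexp (sg L x0 h (z + 1, ρ)))
      ((x0:ℂ) + (h:ℂ) * I + cexp (sg L x0 h (z - 1, ρ))) := by
    rw [hl0.2, hlp.2, hlm.2, e1, e2]
    refine hB.node _ _ hl0.1 ?_ ?_
    · rw [← e1]; exact hlp.1
    · rw [← e2]; exact hlm.1
  have hSt : ∀ w : ℂ, ‖w + (A * k : ℝ)‖ < A * k / 25600 →
      (x0:ℂ) + (h:ℂ) * I + cexp (sg L x0 h (w, ρ)) ∈ St (-h) h := by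
    intro w hw
    rw [(hlab w hw).2]
    exact hB.maps _ (hlab w hw).1
  have hexpD : ∀ u w : ℂ, cexp (Gc u - Gc w) ≠ 1 → cexp (Gc u) ≠ cexp (Gc w) := by
    intro u w h1 h2
    apply h1
    rw [Complex.exp_sub, h2, div_self (Complex.exp_ne_zero _)]
  have hpF := hexpD _ _ hb0
  have hmF := hexpD _ _ hbm
  have hF := node_F hB.on (hSt z hz25) (hSt (z + 1) hzp) (hSt (z - 1) hzm25) hS.hc
    (hS.hne _ hm0).1 (hS.hne _ hm0).2 (hS.hne _ hmp).2 (hS.hne _ hmm).2 (hS.hn _ hm0)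
    (hS.hd _ hm0) hnode (hS.hF _ hm0) (hS.hF _ hmp) (hS.hF _ hmm) hpF (Ne.symm hmF)
  have hn0 : n (sg L x0 h (z, ρ)) ≠ 0 := by
    intro h0
    have h1 := hS.gd.nc _ hm0
    rw [h0, zero_sub, norm_neg, Complex.norm_real, Real.norm_eq_abs, abs_of_pos hν0] at h1
    nlinarith
  have hg : (1 - deriv n (sg L x0 h (z, ρ)) / n (sg L x0 h (z, ρ))) / n (sg L x0 h (z, ρ)) =
      g (sg L x0 h (z, ρ)) := by
    rw [← hS.gd.geq _ hm0]
    field_simp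
  rw [hg] at hF
  have hrec := st_rec (Complex.exp_ne_zero (Gc (sg L x0 h (z, ρ))))
    (Complex.exp_ne_zero (Gc (sg L x0 h (z - 1, ρ)))) hpF hmF rfl rfl hF
  rw [← Complex.exp_sub, ← Complex.exp_sub] at hrec
  refine Prod.ext ?_ ?_
  · simp only [stp]
    rw [hsnd, hsec, hinv]
    simp only [S0f, sub_add_cancel]
    exact hrec
  · simp only [stp]
    rw [hsnd, hsec, hinv]
    rfl

/-- PART S.

Proof. Let `C` be the constant of `exists_sol`. `A := 10 ^ 20 / δ`, `η := δ / (C A² 10 ^ 14)` (`η ≤ 1/4`,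
`C η ≤ 1`), `lam := 1 / (exp (A + 1010) (A + 1))`, `a := aa / 8`, `M := max (max (10 ^ 20) (1000 / δ)) A` (`hX2`: `A κ ≤ κ²`). Let `b = x0 + i h`,
`s1 = sL A κ rf`, `s2 = sR A κ lam re`, `Dl = A + 1000`, `ν = 2 √(κ² + 1/4)` (`2 κ ≤ ν ≤ 2 κ + 1`), `η' = C η`.
If `lam re ≤ rf`: there is no `ρ₀`; take anything, with `s1 = 1`, `s2 = 0` (`NoX` is vacuous).
Otherwise `s1 < s2` (`exp_sR`), `cone_V` and `exists_sol` give `Sol`; `m = ⟨β, α, β', α', _⟩`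
(`a d - b c = β α' - α β' ≠ 0`), `S0 = S0f Gc L x0 h`. `NoX`: `nox_of_noext` (`exp s2 < h` by `exp_sR`).
`Std` at `ρ₀`: `Dir` holds (`ph2 / 2 > ph2 / 4`), and it is an open condition, so it holds for `ρ` near
`ρ₀`. `an`: `sg` is analytic at `(z, ρ₀)`, `(z + 1, ρ₀)` (`sg_exp`), `Gc` is analytic on the box,
`exp D ≠ 1`. `ss`, `sds`, `sl`, `sdl`: `sgz_of`, `st_s`, `st_ds`. `b1`, `b2`: monotonicity of `log`. `st`:
`step_of` for all `p` near `(z, ρ₀)`. The zone of the statement (`-X - 1 ≤ Re z ≤ -X`, `|Im z| ≤ κ`) is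
contained in `‖z + X‖ < X / 70000` (`κ = X / A`). `EqM`: `eqM_start`. -/
theorem start (δ : ℝ) (hδ : 0 < δ) (hδ1 : δ ≤ 1 / 10 ^ 12) :
    ∃ A : ℝ, 10 ^ 10 ≤ A ∧ ∃ η > 0, η ≤ δ ∧ ∃ lam > 0, A * lam ≤ 1 / 8 ∧ ∃ a > 0, ∃ M : ℝ,
      ∀ (Y : Sys) (h R C0 : ℝ) (v : ℂ → ℝ) (G L : ℂ × ℂ → ℂ), Base Y h R C0 v G L →
      ∀ rf re κ x0 : ℝ, M ≤ κ → Hyp Y h R v η lam a rf re κ x0 →
      ∃ (ν η' Dl s1 s2 : ℝ) (Gc n g : ℂ → ℂ) (S0 : ℂ × ℂ → ℂ × ℂ) (m : Mob),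
        (NoExt Y h → NoX s1 s2 n ∧ NoX s1 s2 (mirF n)) ∧
        ∀ ρ₀ : ℂ, rf < ‖ρ₀‖ → ‖ρ₀‖ < lam * re → 0 < ρ₀.im → ph2 / 2 ≤ arg ρ₀ →
          arg ρ₀ ≤ Real.pi - ph2 / 2 →
          Std κ ν (A * κ) δ η' Dl s1 s2 Gc n g S0 ρ₀ ∧
          ∀ z : ℂ, -(A * κ) - 1 ≤ z.re → z.re ≤ -(A * κ) → |z.im| ≤ κ →
            EqM (Fz G x0 h m) (fun p => cexp (Gc (S0 p).2)) (z, ρ₀) := by
  obtain ⟨C, hC1, hsol⟩ := exists_sol
  have hδi : (10:ℝ) ^ 12 ≤ 1 / δ := by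
    rw [le_div_iff₀ hδ]
    have := mul_le_mul_of_nonneg_left hδ1 (by positivity : (0:ℝ) ≤ 10 ^ 12)
    linarith
  obtain ⟨A, hAdef⟩ : ∃ A : ℝ, A = 10 ^ 20 / δ := ⟨_, rfl⟩
  have hδA : δ * A = 10 ^ 20 := by rw [hAdef]; field_simp
  have hA32 : (10:ℝ) ^ 32 ≤ A := by
    have : A = 10 ^ 20 * (1 / δ) := by rw [hAdef]; ring
    rw [this]
    nlinarith
  have hA0 : 0 < A := lt_of_lt_of_le (by positivity) hA32
  have hA10 : (10:ℝ) ^ 10 ≤ A := le_trans (by norm_num) hA32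
  have hC0 : 0 < C := by linarith
  obtain ⟨η, hηdef⟩ : ∃ η : ℝ, η = δ / (C * A ^ 2 * 10 ^ 14) := ⟨_, rfl⟩
  have hη0 : 0 < η := by rw [hηdef]; positivity
  have hCη : C * η * A ^ 2 * 10 ^ 14 = δ := by rw [hηdef]; field_simp
  have hA2 : (4:ℝ) ≤ A ^ 2 * 10 ^ 14 := by nlinarith
  have hCη1 : C * η ≤ 1 / 4 := by
    have h1 : 0 < C * η := by positivity
    have h2 : C * η * 4 ≤ C * η * (A ^ 2 * 10 ^ 14) := mul_le_mul_of_nonneg_left hA2 h1.le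
    have h3 : δ ≤ 1 := hδ1.trans (by norm_num)
    nlinarith
  have hη4 : η ≤ 1 / 4 := by nlinarith
  obtain ⟨lam, hlam⟩ : ∃ lam : ℝ, lam = 1 / (Real.exp (A + 1010) * (A + 1)) := ⟨_, rfl⟩
  have hlam0 : 0 < lam := by rw [hlam]; positivity
  have haa : 0 < aa := by norm_num [aa]
  have hcst : Cst A lam (aa / 8) := by
    refine ⟨hA10, hlam0, ?_, by positivity, le_rfl⟩
    rw [hlam]
    have : Real.exp (A + 1010) ≠ 0 := (Real.exp_pos _).ne'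
    have h2 : A + 1 ≠ 0 := by positivity
    apply le_of_eq
    field_simp
  have hηδ : η ≤ δ := by
    have h1 : (1:ℝ) ≤ C * (A ^ 2 * 10 ^ 14) := by nlinarith
    have h2 : η * 1 ≤ η * (C * (A ^ 2 * 10 ^ 14)) := mul_le_mul_of_nonneg_left h1 hη0.le
    calc η = η * 1 := (mul_one _).symm
      _ ≤ η * (C * (A ^ 2 * 10 ^ 14)) := h2
      _ = δ := by rw [← hCη]; ring
  have hAlam : A * lam ≤ 1 / 8 := by
    have h1 : A + 1010 + 1 ≤ Real.exp (A + 1010) := Real.add_one_le_exp _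
    have h2 : (8:ℝ) ≤ Real.exp (A + 1010) := by linarith
    have h3 : A ≤ A + 1 := by linarith
    rw [hlam, mul_one_div, div_le_div_iff₀ (by positivity) (by norm_num)]
    nlinarith
  refine ⟨A, hA10, η, hη0, hηδ, lam, hlam0, hAlam, aa / 8, by positivity,
    max (max (10 ^ 20) (1000 / δ)) A, ?_⟩
  intro Y h R C0 v G L hB rf re κ x0 hM H
  have hκ : (10:ℝ) ^ 20 ≤ κ := ((le_max_left _ _).trans (le_max_left _ _)).trans hM
  have hκA : A ≤ κ := (le_max_right _ _).trans hM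
  have hκ0 : 0 < κ := lt_of_lt_of_le (by positivity) hκ
  have hκδ : 1000 ≤ δ * κ := by
    have h1 : 1000 / δ ≤ κ := ((le_max_right _ _).trans (le_max_left _ _)).trans hM
    rw [div_le_iff₀ hδ] at h1
    linarith
  rcases le_or_gt (lam * re) rf with hcase | hcase
  · refine ⟨0, 0, 0, 1, 0, fun _ => 0, fun _ => 0, fun _ => 0, fun _ => 0,
      ⟨1, 0, 0, 1, by norm_num⟩, fun _ => ⟨?_, ?_⟩, ?_⟩
    · intro x r hr h1 h2
      exfalso; linarith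
    · intro x r hr h1 h2
      exfalso; linarith
    · intro ρ₀ h1 h2
      exfalso; linarith
  have hX : ((A * κ : ℝ) : ℂ) = (A:ℂ) * (κ:ℂ) := by push_cast; rfl
  have hκ1 : 1 ≤ κ := le_trans (by norm_num) hκ
  have hκ2 : 2 ≤ κ := le_trans (by norm_num) hκ
  have hsR := exp_sR hcst hB.h_pos hκ1 H
  have hs12 := hsR.2 hcase
  obtain ⟨α, β, α', β', Gc, n, g, hS⟩ := hsol Y (St (-h) h) ((x0:ℂ) + (h:ℂ) * I) κ η
    (sL A κ rf) (sR A κ lam re) hB.on hκ1 hη0 (hCη1.trans (by norm_num)) hs12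
    (fun σ hσ => (cone_V hcst hB.h_pos hκ1 H hσ).1)
    (fun σ hσ => (cone_V hcst hB.h_pos hκ1 H hσ).2)
  obtain ⟨ν, hν⟩ : ∃ ν : ℝ, ν = 2 * Real.sqrt (κ ^ 2 + 1 / 4) := ⟨_, rfl⟩
  rw [← hν] at hS
  have hν1 : 2 * κ ≤ ν := by
    have h1 : κ ≤ Real.sqrt (κ ^ 2 + 1 / 4) := Real.le_sqrt_of_sq_le (by linarith)
    linarith
  have hν2 : ν ≤ 2 * κ + 1 := by
    have h1 : Real.sqrt (κ ^ 2 + 1 / 4) ≤ κ + 1 / 2 := by
      rw [Real.sqrt_le_left (by positivity)]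
      nlinarith
    linarith
  have hN : Num κ A ν (C * η) δ :=
    ⟨hκ, hκδ, hA10, hδA.ge, hδ, hδ1, by positivity, hCη.le, hν1, hν2⟩
  refine ⟨ν, C * η, A + 1000, sL A κ rf, sR A κ lam re, Gc, n, g, S0f Gc L x0 h,
    ⟨β, α, β', α', hS.hc⟩, fun hne => nox_of_noext hB.on hsR.1 hS hne, ?_⟩
  intro ρ₀ hr1 hr2 him ha1 ha2
  have hph : ph2 = 1 / 1600 := rfl
  have hdir : Dir lam rf re ρ₀ := by
    refine ⟨hr1, hr2, him, ?_, ?_⟩
    · rw [hph] at ha1 ⊢; linarith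
    · rw [hph] at ha2 ⊢; linarith
  have hXX : (10:ℝ) ^ 30 ≤ A * κ := by
    calc (10:ℝ) ^ 30 = 10 ^ 10 * 10 ^ 20 := by norm_num
      _ ≤ A * κ := mul_le_mul hA10 hκ (by positivity) (by linarith)
  have hAκ : 10 ^ 10 * κ ≤ A * κ := mul_le_mul_of_nonneg_right hA10 hκ0.le
  -- the start zone
  have hzone : ∀ z : ℂ, -(A * κ) - 1 ≤ z.re → z.re ≤ -(A * κ) → |z.im| ≤ κ →
      ‖z + (A * κ : ℝ)‖ < A * κ / 70000 := by
    intro z h1 h2 h3
    have h4 : ‖z + (A * κ : ℝ)‖ ≤ |(z + (A * κ : ℝ)).re| + |(z + (A * κ : ℝ)).im| :=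
      Complex.norm_le_abs_re_add_abs_im _
    rw [Complex.add_re, Complex.add_im, Complex.ofReal_re, Complex.ofReal_im, add_zero] at h4
    have h5 : |z.re + A * κ| ≤ 1 := by
      rw [abs_le]; constructor <;> linarith
    linarith
  have hσ := sgz_of hB hcst hκ2 hη4 hη0.le H hdir
  have hev : ∀ z : ℂ, ‖z + (A * κ : ℝ)‖ < A * κ / 70000 →
      ∀ᶠ p : ℂ × ℂ in 𝓝 (z, ρ₀),
        Dir lam rf re p.2 ∧ ‖p.1 + ((A * κ : ℝ) : ℂ)‖ < A * κ / 70000 := by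
    intro z hz
    have c2 : ContinuousAt (fun p : ℂ × ℂ => p.2) (z, ρ₀) := continuousAt_snd
    have c1 : ContinuousAt (fun p : ℂ × ℂ => p.1) (z, ρ₀) := continuousAt_fst
    have cn : ContinuousAt (fun p : ℂ × ℂ => ‖p.2‖) (z, ρ₀) := c2.norm
    have ci : ContinuousAt (fun p : ℂ × ℂ => p.2.im) (z, ρ₀) :=
      Complex.continuous_im.continuousAt.comp c2
    have ca : ContinuousAt (fun p : ℂ × ℂ => arg p.2) (z, ρ₀) := by
      have h1 : ContinuousAt arg ρ₀ :=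
        Complex.continuousAt_arg (Complex.mem_slitPlane_iff.2 (Or.inr him.ne'))
      exact ContinuousAt.comp (f := fun p : ℂ × ℂ => p.2) (x := (z, ρ₀)) h1 c2
    have cz : ContinuousAt (fun p : ℂ × ℂ => ‖p.1 + ((A * κ : ℝ) : ℂ)‖) (z, ρ₀) :=
      (c1.add continuousAt_const).norm
    filter_upwards [cn.eventually (lt_mem_nhds hdir.r1), cn.eventually (gt_mem_nhds hdir.r2),
      ci.eventually (lt_mem_nhds hdir.im), ca.eventually (lt_mem_nhds hdir.a1),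
      ca.eventually (gt_mem_nhds hdir.a2), cz.eventually (gt_mem_nhds hz)] with p h1 h2 h3 h4 h5 h6
    exact ⟨⟨h1, h2, h3, h4, h5⟩, h6⟩
  have hBxo : IsOpen (Bx (sL A κ rf) (sR A κ lam re)) := by
    have : Bx (sL A κ rf) (sR A κ lam re) =
        {σ : ℂ | sL A κ rf < σ.re} ∩ {σ : ℂ | σ.re < sR A κ lam re} ∩
          {σ : ℂ | -Real.pi + aa < σ.im} ∩ {σ : ℂ | σ.im < -aa} := by
      ext σ
      simp only [Bx, Set.mem_ofPred_eq, Set.mem_inter_iff]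
      tauto
    rw [this]
    exact (((isOpen_lt continuous_const Complex.continuous_re).inter
      (isOpen_lt Complex.continuous_re continuous_const)).inter
      (isOpen_lt continuous_const Complex.continuous_im)).inter
      (isOpen_lt Complex.continuous_im continuous_const)
  have hGan : ∀ σ ∈ Bx (sL A κ rf) (sR A κ lam re), AnalyticAt ℂ Gc σ := by
    intro σ hσ'
    have h1 : DifferentiableOn ℂ Gc (Bx (sL A κ rf) (sR A κ lam re)) :=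
      fun w hw => (hS.gd.dG w hw).differentiableAt.differentiableWithinAt
    exact h1.analyticAt (hBxo.mem_nhds hσ')
  refine ⟨{ par := ?_, gd := hS.gd, hρ := him, th1 := ha1, th2 := ha2, b1 := ?_, b2 := ?_,
            an := ?_, ss := ?_, sds := ?_, sl := ?_, sdl := ?_, st := ?_ }, ?_⟩
  · -- par
    have hXk : A * κ / κ = A := by field_simp
    refine ⟨hκ, hν1, hν2, hAκ, by nlinarith, hδ, hδ1, by linarith, by positivity, ?_, ?_⟩
    · rw [hXk]; exact hCη.le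
    · rw [hXk]
  · -- b1
    have h1 : Real.log (A * κ * rf) ≤ Real.log (A * κ * ‖ρ₀‖) := by
      apply Real.log_le_log
      · have := H.rf0; positivity
      · exact mul_le_mul_of_nonneg_left hr1.le (by positivity)
    simp only [sL]
    linarith
  · -- b2
    have h0 : 0 < ‖ρ₀‖ := lt_trans H.rf0 hr1
    have h1 : Real.log (A * κ * ‖ρ₀‖) ≤ Real.log (A * κ * (lam * re)) := by
      apply Real.log_le_log (by positivity)
      exact mul_le_mul_of_nonneg_left hr2.le (by positivity)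
    simp only [sR]
    linarith
  · -- an
    intro z h1 h2 h3
    have hz := hzone z h1 h2 h3
    have hz25 : ‖z + (A * κ : ℝ)‖ < A * κ / 25600 := by linarith
    have hzp : ‖z + 1 + (A * κ : ℝ)‖ < A * κ / 25600 := by
      have h1 : z + 1 + (A * κ : ℝ) = (z + (A * κ : ℝ)) + 1 := by ring
      rw [h1]
      refine (norm_add_le _ _).trans_lt ?_
      rw [norm_one]
      linarith
    have a0 : AnalyticAt ℂ (sg L x0 h) (z, ρ₀) := by
      rw [hX] at hz25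
      exact (sg_exp hB hcst hκ2 hη4 hη0.le H hdir hz25).2.2.1
    have a1 : AnalyticAt ℂ (sg L x0 h) (z + 1, ρ₀) := by
      rw [hX] at hzp
      exact (sg_exp hB hcst hκ2 hη4 hη0.le H hdir hzp).2.2.1
    have a2 : AnalyticAt ℂ (fun p : ℂ × ℂ => sg L x0 h (p.1 + 1, p.2)) (z, ρ₀) := by
      have h4 : AnalyticAt ℂ (fun p : ℂ × ℂ => (p.1 + 1, p.2)) (z, ρ₀) :=
        (analyticAt_fst.add analyticAt_const).prod analyticAt_snd
      exact AnalyticAt.comp_of_eq (g := sg L x0 h) (f := fun p : ℂ × ℂ => (p.1 + 1, p.2))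
        a1 h4 rfl
    have m0 : sg L x0 h (z, ρ₀) ∈ Bx (sL A κ rf) (sR A κ lam re) := hσ.mem z hz25
    have m1 : sg L x0 h (z + 1, ρ₀) ∈ Bx (sL A κ rf) (sR A κ lam re) := hσ.mem (z + 1) hzp
    have a3 : AnalyticAt ℂ (fun p : ℂ × ℂ => Gc (sg L x0 h p)) (z, ρ₀) :=
      AnalyticAt.comp_of_eq (g := Gc) (f := sg L x0 h) (hGan _ m0) a0 rfl
    have a4 : AnalyticAt ℂ (fun p : ℂ × ℂ => Gc (sg L x0 h (p.1 + 1, p.2))) (z, ρ₀) :=
      AnalyticAt.comp_of_eq (g := Gc) (f := fun p : ℂ × ℂ => sg L x0 h (p.1 + 1, p.2))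
        (hGan _ m1) a2 rfl
    have hD0 := st_D hN rfl hS.gd hσ (by linarith : ‖z + (A * κ : ℝ)‖ ≤ A * κ / 60000)
    have hA12 : 10 / A ≤ 1 / 2 := by
      rw [div_le_div_iff₀ (by linarith) (by norm_num)]
      linarith
    have hb0 := (bern hD0.2.2 (hD0.2.1.trans hA12)).1
    refine AnalyticAt.prod ?_ a0
    have a5 : AnalyticAt ℂ (fun p : ℂ × ℂ =>
        cexp (Gc (sg L x0 h (p.1 + 1, p.2)) - Gc (sg L x0 h p)) - 1) (z, ρ₀) :=
      ((a4.sub a3).cexp).sub analyticAt_const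
    exact a5.inv (sub_ne_zero.2 hb0)
  · -- ss
    intro z h1 h2 h3
    have hz := hzone z h1 h2 h3
    have h4 := st_s hN rfl hS.gd hσ (by linarith : ‖z + (A * κ : ℝ)‖ ≤ A * κ / 60000)
    refine le_trans h4 ?_
    linarith
  · intro z h1 h2 h3
    exact (st_ds hN rfl hS.gd hσ h1 h2 h3).1
  · intro z h1 h2 h3
    exact (st_ds hN rfl hS.gd hσ h1 h2 h3).2.1
  · intro z h1 h2 h3
    exact (st_ds hN rfl hS.gd hσ h1 h2 h3).2.2
  · -- st
    intro z h1 h3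
    have hz := hzone z (by linarith) (by linarith) h3
    filter_upwards [hev z hz] with p hp
    obtain ⟨hp1, hp2⟩ := hp
    rw [hX] at hp2
    exact step_of hB hcst hη4 hη0.le H hN hS hp1 hp2
  · -- EqM
    intro z h1 h2 h3
    have hz := hzone z h1 h2 h3
    have hz2 : ‖z + A * κ‖ < A * κ / 51200 := by
      rw [← hX]; linarith
    exact eqM_start hB hcst hκ2 hη4 hη0.le H hdir hz2 hS rfl rfl rfl rfl

end Pool.Agent.MP_ae5b4e_an_N4
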