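import Pool.Agent.Lib.MP_ae5b4e_an_N4.AsG
import Pool.Agent.Lib.MP_ae5b4e_an_N4.AsF
import Pool.Agent.Lib.MP_ae5b4e_an_N4.Start

/-!
# N4, module AsH: `n4core` from the parts
-/

set_option autoImplicit false

noncomputable section

namespace Pool.Agent.MP_ae5b4e_an_N4

open Complex Set Filter Topology Metric
open Pool.Agent.MP_ae5b4e_an_NBT (St MerAt Mer EqM Den)
open Pool.Agent.MP_ae5b4e_an_NB2 (Sys)
open Pool.Agent.MP_ae5b4e_an_PB (DFU DKU RegF Base)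
open Pool.Agent.Lib.MP_ae5b4e_an_LL (SubH)
open scoped ComplexConjugate

/-- the statement of part B -/
def FinP (C δ₀ K₀ : ℝ) : Prop :=
    ∀ (k ra rb δ η r1 : ℝ) (v : ℂ → ℝ) (F E E' : ℂ × ℂ → ℂ) (z₁ : ℂ → ℂ),
    K₀ ≤ k → 0 < ra → ra < rb → 0 < δ → δ ≤ δ₀ → 0 ≤ η → η ≤ δ₀ → r1 ≤ δ₀ →
    SubH v {ρ | ra < ‖ρ‖ ∧ ‖ρ‖ < rb} →
    (∀ ρ : ℂ, ra < ‖ρ‖ → ‖ρ‖ < rb → v (-ρ) = v ρ) →
    (∀ c : ℝ, ra < c → c < rb → 0 ≤ v c) →
    (∀ ρ : ℂ, ra < ‖ρ‖ → ‖ρ‖ < rb → v ρ ≤ k * ((1 + η) * |ρ.im| + η * ‖ρ‖)) →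
    (∀ z ρ : ℂ, ra < ‖ρ‖ → ‖ρ‖ < rb → ‖z‖ ≤ 4 * k → (ρ * z).im < -v ρ →
      EqM F (fun p => F (-p.1, -p.2)) (z, ρ)) →
    (∀ c q : ℝ, ra < c → c < rb → Irrational c → |q| ≤ 2 →
      ¬ (RegZ v F c q ∧ RegZ v F c (q - 1))) →
    (∀ c : ℝ, ra < c → c < rb → ¬ ∀ q : ℝ, |q| ≤ 1 → RegZ v F c q) →
    Cor k ra rb δ r1 v F E z₁ →
    Cor k ra rb δ r1 (fun ρ => v (-conj ρ)) (mirE F) E' (fun ρ => conj (z₁ (-conj ρ))) →
    (∀ c : ℝ, ra < c → c < rb →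
      v c ≤ C * c * (1 + k * ((c / rb) ^ (1 / 4 : ℝ) + (ra / c) ^ (1 / 4 : ℝ)))) ∧
    (∀ ρ : ℂ, ra < ‖ρ‖ → ‖ρ‖ < rb → ph1 ≤ arg ρ → arg ρ ≤ Real.pi - ph1 →
      |(z₁ ρ).im| ≤ C * (1 + k * ((‖ρ‖ / rb) ^ (1 / 4 : ℝ) + (ra / ‖ρ‖) ^ (1 / 4 : ℝ)))) ∧
    Real.log (rb / ra) ≤ C * Real.log k

/-- the range of the directions -/
structure Rng (R h κ lam A re : ℝ) : Prop where
  κ1 : 1 ≤ κ
  lam0 : 0 < lam
  A0 : 10 ^ 10 ≤ A
  Al : A * lam ≤ 1 / 8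
  reR : 8 * re ≤ R
  sm : κ * re ≤ lam ^ 2 * h
  re0 : 0 < re

variable {Y : Sys} {h R C0 x0 : ℝ} {v : ℂ → ℝ} {G L : ℂ × ℂ → ℂ} {κ lam A re rf η a : ℝ}

theorem Rng.lam1 (H : Rng R h κ lam A re) : lam ≤ 1 / 10 ^ 10 := by
  have h1 := H.Al
  have h2 := H.A0
  have h3 := H.lam0
  rw [le_div_iff₀ (by norm_num)]
  nlinarith

theorem Rng.h0 (H : Rng R h κ lam A re) : 0 < h := by
  have h1 : 0 < κ * re := mul_pos (by linarith [H.κ1]) H.re0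
  have h2 := H.sm
  have h3 : 0 < lam ^ 2 := by have := H.lam0; positivity
  by_contra h4
  nlinarith

theorem Rng.dp (H : Rng R h κ lam A re) {z ρ : ℂ} (h0 : 0 < ‖ρ‖) (h1 : ‖ρ‖ < lam * re)
    (h2 : ‖z‖ ≤ 2 * (A * κ)) (h3 : (ρ * z).im < -v ρ) : Dp v h R z ρ := by
  have hlam := H.lam1
  have hl0 := H.lam0
  have hre := H.re0
  refine ⟨h0, ?_, h3, ?_⟩
  · have := H.reR
    nlinarith
  · rw [norm_mul]
    have h4 : ‖ρ‖ * ‖z‖ ≤ (lam * re) * (2 * (A * κ)) := by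
      have := norm_nonneg z
      gcongr
    have h5 : (lam * re) * (2 * (A * κ)) = 2 * (A * lam) * (κ * re) := by ring
    have h6 : 0 < κ * re := mul_pos (by linarith [H.κ1]) hre
    have h7 := H.Al
    have h8 := H.sm
    have h9 := H.h0
    have h10 : lam ^ 2 ≤ 1 := by nlinarith
    have h11 : 2 * (A * lam) * (κ * re) ≤ 1 / 4 * (κ * re) := by nlinarith
    have h12 : lam ^ 2 * h ≤ h := by nlinarith
    rw [h5] at h4
    linarith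

theorem rng_of (H : Hyp Y h R v η lam a rf re κ x0) (hκ : 1 ≤ κ)
    (hl : 0 < lam) (hA : 10 ^ 10 ≤ A) (hAl : A * lam ≤ 1 / 8) : Rng R h κ lam A re :=
  ⟨hκ, hl, hA, hAl, H.reR, H.sm, lt_of_lt_of_le H.rf0 H.rle⟩

/-- the con hypothesis on real points -/
theorem con_real (H : Hyp Y h R v η lam a rf re κ x0) {r : ℝ} (h1 : rf ≤ r)
    (h2 : r ≤ re) : v r ≤ κ * (η * r) := by
  have h3 := H.rf0
  have h4 : ‖(r:ℂ)‖ = r := by
    rw [Complex.norm_real, Real.norm_eq_abs, abs_of_pos (by linarith)]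
  have h5 := H.con r (by rw [h4]; linarith) (by rw [h4]; linarith)
  rw [h4] at h5
  simpa using h5

/-- the purely imaginary direction is in the sector -/
theorem sec_of_near {ra rb r : ℝ} {ρ : ℂ} (hr : 0 < r) (h1 : ra < ‖ρ‖) (h2 : ‖ρ‖ < rb)
    (h : ‖ρ - r * I‖ ≤ r / 10) : Sec ra rb ρ ∧ 9 / 10 * r ≤ ρ.im ∧ |ρ.re| ≤ r / 10 := by
  have h3 : |(ρ - r * I).re| ≤ r / 10 := (Complex.abs_re_le_norm _).trans h
  have h4 : |(ρ - r * I).im| ≤ r / 10 := (Complex.abs_im_le_norm _).trans h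
  have h5 : (ρ - r * I).re = ρ.re := by simp
  have h6 : (ρ - r * I).im = ρ.im - r := by simp
  rw [h5] at h3
  rw [h6] at h4
  have h7 := (abs_le.1 h4).1
  have h8 : 9 / 10 * r ≤ ρ.im := by linarith
  have h9 : 0 < ρ.im := by linarith
  have hn : ρ.im ≤ ‖ρ‖ := (le_abs_self _).trans (Complex.abs_im_le_norm _)
  refine ⟨⟨h1, h2, ?_, ?_⟩, h8, h3⟩
  · -- arg > ph2 / 2
    by_contra hc
    have hc' := not_lt.1 hc
    have h10 : 0 ≤ arg ρ := Complex.arg_nonneg_iff.2 h9.le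
    have h11 : ρ.im = ‖ρ‖ * Real.sin (arg ρ) := by
      rw [Complex.norm_mul_sin_arg]
    have h12 : Real.sin (arg ρ) ≤ arg ρ := Real.sin_le h10
    have h13 : ‖ρ‖ ≤ 11 / 10 * r := by
      have h14 : ‖ρ‖ ≤ ‖ρ - r * I‖ + ‖(r:ℂ) * I‖ := by
        have := norm_add_le (ρ - r * I) (r * I)
        simpa using this
      have h15 : ‖(r:ℂ) * I‖ = r := by
        rw [norm_mul, Complex.norm_I, mul_one, Complex.norm_real, Real.norm_eq_abs, abs_of_pos hr]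
      linarith
    have h16 : ph2 / 2 ≤ 1 / 10 := by unfold ph2; norm_num
    have h17 : ‖ρ‖ * Real.sin (arg ρ) ≤ ‖ρ‖ * (1 / 10) :=
      mul_le_mul_of_nonneg_left (by linarith) (norm_nonneg _)
    nlinarith
  · by_contra hc
    have hc' := not_lt.1 hc
    have h10 : arg ρ ≤ Real.pi := Complex.arg_le_pi ρ
    have h11 : ρ.im = ‖ρ‖ * Real.sin (arg ρ) := by
      rw [Complex.norm_mul_sin_arg]
    have h12 : Real.sin (arg ρ) ≤ Real.pi - arg ρ := by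
      rw [← Real.sin_pi_sub]
      exact Real.sin_le (by linarith)
    have h13 : ‖ρ‖ ≤ 11 / 10 * r := by
      have h14 : ‖ρ‖ ≤ ‖ρ - r * I‖ + ‖(r:ℂ) * I‖ := by
        have := norm_add_le (ρ - r * I) (r * I)
        simpa using this
      have h15 : ‖(r:ℂ) * I‖ = r := by
        rw [norm_mul, Complex.norm_I, mul_one, Complex.norm_real, Real.norm_eq_abs, abs_of_pos hr]
      linarith
    have h16 : ph2 / 2 ≤ 1 / 10 := by unfold ph2; norm_num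
    have h17 : ‖ρ‖ * Real.sin (arg ρ) ≤ ‖ρ‖ * (1 / 10) :=
      mul_le_mul_of_nonneg_left (by linarith) (norm_nonneg _)
    nlinarith

/-- everything in the range `rf < ‖ρ‖ < lam re` -/
structure Out (h R : ℝ) (v : ℂ → ℝ) (G : ℂ × ℂ → ℂ) (CB δ₀ rf rb κ x0 A : ℝ) (z₁ : ℂ → ℂ) :
    Prop where
  o1 : ∀ c : ℝ, rf < c → c < rb →
      v c ≤ CB * c * (1 + κ * ((c / rb) ^ (1 / 4 : ℝ) + (rf / c) ^ (1 / 4 : ℝ)))
  o2 : ∀ ρ : ℂ, rf < ‖ρ‖ → ‖ρ‖ < rb → ph1 ≤ arg ρ → arg ρ ≤ Real.pi - ph1 →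
      |(z₁ ρ).im| ≤ CB * (1 + κ * ((‖ρ‖ / rb) ^ (1 / 4 : ℝ) + (rf / ‖ρ‖) ^ (1 / 4 : ℝ)))
  o3 : Real.log (rb / rf) ≤ CB * Real.log κ
  an : ∀ ρ, Sec rf rb ρ → AnalyticAt ℂ z₁ ρ
  near : ∀ ρ, Sec rf rb ρ → ‖z₁ ρ + κ‖ ≤ δ₀ * κ
  sg : ∀ r : ℝ, 0 < r → ∀ ρ : ℂ, ‖ρ - r * I‖ ≤ r / 10 → rf < ‖ρ‖ → ‖ρ‖ < rb →
    ∀ κ1 e : ℝ, ‖z₁ ρ + κ1‖ ≤ e * κ / 2 → 8 ≤ e * κ → e ≤ 1 → Sg G x0 h A κ κ1 e ρ

theorem sec_im {ra rb : ℝ} {ρ : ℂ} (h : Sec ra rb ρ) : 0 < ρ.im := by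
  obtain ⟨-, -, h3, h4⟩ := h
  have hp : (0:ℝ) < ph2 := by unfold ph2; norm_num
  by_contra h8
  rcases eq_or_lt_of_le (not_lt.1 h8) with h9 | h9
  · rcases le_or_gt 0 ρ.re with h10 | h10
    · rw [Complex.arg_of_re_nonneg h10, h9] at h3
      simp at h3
      linarith
    · have h11 : arg ρ = Real.pi := Complex.arg_eq_pi_iff.2 ⟨h10, h9⟩
      linarith
  · have h10 := Complex.arg_neg_iff.2 h9
    linarith

theorem out_of (hH : NoRegP) {CB δ₀ K₀ δ : ℝ} (hfin : FinP CB δ₀ K₀)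
    (hδ₀ : 0 < δ₀) (h8 : 8 * δ ≤ δ₀) (hδ : 0 < δ) (hδ1 : δ ≤ 1 / 10 ^ 12)
    (hB : Base Y h R C0 v G L)
    (H : Hyp Y h R v η lam a rf re κ x0) (hη0 : 0 < η) (hηδ : η ≤ δ)
    (hR : Rng R h κ lam A re) (hκ0 : K₀ ≤ κ) (hrr : rr κ (A * κ) ≤ δ₀) (hlt : rf < lam * re)
    {ν η' Dl s1 s2 : ℝ} {Gc n g : ℂ → ℂ} {S0 : ℂ × ℂ → ℂ × ℂ} {m : Mob}
    (hx : NoX s1 s2 n ∧ NoX s1 s2 (mirF n))
    (hS : ∀ ρ₀ : ℂ, rf < ‖ρ₀‖ → ‖ρ₀‖ < lam * re → 0 < ρ₀.im → ph2 / 2 ≤ arg ρ₀ →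
          arg ρ₀ ≤ Real.pi - ph2 / 2 →
          Std κ ν (A * κ) δ η' Dl s1 s2 Gc n g S0 ρ₀ ∧
          ∀ z : ℂ, -(A * κ) - 1 ≤ z.re → z.re ≤ -(A * κ) → |z.im| ≤ κ →
            EqM (Fz G x0 h m) (fun p => cexp (Gc (S0 p).2)) (z, ρ₀)) :
    ∃ z₁ : ℂ → ℂ, Out h R v G CB δ₀ rf (lam * re) κ x0 A z₁ := by
  classical
  have hrf := H.rf0
  have hre := hR.re0
  have hκ1 := hR.κ1
  have hl1 := hR.lam1
  have hl0 := hR.lam0
  have hh0 := hR.h0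
  have hκre : 0 < κ * re := mul_pos (by linarith) hre
  have hSec : ∀ ρ, Sec rf (lam * re) ρ → Std κ ν (A * κ) δ η' Dl s1 s2 Gc n g S0 ρ ∧
      ∀ z : ℂ, -(A * κ) - 1 ≤ z.re → z.re ≤ -(A * κ) → |z.im| ≤ κ →
            EqM (Fz G x0 h m) (fun p => cexp (Gc (S0 p).2)) (z, ρ) := fun ρ hρ =>
    hS ρ hρ.1 hρ.2.1 (sec_im hρ) hρ.2.2.1.le hρ.2.2.2.le
  have hzex : ∀ ρ, Sec rf (lam * re) ρ →
      ∃ z₁ : ℂ, IsZ1 κ ν (A * κ) δ (orb (stp ellp (Bx s1 s2) Gc g) S0 (A * κ)) ρ z₁ :=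
    fun ρ hρ => left_zone (chn_p (hSec ρ hρ).1)
  set z₁ : ℂ → ℂ := fun ρ => if hρ : Sec rf (lam * re) ρ then (hzex ρ hρ).choose else 0 with hz₁
  have hz : ∀ ρ, Sec rf (lam * re) ρ →
      IsZ1 κ ν (A * κ) δ (orb (stp ellp (Bx s1 s2) Gc g) S0 (A * κ)) ρ (z₁ ρ) := by
    intro ρ hρ
    have h1 : z₁ ρ = (hzex ρ hρ).choose := by rw [hz₁]; simp [hρ]
    rw [h1]
    exact (hzex ρ hρ).choose_spec
  -- a direction in the sector
  obtain ⟨r0, hr0, hr0'⟩ := exists_between hlt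
  have hr0p : 0 < r0 := hrf.trans hr0
  have hn0 : ‖((r0:ℂ) * I)‖ = r0 := by
    rw [norm_mul, Complex.norm_I, mul_one, Complex.norm_real, Real.norm_eq_abs, abs_of_pos hr0p]
  have hsec0 : Sec rf (lam * re) ((r0:ℂ) * I) :=
    (sec_of_near (ra := rf) (rb := lam * re) hr0p (by rw [hn0]; exact hr0) (by rw [hn0]; exact hr0')
      (by simp; linarith)).1
  have hpar := (hSec _ hsec0).1.par
  have hF : ∀ z ρ : ℂ, rf < ‖ρ‖ → ‖ρ‖ < lam * re → ‖z‖ ≤ 2 * (A * κ) → (ρ * z).im < -v ρ →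
      MerAt (Fz G x0 h m) (z, ρ) := fun z ρ h1 h2 h3 h4 =>
    fz_mer hB m (hR.dp (hrf.trans h1) h2 h3 h4)
  have hv : ∀ ρ : ℂ, rf < ‖ρ‖ → ‖ρ‖ < lam * re → v ρ ≤ κ * ((1 + η) * |ρ.im| + η * ‖ρ‖) := by
    intro ρ h1 h2
    exact H.con ρ (by linarith) (by nlinarith)
  have hη1 : η ≤ 1 / 100 := by
    have : (1:ℝ) / 10 ^ 12 ≤ 1 / 100 := by norm_num
    linarith
  have hcor := cor_fct (η' := η) hH h8 hη1 hrf hpar (fun ρ hρ => (hSec ρ hρ).1) hz hx.1 hF hv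
    (fun ρ hρ => (hSec ρ hρ).2)
  have hcor' := cor_mir (η' := η) hH h8 hη1 hrf hpar (fun ρ hρ => (hSec ρ hρ).1) hz hx.2 hF hv
    (fun ρ hρ => (hSec ρ hρ).2)
  have hball : ∀ ρ : ℂ, ‖ρ‖ < lam * re → ρ ∈ ball (0:ℂ) R := by
    intro ρ h1
    rw [mem_ball_zero_iff]
    have := hR.reR
    nlinarith
  have hvc : ∀ c : ℝ, rf < c → c < lam * re → v c ≤ κ * (η * c) := fun c h1 h2 =>
    con_real H h1.le (by nlinarith)
  have hsmall : ∀ c q : ℝ, rf < c → c < lam * re → |q| ≤ 3 → c * |q| + v c < h := by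
    intro c q h1 h2 h3
    have h4 := hvc c h1 h2
    have h5 : 0 < c := hrf.trans h1
    have h6 : c * |q| ≤ c * 3 := mul_le_mul_of_nonneg_left h3 h5.le
    have h7 : κ * (η * c) ≤ κ * c := by
      have : η * c ≤ c := by nlinarith
      exact mul_le_mul_of_nonneg_left this (by linarith)
    have h8 : c ≤ κ * c := by nlinarith
    have h9 : κ * c ≤ lam * (κ * re) := by nlinarith
    have h10 := hR.sm
    have h11 : lam * (κ * re) ≤ lam * (lam ^ 2 * h) := mul_le_mul_of_nonneg_left h10 hl0.le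
    have h12 : lam ^ 3 ≤ 1 / 10 := by
      have h13 : lam ^ 3 = lam * lam * lam := by ring
      have h14 : lam ≤ 1 / 10 := hl1.trans (by norm_num)
      rw [h13]
      have h15 : lam * lam ≤ 1 := by nlinarith
      nlinarith
    have h16 : lam * (lam ^ 2 * h) ≤ 1 / 10 * h := by
      have h17 : lam * (lam ^ 2 * h) = lam ^ 3 * h := by ring
      rw [h17]
      exact mul_le_mul_of_nonneg_right h12 hh0.le
    linarith
  have hRc : ∀ c : ℝ, c < lam * re → c < R := by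
    intro c h2
    have := hR.reR
    nlinarith
  obtain ⟨f1, f2, f3⟩ := hfin κ rf (lam * re) δ₀ η (rr κ (A * κ)) v (Fz G x0 h m) _ _ z₁ hκ0 hrf
    hlt hδ₀ le_rfl hη0.le (by linarith) hrr
    (hB.nv.sub.mono (fun ρ hρ => hball ρ hρ.2))
    (fun ρ h1 h2 => hB.nv.even ρ (hball ρ h2))
    (fun c h1 h2 => by
      have h3 := hB.nv.low c (hball c (by
        rwa [Complex.norm_real, Real.norm_eq_abs, abs_of_pos (hrf.trans h1)]))
      simpa using h3)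
    hv
    (fun z ρ h1 h2 h3 h4 => by
      refine fz_even hB m (hR.dp (hrf.trans h1) h2 ?_ h4)
      have := hR.A0
      have h5 : (1:ℝ) ≤ 10 ^ 10 := by norm_num
      nlinarith)
    (fun c q h1 h2 h3 h4 h5 => by
      have hc := hrf.trans h1
      refine hB.gp c hc (hRc c h2) h3 (x0 + c * q) ⟨reg_of hB m hc (hRc c h2)
        (hsmall c q h1 h2 (by linarith)) h5.1, ?_⟩
      have h6 := reg_of hB m hc (hRc c h2) (hsmall c (q - 1) h1 h2 (by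
        have := abs_sub q 1
        have h7 : |(1:ℝ)| = 1 := abs_one
        rw [h7] at this
        linarith)) h5.2
      have h7 : x0 + c * (q - 1) = x0 + c * q - c := by ring
      rwa [h7] at h6)
    (fun c h1 h2 h3 => by
      have hc := hrf.trans h1
      refine hB.gpw c hc (hRc c h2) x0 (fun x hx => ?_)
      have h4 : |(x - x0) / c| ≤ 1 := by
        rw [abs_div, abs_of_pos hc, div_le_one hc]
        exact hx
      have h5 := reg_of hB m hc (hRc c h2) (hsmall c ((x - x0) / c) h1 h2 (by linarith))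
        (h3 _ h4)
      have h6 : x0 + c * ((x - x0) / c) = x := by field_simp; ring
      rwa [h6] at h5)
    hcor hcor'
  refine ⟨z₁, f1, f2, f3, fun ρ hρ => hcor.an ρ hρ.1 hρ.2.1 hρ.2.2.1 hρ.2.2.2,
    fun ρ hρ => hcor.near ρ hρ.1 hρ.2.1 hρ.2.2.1 hρ.2.2.2, ?_⟩
  intro r hr ρ hρ h1 h2 κ1 e he he4 he1
  obtain ⟨hs, him, hre'⟩ := sec_of_near hr h1 h2 hρ
  have hfc := fct_of hH (hSec ρ hs).1 hx.1 (hz ρ hs)
  refine sg_of (n := n) (g := g) hB m (hSec ρ hs).1 (hz ρ hs) hfc.stp hfc.heq hfc.han hfc.sing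
    (hSec ρ hs).2 ?_ he he4 he1
  intro z z1 z2 z3
  have hn1 : ‖ρ‖ ≤ 11 / 10 * r := by
    have h14 : ‖ρ‖ ≤ ‖ρ - r * I‖ + ‖(r:ℂ) * I‖ := by
      have := norm_add_le (ρ - r * I) (r * I)
      simpa using this
    have h15 : ‖(r:ℂ) * I‖ = r := by
      rw [norm_mul, Complex.norm_I, mul_one, Complex.norm_real, Real.norm_eq_abs, abs_of_pos hr]
    linarith
  have hA := hR.A0
  have he6 : e6 * κ ≤ κ := by unfold e6; nlinarith
  have hAκ : 10 ^ 10 * κ ≤ A * κ := by nlinarith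
  refine hR.dp (hrf.trans h1) h2 ?_ ?_
  · have h3 := Complex.norm_le_abs_re_add_abs_im z
    have h4 : |z.re| ≤ A * κ + 1 := by
      rw [abs_le]
      constructor
      · linarith
      · have : 0 ≤ A * κ := by nlinarith
        linarith
    have h5 : |z.im| ≤ κ := z3.trans he6
    have h6 : (10:ℝ) ^ 10 * κ ≥ 2 * κ := by nlinarith
    linarith
  · have h3 := hv ρ h1 h2
    have h4 : (ρ * z).im = ρ.re * z.im + ρ.im * z.re := by simp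
    rw [h4]
    have h5 : ρ.im ≤ ‖ρ‖ := (le_abs_self _).trans (Complex.abs_im_le_norm _)
    have h6 : |ρ.im| = ρ.im := abs_of_pos (by linarith)
    rw [h6] at h3
    have h7 : ρ.re * z.im ≤ r / 10 * κ := by
      calc ρ.re * z.im ≤ |ρ.re * z.im| := le_abs_self _
        _ = |ρ.re| * |z.im| := abs_mul _ _
        _ ≤ r / 10 * κ := mul_le_mul hre' (z3.trans he6) (abs_nonneg _) (by linarith)
    have h8' : ρ.im * z.re ≤ (9 / 10 * r) * (-(A * κ / 2)) := by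
      have h9 : z.re ≤ 0 := by
        have : 0 ≤ A * κ := by nlinarith
        linarith
      calc ρ.im * z.re ≤ (9 / 10 * r) * z.re := by nlinarith
        _ ≤ (9 / 10 * r) * (-(A * κ / 2)) := mul_le_mul_of_nonneg_left z2 (by linarith)
    have h9 : κ * ((1 + η) * ρ.im + η * ‖ρ‖) ≤ κ * (3 * r) := by
      refine mul_le_mul_of_nonneg_left ?_ (by linarith)
      nlinarith
    have h10 : (9 / 10 * r) * (A * κ / 2) ≥ (9 / 10 * r) * (10 ^ 10 * κ / 2) :=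
      mul_le_mul_of_nonneg_left (by linarith) (by linarith)
    have h11 : 0 < r * κ := mul_pos hr (by linarith)
    nlinarith

end Pool.Agent.MP_ae5b4e_an_N4
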