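import Pool.Agent.Lib.MP_ae5b4e_an_N4.AsH

/-!
# N4, module AsI: `n4core` from the parts
-/

set_option autoImplicit false

noncomputable section

namespace Pool.Agent.MP_ae5b4e_an_N4

open Complex Set Filter Topology Metric
open Pool.Agent.MP_ae5b4e_an_NBT (St MerAt Mer EqM Den)
open Pool.Agent.MP_ae5b4e_an_NB2 (Sys)
open Pool.Agent.MP_ae5b4e_an_PB (DFU DKU RegF Base)

theorem rr_le {κ A δ₀ : ℝ} (hκ : 0 < κ) (hA : 0 ≤ A) (hδ₀ : 0 < δ₀) (h : 1 / δ₀ ≤ Real.log κ) :
    rr κ (A * κ) ≤ δ₀ := by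
  unfold rr Lk
  have h1 : A * κ / κ = A := by field_simp
  rw [h1]
  have h2 : 0 < 1 / δ₀ := by positivity
  have h3 : 1 / δ₀ ≤ 32 * (10 * (Real.log κ + A * 10 ^ 10 + 10) + 1) := by linarith only [h, h2, hA]
  have h4 : 0 < 32 * (10 * (Real.log κ + A * 10 ^ 10 + 10) + 1) := by linarith only [h, h2, hA]
  rw [div_le_iff₀ h4]
  rw [div_le_iff₀ hδ₀] at h3
  linarith

theorem e_le {C κ l : ℝ} (hC : 64 ≤ C) (hκ : 16 * C ^ 2 ≤ κ) (hl : C ≤ l) :
    C * (Real.exp (-(l / 4)) + Real.log κ / κ) ≤ 1 := by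
  have hC0 : 0 < C := by linarith
  have hκ0 : 0 < κ := lt_of_lt_of_le (by positivity) hκ
  have h1 : C ^ 2 / 32 ≤ Real.exp (l / 4) := by
    have h2 := Real.quadratic_le_exp_of_nonneg (x := C / 4) (by positivity)
    have h3 : Real.exp (C / 4) ≤ Real.exp (l / 4) := Real.exp_le_exp.2 (by linarith)
    nlinarith only [h2, h3, hC0]
  have h2 : C * Real.exp (-(l / 4)) ≤ 1 / 2 := by
    rw [Real.exp_neg, ← div_eq_mul_inv, div_le_iff₀ (Real.exp_pos _)]
    nlinarith only [h1, hC]
  have h3 : 4 * C ≤ Real.sqrt κ := by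
    rw [Real.le_sqrt' (by positivity)]
    nlinarith only [hκ]
  have h4 : Real.log κ ≤ 2 * Real.sqrt κ := by
    have h5 : Real.log κ = 2 * Real.log (Real.sqrt κ) := by
      rw [Real.log_sqrt hκ0.le]; ring
    have h6 := Real.log_le_sub_one_of_pos (Real.sqrt_pos.2 hκ0)
    rw [h5]
    linarith
  have h5 : C * (Real.log κ / κ) ≤ 1 / 2 := by
    rw [← mul_div_assoc, div_le_iff₀ hκ0]
    have h6 : Real.sqrt κ * Real.sqrt κ = κ := Real.mul_self_sqrt hκ0.le
    have h7 : 0 < Real.sqrt κ := Real.sqrt_pos.2 hκ0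
    have h8 : C * Real.log κ ≤ C * (2 * Real.sqrt κ) := mul_le_mul_of_nonneg_left h4 hC0.le
    nlinarith only [h8, mul_le_mul_of_nonneg_right h3 h7.le, h6]
  rw [mul_add]
  linarith

/-- the theorem `n4core` from the parts H and B -/
theorem n4core_of (hH : NoRegP) {CB δ₀ K₀ : ℝ} (hCB : 1 ≤ CB) (hδ₀ : 0 < δ₀)
    (hfin : FinP CB δ₀ K₀) :
    ∃ η > 0, ∃ lam > 0, ∃ a > 0, ∃ A : ℝ, 10 ^ 10 ≤ A ∧ ∃ C ≥ 1, ∃ M : ℝ,
    ∀ (Y : Sys) (h R C0 : ℝ) (v : ℂ → ℝ) (G L : ℂ × ℂ → ℂ), Base Y h R C0 v G L → NoExt Y h →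
    ∀ rf re κ x0 : ℝ, M ≤ κ → Hyp Y h R v η lam a rf re κ x0 →
    (∀ r : ℝ, rf ≤ r → r ≤ re →
      v r ≤ C * r * (1 + κ * ((r / re) ^ (1 / 4 : ℝ) + (rf / r) ^ (1 / 4 : ℝ)))) ∧
    Real.log (re / rf) ≤ C * Real.log κ ∧
    ∃ κ1 : ℝ, |κ1 - κ| ≤ κ / 10 ∧ ∀ l : ℝ, C ≤ l → ∀ r : ℝ, rf * Real.exp l ≤ r →
      r ≤ re * Real.exp (-l) → ∀ ρ : ℂ, ‖ρ - r * I‖ ≤ r / 10 →
        Sg G x0 h A κ κ1 (C * (Real.exp (-(l / 4)) + Real.log κ / κ)) ρ := by
  set δ₁ : ℝ := min δ₀ (1 / 10) with hδ₁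
  have hδ₁0 : 0 < δ₁ := lt_min hδ₀ (by norm_num)
  have hδ₁1 : δ₁ ≤ 1 / 10 := min_le_right _ _
  have hfin' : FinP CB δ₁ K₀ := by
    intro k ra rb δ η r1 v F E E' z₁ h1 h2 h3 h4 h5 h6 h7 h8
    exact hfin k ra rb δ η r1 v F E E' z₁ h1 h2 h3 h4 (h5.trans (min_le_left _ _)) h6
      (h7.trans (min_le_left _ _)) (h8.trans (min_le_left _ _))
  set δ : ℝ := min (δ₁ / 8) (1 / 10 ^ 12) with hδ
  have hδ0 : 0 < δ := lt_min (by positivity) (by norm_num)
  have hδ12 : δ ≤ 1 / 10 ^ 12 := min_le_right _ _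
  have hδ8 : 8 * δ ≤ δ₁ := by
    have : δ ≤ δ₁ / 8 := min_le_left _ _
    linarith
  obtain ⟨A, hA, η, hη, hηδ, lam, hlam, hAlam, a, ha, M0, hst⟩ := start δ hδ0 hδ12
  have hlam1 : lam ≤ 1 / 10 ^ 10 := by
    rw [le_div_iff₀ (by norm_num)]
    nlinarith only [hAlam, mul_le_mul_of_nonneg_right hA hlam.le]
  have hlinv : 1 ≤ 1 / lam := by
    rw [le_div_iff₀ hlam]
    have : (1:ℝ) / 10 ^ 10 ≤ 1 := by norm_num
    linarith
  set q : ℝ := (1 / lam) ^ (1 / 4 : ℝ) with hq
  have hq1 : 1 ≤ q := Real.one_le_rpow hlinv (by norm_num)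
  set Λ : ℝ := Real.log (1 / lam) with hΛ
  have hΛ0 : 0 ≤ Λ := Real.log_nonneg hlinv
  set C : ℝ := 800 * CB ^ 2 * q + Λ + 64 with hC
  have hCB2 : 1 ≤ CB ^ 2 := by nlinarith only [hCB]
  have hqC : 800 * CB ^ 2 * q ≤ C := by rw [hC]; linarith
  have h8q : 800 * CB ^ 2 ≤ 800 * CB ^ 2 * q := by nlinarith only [mul_le_mul_of_nonneg_left hq1 (show (0:ℝ) ≤ 800 * CB ^ 2 by positivity)]
  have hCBC : CB ≤ 800 * CB ^ 2 * q := by nlinarith only [h8q, hCB]
  have hC64 : 64 ≤ C := by
    have : 0 ≤ 800 * CB ^ 2 * q := by positivity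
    rw [hC]; linarith
  refine ⟨η, hη, lam, hlam, a, ha, A, hA, C, by linarith,
    max (max M0 K₀) (max (16 * C ^ 2) (Real.exp (1 + 1 / δ₁))), ?_⟩
  intro Y h R C0 v G L hB hNE rf re κ x0 hM H
  have k1 : M0 ≤ κ := (le_max_left _ _).trans ((le_max_left _ _).trans hM)
  have k2 : K₀ ≤ κ := (le_max_right _ _).trans ((le_max_left _ _).trans hM)
  have k3 : 16 * C ^ 2 ≤ κ := (le_max_left _ _).trans ((le_max_right _ _).trans hM)
  have k4 : Real.exp (1 + 1 / δ₁) ≤ κ := (le_max_right _ _).trans ((le_max_right _ _).trans hM)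
  have hκ0 : 0 < κ := lt_of_lt_of_le (Real.exp_pos _) k4
  have hκ1 : 1 ≤ κ := by nlinarith only [k3, hC64]
  have k5 : 1 + 1 / δ₁ ≤ Real.log κ := by
    rw [Real.le_log_iff_exp_le hκ0]
    exact k4
  have hδi : 0 < 1 / δ₁ := by positivity
  have hlog1 : 1 ≤ Real.log κ := by linarith
  have hrf := H.rf0
  have hre : 0 < re := lt_of_lt_of_le hrf H.rle
  have hR : Rng R h κ lam A re := rng_of H hκ1 hlam hA hAlam
  have hη1 : η ≤ 1 := by
    have : (1:ℝ) / 10 ^ 12 ≤ 1 := by norm_num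
    linarith
  have hlamre : lam * re ≤ re := by nlinarith only [mul_le_mul_of_nonneg_right hlam1 hre.le, hre]
  -- the trivial bounds
  have hw1 : ∀ r : ℝ, rf ≤ r → 0 ≤ (r / re) ^ (1 / 4 : ℝ) := fun r h1 =>
    Real.rpow_nonneg (div_nonneg (hrf.le.trans h1) hre.le) _
  have hw2 : ∀ r : ℝ, rf ≤ r → 0 ≤ (rf / r) ^ (1 / 4 : ℝ) := fun r h1 =>
    Real.rpow_nonneg (div_nonneg hrf.le (hrf.le.trans h1)) _
  have hCq : q ≤ C := by nlinarith only [hqC, mul_le_mul_of_nonneg_right hCB2 (zero_le_one.trans hq1), hq1]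
  have htriv : ∀ r : ℝ, rf ≤ r → r ≤ re → lam * re ≤ r →
      v r ≤ C * r * (1 + κ * ((r / re) ^ (1 / 4 : ℝ) + (rf / r) ^ (1 / 4 : ℝ))) := by
    intro r h1 h2 h3
    have h4 := con_real H h1 h2
    have hr0 : 0 < r := hrf.trans_le h1
    have h5 : 1 ≤ q * (r / re) ^ (1 / 4 : ℝ) := by
      rw [hq, ← Real.mul_rpow (by positivity) (by positivity)]
      refine Real.one_le_rpow ?_ (by norm_num)
      rw [div_mul_div_comm, one_mul, le_div_iff₀ (by positivity)]
      linarith
    have h6 := hw1 r h1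
    have h7 := hw2 r h1
    have h8 : 1 ≤ C * (r / re) ^ (1 / 4 : ℝ) :=
      h5.trans (mul_le_mul_of_nonneg_right hCq h6)
    have h9 : κ * (η * r) ≤ κ * r := by
      refine mul_le_mul_of_nonneg_left ?_ hκ0.le
      nlinarith only [mul_le_mul_of_nonneg_right hη1 hr0.le]
    have h10 : κ * r ≤ (κ * r) * (C * (r / re) ^ (1 / 4 : ℝ)) := by
      have : 0 ≤ κ * r := by positivity
      nlinarith only [mul_le_mul_of_nonneg_left h8 this]
    have h11 : C * r * (1 + κ * ((r / re) ^ (1 / 4 : ℝ) + (rf / r) ^ (1 / 4 : ℝ))) =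
        (κ * r) * (C * (r / re) ^ (1 / 4 : ℝ)) + C * r +
          C * r * κ * (rf / r) ^ (1 / 4 : ℝ) := by ring
    rw [h11]
    have h12 : 0 ≤ C * r := by positivity
    have h13 : 0 ≤ C * r * κ * (rf / r) ^ (1 / 4 : ℝ) := by positivity
    linarith
  have htriv2 : v rf ≤ C * rf * (1 + κ * ((rf / re) ^ (1 / 4 : ℝ) + (rf / rf) ^ (1 / 4 : ℝ))) := by
    have h4 := con_real H le_rfl H.rle
    rw [div_self hrf.ne', Real.one_rpow]
    have h6 := hw1 rf le_rfl
    have h9 : κ * (η * rf) ≤ κ * rf := by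
      refine mul_le_mul_of_nonneg_left ?_ hκ0.le
      nlinarith only [mul_le_mul_of_nonneg_right hη1 hrf.le]
    have h10 : κ * rf ≤ C * (κ * rf) := by
      have : 0 ≤ κ * rf := by positivity
      nlinarith only [mul_le_mul_of_nonneg_right hC64 this, this]
    have h11 : C * rf * (1 + κ * ((rf / re) ^ (1 / 4 : ℝ) + 1)) =
        C * (κ * rf) + C * rf + C * rf * κ * (rf / re) ^ (1 / 4 : ℝ) := by ring
    rw [h11]
    have h12 : 0 ≤ C * rf := by positivity
    have h13 : 0 ≤ C * rf * κ * (rf / re) ^ (1 / 4 : ℝ) := by positivity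
    linarith
  rcases le_or_gt (lam * re) rf with hcase | hcase
  · -- no scales in the middle
    refine ⟨fun r h1 h2 => htriv r h1 h2 (hcase.trans h1), ?_, κ, by simp; positivity, ?_⟩
    · have h1 : re / rf ≤ 1 / lam := by
        rw [div_le_div_iff₀ hrf hlam]
        linarith
      have h2 : Real.log (re / rf) ≤ Λ := Real.log_le_log (by positivity) h1
      have h3 : Λ ≤ C * 1 := by rw [hC]; linarith only [h8q, hCB2]
      have h4 : C * 1 ≤ C * Real.log κ := mul_le_mul_of_nonneg_left hlog1 (by linarith)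
      linarith
    · intro l hl r h1 h2
      exfalso
      have hl0 : 0 < l := by linarith
      have h3 : rf * Real.exp l ≤ re * Real.exp (-l) := h1.trans h2
      have h4 : re ≤ (1 / lam) * rf := by
        rw [one_div, ← div_eq_inv_mul, le_div_iff₀ hlam]
        linarith
      have h5 : (1 / lam) = Real.exp Λ := (Real.exp_log (by positivity)).symm
      have h6 : Λ ≤ l := by
        have : Λ ≤ C := by rw [hC]; linarith only [h8q, hCB2]
        linarith
      have h7 : re * Real.exp (-l) ≤ rf * 1 := by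
        calc re * Real.exp (-l) ≤ ((1 / lam) * rf) * Real.exp (-l) :=
              mul_le_mul_of_nonneg_right h4 (Real.exp_pos _).le
          _ = rf * (Real.exp Λ * Real.exp (-l)) := by rw [h5]; ring
          _ = rf * Real.exp (Λ + -l) := by rw [Real.exp_add]
          _ ≤ rf * 1 := mul_le_mul_of_nonneg_left (Real.exp_le_one_iff.2 (by linarith)) hrf.le
      have h8 : 1 < Real.exp l := Real.one_lt_exp_iff.2 hl0
      nlinarith only [h3, h7, mul_lt_mul_of_pos_left h8 hrf]
  · obtain ⟨ν, η', Dl, s1, s2, Gc, n, g, S0, m, hx, hS⟩ := hst Y h R C0 v G L hB rf re κ x0 k1 H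
    obtain ⟨z₁, O⟩ := out_of hH hfin' hδ₁0 hδ8 hδ0 hδ12 hB H hη hηδ hR k2
      (rr_le hκ0 (by linarith) hδ₁0 (by linarith)) hcase (hx hNE) hS
    have hlr : 0 < lam * re := mul_pos hlam hre
    refine ⟨fun r h1 h2 => ?_, ?_, ?_⟩
    · rcases le_or_gt (lam * re) r with h3 | h3
      · exact htriv r h1 h2 h3
      rcases eq_or_lt_of_le h1 with h4 | h4
      · rw [← h4]; exact htriv2
      have hr0 : 0 < r := hrf.trans h4
      have h5 := O.o1 r h4 h3
      have h6 : (r / (lam * re)) ^ (1 / 4 : ℝ) = q * (r / re) ^ (1 / 4 : ℝ) := by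
        rw [hq, ← Real.mul_rpow (by positivity) (by positivity)]
        congr 1
        field_simp
      rw [h6] at h5
      have h7 := hw1 r h1
      have h8 := hw2 r h1
      refine h5.trans ?_
      have h9 : CB * q ≤ C := by
        have a1 : 0 ≤ CB := by linarith only [hCB]
        have a2 : 0 ≤ q := by linarith only [hq1]
        have a3 : 0 ≤ CB - 1 := by linarith only [hCB]
        nlinarith only [hqC, mul_nonneg (mul_nonneg a1 a2) a3, mul_nonneg (sq_nonneg CB) a2]
      have h10 : CB ≤ C := by linarith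
      have h11 : CB * r * (1 + κ * (q * (r / re) ^ (1 / 4 : ℝ) + (rf / r) ^ (1 / 4 : ℝ))) =
        CB * r + (CB * q) * (r * κ * (r / re) ^ (1 / 4 : ℝ)) +
          CB * (r * κ * (rf / r) ^ (1 / 4 : ℝ)) := by ring
      have h12 : C * r * (1 + κ * ((r / re) ^ (1 / 4 : ℝ) + (rf / r) ^ (1 / 4 : ℝ))) =
        C * r + C * (r * κ * (r / re) ^ (1 / 4 : ℝ)) +
          C * (r * κ * (rf / r) ^ (1 / 4 : ℝ)) := by ring
      rw [h11, h12]
      have h13 : 0 ≤ r * κ * (r / re) ^ (1 / 4 : ℝ) := by positivity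
      have h14 : 0 ≤ r * κ * (rf / r) ^ (1 / 4 : ℝ) := by positivity
      have h15 := mul_le_mul_of_nonneg_right h9 h13
      have h16 := mul_le_mul_of_nonneg_right h10 h14
      have h17 := mul_le_mul_of_nonneg_right h10 hr0.le
      linarith
    · have h1 := O.o3
      have h2 : Real.log (re / rf) = Real.log (lam * re / rf) + Λ := by
        rw [hΛ, ← Real.log_mul (by positivity) (by positivity)]
        congr 1
        field_simp
      rw [h2]
      have h3 : Λ ≤ Λ * Real.log κ := by nlinarith only [mul_le_mul_of_nonneg_left hlog1 hΛ0]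
      have h4 : CB * Real.log κ + Λ * Real.log κ ≤ C * Real.log κ := by
        rw [← add_mul]
        refine mul_le_mul_of_nonneg_right ?_ (by linarith)
        rw [hC]; linarith
      linarith
    · set rm : ℝ := Real.sqrt (rf * (lam * re)) with hrm
      have hrm2 : rm * rm = rf * (lam * re) := Real.mul_self_sqrt (by positivity)
      have hrm0 : 0 < rm := Real.sqrt_pos.2 (by positivity)
      have hrm1 : rf < rm := by
        by_contra hc
        have := not_lt.1 hc
        nlinarith only [hrm2, mul_le_mul this this hrm0.le hrf.le, mul_lt_mul_of_pos_left hcase hrf]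
      have hrm3 : rm < lam * re := by
        by_contra hc
        have := not_lt.1 hc
        nlinarith only [hrm2, mul_le_mul this this hlr.le hrm0.le, mul_lt_mul_of_pos_right hcase hlr]
      have hnm : ‖((rm:ℂ) * I)‖ = rm := by
        rw [norm_mul, Complex.norm_I, mul_one, Complex.norm_real, Real.norm_eq_abs,
          abs_of_pos hrm0]
      have hsecm : Sec rf (lam * re) ((rm:ℂ) * I) :=
        (sec_of_near (ra := rf) (rb := lam * re) hrm0 (by rw [hnm]; exact hrm1)
          (by rw [hnm]; exact hrm3) (by simp; linarith)).1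
      refine ⟨-(z₁ ((rm:ℂ) * I)).re, ?_, ?_⟩
      · have h1 := O.near _ hsecm
        have h2 : |(z₁ ((rm:ℂ) * I) + κ).re| ≤ δ₁ * κ := (Complex.abs_re_le_norm _).trans h1
        have h3 : (z₁ ((rm:ℂ) * I) + κ).re = (z₁ ((rm:ℂ) * I)).re + κ := by simp
        rw [h3] at h2
        have h4 : |-(z₁ ((rm:ℂ) * I)).re - κ| = |(z₁ ((rm:ℂ) * I)).re + κ| := by
          rw [← abs_neg]; ring_nf
        rw [h4]
        nlinarith only [h2, mul_le_mul_of_nonneg_right hδ₁1 hκ0.le]
      · intro l hl r h1 h2 ρ hρ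
        have hr0 : 0 < r := lt_of_lt_of_le (mul_pos hrf (Real.exp_pos _)) h1
        set l' : ℝ := l - Λ with hl'
        have hΛC : Λ + 64 ≤ C := by
          have : 0 ≤ 800 * CB ^ 2 * q := by positivity
          rw [hC]; linarith
        have hl'1 : 1 ≤ l' := by rw [hl']; linarith
        have hexpΛ : Real.exp Λ = 1 / lam := Real.exp_log (by positivity)
        have g1 : rf * Real.exp l' ≤ r := by
          refine le_trans (mul_le_mul_of_nonneg_left (Real.exp_le_exp.2 ?_) hrf.le) h1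
          rw [hl']; linarith
        have g2 : r ≤ lam * re * Real.exp (-l') := by
          refine h2.trans (le_of_eq ?_)
          have h3 : -l' = -l + Λ := by rw [hl']; ring
          rw [h3, Real.exp_add, hexpΛ]
          field_simp
        have g3 : Real.exp (-(l' / 4)) = q * Real.exp (-(l / 4)) := by
          have h3 : -(l' / 4) = Λ * (1 / 4) + -(l / 4) := by rw [hl']; ring
          rw [h3, Real.exp_add, hq, Real.rpow_def_of_pos (by positivity)]
        have hexp1 : (271/100 : ℝ) < Real.exp l' := by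
          have := Real.exp_one_gt_d9
          have h3 : Real.exp 1 ≤ Real.exp l' := Real.exp_le_exp.2 hl'1
          linarith
        have hexp2 : Real.exp (-l') * (271/100) ≤ 1 := by
          have h3 : Real.exp (-l') * Real.exp l' = 1 := by
            rw [← Real.exp_add]; simp
          have h4 := Real.exp_pos (-l')
          nlinarith only [h3, mul_lt_mul_of_pos_left hexp1 h4]
        have hn1 : ‖ρ‖ ≤ 11 / 10 * r := by
          have h14 : ‖ρ‖ ≤ ‖ρ - r * I‖ + ‖(r:ℂ) * I‖ := by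
            have := norm_add_le (ρ - r * I) (r * I)
            simpa using this
          have h15 : ‖(r:ℂ) * I‖ = r := by
            rw [norm_mul, Complex.norm_I, mul_one, Complex.norm_real, Real.norm_eq_abs,
              abs_of_pos hr0]
          linarith
        have hn2 : 9 / 10 * r ≤ ‖ρ‖ := by
          have h14 : ‖(r:ℂ) * I‖ ≤ ‖ρ‖ + ‖ρ - r * I‖ := by
            have := norm_sub_le ρ (ρ - r * I)
            simpa using this
          have h15 : ‖(r:ℂ) * I‖ = r := by
            rw [norm_mul, Complex.norm_I, mul_one, Complex.norm_real, Real.norm_eq_abs,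
              abs_of_pos hr0]
          linarith
        have hρ1 : rf < ‖ρ‖ := by nlinarith only [g1, mul_lt_mul_of_pos_left hexp1 hrf, hn2, hrf]
        have hρ2 : ‖ρ‖ < lam * re := by
          have h3 : r ≤ lam * re * (100 / 271) := by
            refine g2.trans (mul_le_mul_of_nonneg_left ?_ hlr.le)
            linarith
          linarith
        have hph : ph2 / 2 < ph1 := by unfold ph1 ph2; norm_num
        have hd := drift (f := z₁) (ra := rf) (rb := lam * re) (C := CB) (k := κ) hrf hCB hκ1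
          (fun ρ h1 h2 h3 h4 => O.an ρ ⟨h1, h2, by linarith, by linarith⟩)
          O.o2 O.o3 hl'1 g1 g2 hρ
        rw [g3] at hd
        refine O.sg r hr0 ρ hρ hρ1 hρ2 _ _ ?_ ?_ (e_le hC64 k3 hl)
        · have h3 : z₁ ρ + ((-(z₁ ((rm:ℂ) * I)).re : ℝ) : ℂ) =
              z₁ ρ - (((z₁ ((rm:ℂ) * I)).re : ℝ) : ℂ) := by push_cast; ring
          rw [h3]
          refine hd.trans ?_
          have h4 : C * (Real.exp (-(l / 4)) + Real.log κ / κ) * κ / 2 =
              C / 2 * (κ * Real.exp (-(l / 4))) + C / 2 * Real.log κ := by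
            field_simp
          rw [h4]
          have h5 : 200 * CB ^ 2 * (1 + Real.log κ + κ * (q * Real.exp (-(l / 4)))) =
              200 * CB ^ 2 * (1 + Real.log κ) +
                (200 * CB ^ 2 * q) * (κ * Real.exp (-(l / 4))) := by ring
          rw [h5]
          have h6 : 0 ≤ κ * Real.exp (-(l / 4)) := by positivity
          have h7 : (200 * CB ^ 2 * q) * (κ * Real.exp (-(l / 4))) ≤
              C / 2 * (κ * Real.exp (-(l / 4))) := by
            refine mul_le_mul_of_nonneg_right ?_ h6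
            have : 0 ≤ CB ^ 2 * q := by positivity
            nlinarith only [hqC, this]
          have h8 : 200 * CB ^ 2 * (1 + Real.log κ) ≤ 400 * CB ^ 2 * Real.log κ := by
            nlinarith only [mul_le_mul_of_nonneg_left hlog1 (show (0:ℝ) ≤ 200 * CB ^ 2 by positivity)]
          have h9 : 400 * CB ^ 2 * Real.log κ ≤ C / 2 * Real.log κ := by
            refine mul_le_mul_of_nonneg_right ?_ (by linarith)
            linarith
          linarith
        · have h3 : C * (Real.exp (-(l / 4)) + Real.log κ / κ) * κ =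
              C * (κ * Real.exp (-(l / 4))) + C * Real.log κ := by
            field_simp
          rw [h3]
          have h4 : 0 ≤ C * (κ * Real.exp (-(l / 4))) := by positivity
          nlinarith only [h4, mul_le_mul_of_nonneg_right hC64 (zero_le_one.trans hlog1), hlog1, hC64]

end Pool.Agent.MP_ae5b4e_an_N4
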