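import Pool.Agent.Lib.MP_ae5b4e_an_N4.BD

/-!
# N4, module BExt: discs of meromorphic extension from pointwise data

Lean: `ExtR F t₁ s η := ∃ δ > 0, ∃ G, Mer G (ball t₁ s ×ˢ ball η δ) ∧ ∀ η' ∈ ball η δ, EqM G F (t₁, η')`
(file LL/Rmer.lean), `Mer f U := ∀ p ∈ U, MerAt f p`; `MerAt.eventually`, `EqM.eventually`,
`EqM.trans`, `EqM.symm` in NBT/Mer.lean.

* `ext_of_mer`: `O := {p | MerAt G p}` is open (`isOpen_iff_mem_nhds`, `MerAt.eventually`) and contains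
  the compact set `closedBall t₁ s ×ˢ {ρ}`.  `generalized_tube_lemma (isCompact_closedBall _ _)
  isCompact_singleton`: open `U ⊇ closedBall t₁ s`, `V ∋ ρ` with `U ×ˢ V ⊆ O`.
  `hE.eventually` is an event in `𝓝 (t₁, ρ)`; pull it back by the continuous map `η ↦ (t₁, η)`
  (`(Continuous.prodMk continuous_const continuous_id).tendsto ρ`): for `η` near `ρ` `EqM G F (t₁, η)`.  Take
  `δ > 0` with `ball ρ δ` in `V` and in this set.
* `extR_congr`: `hE.eventually` along `η ↦ (t₁, η)`: `EqM F G (t₁, η)` for `η ∈ ball ρ δ'`; shrink the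
  `δ` of `h` to `min δ δ'` and use `EqM.trans`.
* `eqM_slice`: the pull back used twice above.
-/

set_option autoImplicit false

noncomputable section

namespace Pool.Agent.MP_ae5b4e_an_N4

open Complex Set Filter Topology Metric InnerProductSpace
open Pool.Agent.MP_ae5b4e_an_NBT (St MerAt Mer EqM)
open Pool.Agent.Lib.MP_ae5b4e_an_LL (SubH ExtR prad)
open scoped ComplexConjugate

variable {F G : ℂ × ℂ → ℂ} {t₁ ρ : ℂ} {s : ℝ}

theorem eqM_slice (h : EqM F G (t₁, ρ)) : ∀ᶠ η in 𝓝 ρ, EqM F G (t₁, η) := by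
  have hc : Continuous fun η : ℂ => ((t₁, η) : ℂ × ℂ) := by fun_prop
  exact (hc.tendsto ρ).eventually h.eventually

theorem ext_of_mer (hG : ∀ z ∈ closedBall t₁ s, MerAt G (z, ρ)) (hE : EqM G F (t₁, ρ)) :
    ExtR F t₁ s ρ := by
  have hO : IsOpen {p : ℂ × ℂ | MerAt G p} :=
    isOpen_iff_mem_nhds.2 fun p hp => MerAt.eventually hp
  have hsub : closedBall t₁ s ×ˢ {ρ} ⊆ {p : ℂ × ℂ | MerAt G p} := by
    rintro ⟨z, η⟩ ⟨hz, hη⟩
    have hη' : η = ρ := hη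
    subst hη'
    exact hG z hz
  obtain ⟨U, V, -, hV, hU, hρ, hUV⟩ := generalized_tube_lemma (isCompact_closedBall t₁ s)
    isCompact_singleton hO hsub
  have h1 : V ∈ 𝓝 ρ := hV.mem_nhds (hρ (mem_singleton ρ))
  obtain ⟨δ, hδ, h2⟩ := Metric.eventually_nhds_iff_ball.1 ((eqM_slice hE).and h1)
  exact ⟨δ, hδ, G, fun p hp => hUV ⟨hU (ball_subset_closedBall hp.1), (h2 p.2 hp.2).2⟩,
    fun η hη => (h2 η hη).1⟩

theorem extR_congr (h : ExtR F t₁ s ρ) (hE : EqM F G (t₁, ρ)) : ExtR G t₁ s ρ := by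
  obtain ⟨δ, hδ, K, hK, hKF⟩ := h
  obtain ⟨δ', hδ', h2⟩ := Metric.eventually_nhds_iff_ball.1 (eqM_slice hE)
  exact ⟨min δ δ', lt_min hδ hδ', K,
    hK.mono (prod_mono le_rfl (ball_subset_ball (min_le_left _ _))),
    fun η hη => (hKF η (ball_subset_ball (min_le_left _ _) hη)).trans
      (h2 η (ball_subset_ball (min_le_right _ _) hη))⟩

/-- uniqueness: two functions which are meromorphic on a disc slice and agree at one point of the
part of the disc slice in a convex set -/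
theorem eqM_convex {C : Set ℂ} (hC : Convex ℝ C) {z₀ : ℂ} (h0 : z₀ ∈ C)
    (hF : ∀ z ∈ C, MerAt F (z, ρ)) (hG : ∀ z ∈ C, MerAt G (z, ρ)) (h : EqM F G (z₀, ρ)) :
    ∀ z ∈ C, EqM F G (z, ρ) := by
  have hp : IsPreconnected (C ×ˢ {ρ} : Set (ℂ × ℂ)) :=
    hC.isPreconnected.prod isPreconnected_singleton
  have hF' : Mer F (C ×ˢ {ρ}) := by
    rintro ⟨z, η⟩ ⟨hz, hη⟩
    have hη' : η = ρ := hη
    subst hη'
    exact hF z hz
  have hG' : Mer G (C ×ˢ {ρ}) := by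
    rintro ⟨z, η⟩ ⟨hz, hη⟩
    have hη' : η = ρ := hη
    subst hη'
    exact hG z hz
  intro z hz
  have h1 : ∀ w ∈ C, (w, ρ) ∈ C ×ˢ ({ρ} : Set ℂ) := fun w hw => ⟨hw, mem_singleton ρ⟩
  exact Mer.eqM hp hF' hG' (h1 z₀ h0) h (z, ρ) (h1 z hz)

end Pool.Agent.MP_ae5b4e_an_N4
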