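import Pool.Agent.Lib.MP_ae5b4e_an_N4.BGeo
import Pool.Agent.Lib.MP_ae5b4e_an_N4.BExt

/-!
# N4, module BBot: the upper bound of `uR` near the real axis

`c := rm exp x`, `m := v c / c`, `ra < c < rb` (`hS.memR`), `0 ≤ m ≤ η k` (`hS.pos`, `hS.con` with `(c:ℂ).im = 0`).
Given `e > 0`; we may assume `e ≤ 1` (replace `e` by `min e 1`).  `e' := e/3`, `y := m + e'`, `s := k/16 - y`,
`|y| ≤ k/100000 + 1 ≤ k/32`.
For `ρ` near `c`: the condition (\*) `(ρ tq).im + ‖ρ‖ s < -v ρ` holds: at `ρ = c` the left side is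
`c (-(k/16) + s) = -v c - c e'`, it is continuous in `ρ`; and `v ρ < v c + c e'/2` for `ρ` near `c` (`hS.usc` at `c`;
`UpperSemicontinuousOn` on the open annulus, `isOpen_ann`, gives an event in `𝓝 (c:ℂ)`).
(\*) implies for `z ∈ closedBall (tq k q) s`: `(ρ z).im = (ρ tq).im + (ρ (z - tq)).im ≤ (ρ tq).im + ‖ρ‖ s < -v ρ`, and
`‖z‖ ≤ |q| + k/16 + k/16 ≤ 4 k`; so `MerAt F (z, ρ)` (`hS.cor.mer`) and `ExtR F (tq k q) s ρ` (`ext_of_mer`, `EqM.refl`).
Pull back by `psiB rm`, continuous, `psiB rm (pt x 0) = c` (`psi_real`).  `uR_le`: `uR ≤ y + 16/k y^2`;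
`16/k y^2 = (16/k) m^2 + (16/k)(2 m e' + e'^2) ≤ 16 η m + 2 e'` (`m ≤ η k`, `32 η ≤ 1`, `16 e'/k ≤ 1`).  Total `≤ m + 16 η m + 3 e'`.
-/

set_option autoImplicit false

noncomputable section

namespace Pool.Agent.MP_ae5b4e_an_N4

open Complex Set Filter Topology Metric InnerProductSpace
open Pool.Agent.MP_ae5b4e_an_NBT (St MerAt Mer EqM)
open Pool.Agent.Lib.MP_ae5b4e_an_LL (SubH ExtR prad)
open scoped ComplexConjugate

variable {k ra rb rm ℓ δ η ε r1 : ℝ} {v : ℂ → ℝ} {F E : ℂ × ℂ → ℂ} {z₁ : ℂ → ℂ}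

theorem m_bd (hS : Side k ra rb rm ℓ δ η ε r1 v F E z₁) {x : ℝ} (hx : |x| < ℓ) :
    0 ≤ v ((rm * Real.exp x : ℝ) : ℂ) / (rm * Real.exp x) ∧
      v ((rm * Real.exp x : ℝ) : ℂ) / (rm * Real.exp x) ≤ η * k := by
  obtain ⟨h1, h2⟩ := hS.memR hx
  set c : ℝ := rm * Real.exp x with hc
  have hc0 : 0 < c := hS.ra0.trans h1
  have hn : ‖((c : ℝ) : ℂ)‖ = c := by
    rw [Complex.norm_real, Real.norm_of_nonneg hc0.le]
  refine ⟨div_nonneg (hS.pos c h1 h2) hc0.le, ?_⟩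
  rw [div_le_iff₀ hc0]
  have h3 := hS.con (c : ℂ) (by rw [hn]; exact h1) (by rw [hn]; exact h2)
  rw [hn, Complex.ofReal_im, abs_zero, mul_zero, zero_add] at h3
  calc v (c : ℂ) ≤ k * (η * c) := h3
    _ = η * k * c := by ring

theorem ble_bot (hS : Side k ra rb rm ℓ δ η ε r1 v F E z₁) {V : Set ℂ} {x q : ℝ}
    (hx : |x| < ℓ) (hq : |q| ≤ 11 / 10 * k) :
    BLe V (uR k rm F q) (pt x 0)
      ((1 + 16 * η) * (v ((rm * Real.exp x : ℝ) : ℂ) / (rm * Real.exp x))) := by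
  intro e he
  obtain ⟨h1, h2⟩ := hS.memR hx
  obtain ⟨hm0, hm1⟩ := m_bd hS hx
  have hk := hS.hk
  have hk0 := hS.k0
  set c : ℝ := rm * Real.exp x with hc
  have hc0 : 0 < c := hS.ra0.trans h1
  have hn : ‖((c : ℝ) : ℂ)‖ = c := by
    rw [Complex.norm_real, Real.norm_of_nonneg hc0.le]
  set m : ℝ := v (c : ℂ) / c with hm
  have hvc : v (c : ℂ) = m * c := by
    rw [hm, div_mul_cancel₀ _ hc0.ne']
  set e' : ℝ := min e 1 / 3 with he'
  have he0 : 0 < e' := by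
    rw [he']
    have : 0 < min e 1 := lt_min he one_pos
    positivity
  have he1 : 3 * e' ≤ e := by
    have := min_le_left e 1
    rw [he']
    linarith
  have he2 : e' ≤ 1 / 3 := by
    have := min_le_right e 1
    rw [he']
    linarith
  set s : ℝ := k / 16 - (m + e') with hs
  have hmk : m ≤ k / 100000 := by
    have h3 : η * k ≤ 1 / 100000 * k := mul_le_mul_of_nonneg_right hS.η1 hk0.le
    linarith
  have hmem : (c : ℂ) ∈ {ρ : ℂ | ra < ‖ρ‖ ∧ ‖ρ‖ < rb} := by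
    refine ⟨?_, ?_⟩
    · rw [hn]; exact h1
    · rw [hn]; exact h2
  have E1 : ∀ᶠ ρ in 𝓝 (c : ℂ), ra < ‖ρ‖ ∧ ‖ρ‖ < rb := (isOpen_ann ra rb).mem_nhds hmem
  have hce : 0 < c * e' / 2 := by positivity
  have E2 : ∀ᶠ ρ in 𝓝 (c : ℂ), v ρ < v (c : ℂ) + c * e' / 2 := by
    have h3 := hS.usc (c : ℂ) hmem (v (c : ℂ) + c * e' / 2) (by linarith)
    rwa [(isOpen_ann ra rb).nhdsWithin_eq hmem] at h3
  have E3 : ∀ᶠ ρ in 𝓝 (c : ℂ), (ρ * tq k q).im + ‖ρ‖ * s < -v (c : ℂ) - c * e' / 2 := by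
    have h3 : Continuous fun ρ : ℂ => (ρ * tq k q).im + ‖ρ‖ * s := by fun_prop
    have h4 : ((c : ℂ) * tq k q).im + ‖(c : ℂ)‖ * s < -v (c : ℂ) - c * e' / 2 := by
      rw [hn, Complex.im_ofReal_mul, tq_im, hvc, hs]
      have h5 : c * -(k / 16) + c * (k / 16 - (m + e')) = -(m * c) - c * e' := by ring
      rw [h5]
      linarith
    exact h3.continuousAt.eventually_lt_const h4
  have E : ∀ᶠ ρ in 𝓝 (c : ℂ), ExtR F (tq k q) s ρ := by
    filter_upwards [E1, E2, E3] with ρ g1 g2 g3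
    have hlt : (ρ * tq k q).im + ‖ρ‖ * s < -v ρ := by linarith
    refine ext_of_mer (fun z hz => ?_) (Pool.Agent.MP_ae5b4e_an_NBT.EqM.refl _ _)
    have hz' : ‖z - tq k q‖ ≤ s := by
      rw [← dist_eq_norm]
      exact mem_closedBall.1 hz
    refine hS.cor.mer z ρ g1.1 g1.2 ?_ ?_
    · have h3 : ‖tq k q‖ ≤ |q| + k / 16 := by
        refine (Complex.norm_le_abs_re_add_abs_im _).trans ?_
        rw [tq_re, tq_im, abs_neg, abs_of_nonneg (by positivity : (0 : ℝ) ≤ k / 16)]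
      have h4 : ‖z‖ ≤ ‖z - tq k q‖ + ‖tq k q‖ := by
        have := norm_add_le (z - tq k q) (tq k q)
        rwa [sub_add_cancel] at this
      linarith
    · have h3 : (ρ * z).im = (ρ * tq k q).im + (ρ * (z - tq k q)).im := by
        rw [← Complex.add_im]
        congr 1
        ring
      have h4 : (ρ * (z - tq k q)).im ≤ ‖ρ‖ * s := by
        refine (le_abs_self _).trans ((Complex.abs_im_le_norm _).trans ?_)
        rw [norm_mul]
        exact mul_le_mul_of_nonneg_left hz' (norm_nonneg _)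
      rw [h3]
      linarith
  have hT : Tendsto (psiB rm) (𝓝 (pt x 0)) (𝓝 (c : ℂ)) := by
    have h3 := (continuous_psi rm).tendsto (pt x 0)
    rwa [psi_real] at h3
  have hfin : ∀ᶠ w in 𝓝 (pt x 0), uR k rm F q w ≤ (1 + 16 * η) * m + e := by
    filter_upwards [hT.eventually E] with w hw
    have hy : |m + e'| ≤ k / 32 := by
      rw [abs_of_nonneg (by linarith)]
      linarith
    refine (uR_le hk0 hy hw).trans ?_
    have g1 : 16 / k * m ^ 2 ≤ 16 * η * m := by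
      rw [div_mul_eq_mul_div, div_le_iff₀ hk0]
      have := mul_le_mul_of_nonneg_left hm1 hm0
      linarith
    have g2 : 16 / k * (2 * m * e') ≤ e' := by
      rw [div_mul_eq_mul_div, div_le_iff₀ hk0]
      have h3 : m * e' ≤ k / 100000 * e' := mul_le_mul_of_nonneg_right hmk he0.le
      have h4 : 0 ≤ k * e' := by positivity
      linarith
    have g3 : 16 / k * e' ^ 2 ≤ e' := by
      rw [div_mul_eq_mul_div, div_le_iff₀ hk0]
      nlinarith
    have g4 : 16 / k * (m + e') ^ 2 =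
        16 / k * m ^ 2 + 16 / k * (2 * m * e') + 16 / k * e' ^ 2 := by ring
    rw [g4]
    linarith
  exact hfin.filter_mono nhdsWithin_le_nhds

end Pool.Agent.MP_ae5b4e_an_N4
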