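import Pool.Agent.Lib.MP_ae5b4e_an_N4.BExt
import Pool.Agent.Lib.MP_ae5b4e_an_NBT.DomE

/-!
# N4, module BRef: the reflection `(z, ρ) ↦ (- conj z, conj ρ)`

`refE X p := conj (X (-conj p.1, conj p.2))`.
`merAt_refE`, `eqM_refE`: compose with the analytic homeomorphism `e (a, b) := (-a, b)` of `ℂ × ℂ` (an own
`Homeomorph`, as `dome_neg` in NBT/DomE.lean; `MerAt.comp`, `EqM.comp` in NBT/Mer.lean), then with
`MerAt.conj' : MerAt f (conj p.1, conj p.2) → MerAt (fun q => conj (f (conj q.1, conj q.2))) p` and `EqM.conj'` (NBT/DomE.lean):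
`refE X = fun q => conj ((X ∘ e) (conj q.1, conj q.2))`; the point `p` goes to `(conj p.1, conj p.2)` and by `e` to
`(-conj p.1, conj p.2)`.
`extR_refE`: from `δ`, `G` for `ExtR X (-conj t₁) s (conj ρ)` take `δ`, `refE G`: for `(z, η) ∈ ball t₁ s ×ˢ ball ρ δ` the point
`(-conj z, conj η)` is in `ball (-conj t₁) s ×ˢ ball (conj ρ) δ` (`dist (-conj z) (-conj t₁) = dist z t₁`,
`dist (conj η) (conj ρ) = dist η ρ`).
`eqM_neg_mir`: `refE (mirE F) = fun p => F (-p.1, -p.2)` (`refE_mirE`) and `hB.ev`, `EqM.symm`.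
-/

set_option autoImplicit false

noncomputable section

namespace Pool.Agent.MP_ae5b4e_an_N4

open Complex Set Filter Topology Metric InnerProductSpace
open Pool.Agent.MP_ae5b4e_an_NBT (St MerAt Mer EqM)
open Pool.Agent.Lib.MP_ae5b4e_an_LL (SubH ExtR prad)
open scoped ComplexConjugate

/-- `(a, b) ↦ (-a, b)` -/
private def BRef_e : (ℂ × ℂ) ≃ₜ (ℂ × ℂ) where
  toFun p := (-p.1, p.2)
  invFun p := (-p.1, p.2)
  left_inv p := by simp
  right_inv p := by simp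
  continuous_toFun := by fun_prop
  continuous_invFun := by fun_prop

private theorem BRef_an (p : ℂ × ℂ) : AnalyticAt ℂ BRef_e p := by
  change AnalyticAt ℂ (fun p : ℂ × ℂ => (-p.1, p.2)) p
  exact AnalyticAt.prod analyticAt_fst.neg analyticAt_snd

private theorem BRef_eq (X : ℂ × ℂ → ℂ) :
    refE X = fun q : ℂ × ℂ => conj ((fun r : ℂ × ℂ => X (-r.1, r.2)) (conj q.1, conj q.2)) := by
  funext q
  rfl

theorem merAt_refE {X : ℂ × ℂ → ℂ} {p : ℂ × ℂ} (h : MerAt X (-conj p.1, conj p.2)) :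
    MerAt (refE X) p := by
  rw [BRef_eq]
  exact MerAt.conj' (MerAt.comp BRef_e (BRef_an (conj p.1, conj p.2)) h)

theorem eqM_refE {X Z : ℂ × ℂ → ℂ} {p : ℂ × ℂ} (h : EqM X Z (-conj p.1, conj p.2)) :
    EqM (refE X) (refE Z) p := by
  rw [BRef_eq, BRef_eq]
  exact EqM.conj' (EqM.comp BRef_e (BRef_an (conj p.1, conj p.2)) h)

private theorem BRef_dist (a b : ℂ) : dist (-conj a) (-conj b) = dist a b := by
  rw [dist_neg_neg, Complex.dist_conj_conj]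

theorem extR_refE {X : ℂ × ℂ → ℂ} {t₁ ρ : ℂ} {s : ℝ} (h : ExtR X (-conj t₁) s (conj ρ)) :
    ExtR (refE X) t₁ s ρ := by
  obtain ⟨δ, hδ, G, hG, hE⟩ := h
  refine ⟨δ, hδ, refE G, ?_, ?_⟩
  · rintro p ⟨h1, h2⟩
    refine merAt_refE (hG _ ⟨?_, ?_⟩)
    · rw [mem_ball] at h1 ⊢
      rwa [BRef_dist]
    · rw [mem_ball] at h2 ⊢
      rwa [Complex.dist_conj_conj]
  · intro η hη
    refine eqM_refE (hE (conj η) ?_)
    rw [mem_ball] at hη ⊢
    rwa [Complex.dist_conj_conj]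

theorem eqM_neg_mir {k ra rb rm ℓ δ η ε r1 : ℝ} {v : ℂ → ℝ} {F E E' : ℂ × ℂ → ℂ} {z₁ : ℂ → ℂ}
    (hB : Both k ra rb rm ℓ δ η ε r1 v F E E' z₁) {z ρ : ℂ} (h1 : ra < ‖ρ‖) (h2 : ‖ρ‖ < rb)
    (hz : ‖z‖ ≤ 4 * k) (hv : (ρ * z).im < -v ρ) : EqM (refE (mirE F)) F (z, ρ) := by
  rw [refE_mirE]
  exact (hB.ev z ρ h1 h2 hz hv).symm

end Pool.Agent.MP_ae5b4e_an_N4
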