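import Pool.Agent.Lib.MP_ae5b4e_an_N4.BGeo

/-!
# N4, module BTop: the upper bound of `uR` near the angle `ph0`

`near_im`: `|(z₁ ρ).im| = |(z₁ ρ + k).im| ≤ δ k ≤ k/1000` (`hS.cor.near`).
`adm_disc`: `O := -(z₁ ρ).im`, `|O| ≤ k/1000`.  `dist z (tq k q) ≤ k/16 - O - ε` gives
`z.im ≤ -k/16 + (k/16 - O - ε) = (z₁ ρ).im - ε ≤ (z₁ ρ).im - exp (-k)` (`hS.ek`), first alternative of `Adm.col`;
`z.im ≥ -k/8 + O + ε ≥ -k/8 - k/1000 ≥ -k/7`; `z.re ≤ q + k/16 + k/1000 ≤ 3 + .0635 k ≤ k/15` (`k ≥ 10^6`);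
`‖z‖ ≤ |q| + k/16 + k/16 + k/1000 ≤ 4 k`.
`ext_top`: `ext_of_mer` with `G := E`, radius `k/16 + (z₁ ρ).im - ε`: `hS.cor.mE` on the closed disc; at the centre
`EqM E F (tq k q, ρ)` by `hS.cor.eq` (`adm_disc` and `low_disc` for `z = tq k q`; `0 < ph2/2 < arg ρ`).
`num_top`: `(O+ε)^2 ≤ 2 O^2 + 2 ε^2`, `O^2 ≤ δ k |O|`, `32 ε^2/k ≤ ε`.
`uR_top`: `ρ := psiB rm w`, `arg ρ = w.im`, `Om rm z₁ w = -(z₁ ρ).im =: O`; `uR_le` with `y := O + ε`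
(`|y| ≤ k/1000 + 1 ≤ k/32`; `k/16 - y = k/16 + (z₁ ρ).im - ε`), then `num_top`.
`Om_an`: `z₁ ∘ psiB rm` is analytic at `w` (`hS.cor.an`, `analyticAt_psi`), `Om_cont` follows.
`Om_bd`: `near_im`.
`ble_top`: `Om` is continuous at `pt x ph0` (`ph2/2 < ph0 < π - ph2/2`), so the right side of `uR_top` at `w` is `≤` the
value at `pt x ph0` plus `e` for `w` near `pt x ph0`; and `|w.re| < ℓ`, `ph2/2 < w.im` near `pt x ph0`, `w.im ≤ ph0` for `w ∈ V`.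
-/

set_option autoImplicit false

noncomputable section

namespace Pool.Agent.MP_ae5b4e_an_N4

open Complex Set Filter Topology Metric InnerProductSpace
open Pool.Agent.MP_ae5b4e_an_NBT (St MerAt Mer EqM)
open Pool.Agent.Lib.MP_ae5b4e_an_LL (SubH ExtR prad)
open scoped ComplexConjugate

variable {k ra rb rm ℓ δ η ε r1 : ℝ} {v : ℂ → ℝ} {F E : ℂ × ℂ → ℂ} {z₁ : ℂ → ℂ}

theorem near_im (hS : Side k ra rb rm ℓ δ η ε r1 v F E z₁) {ρ : ℂ}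
    (h1 : ra < ‖ρ‖) (h2 : ‖ρ‖ < rb) (ha1 : ph2 / 2 < arg ρ) (ha2 : arg ρ < Real.pi - ph2 / 2) :
    |(z₁ ρ).im| ≤ δ * k ∧ δ * k ≤ k / 1000 ∧ |(z₁ ρ).re + k| ≤ k / 1000 := by
  have h := hS.cor.near ρ h1 h2 ha1 ha2
  have hk := hS.k0
  have h3 : δ * k ≤ k / 1000 := by
    have := mul_le_mul_of_nonneg_right hS.δ1 hk.le
    linarith
  have h4 : (z₁ ρ).im = (z₁ ρ + k).im := by simp
  have h5 : (z₁ ρ).re + k = (z₁ ρ + k).re := by simp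
  refine ⟨?_, h3, ?_⟩
  · rw [h4]
    exact (Complex.abs_im_le_norm _).trans h
  · rw [h5]
    exact ((Complex.abs_re_le_norm _).trans h).trans h3

theorem adm_disc (hS : Side k ra rb rm ℓ δ η ε r1 v F E z₁) {ρ z : ℂ} {q : ℝ}
    (h1 : ra < ‖ρ‖) (h2 : ‖ρ‖ < rb) (ha1 : ph2 / 2 < arg ρ) (ha2 : arg ρ ≤ ph0)
    (hq1 : -(11 / 10 * k) ≤ q) (hq2 : q ≤ 3) (hz : dist z (tq k q) ≤ k / 16 + (z₁ ρ).im - ε) :
    Adm k (z₁ ρ) z ∧ ‖z‖ ≤ 4 * k := by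
  have hk := hS.hk
  have hph : ph0 < Real.pi - ph2 / 2 := by
    unfold ph0 ph2
    linarith [Real.pi_gt_three]
  obtain ⟨hi1, hi2, -⟩ := near_im hS h1 h2 ha1 (ha2.trans_lt hph)
  obtain ⟨hi3, hi4⟩ := abs_le.1 (hi1.trans hi2)
  have hε0 := hS.ε0
  have hek := hS.ek
  rw [dist_eq_norm] at hz
  have h3 := abs_le.1 ((Complex.abs_re_le_norm _).trans hz)
  have h4 := abs_le.1 ((Complex.abs_im_le_norm _).trans hz)
  rw [Complex.sub_re, tq_re] at h3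
  rw [Complex.sub_im, tq_im] at h4
  obtain ⟨h5, h6⟩ := h3
  obtain ⟨h7, h8⟩ := h4
  refine ⟨⟨by linarith, by linarith, Or.inl ?_⟩, ?_⟩
  · rw [Complex.sub_im]
    linarith
  · refine (Complex.norm_le_abs_re_add_abs_im z).trans ?_
    have h9 : |z.re| ≤ 2 * k := abs_le.2 ⟨by linarith, by linarith⟩
    have h10 : |z.im| ≤ 2 * k := abs_le.2 ⟨by linarith, by linarith⟩
    linarith

theorem ext_top (hS : Side k ra rb rm ℓ δ η ε r1 v F E z₁) {ρ : ℂ} {q : ℝ}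
    (h1 : ra < ‖ρ‖) (h2 : ‖ρ‖ < rb) (ha1 : ph2 / 2 < arg ρ) (ha2 : arg ρ ≤ ph0)
    (hq1 : -(11 / 10 * k) ≤ q) (hq2 : q ≤ 3) :
    ExtR F (tq k q) (k / 16 + (z₁ ρ).im - ε) ρ := by
  have hk := hS.hk
  have hph : ph0 < Real.pi - ph2 / 2 := by
    unfold ph0 ph2
    linarith [Real.pi_gt_three]
  have hph2 : (0 : ℝ) < ph2 / 2 := by
    unfold ph2
    norm_num
  obtain ⟨hi1, hi2, -⟩ := near_im hS h1 h2 ha1 (ha2.trans_lt hph)
  obtain ⟨hi3, hi4⟩ := abs_le.1 (hi1.trans hi2)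
  have hε1 := hS.ε1
  have hc : dist (tq k q) (tq k q) ≤ k / 16 + (z₁ ρ).im - ε := by
    rw [dist_self]
    linarith
  have ha0 : 0 < arg ρ := hph2.trans ha1
  obtain ⟨hA, hN⟩ := adm_disc hS h1 h2 ha1 ha2 hq1 hq2 hc
  have hlow := low_disc hS (z := tq k q) h1 h2 (by rw [abs_of_pos ha0]; exact ha2) hq1 hq2
    (Or.inr ha0.le) (by rw [dist_self]; linarith)
  refine ext_of_mer (G := E) (fun z hz => ?_) (hS.cor.eq _ _ h1 h2 ha1 ha2 hN hA hlow.2)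
  obtain ⟨hA', hN'⟩ := adm_disc hS h1 h2 ha1 ha2 hq1 hq2 (mem_closedBall.1 hz)
  exact hS.cor.mE _ _ h1 h2 ha1 ha2 hN' hA'

theorem num_top {O : ℝ} (hk : 10 ^ 6 ≤ k) (hε0 : 0 < ε) (hε1 : ε ≤ 1)
    (hO : |O| ≤ δ * k) : (O + ε) + 16 / k * (O + ε) ^ 2 ≤ O + 32 * δ * |O| + 2 * ε := by
  have hk0 : 0 < k := by linarith
  have h1 : (O + ε) ^ 2 ≤ 2 * |O| ^ 2 + 2 * ε ^ 2 := by
    rw [sq_abs]
    nlinarith [sq_nonneg (O - ε)]
  have h2 : |O| ^ 2 ≤ δ * k * |O| := by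
    rw [sq]
    exact mul_le_mul_of_nonneg_right hO (abs_nonneg O)
  have h3 : 2 * ε ^ 2 ≤ 2 * (k / 32 * ε) := by
    have : ε * ε ≤ k / 32 * ε := mul_le_mul_of_nonneg_right (by linarith) hε0.le
    linarith
  have h4 : (O + ε) ^ 2 ≤ 2 * (δ * k * |O|) + 2 * (k / 32 * ε) := by linarith
  have h5 : 16 / k * (O + ε) ^ 2 ≤ 16 / k * (2 * (δ * k * |O|) + 2 * (k / 32 * ε)) :=
    mul_le_mul_of_nonneg_left h4 (by positivity)
  have h6 : 16 / k * (2 * (δ * k * |O|) + 2 * (k / 32 * ε)) = 32 * δ * |O| + ε := by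
    field_simp
    ring
  linarith

theorem uR_top (hS : Side k ra rb rm ℓ δ η ε r1 v F E z₁) {w : ℂ} {q : ℝ} (hw : |w.re| < ℓ)
    (h1 : ph2 / 2 < w.im) (h2 : w.im ≤ ph0) (hq1 : -(11 / 10 * k) ≤ q) (hq2 : q ≤ 3) :
    uR k rm F q w ≤ Om rm z₁ w + 32 * δ * |Om rm z₁ w| + 2 * ε := by
  have hk := hS.hk
  have hph : ph0 < Real.pi - ph2 / 2 := by
    unfold ph0 ph2
    linarith [Real.pi_gt_three]
  have hph2 : (0 : ℝ) < ph2 / 2 := by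
    unfold ph2
    norm_num
  have harg : arg (psiB rm w) = w.im :=
    arg_psi hS.rm0 (by linarith [Real.pi_pos]) (by linarith)
  obtain ⟨hm1, hm2⟩ := hS.mem hw
  have ha1 : ph2 / 2 < arg (psiB rm w) := by rw [harg]; exact h1
  have ha2 : arg (psiB rm w) ≤ ph0 := by rw [harg]; exact h2
  obtain ⟨hi1, hi2, -⟩ := near_im hS hm1 hm2 ha1 (ha2.trans_lt hph)
  have hE := ext_top hS hm1 hm2 ha1 ha2 hq1 hq2
  have hO : Om rm z₁ w = -(z₁ (psiB rm w)).im := rfl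
  have hOa : |Om rm z₁ w| ≤ δ * k := by
    rw [hO, abs_neg]
    exact hi1
  have hε0 := hS.ε0
  have hε1 := hS.ε1
  have hy : |Om rm z₁ w + ε| ≤ k / 32 := by
    refine (abs_add_le _ _).trans ?_
    rw [abs_of_pos hε0]
    linarith
  have hr : k / 16 + (z₁ (psiB rm w)).im - ε = k / 16 - (Om rm z₁ w + ε) := by
    rw [hO]
    ring
  rw [hr] at hE
  exact (uR_le hS.k0 hy hE).trans (num_top hk hε0 hε1 hOa)

theorem zpsi_an (hS : Side k ra rb rm ℓ δ η ε r1 v F E z₁) {w : ℂ} (hw : |w.re| < ℓ)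
    (h1 : ph2 / 2 < w.im) (h2 : w.im < Real.pi - ph2 / 2) :
    AnalyticAt ℂ (fun w => z₁ (psiB rm w)) w := by
  have hph2 : (0 : ℝ) < ph2 / 2 := by
    unfold ph2
    norm_num
  have harg : arg (psiB rm w) = w.im :=
    arg_psi hS.rm0 (by linarith [Real.pi_pos]) (by linarith)
  obtain ⟨hm1, hm2⟩ := hS.mem hw
  have h := hS.cor.an (psiB rm w) hm1 hm2 (by rw [harg]; exact h1) (by rw [harg]; exact h2)
  exact h.fun_comp (analyticAt_psi rm w)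

theorem Om_cont (hS : Side k ra rb rm ℓ δ η ε r1 v F E z₁) {w : ℂ} (hw : |w.re| < ℓ)
    (h1 : ph2 / 2 < w.im) (h2 : w.im < Real.pi - ph2 / 2) : ContinuousAt (Om rm z₁) w := by
  have h3 : ContinuousAt (fun w => z₁ (psiB rm w)) w := (zpsi_an hS hw h1 h2).continuousAt
  have h4 : ContinuousAt (fun w => (z₁ (psiB rm w)).im) w :=
    Complex.continuous_im.continuousAt.comp h3
  exact h4.neg

theorem ble_top (hS : Side k ra rb rm ℓ δ η ε r1 v F E z₁) {V : Set ℂ} {x q : ℝ}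
    (hV : ∀ w ∈ V, w.im ≤ ph0) (hx : |x| < ℓ) (hq1 : -(11 / 10 * k) ≤ q) (hq2 : q ≤ 3) :
    BLe V (uR k rm F q) (pt x ph0)
      (Om rm z₁ (pt x ph0) + 32 * δ * |Om rm z₁ (pt x ph0)| + 2 * ε) := by
  have hp1 : ph2 / 2 < ph0 := by
    unfold ph0 ph2
    norm_num
  have hph : ph0 < Real.pi - ph2 / 2 := by
    unfold ph0 ph2
    linarith [Real.pi_gt_three]
  have hc : ContinuousAt (Om rm z₁) (pt x ph0) := Om_cont hS (w := pt x ph0) hx hp1 hph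
  have hg : ContinuousAt (fun w => Om rm z₁ w + 32 * δ * |Om rm z₁ w| + 2 * ε) (pt x ph0) :=
    (hc.add (continuousAt_const.mul hc.abs)).add continuousAt_const
  intro e he
  have h1 : ∀ᶠ w in 𝓝 (pt x ph0), Om rm z₁ w + 32 * δ * |Om rm z₁ w| + 2 * ε <
      Om rm z₁ (pt x ph0) + 32 * δ * |Om rm z₁ (pt x ph0)| + 2 * ε + e :=
    hg.eventually_lt_const (by linarith)
  have h2 : ∀ᶠ w in 𝓝 (pt x ph0), |w.re| < ℓ :=
    (Complex.continuous_re.abs.continuousAt (x := pt x ph0)).eventually_lt_const hx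
  have h3 : ∀ᶠ w in 𝓝 (pt x ph0), ph2 / 2 < w.im :=
    (Complex.continuous_im.continuousAt (x := pt x ph0)).eventually_const_lt hp1
  filter_upwards [eventually_nhdsWithin_of_eventually_nhds h1,
    eventually_nhdsWithin_of_eventually_nhds h2, eventually_nhdsWithin_of_eventually_nhds h3,
    self_mem_nhdsWithin] with w e1 e2 e3 e4
  exact (uR_top hS e2 e3 (hV w e4) hq1 hq2).trans e1.le

end Pool.Agent.MP_ae5b4e_an_N4
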