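import Pool.Agent.Lib.MP_ae5b4e_an_N4.BE1
import Pool.Agent.Lib.MP_ae5b4e_an_N4.BTop
import Pool.Agent.Lib.MP_ae5b4e_an_N4.BRef

/-!
# N4, module BCov: the continuations `E` and `refE E'` between two phases of the lattice

`cov_top`: `Z := z₁ ρ`.  `disc`: `dist z (pt q (-y)) ≤ 1/16`: `(z - Z).im ≤ -y + 1/16 + 1/16 ≤ 1/8`; `|(z - Z).re - j| ≥ |q - Z.re - j| - 1/16 ≥ 1/8`;
`z.im ≥ -y - 1/16 ≥ -k/7`; `z.re ≤ 3 + 1/16 ≤ k/15`: `Adm k Z z`; `‖z‖ ≤ 4 k`; `hS.cor.mE`.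
`seg`: `(z - Z).im ≤ -y + 1/16 ≤ 1/8`, `|(z - Z).re - j| = |q - Z.re - j| ≥ 3/16`, `z.im ≥ -k/16 ≥ -k/7`, `z.re = q ≤ 3`; `‖z‖ ≤ 3 + k/16`.
`eq`: `tq k q` is a point of the segment, `Adm`; `hS.cor.eq` with `low_disc` (`z = tq k q`).

`cov_bot`: `cov_top` for the mirrored side `hB.s'` at `ρ' := conj ρ` (`arg (conj ρ) = -arg ρ`, `Complex.arg_conj`, `arg ρ ≠ π`;
`‖conj ρ‖ = ‖ρ‖`) and `-q`: the zero is `conj (z₁ (-conj (conj ρ))) = conj (z₁ (-ρ))`, with real part `(z₁ (-ρ)).re` and imaginary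
part `-(z₁ (-ρ)).im`; `|-q - (z₁ (-ρ)).re - j| = |q + (z₁ (-ρ)).re - (-j)| ≥ 3/16`.  It gives `Cov k (-q) y (mirE F) E' (conj ρ)`.
Reflect: `disc`, `seg` by `merAt_refE` (`-conj (pt q (-y)) = pt (-q) (-y)`, distances are preserved; `(-conj z).re = -z.re`,
`(-conj z).im = z.im`); `eq` by `eqM_refE` (`-conj (tq k q) = tq k (-q)`) and `eqM_neg_mir` at `(tq k q, ρ)` (`low_disc` for `hB.s`).
-/

set_option autoImplicit false

noncomputable section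

namespace Pool.Agent.MP_ae5b4e_an_N4

open Complex Set Filter Topology Metric InnerProductSpace
open Pool.Agent.MP_ae5b4e_an_NBT (St MerAt Mer EqM)
open Pool.Agent.Lib.MP_ae5b4e_an_LL (SubH ExtR prad mdom)
open scoped ComplexConjugate

variable {k ra rb rm ℓ δ η ε r1 q y : ℝ} {v : ℂ → ℝ} {F E E' : ℂ × ℂ → ℂ} {z₁ : ℂ → ℂ}

theorem cov_top (hS : Side k ra rb rm ℓ δ η ε r1 v F E z₁) {ρ : ℂ} (h1 : ra < ‖ρ‖)
    (h2 : ‖ρ‖ < rb) (ha1 : ph2 / 2 < arg ρ) (ha2 : arg ρ ≤ ph0) (hq : |q| ≤ 3) (hy0 : 0 < y)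
    (hy : y ≤ 1 / 16) (him : |(z₁ ρ).im| ≤ 1 / 16)
    (hre : ∀ j : ℤ, 3 / 16 ≤ |q - (z₁ ρ).re - j|) : Cov k q y F E ρ := by
  have hk := hS.hk
  have hph2 : (0 : ℝ) < ph2 / 2 := by
    unfold ph2
    norm_num
  have ha0 : 0 < arg ρ := hph2.trans ha1
  obtain ⟨hq1, hq2⟩ := abs_le.1 hq
  obtain ⟨hi1, hi2⟩ := abs_le.1 him
  have hn : ∀ z : ℂ, -4 ≤ z.re → z.re ≤ 4 → -(k / 16) ≤ z.im + 1 → z.im ≤ 1 → ‖z‖ ≤ 4 * k := by
    intro z c1 c2 c3 c4
    refine (Complex.norm_le_abs_re_add_abs_im z).trans ?_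
    have h3 : |z.re| ≤ 4 := abs_le.2 ⟨c1, c2⟩
    have h4 : |z.im| ≤ k := abs_le.2 ⟨by linarith, by linarith⟩
    linarith
  have hseg : ∀ z : ℂ, z.re = q → -(k / 16) ≤ z.im → z.im ≤ -y → Adm k (z₁ ρ) z ∧ ‖z‖ ≤ 4 * k := by
    intro z c1 c2 c3
    refine ⟨⟨by linarith, by linarith, Or.inr ⟨?_, fun j => ?_⟩⟩,
      hn z (by linarith) (by linarith) (by linarith) (by linarith)⟩
    · rw [Complex.sub_im]
      linarith
    · rw [Complex.sub_re, c1]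
      have := hre j
      linarith
  have hlow := low_disc hS (z := tq k q) h1 h2 (by rw [abs_of_pos ha0]; exact ha2)
    (by linarith) hq2 (Or.inr ha0.le) (by rw [dist_self]; linarith)
  refine ⟨fun z hz => ?_, fun z c1 c2 c3 => ?_, ?_⟩
  · rw [dist_eq_norm] at hz
    have h3 := abs_le.1 ((Complex.abs_re_le_norm _).trans hz)
    have h4 := abs_le.1 ((Complex.abs_im_le_norm _).trans hz)
    rw [Complex.sub_re, pt_re] at h3
    rw [Complex.sub_im, pt_im] at h4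
    obtain ⟨h5, h6⟩ := h3
    obtain ⟨h7, h8⟩ := h4
    refine hS.cor.mE z ρ h1 h2 ha1 ha2
      (hn z (by linarith) (by linarith) (by linarith) (by linarith)) ?_
    refine ⟨by linarith, by linarith, Or.inr ⟨?_, fun j => ?_⟩⟩
    · rw [Complex.sub_im]
      linarith
    · rw [Complex.sub_re]
      have h9 := hre j
      have h10 : |q - (z₁ ρ).re - j| ≤ |z.re - (z₁ ρ).re - j| + |z.re - q| := by
        have e : q - (z₁ ρ).re - j = (z.re - (z₁ ρ).re - j) - (z.re - q) := by ring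
        rw [e]
        exact abs_sub _ _
      have h11 : |z.re - q| ≤ 1 / 16 := abs_le.2 ⟨by linarith, by linarith⟩
      linarith
  · obtain ⟨hA, hN⟩ := hseg z c1 c2 c3
    exact hS.cor.mE z ρ h1 h2 ha1 ha2 hN hA
  · obtain ⟨hA, hN⟩ := hseg (tq k q) (tq_re k q) (by rw [tq_im]) (by rw [tq_im]; linarith)
    exact hS.cor.eq _ ρ h1 h2 ha1 ha2 hN hA hlow.2

theorem cov_bot (hB : Both k ra rb rm ℓ δ η ε r1 v F E E' z₁) {ρ : ℂ} (h1 : ra < ‖ρ‖)
    (h2 : ‖ρ‖ < rb) (ha1 : -ph0 ≤ arg ρ) (ha2 : arg ρ < -(ph2 / 2)) (hq : |q| ≤ 3) (hy0 : 0 < y)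
    (hy : y ≤ 1 / 16) (him : |(z₁ (-ρ)).im| ≤ 1 / 16)
    (hre : ∀ j : ℤ, 3 / 16 ≤ |q + (z₁ (-ρ)).re - j|) : Cov k q y F (refE E') ρ := by
  have hk := hB.s.hk
  have hph2 : (0 : ℝ) < ph2 / 2 := by
    unfold ph2
    norm_num
  have hneg : arg ρ < 0 := by linarith
  have harg : arg (conj ρ) = -arg ρ := by
    rw [Complex.arg_conj, if_neg]
    intro h
    rw [h] at hneg
    linarith [Real.pi_pos]
  obtain ⟨hq1, hq2⟩ := abs_le.1 hq
  have hnorm : ‖conj ρ‖ = ‖ρ‖ := RCLike.norm_conj ρ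
  have hc : Cov k (-q) y (mirE F) E' (conj ρ) := by
    refine cov_top hB.s' (by rw [hnorm]; exact h1) (by rw [hnorm]; exact h2)
      (by rw [harg]; linarith) (by rw [harg]; linarith) (by rw [abs_neg]; exact hq) hy0 hy ?_ ?_
    · simp only [Complex.conj_conj, Complex.conj_im, abs_neg]
      exact him
    · intro j
      simp only [Complex.conj_conj, Complex.conj_re]
      have h3 := hre (-j)
      have e : -q - (z₁ (-ρ)).re - (j:ℝ) = -(q + (z₁ (-ρ)).re - ((-j : ℤ) : ℝ)) := by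
        push_cast
        ring
      rw [e, abs_neg]
      exact h3
  refine ⟨fun z hz => merAt_refE (hc.disc _ ?_), fun z c1 c2 c3 => merAt_refE (hc.seg _ ?_ ?_ ?_),
    ?_⟩
  · rw [← neg_conj_pt]
    have e : dist (-conj z) (-conj (pt q (-y))) = dist z (pt q (-y)) := by
      rw [dist_neg_neg, Complex.dist_conj_conj]
    rw [e]
    exact hz
  · simp only [Complex.neg_re, Complex.conj_re, c1]
  · simpa using c2
  · simpa using c3
  · have h3 := hc.eq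
    rw [← neg_conj_tq] at h3
    have h4 : EqM (refE E') (refE (mirE F)) (tq k q, ρ) := eqM_refE h3
    have hlow := low_disc hB.s (z := tq k q) h1 h2 (by
      rw [abs_of_neg hneg]
      linarith) (by linarith) hq2 (Or.inl hq1) (by rw [dist_self]; linarith)
    exact h4.trans (eqM_neg_mir hB h1 h2 hlow.1 hlow.2)

end Pool.Agent.MP_ae5b4e_an_N4
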