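import Pool.Agent.Lib.MP_ae5b4e_an_N4.Itf
import Pool.Agent.Lib.MP_ae5b4e_an_LL.Rmer

/-!
# MP_ae5b4e_an, N4, part B: definitions and elementary facts

`ρ = psiB rm w = rm exp w`, `w = x + i θ`, `|x| < ℓ`.  `tq k q = q - i k / 16` are the centres,
`uR k rm F q w` is minus the logarithm of the radius of regularity about `tq k q`.
`Side` collects the hypotheses on one side, `Both` the hypotheses on both sides.
-/

set_option autoImplicit false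

noncomputable section

namespace Pool.Agent.MP_ae5b4e_an_N4

open Complex Set Filter Topology Metric InnerProductSpace
open Pool.Agent.MP_ae5b4e_an_NBT (St MerAt Mer EqM)
open Pool.Agent.Lib.MP_ae5b4e_an_LL (SubH ExtR prad)
open scoped ComplexConjugate

/-- the parameter -/
def psiB (rm : ℝ) (w : ℂ) : ℂ := (rm:ℂ) * cexp w

/-- the centre `q - i k / 16` -/
def tq (k q : ℝ) : ℂ := pt q (-(k / 16))

/-- minus the logarithm of the radius of regularity about `tq k q` -/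
def uR (k rm : ℝ) (F : ℂ × ℂ → ℂ) (q : ℝ) (w : ℂ) : ℝ :=
  -(k / 16) * Real.log (prad (ExtR F (tq k q)) (k / 8) (psiB rm w) / (k / 16))

/-- the hypotheses on one side -/
structure Side (k ra rb rm ℓ δ η ε r1 : ℝ) (v : ℂ → ℝ) (F E : ℂ × ℂ → ℂ) (z₁ : ℂ → ℂ) :
    Prop where
  hk : 10 ^ 6 ≤ k
  rm0 : 0 < rm
  hℓ : 0 < ℓ
  hra : ra = rm * Real.exp (-ℓ)
  hrb : rb = rm * Real.exp ℓ
  δ0 : 0 ≤ δ
  δ1 : δ ≤ 1 / 1000
  η0 : 0 ≤ η
  η1 : η ≤ 1 / 100000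
  ε0 : 0 < ε
  ε1 : ε ≤ 1
  ek : Real.exp (-k) ≤ ε
  hr1 : r1 ≤ ε
  usc : UpperSemicontinuousOn v {ρ | ra < ‖ρ‖ ∧ ‖ρ‖ < rb}
  pos : ∀ c : ℝ, ra < c → c < rb → 0 ≤ v c
  con : ∀ ρ : ℂ, ra < ‖ρ‖ → ‖ρ‖ < rb → v ρ ≤ k * ((1 + η) * |ρ.im| + η * ‖ρ‖)
  cor : Cor k ra rb δ r1 v F E z₁

/-- the hypotheses on both sides -/
structure Both (k ra rb rm ℓ δ η ε r1 : ℝ) (v : ℂ → ℝ) (F E E' : ℂ × ℂ → ℂ) (z₁ : ℂ → ℂ) :
    Prop where
  s : Side k ra rb rm ℓ δ η ε r1 v F E z₁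
  s' : Side k ra rb rm ℓ δ η ε r1 (fun ρ => v (-conj ρ)) (mirE F) E' (fun ρ => conj (z₁ (-conj ρ)))
  sub : SubH v {ρ | ra < ‖ρ‖ ∧ ‖ρ‖ < rb}
  vev : ∀ ρ : ℂ, ra < ‖ρ‖ → ‖ρ‖ < rb → v (-ρ) = v ρ
  ev : ∀ z ρ : ℂ, ra < ‖ρ‖ → ‖ρ‖ < rb → ‖z‖ ≤ 4 * k → (ρ * z).im < -v ρ →
    EqM F (fun p => F (-p.1, -p.2)) (z, ρ)
  gp : ∀ c q : ℝ, ra < c → c < rb → Irrational c → |q| ≤ 2 → ¬ (RegZ v F c q ∧ RegZ v F c (q - 1))

/-- the reflection `(z, ρ) ↦ (- conj z, conj ρ)` -/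
def refE (X : ℂ × ℂ → ℂ) (p : ℂ × ℂ) : ℂ := conj (X (-conj p.1, conj p.2))

/-! ### Elementary facts -/

@[simp] theorem pt_re (x y : ℝ) : (pt x y).re = x := rfl

@[simp] theorem pt_im (x y : ℝ) : (pt x y).im = y := rfl

theorem pt_eq (z : ℂ) : pt z.re z.im = z := rfl

theorem continuous_pt : Continuous fun p : ℝ × ℝ => pt p.1 p.2 := by
  have : (fun p : ℝ × ℝ => pt p.1 p.2) = fun p : ℝ × ℝ => (p.1:ℂ) + (p.2:ℂ) * I := by
    funext p
    apply Complex.ext <;> simp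
  rw [this]
  fun_prop

@[simp] theorem tq_re (k q : ℝ) : (tq k q).re = q := rfl

@[simp] theorem tq_im (k q : ℝ) : (tq k q).im = -(k / 16) := rfl

theorem neg_conj_tq (k q : ℝ) : -conj (tq k q) = tq k (-q) := by
  apply Complex.ext <;> simp

theorem neg_conj_pt (x y : ℝ) : -conj (pt x y) = pt (-x) y := by
  apply Complex.ext <;> simp

theorem norm_psi {rm : ℝ} (h : 0 < rm) (w : ℂ) : ‖psiB rm w‖ = rm * Real.exp w.re := by
  unfold psiB
  rw [norm_mul, Complex.norm_real, Real.norm_of_nonneg h.le, Complex.norm_exp]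

theorem psi_re {rm : ℝ} (w : ℂ) : (psiB rm w).re = rm * (Real.exp w.re * Real.cos w.im) := by
  unfold psiB
  rw [Complex.re_ofReal_mul, Complex.exp_re]

theorem psi_im {rm : ℝ} (w : ℂ) : (psiB rm w).im = rm * (Real.exp w.re * Real.sin w.im) := by
  unfold psiB
  rw [Complex.im_ofReal_mul, Complex.exp_im]

theorem psi_ne {rm : ℝ} (h : 0 < rm) (w : ℂ) : psiB rm w ≠ 0 :=
  mul_ne_zero (by exact_mod_cast h.ne') (Complex.exp_ne_zero _)

theorem arg_psi {rm : ℝ} (h : 0 < rm) {w : ℂ} (h1 : -Real.pi < w.im) (h2 : w.im ≤ Real.pi) :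
    arg (psiB rm w) = w.im := by
  have h3 : psiB rm w = ((rm * Real.exp w.re : ℝ) : ℂ) * (Complex.cos (w.im:ℂ) +
      Complex.sin (w.im:ℂ) * I) := by
    unfold psiB
    conv_lhs => rw [← Complex.re_add_im w, Complex.exp_add, Complex.exp_mul_I]
    push_cast
    ring
  rw [h3]
  exact Complex.arg_mul_cos_add_sin_mul_I (mul_pos h (Real.exp_pos _)) ⟨h1, h2⟩

theorem analyticAt_psi (rm : ℝ) (w : ℂ) : AnalyticAt ℂ (psiB rm) w :=
  analyticAt_const.mul analyticAt_cexp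

theorem continuous_psi (rm : ℝ) : Continuous (psiB rm) :=
  continuous_const.mul Complex.continuous_exp

theorem psi_real (rm x : ℝ) : psiB rm (pt x 0) = ((rm * Real.exp x : ℝ) : ℂ) := by
  have h : pt x 0 = (x:ℂ) := by
    apply Complex.ext <;> simp
  unfold psiB
  rw [h]
  push_cast
  ring

theorem conj_psi (rm : ℝ) (w : ℂ) : conj (psiB rm w) = psiB rm (conj w) := by
  unfold psiB
  rw [map_mul, Complex.conj_ofReal, Complex.exp_conj]

theorem neg_psi (rm x y : ℝ) : -psiB rm (pt x y) = psiB rm (pt x (Real.pi + y)) := by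
  apply Complex.ext
  · rw [Complex.neg_re, psi_re, psi_re]
    simp only [pt_re, pt_im]
    rw [add_comm Real.pi y, Real.cos_add_pi]
    ring
  · rw [Complex.neg_im, psi_im, psi_im]
    simp only [pt_re, pt_im]
    rw [add_comm Real.pi y, Real.sin_add_pi]
    ring

theorem neg_conj_psi (rm x y : ℝ) : -conj (psiB rm (pt x y)) = psiB rm (pt x (Real.pi - y)) := by
  have h : conj (pt x y) = pt x (-y) := by
    apply Complex.ext <;> simp
  rw [conj_psi, h, neg_psi, sub_eq_add_neg]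

theorem Om_eq (rm : ℝ) (z₁ : ℂ → ℂ) (w : ℂ) : Om rm z₁ w = -(z₁ (psiB rm w)).im := rfl

/-- the angular coordinate of the mirror image -/
theorem Om_mir (rm : ℝ) (z₁ : ℂ → ℂ) (x y : ℝ) :
    Om rm (fun ρ => conj (z₁ (-conj ρ))) (pt x y) = -Om rm z₁ (pt x (Real.pi - y)) := by
  rw [Om_eq, Om_eq, neg_conj_psi, Complex.conj_im]

theorem refE_mirE (F : ℂ × ℂ → ℂ) : refE (mirE F) = fun p => F (-p.1, -p.2) := by
  funext p
  simp [refE, mirE]

namespace Side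

variable {k ra rb rm ℓ δ η ε r1 : ℝ} {v : ℂ → ℝ} {F E : ℂ × ℂ → ℂ} {z₁ : ℂ → ℂ}

theorem k0 (hS : Side k ra rb rm ℓ δ η ε r1 v F E z₁) : 0 < k := by
  have := hS.hk
  linarith

theorem ra0 (hS : Side k ra rb rm ℓ δ η ε r1 v F E z₁) : 0 < ra := by
  rw [hS.hra]
  exact mul_pos hS.rm0 (Real.exp_pos _)

/-- `psiB rm w` is in the annulus -/
theorem mem (hS : Side k ra rb rm ℓ δ η ε r1 v F E z₁) {w : ℂ} (h : |w.re| < ℓ) :
    ra < ‖psiB rm w‖ ∧ ‖psiB rm w‖ < rb := by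
  rw [norm_psi hS.rm0, hS.hra, hS.hrb]
  obtain ⟨h1, h2⟩ := abs_lt.1 h
  exact ⟨mul_lt_mul_of_pos_left (Real.exp_lt_exp.2 h1) hS.rm0,
    mul_lt_mul_of_pos_left (Real.exp_lt_exp.2 h2) hS.rm0⟩

/-- the real points -/
theorem memR (hS : Side k ra rb rm ℓ δ η ε r1 v F E z₁) {x : ℝ} (h : |x| < ℓ) :
    ra < rm * Real.exp x ∧ rm * Real.exp x < rb := by
  have h1 := hS.mem (w := pt x 0) h
  rw [norm_psi hS.rm0] at h1
  exact h1

end Side

theorem isOpen_ann (ra rb : ℝ) : IsOpen {ρ : ℂ | ra < ‖ρ‖ ∧ ‖ρ‖ < rb} :=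
  (isOpen_lt continuous_const continuous_norm).inter (isOpen_lt continuous_norm continuous_const)

end Pool.Agent.MP_ae5b4e_an_N4
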