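import Pool.Agent.Lib.MP_ae5b4e_an_N4.BGeo

/-!
# N4, module BE1: the maximal extension about `tq k q`

`E1`, `h1`, `h2` are given by `exists_mext F (tq k q)` (LL/Rmer.lean); `mdom F t₁ = {p | ∃ s, dist p.1 t₁ < s ∧ ExtR F t₁ s p.2}`.
`Rc 2 (-ph0) ph0 ⊆ Rc ℓ (-ph0) ph0` as `2 < ℓ`; `ext_low_w` gives `h0` of `ext_of_uR_lt`.
`e1_mem`: choose `m` with `κ < m` and `dist z (tq k q) < k/16 - m`; `uR ≤ κ < m`, so `ext_of_uR_lt` gives `s > k/16 - m > dist z (tq k q)`.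
`e1_eq`: `ρ := psiB rm w`; `eqM_convex` (BExt.lean) with `C := ball (tq k q) (k/16 - κ) ∩ {z | (ρ z).im < -v ρ}` (convex), `z₀ := tq k q`
(`low_disc`; `arg ρ = w.im`), `MerAt E1` from `h1` and `e1_mem`, `MerAt F` from `hS.cor.mer` (`‖z‖ ≤ |q| + k/16 + k/16 ≤ 4 k`),
`EqM E1 F (tq k q, ρ)` from `h2` and `e1_mem` (`0 < k/16 - κ`).
`e1_small`: `ext_of_mer` with `G := E1` (`EqM.refl`): `z ∈ closedBall (pt q (-(2κ))) (κ/2)` has
`dist z (tq k q) ≤ k/16 - 2κ + κ/2 < k/16 - κ`.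
`e1_cov`: `ext_of_mer` with `G := X`, `s := 1/16` (`hc.disc`); `EqM X E1 (pt q (-y), ρ)`: `eqM_convex` with
`C := {z | z.re = q ∧ -(k/16) ≤ z.im ∧ z.im ≤ -y}` (convex), `z₀ := tq k q`; `MerAt X` from `hc.seg`, `MerAt E1` from `e1_mem`
(`dist z (tq k q) = z.im + k/16 ≤ k/16 - y < k/16 - κ`); at `z₀`: `hc.eq` and `h2`; the point `pt q (-y)` is in `C`.
-/

set_option autoImplicit false

noncomputable section

namespace Pool.Agent.MP_ae5b4e_an_N4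

open Complex Set Filter Topology Metric InnerProductSpace
open Pool.Agent.MP_ae5b4e_an_NBT (St MerAt Mer EqM)
open Pool.Agent.Lib.MP_ae5b4e_an_LL (SubH ExtR prad mdom)
open scoped ComplexConjugate

/-- `X` is a continuation of `F` down to the segment and the small disc -/
structure Cov (k q y : ℝ) (F X : ℂ × ℂ → ℂ) (ρ : ℂ) : Prop where
  disc : ∀ z : ℂ, dist z (pt q (-y)) ≤ 1 / 16 → MerAt X (z, ρ)
  seg : ∀ z : ℂ, z.re = q → -(k / 16) ≤ z.im → z.im ≤ -y → MerAt X (z, ρ)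
  eq : EqM X F (tq k q, ρ)

variable {k ra rb rm ℓ δ η ε r1 κ q y : ℝ} {v : ℂ → ℝ} {F E E1 X : ℂ × ℂ → ℂ} {z₁ : ℂ → ℂ}

private theorem BE1_dist {q a : ℝ} {z : ℂ} (h : z.re = q) : dist z (pt q a) = |z.im - a| := by
  have h1 : z = pt q z.im := Complex.ext h rfl
  rw [dist_eq_norm]
  have h2 : z - pt q a = ((z.im - a : ℝ) : ℂ) * I := by
    apply Complex.ext
    · simp [h]
    · simp
  rw [h2, norm_mul, Complex.norm_I, mul_one, Complex.norm_real, Real.norm_eq_abs]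

private theorem BE1_lt (hS : Side k ra rb rm ℓ δ η ε r1 v F E z₁) (hℓ : 2 < ℓ) {w : ℂ}
    (hw : w ∈ Rc 2 (-ph0) ph0) : |w.re| < ℓ ∧ |arg (psiB rm w)| ≤ ph0 := by
  obtain ⟨h1, h2, h3⟩ := hw
  refine ⟨h1.trans hℓ, ?_⟩
  have h4 : ph0 < Real.pi := by
    unfold ph0
    linarith [Real.pi_gt_three]
  rw [arg_psi hS.rm0 (by linarith) (by linarith)]
  exact abs_le.2 ⟨h2.le, h3.le⟩

theorem e1_mem (hS : Side k ra rb rm ℓ δ η ε r1 v F E z₁) (hℓ : 2 < ℓ) (hq : |q| ≤ 3)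
    (hu : ∀ w ∈ Rc 2 (-ph0) ph0, uR k rm F q w ≤ κ) {w z : ℂ} (hw : w ∈ Rc 2 (-ph0) ph0)
    (hz : dist z (tq k q) < k / 16 - κ) : (z, psiB rm w) ∈ mdom F (tq k q) := by
  have hw' : w ∈ Rc ℓ (-ph0) ph0 := ⟨hw.1.trans hℓ, hw.2⟩
  have h0 := ext_low_w hS hw' hq
  have hk := hS.k0
  obtain ⟨m, hm1, hm2⟩ := exists_between (show κ < k / 16 - dist z (tq k q) by linarith)
  obtain ⟨s, hs1, hs2⟩ := ext_of_uR_lt hk ⟨k / 32, by linarith, h0⟩ ((hu w hw).trans_lt hm1)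
  exact ⟨s, by change dist z (tq k q) < s; linarith, hs2⟩

theorem e1_eq (hS : Side k ra rb rm ℓ δ η ε r1 v F E z₁) (hℓ : 2 < ℓ) (hq : |q| ≤ 3)
    (hκ0 : 0 < κ) (hκ : κ ≤ 1 / 10 ^ 4)
    (hu : ∀ w ∈ Rc 2 (-ph0) ph0, uR k rm F q w ≤ κ) (h1 : Mer E1 (mdom F (tq k q)))
    (h2 : ∀ η, (tq k q, η) ∈ mdom F (tq k q) → EqM E1 F (tq k q, η))
    {w z : ℂ} (hw : w ∈ Rc 2 (-ph0) ph0) (hz : dist z (tq k q) < k / 16 - κ)
    (hv : (psiB rm w * z).im < -v (psiB rm w)) : EqM E1 F (z, psiB rm w) := by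
  have hk := hS.hk
  obtain ⟨hl, ha⟩ := BE1_lt hS hℓ hw
  obtain ⟨hm1, hm2⟩ := hS.mem hl
  obtain ⟨hq1, hq2⟩ := abs_le.1 hq
  have hc : dist (tq k q) (tq k q) < k / 16 - κ := by
    rw [dist_self]
    linarith
  have hlow := (low_disc hS (z := tq k q) hm1 hm2 ha (by linarith) hq2 (Or.inl hq1)
    (by rw [dist_self]; linarith)).2
  have hlin : IsLinearMap ℝ (fun z : ℂ => (psiB rm w * z).im) := by
    refine ⟨fun x y => ?_, fun c x => ?_⟩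
    · rw [mul_add, Complex.add_im]
    · rw [mul_smul_comm, Complex.smul_im]
  have hcv : Convex ℝ (ball (tq k q) (k / 16 - κ) ∩
      {z : ℂ | (psiB rm w * z).im < -v (psiB rm w)}) :=
    (convex_ball _ _).inter (convex_halfSpace_lt hlin _)
  refine eqM_convex hcv (z₀ := tq k q) ⟨hc, hlow⟩ (fun x hx => h1 _ (e1_mem hS hℓ hq hu hw hx.1))
    (fun x hx => ?_) (h2 _ (e1_mem hS hℓ hq hu hw hc)) z ⟨hz, hv⟩
  refine hS.cor.mer x _ hm1 hm2 ?_ hx.2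
  have h3 : dist x (tq k q) < k / 16 - κ := hx.1
  have h4 : ‖x‖ ≤ ‖x - tq k q‖ + ‖tq k q‖ := by
    have h5 : x = (x - tq k q) + tq k q := by ring
    calc ‖x‖ = ‖(x - tq k q) + tq k q‖ := by rw [← h5]
      _ ≤ _ := norm_add_le _ _
  have h6 : ‖tq k q‖ ≤ |q| + |-(k / 16)| := Complex.norm_le_abs_re_add_abs_im _
  rw [abs_neg, abs_of_pos (show 0 < k / 16 by linarith)] at h6
  rw [dist_eq_norm] at h3
  linarith

theorem e1_small (hS : Side k ra rb rm ℓ δ η ε r1 v F E z₁) (hℓ : 2 < ℓ) (hq : |q| ≤ 3)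
    (hκ0 : 0 < κ) (hκ : κ ≤ 1 / 10 ^ 4)
    (hu : ∀ w ∈ Rc 2 (-ph0) ph0, uR k rm F q w ≤ κ) (h1 : Mer E1 (mdom F (tq k q)))
    {w : ℂ} (hw : w ∈ Rc 2 (-ph0) ph0) : ExtR E1 (pt q (-(2 * κ))) (κ / 2) (psiB rm w) := by
  have hk := hS.hk
  refine ext_of_mer (G := E1) (fun z hz => h1 _ (e1_mem hS hℓ hq hu hw ?_)) (EqM.refl _ _)
  have h3 := mem_closedBall.1 hz
  have h4 := dist_triangle z (pt q (-(2 * κ))) (tq k q)
  have h5 : dist (pt q (-(2 * κ))) (tq k q) = |-(2 * κ) - -(k / 16)| := BE1_dist rfl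
  rw [abs_of_nonneg (by linarith)] at h5
  linarith

theorem e1_cov (hS : Side k ra rb rm ℓ δ η ε r1 v F E z₁) (hℓ : 2 < ℓ) (hq : |q| ≤ 3)
    (hκ0 : 0 < κ) (hκ : κ ≤ 1 / 10 ^ 4)
    (hu : ∀ w ∈ Rc 2 (-ph0) ph0, uR k rm F q w ≤ κ) (h1 : Mer E1 (mdom F (tq k q)))
    (h2 : ∀ η, (tq k q, η) ∈ mdom F (tq k q) → EqM E1 F (tq k q, η))
    {w : ℂ} (hw : w ∈ Rc 2 (-ph0) ph0) (hy : κ < y) (hy1 : y ≤ 1 / 16)
    (hc : Cov k q y F X (psiB rm w)) : ExtR E1 (pt q (-y)) (1 / 16) (psiB rm w) := by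
  have hk := hS.hk
  refine ext_of_mer (G := X) (fun z hz => hc.disc z (mem_closedBall.1 hz)) ?_
  have hcv : Convex ℝ {z : ℂ | z.re = q ∧ -(k / 16) ≤ z.im ∧ z.im ≤ -y} := by
    have hre : IsLinearMap ℝ Complex.re := ⟨Complex.add_re, fun c x => by simp⟩
    have him : IsLinearMap ℝ Complex.im := ⟨Complex.add_im, fun c x => by simp⟩
    exact (convex_hyperplane hre q).inter ((convex_halfSpace_ge him _).inter
      (convex_halfSpace_le him _))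
  have hd : ∀ z : ℂ, z.re = q → -(k / 16) ≤ z.im → z.im ≤ -y →
      dist z (tq k q) < k / 16 - κ := by
    intro z hz1 hz2 hz3
    have h3 : dist z (tq k q) = |z.im - -(k / 16)| := BE1_dist hz1
    rw [h3, abs_of_nonneg (by linarith)]
    linarith
  have hm : (tq k q, psiB rm w) ∈ mdom F (tq k q) :=
    e1_mem hS hℓ hq hu hw (hd _ rfl le_rfl (by rw [tq_im]; linarith))
  exact eqM_convex hcv (z₀ := tq k q) ⟨rfl, le_rfl, by rw [tq_im]; linarith⟩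
    (fun z hz => hc.seg z hz.1 hz.2.1 hz.2.2)
    (fun z hz => h1 _ (e1_mem hS hℓ hq hu hw (hd z hz.1 hz.2.1 hz.2.2)))
    (hc.eq.trans (h2 _ hm).symm) (pt q (-y)) ⟨rfl, by rw [pt_im]; linarith, le_rfl⟩

end Pool.Agent.MP_ae5b4e_an_N4
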