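import Pool.Agent.Lib.MP_ae5b4e_an_N4.BTop

/-!
# N4, module BQ: the choice of `q`, the variation of the real part of the zero

`exists_q`: put `D t := |t - round t|` (distance to the integers; `D t ≤ |t - j|` for all integers `j`: `round_le`),
`D (t + n) = D t`.  One of `q₀ = a + 1/4`, `q₀ = a + 3/4` satisfies both: `D (q₀ - a) = 1/4` for both; with `s := a + 1/4 - b`,
`|s - j| ≥ 1/4` for all `j`, or there is `j₀` with `|s - j₀| < 1/4` and then `|s + 1/2 - j| ≥ 1/4` for all `j`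
(`s + 1/2 - j = (s - j₀) + (1/2 + j₀ - j)`, `|1/2 + j₀ - j| ≥ 1/2`).  Then `q := Int.fract q₀`.

`im_deriv`: `g z := -I (f (w₀ + z) - f w₀)` is differentiable on `ball 0 R`, `(g z).re = (f (w₀+z) - f w₀).im ≤ 2 κ`, `g 0 = 0`:
`Complex.borelCaratheodory_zero` with `M := 2 κ`: `‖g z‖ ≤ 4 κ ‖z‖/(R - ‖z‖) = 4 κ` for `‖z‖ = R/2`;
`Complex.norm_deriv_le_of_forall_mem_sphere_norm_le` with radius `R/2`: `‖f' w₀‖ ≤ 8 κ/R`.

`re_var`: `f := z₁ ∘ psiB rm`.  For `w₀ = pt x' θ`, `|x'| ≤ 1/4`, `θ = ph0` or `π - ph0`, the ball `ball w₀ (7/800)` is in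
`{|Re| ≤ 2, ph1 ≤ Im ≤ π - ph1}` (`ph0 - 7/800 = ph1`, `π > 3`), where `f` is analytic (`zpsi_an`) and `|(f w).im| = |Om rm z₁ w| ≤ κ`.
`im_deriv`: `‖f' w₀‖ ≤ 8 κ 800/7 ≤ 915 κ ≤ .0915`; mean value inequality on the horizontal segment from `pt 0 θ` to `pt x θ`
(`Convex.norm_image_sub_le_of_norm_deriv_le` on the convex set `{w | |w.re| ≤ 1/4 ∧ w.im = θ}`, or for
`t ↦ f (pt t θ)`): `‖f (pt x θ) - f (pt 0 θ)‖ ≤ .0915/4 ≤ 1/40`.
-/

set_option autoImplicit false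

noncomputable section

namespace Pool.Agent.MP_ae5b4e_an_N4

open Complex Set Filter Topology Metric InnerProductSpace
open Pool.Agent.MP_ae5b4e_an_NBT (St MerAt Mer EqM)
open Pool.Agent.Lib.MP_ae5b4e_an_LL (SubH ExtR prad mdom)
open scoped ComplexConjugate

private theorem BQ_int (j : ℤ) : (1 : ℝ) / 4 ≤ |1 / 4 - (j : ℝ)| ∧ (1 : ℝ) / 4 ≤ |3 / 4 - (j : ℝ)| ∧
    (1 : ℝ) / 2 ≤ |1 / 2 - (j : ℝ)| := by
  rcases le_or_gt j 0 with h | h
  · have h1 : (j : ℝ) ≤ 0 := by exact_mod_cast h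
    refine ⟨?_, ?_, ?_⟩ <;> rw [abs_of_nonneg (by linarith)] <;> linarith
  · have h1 : (1 : ℝ) ≤ j := by exact_mod_cast h
    refine ⟨?_, ?_, ?_⟩ <;> rw [abs_of_nonpos (by linarith)] <;> linarith

private theorem BQ_fract {q₀ a : ℝ} (h : ∀ j : ℤ, 1 / 4 ≤ |q₀ - a - j|) (j : ℤ) :
    1 / 4 ≤ |Int.fract q₀ - a - j| := by
  have h1 := h (⌊q₀⌋ + j)
  have h2 : Int.fract q₀ - a - j = q₀ - a - ((⌊q₀⌋ + j : ℤ) : ℝ) := by
    have h3 := Int.self_sub_floor q₀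
    rw [← h3]
    push_cast
    ring
  rwa [h2]

theorem exists_q (a b : ℝ) : ∃ q : ℝ, 0 ≤ q ∧ q ≤ 1 ∧ (∀ j : ℤ, 1 / 4 ≤ |q - a - j|) ∧
    ∀ j : ℤ, 1 / 4 ≤ |q - b - j| := by
  by_cases hs : ∀ j : ℤ, 1 / 4 ≤ |a + 1 / 4 - b - j|
  · refine ⟨Int.fract (a + 1 / 4), Int.fract_nonneg _, (Int.fract_lt_one _).le,
      BQ_fract fun j => ?_, BQ_fract hs⟩
    have h1 := (BQ_int j).1
    have h2 : a + 1 / 4 - a - j = 1 / 4 - (j : ℝ) := by ring
    rwa [h2]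
  · push Not at hs
    obtain ⟨j₀, hj₀⟩ := hs
    refine ⟨Int.fract (a + 3 / 4), Int.fract_nonneg _, (Int.fract_lt_one _).le,
      BQ_fract fun j => ?_, BQ_fract fun j => ?_⟩
    · have h1 := (BQ_int j).2.1
      have h2 : a + 3 / 4 - a - j = 3 / 4 - (j : ℝ) := by ring
      rwa [h2]
    · have h1 := (BQ_int (j - j₀)).2.2
      push_cast at h1
      have h2 : (1 : ℝ) / 2 - (j - j₀) = (a + 3 / 4 - b - j) - (a + 1 / 4 - b - j₀) := by ring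
      rw [h2] at h1
      have h3 := abs_sub (a + 3 / 4 - b - j) (a + 1 / 4 - b - j₀)
      linarith

theorem im_deriv {f : ℂ → ℂ} {w₀ : ℂ} {R κ : ℝ} (hR : 0 < R) (hκ : 0 < κ)
    (hf : DifferentiableOn ℂ f (ball w₀ R)) (h : ∀ w ∈ ball w₀ R, |(f w).im| ≤ κ) :
    ‖deriv f w₀‖ ≤ 8 * κ / R := by
  obtain ⟨g, hg⟩ : ∃ g : ℂ → ℂ, g = fun z => -I * (f (w₀ + z) - f w₀) := ⟨_, rfl⟩
  have hin : ∀ z ∈ ball (0 : ℂ) R, w₀ + z ∈ ball w₀ R := by
    intro z hz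
    rw [mem_ball_zero_iff] at hz
    rw [mem_ball, dist_eq_norm, add_sub_cancel_left]
    exact hz
  have hw₀ : w₀ ∈ ball w₀ R := mem_ball_self hR
  have hgd : DifferentiableOn ℂ g (ball 0 R) := by
    rw [hg]
    intro z hz
    have h1 : DifferentiableAt ℂ f (w₀ + z) :=
      (hf _ (hin z hz)).differentiableAt (isOpen_ball.mem_nhds (hin z hz))
    have h2 : DifferentiableAt ℂ (fun z => f (w₀ + z)) z :=
      DifferentiableAt.fun_comp' z h1 (differentiableAt_id.const_add w₀)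
    exact ((h2.sub_const (f w₀)).const_mul (-I)).differentiableWithinAt
  have hgre : MapsTo g (ball 0 R) {z | z.re ≤ 2 * κ} := by
    intro z hz
    have h1 := (abs_le.1 (h _ (hin z hz))).2
    have h2 := (abs_le.1 (h _ hw₀)).1
    have h3 : (g z).re = (f (w₀ + z)).im - (f w₀).im := by
      rw [hg]
      simp
    change (g z).re ≤ 2 * κ
    rw [h3]
    linarith
  have hg0 : g 0 = 0 := by
    rw [hg]
    simp
  have hbd : ∀ z ∈ sphere w₀ (R / 2), ‖f z - f w₀‖ ≤ 4 * κ := by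
    intro z hz
    have h1 : ‖z - w₀‖ = R / 2 := by rwa [mem_sphere, dist_eq_norm] at hz
    have h2 : z - w₀ ∈ ball (0 : ℂ) R := by
      rw [mem_ball_zero_iff, h1]
      linarith
    have h3 := Complex.borelCaratheodory_zero (by linarith : 0 < 2 * κ) hgd hgre hR h2 hg0
    have h4 : ‖g (z - w₀)‖ = ‖f z - f w₀‖ := by
      rw [hg]
      simp
    rw [h4, h1] at h3
    refine h3.trans (le_of_eq ?_)
    have h5 : R - R / 2 ≠ 0 := by
      have : 0 < R - R / 2 := by linarith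
      exact this.ne'
    field_simp
    ring
  have hcl : DiffContOnCl ℂ (fun z => f z - f w₀) (ball w₀ (R / 2)) :=
    (hf.sub_const (f w₀)).diffContOnCl_ball (closedBall_subset_ball (by linarith))
  have h6 := Complex.norm_deriv_le_of_forall_mem_sphere_norm_le (by linarith : 0 < R / 2) hcl hbd
  rw [deriv_sub_const] at h6
  refine h6.trans (le_of_eq ?_)
  field_simp
  ring

variable {k ra rb rm ℓ δ η ε r1 : ℝ} {v : ℂ → ℝ} {F E : ℂ × ℂ → ℂ} {z₁ : ℂ → ℂ}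

theorem re_var (hS : Side k ra rb rm ℓ δ η ε r1 v F E z₁) (hℓ : 2 < ℓ) {κ : ℝ} (hκ0 : 0 < κ)
    (hκ : κ ≤ 1 / 10 ^ 4)
    (hΩ : ∀ w : ℂ, |w.re| ≤ 2 → ph1 ≤ w.im → w.im ≤ Real.pi - ph1 → |Om rm z₁ w| ≤ κ)
    {x θ : ℝ} (hx : |x| ≤ 1 / 4) (hθ : θ = ph0 ∨ θ = Real.pi - ph0) :
    |(z₁ (psiB rm (pt x θ))).re - (z₁ (psiB rm (pt 0 θ))).re| ≤ 1 / 40 := by
  obtain ⟨f, hf⟩ : ∃ f : ℂ → ℂ, f = fun w => z₁ (psiB rm w) := ⟨_, rfl⟩
  have hpi := Real.pi_gt_three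
  have hp1 : ph1 = 1 / 800 := rfl
  have hp2 : ph2 = 1 / 1600 := rfl
  have hp0 : ph0 = 1 / 100 := rfl
  have han : ∀ w : ℂ, |w.re| ≤ 2 → ph1 ≤ w.im → w.im ≤ Real.pi - ph1 → AnalyticAt ℂ f w := by
    intro w h1 h2 h3
    rw [hf]
    exact zpsi_an hS (by linarith) (by linarith) (by linarith)
  have him : ∀ w : ℂ, |w.re| ≤ 2 → ph1 ≤ w.im → w.im ≤ Real.pi - ph1 → |(f w).im| ≤ κ := by
    intro w h1 h2 h3
    have h4 := hΩ w h1 h2 h3
    rw [Om_eq, abs_neg] at h4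
    rw [hf]
    exact h4
  obtain ⟨s, hs⟩ : ∃ s : Set ℂ, s = {w | |w.re| ≤ 1 / 4 ∧ w.im = θ} := ⟨_, rfl⟩
  have hball : ∀ w₀ ∈ s, ∀ w ∈ ball w₀ (7 / 800), |w.re| ≤ 2 ∧ ph1 ≤ w.im ∧
      w.im ≤ Real.pi - ph1 := by
    intro w₀ hw₀ w hw
    rw [hs] at hw₀
    obtain ⟨h1, h2⟩ := hw₀
    rw [mem_ball, dist_eq_norm] at hw
    have h3 := abs_le.1 ((Complex.abs_re_le_norm (w - w₀)).trans hw.le)
    have h4 := abs_le.1 ((Complex.abs_im_le_norm (w - w₀)).trans hw.le)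
    rw [Complex.sub_re] at h3
    rw [Complex.sub_im, h2] at h4
    obtain ⟨h5, h6⟩ := abs_le.1 h1
    refine ⟨abs_le.2 ⟨by linarith, by linarith⟩, ?_, ?_⟩
    · rcases hθ with h7 | h7 <;> rw [h7] at h4 <;> linarith [h4.1]
    · rcases hθ with h7 | h7 <;> rw [h7] at h4 <;> linarith [h4.2]
  have hder : ∀ w₀ ∈ s, ‖deriv f w₀‖ ≤ 8 * κ / (7 / 800) := by
    intro w₀ hw₀
    refine im_deriv (by norm_num) hκ0 (fun w hw => ?_) (fun w hw => ?_)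
    · obtain ⟨h1, h2, h3⟩ := hball w₀ hw₀ w hw
      exact (han w h1 h2 h3).differentiableAt.differentiableWithinAt
    · obtain ⟨h1, h2, h3⟩ := hball w₀ hw₀ w hw
      exact him w h1 h2 h3
  have hconv : Convex ℝ s := by
    rw [hs]
    intro u hu w hw a b ha hb hab
    obtain ⟨h1, h2⟩ := hu
    obtain ⟨h3, h4⟩ := hw
    obtain ⟨h5, h6⟩ := abs_le.1 h1
    obtain ⟨h7, h8⟩ := abs_le.1 h3
    refine ⟨?_, ?_⟩
    · have h9 : (a • u + b • w).re = a * u.re + b * w.re := by simp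
      rw [h9, abs_le]
      constructor <;> nlinarith
    · have h9 : (a • u + b • w).im = a * u.im + b * w.im := by simp
      rw [h9, h2, h4, ← add_mul, hab, one_mul]
  have hmem : ∀ x : ℝ, |x| ≤ 1 / 4 → pt x θ ∈ s := by
    intro x hx
    rw [hs]
    exact ⟨hx, rfl⟩
  have h0 : |(0 : ℝ)| ≤ 1 / 4 := by norm_num
  have h1 := Convex.norm_image_sub_le_of_norm_hasDerivWithin_le
    (f := f) (f' := fun w => deriv f w) (C := 8 * κ / (7 / 800)) (s := s) (x := pt 0 θ)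
    (y := pt x θ) (fun w hw => ?_) hder hconv (hmem 0 h0) (hmem x hx)
  · have h2 : ‖pt x θ - pt 0 θ‖ = |x| := by
      have h3 : pt x θ - pt 0 θ = (x : ℂ) := by
        apply Complex.ext <;> simp
      rw [h3, Complex.norm_real, Real.norm_eq_abs]
    rw [h2] at h1
    have h4 : |(f (pt x θ)).re - (f (pt 0 θ)).re| ≤ ‖f (pt x θ) - f (pt 0 θ)‖ := by
      rw [← Complex.sub_re]
      exact Complex.abs_re_le_norm _
    have h5 : 8 * κ / (7 / 800) * |x| ≤ 8 * (1 / 10 ^ 4) / (7 / 800) * (1 / 4) := by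
      gcongr
    have h6 : (8 : ℝ) * (1 / 10 ^ 4) / (7 / 800) * (1 / 4) ≤ 1 / 40 := by norm_num
    rw [hf] at h4 h1
    linarith
  · have hww : w ∈ ball w (7 / 800) := mem_ball_self (by norm_num)
    obtain ⟨h1, h2, h3⟩ := hball w hw w hww
    exact (han w h1 h2 h3).differentiableAt.hasDerivAt.hasDerivWithinAt

end Pool.Agent.MP_ae5b4e_an_N4
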