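import Pool.Agent.Lib.MP_ae5b4e_an_N4.BCov
import Pool.Agent.Lib.MP_ae5b4e_an_N4.BQ

/-!
# N4, module BEnd: regularity near the angles `± ph0`

`end_top`: for `w` near `pt x ph0`: `|w.re| < 2 < ℓ`, `ph1 < w.im` (so `ph2/2 < w.im`), `w.im ≤ π
- ph1`, `|(z₁ (psiB rm w)).re - (z₁ (psiB rm (pt x ph0))).re| ≤ 1/80` (`zpsi_an`, continuity).  If
`w.im ≤ ph0`: `ρ := psiB rm w`, `arg ρ = w.im`; `|(z₁ ρ).im| = |Om rm z₁ w| ≤ κ ≤ 1/16`; with
`re_var`: `|q - (z₁ ρ).re - j| ≥ 1/4 - 1/40 - 1/80 ≥ 3/16`; `cov_top`. `end_bot`: `w' := pt w.re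
(π + w.im)`, near `pt x (π - ph0)` (`continuous_pt`), `-psiB rm w = psiB rm w'` (`neg_psi`,
`pt_eq`); `|Om rm z₁ w'| ≤ κ`, `|(z₁ (psiB rm w')).re - (z₁ (psiB rm (pt 0 (π - ph0)))).re| ≤ 1/40 +
1/80` (`zpsi_an`, `re_var`); for `-ph0 ≤ w.im < -ph1`: `arg (psiB rm w) = w.im < -(ph2/2)`;
`cov_bot`.
-/

set_option autoImplicit false

noncomputable section

namespace Pool.Agent.MP_ae5b4e_an_N4

open Complex Set Filter Topology Metric InnerProductSpace
open Pool.Agent.MP_ae5b4e_an_NBT (St MerAt Mer EqM)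
open Pool.Agent.Lib.MP_ae5b4e_an_LL (SubH ExtR prad mdom)
open scoped ComplexConjugate

variable {k ra rb rm ℓ δ η ε r1 κ q y : ℝ} {v : ℂ → ℝ} {F E E' : ℂ × ℂ → ℂ} {z₁ : ℂ → ℂ}

theorem end_top (hS : Side k ra rb rm ℓ δ η ε r1 v F E z₁) (hℓ : 2 < ℓ) (hκ0 : 0 < κ)
    (hκ : κ ≤ 1 / 10 ^ 4)
    (hΩ : ∀ w : ℂ, |w.re| ≤ 2 → ph1 ≤ w.im → w.im ≤ Real.pi - ph1 → |Om rm z₁ w| ≤ κ)
    (hq : |q| ≤ 3) (hy0 : 0 < y) (hy : y ≤ 1 / 16)
    (hre : ∀ j : ℤ, 1 / 4 ≤ |q - (z₁ (psiB rm (pt 0 ph0))).re - j|) {x : ℝ} (hx : |x| ≤ 1 / 4) :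
    ∀ᶠ w in 𝓝 (pt x ph0), w.im ≤ ph0 → Cov k q y F E (psiB rm w) := by
  have hπ := Real.pi_gt_three
  have e0 : ph0 = 1 / 100 := rfl
  have e1 : ph1 = 1 / 800 := rfl
  have e2 : ph2 = 1 / 1600 := rfl
  have hxl : |x| < ℓ := lt_of_le_of_lt hx (by linarith)
  have hcont : ContinuousAt (fun w => (z₁ (psiB rm w)).re) (pt x ph0) :=
    Complex.continuous_re.continuousAt.comp
      (zpsi_an hS (w := pt x ph0) hxl (by rw [pt_im, e0, e2]; norm_num)
        (by rw [pt_im, e0, e2]; linarith)).continuousAt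
  have h1 : ∀ᶠ w : ℂ in 𝓝 (pt x ph0),
      |(z₁ (psiB rm w)).re - (z₁ (psiB rm (pt x ph0))).re| < 1 / 80 := by
    have h2 := Metric.continuousAt_iff'.1 hcont (1 / 80) (by norm_num)
    simpa only [Real.dist_eq] using h2
  have h2 : ∀ᶠ w : ℂ in 𝓝 (pt x ph0), |w.re| < 2 :=
    (Complex.continuous_re.abs.continuousAt (x := pt x ph0)).eventually_lt_const
      (show |x| < 2 by linarith)
  have h3 : ∀ᶠ w : ℂ in 𝓝 (pt x ph0), ph1 < w.im :=
    (Complex.continuous_im.continuousAt (x := pt x ph0)).eventually_const_lt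
      (show ph1 < ph0 by rw [e0, e1]; norm_num)
  have hvar := re_var hS hℓ hκ0 hκ hΩ hx (θ := ph0) (Or.inl rfl)
  filter_upwards [h1, h2, h3] with w w1 w2 w3 w4
  have hm := hS.mem (w := w) (by linarith)
  have harg : arg (psiB rm w) = w.im := arg_psi hS.rm0 (by linarith) (by linarith)
  have hO := hΩ w w2.le w3.le (by linarith)
  rw [Om_eq, abs_neg] at hO
  refine cov_top hS hm.1 hm.2 (by rw [harg]; linarith) (by rw [harg]; exact w4) hq hy0 hy
    (by linarith) (fun j => ?_)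
  have h4 := hre j
  have h5 : |q - (z₁ (psiB rm (pt 0 ph0))).re - j| ≤
      |q - (z₁ (psiB rm w)).re - j| + |(z₁ (psiB rm w)).re - (z₁ (psiB rm (pt x ph0))).re| +
      |(z₁ (psiB rm (pt x ph0))).re - (z₁ (psiB rm (pt 0 ph0))).re| := by
    have h6 : q - (z₁ (psiB rm (pt 0 ph0))).re - j = (q - (z₁ (psiB rm w)).re - j) +
        ((z₁ (psiB rm w)).re - (z₁ (psiB rm (pt x ph0))).re) +
        ((z₁ (psiB rm (pt x ph0))).re - (z₁ (psiB rm (pt 0 ph0))).re) := by ring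
    rw [h6]
    exact (abs_add_le _ _).trans (add_le_add_left (abs_add_le _ _) _)
  linarith

theorem end_bot (hB : Both k ra rb rm ℓ δ η ε r1 v F E E' z₁) (hℓ : 2 < ℓ) (hκ0 : 0 < κ)
    (hκ : κ ≤ 1 / 10 ^ 4)
    (hΩ : ∀ w : ℂ, |w.re| ≤ 2 → ph1 ≤ w.im → w.im ≤ Real.pi - ph1 → |Om rm z₁ w| ≤ κ)
    (hq : |q| ≤ 3) (hy0 : 0 < y) (hy : y ≤ 1 / 16)
    (hre : ∀ j : ℤ, 1 / 4 ≤ |q + (z₁ (psiB rm (pt 0 (Real.pi - ph0)))).re - j|)
    {x : ℝ} (hx : |x| ≤ 1 / 4) :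
    ∀ᶠ w in 𝓝 (pt x (-ph0)), -ph0 ≤ w.im → Cov k q y F (refE E') (psiB rm w) := by
  have hS := hB.s
  have hπ := Real.pi_gt_three
  have e0 : ph0 = 1 / 100 := rfl
  have e1 : ph1 = 1 / 800 := rfl
  have e2 : ph2 = 1 / 1600 := rfl
  have hxl : |x| < ℓ := lt_of_le_of_lt hx (by linarith)
  have hcont : ContinuousAt (fun w => (z₁ (psiB rm w)).re) (pt x (Real.pi - ph0)) :=
    Complex.continuous_re.continuousAt.comp
      (zpsi_an hS (w := pt x (Real.pi - ph0)) hxl (by rw [pt_im, e0, e2]; linarith)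
        (by rw [pt_im, e0, e2]; linarith)).continuousAt
  have hmap : Continuous fun w : ℂ => pt w.re (Real.pi + w.im) :=
    continuous_pt.comp (f := fun w : ℂ => (w.re, Real.pi + w.im)) (by fun_prop)
  have hpt : pt (pt x (-ph0)).re (Real.pi + (pt x (-ph0)).im) = pt x (Real.pi - ph0) := by
    rw [pt_re, pt_im, ← sub_eq_add_neg]
  have hcont2 : ContinuousAt (fun w => (z₁ (psiB rm (pt w.re (Real.pi + w.im)))).re)
      (pt x (-ph0)) := by
    have h0 : ContinuousAt (fun w => (z₁ (psiB rm w)).re)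
        ((fun w : ℂ => pt w.re (Real.pi + w.im)) (pt x (-ph0))) := by
      change ContinuousAt (fun w => (z₁ (psiB rm w)).re)
        (pt (pt x (-ph0)).re (Real.pi + (pt x (-ph0)).im))
      rw [hpt]
      exact hcont
    exact ContinuousAt.comp (f := fun w : ℂ => pt w.re (Real.pi + w.im))
      (g := fun w => (z₁ (psiB rm w)).re) h0 hmap.continuousAt
  have h1 : ∀ᶠ w : ℂ in 𝓝 (pt x (-ph0)),
      |(z₁ (psiB rm (pt w.re (Real.pi + w.im)))).re -
        (z₁ (psiB rm (pt x (Real.pi - ph0)))).re| < 1 / 80 := by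
    have h2 := Metric.continuousAt_iff'.1 hcont2 (1 / 80) (by norm_num)
    rw [hpt] at h2
    simpa only [Real.dist_eq] using h2
  have h2 : ∀ᶠ w : ℂ in 𝓝 (pt x (-ph0)), |w.re| < 2 :=
    (Complex.continuous_re.abs.continuousAt (x := pt x (-ph0))).eventually_lt_const
      (show |x| < 2 by linarith)
  have h3 : ∀ᶠ w : ℂ in 𝓝 (pt x (-ph0)), w.im < -ph1 :=
    (Complex.continuous_im.continuousAt (x := pt x (-ph0))).eventually_lt_const
      (show -ph0 < -ph1 by rw [e0, e1]; norm_num)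
  have hvar := re_var hS hℓ hκ0 hκ hΩ hx (θ := Real.pi - ph0) (Or.inr rfl)
  filter_upwards [h1, h2, h3] with w w1 w2 w3 w4
  have hm := hS.mem (w := w) (by linarith)
  have harg : arg (psiB rm w) = w.im := arg_psi hS.rm0 (by linarith) (by linarith)
  have hneg : -psiB rm w = psiB rm (pt w.re (Real.pi + w.im)) := by
    rw [← neg_psi, pt_eq]
  have hO := hΩ (pt w.re (Real.pi + w.im)) (by rw [pt_re]; exact w2.le)
    (by rw [pt_im]; linarith) (by rw [pt_im]; linarith)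
  rw [Om_eq, abs_neg] at hO
  refine cov_bot hB hm.1 hm.2 (by rw [harg]; exact w4) (by rw [harg]; linarith) hq hy0 hy
    (by rw [hneg]; linarith) (fun j => ?_)
  rw [hneg]
  have h4 := hre j
  have h5 : |q + (z₁ (psiB rm (pt 0 (Real.pi - ph0)))).re - j| ≤
      |q + (z₁ (psiB rm (pt w.re (Real.pi + w.im)))).re - j| +
      |(z₁ (psiB rm (pt w.re (Real.pi + w.im)))).re -
        (z₁ (psiB rm (pt x (Real.pi - ph0)))).re| +
      |(z₁ (psiB rm (pt x (Real.pi - ph0)))).re - (z₁ (psiB rm (pt 0 (Real.pi - ph0)))).re| := by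
    have h6 : q + (z₁ (psiB rm (pt 0 (Real.pi - ph0)))).re - j =
        (q + (z₁ (psiB rm (pt w.re (Real.pi + w.im)))).re - j) -
        ((z₁ (psiB rm (pt w.re (Real.pi + w.im)))).re -
          (z₁ (psiB rm (pt x (Real.pi - ph0)))).re) -
        ((z₁ (psiB rm (pt x (Real.pi - ph0)))).re -
          (z₁ (psiB rm (pt 0 (Real.pi - ph0)))).re) := by ring
    rw [h6]
    exact (abs_sub _ _).trans (add_le_add_left (abs_sub _ _) _)
  linarith

end Pool.Agent.MP_ae5b4e_an_N4
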