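import Pool.Agent.Lib.MP_ae5b4e_an_N4.BRad

/-!
# N4, module BGeo: the disc of radius `k/32` about `tq k q` is in the domain of `F`

`low_disc`: `θ := arg ρ`, `ρ.re = ‖ρ‖ cos θ ≥ .9999 ‖ρ‖` (`Complex.norm_mul_cos_arg`, `Real.one_sub_sq_div_two_le_cos`,
`|θ| ≤ ph0 = 1/100`), `ρ.im = ‖ρ‖ sin θ` (`Complex.norm_mul_sin_arg`), `|ρ.im| ≤ ‖ρ‖/100` (`|sin θ| ≤ |θ|`).  Write
`z = tq k q + u`, `‖u‖ ≤ k/32`.  `‖z‖ ≤ |q| + k/16 + k/32 ≤ 4 k`.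
`(ρ z).im = (ρ tq).im + (ρ u).im ≤ ρ.re (-k/16) + ρ.im q + ‖ρ‖ k/32`.  `ρ.im q ≤ .03 ‖ρ‖`: if `-3 ≤ q` then `|q| ≤ 3`;
if `0 ≤ θ` then `ρ.im ≥ 0` and `ρ.im q ≤ 3 ρ.im`.  `v ρ ≤ k ((1+η)|ρ.im| + η ‖ρ‖) ≤ .0101 k ‖ρ‖`.  So
`(ρ z).im + v ρ ≤ ‖ρ‖ (k/32 - .9999 k/16 + .03 + .0101 k) ≤ ‖ρ‖ (-.02 k + .03) < 0` (`‖ρ‖ > ra > 0`).

`ext_low`: `ext_of_mer` with `G := F` (`hS.cor.mer`, `EqM.refl`).
`ext_low_w`, `ext_low_p`: the cases `ρ = psiB rm w` (`arg_psi`, `hS.mem`; `ph0 < π`).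
-/

set_option autoImplicit false

noncomputable section

namespace Pool.Agent.MP_ae5b4e_an_N4

open Complex Set Filter Topology Metric InnerProductSpace
open Pool.Agent.MP_ae5b4e_an_NBT (St MerAt Mer EqM)
open Pool.Agent.Lib.MP_ae5b4e_an_LL (SubH ExtR prad)
open scoped ComplexConjugate

variable {k ra rb rm ℓ δ η ε r1 : ℝ} {v : ℂ → ℝ} {F E : ℂ × ℂ → ℂ} {z₁ : ℂ → ℂ}

theorem low_disc (hS : Side k ra rb rm ℓ δ η ε r1 v F E z₁) {ρ z : ℂ} {q : ℝ}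
    (h1 : ra < ‖ρ‖) (h2 : ‖ρ‖ < rb) (hθ : |arg ρ| ≤ ph0) (hq1 : -(11 / 10 * k) ≤ q) (hq2 : q ≤ 3)
    (hq : -3 ≤ q ∨ 0 ≤ arg ρ) (hz : dist z (tq k q) ≤ k / 32) :
    ‖z‖ ≤ 4 * k ∧ (ρ * z).im < -v ρ := by
  have hk := hS.hk
  have hk0 := hS.k0
  have hn : 0 < ‖ρ‖ := hS.ra0.trans h1
  have hph : ph0 = 1 / 100 := rfl
  rw [hph] at hθ
  obtain ⟨hθ1, hθ2⟩ := abs_le.1 hθ
  have hre : 9999 / 10000 * ‖ρ‖ ≤ ρ.re := by
    have h3 : 1 - arg ρ ^ 2 / 2 ≤ Real.cos (arg ρ) := Real.one_sub_sq_div_two_le_cos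
    have h4 : arg ρ ^ 2 ≤ (1 / 100) ^ 2 := sq_le_sq' hθ1 hθ2
    have h5 := Complex.norm_mul_cos_arg ρ
    have h6 : 9999 / 10000 ≤ Real.cos (arg ρ) := by
      norm_num at h4
      linarith
    have h7 := mul_le_mul_of_nonneg_left h6 hn.le
    rw [h5] at h7
    linarith
  have him : |ρ.im| ≤ ‖ρ‖ / 100 := by
    rw [← Complex.norm_mul_sin_arg ρ, abs_mul, abs_of_pos hn]
    have h3 : |Real.sin (arg ρ)| ≤ 1 / 100 := Real.abs_sin_le_abs.trans hθ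
    have h4 := mul_le_mul_of_nonneg_left h3 hn.le
    linarith
  obtain ⟨him1, him2⟩ := abs_le.1 him
  have hu : ‖z - tq k q‖ ≤ k / 32 := by
    rw [← dist_eq_norm]
    exact hz
  have hzt : z = tq k q + (z - tq k q) := by ring
  have htq : ‖tq k q‖ ≤ |q| + k / 16 := by
    refine (Complex.norm_le_abs_re_add_abs_im _).trans ?_
    rw [tq_re, tq_im, abs_neg, abs_of_pos (by positivity : 0 < k / 16)]
  have hq' : |q| ≤ 11 / 10 * k := by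
    rw [abs_le]
    exact ⟨hq1, by linarith⟩
  refine ⟨?_, ?_⟩
  · calc ‖z‖ = ‖tq k q + (z - tq k q)‖ := by rw [← hzt]
      _ ≤ ‖tq k q‖ + ‖z - tq k q‖ := norm_add_le _ _
      _ ≤ 4 * k := by linarith
  · have hqi : ρ.im * q ≤ 3 / 100 * ‖ρ‖ := by
      rcases hq with hq3 | hq3
      · have h3 : |ρ.im * q| ≤ ‖ρ‖ / 100 * 3 := by
          rw [abs_mul]
          exact mul_le_mul him (abs_le.2 ⟨hq3, hq2⟩) (abs_nonneg _) (by positivity)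
        have h4 := le_abs_self (ρ.im * q)
        linarith
      · have h3 : 0 ≤ ρ.im := Complex.arg_nonneg_iff.1 hq3
        have h4 := mul_le_mul_of_nonneg_left hq2 h3
        linarith
    have hv := hS.con ρ h1 h2
    have hη0 := hS.η0
    have hη1 := hS.η1
    have hv' : v ρ ≤ k * (102 / 10000 * ‖ρ‖) := by
      refine hv.trans (mul_le_mul_of_nonneg_left ?_ hk0.le)
      have h3 : (1 + η) * |ρ.im| ≤ (1 + 1 / 100000) * (‖ρ‖ / 100) :=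
        mul_le_mul (by linarith) him (abs_nonneg _) (by norm_num)
      have h4 : η * ‖ρ‖ ≤ 1 / 100000 * ‖ρ‖ := mul_le_mul_of_nonneg_right hη1 hn.le
      linarith
    have h3 : (ρ * z).im = ρ.re * (-(k / 16)) + ρ.im * q + (ρ * (z - tq k q)).im := by
      simp only [Complex.mul_im, Complex.sub_re, Complex.sub_im, tq_re, tq_im]
      ring
    have h4 : (ρ * (z - tq k q)).im ≤ ‖ρ‖ * (k / 32) := by
      refine (Complex.im_le_norm _).trans ?_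
      rw [norm_mul]
      exact mul_le_mul_of_nonneg_left hu hn.le
    have h5 : ρ.re * (-(k / 16)) ≤ 9999 / 10000 * ‖ρ‖ * (-(k / 16)) := by
      have h6 := mul_le_mul_of_nonneg_right hre (by positivity : 0 ≤ k / 16)
      linarith
    rw [h3]
    have h7 : ‖ρ‖ * 10 ^ 6 ≤ ‖ρ‖ * k := mul_le_mul_of_nonneg_left hk hn.le
    norm_num at h7
    nlinarith

theorem ext_low (hS : Side k ra rb rm ℓ δ η ε r1 v F E z₁) {ρ : ℂ} {q : ℝ}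
    (h1 : ra < ‖ρ‖) (h2 : ‖ρ‖ < rb) (hθ : |arg ρ| ≤ ph0) (hq1 : -(11 / 10 * k) ≤ q) (hq2 : q ≤ 3)
    (hq : -3 ≤ q ∨ 0 ≤ arg ρ) : ExtR F (tq k q) (k / 32) ρ := by
  refine ext_of_mer (G := F) (fun z hz => ?_) (EqM.refl _ _)
  obtain ⟨h3, h4⟩ := low_disc hS h1 h2 hθ hq1 hq2 hq (mem_closedBall.1 hz)
  exact hS.cor.mer z ρ h1 h2 h3 h4

theorem ext_low_w (hS : Side k ra rb rm ℓ δ η ε r1 v F E z₁) {w : ℂ} {q : ℝ}
    (hw : w ∈ Rc ℓ (-ph0) ph0) (hq : |q| ≤ 3) : ExtR F (tq k q) (k / 32) (psiB rm w) := by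
  obtain ⟨hw1, hw2, hw3⟩ := hw
  obtain ⟨h1, h2⟩ := hS.mem hw1
  have hk := hS.hk
  have hpi := Real.pi_gt_three
  have hph : ph0 = 1 / 100 := rfl
  have harg : arg (psiB rm w) = w.im := arg_psi hS.rm0 (by linarith) (by linarith)
  obtain ⟨hq1, hq2⟩ := abs_le.1 hq
  exact ext_low hS h1 h2 (by rw [harg]; exact abs_le.2 ⟨hw2.le, hw3.le⟩) (by linarith) hq2
    (Or.inl hq1)

theorem ext_low_p (hS : Side k ra rb rm ℓ δ η ε r1 v F E z₁) {w : ℂ} {q : ℝ}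
    (hw : w ∈ Rc ℓ 0 ph0) (hq1 : -(11 / 10 * k) ≤ q) (hq2 : q ≤ 3) :
    ExtR F (tq k q) (k / 32) (psiB rm w) := by
  obtain ⟨hw1, hw2, hw3⟩ := hw
  obtain ⟨h1, h2⟩ := hS.mem hw1
  have hpi := Real.pi_gt_three
  have hph : ph0 = 1 / 100 := rfl
  have harg : arg (psiB rm w) = w.im := arg_psi hS.rm0 (by linarith) (by linarith)
  exact ext_low hS h1 h2 (by rw [harg]; exact abs_le.2 ⟨by linarith, hw3.le⟩) hq1 hq2
    (Or.inr (by rw [harg]; exact hw2.le))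

end Pool.Agent.MP_ae5b4e_an_N4
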