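import Pool.Agent.Lib.MP_ae5b4e_an_N4.BTop

/-!
# N4, module BSing: the lower bound of `uR` at the abscissa of the second zero

`ρ := psiB rm w` (`arg ρ = w.im ∈ [ph2, ph1]`, `ra < ‖ρ‖ < rb`), `Z := z₁ ρ`, `O := Om rm z₁ w = -Z.im`, `|O| ≤ k/1000`,
`q := Z.re + 2 ∈ [-1.001 k + 2, -.999 k + 2]`, `t₁ := tq k q`.
Claim `O - ε ≤ uR`: `le_uR` with `y := O - ε` (`h0` from `ext_low`); to show: not `ExtR F t₁ (k/16 - O + ε) ρ`.  Suppose it
holds.  As `r1 ≤ ε`, `ExtR.mono` gives `ExtR F t₁ s ρ`, `s := k/16 - O + r1`: `G`, `d > 0`, `Mer G (ball t₁ s ×ˢ ball ρ d)`,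
`EqM G F (t₁, ρ)`.  Contradiction to `hS.cor.sing ρ` with `f := G`:
(i) `ball (Z + 2) r1 ⊆ ball t₁ s`: `t₁ = pt (Z.re+2) (-(k/16))`, `Z + 2 = pt (Z.re + 2) (-O)`, `dist (Z+2) t₁ = k/16 - O`.
(ii) for `z ∈ ball (Z+2) r1` with `(z - Z).im < -exp (-k)`: `EqM G E (z, ρ)`: `eqM_convex` with
`C := ball t₁ s ∩ {z | (z - Z).im < -exp (-k)}` (convex), `z₀ := t₁` (in `C`: if `ball (Z+2) r1` has a point then `r1 > 0` so
`s > 0`; `(t₁ - Z).im = -k/16 + O < -1`), `MerAt G` from `Mer G`, `MerAt E` from `hS.cor.mE`: a point `z ∈ C` is `Adm`: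
`z.im ≥ -k/16 - s = -k/8 + O - r1 ≥ -k/7` (`r1 ≤ ε ≤ 1`), `z.re ≤ q + s ≤ k/15`, `col` first alternative;
`‖z‖ ≤ |q| + k/16 + s ≤ 4 k`.  `EqM G E (t₁, ρ)`: `EqM G F (t₁, ρ)` and `EqM E F (t₁, ρ)` (`hS.cor.eq`, `low_disc`).
-/

set_option autoImplicit false

noncomputable section

namespace Pool.Agent.MP_ae5b4e_an_N4

open Complex Set Filter Topology Metric InnerProductSpace
open Pool.Agent.MP_ae5b4e_an_NBT (St MerAt Mer EqM)
open Pool.Agent.Lib.MP_ae5b4e_an_LL (SubH ExtR prad)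
open scoped ComplexConjugate

variable {k ra rb rm ℓ δ η ε r1 : ℝ} {v : ℂ → ℝ} {F E : ℂ × ℂ → ℂ} {z₁ : ℂ → ℂ}

/-- the analytic part: no extension beyond the second zero -/
private theorem BSing_core (hS : Side k ra rb rm ℓ δ η ε r1 v F E z₁) {ρ : ℂ}
    (hm1 : ra < ‖ρ‖) (hm2 : ‖ρ‖ < rb) (ha0 : 0 ≤ arg ρ) (ha1 : ph2 / 2 < arg ρ)
    (ha2 : arg ρ ≤ ph0) (ha3 : arg ρ < Real.pi - ph2 / 2) :
    -(11 / 10 * k) ≤ (z₁ ρ).re + 2 ∧ (z₁ ρ).re + 2 ≤ 3 ∧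
      ¬ ExtR F (tq k ((z₁ ρ).re + 2)) (k / 16 - (-(z₁ ρ).im - ε)) ρ := by
  have hk := hS.hk
  have hk0 := hS.k0
  have hε0 := hS.ε0
  have hε1 := hS.ε1
  have hexp : Real.exp (-k) ≤ 1 := hS.ek.trans hε1
  have hexp0 : 0 < Real.exp (-k) := Real.exp_pos _
  obtain ⟨hn1, hn2, hn3⟩ := near_im hS hm1 hm2 ha1 ha3
  have him := abs_le.1 (hn1.trans hn2)
  have hre := abs_le.1 hn3
  have hq1 : -(11 / 10 * k) ≤ (z₁ ρ).re + 2 := by linarith [hre.1]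
  have hq2 : (z₁ ρ).re + 2 ≤ 3 := by linarith [hre.2]
  refine ⟨hq1, hq2, ?_⟩
  rintro ⟨d, hd, G, hG, hGE⟩
  have hsing := hS.cor.sing ρ hm1 hm2 ha1 ha2
  have hmE := fun z => hS.cor.mE z ρ hm1 hm2 ha1 ha2
  have heq := fun z => hS.cor.eq z ρ hm1 hm2 ha1 ha2
  have hlow := fun z => low_disc (z := z) hS hm1 hm2
    (abs_le.2 ⟨by linarith [ha0, (show (0 : ℝ) ≤ ph0 by unfold ph0; norm_num)], ha2⟩) hq1 hq2
    (Or.inr ha0)
  generalize z₁ ρ = Z at *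
  set t₁ := tq k (Z.re + 2) with ht
  have ht1 : t₁.re = Z.re + 2 := rfl
  have ht2 : t₁.im = -(k / 16) := rfl
  have hdist : dist (Z + 2) t₁ = k / 16 + Z.im := by
    have h1 : Z + 2 - t₁ = ((k / 16 + Z.im : ℝ) : ℂ) * I := by
      apply Complex.ext
      · rw [Complex.sub_re, ht1]
        simp
      · rw [Complex.sub_im, ht2]
        simp
        ring
    rw [dist_eq_norm, h1, norm_mul, Complex.norm_I, mul_one, Complex.norm_real,
      Real.norm_of_nonneg (by linarith [him.1])]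
  have hsub : ∀ z ∈ ball (Z + 2) r1, z ∈ ball t₁ (k / 16 - (-Z.im - ε)) := by
    intro z hz
    rw [mem_ball] at hz ⊢
    have h1 := dist_triangle z (Z + 2) t₁
    have h2 := hS.hr1
    linarith
  have hd0 : ρ ∈ ball ρ d := mem_ball_self hd
  refine hsing ⟨G, fun z hz => hG (z, ρ) ⟨hsub z hz, hd0⟩, fun z hz hz2 => ?_⟩
  have hCt : t₁ ∈ ball t₁ (k / 16 - (-Z.im - ε)) ∩ {z | (z - Z).im < -Real.exp (-k)} := by
    refine ⟨mem_ball_self (by linarith [him.1]), ?_⟩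
    change (t₁ - Z).im < -Real.exp (-k)
    rw [Complex.sub_im, ht2]
    linarith [him.1]
  have hCon : Convex ℝ (ball t₁ (k / 16 - (-Z.im - ε)) ∩ {z | (z - Z).im < -Real.exp (-k)}) := by
    refine (convex_ball _ _).inter ?_
    have h1 : {z : ℂ | (z - Z).im < -Real.exp (-k)} = {z : ℂ | z.im < -Real.exp (-k) + Z.im} := by
      ext z
      change (z - Z).im < _ ↔ z.im < _
      rw [Complex.sub_im, sub_lt_iff_lt_add]
    rw [h1]
    exact convex_halfSpace_im_lt _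
  have hbd : ∀ z ∈ ball t₁ (k / 16 - (-Z.im - ε)) ∩ {z | (z - Z).im < -Real.exp (-k)},
      ‖z‖ ≤ 4 * k ∧ Adm k Z z := by
    rintro z ⟨hz1, hz2⟩
    change (z - Z).im < -Real.exp (-k) at hz2
    rw [mem_ball, dist_eq_norm] at hz1
    have h1 := abs_le.1 ((Complex.abs_re_le_norm (z - t₁)).trans hz1.le)
    have h2 := abs_le.1 ((Complex.abs_im_le_norm (z - t₁)).trans hz1.le)
    rw [Complex.sub_re, ht1] at h1
    rw [Complex.sub_im, ht2] at h2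
    refine ⟨?_, ?_, ?_, Or.inl hz2.le⟩
    · have h3 := Complex.norm_le_abs_re_add_abs_im z
      have h4 : |z.re| ≤ 2 * k := abs_le.2 ⟨by linarith [h1.1, hre.1, him.2],
        by linarith [h1.2, hre.2, him.2]⟩
      have h5 : |z.im| ≤ 2 * k := abs_le.2 ⟨by linarith [h2.1, him.2],
        by linarith [h2.2, him.2]⟩
      linarith
    · linarith [h2.1, him.2]
    · linarith [h1.2, him.2, hre.2]
  refine eqM_convex hCon hCt (fun z hz => hG (z, ρ) ⟨hz.1, hd0⟩)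
    (fun z hz => hmE z (hbd z hz).1 (hbd z hz).2) ?_ z ⟨hsub z hz, hz2⟩
  obtain ⟨h1, h2⟩ := hbd t₁ hCt
  have h3 := hlow t₁ (by rw [dist_self]; positivity)
  exact (hGE ρ hd0).trans (heq t₁ h1 h2 h3.2).symm

theorem u_sing (hS : Side k ra rb rm ℓ δ η ε r1 v F E z₁) {w : ℂ} (hw : |w.re| < ℓ)
    (h1 : ph2 ≤ w.im) (h2 : w.im ≤ ph1) :
    Om rm z₁ w - ε ≤ uR k rm F ((z₁ (psiB rm w)).re + 2) w := by
  have e1 : ph1 = 1 / 800 := rfl
  have e2 : ph2 = 1 / 1600 := rfl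
  have e0 : ph0 = 1 / 100 := rfl
  have hpi := Real.pi_gt_three
  have harg : arg (psiB rm w) = w.im := by
    refine arg_psi hS.rm0 ?_ ?_ <;> linarith
  obtain ⟨hm1, hm2⟩ := hS.mem hw
  obtain ⟨hq1, hq2, hno⟩ := BSing_core hS hm1 hm2 (by rw [harg]; linarith) (by rw [harg]; linarith)
    (by rw [harg]; linarith) (by rw [harg]; linarith)
  refine le_uR hS.k0 ⟨k / 32, by linarith [hS.k0], ?_⟩ hno
  exact ext_low hS hm1 hm2 (by rw [harg, abs_of_nonneg (by linarith)]; linarith) hq1 hq2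
    (Or.inr (by rw [harg]; linarith))

end Pool.Agent.MP_ae5b4e_an_N4
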