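import Pool.Agent.Lib.MP_ae5b4e_an_N4.BUbot
import Pool.Agent.Lib.MP_ae5b4e_an_N4.BReg
import Pool.Agent.Lib.MP_ae5b4e_an_N4.BSing
import Pool.Agent.Lib.MP_ae5b4e_an_N4.BBot
import Pool.Agent.Lib.MP_ae5b4e_an_N4.Mpx

/-!
# N4, module BPot: the instance of the potential theoretic data
-/

set_option autoImplicit false

noncomputable section

namespace Pool.Agent.MP_ae5b4e_an_N4

open Complex Set Filter Topology Metric InnerProductSpace
open Pool.Agent.MP_ae5b4e_an_NBT (St MerAt Mer EqM)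
open Pool.Agent.Lib.MP_ae5b4e_an_LL (SubH ExtR prad)
open scoped ComplexConjugate

variable {k ra rb rm ℓ δ η ε r1 : ℝ} {v : ℂ → ℝ} {F E E' : ℂ × ℂ → ℂ} {z₁ : ℂ → ℂ}

theorem BPot_count {rm : ℝ} (h : 0 < rm) : {x : ℝ | ¬ Irrational (rm * Real.exp x)}.Countable := by
  have h1 : {x : ℝ | ¬ Irrational (rm * Real.exp x)} =
      (fun x : ℝ => rm * Real.exp x) ⁻¹' range ((↑) : ℚ → ℝ) := by
    ext x
    simp [Irrational]
  rw [h1]
  refine (countable_range _).preimage_of_injOn fun x _ y _ hxy => ?_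
  exact Real.exp_injective (mul_left_cancel₀ h.ne' hxy)

/-- the abscissa of the second zero -/
theorem BPot_q (hS : Side k ra rb rm ℓ δ η ε r1 v F E z₁) {w : ℂ} (hw : |w.re| < ℓ)
    (h1 : ph2 ≤ w.im) (h2 : w.im ≤ ph1) :
    -(11 / 10 * k) ≤ (z₁ (psiB rm w)).re + 2 ∧ (z₁ (psiB rm w)).re + 2 ≤ 3 ∧
      |(z₁ (psiB rm w)).re + 2| ≤ 11 / 10 * k := by
  obtain ⟨hm1, hm2⟩ := hS.mem hw
  have hpi := Real.pi_gt_three
  have hk := hS.hk
  have hp1 : ph1 = 1 / 800 := rfl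
  have hp2 : ph2 = 1 / 1600 := rfl
  have harg : arg (psiB rm w) = w.im := arg_psi hS.rm0 (by linarith) (by linarith)
  have h3 := (near_im hS hm1 hm2 (by rw [harg]; linarith) (by rw [harg]; linarith)).2.2
  obtain ⟨h4, h5⟩ := abs_le.1 h3
  refine ⟨by linarith, by linarith, ?_⟩
  rw [abs_le]
  constructor <;> linarith

theorem BPot_one (hS : Side k ra rb rm ℓ δ η ε r1 v F E z₁) {ζ : ℂ} (hζ : |ζ.re| < ℓ)
    (h1 : ph2 ≤ ζ.im) (h2 : ζ.im ≤ ph1) : ∃ w : ℂ → ℝ, SubH w (Rc ℓ 0 ph0) ∧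
    (∀ z ∈ Rc ℓ 0 ph0, w z ≤ k) ∧
    (∀ x, |x| < ℓ → BLe (Rc ℓ 0 ph0) w (pt x 0)
      ((1 + 16 * η) * (v ((rm * Real.exp x : ℝ) : ℂ) / (rm * Real.exp x)))) ∧
    (∀ x, |x| < ℓ → BLe (Rc ℓ 0 ph0) w (pt x ph0)
      (Om rm z₁ (pt x ph0) + 32 * δ * |Om rm z₁ (pt x ph0)| + 2 * ε)) ∧
      Om rm z₁ ζ - ε ≤ w ζ := by
  obtain ⟨hq1, hq2, hq3⟩ := BPot_q hS hζ h1 h2
  obtain ⟨hsub, hle⟩ := uR_sub (rm := rm) hS.k0 (isOpen_Rc ℓ 0 ph0)
    (fun w hw => ext_low_p hS hw hq1 hq2)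
  exact ⟨_, hsub, hle, fun x hx => ble_bot hS hx hq3,
    fun x hx => ble_top hS (fun w hw => hw.2.2.le) hx hq1 hq2, u_sing hS hζ h1 h2⟩

theorem pot_inst (hB : Both k ra rb rm ℓ δ η ε r1 v F E E' z₁) :
    Pot k ℓ δ η ε {x | ¬ Irrational (rm * Real.exp x)} (Om rm z₁)
      (fun x => v ((rm * Real.exp x : ℝ) : ℂ) / (rm * Real.exp x)) (uR k rm F) := by
  have hS := hB.s
  have hpi := Real.pi_gt_three
  have hp0 : ph0 = 1 / 100 := rfl
  have hp1 : ph1 = 1 / 800 := rfl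
  have hp2 : ph2 = 1 / 1600 := rfl
  have hk := hS.hk
  have hk0 := hS.k0
  have hδ1 := hS.δ1
  have hη1 := hS.η1
  refine
    { hk := hS.k0
      hℓ := hS.hℓ
      hε := hS.ε0
      hδ := hS.δ0
      hδ1 := by linarith
      hη := hS.η0
      hη1 := hS.η1
      hN := BPot_count hS.rm0
      harm := ?_
      bd := ?_
      m0 := fun x hx => (m_bd hS hx).1
      m1 := fun x hx => (m_bd hS hx).2.trans ?_
      one := fun ζ hζ h1 h2 => BPot_one hS hζ h1 h2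
      two := ?_
      usub := ?_
      ule := ?_
      utop := ?_
      ubot := ?_
      mle := ?_ }
  · rintro z ⟨hz1, hz2, hz3⟩
    have h1 := zpsi_an hS hz1 (by linarith) (by linarith)
    have h2 : HarmonicAt (fun w => (z₁ (psiB rm w)).im) z := h1.harmonicAt_im
    exact h2.neg
  · rintro z ⟨hz1, hz2, hz3⟩
    obtain ⟨hm1, hm2⟩ := hS.mem hz1
    have harg : arg (psiB rm z) = z.im := arg_psi hS.rm0 (by linarith) (by linarith)
    have h3 := (near_im hS hm1 hm2 (by rw [harg]; linarith) (by rw [harg]; linarith)).1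
    rw [Om_eq, abs_neg]
    exact h3
  · have : η * k ≤ 1 * k := mul_le_mul_of_nonneg_right (by linarith) hk0.le
    linarith
  · intro ζ hζ h1 h2
    obtain ⟨w, hw1, hw2, hw3, hw4, hw5⟩ := BPot_one hB.s' hζ h1 h2
    refine ⟨w, hw1, hw2, fun x hx => ?_, fun x hx => ?_, ?_⟩
    · have h3 := hw3 x hx
      have h4 : v (-conj ((rm * Real.exp x : ℝ) : ℂ)) = v ((rm * Real.exp x : ℝ) : ℂ) := by
        rw [Complex.conj_ofReal]
        obtain ⟨h5, h6⟩ := hS.mem (w := pt x 0) hx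
        rw [psi_real] at h5 h6
        exact hB.vev _ h5 h6
      simp only [h4] at h3
      exact h3
    · have h3 := hw4 x hx
      rw [Om_mir, abs_neg] at h3
      exact h3
    · have h3 : Om rm (fun ρ => conj (z₁ (-conj ρ))) ζ = -Om rm z₁ (pt ζ.re (Real.pi - ζ.im)) :=
        Om_mir rm z₁ ζ.re ζ.im
      rw [h3] at hw5
      exact hw5
  · intro q hq
    exact (uR_sub (rm := rm) hS.k0 (isOpen_Rc ℓ (-ph0) ph0) (fun w hw => ext_low_w hS hw hq)).1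
  · intro q hq
    exact (uR_sub (rm := rm) hS.k0 (isOpen_Rc ℓ (-ph0) ph0) (fun w hw => ext_low_w hS hw hq)).2
  · intro q hq x hx
    obtain ⟨h1, h2⟩ := abs_le.1 hq
    exact ble_top hS (fun w hw => hw.2.2.le) hx (by linarith) h2
  · intro q hq x hx
    exact ble_ubot hB (fun w hw => hw.2.1.le) hx hq
  · intro x hx hi
    exact mle hS hB.gp hx (not_not.1 hi)

end Pool.Agent.MP_ae5b4e_an_N4
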