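import Pool.Agent.Lib.MP_ae5b4e_an_N4.BExt

/-!
# N4, module BRad: the function `uR`

`P := ExtR F (tq k q)`, `Y := k/8`, `ρ := psiB rm w`, `p := prad P Y ρ`; `uR = -(k/16) log (p/(k/16))`.
Tools (LL/Rabs.lean, LL/Rmer.lean): `le_prad : 0 < s → s ≤ Y → P s t → s ≤ prad P Y t`;
`discP_extR (hV : IsOpen V) (h : ∀ η ∈ V, ∃ s > 0, ExtR F t₁ s η) : DiscP (ExtR F t₁) V`;
`DiscP.prad_pos`, `DiscP.prad_le`, `DiscP.of_lt` (`s < prad P Y t → P s t`); `subH_neg_log_mrad`.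
The set `U0 := {η | ∃ s > 0, ExtR F t₁ s η}` is open (`ExtR.eventually`): use `V := U0`.

* `uR_le`: `s := k/16 - y`, `k/32 ≤ s ≤ 3k/32 ≤ k/8`: `s ≤ p` by `le_prad`.  With `t := 16 y/k`, `|t| ≤ 1/2`:
  `-log (p/(k/16)) ≤ -log (1 - t) ≤ t + t^2` (for `|t| ≤ 1/2`; `Real.log` bound: `1/(1-t) ≤ exp (t + t^2)`, i.e.
  `(1-t)(1 + t + t^2) = 1 - t^3` and `exp (t + t²) ≥ 1 + (t+t²) + (t+t²)²/2` if `t + t² ≥ 0`, ...; or
  `Real.abs_log_sub_add_sum_range_le` with `n = 1`: `|t + log (1 - t)| ≤ |t|^2/(1 - |t|)` gives the constant `2`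
  instead of `1`; so use `n = 2`: `|t + t^2/2 + log (1-t)| ≤ |t|^3/(1-|t|) ≤ 2 |t|^3 ≤ ...` is again too big near
  `|t| = 1/2`; the clean way: `f t := t + t^2 + log (1-t)`, `f' = 1 + 2t - 1/(1-t) = t (1 - 2t)/(1-t)`, which is
  `≤ 0` for `t ≤ 0` and `≥ 0` for `0 ≤ t ≤ 1/2`, `f 0 = 0`.)  Multiply by `k/16`: `y + (k/16)(16y/k)^2 = y + 16 y^2/k`.
* `le_uR`: `p > 0` (`prad_pos`); if `k/16 - y < p` then `P (k/16 - y) ρ` by `of_lt`, contradiction; so
  `0 < p ≤ k/16 - y`, `log (p/(k/16)) ≤ p/(k/16) - 1 ≤ -16y/k` (`Real.log_le_sub_one_of_pos`).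
* `ext_of_uR_lt`: `u < m`: `log (p/(k/16)) = -16u/k > -16m/k`, and `p/(k/16) - 1 ≥ log (p/(k/16))`, so
  `p > (k/16)(1 - 16m/k) = k/16 - m`; take `s` strictly between (`exists_between`) and `of_lt`.
* `uR_sub`: `V ⊆ psiB ⁻¹' U0`.  `subH_neg_log_mrad` on `U0`, `SubH.comp` with `psiB rm` (LL/Comp.lean, `analyticAt_psi`),
  `SubH.const_mul` with `k/16`, `SubH.add_const` with `(k/16) log (k/16)`, `SubH.congr` (`Real.log_div`, `p ≠ 0`).
  Bound: `k/32 ≤ p` so `-(k/16) log (p/(k/16)) ≤ (k/16) log 2 ≤ k`.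
-/

set_option autoImplicit false

noncomputable section

namespace Pool.Agent.MP_ae5b4e_an_N4

open Complex Set Filter Topology Metric InnerProductSpace
open Pool.Agent.MP_ae5b4e_an_NBT (St MerAt Mer EqM)
open Pool.Agent.Lib.MP_ae5b4e_an_LL (SubH ExtR prad)
open scoped ComplexConjugate

variable {F : ℂ × ℂ → ℂ} {k rm q y m : ℝ} {w : ℂ}

private theorem BRad_open (t₁ : ℂ) : IsOpen {η | ∃ s > 0, ExtR F t₁ s η} := by
  rw [isOpen_iff_mem_nhds]
  rintro η ⟨s, hs, h⟩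
  filter_upwards [h.eventually] with η' h'
  exact ⟨s, hs, h'⟩

private theorem BRad_disc (F : ℂ × ℂ → ℂ) (t₁ : ℂ) :
    Pool.Agent.Lib.MP_ae5b4e_an_LL.DiscP (ExtR F t₁) {η | ∃ s > 0, ExtR F t₁ s η} :=
  Pool.Agent.Lib.MP_ae5b4e_an_LL.discP_extR (BRad_open t₁) fun _ h => h

private theorem BRad_log {t : ℝ} (ht : |t| ≤ 1 / 2) : -(t + t ^ 2) ≤ Real.log (1 - t) := by
  obtain ⟨h1, h2⟩ := abs_le.1 ht
  have h3 : 0 < 1 - t := by linarith
  rw [Real.le_log_iff_exp_le h3, Real.exp_neg, inv_le_iff_one_le_mul₀ (Real.exp_pos _)]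
  rcases le_total 0 t with h | h
  · have h4 := Real.quadratic_le_exp_of_nonneg (x := t + t ^ 2) (by positivity)
    have h5 : (1 - t) * (1 + (t + t ^ 2) + (t + t ^ 2) ^ 2 / 2) ≤
        (1 - t) * Real.exp (t + t ^ 2) := mul_le_mul_of_nonneg_left h4 h3.le
    have h6 : 1 ≤ (1 - t) * (1 + (t + t ^ 2) + (t + t ^ 2) ^ 2 / 2) := by
      have h7 : (1 - t) * (1 + (t + t ^ 2) + (t + t ^ 2) ^ 2 / 2) =
          1 + t ^ 2 / 2 * ((1 - t ^ 2) * (1 + t) - 2 * t) := by ring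
      rw [h7]
      have h8 : 0 ≤ (1 - t ^ 2) * (1 + t) - 2 * t := by
        have h9 : 3 / 4 ≤ 1 - t ^ 2 := by nlinarith
        have h10 : 3 / 4 * (1 + t) ≤ (1 - t ^ 2) * (1 + t) :=
          mul_le_mul_of_nonneg_right h9 (by linarith)
        linarith
      have h11 : 0 ≤ t ^ 2 / 2 * ((1 - t ^ 2) * (1 + t) - 2 * t) := by positivity
      linarith
    linarith
  · have h4 := Real.add_one_le_exp (t + t ^ 2)
    have h5 : (1 - t) * (t + t ^ 2 + 1) ≤ (1 - t) * Real.exp (t + t ^ 2) :=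
      mul_le_mul_of_nonneg_left h4 h3.le
    have h6 : (1 - t) * (t + t ^ 2 + 1) = 1 - t ^ 3 := by ring
    have h7 : t ^ 3 ≤ 0 := by
      have : 0 ≤ (-t) ^ 3 := pow_nonneg (by linarith) 3
      nlinarith
    linarith

theorem uR_le (hk : 0 < k) (hy : |y| ≤ k / 32) (h : ExtR F (tq k q) (k / 16 - y) (psiB rm w)) :
    uR k rm F q w ≤ y + 16 / k * y ^ 2 := by
  obtain ⟨h1, h2⟩ := abs_le.1 hy
  have hp : k / 16 - y ≤ prad (ExtR F (tq k q)) (k / 8) (psiB rm w) :=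
    Pool.Agent.Lib.MP_ae5b4e_an_LL.le_prad (by linarith) (by linarith) h
  have hk' : 0 < k / 16 := by positivity
  have ht : |16 * y / k| ≤ 1 / 2 := by
    rw [abs_div, abs_of_pos hk, abs_mul, abs_of_pos (by norm_num : (0 : ℝ) < 16),
      div_le_iff₀ hk]
    linarith
  have h3 : 0 < 1 - 16 * y / k := by
    have := (abs_le.1 ht).2
    linarith
  have h4 : 1 - 16 * y / k ≤ prad (ExtR F (tq k q)) (k / 8) (psiB rm w) / (k / 16) := by
    rw [le_div_iff₀ hk']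
    have : (1 - 16 * y / k) * (k / 16) = k / 16 - y := by
      field_simp
    rw [this]
    exact hp
  have h5 := (BRad_log ht).trans (Real.log_le_log h3 h4)
  have h6 := mul_le_mul_of_nonneg_left h5 hk'.le
  have h7 : k / 16 * -(16 * y / k + (16 * y / k) ^ 2) = -(y + 16 / k * y ^ 2) := by
    field_simp
  rw [h7] at h6
  unfold uR
  linarith

theorem le_uR (hk : 0 < k) (h0 : ∃ s > 0, ExtR F (tq k q) s (psiB rm w))
    (h : ¬ ExtR F (tq k q) (k / 16 - y) (psiB rm w)) : y ≤ uR k rm F q w := by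
  have hk' : 0 < k / 16 := by positivity
  have hY : 0 < k / 8 := by positivity
  have hD := BRad_disc F (tq k q)
  have hp := hD.prad_pos h0 hY
  have h1 : prad (ExtR F (tq k q)) (k / 8) (psiB rm w) ≤ k / 16 - y := by
    by_contra hc
    exact h (hD.of_lt h0 hY (not_le.1 hc))
  have h2 := Real.log_le_sub_one_of_pos (div_pos hp hk')
  have h3 := mul_le_mul_of_nonneg_left h2 hk'.le
  have h4 : k / 16 * (prad (ExtR F (tq k q)) (k / 8) (psiB rm w) / (k / 16) - 1) =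
      prad (ExtR F (tq k q)) (k / 8) (psiB rm w) - k / 16 := by
    rw [mul_sub, mul_one, mul_div_cancel₀ _ hk'.ne']
  rw [h4] at h3
  unfold uR
  linarith

theorem ext_of_uR_lt (hk : 0 < k) (h0 : ∃ s > 0, ExtR F (tq k q) s (psiB rm w))
    (h : uR k rm F q w < m) : ∃ s, k / 16 - m < s ∧ ExtR F (tq k q) s (psiB rm w) := by
  have hk' : 0 < k / 16 := by positivity
  have hY : 0 < k / 8 := by positivity
  have hD := BRad_disc F (tq k q)
  have hp := hD.prad_pos h0 hY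
  have h2 := Real.log_le_sub_one_of_pos (div_pos hp hk')
  have h3 := mul_le_mul_of_nonneg_left h2 hk'.le
  have h4 : k / 16 * (prad (ExtR F (tq k q)) (k / 8) (psiB rm w) / (k / 16) - 1) =
      prad (ExtR F (tq k q)) (k / 8) (psiB rm w) - k / 16 := by
    rw [mul_sub, mul_one, mul_div_cancel₀ _ hk'.ne']
  rw [h4] at h3
  unfold uR at h
  obtain ⟨s, hs1, hs2⟩ := exists_between (show k / 16 - m <
    prad (ExtR F (tq k q)) (k / 8) (psiB rm w) by linarith)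
  exact ⟨s, hs1, hD.of_lt h0 hY hs2⟩

theorem uR_sub (hk : 0 < k) {V : Set ℂ} (hV : IsOpen V)
    (h : ∀ w ∈ V, ExtR F (tq k q) (k / 32) (psiB rm w)) :
    SubH (uR k rm F q) V ∧ ∀ w ∈ V, uR k rm F q w ≤ k := by
  have hk' : 0 < k / 16 := by positivity
  have hY : 0 < k / 8 := by positivity
  have hk32 : 0 < k / 32 := by positivity
  have hp : ∀ w ∈ V, k / 32 ≤ prad (ExtR F (tq k q)) (k / 8) (psiB rm w) := fun w hw =>
    Pool.Agent.Lib.MP_ae5b4e_an_LL.le_prad hk32 (by linarith) (h w hw)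
  constructor
  · have h1 := Pool.Agent.Lib.MP_ae5b4e_an_LL.subH_neg_log_mrad (F := F) (t₁ := tq k q) (BRad_open (tq k q)) hY
      fun _ h => h
    have h2 : SubH (fun w => -Real.log (prad (ExtR F (tq k q)) (k / 8) (psiB rm w))) V :=
      h1.comp (BRad_open (tq k q)) hV (fun w _ => analyticAt_psi rm w)
        fun w hw => ⟨k / 32, hk32, h w hw⟩
    have h3 := (h2.const_mul hk'.le).add_const (k / 16 * Real.log (k / 16))
    refine h3.congr hV fun w hw => ?_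
    have h4 : 0 < prad (ExtR F (tq k q)) (k / 8) (psiB rm w) := hk32.trans_le (hp w hw)
    unfold uR
    beta_reduce
    rw [Real.log_div h4.ne' hk'.ne']
    ring
  · intro w hw
    have h4 : 0 < prad (ExtR F (tq k q)) (k / 8) (psiB rm w) := hk32.trans_le (hp w hw)
    have h5 : 1 / 2 ≤ prad (ExtR F (tq k q)) (k / 8) (psiB rm w) / (k / 16) := by
      rw [le_div_iff₀ hk']
      have := hp w hw
      linarith
    have h6 := Real.one_sub_inv_le_log_of_pos (div_pos h4 hk')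
    have h7 : (prad (ExtR F (tq k q)) (k / 8) (psiB rm w) / (k / 16))⁻¹ ≤ 2 := by
      have := inv_anti₀ (by norm_num) h5
      norm_num at this ⊢
      linarith
    have h8 : -1 ≤ Real.log (prad (ExtR F (tq k q)) (k / 8) (psiB rm w) / (k / 16)) := by
      linarith
    have h9 := mul_le_mul_of_nonneg_left h8 hk'.le
    unfold uR
    linarith

end Pool.Agent.MP_ae5b4e_an_N4
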