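import Pool.Agent.Lib.MP_ae5b4e_an_N4.BRef
import Pool.Agent.Lib.MP_ae5b4e_an_N4.BTop

/-!
# N4, module BUbot: the upper bound of `uR` near the angle `- ph0`

`uR_bot`: `ρ := psiB rm w`, `arg ρ = w.im`; `ρ' := conj ρ = psiB rm (conj w)`, `arg ρ' = -w.im ∈ (ph2/2, ph0]`.
`ext_top` for the mirrored side `hB.s'` at `ρ'` with `-q`: `ExtR (mirE F) (tq k (-q)) (k/16 + (conj (z₁ (-conj ρ'))).im - ε) ρ'`.
`(conj (z₁ (-conj ρ'))).im = -(z₁ (-conj ρ')).im`, and `-conj ρ' = -ρ = psiB rm (pt w.re (π + w.im))` (`neg_psi`,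
`pt_eq`), so the radius is `k/16 - O' - ε` with `O' := -Om rm z₁ (pt w.re (π + w.im))`.  `tq k (-q) = -conj (tq k q)`:
`extR_refE`: `ExtR (refE (mirE F)) (tq k q) (k/16 - O' - ε) ρ`; `extR_congr` with `eqM_neg_mir` at `(tq k q, ρ)`
(`low_disc` for `hB.s`, `z = tq k q`): `ExtR F (tq k q) (k/16 - O' - ε) ρ`.  `uR_le` with `y := O' + ε`, `num_top` with `O := O'`
(`|O'| ≤ δ k ≤ k/1000`: `near_im` for `hB.s'` at `ρ'`).
`ble_ubot`: as `ble_top`: `w ↦ Om rm z₁ (pt w.re (π + w.im))` is continuous at `pt x (-ph0)` (`Om_cont` at `pt x (π - ph0)`).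
-/

set_option autoImplicit false

noncomputable section

namespace Pool.Agent.MP_ae5b4e_an_N4

open Complex Set Filter Topology Metric InnerProductSpace
open Pool.Agent.MP_ae5b4e_an_NBT (St MerAt Mer EqM)
open Pool.Agent.Lib.MP_ae5b4e_an_LL (SubH ExtR prad)
open scoped ComplexConjugate

variable {k ra rb rm ℓ δ η ε r1 : ℝ} {v : ℂ → ℝ} {F E E' : ℂ × ℂ → ℂ} {z₁ : ℂ → ℂ}

theorem uR_bot (hB : Both k ra rb rm ℓ δ η ε r1 v F E E' z₁) {w : ℂ} {q : ℝ} (hw : |w.re| < ℓ)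
    (h1 : -ph0 ≤ w.im) (h2 : w.im < -(ph2 / 2)) (hq : |q| ≤ 3) :
    uR k rm F q w ≤ -Om rm z₁ (pt w.re (Real.pi + w.im)) +
      32 * δ * |Om rm z₁ (pt w.re (Real.pi + w.im))| + 2 * ε := by
  have hπ := Real.pi_gt_three
  have hk := hB.s.hk
  have hk0 := hB.s.k0
  have hrm := hB.s.rm0
  have hε0 := hB.s.ε0
  have hε1 := hB.s.ε1
  have hph0 : ph0 = 1 / 100 := rfl
  have hph2 : ph2 = 1 / 1600 := rfl
  obtain ⟨hn1, hn2⟩ := hB.s.mem hw
  have harg : arg (psiB rm w) = w.im := arg_psi hrm (by linarith) (by linarith)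
  have hcw : |(conj w).re| < ℓ := by rwa [Complex.conj_re]
  obtain ⟨hn1', hn2'⟩ := hB.s.mem hcw
  have harg' : arg (psiB rm (conj w)) = -w.im := by
    rw [arg_psi hrm (by rw [Complex.conj_im]; linarith) (by rw [Complex.conj_im]; linarith),
      Complex.conj_im]
  obtain ⟨q1, q2⟩ := abs_le.1 hq
  have e1 := ext_top hB.s' (ρ := psiB rm (conj w)) (q := -q) hn1' hn2' (by rw [harg']; linarith)
    (by rw [harg']; linarith) (by linarith) (by linarith)
  obtain ⟨n1, n2, _⟩ := near_im hB.s' (ρ := psiB rm (conj w)) hn1' hn2'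
    (by rw [harg']; linarith) (by rw [harg']; linarith)
  have hz : -conj (psiB rm (conj w)) = psiB rm (pt w.re (Real.pi + w.im)) := by
    rw [conj_psi, Complex.conj_conj, ← neg_psi, pt_eq]
  have hO : (conj (z₁ (-conj (psiB rm (conj w))))).im = Om rm z₁ (pt w.re (Real.pi + w.im)) := by
    rw [hz, Om_eq, Complex.conj_im]
  beta_reduce at e1 n1
  rw [hO] at e1 n1
  obtain ⟨O, hOd⟩ : ∃ O, O = Om rm z₁ (pt w.re (Real.pi + w.im)) := ⟨_, rfl⟩
  rw [← hOd] at e1 n1 ⊢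
  have e2 : ExtR (refE (mirE F)) (tq k q) (k / 16 + O - ε) (psiB rm w) := by
    apply extR_refE
    rw [neg_conj_tq, conj_psi]
    exact e1
  have e3 : ExtR F (tq k q) (k / 16 - (-O + ε)) (psiB rm w) := by
    have hlow := low_disc hB.s (ρ := psiB rm w) (z := tq k q) (q := q) hn1 hn2
      (by rw [harg]; exact abs_le.2 ⟨h1, by linarith⟩) (by linarith) q2 (Or.inl q1)
      (by rw [dist_self]; positivity)
    have h := extR_congr e2 (eqM_neg_mir hB hn1 hn2 hlow.1 hlow.2)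
    have e : k / 16 - (-O + ε) = k / 16 + O - ε := by ring
    rw [e]
    exact h
  obtain ⟨o1, o2⟩ := abs_le.1 n1
  have e4 := uR_le hk0 (y := -O + ε) (abs_le.2 ⟨by linarith, by linarith⟩) e3
  have e5 := num_top (δ := δ) (O := -O) hk hε0 hε1 (by rw [abs_neg]; exact n1)
  rw [abs_neg] at e5
  linarith

theorem ble_ubot (hB : Both k ra rb rm ℓ δ η ε r1 v F E E' z₁) {V : Set ℂ} {x q : ℝ}
    (hV : ∀ w ∈ V, -ph0 ≤ w.im) (hx : |x| < ℓ) (hq : |q| ≤ 3) :
    BLe V (uR k rm F q) (pt x (-ph0)) (-Om rm z₁ (pt x (Real.pi - ph0)) +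
      32 * δ * |Om rm z₁ (pt x (Real.pi - ph0))| + 2 * ε) := by
  have hph0 : ph0 = 1 / 100 := rfl
  have hph2 : ph2 = 1 / 1600 := rfl
  have hπ := Real.pi_gt_three
  intro e he
  have hf : ContinuousAt (fun w : ℂ => pt w.re (Real.pi + w.im)) (pt x (-ph0)) :=
    (continuous_pt.comp (Complex.continuous_re.prodMk
      (continuous_const.add Complex.continuous_im))).continuousAt
  have hO : ContinuousAt (Om rm z₁) (pt x (Real.pi - ph0)) :=
    Om_cont hB.s (w := pt x (Real.pi - ph0)) hx (by rw [pt_im]; linarith)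
      (by rw [pt_im]; linarith)
  have e1 : pt (pt x (-ph0)).re (Real.pi + (pt x (-ph0)).im) = pt x (Real.pi - ph0) := by
    rw [pt_re, pt_im, sub_eq_add_neg]
  have hc : ContinuousAt (fun w : ℂ => Om rm z₁ (pt w.re (Real.pi + w.im))) (pt x (-ph0)) :=
    ContinuousAt.comp (g := Om rm z₁) (f := fun w : ℂ => pt w.re (Real.pi + w.im))
      (by rw [e1]; exact hO) hf
  have hg : ContinuousAt (fun w : ℂ => -Om rm z₁ (pt w.re (Real.pi + w.im)) +
      32 * δ * |Om rm z₁ (pt w.re (Real.pi + w.im))| + 2 * ε) (pt x (-ph0)) :=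
    (hc.neg.add (continuousAt_const.mul hc.abs)).add continuousAt_const
  have ev1 : ∀ᶠ w in 𝓝 (pt x (-ph0)), -Om rm z₁ (pt w.re (Real.pi + w.im)) +
      32 * δ * |Om rm z₁ (pt w.re (Real.pi + w.im))| + 2 * ε <
      (-Om rm z₁ (pt x (Real.pi - ph0)) + 32 * δ * |Om rm z₁ (pt x (Real.pi - ph0))| + 2 * ε) +
        e := by
    refine hg.eventually (gt_mem_nhds ?_)
    beta_reduce
    rw [e1]
    linarith
  have ev2 : ∀ᶠ w : ℂ in 𝓝 (pt x (-ph0)), |w.re| < ℓ :=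
    (continuous_abs.comp Complex.continuous_re).continuousAt.eventually (gt_mem_nhds hx)
  have ev3 : ∀ᶠ w : ℂ in 𝓝 (pt x (-ph0)), w.im < -(ph2 / 2) := by
    refine Complex.continuous_im.continuousAt.eventually (gt_mem_nhds ?_)
    rw [pt_im]
    linarith
  filter_upwards [self_mem_nhdsWithin, mem_nhdsWithin_of_mem_nhds ev1,
    mem_nhdsWithin_of_mem_nhds ev2, mem_nhdsWithin_of_mem_nhds ev3] with w hwV h1 h2 h3
  exact (uR_bot hB h2 (hV w hwV) h3 hq).trans h1.le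

end Pool.Agent.MP_ae5b4e_an_N4
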