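import Pool.Agent.Lib.MP_ae5b4e_an_N4.PtD

/-!
# MP_ae5b4e_an, NB_3 section N4: chains of labels, definitions

Coordinates: `z = t / ρ` (one step is `z ↦ z + 1`), `σ = log l` for a label `l` (place and line at `0`),
`s = 1 / (F⁺ / F - 1)`, `G = log F_0`.  Recursion: `G (σ⁺) = G σ + log (1 + 1 / s)`,
`s⁺ = s + g (σ⁺)`, `g = (F_0 / F_0')'`.
-/

set_option autoImplicit false

noncomputable section

namespace Pool.Agent.MP_ae5b4e_an_N4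

open Complex Set Filter Topology Metric InnerProductSpace
open scoped ComplexConjugate

/-- half width of the central strip, divided by `k` -/
def e6 : ℝ := 1 / 10 ^ 10

/-- angular margin -/
def aa : ℝ := 1 / 12800

/-- the box in the coordinate `σ = log l` -/
def Bx (s1 s2 : ℝ) : Set ℂ :=
  {σ | s1 < σ.re ∧ σ.re < s2 ∧ -Real.pi + aa < σ.im ∧ σ.im < -aa}

/-- `G` is the logarithm of the Moebius coordinate, `n` its derivative, `g = (F_0 / F_0')'` -/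
structure Gd (ν η s1 s2 : ℝ) (G n g : ℂ → ℂ) : Prop where
  dG : ∀ σ ∈ Bx s1 s2, HasDerivAt G (n σ) σ
  dn : DifferentiableOn ℂ n (Bx s1 s2)
  nc : ∀ σ ∈ Bx s1 s2, ‖n σ - ν‖ ≤ η * ν
  geq : ∀ σ ∈ Bx s1 s2, n σ * g σ = 1 - deriv n σ / n σ
  gc : ∀ σ ∈ Bx s1 s2, ‖ν * g σ - 1‖ ≤ η
  dg : ∀ σ ∈ Bx s1 s2, ‖ν * deriv g σ‖ ≤ η

/-- the logarithm with the cut along the positive imaginary axis, `Im ∈ (- 3 π / 2, π / 2]` -/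
def lgu (w : ℂ) : ℂ := Complex.log (w * I) - ((Real.pi / 2 : ℝ) : ℂ) * I

/-- `log (1 + 1 / s)`, principal branch (left zone) -/
def ellp (s : ℂ) : ℂ := Complex.log (1 + s⁻¹)

/-- `log (1 + 1 / s)`, continued through the lower half plane -/
def ellu (s : ℂ) : ℂ := lgu (s + 1) - lgu s

/-- one step of the chain; the state is `(s, σ)` -/
def stp (ell : ℂ → ℂ) (B : Set ℂ) (G g : ℂ → ℂ) (p : ℂ × ℂ) : ℂ × ℂ :=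
  (p.1 + g (Function.invFunOn G B (G p.2 + ell p.1)),
    Function.invFunOn G B (G p.2 + ell p.1))

/-- number of steps from the start zone `- X - 1 < Re z ≤ - X` -/
def nst (X : ℝ) (z : ℂ) : ℕ := ⌈z.re + X⌉₊

/-- the chain which starts with `S0` for `Re z ≤ - X`; the variables are `(z, ρ)` -/
def orb (T S0 : ℂ × ℂ → ℂ × ℂ) (X : ℝ) (p : ℂ × ℂ) : ℂ × ℂ :=
  T^[nst X p.1] (S0 (p.1 - (nst X p.1 : ℂ), p.2))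

/-- the numerical conditions -/
structure Par (k ν X δ η Dl : ℝ) : Prop where
  hk : 10 ^ 20 ≤ k
  ν1 : 2 * k ≤ ν
  ν2 : ν ≤ 2 * k + 1
  hX : 10 ^ 10 * k ≤ X
  hX2 : X ≤ k ^ 2
  δ0 : 0 < δ
  δ1 : δ ≤ 1 / 10 ^ 12
  kδ : 1 ≤ δ * k
  η0 : 0 ≤ η
  η1 : η * (X / k) ^ 2 * 10 ^ 14 ≤ δ
  hD : X / k + 1000 ≤ Dl

/-- the chain `O` at the parameter `ρ₀` -/
structure Chn (k ν X δ η Dl s1 s2 : ℝ) (G n g ell : ℂ → ℂ) (O : ℂ × ℂ → ℂ × ℂ) (ρ₀ : ℂ) :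
    Prop where
  par : Par k ν X δ η Dl
  gd : Gd ν η s1 s2 G n g
  hρ : 0 < ρ₀.im
  th1 : ph2 / 2 ≤ arg ρ₀
  th2 : arg ρ₀ ≤ Real.pi - ph2 / 2
  b1 : s1 ≤ Real.log (X * ‖ρ₀‖) - Dl
  b2 : Real.log (X * ‖ρ₀‖) + Dl ≤ s2
  san : ∀ z : ℂ, -X - 1 ≤ z.re → z.re ≤ -X → |z.im| ≤ k → AnalyticAt ℂ O (z, ρ₀)
  ss : ∀ z : ℂ, -X - 1 ≤ z.re → z.re ≤ -X → |z.im| ≤ k →
    ‖(O (z, ρ₀)).1 - (z / ν - 1 / 2)‖ ≤ δ
  sds : ∀ z : ℂ, -X - 1 ≤ z.re → z.re ≤ -X → |z.im| ≤ k →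
    ‖ν * deriv (fun w => (O (w, ρ₀)).1) z - 1‖ ≤ δ
  sl : ∀ z : ℂ, -X - 1 ≤ z.re → z.re ≤ -X → |z.im| ≤ k →
    ‖(O (z, ρ₀)).2 - (Complex.log ρ₀ + lgu z)‖ ≤ δ
  sdl : ∀ z : ℂ, -X - 1 ≤ z.re → z.re ≤ -X → |z.im| ≤ k →
    ‖deriv (fun w => (O (w, ρ₀)).2) z‖ ≤ 2 / X
  step : ∀ z : ℂ, -X < z.re → ∀ ρ, O (z, ρ) = stp ell (Bx s1 s2) G g (O (z - 1, ρ))

/-- bound for the logarithmic derivative -/
def Lk (k X : ℝ) : ℝ := 10 * (Real.log k + X / k * 10 ^ 10 + 10)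

/-- a good point of the left zone -/
structure GdZ (k ν X δ : ℝ) (O : ℂ × ℂ → ℂ × ℂ) (ρ₀ z : ℂ) : Prop where
  an : AnalyticAt ℂ O (z, ρ₀)
  im : |(O (z, ρ₀)).2.im - (arg ρ₀ - Real.pi)| ≤ 1 / 10000
  re : |(O (z, ρ₀)).2.re - Real.log (X * ‖ρ₀‖)| ≤ X / k + 300
  s : ‖(O (z, ρ₀)).1 - (z / ν - 1 / 2)‖ ≤ 2 * δ
  ds : ‖ν * deriv (fun w => (O (w, ρ₀)).1) z - 1‖ ≤ 1 / 50
  dl : ‖ν * deriv (fun w => (O (w, ρ₀)).2) z‖ ≤ Lk k X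

/-- the left zone up to the abscissa `X'` -/
def Zn (k X X' : ℝ) : Set ℂ := {z | -X - 1 ≤ z.re ∧ z.re ≤ X' ∧ |z.im| ≤ e6 * k}

/-- `z₁` is the zero of `s + 1` -/
structure IsZ1 (k ν X δ : ℝ) (O : ℂ × ℂ → ℂ × ℂ) (ρ₀ z₁ : ℂ) : Prop where
  near : ‖z₁ + ν / 2‖ ≤ 3 * δ * ν
  zero : (O (z₁, ρ₀)).1 = -1
  good : ∀ z ∈ Zn k X (z₁.re + 1 / 2), GdZ k ν X δ O ρ₀ z
  uniq : ∀ z ∈ Zn k X (z₁.re + 1 / 2), (O (z, ρ₀)).1 = -1 → z = z₁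

/-- the admissible points of the lower zone -/
structure Adm (k : ℝ) (z₁ z : ℂ) : Prop where
  low : -(k / 7) ≤ z.im
  right : z.re ≤ k / 15
  col : (z - z₁).im ≤ -Real.exp (-k) ∨
    ((z - z₁).im ≤ 1 / 8 ∧ ∀ j : ℤ, 1 / 8 ≤ |(z - z₁).re - j|)

/-- a good point of the lower zone -/
structure GdU (k ν X δ : ℝ) (O : ℂ × ℂ → ℂ × ℂ) (ρ₀ z : ℂ) : Prop where
  an : AnalyticAt ℂ O (z, ρ₀)
  im1 : arg ρ₀ - Real.pi - 1 / 10000 ≤ (O (z, ρ₀)).2.im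
  im2 : (O (z, ρ₀)).2.im ≤ -(1 / 4)
  re : |(O (z, ρ₀)).2.re - Real.log (X * ‖ρ₀‖)| ≤ X / k + 300
  s : ‖(O (z, ρ₀)).1 - (z / ν - 1 / 2)‖ ≤ 2 * δ
  s1 : (O (z, ρ₀)).1 + 1 ≠ 0
  cut : ((O (z, ρ₀)).1 + 1).re ≠ 0 ∨ ((O (z, ρ₀)).1 + 1).im < 0

/-- `n` has no analytic continuation without zeros across the real axis -/
def NoX (s1 s2 : ℝ) (n : ℂ → ℂ) : Prop :=
  ∀ x : ℝ, ∀ r > 0, s1 < x - r → x + r < s2 → ¬ ∃ n' : ℂ → ℂ,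
    AnalyticOnNhd ℂ n' {σ | |σ.re - x| < r ∧ -2 < σ.im ∧ σ.im < 1 / 10} ∧
    (∀ σ : ℂ, |σ.re - x| < r → -2 < σ.im → σ.im < 1 / 10 → n' σ ≠ 0) ∧
    ∀ σ : ℂ, |σ.re - x| < r → -2 < σ.im → σ.im < -aa → n' σ = n σ

end Pool.Agent.MP_ae5b4e_an_N4
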