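import Pool.Agent.Lib.MP_ae5b4e_an_N4.LoA
import Pool.Agent.Lib.MP_ae5b4e_an_N4.Itf

/-!
# N4, module LoB: the lower zone

`low_zone`.  Induction on `nst X z`.  If `z.re ≤ - X`: `h0`, `start_good` for `OP` (`|z.im| ≤ k`
by `Adm.low` and `z.im ≤ z₁.im + 1 / 8`): `an`, `im1`, `im2` (`arg ρ₀ - π + 10 ^ (-4) ≤ - 1 / 4`),
`re`, `s`; `s1`, `cut`: `Re s < -10`. Otherwise `low_seq` gives everything except `an`, `s1`,
`cut`. `s1`, `cut`: if `z.im < - e6 k`: `Im (s + 1) ≤ z.im / ν + 2 δ < 0` (`GdU.s`).  If `- e6 k ≤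
z.im`: `near_u` at `w = z` (its label hypothesis holds by `low_seq` for `z - j`, which is
admissible with real part `> - X`; for `j = 0` as well) and `sgn_u`: `a = s + 1 ≠ 0`; if `a.re =
0`, then `a.im ≤ 0`, so `a.im < 0`. `an`: `step_an` with `ell = ellu`: `OU` is analytic at `(z -
1, ρ₀)` by induction (`adm_shift`; `- X - 1 ≤ z.re - 1`), `Chn.step` near `(z, ρ₀)`, `ellu` is
analytic at `s (z - 1)` (`ellu_an`: `Re s (z - 1) ≤ (z - 1).re / ν - 1 / 2 + 2 δ < 0`, and
`GdU.cut` at `z - 1`), the labels and the relation from `low_seq`.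

`low_three` (all angles).  Let `w` satisfy `Adn k z₁ w`, `- X - 1 ≤ w.re`.  If `w.re ≤ z₁.re + 1 /
2`: `w ∈ Zn k X (z₁.re + 1/2)` (`|w.im| ≤ 3 δ ν + 1 ≤ e6 k`), `pu_eq`, `GdZ.an`, `good_box`.
Otherwise let `i ∈ {1, 2, 3}` be the least natural number with `w.re - i ≤ z₁.re + 1 / 2` and `w₀
= w - i` (`w₀.re > z₁.re - 1 / 2`); prove for `j = 0, …, i`, by induction on `j`: `OU` is analytic
at `(w₀ + j, ρ₀)`, the label `σ_j` satisfies `‖σ_j - σ_0‖ ≤ 6 / 10 · j`, `|Im (σ_j - σ_0)| ≤ 10 j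
/ ν + j / 10 ^ 20` (so it is in the box: `GdZ.im`, `GdZ.re` at `w₀`, `arg ρ₀ ∈ [ph2 / 2, π - ph2 /
2]`), and `s_j + 1 = a_j` with `‖ν a_j - (w₀ + j - z₁)‖ ≤ 3 / 100 ‖w₀ + j - z₁‖` (proof as for
`near_u`).  Step: `u = w₀ + j - z₁` has `u.im ≤ - e^{-k}`, so `‖a_j‖ ≥ 97 / 100 e^{-k} / ν`; `a_j`
is not in the closed positive imaginary axis: `Adn` implies `Adm`-like conditions for `sgn_u`
(apply `sgn_u` with the `Adm k z₁` structure: `low`, `right` hold since `-1 ≤ u.im`, `Re ≤ z₁.re +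
3`; `col` by the first alternative).  `‖ellu (s_j)‖ ≤ 12 + log (2 ν) + k ≤ 6 / 10 · ν · (9 / 10)`
(`ellu_near`, `1/3 ≤ ‖s_j‖ ≤ 4` since `|a_j| ≤ 5 / ν`), `|Im ellu| ≤ 2 π` (`lgu_im` twice).
`G_solve` from `σ_j` gives `σ_{j+1}`; `step_an` gives analyticity (`ellu_an`).
-/

set_option autoImplicit false

noncomputable section

namespace Pool.Agent.MP_ae5b4e_an_N4

open Complex Set Filter Topology Metric

variable {k ν X δ η Dl s1 s2 : ℝ} {G n g : ℂ → ℂ} {OP OU : ℂ × ℂ → ℂ × ℂ} {ρ₀ z₁ : ℂ}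

/-- numerical facts -/
private theorem LoB_num (hP : Par k ν X δ η Dl) :
    0 < k ∧ 0 < ν ∧ 3 * δ * ν ≤ k / 10 ^ 11 ∧ η ≤ 1 / 10 ^ 20 ∧ 10 ^ 20 ≤ k ∧ 10 ^ 10 * k ≤ X := by
  have hk := hP.hk
  have hk0 : 0 < k := by linarith
  have hν0 : 0 < ν := by linarith [hP.ν1]
  have h1 : 1 ≤ X / k := by
    rw [le_div_iff₀ hk0]
    linarith [hP.hX]
  have h2 : 1 ≤ (X / k) ^ 2 := one_le_pow₀ h1
  have h3 : η * 1 ≤ η * (X / k) ^ 2 := mul_le_mul_of_nonneg_left h2 hP.η0
  have h4 := hP.η1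
  have h5 := hP.δ1
  have h6 : 3 * δ * ν ≤ 3 * (1 / 10 ^ 12) * ν := by
    have := mul_le_mul_of_nonneg_right h5 hν0.le
    linarith
  refine ⟨hk0, hν0, ?_, by linarith, hk, hP.hX⟩
  have h7 := hP.ν2
  linarith

private theorem LoB_z1 (hP : Par k ν X δ η Dl) (hz : ‖z₁ + ν / 2‖ ≤ 3 * δ * ν) :
    |z₁.im| ≤ k / 10 ^ 11 ∧ |z₁.re + ν / 2| ≤ k / 10 ^ 11 := by
  have h1 := (LoB_num hP).2.2.1
  have h2 := abs_im_le_norm (z₁ + ν / 2)
  have h3 := abs_re_le_norm (z₁ + ν / 2)
  have e1 : (z₁ + ν / 2).im = z₁.im := by simp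
  have e2 : (z₁ + ν / 2).re = z₁.re + ν / 2 := by simp
  rw [e1] at h2
  rw [e2] at h3
  exact ⟨by linarith, by linarith⟩

private theorem LoB_up {z : ℂ} (hw : Adm k z₁ z) : z.im ≤ z₁.im + 1 / 8 := by
  rcases hw.col with h | ⟨h, -⟩
  · rw [sub_im] at h
    have := Real.exp_pos (-k)
    linarith
  · rw [sub_im] at h
    linarith

private theorem LoB_step {O : ℂ × ℂ → ℂ × ℂ} {ell : ℂ → ℂ}
    (hC : Chn k ν X δ η Dl s1 s2 G n g ell O ρ₀) {z : ℂ} (h : -X < z.re) :
    ∀ᶠ p in 𝓝 (z, ρ₀), O p = stp ell (Bx s1 s2) G g (O (p.1 - 1, p.2)) := by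
  have h1 : ∀ᶠ p in 𝓝 (z, ρ₀), -X < p.1.re :=
    (continuous_re.comp continuous_fst).continuousAt.eventually_const_lt
      (show -X < ((fun p : ℂ × ℂ => p.1.re) (z, ρ₀)) from h)
  filter_upwards [h1] with p hp
  exact hC.step p.1 hp p.2

theorem low_zone (hC : Chn k ν X δ η Dl s1 s2 G n g ellp OP ρ₀)
    (hC' : Chn k ν X δ η Dl s1 s2 G n g ellu OU ρ₀) (hz : IsZ1 k ν X δ OP ρ₀ z₁)
    (h0 : ∀ z : ℂ, -X - 1 ≤ z.re → z.re ≤ -X → |z.im| ≤ k → OU =ᶠ[𝓝 (z, ρ₀)] OP)
    (hθ : arg ρ₀ ≤ ph0) {z : ℂ} (h1 : -X - 1 ≤ z.re) (hw : Adm k z₁ z) :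
    GdU k ν X δ OU ρ₀ z := by
  obtain ⟨hk0, hν0, h3δ, hη, hk, hX⟩ := LoB_num hC.par
  obtain ⟨hz1, hz2⟩ := LoB_z1 hC.par hz.near
  have hπ := Real.pi_gt_three
  have hδ0 := hC.par.δ0
  have hδ1 := hC.par.δ1
  have hν1 := hC.par.ν1
  have hν2 := hC.par.ν2
  have hXk : 0 ≤ X / k := div_nonneg (by linarith) hk0.le
  have main : ∀ m : ℕ, ∀ z : ℂ, z.re ≤ -X + m → -X - 1 ≤ z.re → Adm k z₁ z →
      GdU k ν X δ OU ρ₀ z := by
    intro m
    induction m with
    | zero =>
      intro z hm h1 hw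
      have hm' : z.re ≤ -X := by simpa using hm
      have hup := LoB_up hw
      have him : |z.im| ≤ k := by
        rw [abs_le]
        have := hw.low
        have := (abs_le.mp hz1).2
        exact ⟨by linarith, by linarith⟩
      obtain ⟨hg, e1, e2, e3⟩ := start_good hC' h1 hm' him
      have e1' := abs_le.mp e1
      unfold ph0 at hθ
      have e4 : ((OU (z, ρ₀)).1 + 1).re < 0 := by
        rw [add_re, one_re]
        linarith
      refine ⟨hg.an, by linarith, by linarith, by linarith, hg.s, ?_, Or.inl e4.ne⟩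
      intro h
      rw [h, zero_re] at e4
      exact lt_irrefl _ e4
    | succ m ih =>
      intro z hm h1 hw
      by_cases hX1 : z.re ≤ -X
      · exact ih z (le_trans hX1 (by
          have : (0:ℝ) ≤ m := Nat.cast_nonneg m
          linarith)) h1 hw
      · have hX2 : -X < z.re := not_le.mp hX1
        obtain ⟨hb, hb1, hG, hs, i1, i2, hr⟩ := low_seq hC hC' hz h0 hθ hX2 hw
        have hcut : (OU (z, ρ₀)).1 + 1 ≠ 0 ∧
            (((OU (z, ρ₀)).1 + 1).re ≠ 0 ∨ ((OU (z, ρ₀)).1 + 1).im < 0) := by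
          by_cases hi : z.im < -(e6 * k)
          · have h2 : ((OU (z, ρ₀)).1 + 1).im < 0 := by
              have h3 := (abs_le.mp ((abs_im_le_norm _).trans hs)).2
              have e : ((OU (z, ρ₀)).1 - (z / ν - 1 / 2)).im = (OU (z, ρ₀)).1.im - z.im / ν := by
                rw [sub_im, sub_im, div_ofReal_im]
                simp
              rw [e] at h3
              have h4 : z.im / ν < -(1 / 10 ^ 11) := by
                rw [div_lt_iff₀ hν0]
                unfold e6 at hi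
                linarith
              rw [add_im, one_im]
              linarith
            refine ⟨fun h => ?_, Or.inr h2⟩
            rw [h, zero_im] at h2
            exact lt_irrefl _ h2
          · have hi' : -(e6 * k) ≤ z.im := not_lt.mp hi
            have hnear := near_u hC hC' hz h0 h1 hw hi' (fun j hj => by
              have h5 : -X < (z - (j:ℂ)).re := by
                rw [sub_re, natCast_re]
                have := (abs_le.mp hz2).1
                linarith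
              exact (low_seq hC hC' hz h0 hθ h5 (adm_shift hw j)).1)
            obtain ⟨a1, -, a2⟩ := sgn_u hν0 hw hnear
            refine ⟨a1, ?_⟩
            by_cases hre : ((OU (z, ρ₀)).1 + 1).re = 0
            · right
              have h6 := a2 (by rw [hre])
              rw [hre, mul_zero] at h6
              refine lt_of_le_of_ne h6 (fun him => a1 ?_)
              exact Complex.ext (by rw [hre, zero_re]) (by rw [him, zero_im])
            · exact Or.inl hre
        have hm1 : GdU k ν X δ OU ρ₀ (z - 1) := by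
          refine ih (z - 1) ?_ ?_ ?_
          · rw [sub_re, one_re]
            push_cast at hm
            linarith
          · rw [sub_re, one_re]
            linarith
          · have := adm_shift hw 1
            rwa [Nat.cast_one] at this
        have hsre : (OU (z - 1, ρ₀)).1.re < 0 := by
          have h3 := (abs_le.mp ((abs_re_le_norm _).trans hm1.s)).2
          have e : ((OU (z - 1, ρ₀)).1 - ((z - 1) / ν - 1 / 2)).re =
              (OU (z - 1, ρ₀)).1.re - ((z.re - 1) / ν - 1 / 2) := by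
            rw [sub_re, sub_re, div_ofReal_re, sub_re, one_re]
            norm_num
          rw [e] at h3
          have h4 : (z.re - 1) / ν ≤ 1 / 4 := by
            rw [div_le_iff₀ hν0]
            have := hw.right
            linarith
          linarith
        have hst := step_an hC'.gd hν0 (by linarith : η < 1) hm1.an (LoB_step hC' hX2)
          (ellu_an hsre hm1.cut) hb1 hb hG
        exact ⟨hst.1, i1, i2, hr, hs, hcut.1, hcut.2⟩
  obtain ⟨m, hm⟩ := exists_nat_ge (z.re + X)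
  exact main m z (by linarith) h1 hw

/-- labels in the box -/
private theorem LoB_box {ell : ℂ → ℂ} {O : ℂ × ℂ → ℂ × ℂ}
    (hC : Chn k ν X δ η Dl s1 s2 G n g ell O ρ₀) {σ : ℂ}
    (h1 : |σ.im - (arg ρ₀ - Real.pi)| ≤ 1 / 8000)
    (h2 : |σ.re - Real.log (X * ‖ρ₀‖)| ≤ X / k + 400) : σ ∈ Bx s1 s2 := by
  have a1 := abs_le.mp h1
  have a2 := abs_le.mp h2
  have t1 := hC.th1
  have t2 := hC.th2
  have b1 := hC.b1
  have b2 := hC.b2
  have hD := hC.par.hD
  unfold ph2 at t1 t2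
  have haa : aa = 1 / 12800 := rfl
  refine ⟨by linarith, by linarith, ?_, ?_⟩
  · rw [haa]; linarith
  · rw [haa]; linarith

private theorem LoB_log (hP : Par k ν X δ η Dl) {a : ℂ} (h : 97 / 100 * Real.exp (-k) / ν ≤ ‖a‖) :
    12 + Real.posLog (1 / ‖a‖) ≤ 4 / 5 * ν := by
  obtain ⟨hk0, hν0, -, -, hk, -⟩ := LoB_num hP
  have hν1 := hP.ν1
  have he := Real.exp_pos (-k)
  have h0 : 0 < 97 / 100 * Real.exp (-k) / ν := by positivity
  have ha : 0 < ‖a‖ := lt_of_lt_of_le h0 h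
  have h1 : 1 / ‖a‖ ≤ 8 * (ν / 4) * Real.exp k := by
    rw [div_le_iff₀ ha]
    have h2 : 8 * (ν / 4) * Real.exp k * (97 / 100 * Real.exp (-k) / ν) ≤
        8 * (ν / 4) * Real.exp k * ‖a‖ := mul_le_mul_of_nonneg_left h (by positivity)
    have h3 : 8 * (ν / 4) * Real.exp k * (97 / 100 * Real.exp (-k) / ν) =
        194 / 100 * (Real.exp k * Real.exp (-k)) := by
      field_simp
      ring
    rw [h3, ← Real.exp_add, add_neg_cancel, Real.exp_zero] at h2
    linarith
  have h2 : Real.log (1 / ‖a‖) ≤ Real.log (8 * (ν / 4) * Real.exp k) :=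
    Real.log_le_log (by positivity) h1
  rw [Real.log_mul (by positivity) (Real.exp_pos k).ne', Real.log_exp,
    Real.log_mul (by norm_num) (by positivity)] at h2
  have h3 := Real.log_le_sub_one_of_pos (show (0:ℝ) < 8 by norm_num)
  have h4 := Real.log_le_sub_one_of_pos (show (0:ℝ) < ν / 4 by positivity)
  have h5 : Real.posLog (1 / ‖a‖) ≤ k + ν / 4 + 6 := by
    unfold Real.posLog
    exact max_le (by linarith) (by linarith)
  linarith

theorem low_three (hC : Chn k ν X δ η Dl s1 s2 G n g ellp OP ρ₀)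
    (hC' : Chn k ν X δ η Dl s1 s2 G n g ellu OU ρ₀) (hz : IsZ1 k ν X δ OP ρ₀ z₁)
    (h0 : ∀ z : ℂ, -X - 1 ≤ z.re → z.re ≤ -X → |z.im| ≤ k → OU =ᶠ[𝓝 (z, ρ₀)] OP)
    {w : ℂ} (h1 : -X - 1 ≤ w.re) (hw : Adn k z₁ w) :
    AnalyticAt ℂ OU (w, ρ₀) ∧ (OU (w, ρ₀)).2 ∈ Bx s1 s2 := by
  obtain ⟨hk0, hν0, h3δ, hη, hk, hX⟩ := LoB_num hC.par
  obtain ⟨hz1, hz2⟩ := LoB_z1 hC.par hz.near
  have hz1' := abs_le.mp hz1
  have hz2' := abs_le.mp hz2
  have hη0 := hC.par.η0
  have hν1 := hC.par.ν1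
  have hν2 := hC.par.ν2
  have hek := Real.exp_pos (-k)
  have hlow := hw.low
  have hup := hw.up
  rw [sub_im] at hlow hup
  have caseA : ∀ v : ℂ, -X - 1 ≤ v.re → v.re ≤ z₁.re + 1 / 2 → v.im = w.im →
      v ∈ Zn k X (z₁.re + 1 / 2) ∧ OU =ᶠ[𝓝 (v, ρ₀)] OP := by
    intro v hv1 hv2 hv3
    have hm : v ∈ Zn k X (z₁.re + 1 / 2) := by
      refine ⟨hv1, hv2, ?_⟩
      rw [hv3, abs_le]
      unfold e6
      constructor <;> linarith
    refine ⟨hm, pu_eq hC hC' hz h0 hm ?_⟩
    rw [sub_im, hv3]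
    linarith
  by_cases hre : w.re ≤ z₁.re + 1 / 2
  · obtain ⟨hm, he⟩ := caseA w h1 hre rfl
    have hg := hz.good w hm
    refine ⟨hg.an.congr he.symm, ?_⟩
    rw [he.eq_of_nhds]
    exact good_box hC hg
  obtain ⟨i, hi1, hi2⟩ : ∃ i : ℕ, z₁.re - 1 / 2 < w.re - i ∧ w.re - i ≤ z₁.re + 1 / 2 := by
    refine ⟨⌈w.re - z₁.re - 1 / 2⌉₊, ?_, ?_⟩
    · have := Nat.ceil_lt_add_one (show 0 ≤ w.re - z₁.re - 1 / 2 by linarith)
      linarith
    · have := Nat.le_ceil (w.re - z₁.re - 1 / 2)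
      linarith
  have hi3 : i ≤ 3 := by
    have h2 : (i:ℝ) < 4 := by
      have := hw.right
      linarith
    have h3 : i < 4 := by exact_mod_cast h2
    omega
  obtain ⟨w₀, hw₀⟩ : ∃ w₀, w₀ = w - (i:ℂ) := ⟨_, rfl⟩
  have hwe : w = w₀ + (i:ℂ) := by rw [hw₀]; ring
  have hre0 : w₀.re = w.re - i := by rw [hw₀, sub_re, natCast_re]
  have him0 : w₀.im = w.im := by rw [hw₀, sub_im, natCast_im, sub_zero]
  obtain ⟨hm0, he0⟩ := caseA w₀ (by rw [hre0]; linarith) (by rw [hre0]; exact hi2) him0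
  have hg0 := hz.good w₀ hm0
  have haff := z1_aff hC hz hm0
  have hνc : (ν:ℂ) ≠ 0 := by exact_mod_cast hν0.ne'
  have Q : ∀ j : ℕ, j ≤ i → AnalyticAt ℂ OU (w₀ + j, ρ₀) ∧
      |(OU (w₀ + j, ρ₀)).2.im - (arg ρ₀ - Real.pi)| ≤ 1 / 10000 + j / 10 ^ 8 ∧
      |(OU (w₀ + j, ρ₀)).2.re - Real.log (X * ‖ρ₀‖)| ≤ X / k + 300 + j ∧
      ‖ν * ((OU (w₀ + j, ρ₀)).1 + 1) - (w₀ + j - z₁)‖ ≤ 1 / 50 * ‖w₀ - z₁‖ + j * η := by
    intro j
    induction j with
    | zero =>
      intro _
      rw [Nat.cast_zero, add_zero, Nat.cast_zero, zero_div, add_zero, add_zero, zero_mul, add_zero,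
        he0.eq_of_nhds]
      refine ⟨hg0.an.congr he0.symm, hg0.im, hg0.re, ?_⟩
      have e : (ν:ℂ) * ((OP (w₀, ρ₀)).1 + 1) - (w₀ - z₁) =
          ν * ((OP (w₀, ρ₀)).1 + 1 - (1 / ν : ℂ) * (w₀ - z₁)) := by
        field_simp
      rw [e, norm_mul, norm_real, Real.norm_of_nonneg hν0.le]
      have h2 := mul_le_mul_of_nonneg_left haff hν0.le
      have e2 : ν * (1 / 50 * (1 / ν) * ‖w₀ - z₁‖) = 1 / 50 * ‖w₀ - z₁‖ := by
        field_simp
      rw [e2] at h2
      exact h2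
    | succ j ih =>
      intro hj
      obtain ⟨qa, qi, qr, qs⟩ := ih (by omega)
      have hj2 : (j:ℝ) ≤ 2 := by
        have : j ≤ 2 := by omega
        exact_mod_cast this
      have hj0 : (0:ℝ) ≤ j := Nat.cast_nonneg j
      obtain ⟨v, hv⟩ : ∃ v, v = w₀ + (j:ℂ) := ⟨_, rfl⟩
      rw [← hv] at qa qi qr qs
      have hvre : v.re = w₀.re + j := by rw [hv, add_re, natCast_re]
      have hvim : v.im = w.im := by rw [hv, add_im, natCast_im, add_zero, him0]
      have hure : (v - z₁).re = w₀.re - z₁.re + j := by rw [sub_re, hvre]; ring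
      have huim : (v - z₁).im = w.im - z₁.im := by rw [sub_im, hvim]
      have hu1 : ‖w₀ - z₁‖ ≤ ‖v - z₁‖ := by
        rw [← pow_le_pow_iff_left₀ (norm_nonneg _) (norm_nonneg _) two_ne_zero, Complex.sq_norm,
          Complex.sq_norm, Complex.normSq_apply, Complex.normSq_apply, hure, huim, sub_im, him0,
          sub_re]
        rcases Nat.eq_zero_or_pos j with h2 | h2
        · rw [h2, Nat.cast_zero, add_zero]
        · have h3 : (1:ℝ) ≤ j := by exact_mod_cast h2
          nlinarith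
      have hu2 : (j:ℝ) * η ≤ 1 / 100 * ‖v - z₁‖ := by
        rcases Nat.eq_zero_or_pos j with h2 | h2
        · rw [h2, Nat.cast_zero, zero_mul]
          positivity
        · have h3 : (1:ℝ) ≤ j := by exact_mod_cast h2
          have h4 := (abs_le.mp (abs_re_le_norm (v - z₁))).2
          rw [hure] at h4
          have h5 : (j:ℝ) * η ≤ 2 * (1 / 10 ^ 20) := mul_le_mul hj2 hη hη0 (by norm_num)
          linarith
      have hn : ‖ν * ((OU (v, ρ₀)).1 + 1) - (v - z₁)‖ ≤ 3 / 100 * ‖v - z₁‖ := by linarith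
      have hadm : Adm k z₁ v := by
        refine ⟨?_, ?_, Or.inl ?_⟩
        · rw [hvim]; linarith
        · rw [hvre, hre0]
          have h2 : (j:ℝ) + 1 ≤ i := by exact_mod_cast hj
          have := hw.right
          linarith
        · rw [huim]; exact hup
      obtain ⟨a1, a2, a3⟩ := sgn_u hν0 hadm hn
      have hul : Real.exp (-k) ≤ ‖v - z₁‖ := by
        have h4 := (abs_le.mp (abs_im_le_norm (v - z₁))).1
        rw [huim] at h4
        linarith
      have huu : ‖v - z₁‖ ≤ 4 := by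
        have h4 := Complex.norm_le_abs_re_add_abs_im (v - z₁)
        have h5 : |(v - z₁).re| ≤ 5 / 2 := by
          rw [hure, abs_le]
          constructor <;> linarith
        have h6 : |(v - z₁).im| ≤ 1 := by
          rw [huim, abs_le]
          constructor <;> linarith
        linarith
      obtain ⟨a, ha⟩ : ∃ a, a = (OU (v, ρ₀)).1 + 1 := ⟨_, rfl⟩
      rw [← ha] at a1 a2 a3 hn
      have hs : (OU (v, ρ₀)).1 = a - 1 := by rw [ha]; ring
      have hal : 97 / 100 * Real.exp (-k) / ν ≤ ‖a‖ := by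
        refine le_trans ?_ a2
        gcongr
      have hau : ‖a‖ ≤ 1 / 10 := by
        have h4 : ‖(ν:ℂ) * a‖ ≤ 5 := by
          have h5 : (ν:ℂ) * a = (ν * a - (v - z₁)) + (v - z₁) := by ring
          rw [h5]
          refine (norm_add_le _ _).trans ?_
          linarith
        rw [norm_mul, norm_real, Real.norm_of_nonneg hν0.le] at h4
        by_contra h5
        have h6 : ν * (1 / 10) ≤ ν * ‖a‖ := mul_le_mul_of_nonneg_left (not_le.mp h5).le hν0.le
        linarith
      have hs1 : 9 / 10 ≤ ‖(OU (v, ρ₀)).1‖ := by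
        rw [hs]
        have h4 := norm_sub_norm_le (1:ℂ) a
        rw [norm_one, norm_sub_rev] at h4
        linarith
      have hs2 : ‖(OU (v, ρ₀)).1‖ ≤ 4 := by
        rw [hs]
        have h4 := norm_sub_le a (1:ℂ)
        rw [norm_one] at h4
        linarith
      have hsre : (OU (v, ρ₀)).1.re < 0 := by
        rw [hs, sub_re, one_re]
        have h4 := (abs_le.mp (abs_re_le_norm a)).2
        linarith
      obtain ⟨e, he⟩ : ∃ e, e = ellu (OU (v, ρ₀)).1 := ⟨_, rfl⟩
      have hen : ‖e‖ ≤ 4 / 5 * ν := by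
        rw [he]
        refine (ellu_near (by linarith) hs2 (by rw [← ha]; exact a1)).trans ?_
        rw [← ha]
        exact LoB_log hC.par hal
      have hei : |e.im| ≤ 7 := by
        have hπ := Real.pi_lt_d2
        have h4 := lgu_im ((OU (v, ρ₀)).1 + 1)
        have h5 := lgu_im (OU (v, ρ₀)).1
        have h6 : e.im = (lgu ((OU (v, ρ₀)).1 + 1)).im - (lgu (OU (v, ρ₀)).1).im := by
          rw [he]
          exact sub_im _ _
        rw [h6, abs_le]
        constructor <;> linarith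
      have hσ : (OU (v, ρ₀)).2 ∈ Bx s1 s2 :=
        LoB_box hC' (qi.trans (by linarith)) (qr.trans (by linarith))
      have hrad : 2 * η * ‖e‖ / ν ≤ 1 / 10 ^ 10 := by
        rw [div_le_iff₀ hν0]
        have h4 : η * ‖e‖ ≤ 1 / 10 ^ 20 * (4 / 5 * ν) :=
          mul_le_mul hη hen (norm_nonneg _) (by norm_num)
        nlinarith
      have hball : ∀ τ ∈ closedBall ((OU (v, ρ₀)).2 + e / ν) (2 * η * ‖e‖ / ν),
          |τ.im - (arg ρ₀ - Real.pi)| ≤ 1 / 10000 + (j + 1) / 10 ^ 8 ∧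
          |τ.re - Real.log (X * ‖ρ₀‖)| ≤ X / k + 300 + (j + 1) := by
        intro τ hτ
        rw [mem_closedBall, dist_eq_norm] at hτ
        have h4 := abs_le.mp ((abs_re_le_norm _).trans (hτ.trans hrad))
        have h5 := abs_le.mp ((abs_im_le_norm _).trans (hτ.trans hrad))
        rw [sub_re, add_re, div_ofReal_re] at h4
        rw [sub_im, add_im, div_ofReal_im] at h5
        have h6 : |e.re / ν| ≤ 4 / 5 := by
          rw [abs_div, abs_of_pos hν0, div_le_iff₀ hν0]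
          exact (abs_re_le_norm e).trans hen
        have h7 : |e.im / ν| ≤ 1 / 10 ^ 10 := by
          rw [abs_div, abs_of_pos hν0, div_le_iff₀ hν0]
          refine hei.trans ?_
          linarith
        have h6' := abs_le.mp h6
        have h7' := abs_le.mp h7
        have qi' := abs_le.mp qi
        have qr' := abs_le.mp qr
        rw [abs_le, abs_le]
        refine ⟨⟨?_, ?_⟩, ?_, ?_⟩ <;> linarith
      have hsub : closedBall ((OU (v, ρ₀)).2 + e / ν) (2 * η * ‖e‖ / ν) ⊆ Bx s1 s2 := by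
        intro τ hτ
        obtain ⟨h4, h5⟩ := hball τ hτ
        exact LoB_box hC' (h4.trans (by linarith)) (h5.trans (by linarith))
      obtain ⟨σ', hσ', hG, hinv⟩ := G_solve hC'.gd hν0 hη0 (by linarith) hσ hsub
      have hz' : w₀ + ((j + 1 : ℕ) : ℂ) - 1 = v := by
        rw [hv]; push_cast; ring
      have hXre : -X < (w₀ + ((j + 1 : ℕ) : ℂ)).re := by
        rw [add_re, natCast_re, hre0]
        push_cast
        linarith
      have hst := hC'.step _ hXre ρ₀
      rw [hz'] at hst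
      have e2 : (OU (w₀ + ((j + 1 : ℕ) : ℂ), ρ₀)).2 = σ' := by
        rw [hst]
        change Function.invFunOn G (Bx s1 s2) (G (OU (v, ρ₀)).2 + ellu (OU (v, ρ₀)).1) = σ'
        rw [← he]
        exact hinv
      have e1 : (OU (w₀ + ((j + 1 : ℕ) : ℂ), ρ₀)).1 = (OU (v, ρ₀)).1 + g σ' := by
        rw [hst]
        change (OU (v, ρ₀)).1 +
          g (Function.invFunOn G (Bx s1 s2) (G (OU (v, ρ₀)).2 + ellu (OU (v, ρ₀)).1)) = _
        rw [← he, hinv]
      have hcut : (a.re ≠ 0) ∨ a.im < 0 := by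
        by_cases hre : a.re = 0
        · right
          have h6 := a3 (by rw [hre])
          rw [hre, mul_zero] at h6
          refine lt_of_le_of_ne h6 (fun him => a1 ?_)
          exact Complex.ext (by rw [hre, zero_re]) (by rw [him, zero_im])
        · exact Or.inl hre
      obtain ⟨h5, h6⟩ := hball σ' hσ'
      refine ⟨?_, ?_, ?_, ?_⟩
      · refine (step_an (z := w₀ + ((j + 1 : ℕ) : ℂ)) hC'.gd hν0 (by linarith : η < 1) ?_
          (LoB_step hC' hXre) ?_ ?_ ?_ ?_).1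
        · rw [hz']; exact qa
        · rw [hz']
          exact ellu_an hsre (by rw [← ha]; exact hcut)
        · rw [hz']; exact hσ
        · rw [e2]; exact hsub hσ'
        · rw [hz', e2, ← he]; exact hG
      · rw [e2]
        push_cast
        exact h5
      · rw [e2]
        push_cast
        exact h6
      · have h7 := hC'.gd.gc σ' (hsub hσ')
        have h8 : (ν:ℂ) * ((OU (w₀ + ((j + 1 : ℕ) : ℂ), ρ₀)).1 + 1) -
            (w₀ + ((j + 1 : ℕ) : ℂ) - z₁) =
            (ν * ((OU (v, ρ₀)).1 + 1) - (v - z₁)) + (ν * g σ' - 1) := by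
          rw [e1, hv]
          push_cast
          ring
        rw [h8]
        refine (norm_add_le _ _).trans ?_
        push_cast
        linarith
  obtain ⟨r1, r2, r3, -⟩ := Q i le_rfl
  rw [← hwe] at r1 r2 r3
  have hi4 : (i:ℝ) ≤ 3 := by exact_mod_cast hi3
  exact ⟨r1, LoB_box hC' (r2.trans (by linarith)) (r3.trans (by linarith))⟩

end Pool.Agent.MP_ae5b4e_an_N4
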