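import Pool.Agent.Lib.MP_ae5b4e_an_N4.LfB
import Pool.Agent.Lib.MP_ae5b4e_an_N4.LoB
import Pool.Agent.Lib.MP_ae5b4e_an_N4.Orb

/-!
# N4, module ChM: main theorem of the part CH

`chn_p`, `chn_u`, `left_zone`, `pu_eq`, `low_three`, `low_zone`; the two chains agree near the start
zone by `orb_eq`.
-/

set_option autoImplicit false

noncomputable section

namespace Pool.Agent.MP_ae5b4e_an_N4

open Complex Set Filter Topology Metric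

theorem chain {k ν X δ η Dl s1 s2 : ℝ} {G n g : ℂ → ℂ} {S0 : ℂ × ℂ → ℂ × ℂ} {ρ₀ : ℂ}
    (hS : Std k ν X δ η Dl s1 s2 G n g S0 ρ₀) :
    Chn k ν X δ η Dl s1 s2 G n g ellp (orb (stp ellp (Bx s1 s2) G g) S0 X) ρ₀ ∧
    Chn k ν X δ η Dl s1 s2 G n g ellu (orb (stp ellu (Bx s1 s2) G g) S0 X) ρ₀ ∧
    ∃ z₁ : ℂ, IsZ1 k ν X δ (orb (stp ellp (Bx s1 s2) G g) S0 X) ρ₀ z₁ ∧
      (∀ z ∈ Zn k X (z₁.re + 1 / 2), (z - z₁).im ≤ 1 / 8 →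
        orb (stp ellu (Bx s1 s2) G g) S0 X =ᶠ[𝓝 (z, ρ₀)]
          orb (stp ellp (Bx s1 s2) G g) S0 X) ∧
      (∀ z : ℂ, -X - 1 ≤ z.re → Adn k z₁ z →
        AnalyticAt ℂ (orb (stp ellu (Bx s1 s2) G g) S0 X) (z, ρ₀) ∧
        (orb (stp ellu (Bx s1 s2) G g) S0 X (z, ρ₀)).2 ∈ Bx s1 s2) ∧
      (arg ρ₀ ≤ ph0 → ∀ z : ℂ, -X - 1 ≤ z.re → Adm k z₁ z →
        GdU k ν X δ (orb (stp ellu (Bx s1 s2) G g) S0 X) ρ₀ z) := by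
  have hP := chn_p hS
  have hU := chn_u hS
  obtain ⟨z₁, hz⟩ := left_zone hP
  have h0 : ∀ z : ℂ, -X - 1 ≤ z.re → z.re ≤ -X → |z.im| ≤ k →
      orb (stp ellu (Bx s1 s2) G g) S0 X =ᶠ[𝓝 (z, ρ₀)]
        orb (stp ellp (Bx s1 s2) G g) S0 X := fun z h1 h2 h3 =>
    (orb_eq hS h1 h2 h3).1.trans (orb_eq hS h1 h2 h3).2.symm
  exact ⟨hP, hU, z₁, hz, fun z hw h => pu_eq hP hU hz h0 hw h,
    fun z h1 hw => low_three hP hU hz h0 h1 hw,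
    fun hθ z h1 hw => low_zone hP hU hz h0 hθ h1 hw⟩

end Pool.Agent.MP_ae5b4e_an_N4
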