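import Pool.Agent.Lib.MP_ae5b4e_an_N4.ChD

/-!
# N4, module Sum: real sums over a column

* `sum_log`: `M ^ N / N! ≤ exp M` (`Real.pow_div_factorial_le_exp` or the exponential series), take the
  logarithm.
* `sum_posLog`: the terms with `j ≥ M` vanish; for `N' = min N ⌊M⌋₊` the sum is
  `∑_{j ≤ N'} log (M / j) ≤ M` (`sum_log`).
* `sum_two`: the `j` with `t ≤ j - 1 / 2`, in increasing order `j_1 < j_2 < …`, satisfy `j_i - t ≥ i - 1/2 ≥ i / 2`
  (`j_i ≥ j_1 + i - 1`), so their part is `≤ ∑_i log⁺ (2 M / i) ≤ 2 M` (`sum_posLog`); the same for the `j` with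
  `j ≤ t - 1/2`.  (Lean: for the right part put `j_0 = ⌈t + 1 / 2⌉`, for `j ≥ j_0`:
  `|t - j| ≥ (j - j_0 + 1) / 2`, reindex `i = j - j_0 + 1`; for the left part
  `j_0 = ⌊t - 1 / 2⌋`, `|t - j| ≥ (j_0 - j + 1) / 2`.  `log⁺` is monotone.)
* `sum_sq`: for `x_j = j / ν - x0 ≥ 1`: `1 / x_j ^ 2 ≤ ν (1 / (x_j - 1 / ν) - 1 / x_j)`; the numbers
  `j` with `x_j ≥ 1` are consecutive, the sum telescopes: `≤ ν / (1 - 1 / ν) ≤ 11 / 10 ν` (`ν ≥ 100`).
* `card_lt`: natural numbers `1 ≤ j < c`: at most `c` (`Nat.floor`).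
* `card_Ico`: numbers with `a ≤ j < b`: at most `b - a + 1`.
* `sum_inv`: `∑_{j ≤ N} 1 / j ≤ 1 + log N` (`harmonic_le_one_add_log`).
-/

set_option autoImplicit false

noncomputable section

namespace Pool.Agent.MP_ae5b4e_an_N4

open Set Filter Topology

theorem sum_log {M : ℝ} (hM : 0 < M) (N : ℕ) :
    ∑ j ∈ Finset.Icc 1 N, Real.log (M / j) ≤ M := by
  have h0 : ∀ j ∈ Finset.Icc 1 N, M / (j : ℝ) ≠ 0 := by
    intro j hj
    have : (0 : ℝ) < j := by exact_mod_cast (Finset.mem_Icc.1 hj).1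
    exact (div_pos hM this).ne'
  have h00 : ∀ N : ℕ, ∏ i ∈ Finset.Icc 1 N, i = N.factorial := by
    intro N
    induction N with
    | zero => simp
    | succ n ih =>
      rw [Finset.prod_Icc_succ_top (by omega), ih, Nat.factorial_succ, mul_comm]
  rw [← Real.log_prod h0, Finset.prod_div_distrib, Finset.prod_const, Nat.card_Icc,
    Nat.add_sub_cancel, ← Nat.cast_prod, h00]
  have h1 : (0 : ℝ) < M ^ N / (N.factorial : ℝ) :=
    div_pos (pow_pos hM N) (by exact_mod_cast N.factorial_pos)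
  calc Real.log (M ^ N / (N.factorial : ℝ)) ≤ Real.log (Real.exp M) :=
        Real.log_le_log h1 (Real.pow_div_factorial_le_exp M hM.le N)
    _ = M := Real.log_exp M

theorem sum_posLog {M : ℝ} (hM : 0 < M) (N : ℕ) :
    ∑ j ∈ Finset.Icc 1 N, Real.posLog (M / j) ≤ M := by
  induction N with
  | zero => simpa using hM.le
  | succ N ih =>
    rcases le_or_gt ((N + 1 : ℕ) : ℝ) M with h | h
    · refine le_trans (Finset.sum_le_sum fun j hj => ?_) (sum_log hM (N + 1))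
      have h1 : (0 : ℝ) < j := by exact_mod_cast (Finset.mem_Icc.1 hj).1
      have h2 : (j : ℝ) ≤ ((N + 1 : ℕ) : ℝ) := by exact_mod_cast (Finset.mem_Icc.1 hj).2
      refine le_of_eq (Real.posLog_eq_log ?_)
      rw [abs_of_pos (div_pos hM h1), le_div_iff₀ h1, one_mul]
      exact h2.trans h
    · rw [Finset.sum_Icc_succ_top (by omega)]
      have h1 : (0 : ℝ) < ((N + 1 : ℕ) : ℝ) := by positivity
      have h2 : Real.posLog (M / ((N + 1 : ℕ) : ℝ)) = 0 := by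
        rw [Real.posLog_eq_zero_iff, abs_of_pos (div_pos hM h1), div_le_one h1]
        exact h.le
      rw [h2, add_zero]
      exact ih

private theorem sum_inj {M : ℝ} (hM : 0 < M) (S : Finset ℕ) (g : ℕ → ℕ)
    (hg : Set.InjOn g S) (h1 : ∀ j ∈ S, 1 ≤ g j) :
    ∑ j ∈ S, Real.posLog (M / (g j : ℝ)) ≤ M := by
  have e : ∑ j ∈ S, Real.posLog (M / (g j : ℝ)) =
      ∑ i ∈ S.image g, Real.posLog (M / (i : ℝ)) :=
    (Finset.sum_image (f := fun i : ℕ => Real.posLog (M / (i : ℝ))) hg).symm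
  rw [e]
  refine le_trans (Finset.sum_le_sum_of_subset_of_nonneg
    (t := Finset.Icc 1 ((S.image g).sup id)) ?_ ?_) (sum_posLog hM _)
  · intro i hi
    rw [Finset.mem_Icc]
    refine ⟨?_, Finset.le_sup (f := id) hi⟩
    obtain ⟨j, hj, rfl⟩ := Finset.mem_image.1 hi
    exact h1 j hj
  · intro i _ _
    exact Real.posLog_nonneg

private theorem posLog_half {M x y : ℝ} (hM : 0 < M) (hy : 0 < y) (hxy : y / 2 ≤ x) :
    Real.posLog (M / x) ≤ Real.posLog (2 * M / y) := by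
  have hx : 0 < x := lt_of_lt_of_le (by positivity) hxy
  refine Real.posLog_le_posLog (by positivity) ?_
  rw [div_le_div_iff₀ hx hy]
  nlinarith

theorem sum_two {M t : ℝ} (hM : 0 < M) (N : ℕ) :
    ∑ j ∈ (Finset.Icc 1 N).filter (fun j : ℕ => 1 / 2 ≤ |t - j|), Real.posLog (M / |t - j|) ≤
      4 * M := by
  have hsub : (Finset.Icc 1 N).filter (fun j : ℕ => 1 / 2 ≤ |t - j|) ⊆
      (Finset.Icc 1 N).filter (fun j : ℕ => t + 1 / 2 ≤ j) ∪
      (Finset.Icc 1 N).filter (fun j : ℕ => (j : ℝ) ≤ t - 1 / 2) := by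
    intro j hj
    obtain ⟨h1, h2⟩ := Finset.mem_filter.1 hj
    rw [Finset.mem_union]
    rcases le_abs.1 h2 with h | h
    · right
      exact Finset.mem_filter.2 ⟨h1, by linarith⟩
    · left
      exact Finset.mem_filter.2 ⟨h1, by linarith⟩
  have hR : ∑ j ∈ (Finset.Icc 1 N).filter (fun j : ℕ => t + 1 / 2 ≤ j),
      Real.posLog (M / |t - j|) ≤ 2 * M := by
    have hj : ∀ j ∈ (Finset.Icc 1 N).filter (fun j : ℕ => t + 1 / 2 ≤ j),
        ⌈t + 1 / 2⌉ ≤ (j : ℤ) := by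
      intro j hj
      rw [Int.ceil_le]
      exact_mod_cast (Finset.mem_filter.1 hj).2
    have hc : ∀ j ∈ (Finset.Icc 1 N).filter (fun j : ℕ => t + 1 / 2 ≤ j),
        ((((j : ℤ) - ⌈t + 1 / 2⌉ + 1).toNat : ℕ) : ℤ) = (j : ℤ) - ⌈t + 1 / 2⌉ + 1 := by
      intro j hj'
      have := hj j hj'
      exact Int.toNat_of_nonneg (by omega)
    refine le_trans (Finset.sum_le_sum fun j hj' => ?_) (sum_inj (M := 2 * M) (by positivity)
      ((Finset.Icc 1 N).filter (fun j : ℕ => t + 1 / 2 ≤ j))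
      (fun j => ((j : ℤ) - ⌈t + 1 / 2⌉ + 1).toNat) ?_ ?_)
    · have k1 := hj j hj'
      have k2 := hc j hj'
      have k3 : ((((j : ℤ) - ⌈t + 1 / 2⌉ + 1).toNat : ℕ) : ℝ) =
          (j : ℝ) - (⌈t + 1 / 2⌉ : ℝ) + 1 := by
        exact_mod_cast congrArg (fun x : ℤ => (x : ℝ)) k2
      have k4 : ((⌈t + 1 / 2⌉ : ℤ) : ℝ) ≤ (j : ℝ) := by exact_mod_cast k1
      have k5 : t + 1 / 2 ≤ ((⌈t + 1 / 2⌉ : ℤ) : ℝ) := Int.le_ceil _
      refine posLog_half hM ?_ ?_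
      · rw [k3]
        linarith
      · rw [k3, abs_of_nonpos (by linarith)]
        linarith
    · intro i hi j hj' hij
      have k1 := hc i (Finset.mem_coe.1 hi)
      have k2 := hc j (Finset.mem_coe.1 hj')
      have hij' : ((i : ℤ) - ⌈t + 1 / 2⌉ + 1).toNat = ((j : ℤ) - ⌈t + 1 / 2⌉ + 1).toNat := hij
      rw [hij'] at k1
      have : (i : ℤ) = j := by linarith
      exact_mod_cast this
    · intro j hj'
      have k1 := hj j hj'
      have k2 := hc j hj'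
      have k3 : (1 : ℤ) ≤ ((((j : ℤ) - ⌈t + 1 / 2⌉ + 1).toNat : ℕ) : ℤ) := by
        rw [k2]
        linarith
      exact_mod_cast k3
  have hL : ∑ j ∈ (Finset.Icc 1 N).filter (fun j : ℕ => (j : ℝ) ≤ t - 1 / 2),
      Real.posLog (M / |t - j|) ≤ 2 * M := by
    have hj : ∀ j ∈ (Finset.Icc 1 N).filter (fun j : ℕ => (j : ℝ) ≤ t - 1 / 2),
        (j : ℤ) ≤ ⌊t - 1 / 2⌋ := by
      intro j hj
      rw [Int.le_floor]
      exact_mod_cast (Finset.mem_filter.1 hj).2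
    have hc : ∀ j ∈ (Finset.Icc 1 N).filter (fun j : ℕ => (j : ℝ) ≤ t - 1 / 2),
        (((⌊t - 1 / 2⌋ - (j : ℤ) + 1).toNat : ℕ) : ℤ) = ⌊t - 1 / 2⌋ - (j : ℤ) + 1 := by
      intro j hj'
      have := hj j hj'
      exact Int.toNat_of_nonneg (by omega)
    refine le_trans (Finset.sum_le_sum fun j hj' => ?_) (sum_inj (M := 2 * M) (by positivity)
      ((Finset.Icc 1 N).filter (fun j : ℕ => (j : ℝ) ≤ t - 1 / 2))
      (fun j => (⌊t - 1 / 2⌋ - (j : ℤ) + 1).toNat) ?_ ?_)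
    · have k1 := hj j hj'
      have k2 := hc j hj'
      have k3 : (((⌊t - 1 / 2⌋ - (j : ℤ) + 1).toNat : ℕ) : ℝ) =
          (⌊t - 1 / 2⌋ : ℝ) - (j : ℝ) + 1 := by
        exact_mod_cast congrArg (fun x : ℤ => (x : ℝ)) k2
      have k4 : (j : ℝ) ≤ ((⌊t - 1 / 2⌋ : ℤ) : ℝ) := by exact_mod_cast k1
      have k5 : ((⌊t - 1 / 2⌋ : ℤ) : ℝ) ≤ t - 1 / 2 := Int.floor_le _
      refine posLog_half hM ?_ ?_
      · rw [k3]
        linarith
      · rw [k3, abs_of_nonneg (by linarith)]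
        linarith
    · intro i hi j hj' hij
      have k1 := hc i (Finset.mem_coe.1 hi)
      have k2 := hc j (Finset.mem_coe.1 hj')
      have hij' : (⌊t - 1 / 2⌋ - (i : ℤ) + 1).toNat = (⌊t - 1 / 2⌋ - (j : ℤ) + 1).toNat := hij
      rw [hij'] at k1
      have : (i : ℤ) = j := by linarith
      exact_mod_cast this
    · intro j hj'
      have k1 := hj j hj'
      have k2 := hc j hj'
      have k3 : (1 : ℤ) ≤ (((⌊t - 1 / 2⌋ - (j : ℤ) + 1).toNat : ℕ) : ℤ) := by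
        rw [k2]
        linarith
      exact_mod_cast k3
  have hnn : ∀ j : ℕ, 0 ≤ Real.posLog (M / |t - j|) := fun j => Real.posLog_nonneg
  calc ∑ j ∈ (Finset.Icc 1 N).filter (fun j : ℕ => 1 / 2 ≤ |t - j|), Real.posLog (M / |t - j|)
      ≤ ∑ j ∈ (Finset.Icc 1 N).filter (fun j : ℕ => t + 1 / 2 ≤ j) ∪
        (Finset.Icc 1 N).filter (fun j : ℕ => (j : ℝ) ≤ t - 1 / 2), Real.posLog (M / |t - j|) :=
        Finset.sum_le_sum_of_subset_of_nonneg hsub fun j _ _ => hnn j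
    _ ≤ ∑ j ∈ (Finset.Icc 1 N).filter (fun j : ℕ => t + 1 / 2 ≤ j), Real.posLog (M / |t - j|) +
        ∑ j ∈ (Finset.Icc 1 N).filter (fun j : ℕ => (j : ℝ) ≤ t - 1 / 2),
          Real.posLog (M / |t - j|) := by
        rw [← Finset.sum_union_inter]
        exact le_add_of_nonneg_right (Finset.sum_nonneg fun j _ => hnn j)
    _ ≤ 4 * M := by linarith

theorem sum_sq {ν x0 : ℝ} (hν : 100 ≤ ν) (m : ℕ) :
    ∑ j ∈ (Finset.Icc 1 m).filter (fun j : ℕ => 1 ≤ (j:ℝ) / ν - x0), 1 / ((j:ℝ) / ν - x0) ^ 2 ≤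
      11 / 10 * ν := by
  have hν0 : 0 < ν := by linarith
  have hh : 0 < 1 / ν := by positivity
  have hh1 : 1 / ν ≤ 1 / 100 := one_div_le_one_div_of_le (by norm_num) hν
  have key : ∀ m : ℕ, ∑ j ∈ (Finset.Icc 1 m).filter (fun j : ℕ => 1 ≤ (j:ℝ) / ν - x0),
      1 / ((j:ℝ) / ν - x0) ^ 2 ≤
      ν * (1 / (1 - 1 / ν) - 1 / max ((m : ℝ) / ν - x0) (1 - 1 / ν)) := by
    intro m
    have hpos : (0 : ℝ) < 1 - 1 / ν := by linarith
    induction m with
    | zero =>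
      simp only [Finset.sum_filter]
      rw [Finset.Icc_eq_empty (by norm_num), Finset.sum_empty]
      refine mul_nonneg hν0.le (sub_nonneg.2 ?_)
      exact one_div_le_one_div_of_le hpos (le_max_right _ _)
    | succ m ih =>
      rw [Finset.sum_filter] at ih ⊢
      rw [Finset.sum_Icc_succ_top (by omega)]
      have hx : (((m + 1 : ℕ) : ℝ)) / ν - x0 = ((m : ℝ) / ν - x0) + 1 / ν := by
        push_cast
        ring
      rw [hx]
      set x := (m : ℝ) / ν - x0 with hxdef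
      split_ifs with h
      · have h1 : max x (1 - 1 / ν) = x := max_eq_left (by linarith)
        have h2 : max (x + 1 / ν) (1 - 1 / ν) = x + 1 / ν := max_eq_left (by linarith)
        rw [h1] at ih
        rw [h2]
        have hxp : 0 < x := by linarith
        have h3 : 1 / (x + 1 / ν) ^ 2 ≤ ν * (1 / x - 1 / (x + 1 / ν)) := by
          have h4 : ν * (1 / x - 1 / (x + 1 / ν)) = 1 / (x * (x + 1 / ν)) := by
            field_simp
            ring
          rw [h4]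
          refine one_div_le_one_div_of_le (by positivity) ?_
          nlinarith
        have h5 : ν * (1 / (1 - 1 / ν) - 1 / (x + 1 / ν)) =
            ν * (1 / (1 - 1 / ν) - 1 / x) + ν * (1 / x - 1 / (x + 1 / ν)) := by ring
        rw [h5]
        exact add_le_add ih h3
      · rw [add_zero]
        refine ih.trans (mul_le_mul_of_nonneg_left ?_ hν0.le)
        refine sub_le_sub_left (one_div_le_one_div_of_le ?_ ?_) _
        · exact lt_of_lt_of_le hpos (le_max_right _ _)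
        · exact max_le_max (by linarith) le_rfl
  refine (key m).trans ?_
  have hpos : (99 / 100 : ℝ) ≤ 1 - 1 / ν := by linarith
  have h1 : 1 / (1 - 1 / ν) ≤ 11 / 10 := by
    refine (one_div_le_one_div_of_le (by norm_num) hpos).trans ?_
    norm_num
  have h2 : 0 ≤ 1 / max ((m : ℝ) / ν - x0) (1 - 1 / ν) :=
    one_div_nonneg.2 (le_trans (by linarith) (le_max_right _ _))
  nlinarith

theorem card_lt {c : ℝ} (hc : 0 ≤ c) (m : ℕ) :
    (((Finset.Icc 1 m).filter (fun j : ℕ => (j:ℝ) < c)).card : ℝ) ≤ c := by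
  have h1 : (Finset.Icc 1 m).filter (fun j : ℕ => (j:ℝ) < c) ⊆ Finset.Icc 1 ⌊c⌋₊ := by
    intro j hj
    obtain ⟨h1, h2⟩ := Finset.mem_filter.1 hj
    exact Finset.mem_Icc.2 ⟨(Finset.mem_Icc.1 h1).1, Nat.le_floor h2.le⟩
  have h2 := Finset.card_le_card h1
  rw [Nat.card_Icc, Nat.add_sub_cancel] at h2
  exact le_trans (by exact_mod_cast h2) (Nat.floor_le hc)

theorem card_Ico {a b : ℝ} (hab : a ≤ b) (m : ℕ) :
    (((Finset.Icc 1 m).filter (fun j : ℕ => a ≤ (j:ℝ) ∧ (j:ℝ) < b)).card : ℝ) ≤ b - a + 1 := by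
  have h1 : ((Finset.Icc 1 m).filter (fun j : ℕ => a ≤ (j:ℝ) ∧ (j:ℝ) < b)).card ≤
      (Finset.Ico ⌈a⌉ ⌈b⌉).card := by
    refine Finset.card_le_card_of_injOn (fun j : ℕ => (j : ℤ)) ?_ ?_
    · intro j hj
      obtain ⟨-, h2, h3⟩ := Finset.mem_filter.1 (Finset.mem_coe.1 hj)
      rw [Finset.mem_coe, Finset.mem_Ico, Int.ceil_le, Int.lt_ceil]
      exact ⟨by exact_mod_cast h2, by exact_mod_cast h3⟩
    · intro i _ j _ hij
      exact Int.natCast_inj.1 hij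
  rw [Int.card_Ico] at h1
  have h2 : ⌈a⌉ ≤ ⌈b⌉ := Int.ceil_le_ceil hab
  have h3 : (((⌈b⌉ - ⌈a⌉).toNat : ℕ) : ℤ) = ⌈b⌉ - ⌈a⌉ := Int.toNat_of_nonneg (by omega)
  have h4 : (((⌈b⌉ - ⌈a⌉).toNat : ℕ) : ℝ) = (⌈b⌉ : ℝ) - (⌈a⌉ : ℝ) := by
    exact_mod_cast congrArg (fun x : ℤ => (x : ℝ)) h3
  have h5 : (⌈b⌉ : ℝ) < b + 1 := Int.ceil_lt_add_one b
  have h6 : a ≤ (⌈a⌉ : ℝ) := Int.le_ceil a
  have h7 : (((Finset.Icc 1 m).filter (fun j : ℕ => a ≤ (j:ℝ) ∧ (j:ℝ) < b)).card : ℝ) ≤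
      (((⌈b⌉ - ⌈a⌉).toNat : ℕ) : ℝ) := by exact_mod_cast h1
  rw [h4] at h7
  linarith

theorem sum_inv (N : ℕ) : ∑ j ∈ Finset.Icc 1 N, (1:ℝ) / j ≤ 1 + Real.log N := by
  have h1 := harmonic_le_one_add_log N
  rw [harmonic_eq_sum_Icc] at h1
  push_cast at h1
  simpa only [one_div] using h1

end Pool.Agent.MP_ae5b4e_an_N4
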