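import Pool.Agent.Lib.MP_ae5b4e_an_N4.EllB
import Pool.Agent.Lib.MP_ae5b4e_an_N4.Sum

/-!
# N4, module ColL: a column of the left zone

`a j = s (z - j) + 1`, `j = 1, …, m`; `x_j := j / ν - x0`, so `a j` is within `2 δ` of
`- x_j + i y`; `x_j ≥ j / ν - 4 δ - 1 / ν ≥ - 4 δ`.  `s_j := a j - 1`.

NORMS.  `‖s_j‖ ≥ |Re s_j| ≥ 1 + x_j - 2 δ ≥ 0.99`.
Nodes with `x_j ≥ 2`: `‖s_j‖ ≥ 2`, `ellp_far`: `‖ellp s_j‖ ≤ 1`; their sum is `≤ m ≤ X + k ≤ (X / k + 1) ν / 2`.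
Nodes with `x_j < 2`: `j < (2 + x0) ν ≤ 2.001 ν =: c` (`card_lt`), `‖s_j‖ ≤ 1 + x_j + |y| + 2 δ ≤ 4`
(if `x_j ≥ - 4 δ`, true), `a j ≠ 0` (`hl`), `ellp_near`: `‖ellp s_j‖ ≤ 12 + log⁺ (1 / ‖a j‖)` and
`log⁺ (1 / ‖a j‖) ≤ log⁺ (4 ν / min (j, e6 k)) ≤ log⁺ (4 ν / j) + log⁺ (4 ν / (e6 k))`,
`log (4 ν / (e6 k)) ≤ log (9 · 10 ^ 10) ≤ 26` (`log 10 ≤ 2.31`), `∑ log⁺ (4 ν / j) ≤ 4 ν` (`sum_posLog`).
Sum `≤ 2.001 ν · 38 + 4 ν ≤ 81 ν`.  Total `≤ (X / k + 200) ν`.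

IMAGINARY PARTS.  `|Im a j| ≤ e6 + 2 δ ≤ 1.1 · 10 ^ (-10) =: q`.  `τ := 10 ^ (-5)`.
Nodes with `x_j < τ`: `j < (τ + x0) ν ≤ (τ + 4 δ) ν + 1 ≤ 1.001 · 10 ^ (-5) ν`, each `≤ π` (`ellp_im_pi`):
`≤ 3.15 · 10 ^ (-5) ν`.
Nodes with `τ ≤ x_j < 1`: at most `ν + 1`, `Re a j ≤ - x_j + 2 δ ≤ - 0.99 x_j < 0`, `ellp_im`:
`≤ q / (0.99 τ)`, together `≤ 1.12 · 10 ^ (-5) ν`.
Nodes with `x_j ≥ 1`: `≤ q / (0.99 x_j) ^ 2`, `sum_sq`: `≤ 1.3 · 10 ^ (-10) ν`.
Sum `≤ 4.3 · 10 ^ (-5) ν ≤ ν / 15000`.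
-/

set_option autoImplicit false

noncomputable section

namespace Pool.Agent.MP_ae5b4e_an_N4

open Complex Set Filter Topology Metric

private theorem ColL_re {a : ℂ} {x y δ : ℝ}
    (ha : ‖a - (((-x : ℝ) : ℂ) + (y : ℂ) * I)‖ ≤ 2 * δ) :
    |a.re + x| ≤ 2 * δ ∧ |a.im - y| ≤ 2 * δ := by
  constructor
  · refine le_trans ?_ ha
    have h1 := Complex.abs_re_le_norm (a - (((-x : ℝ) : ℂ) + (y : ℂ) * I))
    have h2 : (a - (((-x : ℝ) : ℂ) + (y : ℂ) * I)).re = a.re + x := by simp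
    rwa [h2] at h1
  · refine le_trans ?_ ha
    have h1 := Complex.abs_im_le_norm (a - (((-x : ℝ) : ℂ) + (y : ℂ) * I))
    have h2 : (a - (((-x : ℝ) : ℂ) + (y : ℂ) * I)).im = a.im - y := by simp
    rwa [h2] at h1

private theorem ColL_far {a : ℂ} {x y δ : ℝ} (hδ : δ ≤ 1 / 10 ^ 12)
    (ha : ‖a - (((-x : ℝ) : ℂ) + (y : ℂ) * I)‖ ≤ 2 * δ) (hx : 2 ≤ x) : ‖ellp (a - 1)‖ ≤ 1 := by
  obtain ⟨h1, -⟩ := ColL_re ha
  have h2 := abs_le.1 h1
  have h3 : 2 ≤ ‖a - 1‖ := by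
    refine le_trans ?_ (Complex.abs_re_le_norm _)
    rw [Complex.sub_re, Complex.one_re]
    have h4 : a.re - 1 ≤ -2 := by
      have := h2.2
      norm_num at hδ
      linarith
    rw [abs_of_nonpos (by linarith)]
    linarith
  refine (ellp_far h3).trans ?_
  rw [div_le_one (by linarith)]
  exact h3

private theorem ColL_near {a : ℂ} {x y δ : ℝ} (hδ0 : 0 < δ) (hδ : δ ≤ 1 / 10 ^ 12)
    (hy : |y| ≤ 1 / 10 ^ 10) (hx0 : -(4 * δ) ≤ x)
    (ha : ‖a - (((-x : ℝ) : ℂ) + (y : ℂ) * I)‖ ≤ 2 * δ) (hx : x < 2) (ha0 : a ≠ 0) :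
    ‖ellp (a - 1)‖ ≤ 12 + Real.posLog (1 / ‖a‖) := by
  obtain ⟨h1, h1'⟩ := ColL_re ha
  have h2 := abs_le.1 h1
  have h2' := abs_le.1 h1'
  have hy' := abs_le.1 hy
  norm_num at hδ hy'
  have h3 : 1 / 3 ≤ ‖a - 1‖ := by
    refine le_trans ?_ (Complex.abs_re_le_norm _)
    rw [Complex.sub_re, Complex.one_re, abs_of_nonpos (by linarith)]
    linarith
  have h4 : ‖a - 1‖ ≤ 4 := by
    refine (Complex.norm_le_abs_re_add_abs_im _).trans ?_
    rw [Complex.sub_re, Complex.one_re, Complex.sub_im, Complex.one_im, sub_zero,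
      abs_of_nonpos (by linarith : a.re - 1 ≤ 0)]
    have h5 : |a.im| ≤ 1 / 2 := by
      rw [abs_le]
      constructor <;> linarith
    linarith
  have h5 : a - 1 + 1 ≠ 0 := by rwa [sub_add_cancel]
  have h6 := ellp_near h3 h4 h5
  rwa [sub_add_cancel] at h6

private theorem ColL_im {a : ℂ} {x y δ : ℝ} (hδ0 : 0 < δ) (hδ : δ ≤ 1 / 10 ^ 12)
    (hy : |y| ≤ 1 / 10 ^ 10)
    (ha : ‖a - (((-x : ℝ) : ℂ) + (y : ℂ) * I)‖ ≤ 2 * δ) (hx : 1 / 10 ^ 5 ≤ x) :
    |(ellp (a - 1)).im| ≤ (102 / 10 ^ 12) / (99 / 100 * x * (99 / 100 * x + 1)) := by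
  obtain ⟨h1, h1'⟩ := ColL_re ha
  have h2 := abs_le.1 h1
  have h2' := abs_le.1 h1'
  have hy' := abs_le.1 hy
  norm_num at hδ hy' hx
  have h3 : (a - 1).re < -1 := by
    rw [Complex.sub_re, Complex.one_re]
    linarith
  have h4 := ellp_im h3
  rw [Complex.sub_re, Complex.one_re, sub_add_cancel, Complex.sub_im, Complex.one_im,
    sub_zero] at h4
  refine h4.trans ?_
  have h5 : |a.im| ≤ 102 / 10 ^ 12 := by
    rw [abs_le]
    norm_num
    constructor <;> linarith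
  have h6 : 99 / 100 * x ≤ |a.re| := by
    rw [abs_of_nonpos (by linarith)]
    linarith
  have h7 : 0 < 99 / 100 * x := by linarith
  refine div_le_div₀ (by norm_num) h5 (mul_pos h7 (by linarith)) ?_
  exact mul_le_mul h6 (by linarith) (by linarith) (by linarith)

private theorem ColL_im1 {x : ℝ} (hx : 1 / 10 ^ 5 ≤ x) :
    (102 / 10 ^ 12 : ℝ) / (99 / 100 * x * (99 / 100 * x + 1)) ≤ 112 / 10 ^ 7 := by
  have h0 : (0 : ℝ) < 1 / 10 ^ 5 := by norm_num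
  have h1 : 0 < x := h0.trans_le hx
  rw [div_le_iff₀ (by positivity)]
  have h2 : 99 / 100 * (1 / 10 ^ 5) ≤ 99 / 100 * x * (99 / 100 * x + 1) := by
    have h3 : 99 / 100 * (1 / 10 ^ 5) ≤ 99 / 100 * x := by linarith
    have h4 : 0 ≤ 99 / 100 * x * (99 / 100 * x) := by positivity
    linarith
  norm_num at h2 ⊢
  linarith

private theorem ColL_im2 {x : ℝ} (hx : 1 ≤ x) :
    (102 / 10 ^ 12 : ℝ) / (99 / 100 * x * (99 / 100 * x + 1)) ≤ 113 / 10 ^ 12 * (1 / x ^ 2) := by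
  have h1 : 0 < x := one_pos.trans_le hx
  rw [div_le_iff₀ (by positivity)]
  have h2 : 113 / 10 ^ 12 * (1 / x ^ 2) * (99 / 100 * x * (99 / 100 * x + 1)) =
      113 / 10 ^ 12 * (99 / 100) ^ 2 + 113 / 10 ^ 12 * (99 / 100) / x := by
    field_simp
  rw [h2]
  have h3 : 0 ≤ 113 / 10 ^ 12 * (99 / 100) / x := by positivity
  norm_num at h3 ⊢
  linarith

private theorem ColL_log {t : ℝ} (h0 : 0 ≤ t) (h : t ≤ 9 * 10 ^ 10) : Real.posLog t ≤ 26 := by
  have h1 : (9 * 10 ^ 10 : ℝ) ≤ Real.exp 26 := by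
    have h2 : Real.exp 26 = Real.exp 1 ^ 26 := by
      rw [← Real.exp_nat_mul]
      norm_num
    rw [h2]
    have h3 : (2.7 : ℝ) ≤ Real.exp 1 := by
      have := Real.exp_one_gt_d9
      linarith
    calc (9 * 10 ^ 10 : ℝ) ≤ 2.7 ^ 26 := by norm_num
      _ ≤ Real.exp 1 ^ 26 := pow_le_pow_left₀ (by norm_num) h3 26
  refine (Real.posLog_le_posLog h0 (h.trans h1)).trans ?_
  rw [Real.posLog_apply, Real.log_exp]
  norm_num

theorem col_left {k ν X δ η Dl : ℝ} (hP : Par k ν X δ η Dl) {m : ℕ} {x0 y : ℝ} {a : ℕ → ℂ}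
    (hm : (m:ℝ) ≤ X + k) (hx0 : x0 ≤ 4 * δ + 1 / ν) (hy : |y| ≤ e6)
    (ha : ∀ j ∈ Finset.Icc 1 m, ‖a j - (((x0 - (j:ℝ) / ν : ℝ) : ℂ) + (y:ℂ) * I)‖ ≤ 2 * δ)
    (hl : ∀ j ∈ Finset.Icc 1 m, min (j:ℝ) (e6 * k) / (4 * ν) ≤ ‖a j‖) :
    ∑ j ∈ Finset.Icc 1 m, ‖ellp (a j - 1)‖ ≤ (X / k + 200) * ν ∧
      |∑ j ∈ Finset.Icc 1 m, (ellp (a j - 1)).im| ≤ ν / 15000 := by
  have hk := hP.hk
  have hν1 := hP.ν1
  have hν2 := hP.ν2
  have hδ0 := hP.δ0
  have hδ := hP.δ1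
  have hX := hP.hX
  have hk0 : 0 < k := by linarith
  have hνb : 2 * 10 ^ 20 ≤ ν := by linarith
  have hν0 : 0 < ν := by linarith
  have hX0 : 0 < X := by nlinarith
  have he6 : e6 = 1 / 10 ^ 10 := rfl
  rw [he6] at hy
  have hinv : 1 / ν * ν = 1 := by
    field_simp
  have hxj : ∀ j ∈ Finset.Icc 1 m, -(4 * δ) ≤ (j : ℝ) / ν - x0 := by
    intro j hj
    have h1 : (1 : ℝ) ≤ j := by exact_mod_cast (Finset.mem_Icc.1 hj).1
    have h2 : 1 / ν ≤ (j : ℝ) / ν := div_le_div_of_nonneg_right h1 hν0.le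
    linarith
  have ha' : ∀ j ∈ Finset.Icc 1 m,
      ‖a j - (((-((j : ℝ) / ν - x0) : ℝ) : ℂ) + (y : ℂ) * I)‖ ≤ 2 * δ := by
    intro j hj
    have h1 := ha j hj
    rwa [neg_sub]
  have hlt : ∀ (j : ℕ) (t : ℝ), (j : ℝ) / ν - x0 < t → (j : ℝ) < (t + 4 * δ) * ν + 1 := by
    intro j t h
    have h1 : (j : ℝ) / ν < t + 4 * δ + 1 / ν := by linarith
    rw [div_lt_iff₀ hν0, add_mul, hinv] at h1
    exact h1
  have hδν : 4 * δ * ν ≤ 4 / 10 ^ 12 * ν := by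
    refine mul_le_mul_of_nonneg_right ?_ hν0.le
    norm_num at hδ ⊢
    linarith
  have hone : (1 : ℝ) ≤ ν / 10 ^ 20 := by
    rw [le_div_iff₀ (by norm_num)]
    linarith
  constructor
  · have hterm : ∀ j ∈ Finset.Icc 1 m, ‖ellp (a j - 1)‖ ≤
        1 + (if (j : ℝ) < 2001 / 1000 * ν then 38 else 0) + Real.posLog (4 * ν / j) := by
      intro j hj
      have hpl : 0 ≤ Real.posLog (4 * ν / (j : ℝ)) := Real.posLog_nonneg
      have hj1 : (1 : ℝ) ≤ j := by exact_mod_cast (Finset.mem_Icc.1 hj).1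
      rcases le_or_gt 2 ((j : ℝ) / ν - x0) with hx | hx
      · have h1 := ColL_far hδ (ha' j hj) hx
        split_ifs <;> linarith
      · have hlj := hl j hj
        rw [he6] at hlj
        have hmin : 0 < min (j : ℝ) (1 / 10 ^ 10 * k) := lt_min (by linarith) (by positivity)
        have hpos : 0 < ‖a j‖ := lt_of_lt_of_le (by positivity) hlj
        have ha0 : a j ≠ 0 := norm_pos_iff.1 hpos
        have h1 := ColL_near hδ0 hδ hy (hxj j hj) (ha' j hj) hx ha0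
        have h2 : (j : ℝ) < 2001 / 1000 * ν := by
          have h3 := hlt j 2 hx
          norm_num at hδν hone ⊢
          linarith
        rw [if_pos h2]
        have h4 : Real.posLog (1 / ‖a j‖) ≤ Real.posLog (4 * ν / j) + 26 := by
          have h5 : 1 / ‖a j‖ ≤ 4 * ν / min (j : ℝ) (1 / 10 ^ 10 * k) := by
            rw [div_le_div_iff₀ hpos hmin, one_mul]
            rw [div_le_iff₀ (by positivity)] at hlj
            linarith
          refine (Real.posLog_le_posLog (by positivity) h5).trans ?_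
          rcases min_choice (j : ℝ) (1 / 10 ^ 10 * k) with h6 | h6
          · rw [h6]
            linarith
          · rw [h6]
            have h7 : Real.posLog (4 * ν / (1 / 10 ^ 10 * k)) ≤ 26 := by
              refine ColL_log (by positivity) ?_
              rw [div_le_iff₀ (by positivity)]
              linarith
            linarith
        linarith
    have hc : (0 : ℝ) ≤ 2001 / 1000 * ν := by positivity
    have hs1 := card_lt hc m
    have hs2 := sum_posLog (M := 4 * ν) (by positivity) m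
    have hsum := Finset.sum_le_sum hterm
    rw [Finset.sum_add_distrib, Finset.sum_add_distrib, ← Finset.sum_filter, Finset.sum_const,
      Finset.sum_const, nsmul_eq_mul, nsmul_eq_mul, Nat.card_Icc, Nat.add_sub_cancel,
      mul_one] at hsum
    have h3 : X + k ≤ (X / k + 1) * ν / 2 := by
      have h4 : (X / k + 1) * (2 * k) ≤ (X / k + 1) * ν :=
        mul_le_mul_of_nonneg_left hν1 (by positivity)
      have h5 : (X / k + 1) * (2 * k) = 2 * (X + k) := by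
        field_simp
      linarith
    have h6 : 0 ≤ X / k * ν := by positivity
    have h7 : (X / k + 1) * ν / 2 = X / k * ν / 2 + ν / 2 := by ring
    have h8 : (X / k + 200) * ν = X / k * ν + 200 * ν := by ring
    rw [h7] at h3
    rw [h8]
    linarith
  · have hterm : ∀ j ∈ Finset.Icc 1 m, |(ellp (a j - 1)).im| ≤
        (if (j : ℝ) < 1001 / 10 ^ 8 * ν then 315 / 100 else 0) +
        (if (j : ℝ) < 1001 / 1000 * ν then 112 / 10 ^ 7 else 0) +
        (if 1 ≤ (j : ℝ) / ν - x0 then 113 / 10 ^ 12 * (1 / ((j : ℝ) / ν - x0) ^ 2) else 0) := by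
      intro j hj
      have hn1 : (0 : ℝ) ≤ if (j : ℝ) < 1001 / 10 ^ 8 * ν then 315 / 100 else 0 := by
        split_ifs <;> norm_num
      have hn2 : (0 : ℝ) ≤ if (j : ℝ) < 1001 / 1000 * ν then 112 / 10 ^ 7 else 0 := by
        split_ifs <;> norm_num
      have hn3 : (0 : ℝ) ≤ if 1 ≤ (j : ℝ) / ν - x0 then
          113 / 10 ^ 12 * (1 / ((j : ℝ) / ν - x0) ^ 2) else 0 := by
        split_ifs
        · positivity
        · exact le_rfl
      rcases lt_or_ge ((j : ℝ) / ν - x0) (1 / 10 ^ 5) with hx | hx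
      · have h2 : (j : ℝ) < 1001 / 10 ^ 8 * ν := by
          have h3 := hlt j _ hx
          norm_num at hδν hone h3 ⊢
          linarith
        have h4 := ellp_im_pi (a j - 1)
        have h5 := Real.pi_lt_d2
        rw [if_pos h2]
        norm_num at h5
        linarith
      · have h4 := ColL_im hδ0 hδ hy (ha' j hj) hx
        rcases lt_or_ge ((j : ℝ) / ν - x0) 1 with hx1 | hx1
        · have h2 : (j : ℝ) < 1001 / 1000 * ν := by
            have h3 := hlt j _ hx1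
            norm_num at hδν hone ⊢
            linarith
          have h5 := ColL_im1 hx
          rw [if_pos h2]
          linarith
        · have h5 := ColL_im2 hx1
          rw [if_pos hx1]
          linarith
    refine (Finset.abs_sum_le_sum_abs _ _).trans ((Finset.sum_le_sum hterm).trans ?_)
    have hs1 := card_lt (c := 1001 / 10 ^ 8 * ν) (by positivity) m
    have hs2 := card_lt (c := 1001 / 1000 * ν) (by positivity) m
    have hs3 := sum_sq (ν := ν) (x0 := x0) (by linarith) m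
    rw [Finset.sum_add_distrib, Finset.sum_add_distrib, ← Finset.sum_filter, ← Finset.sum_filter,
      ← Finset.sum_filter, Finset.sum_const, Finset.sum_const, nsmul_eq_mul, nsmul_eq_mul,
      ← Finset.mul_sum]
    norm_num at hs1 hs2 hs3 ⊢
    linarith

end Pool.Agent.MP_ae5b4e_an_N4
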