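import Pool.Agent.Lib.MP_ae5b4e_an_N4.EllB
import Pool.Agent.Lib.MP_ae5b4e_an_N4.Sum

/-!
# N4, module ColU: a column of the lower zone

`a j = s (z - j) + 1`, `j = 1, …, m`; `x_j := j / ν - x0 ≥ - 0.54`, `a j` is within `2 δ` of
`- x_j + i y`; `s_j := a j - 1`, `Re s_j ≤ - x_j - 1 + 2 δ ≤ - 0.459`.
Case D: all `Im a j < 0`.  Case U: `|y| ≤ e6` and `Im a j ≤ 1.1 Re a j`, `a j ≠ 0` whenever `Re a j ≥ 0`
(so `Re a j = 0` implies `Im a j < 0`).

NORMS.  Nodes with `x_j ≥ 2`: `Re s_j < -1`, `ellu = ellp`, `‖s_j‖ ≥ 2`: `≤ 1`, sum `≤ X + k ≤ (X / k + 1) ν / 2`.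
Nodes with `x_j < 2`: `j < 2.54 ν` (`card_lt`), `1 / 3 ≤ ‖s_j‖ ≤ 4` (`|y| ≤ 0.08`), `a j ≠ 0`,
`ellu_near`: `12 + log⁺ (1 / ‖a j‖)`.  If `‖a j‖ ≥ e6 / 8`: `log⁺ ≤ log (8 · 10 ^ 10) ≤ 26`.  Otherwise
`‖a j‖ ≥ 0.9 max (e^{-k}, |t - j|) / ν`: if `|t - j| ≥ 1 / 2`: `log⁺ (1.12 ν / |t - j|)`, these sum to
`≤ 4.48 ν` (`sum_two`, `M = 1.12 ν`); at most one `j` has `|t - j| < 1 / 2`: `≤ log (1.12 ν e^k) ≤ 2 k ≤ ν`.
Sum `≤ 2.54 ν · 38 + 4.48 ν + ν ≤ 103 ν`.  Total `≤ (X / k + 200) ν`.

IMAGINARY PARTS, case D.  All `Im s_j < 0`: every term is in `[0, π]` (`ellu_im_low`), so the sum is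
`≥ 0`.  Upper bound: nodes with `x_j < 0.1`: `j < 0.64 ν`, each `≤ π`: `≤ 2.011 ν`.  Nodes with
`0.1 ≤ x_j < 1`: at most `0.9 ν + 1` (`card_Ico`), `ellu = ellp` (`ellp_eq_ellu`), `ellp_im` with
`|Re a j| ≥ 0.0999`, `|Im a j| ≤ 0.0801`: `≤ 0.0801 / (0.0999 · 1.0999) ≤ 0.7291`, sum `≤ 0.6563 ν`.  Nodes
with `x_j ≥ 1`: `≤ 0.0801 / (0.999 x_j) ^ 2`, `sum_sq`: `≤ 0.0884 ν`.  Total `≤ 2.756 ν ≤ 57 / 20 ν`.

IMAGINARY PARTS, case U.  `|Im a j| ≤ e6 + 2 δ ≤ 1.1 · 10 ^ (-10) =: q`.  Nodes with `Re a j > 0`: in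
`[0, 81/20]` (`ellu_im_right`), `x_j < 2 δ`, `j < 0.5401 ν`: sum in `[0, 2.19 ν]`.  Nodes with `Re a j = 0`:
`Im s_j < 0`, in `[0, π]`.  Nodes with `Re a j < 0`: `ellu = ellp`; if `x_j < τ := 10 ^ (-5)` then
`- 2 δ < x_j`, at most `(τ + 2 δ) ν + 1 ≤ 1.001 · 10 ^ (-5) ν` of them (with the nodes `Re a j = 0` included), each
`≤ π` in absolute value: `≤ 3.15 · 10 ^ (-5) ν`; if `τ ≤ x_j < 1`: `≤ q / (0.99 τ)` each, together
`≤ 1.12 · 10 ^ (-5) ν`; if `x_j ≥ 1`: `≤ 1.3 · 10 ^ (-10) ν` (as in `ColL`).  So the sum is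
`≥ - 4.3 · 10 ^ (-5) ν ≥ - ν / 15000` and `≤ 2.2 ν`.
-/

set_option autoImplicit false

noncomputable section

namespace Pool.Agent.MP_ae5b4e_an_N4

open Complex Set Filter Topology Metric

private theorem ColU_re {a : ℂ} {x y δ : ℝ}
    (ha : ‖a - (((-x : ℝ) : ℂ) + (y : ℂ) * I)‖ ≤ 2 * δ) :
    |a.re + x| ≤ 2 * δ ∧ |a.im - y| ≤ 2 * δ := by
  constructor
  · refine le_trans ?_ ha
    have h1 := Complex.abs_re_le_norm (a - (((-x : ℝ) : ℂ) + (y : ℂ) * I))
    have h2 : (a - (((-x : ℝ) : ℂ) + (y : ℂ) * I)).re = a.re + x := by simp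
    rwa [h2] at h1
  · refine le_trans ?_ ha
    have h1 := Complex.abs_im_le_norm (a - (((-x : ℝ) : ℂ) + (y : ℂ) * I))
    have h2 : (a - (((-x : ℝ) : ℂ) + (y : ℂ) * I)).im = a.im - y := by simp
    rwa [h2] at h1

private theorem ColU_far {a : ℂ} {x y δ : ℝ} (hδ : δ ≤ 1 / 10 ^ 12)
    (ha : ‖a - (((-x : ℝ) : ℂ) + (y : ℂ) * I)‖ ≤ 2 * δ) (hx : 2 ≤ x) : ‖ellu (a - 1)‖ ≤ 1 := by
  obtain ⟨h1, -⟩ := ColU_re ha
  have h2 := abs_le.1 h1
  have h4 : a.re - 1 ≤ -2 := by
    have := h2.2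
    norm_num at hδ
    linarith
  have h3 : 2 ≤ ‖a - 1‖ := by
    refine le_trans ?_ (Complex.abs_re_le_norm _)
    rw [Complex.sub_re, Complex.one_re, abs_of_nonpos (by linarith)]
    linarith
  have h5 : (a - 1).re < -1 := by
    rw [Complex.sub_re, Complex.one_re]
    linarith
  rw [← ellp_eq_ellu (Or.inl h5)]
  refine (ellp_far h3).trans ?_
  rw [div_le_one (by linarith)]
  exact h3

private theorem ColU_near {a : ℂ} {x y δ : ℝ} (hδ0 : 0 < δ) (hδ : δ ≤ 1 / 10 ^ 12)
    (hy1 : -(2 / 25) ≤ y) (hy2 : y ≤ 1 / 10 ^ 10) (hx0 : -(27 / 50) ≤ x)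
    (ha : ‖a - (((-x : ℝ) : ℂ) + (y : ℂ) * I)‖ ≤ 2 * δ) (hx : x < 2) (ha0 : a ≠ 0) :
    ‖ellu (a - 1)‖ ≤ 12 + Real.posLog (1 / ‖a‖) := by
  obtain ⟨h1, h1'⟩ := ColU_re ha
  have h2 := abs_le.1 h1
  have h2' := abs_le.1 h1'
  norm_num at hδ hy2
  have h3 : 1 / 3 ≤ ‖a - 1‖ := by
    refine le_trans ?_ (Complex.abs_re_le_norm _)
    rw [Complex.sub_re, Complex.one_re, abs_of_nonpos (by linarith)]
    linarith
  have h4 : ‖a - 1‖ ≤ 4 := by
    refine (Complex.norm_le_abs_re_add_abs_im _).trans ?_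
    rw [Complex.sub_re, Complex.one_re, Complex.sub_im, Complex.one_im, sub_zero,
      abs_of_nonpos (by linarith : a.re - 1 ≤ 0)]
    have h5 : |a.im| ≤ 1 / 2 := by
      rw [abs_le]
      constructor <;> linarith
    linarith
  have h5 : a - 1 + 1 ≠ 0 := by rwa [sub_add_cancel]
  have h6 := ellu_near h3 h4 h5
  rwa [sub_add_cancel] at h6

/-- imaginary parts, nodes on the left of `- 1 / 10` -/
private theorem ColU_imD {a : ℂ} {x y δ : ℝ} (hδ0 : 0 < δ) (hδ : δ ≤ 1 / 10 ^ 12)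
    (hy1 : -(2 / 25) ≤ y) (hy2 : y ≤ 1 / 10 ^ 10)
    (ha : ‖a - (((-x : ℝ) : ℂ) + (y : ℂ) * I)‖ ≤ 2 * δ) (hx : 1 / 10 ≤ x) :
    |(ellu (a - 1)).im| ≤ (801 / 10000) / ((x - 2 * δ) * (x - 2 * δ + 1)) := by
  obtain ⟨h1, h1'⟩ := ColU_re ha
  have h2 := abs_le.1 h1
  have h2' := abs_le.1 h1'
  norm_num at hδ hy2
  have h3 : (a - 1).re < -1 := by
    rw [Complex.sub_re, Complex.one_re]
    linarith
  have h4 := ellp_im h3
  rw [Complex.sub_re, Complex.one_re, sub_add_cancel, Complex.sub_im, Complex.one_im,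
    sub_zero] at h4
  rw [← ellp_eq_ellu (Or.inl h3)]
  refine h4.trans ?_
  have h5 : |a.im| ≤ 801 / 10000 := by
    rw [abs_le]
    constructor <;> linarith
  have h6 : x - 2 * δ ≤ |a.re| := by
    rw [abs_of_nonpos (by linarith)]
    linarith
  have h7 : 0 < x - 2 * δ := by linarith
  refine div_le_div₀ (by norm_num) h5 (mul_pos h7 (by linarith)) ?_
  exact mul_le_mul h6 (by linarith) (by linarith) (by linarith)

private theorem ColU_imD1 {x δ : ℝ} (hδ0 : 0 < δ) (hδ : δ ≤ 1 / 10 ^ 12) (hx : 1 / 10 ≤ x) :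
    (801 / 10000 : ℝ) / ((x - 2 * δ) * (x - 2 * δ + 1)) ≤ 73 / 100 := by
  norm_num at hδ
  have h1 : 999 / 10000 ≤ x - 2 * δ := by linarith
  have h2 : (999 / 10000 : ℝ) * (999 / 10000 + 1) ≤ (x - 2 * δ) * (x - 2 * δ + 1) :=
    mul_le_mul h1 (by linarith) (by norm_num) (by linarith)
  rw [div_le_iff₀ (by nlinarith)]
  norm_num at h2 ⊢
  linarith

private theorem ColU_imD2 {x δ : ℝ} (hδ0 : 0 < δ) (hδ : δ ≤ 1 / 10 ^ 12) (hx : 1 ≤ x) :
    (801 / 10000 : ℝ) / ((x - 2 * δ) * (x - 2 * δ + 1)) ≤ 801 / 10000 * (1 / x ^ 2) := by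
  norm_num at hδ
  have h0 : 0 < x := by linarith
  have h1 : x ^ 2 ≤ (x - 2 * δ) * (x - 2 * δ + 1) := by nlinarith
  rw [div_eq_mul_one_div]
  refine mul_le_mul_of_nonneg_left ?_ (by norm_num)
  exact one_div_le_one_div_of_le (by positivity) h1

private theorem ColU_im {a : ℂ} {x y δ : ℝ} (hδ0 : 0 < δ) (hδ : δ ≤ 1 / 10 ^ 12)
    (hy : |y| ≤ 1 / 10 ^ 10)
    (ha : ‖a - (((-x : ℝ) : ℂ) + (y : ℂ) * I)‖ ≤ 2 * δ) (hx : 1 / 10 ^ 5 ≤ x) :
    |(ellu (a - 1)).im| ≤ (102 / 10 ^ 12) / (99 / 100 * x * (99 / 100 * x + 1)) := by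
  obtain ⟨h1, h1'⟩ := ColU_re ha
  have h2 := abs_le.1 h1
  have h2' := abs_le.1 h1'
  have hy' := abs_le.1 hy
  norm_num at hδ hy' hx
  have h3 : (a - 1).re < -1 := by
    rw [Complex.sub_re, Complex.one_re]
    linarith
  have h4 := ellp_im h3
  rw [Complex.sub_re, Complex.one_re, sub_add_cancel, Complex.sub_im, Complex.one_im,
    sub_zero] at h4
  rw [← ellp_eq_ellu (Or.inl h3)]
  refine h4.trans ?_
  have h5 : |a.im| ≤ 102 / 10 ^ 12 := by
    rw [abs_le]
    norm_num
    constructor <;> linarith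
  have h6 : 99 / 100 * x ≤ |a.re| := by
    rw [abs_of_nonpos (by linarith)]
    linarith
  have h7 : 0 < 99 / 100 * x := by linarith
  refine div_le_div₀ (by norm_num) h5 (mul_pos h7 (by linarith)) ?_
  exact mul_le_mul h6 (by linarith) (by linarith) (by linarith)

private theorem ColU_im1 {x : ℝ} (hx : 1 / 10 ^ 5 ≤ x) :
    (102 / 10 ^ 12 : ℝ) / (99 / 100 * x * (99 / 100 * x + 1)) ≤ 112 / 10 ^ 7 := by
  have h0 : (0 : ℝ) < 1 / 10 ^ 5 := by norm_num
  have h1 : 0 < x := h0.trans_le hx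
  rw [div_le_iff₀ (by positivity)]
  have h2 : 99 / 100 * (1 / 10 ^ 5) ≤ 99 / 100 * x * (99 / 100 * x + 1) := by
    have h3 : 99 / 100 * (1 / 10 ^ 5) ≤ 99 / 100 * x := by linarith
    have h4 : 0 ≤ 99 / 100 * x * (99 / 100 * x) := by positivity
    linarith
  norm_num at h2 ⊢
  linarith

private theorem ColU_im2 {x : ℝ} (hx : 1 ≤ x) :
    (102 / 10 ^ 12 : ℝ) / (99 / 100 * x * (99 / 100 * x + 1)) ≤ 113 / 10 ^ 12 * (1 / x ^ 2) := by
  have h1 : 0 < x := one_pos.trans_le hx
  rw [div_le_iff₀ (by positivity)]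
  have h2 : 113 / 10 ^ 12 * (1 / x ^ 2) * (99 / 100 * x * (99 / 100 * x + 1)) =
      113 / 10 ^ 12 * (99 / 100) ^ 2 + 113 / 10 ^ 12 * (99 / 100) / x := by
    field_simp
  rw [h2]
  have h3 : 0 ≤ 113 / 10 ^ 12 * (99 / 100) / x := by positivity
  norm_num at h3 ⊢
  linarith

private theorem ColU_log {t : ℝ} (h0 : 0 ≤ t) (h : t ≤ 9 * 10 ^ 10) : Real.posLog t ≤ 26 := by
  have h1 : (9 * 10 ^ 10 : ℝ) ≤ Real.exp 26 := by
    have h2 : Real.exp 26 = Real.exp 1 ^ 26 := by
      rw [← Real.exp_nat_mul]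
      norm_num
    rw [h2]
    have h3 : (2.7 : ℝ) ≤ Real.exp 1 := by
      have := Real.exp_one_gt_d9
      linarith
    calc (9 * 10 ^ 10 : ℝ) ≤ 2.7 ^ 26 := by norm_num
      _ ≤ Real.exp 1 ^ 26 := pow_le_pow_left₀ (by norm_num) h3 26
  refine (Real.posLog_le_posLog h0 (h.trans h1)).trans ?_
  rw [Real.posLog_apply, Real.log_exp]
  norm_num

private theorem ColU_exp {k ν t : ℝ} (hk : 10 ^ 20 ≤ k) (hν0 : 0 < ν) (hν : ν ≤ 2 * k + 1)
    (h0 : 0 ≤ t) (h : t ≤ 112 / 100 * ν / Real.exp (-k)) : Real.posLog t ≤ 2 * k := by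
  have hk0 : 0 < k := by
    norm_num at hk
    linarith
  have h1 : 112 / 100 * ν / Real.exp (-k) ≤ Real.exp (2 * k) := by
    have h2 : 112 / 100 * ν ≤ Real.exp k := by
      refine le_trans ?_ (Real.quadratic_le_exp_of_nonneg hk0.le)
      norm_num at hk
      nlinarith
    rw [Real.exp_neg, div_inv_eq_mul, two_mul, Real.exp_add]
    exact mul_le_mul_of_nonneg_right h2 (Real.exp_pos _).le
  refine (Real.posLog_le_posLog h0 (h.trans h1)).trans ?_
  rw [Real.posLog_apply, Real.log_exp]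
  exact max_le (by linarith) le_rfl

private theorem ColU_one (t : ℝ) (m : ℕ) :
    (((Finset.Icc 1 m).filter (fun j : ℕ => |t - j| < 1 / 2)).card : ℝ) ≤ 1 := by
  have h : ((Finset.Icc 1 m).filter (fun j : ℕ => |t - j| < 1 / 2)).card ≤ 1 := by
    rw [Finset.card_le_one]
    intro i hi j hj
    have h1 := abs_lt.1 (Finset.mem_filter.1 hi).2
    have h2 := abs_lt.1 (Finset.mem_filter.1 hj).2
    have h3 : ((i : ℤ) : ℝ) < ((j + 1 : ℤ) : ℝ) := by push_cast; linarith [h1.1, h1.2, h2.1, h2.2]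
    have h4 : ((j : ℤ) : ℝ) < ((i + 1 : ℤ) : ℝ) := by push_cast; linarith [h1.1, h1.2, h2.1, h2.2]
    have h5 : (i : ℤ) < j + 1 := by exact_mod_cast h3
    have h6 : (j : ℤ) < i + 1 := by exact_mod_cast h4
    omega
  exact_mod_cast h

theorem col_low {k ν X δ η Dl : ℝ} (hP : Par k ν X δ η Dl) {m : ℕ} {x0 y t : ℝ} {a : ℕ → ℂ}
    (hm : (m:ℝ) ≤ X + k) (hx0 : x0 ≤ 27 / 50) (hy1 : -(2 / 25) ≤ y) (hy2 : y ≤ e6)
    (ha : ∀ j ∈ Finset.Icc 1 m, ‖a j - (((x0 - (j:ℝ) / ν : ℝ) : ℂ) + (y:ℂ) * I)‖ ≤ 2 * δ)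
    (hl : ∀ j ∈ Finset.Icc 1 m,
      9 / 10 * max (Real.exp (-k)) |t - j| / ν ≤ ‖a j‖ ∨ e6 / 8 ≤ ‖a j‖)
    (hc : (∀ j ∈ Finset.Icc 1 m, (a j).im < 0) ∨ (|y| ≤ e6 ∧ ∀ j ∈ Finset.Icc 1 m,
      0 ≤ (a j).re → (a j).im ≤ 11 / 10 * (a j).re ∧ a j ≠ 0)) :
    ∑ j ∈ Finset.Icc 1 m, ‖ellu (a j - 1)‖ ≤ (X / k + 200) * ν ∧
      -(ν / 15000) ≤ ∑ j ∈ Finset.Icc 1 m, (ellu (a j - 1)).im ∧
      ∑ j ∈ Finset.Icc 1 m, (ellu (a j - 1)).im ≤ 57 / 20 * ν := by
  have hk := hP.hk
  have hν1 := hP.ν1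
  have hν2 := hP.ν2
  have hδ0 := hP.δ0
  have hδ := hP.δ1
  have hX := hP.hX
  have hk0 : 0 < k := by linarith
  have hνb : 2 * 10 ^ 20 ≤ ν := by linarith
  have hν0 : 0 < ν := by linarith
  have hX0 : 0 < X := by nlinarith
  have he6 : e6 = 1 / 10 ^ 10 := rfl
  rw [he6] at hy2 hc
  have hxj : ∀ j ∈ Finset.Icc 1 m, -(27 / 50) ≤ (j : ℝ) / ν - x0 := by
    intro j _
    have h2 : 0 ≤ (j : ℝ) / ν := by positivity
    linarith
  have ha' : ∀ j ∈ Finset.Icc 1 m,
      ‖a j - (((-((j : ℝ) / ν - x0) : ℝ) : ℂ) + (y : ℂ) * I)‖ ≤ 2 * δ := by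
    intro j hj
    have h1 := ha j hj
    rwa [neg_sub]
  have hlt : ∀ (j : ℕ) (t : ℝ), (j : ℝ) / ν - x0 < t → (j : ℝ) < (x0 + t) * ν := by
    intro j t h
    have h1 : (j : ℝ) / ν < x0 + t := by linarith
    rwa [div_lt_iff₀ hν0] at h1
  have hge : ∀ (j : ℕ) (t : ℝ), t ≤ (j : ℝ) / ν - x0 → (x0 + t) * ν ≤ (j : ℝ) := by
    intro j t h
    have h1 : x0 + t ≤ (j : ℝ) / ν := by linarith
    rwa [le_div_iff₀ hν0] at h1
  have hone : (1 : ℝ) ≤ ν / 10 ^ 20 := by
    rw [le_div_iff₀ (by norm_num)]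
    linarith
  have hδν : 2 * δ * ν ≤ 2 / 10 ^ 12 * ν := by
    refine mul_le_mul_of_nonneg_right ?_ hν0.le
    norm_num at hδ ⊢
    linarith
  have hx0ν : x0 * ν ≤ 27 / 50 * ν := mul_le_mul_of_nonneg_right hx0 hν0.le
  refine ⟨?_, ?_⟩
  · -- norms
    have hterm : ∀ j ∈ Finset.Icc 1 m, ‖ellu (a j - 1)‖ ≤
        1 + (if (j : ℝ) < 254 / 100 * ν then 38 else 0) +
          (if 1 / 2 ≤ |t - j| then Real.posLog (112 / 100 * ν / |t - j|) else 0) +
          (if |t - j| < 1 / 2 then 2 * k else 0) := by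
      intro j hj
      have hn2 : 0 ≤ (if 1 / 2 ≤ |t - j| then Real.posLog (112 / 100 * ν / |t - j|) else 0) := by
        split_ifs
        · exact Real.posLog_nonneg
        · exact le_rfl
      have hn3 : 0 ≤ (if |t - j| < 1 / 2 then 2 * k else 0) := by
        split_ifs
        · linarith
        · exact le_rfl
      rcases le_or_gt 2 ((j : ℝ) / ν - x0) with hx | hx
      · have h1 := ColU_far hδ (ha' j hj) hx
        have hn1 : (0 : ℝ) ≤ (if (j : ℝ) < 254 / 100 * ν then 38 else 0) := by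
          split_ifs <;> norm_num
        linarith
      · have hlj := hl j hj
        rw [he6] at hlj
        have hmax : 0 < max (Real.exp (-k)) |t - j| := lt_max_of_lt_left (Real.exp_pos _)
        have hpos : 0 < ‖a j‖ := by
          rcases hlj with h | h
          · exact lt_of_lt_of_le (by positivity) h
          · exact lt_of_lt_of_le (by norm_num) h
        have ha0 : a j ≠ 0 := norm_pos_iff.1 hpos
        have h1 := ColU_near hδ0 hδ hy1 hy2 (hxj j hj) (ha' j hj) hx ha0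
        have h2 : (j : ℝ) < 254 / 100 * ν := by
          have h3 := hlt j 2 hx
          linarith
        rw [if_pos h2]
        have h4 : Real.posLog (1 / ‖a j‖) ≤ 26 +
            (if 1 / 2 ≤ |t - j| then Real.posLog (112 / 100 * ν / |t - j|) else 0) +
            (if |t - j| < 1 / 2 then 2 * k else 0) := by
          rcases hlj with h | h
          · have h5 : 1 / ‖a j‖ ≤ 112 / 100 * ν / max (Real.exp (-k)) |t - j| := by
              rw [div_le_div_iff₀ hpos hmax, one_mul]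
              rw [div_le_iff₀ hν0] at h
              have h6 : 0 ≤ ‖a j‖ * ν := by positivity
              linarith
            rcases lt_or_ge |t - j| (1 / 2) with h6 | h6
            · rw [if_neg (not_le.2 h6), if_pos h6]
              have h7 : 1 / ‖a j‖ ≤ 112 / 100 * ν / Real.exp (-k) :=
                h5.trans (div_le_div_of_nonneg_left (by positivity) (Real.exp_pos _)
                  (le_max_left _ _))
              have h8 := ColU_exp hk hν0 hν2 (by positivity) h7
              linarith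
            · rw [if_pos h6, if_neg (not_lt.2 h6)]
              have h9 : 0 < |t - j| := by linarith
              have h7 : 1 / ‖a j‖ ≤ 112 / 100 * ν / |t - j| :=
                h5.trans (div_le_div_of_nonneg_left (by positivity) h9 (le_max_right _ _))
              have h8 := Real.posLog_le_posLog (by positivity) h7
              linarith
          · have h5 : Real.posLog (1 / ‖a j‖) ≤ 26 := by
              refine ColU_log (by positivity) ?_
              rw [div_le_iff₀ hpos]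
              norm_num at h ⊢
              linarith
            linarith
        linarith
    have hs1 := card_lt (c := 254 / 100 * ν) (by positivity) m
    have hs2 := sum_two (M := 112 / 100 * ν) (t := t) (by positivity) m
    have hs3 := ColU_one t m
    have hsum := Finset.sum_le_sum hterm
    rw [Finset.sum_add_distrib, Finset.sum_add_distrib, Finset.sum_add_distrib,
      ← Finset.sum_filter, ← Finset.sum_filter, ← Finset.sum_filter, Finset.sum_const,
      Finset.sum_const, Finset.sum_const, nsmul_eq_mul, nsmul_eq_mul, nsmul_eq_mul,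
      Nat.card_Icc, Nat.add_sub_cancel, mul_one] at hsum
    have hs3' : (((Finset.Icc 1 m).filter (fun j : ℕ => |t - j| < 1 / 2)).card : ℝ) * (2 * k) ≤
        1 * (2 * k) := mul_le_mul_of_nonneg_right hs3 (by linarith)
    have h3 : X + k ≤ (X / k + 1) * ν / 2 := by
      have h4 : (X / k + 1) * (2 * k) ≤ (X / k + 1) * ν :=
        mul_le_mul_of_nonneg_left hν1 (by positivity)
      have h5 : (X / k + 1) * (2 * k) = 2 * (X + k) := by
        field_simp
      linarith
    have h6 : 0 ≤ X / k * ν := by positivity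
    have h7 : (X / k + 1) * ν / 2 = X / k * ν / 2 + ν / 2 := by ring
    have h8 : (X / k + 200) * ν = X / k * ν + 200 * ν := by ring
    rw [h7] at h3
    rw [h8]
    linarith
  · have hpi := Real.pi_lt_d2
    norm_num at hpi
    rcases hc with hc | ⟨hy, hc⟩
    · -- case D
      have him : ∀ j ∈ Finset.Icc 1 m, 0 ≤ (ellu (a j - 1)).im ∧
          (ellu (a j - 1)).im ≤ Real.pi := by
        intro j hj
        refine ellu_im_low ?_
        rw [Complex.sub_im, Complex.one_im, sub_zero]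
        exact hc j hj
      refine ⟨?_, ?_⟩
      · have h1 : 0 ≤ ∑ j ∈ Finset.Icc 1 m, (ellu (a j - 1)).im :=
          Finset.sum_nonneg fun j hj => (him j hj).1
        have h2 : 0 ≤ ν / 15000 := by positivity
        linarith
      · have hterm : ∀ j ∈ Finset.Icc 1 m, (ellu (a j - 1)).im ≤
            (if (j : ℝ) < 64 / 100 * ν then 315 / 100 else 0) +
            (if (x0 + 1 / 10) * ν ≤ j ∧ (j : ℝ) < (x0 + 1) * ν then 73 / 100 else 0) +
            (if 1 ≤ (j : ℝ) / ν - x0 then 801 / 10000 * (1 / ((j : ℝ) / ν - x0) ^ 2) else 0) := by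
          intro j hj
          have hn1 : (0 : ℝ) ≤ if (j : ℝ) < 64 / 100 * ν then 315 / 100 else 0 := by
            split_ifs <;> norm_num
          have hn2 : (0 : ℝ) ≤ if (x0 + 1 / 10) * ν ≤ j ∧ (j : ℝ) < (x0 + 1) * ν then
              73 / 100 else 0 := by
            split_ifs <;> norm_num
          have hn3 : (0 : ℝ) ≤ if 1 ≤ (j : ℝ) / ν - x0 then
              801 / 10000 * (1 / ((j : ℝ) / ν - x0) ^ 2) else 0 := by
            split_ifs
            · positivity
            · exact le_rfl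
          rcases lt_or_ge ((j : ℝ) / ν - x0) (1 / 10) with hx | hx
          · have h2 : (j : ℝ) < 64 / 100 * ν := by
              have h3 := hlt j _ hx
              linarith
            rw [if_pos h2]
            have h4 := (him j hj).2
            linarith
          · have h4 := ColU_imD hδ0 hδ hy1 hy2 (ha' j hj) hx
            have h4' := le_of_abs_le h4
            rcases lt_or_ge ((j : ℝ) / ν - x0) 1 with hx1 | hx1
            · have h2 : (x0 + 1 / 10) * ν ≤ j ∧ (j : ℝ) < (x0 + 1) * ν :=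
                ⟨hge j _ hx, hlt j _ hx1⟩
              have h5 := ColU_imD1 hδ0 hδ hx
              rw [if_pos h2]
              linarith
            · have h5 := ColU_imD2 hδ0 hδ hx1
              rw [if_pos hx1]
              linarith
        refine (Finset.sum_le_sum hterm).trans ?_
        have hs1 := card_lt (c := 64 / 100 * ν) (by positivity) m
        have hs2 := card_Ico (a := (x0 + 1 / 10) * ν) (b := (x0 + 1) * ν)
          (mul_le_mul_of_nonneg_right (by linarith) hν0.le) m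
        have hs3 := sum_sq (ν := ν) (x0 := x0) (by linarith) m
        rw [Finset.sum_add_distrib, Finset.sum_add_distrib, ← Finset.sum_filter,
          ← Finset.sum_filter, ← Finset.sum_filter, Finset.sum_const, Finset.sum_const,
          nsmul_eq_mul, nsmul_eq_mul, ← Finset.mul_sum]
        linarith
    · -- case U
      have hy' := abs_le.1 hy
      have hterm : ∀ j ∈ Finset.Icc 1 m,
          -((if (x0 - 2 * δ) * ν ≤ j ∧ (j : ℝ) < (x0 + 1 / 10 ^ 5) * ν then 315 / 100 else 0) +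
            (if (j : ℝ) < 154 / 100 * ν then 112 / 10 ^ 7 else 0) +
            (if 1 ≤ (j : ℝ) / ν - x0 then 113 / 10 ^ 12 * (1 / ((j : ℝ) / ν - x0) ^ 2) else 0)) ≤
              (ellu (a j - 1)).im ∧
          (ellu (a j - 1)).im ≤
            ((if (x0 - 2 * δ) * ν ≤ j ∧ (j : ℝ) < (x0 + 1 / 10 ^ 5) * ν then 315 / 100 else 0) +
            (if (j : ℝ) < 154 / 100 * ν then 112 / 10 ^ 7 else 0) +
            (if 1 ≤ (j : ℝ) / ν - x0 then 113 / 10 ^ 12 * (1 / ((j : ℝ) / ν - x0) ^ 2) else 0)) +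
            (if (j : ℝ) < 5401 / 10000 * ν then 81 / 20 else 0) := by
        intro j hj
        have hn1 : (0 : ℝ) ≤ if (x0 - 2 * δ) * ν ≤ j ∧ (j : ℝ) < (x0 + 1 / 10 ^ 5) * ν then
            315 / 100 else 0 := by
          split_ifs <;> norm_num
        have hn2 : (0 : ℝ) ≤ if (j : ℝ) < 154 / 100 * ν then 112 / 10 ^ 7 else 0 := by
          split_ifs <;> norm_num
        have hn3 : (0 : ℝ) ≤ if 1 ≤ (j : ℝ) / ν - x0 then
            113 / 10 ^ 12 * (1 / ((j : ℝ) / ν - x0) ^ 2) else 0 := by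
          split_ifs
          · positivity
          · exact le_rfl
        have hn4 : (0 : ℝ) ≤ if (j : ℝ) < 5401 / 10000 * ν then 81 / 20 else 0 := by
          split_ifs <;> norm_num
        obtain ⟨r1, r2⟩ := ColU_re (ha' j hj)
        have r1' := abs_le.1 r1
        have r2' := abs_le.1 r2
        have hx' := hxj j hj
        have hδ' := hδ
        norm_num at hδ'
        have hy'' := hy'
        norm_num at hy''
        rcases lt_trichotomy 0 (a j).re with hre | hre | hre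
        · -- right half plane
          have h1 := ellu_im_right (s := a j - 1) (by rw [sub_add_cancel]; exact hre)
            (by rw [sub_add_cancel]; exact (hc j hj hre.le).1)
            (by rw [Complex.sub_re, Complex.one_re]; linarith)
            (by rw [Complex.sub_im, Complex.one_im]; linarith)
          have h2 : (j : ℝ) < 5401 / 10000 * ν := by
            have h3 := hlt j (2 * δ) (by linarith)
            have h4 : (x0 + 2 * δ) * ν = x0 * ν + 2 * δ * ν := by ring
            rw [h4] at h3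
            norm_num at hδν
            linarith
          rw [if_pos h2]
          constructor
          · linarith [h1.1]
          · linarith [h1.2]
        · -- imaginary axis
          have h0 := hc j hj hre.le
          have h1 : (a j).im < 0 := by
            rcases lt_or_eq_of_le h0.1 with h | h
            · rw [← hre, mul_zero] at h
              exact h
            · exfalso
              rw [← hre, mul_zero] at h
              exact h0.2 (Complex.ext hre.symm h)
          have h2 := ellu_im_low (s := a j - 1)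
            (by rw [Complex.sub_im, Complex.one_im, sub_zero]; exact h1)
          have h3 : (x0 - 2 * δ) * ν ≤ j ∧ (j : ℝ) < (x0 + 1 / 10 ^ 5) * ν := by
            constructor
            · have h4 := hge j (-(2 * δ)) (by linarith)
              rwa [← sub_eq_add_neg] at h4
            · refine hlt j _ ?_
              norm_num
              linarith
          rw [if_pos h3]
          constructor
          · linarith [h2.1]
          · linarith [h2.2]
        · -- left half plane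
          have hs : (a j - 1).re < -1 := by
            rw [Complex.sub_re, Complex.one_re]
            linarith
          have hb : |(ellu (a j - 1)).im| ≤
              ((if (x0 - 2 * δ) * ν ≤ j ∧ (j : ℝ) < (x0 + 1 / 10 ^ 5) * ν then 315 / 100 else 0) +
              (if (j : ℝ) < 154 / 100 * ν then 112 / 10 ^ 7 else 0) +
              (if 1 ≤ (j : ℝ) / ν - x0 then 113 / 10 ^ 12 * (1 / ((j : ℝ) / ν - x0) ^ 2)
                else 0)) := by
            rcases lt_or_ge ((j : ℝ) / ν - x0) (1 / 10 ^ 5) with hx | hx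
            · have h3 : (x0 - 2 * δ) * ν ≤ j ∧ (j : ℝ) < (x0 + 1 / 10 ^ 5) * ν := by
                constructor
                · have h4 := hge j (-(2 * δ)) (by linarith)
                  rwa [← sub_eq_add_neg] at h4
                · exact hlt j _ hx
              have h4 := ellp_im_pi (a j - 1)
              rw [ellp_eq_ellu (Or.inl hs)] at h4
              rw [if_pos h3]
              linarith
            · have h4 := ColU_im hδ0 hδ hy (ha' j hj) hx
              rcases lt_or_ge ((j : ℝ) / ν - x0) 1 with hx1 | hx1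
              · have h2 : (j : ℝ) < 154 / 100 * ν := by
                  have h3 := hlt j _ hx1
                  linarith
                have h5 := ColU_im1 hx
                rw [if_pos h2]
                linarith
              · have h5 := ColU_im2 hx1
                rw [if_pos hx1]
                linarith
          have hb' := abs_le.1 hb
          exact ⟨hb'.1, hb'.2.trans (le_add_of_nonneg_right hn4)⟩
      have hs1 := card_Ico (a := (x0 - 2 * δ) * ν) (b := (x0 + 1 / 10 ^ 5) * ν)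
        (mul_le_mul_of_nonneg_right (by norm_num; linarith) hν0.le) m
      have hs2 := card_lt (c := 154 / 100 * ν) (by positivity) m
      have hs3 := sum_sq (ν := ν) (x0 := x0) (by linarith) m
      have hs4 := card_lt (c := 5401 / 10000 * ν) (by positivity) m
      have h1 : (x0 + 1 / 10 ^ 5) * ν - (x0 - 2 * δ) * ν + 1 = 1 / 10 ^ 5 * ν + 2 * δ * ν + 1 := by
        ring
      rw [h1] at hs1
      have hE : ∑ j ∈ Finset.Icc 1 m,
          ((if (x0 - 2 * δ) * ν ≤ j ∧ (j : ℝ) < (x0 + 1 / 10 ^ 5) * ν then (315 / 100 : ℝ) else 0) +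
            (if (j : ℝ) < 154 / 100 * ν then 112 / 10 ^ 7 else 0) +
            (if 1 ≤ (j : ℝ) / ν - x0 then 113 / 10 ^ 12 * (1 / ((j : ℝ) / ν - x0) ^ 2) else 0)) ≤
          ν / 15000 := by
        rw [Finset.sum_add_distrib, Finset.sum_add_distrib, ← Finset.sum_filter,
          ← Finset.sum_filter, ← Finset.sum_filter, Finset.sum_const, Finset.sum_const,
          nsmul_eq_mul, nsmul_eq_mul, ← Finset.mul_sum]
        norm_num at hs1 hs2 hs3 hδν hone ⊢
        linarith
      refine ⟨?_, ?_⟩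
      · have h2 := Finset.sum_le_sum fun j hj => (hterm j hj).1
        rw [Finset.sum_neg_distrib] at h2
        linarith
      · have h2 := Finset.sum_le_sum fun j hj => (hterm j hj).2
        rw [Finset.sum_add_distrib] at h2
        have h3 : ∑ j ∈ Finset.Icc 1 m, (if (j : ℝ) < 5401 / 10000 * ν then (81 / 20 : ℝ) else 0) ≤
            5401 / 10000 * ν * (81 / 20) := by
          rw [← Finset.sum_filter, Finset.sum_const, nsmul_eq_mul]
          exact mul_le_mul_of_nonneg_right hs4 (by norm_num)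
        linarith

end Pool.Agent.MP_ae5b4e_an_N4
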