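import Pool.Agent.Lib.MP_ae5b4e_an_N4.Gin
import Pool.Agent.Lib.MP_ae5b4e_an_N4.Sum

/-!
# N4, module Drv: the derivatives along a column of the left zone

`q i` is the derivative of the state `p i` with respect to `z`.

PROOF.  Write `μ r := min (r : ℝ) (e6 k)`.  By induction on `i ≤ m`: `‖ν (q i).1 - 1‖ ≤ 1 / 50` and
`‖n (p i).2 * (q i).2‖ ≤ (1 + η) ν 2 / X + ∑_{l < i} 4.6 / μ (m - l)`.
For `l < i` (induction): `‖(q l).1‖ ≤ 1.02 / ν`, so
`‖(q l).1 / ((p l).1 ((p l).1 + 1))‖ ≤ (1.02 / ν) (4 ν / μ (m - l)) / 0.9 ≤ 4.6 / μ (m - l)`: the second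
claim follows from `hd1`, `Gd.nc` (`‖n‖ ≤ (1 + η) ν`) and `h0'`.
`1 / μ r ≤ 1 / r + 1 / (e6 k)`, so `∑_{l < i} 4.6 / μ (m - l) ≤ 4.6 (1 + log m + m / (e6 k))` (`sum_inv`, reindexed),
`log m ≤ log (X + k) ≤ log k + log (X / k + 1) ≤ log k + X / k`, `m / (e6 k) ≤ 10 ^ 10 (X / k + 1)`:
with `X / k ≥ 10 ^ 10`: `‖n (p i).2 (q i).2‖ ≤ 9 (log k + 10 ^ 10 X / k) + 10 ≤ 0.99 Lk k X`; `‖n‖ ≥ (1 - η) ν`: so
`‖ν (q i).2‖ ≤ Lk k X`.
First claim: `hd2`, `‖ν deriv g‖ ≤ η` (`Gd.dg`): `‖ν (q i).1 - 1‖ ≤ δ + η ∑_{l = 1}^{i} ‖(q l).2‖`, and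
`(1 - η) ν ‖(q l).2‖ ≤ (1 + η) ν 2 / X + ∑_{l' < l} 4.6 / μ (m - l')`.  Exchange the sums:
`∑_{l = 1}^{i} ∑_{l' < l} 4.6 / μ (m - l') ≤ ∑_{l' < i} (m - l') 4.6 / μ (m - l') ≤ ∑_{l' < i} 4.6 (1 + (m - l') / (e6 k))
≤ 4.6 m (1 + 10 ^ 10 m / k)`.  As `m ≤ X + k ≤ (1 + 10 ^ (-10)) X`, `ν ≥ 2 k`:
`∑ ‖(q l).2‖ ≤ 3 + 2.4 · 10 ^ 10 (X / k) ^ 2 ≤ 10 ^ 11 (X / k) ^ 2`, times `η ≤ δ / (10 ^ 14 (X / k) ^ 2)`: `≤ δ / 1000`.
So `‖ν (q i).1 - 1‖ ≤ 2 δ ≤ 1 / 50`.
-/

set_option autoImplicit false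

noncomputable section

namespace Pool.Agent.MP_ae5b4e_an_N4

open Complex Set Filter Topology Metric

/-- Abel summation -/
private theorem drv_abel (m : ℕ) (a : ℕ → ℝ) (B : ℝ)
    (ha : ∀ l < m, ((m - l : ℕ) : ℝ) * a l ≤ B) : ∀ i ≤ m,
    ∑ l ∈ Finset.range i, ∑ j ∈ Finset.range (l + 1), a j +
      ((m - i : ℕ) : ℝ) * ∑ l ∈ Finset.range i, a l ≤ i * B := by
  intro i
  induction i with
  | zero =>
    intro _
    simp
  | succ i ih =>
    intro hi
    have h1 := ih (by omega)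
    have h2 := ha i (by omega)
    have h3 : ((m - i : ℕ) : ℝ) = ((m - (i + 1) : ℕ) : ℝ) + 1 := by
      have : m - i = (m - (i + 1)) + 1 := by omega
      rw [this]
      push_cast
      ring
    rw [Finset.sum_range_succ (fun l => ∑ j ∈ Finset.range (l + 1), a j), Finset.sum_range_succ a]
    rw [h3] at h1 h2
    push_cast
    linarith

private theorem drv_flip (m : ℕ) (f : ℕ → ℝ) :
    ∑ l ∈ Finset.range m, f (m - l) = ∑ r ∈ Finset.Icc 1 m, f r := by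
  refine Finset.sum_nbij' (fun l => m - l) (fun r => m - r) ?_ ?_ ?_ ?_ ?_
  · intro l hl
    rw [Finset.mem_range] at hl
    rw [Finset.mem_Icc]
    omega
  · intro r hr
    rw [Finset.mem_Icc] at hr
    rw [Finset.mem_range]
    omega
  · intro l hl
    rw [Finset.mem_range] at hl
    omega
  · intro r hr
    rw [Finset.mem_Icc] at hr
    omega
  · intro l hl
    rfl

private theorem drv_inv_min {x y : ℝ} (hx : 0 < x) (hy : 0 < y) :
    1 / min x y ≤ 1 / x + 1 / y := by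
  rcases le_total x y with h | h
  · rw [min_eq_left h]
    have := one_div_pos.2 hy
    linarith
  · rw [min_eq_right h]
    have := one_div_pos.2 hx
    linarith

theorem seq_drv {k ν X δ η Dl s1 s2 : ℝ} {G n g : ℂ → ℂ} (hP : Par k ν X δ η Dl)
    (hg : Gd ν η s1 s2 G n g) {m : ℕ} {p q : ℕ → ℂ × ℂ} (hm : (m:ℝ) ≤ X + k)
    (hb : ∀ i ≤ m, (p i).2 ∈ Bx s1 s2)
    (hd1 : ∀ i < m, n (p (i + 1)).2 * (q (i + 1)).2 =
      n (p i).2 * (q i).2 - (q i).1 / ((p i).1 * ((p i).1 + 1)))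
    (hd2 : ∀ i < m, (q (i + 1)).1 = (q i).1 + deriv g (p (i + 1)).2 * (q (i + 1)).2)
    (h0 : ‖ν * (q 0).1 - 1‖ ≤ δ) (h0' : ‖(q 0).2‖ ≤ 2 / X)
    (hl : ∀ i < m, min ((m - i : ℕ) : ℝ) (e6 * k) / (4 * ν) ≤ ‖(p i).1 + 1‖)
    (hs : ∀ i < m, 9 / 10 ≤ ‖(p i).1‖) :
    ∀ i ≤ m, ‖ν * (q i).1 - 1‖ ≤ 1 / 50 ∧ ‖ν * (q i).2‖ ≤ Lk k X := by
  obtain ⟨hk, hν1, hν2, hX, -, hδ0, hδ1, -, hη0, hη1, -⟩ := hP
  have hk0 : 0 < k := by linarith
  have hν0 : 0 < ν := by linarith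
  have hX0 : 0 < X := by nlinarith
  obtain ⟨x, hxdef⟩ : ∃ x, x = X / k := ⟨_, rfl⟩
  have hXx : X = x * k := by
    rw [hxdef]
    field_simp
  have hx : 10 ^ 10 ≤ x := by
    rw [hxdef, le_div_iff₀ hk0]
    exact hX
  have hx0 : 0 < x := by linarith
  rw [← hxdef] at hη1
  have hx2 : 1 ≤ x ^ 2 := by nlinarith
  have hηδ : η ≤ δ := by
    refine le_trans ?_ hη1
    have h1 : 1 ≤ x ^ 2 * 10 ^ 14 := by linarith
    have h2 : η * 1 ≤ η * (x ^ 2 * 10 ^ 14) := mul_le_mul_of_nonneg_left h1 hη0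
    linarith
  have hη2 : η ≤ 1 / 2 := by linarith
  have hnν : ‖(ν : ℂ)‖ = ν := by
    rw [Complex.norm_real, Real.norm_eq_abs, abs_of_pos hν0]
  have hnlow : ∀ σ ∈ Bx s1 s2, ν / 2 ≤ ‖n σ‖ := by
    intro σ hσ
    have h1 := hg.nc σ hσ
    have h2 : ‖(ν : ℂ)‖ ≤ ‖n σ‖ + ‖n σ - ν‖ := by
      have h3 : (ν : ℂ) = n σ - (n σ - ν) := by ring
      calc ‖(ν : ℂ)‖ = ‖n σ - (n σ - ν)‖ := by rw [← h3]
        _ ≤ _ := norm_sub_le _ _
    rw [hnν] at h2
    have h3 : η * ν ≤ 1 / 2 * ν := mul_le_mul_of_nonneg_right hη2 hν0.le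
    linarith
  have hnup : ∀ σ ∈ Bx s1 s2, ‖n σ‖ ≤ 2 * ν := by
    intro σ hσ
    have h1 := hg.nc σ hσ
    have h2 : ‖n σ‖ ≤ ‖n σ - ν‖ + ‖(ν : ℂ)‖ := by
      have h3 : n σ = (n σ - ν) + ν := by ring
      calc ‖n σ‖ = ‖(n σ - ν) + ν‖ := by rw [← h3]
        _ ≤ _ := norm_add_le _ _
    rw [hnν] at h2
    have h3 : η * ν ≤ 1 / 2 * ν := mul_le_mul_of_nonneg_right hη2 hν0.le
    linarith
  have he6 : 0 < e6 * k := by
    unfold e6
    positivity
  -- the coefficients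
  obtain ⟨a, ha⟩ : ∃ a : ℕ → ℝ, a = fun l => 23 / 5 / min ((m - l : ℕ) : ℝ) (e6 * k) := ⟨_, rfl⟩
  have hmin : ∀ l < m, 0 < min ((m - l : ℕ) : ℝ) (e6 * k) := by
    intro l hl
    refine lt_min ?_ he6
    exact_mod_cast (show 0 < m - l by omega)
  have ha0 : ∀ l < m, 0 ≤ a l := by
    intro l hl
    rw [ha]
    exact div_nonneg (by norm_num) (hmin l hl).le
  have hM0 : (0 : ℝ) ≤ m := Nat.cast_nonneg m
  have hMk : (m : ℝ) / k ≤ x + 1 := by
    rw [div_le_iff₀ hk0]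
    linarith
  -- Abel summation
  have hB : ∀ l < m, ((m - l : ℕ) : ℝ) * a l ≤ 23 / 5 * (1 + 10 ^ 10 * (x + 1)) := by
    intro l hl
    have hp : (0 : ℝ) < ((m - l : ℕ) : ℝ) := by
      exact_mod_cast (show 0 < m - l by omega)
    have h1 := drv_inv_min hp he6
    have h2 : ((m - l : ℕ) : ℝ) * a l =
        23 / 5 * (((m - l : ℕ) : ℝ) * (1 / min ((m - l : ℕ) : ℝ) (e6 * k))) := by
      rw [ha]
      ring
    rw [h2]
    refine mul_le_mul_of_nonneg_left ?_ (by norm_num)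
    refine (mul_le_mul_of_nonneg_left h1 hp.le).trans ?_
    have h3 : ((m - l : ℕ) : ℝ) * (1 / ((m - l : ℕ) : ℝ) + 1 / (e6 * k)) =
        1 + 10 ^ 10 * (((m - l : ℕ) : ℝ) / k) := by
      unfold e6
      field_simp
    rw [h3]
    have h4 : ((m - l : ℕ) : ℝ) / k ≤ x + 1 := by
      refine le_trans ?_ hMk
      refine div_le_div_of_nonneg_right ?_ hk0.le
      exact_mod_cast Nat.sub_le m l
    linarith
  have hU : ∀ i ≤ m, ∑ l ∈ Finset.range i, ∑ j ∈ Finset.range (l + 1), a j ≤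
      (m : ℝ) * (23 / 5 * (1 + 10 ^ 10 * (x + 1))) := by
    intro i hi
    have h1 := drv_abel m a _ hB i hi
    have h2 : 0 ≤ ((m - i : ℕ) : ℝ) * ∑ l ∈ Finset.range i, a l := by
      refine mul_nonneg (Nat.cast_nonneg _) (Finset.sum_nonneg fun l hl => ha0 l ?_)
      rw [Finset.mem_range] at hl
      omega
    have h3 : (i : ℝ) * (23 / 5 * (1 + 10 ^ 10 * (x + 1))) ≤
        (m : ℝ) * (23 / 5 * (1 + 10 ^ 10 * (x + 1))) := by
      refine mul_le_mul_of_nonneg_right ?_ (by positivity)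
      exact_mod_cast hi
    linarith
  -- the sum of the coefficients
  have hS : ∀ i ≤ m, ∑ l ∈ Finset.range i, a l ≤
      23 / 5 * (1 + Real.log k + x + 10 ^ 10 * (x + 1)) := by
    intro i hi
    have h1 : ∑ l ∈ Finset.range i, a l ≤ ∑ l ∈ Finset.range m, a l := by
      refine Finset.sum_le_sum_of_subset_of_nonneg ?_ fun l hl _ => ?_
      · exact Finset.range_mono hi
      · rw [Finset.mem_range] at hl
        exact ha0 l hl
    refine h1.trans ?_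
    rcases Nat.eq_zero_or_pos m with hm0 | hm0
    · rw [hm0, Finset.sum_range_zero]
      have : 0 ≤ Real.log k := Real.log_nonneg (by linarith)
      positivity
    have h2 : ∑ l ∈ Finset.range m, a l =
        ∑ r ∈ Finset.Icc 1 m, 23 / 5 / min (r : ℝ) (e6 * k) := by
      rw [ha]
      exact drv_flip m (fun r => 23 / 5 / min (r : ℝ) (e6 * k))
    rw [h2]
    have h3 : ∀ r ∈ Finset.Icc 1 m, 23 / 5 / min (r : ℝ) (e6 * k) ≤
        23 / 5 * ((1 : ℝ) / r) + 23 / 5 * (1 / (e6 * k)) := by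
      intro r hr
      rw [Finset.mem_Icc] at hr
      have hp : (0 : ℝ) < (r : ℝ) := by
        exact_mod_cast (show 0 < r by omega)
      have h4 := drv_inv_min hp he6
      have h5 : (23 / 5 : ℝ) / min (r : ℝ) (e6 * k) = 23 / 5 * (1 / min (r : ℝ) (e6 * k)) := by
        ring
      rw [h5]
      linarith
    refine (Finset.sum_le_sum h3).trans ?_
    rw [Finset.sum_add_distrib, ← Finset.mul_sum, Finset.sum_const, Nat.card_Icc, nsmul_eq_mul,
      Nat.add_sub_cancel]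
    have h6 := sum_inv m
    have h7 : Real.log m ≤ Real.log k + x := by
      have hmp : (0 : ℝ) < m := by exact_mod_cast hm0
      have h8 : Real.log m ≤ Real.log (k * (x + 1)) := by
        refine Real.log_le_log hmp ?_
        linarith
      rw [Real.log_mul hk0.ne' (by linarith)] at h8
      have h9 := Real.log_le_sub_one_of_pos (show 0 < x + 1 by linarith)
      linarith
    have h10 : (m : ℝ) * (23 / 5 * (1 / (e6 * k))) = 23 / 5 * (10 ^ 10 * ((m : ℝ) / k)) := by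
      unfold e6
      field_simp
    rw [h10]
    linarith
  -- the smallness of the error
  have hsm : ∀ i ≤ m, δ + η * (2 / ν) * ((i : ℝ) + ∑ l ∈ Finset.range i,
      ∑ j ∈ Finset.range (l + 1), a j) ≤ 1 / 50 := by
    intro i hi
    have h1 := hU i hi
    have h2 : (i : ℝ) ≤ m := by exact_mod_cast hi
    have h3 : 2 / ν ≤ 1 / k := by
      rw [div_le_div_iff₀ hν0 hk0]
      linarith
    have hU0 : 0 ≤ ∑ l ∈ Finset.range i, ∑ j ∈ Finset.range (l + 1), a j := by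
      refine Finset.sum_nonneg fun l hl => Finset.sum_nonneg fun j hj => ha0 j ?_
      rw [Finset.mem_range] at hl hj
      omega
    have h4 : (i : ℝ) + ∑ l ∈ Finset.range i, ∑ j ∈ Finset.range (l + 1), a j ≤
        k * (2 * 10 ^ 11 * x ^ 2) := by
      have h5 : (m : ℝ) ≤ (x + 1) * k := by
        rw [← div_le_iff₀ hk0]
        exact hMk
      have h6 : (i : ℝ) + ∑ l ∈ Finset.range i, ∑ j ∈ Finset.range (l + 1), a j ≤
          (m : ℝ) * (1 + 23 / 5 * (1 + 10 ^ 10 * (x + 1))) := by linarith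
      refine h6.trans ?_
      have h7 : (m : ℝ) * (1 + 23 / 5 * (1 + 10 ^ 10 * (x + 1))) ≤
          ((x + 1) * k) * (1 + 23 / 5 * (1 + 10 ^ 10 * (x + 1))) :=
        mul_le_mul_of_nonneg_right h5 (by positivity)
      refine h7.trans ?_
      have h8 : (x + 1) * (1 + 23 / 5 * (1 + 10 ^ 10 * (x + 1))) ≤ 2 * 10 ^ 11 * x ^ 2 := by
        nlinarith
      calc ((x + 1) * k) * (1 + 23 / 5 * (1 + 10 ^ 10 * (x + 1)))
          = k * ((x + 1) * (1 + 23 / 5 * (1 + 10 ^ 10 * (x + 1)))) := by ring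
        _ ≤ _ := mul_le_mul_of_nonneg_left h8 hk0.le
    have h9 : η * (2 / ν) * ((i : ℝ) + ∑ l ∈ Finset.range i,
        ∑ j ∈ Finset.range (l + 1), a j) ≤ η * (1 / k) * (k * (2 * 10 ^ 11 * x ^ 2)) := by
      refine mul_le_mul (mul_le_mul_of_nonneg_left h3 hη0) h4
        (add_nonneg (Nat.cast_nonneg _) hU0) (mul_nonneg hη0 (by positivity))
    have h10 : η * (1 / k) * (k * (2 * 10 ^ 11 * x ^ 2)) = η * x ^ 2 * (2 * 10 ^ 11) := by
      field_simp
    rw [h10] at h9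
    have h11 : 0 ≤ η * x ^ 2 := mul_nonneg hη0 (sq_nonneg x)
    linarith
  -- the start
  have hstart : 2 * ν * (2 / X) ≤ 1 := by
    have h1 : 2 * ν * (2 / X) = 4 * ν / X := by ring
    rw [h1, div_le_one hX0]
    nlinarith
  -- the induction
  have main : ∀ i ≤ m, ‖ν * (q i).1 - 1‖ ≤ δ + η * (2 / ν) * ((i : ℝ) +
      ∑ l ∈ Finset.range i, ∑ j ∈ Finset.range (l + 1), a j) ∧
      ‖n (p i).2 * (q i).2‖ ≤ 1 + ∑ l ∈ Finset.range i, a l := by
    intro i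
    induction i with
    | zero =>
      intro _
      constructor
      · simpa using h0
      · rw [Finset.sum_range_zero, add_zero, norm_mul]
        refine (mul_le_mul (hnup _ (hb 0 (Nat.zero_le m))) h0' (norm_nonneg _)
          (by linarith)).trans hstart
    | succ i ih =>
      intro hi
      have hi' : i < m := hi
      obtain ⟨ih1, ih2⟩ := ih hi'.le
      have h50 : ‖ν * (q i).1 - 1‖ ≤ 1 / 50 := ih1.trans (hsm i hi'.le)
      have hq1 : ν * ‖(q i).1‖ ≤ 51 / 50 := by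
        have h1 : ν * ‖(q i).1‖ = ‖(ν : ℂ) * (q i).1‖ := by rw [norm_mul, hnν]
        have h2 : (ν : ℂ) * (q i).1 = ((ν : ℂ) * (q i).1 - 1) + 1 := by ring
        rw [h1, h2]
        refine (norm_add_le _ _).trans ?_
        rw [norm_one]
        linarith
      have hfrac : ‖(q i).1 / ((p i).1 * ((p i).1 + 1))‖ ≤ a i := by
        have h1 := hl i hi'
        have h2 := hs i hi'
        have h3 := hmin i hi'
        rw [norm_div, norm_mul, ha]
        have h4 : 0 < min ((m - i : ℕ) : ℝ) (e6 * k) / (4 * ν) := div_pos h3 (by linarith)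
        have h5 : 9 / 10 * (min ((m - i : ℕ) : ℝ) (e6 * k) / (4 * ν)) ≤
            ‖(p i).1‖ * ‖(p i).1 + 1‖ :=
          mul_le_mul h2 h1 h4.le (norm_nonneg _)
        have h6 : 0 < 9 / 10 * (min ((m - i : ℕ) : ℝ) (e6 * k) / (4 * ν)) :=
          mul_pos (by norm_num) h4
        have h7 : ‖(q i).1‖ ≤ 51 / 50 / ν := by
          rw [le_div_iff₀ hν0]
          linarith
        refine (div_le_div₀ (by positivity) h7 h6 h5).trans ?_
        have h8 : 51 / 50 / ν / (9 / 10 * (min ((m - i : ℕ) : ℝ) (e6 * k) / (4 * ν))) =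
            (51 / 50 * 4 / (9 / 10)) / min ((m - i : ℕ) : ℝ) (e6 * k) := by
          field_simp
        rw [h8]
        exact div_le_div_of_nonneg_right (by norm_num) h3.le
      have hN : ‖n (p (i + 1)).2 * (q (i + 1)).2‖ ≤ 1 + ∑ l ∈ Finset.range (i + 1), a l := by
        rw [hd1 i hi', Finset.sum_range_succ]
        refine (norm_sub_le _ _).trans ?_
        linarith
      refine ⟨?_, hN⟩
      have hq2 : ‖(q (i + 1)).2‖ ≤ 2 / ν * (1 + ∑ l ∈ Finset.range (i + 1), a l) := by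
        rw [norm_mul] at hN
        have h1 := hnlow _ (hb (i + 1) hi)
        have h2 : ν / 2 * ‖(q (i + 1)).2‖ ≤ 1 + ∑ l ∈ Finset.range (i + 1), a l :=
          (mul_le_mul_of_nonneg_right h1 (norm_nonneg _)).trans hN
        have h3 : ‖(q (i + 1)).2‖ = 2 / ν * (ν / 2 * ‖(q (i + 1)).2‖) := by
          field_simp
        rw [h3]
        exact mul_le_mul_of_nonneg_left h2 (by positivity)
      have h1 : (ν : ℂ) * (q (i + 1)).1 - 1 = ((ν : ℂ) * (q i).1 - 1) +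
          (ν : ℂ) * deriv g (p (i + 1)).2 * (q (i + 1)).2 := by
        rw [hd2 i hi']
        ring
      rw [h1]
      refine (norm_add_le _ _).trans ?_
      have h2 : ‖(ν : ℂ) * deriv g (p (i + 1)).2 * (q (i + 1)).2‖ ≤
          η * (2 / ν * (1 + ∑ l ∈ Finset.range (i + 1), a l)) := by
        rw [norm_mul]
        exact mul_le_mul (hg.dg _ (hb (i + 1) hi)) hq2 (norm_nonneg _) hη0
      rw [Finset.sum_range_succ (fun l => ∑ j ∈ Finset.range (l + 1), a j)]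
      push_cast
      linarith
  intro i hi
  obtain ⟨h1, h2⟩ := main i hi
  refine ⟨h1.trans (hsm i hi), ?_⟩
  rw [norm_mul, hnν]
  rw [norm_mul] at h2
  have h3 := hnlow _ (hb i hi)
  have h4 : ν / 2 * ‖(q i).2‖ ≤ 1 + ∑ l ∈ Finset.range i, a l :=
    (mul_le_mul_of_nonneg_right h3 (norm_nonneg _)).trans h2
  have h5 := hS i hi
  have h6 : 0 ≤ Real.log k := Real.log_nonneg (by linarith)
  have h7 : Lk k X = 10 * (Real.log k + x * 10 ^ 10 + 10) := by
    unfold Lk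
    rw [← hxdef]
  rw [h7]
  linarith

end Pool.Agent.MP_ae5b4e_an_N4
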