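import Pool.Agent.Lib.MP_ae5b4e_an_N4.ChD

/-!
# N4, module Ell: the logarithms `lgu`, `ellp`, `ellu`, algebra and derivatives

`lgu w = log (w I) - (π / 2) I`: the logarithm with the cut along the positive imaginary axis,
`Im ∈ (- 3 π / 2, π / 2]`.  `ellp s = log (1 + 1 / s)`, `ellu s = lgu (s + 1) - lgu s`.

* `exp_lgu`: `exp (lgu w) = w I e^{- i π / 2} = w`.
* `lgu_im`: `arg ∈ (-π, π]`.
* `lgu_deriv`: `w I ∈ slitPlane ↔ 0 < - w.im ∨ w.re ≠ 0`; chain rule: `I / (w I) = 1 / w`.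
* `ellp_exp`, `ellu_exp`: `1 + 1 / s = (s + 1) / s`.
* `ellp_deriv`: `1 + 1 / s ∈ slitPlane`: if it were a real number `≤ 0`, then `s` would be real with
  `-1 ≤ s < 0` (`1 / s ≤ -1`).  Derivative `(1 + 1 / s)⁻¹ (- 1 / s ^ 2) = - 1 / (s (s + 1))`.
* `ellu_deriv`: difference of the derivatives `1 / (s + 1) - 1 / s`.
* `ellp_eq_ellu`: both have the same exponential; `ellp` has imaginary part in `(-π, π]`, and the
  imaginary part of `ellu` is the difference of two numbers in `(- 3 π / 2, - π / 2)` if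
  `s.re < -1` (`lgu` of a number with negative real part), and of two numbers in `(- π, 0)` if
  `s.im < 0`; so it is in `(-π, π)`; two numbers with the same exponential and imaginary parts
  in `(-π, π]` are equal (`Complex.exp_inj_of_neg_pi_lt_of_le_pi`).
* `lgu_neg`, `lgu_low`: the imaginary part of `lgu w` is in `(- 3 π / 2, - π / 2)` if `w.re < 0`
  (`(w I).im < 0`, so `arg (w I) ∈ (-π, 0)`), and in `(- π, 0)` if `w.im < 0` (`(w I).re > 0`, so
  `arg (w I) ∈ (-π/2, π/2)`).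
* `ellp_conj`: `Complex.log_conj` off the cut.
-/

set_option autoImplicit false

noncomputable section

namespace Pool.Agent.MP_ae5b4e_an_N4

open Complex Set Filter Topology Metric
open scoped ComplexConjugate

private theorem exp_quart : cexp (((Real.pi / 2 : ℝ) : ℂ) * I) = I := by
  rw [Complex.exp_mul_I, ← Complex.ofReal_cos, ← Complex.ofReal_sin, Real.cos_pi_div_two,
    Real.sin_pi_div_two]
  simp

theorem exp_lgu {w : ℂ} (h : w ≠ 0) : cexp (lgu w) = w := by
  rw [lgu, Complex.exp_sub, Complex.exp_log (mul_ne_zero h I_ne_zero), exp_quart,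
    mul_div_cancel_right₀ _ I_ne_zero]

theorem lgu_re (w : ℂ) : (lgu w).re = Real.log ‖w‖ := by
  rw [lgu, Complex.sub_re, Complex.log_re, norm_mul, Complex.norm_I, mul_one]
  simp

private theorem lgu_im_eq (w : ℂ) : (lgu w).im = arg (w * I) - Real.pi / 2 := by
  rw [lgu, Complex.sub_im, Complex.log_im]
  simp

theorem lgu_im (w : ℂ) : -(3 * Real.pi / 2) < (lgu w).im ∧ (lgu w).im ≤ Real.pi / 2 := by
  rw [lgu_im_eq]
  have h1 := Complex.neg_pi_lt_arg (w * I)
  have h2 := Complex.arg_le_pi (w * I)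
  constructor <;> linarith

theorem lgu_neg {w : ℂ} (h : w.re < 0) :
    -(3 * Real.pi / 2) < (lgu w).im ∧ (lgu w).im < -(Real.pi / 2) := by
  refine ⟨(lgu_im w).1, ?_⟩
  rw [lgu_im_eq]
  have h1 : arg (w * I) < 0 := by
    rw [Complex.arg_neg_iff]
    simpa using h
  linarith

theorem lgu_low {w : ℂ} (h : w.im < 0) : -Real.pi < (lgu w).im ∧ (lgu w).im < 0 := by
  rw [lgu_im_eq]
  have h1 : |arg (w * I)| < Real.pi / 2 := by
    rw [Complex.abs_arg_lt_pi_div_two_iff]
    left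
    simpa using h
  rw [abs_lt] at h1
  constructor <;> linarith [h1.1, h1.2]

private theorem lgu_slit {w : ℂ} (h : w.re ≠ 0 ∨ w.im < 0) : w * I ∈ slitPlane := by
  rw [Complex.mem_slitPlane_iff]
  rcases h with h | h
  · right
    simpa using h
  · left
    simpa using h

private theorem lgu_ne {w : ℂ} (h : w.re ≠ 0 ∨ w.im < 0) : w ≠ 0 := by
  rintro rfl
  simp at h

theorem lgu_deriv {w : ℂ} (h : w.re ≠ 0 ∨ w.im < 0) : HasDerivAt lgu w⁻¹ w := by
  have h1 := (((hasDerivAt_id w).mul_const I).clog (lgu_slit h)).sub_const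
    (((Real.pi / 2 : ℝ) : ℂ) * I)
  have h2 : 1 * I / (id w * I) = w⁻¹ := by
    have := lgu_ne h
    rw [id, mul_div_mul_right _ _ I_ne_zero, one_div]
  rw [h2] at h1
  exact h1

theorem lgu_an {w : ℂ} (h : w.re ≠ 0 ∨ w.im < 0) : AnalyticAt ℂ lgu w :=
  ((analyticAt_id.mul analyticAt_const).clog (lgu_slit h)).sub analyticAt_const

private theorem one_add_inv_ne {s : ℂ} (h : s ≠ 0) (h1 : s + 1 ≠ 0) : 1 + s⁻¹ ≠ 0 := by
  have h2 : 1 + s⁻¹ = (s + 1) / s := by
    field_simp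
  rw [h2]
  exact div_ne_zero h1 h

theorem ellp_exp {s : ℂ} (h : s ≠ 0) (h1 : s + 1 ≠ 0) : cexp (ellp s) = 1 + s⁻¹ := by
  rw [ellp, Complex.exp_log (one_add_inv_ne h h1)]

theorem ellu_exp {s : ℂ} (h : s ≠ 0) (h1 : s + 1 ≠ 0) : cexp (ellu s) = 1 + s⁻¹ := by
  rw [ellu, Complex.exp_sub, exp_lgu h1, exp_lgu h]
  field_simp

private theorem ellp_ne {s : ℂ} (h : s.re < -1 ∨ s.im ≠ 0 ∨ 0 < s.re) : s ≠ 0 := by
  rintro rfl
  simp at h
  linarith

private theorem ellp_ne1 {s : ℂ} (h : s.re < -1 ∨ s.im ≠ 0 ∨ 0 < s.re) : s + 1 ≠ 0 := by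
  intro h1
  have hr : s.re + 1 = 0 := by
    have := congrArg Complex.re h1
    simpa using this
  have hi : s.im = 0 := by
    have := congrArg Complex.im h1
    simpa using this
  rcases h with h | h | h
  · linarith
  · exact h hi
  · linarith

private theorem ellp_slit {s : ℂ} (h : s.re < -1 ∨ s.im ≠ 0 ∨ 0 < s.re) :
    1 + s⁻¹ ∈ slitPlane := by
  have h0 := ellp_ne h
  have hn : 0 < normSq s := normSq_pos.2 h0
  rw [Complex.mem_slitPlane_iff, Complex.add_re, Complex.add_im, Complex.inv_re, Complex.inv_im,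
    Complex.one_re, Complex.one_im, zero_add]
  rcases h with h | h | h
  · left
    have h2 : -1 < s.re / normSq s := by
      rw [lt_div_iff₀ hn, Complex.normSq_apply]
      nlinarith [mul_self_nonneg s.im]
    linarith
  · right
    exact div_ne_zero (neg_ne_zero.2 h) hn.ne'
  · left
    have := div_pos h hn
    linarith

theorem ellp_deriv {s : ℂ} (h : s.re < -1 ∨ s.im ≠ 0 ∨ 0 < s.re) :
    HasDerivAt ellp (-(s * (s + 1))⁻¹) s := by
  have h0 := ellp_ne h
  have h1 := ellp_ne1 h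
  have h2 := ((hasDerivAt_inv h0).const_add 1).clog (ellp_slit h)
  have h3 : -(s ^ 2)⁻¹ / (1 + s⁻¹) = -(s * (s + 1))⁻¹ := by
    have h4 := one_add_inv_ne h0 h1
    have h5 : 1 + s⁻¹ = (s + 1) / s := by
      field_simp
    rw [h5]
    field_simp
  rw [h3] at h2
  exact h2

theorem ellp_an {s : ℂ} (h : s.re < -1 ∨ s.im ≠ 0 ∨ 0 < s.re) : AnalyticAt ℂ ellp s :=
  (analyticAt_const.add (analyticAt_id.inv (ellp_ne h))).clog (ellp_slit h)

private theorem ellu_ne {s : ℂ} (h : s.re < 0) : s ≠ 0 := by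
  rintro rfl
  simp at h

theorem ellu_deriv {s : ℂ} (h : s.re < 0) (h1 : (s + 1).re ≠ 0 ∨ (s + 1).im < 0) :
    HasDerivAt ellu (-(s * (s + 1))⁻¹) s := by
  have h2 := (lgu_deriv h1).comp_add_const s 1
  have h3 := h2.sub (lgu_deriv (Or.inl h.ne))
  have h4 : (s + 1)⁻¹ - s⁻¹ = -(s * (s + 1))⁻¹ := by
    have h5 := ellu_ne h
    have h6 := lgu_ne h1
    field_simp
    ring
  rw [h4] at h3
  exact h3

theorem ellu_an {s : ℂ} (h : s.re < 0) (h1 : (s + 1).re ≠ 0 ∨ (s + 1).im < 0) :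
    AnalyticAt ℂ ellu s := by
  have h2 : AnalyticAt ℂ (fun s : ℂ => s + 1) s := analyticAt_id.add analyticAt_const
  have h3 : AnalyticAt ℂ (fun s : ℂ => lgu (s + 1)) s :=
    AnalyticAt.fun_comp (g := lgu) (f := fun s : ℂ => s + 1) (lgu_an h1) h2
  exact h3.sub (lgu_an (Or.inl h.ne))

theorem ellp_eq_ellu {s : ℂ} (h : s.re < -1 ∨ s.im < 0) : ellp s = ellu s := by
  have h' : s.re < -1 ∨ s.im ≠ 0 ∨ 0 < s.re := by
    rcases h with h | h
    · exact Or.inl h
    · exact Or.inr (Or.inl h.ne)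
  have h0 := ellp_ne h'
  have h1 := ellp_ne1 h'
  have him : -Real.pi < (ellu s).im ∧ (ellu s).im ≤ Real.pi := by
    rw [ellu, Complex.sub_im]
    rcases h with h | h
    · have a1 := lgu_neg (w := s) (by linarith)
      have a2 := lgu_neg (w := s + 1) (by
        rw [Complex.add_re, Complex.one_re]
        linarith)
      constructor <;> linarith [a1.1, a1.2, a2.1, a2.2]
    · have a1 := lgu_low (w := s) h
      have a2 := lgu_low (w := s + 1) (by
        rw [Complex.add_im, Complex.one_im]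
        linarith)
      constructor <;> linarith [a1.1, a1.2, a2.1, a2.2]
  refine Complex.exp_inj_of_neg_pi_lt_of_le_pi ?_ ?_ him.1 him.2 ?_
  · rw [ellp, Complex.log_im]
    exact Complex.neg_pi_lt_arg _
  · rw [ellp, Complex.log_im]
    exact Complex.arg_le_pi _
  · rw [ellp_exp h0 h1, ellu_exp h0 h1]

theorem ellp_conj {s : ℂ} (h : s.re < -1 ∨ s.im ≠ 0 ∨ 0 < s.re) :
    ellp (conj s) = conj (ellp s) := by
  have h1 : arg (1 + s⁻¹) ≠ Real.pi := (Complex.mem_slitPlane_iff_arg.1 (ellp_slit h)).1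
  rw [ellp, ellp, ← Complex.log_conj _ h1, map_add, map_one, map_inv₀]

end Pool.Agent.MP_ae5b4e_an_N4
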