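import Pool.Agent.Lib.MP_ae5b4e_an_N4.ChD

/-!
# MP_ae5b4e_an N4, part H: the logarithms `lgu`, `ellu`
-/

set_option autoImplicit false

noncomputable section

namespace Pool.Agent.MP_ae5b4e_an_N4

open Complex Set Filter Topology Metric

/-- Proof: `exp (log (w I)) = w I`, `exp (- (π / 2) I) = - I`. -/
theorem exp_lguH {w : ℂ} (hw : w ≠ 0) : cexp (lgu w) = w := by
  have h1 : w * I ≠ 0 := mul_ne_zero hw I_ne_zero
  unfold lgu
  rw [Complex.exp_sub, Complex.exp_log h1]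
  have h2 : cexp (((Real.pi / 2 : ℝ) : ℂ) * I) = I := by
    push_cast
    exact Complex.exp_pi_div_two_mul_I
  rw [h2, mul_div_assoc, div_self I_ne_zero, mul_one]

theorem exp_ellu {s : ℂ} (h0 : s ≠ 0) (h1 : s + 1 ≠ 0) : cexp (ellu s) = (s + 1) / s := by
  unfold ellu
  rw [Complex.exp_sub, exp_lguH h1, exp_lguH h0]

/-- Proof: `‖w I‖ = ‖w‖`. -/
theorem re_lgu (w : ℂ) : (lgu w).re = Real.log ‖w‖ := by
  unfold lgu
  rw [Complex.sub_re, Complex.log_re, norm_mul, Complex.norm_I, mul_one]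
  simp

/-- Proof: `- π < arg (w I) ≤ π`. -/
theorem im_lgu (w : ℂ) : -(3 * Real.pi / 2) < (lgu w).im ∧ (lgu w).im ≤ Real.pi / 2 := by
  have h1 : (lgu w).im = Complex.arg (w * I) - Real.pi / 2 := by
    unfold lgu
    rw [Complex.sub_im, Complex.log_im]
    simp
  have h2 := Complex.neg_pi_lt_arg (w * I)
  have h3 := Complex.arg_le_pi (w * I)
  rw [h1]
  constructor <;> linarith

theorem re_ellu (s : ℂ) : (ellu s).re = Real.log ‖s + 1‖ - Real.log ‖s‖ := by
  unfold ellu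
  rw [Complex.sub_re, re_lgu, re_lgu]

theorem im_ellu (s : ℂ) : |(ellu s).im| ≤ 7 := by
  have h1 := im_lgu (s + 1)
  have h2 := im_lgu s
  have h3 := Real.pi_lt_d2
  unfold ellu
  rw [Complex.sub_im, abs_le]
  constructor <;> linarith [h1.1, h1.2, h2.1, h2.2]

/-- Proof: `w I` is in the slit plane, `(w I).re = - w.im`, `(w I).im = w.re`. -/
theorem an_lgu {w : ℂ} (h : w.re ≠ 0 ∨ w.im < 0) : AnalyticAt ℂ lgu w := by
  have h1 : w * I ∈ Complex.slitPlane := by
    rw [Complex.mem_slitPlane_iff]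
    simp only [mul_re, mul_im, I_re, I_im, mul_zero, mul_one, zero_sub, zero_add, add_zero]
    rcases h with h | h
    · exact Or.inr h
    · exact Or.inl (by linarith)
  have h2 : AnalyticAt ℂ (fun w : ℂ => Complex.log (w * I)) w :=
    (analyticAt_id.mul analyticAt_const).clog h1
  exact h2.sub analyticAt_const

theorem an_ellu {s : ℂ} (h0 : s.re ≠ 0 ∨ s.im < 0) (h1 : (s + 1).re ≠ 0 ∨ (s + 1).im < 0) :
    AnalyticAt ℂ ellu s := by
  have h2 : AnalyticAt ℂ (fun s : ℂ => s + 1) s := analyticAt_id.add analyticAt_const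
  exact ((an_lgu h1).comp_of_eq h2 rfl).sub (an_lgu h0)

end Pool.Agent.MP_ae5b4e_an_N4
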