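import Mathlib

/-!
# MP_ae5b4e_an N4, part H: primitives, identity theorem, Gronwall inequality
-/

set_option autoImplicit false

noncomputable section

namespace Pool.Agent.MP_ae5b4e_an_N4

open Complex Set Filter Topology Metric

/-- Primitives.  Proof: `Convex.exists_forall_hasDerivWithinAt`, add a constant. -/
theorem exists_prim {D : Set ℂ} (hD : IsOpen D) (hDc : Convex ℝ D) {f : ℂ → ℂ}
    (hf : DifferentiableOn ℂ f D) (c v : ℂ) :
    ∃ P : ℂ → ℂ, P c = v ∧ ∀ w ∈ D, HasDerivAt P (f w) w := by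
  obtain ⟨P, hP⟩ := hDc.exists_forall_hasDerivWithinAt hf
  refine ⟨fun w => P w - P c + v, by ring, fun w hw => ?_⟩
  have h1 := (hP w hw).hasDerivAt (hD.mem_nhds hw)
  exact (h1.sub_const (P c)).add_const v

/-- Identity theorem for meromorphic functions.  Proof: `MeromorphicOn` of the difference and
`MeromorphicOn.exists_meromorphicOrderAt_ne_top_iff_forall` (or
`MeromorphicOn.isClopen_setOf_meromorphicOrderAt_eq_top`): the order of the difference is `⊤` at
`x`, hence everywhere on `U`. -/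
theorem mero_ident {F H : ℂ → ℂ} {U : Set ℂ} (hU : IsPreconnected U) (hF : MeromorphicOn F U)
    (hH : MeromorphicOn H U) {x : ℂ} (hx : x ∈ U) (h : F =ᶠ[𝓝 x] H) :
    ∀ y ∈ U, F =ᶠ[𝓝[≠] y] H := by
  intro y hy
  have hD : MeromorphicOn (F - H) U := hF.sub hH
  have hx' : meromorphicOrderAt (F - H) x = ⊤ := by
    rw [meromorphicOrderAt_eq_top_iff]
    have h1 : ∀ᶠ z in 𝓝 x, (F - H) z = 0 := by
      filter_upwards [h] with z hz
      rw [Pi.sub_apply, hz, sub_self]
    exact h1.filter_mono nhdsWithin_le_nhds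
  have hy' : meromorphicOrderAt (F - H) y = ⊤ := by
    by_contra hcon
    exact (hD.meromorphicOrderAt_ne_top_of_isPreconnected hU hy hx hcon) hx'
  rw [meromorphicOrderAt_eq_top_iff] at hy'
  filter_upwards [hy'] with z hz
  exact sub_eq_zero.1 hz

/-- Gronwall's inequality on a segment: if `M' = φ` on the segment, `‖φ‖ ≤ A ‖M‖ + e` and
`‖M c‖ ≤ d`, then `‖M w‖ ≤ (d + e ℓ) exp (A ℓ)`, `ℓ ≥ ‖w - c‖`.  Proof: for `m t = M (c + t (w - c))`,
`0 ≤ t ≤ 1`, `‖m'‖ ≤ ℓ A ‖m‖ + ℓ e`; `norm_le_gronwallBound_of_norm_deriv_right_le`,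
and `gronwallBound d (ℓ A) (ℓ e) 1 ≤ (d + ℓ e) exp (ℓ A)` because `(exp x - 1) / x ≤ exp x`. -/
theorem gron_seg {M φ : ℂ → ℂ} {c w : ℂ} {A e d l : ℝ} (hA : 0 ≤ A) (he : 0 ≤ e)
    (hl : ‖w - c‖ ≤ l) (hM : ∀ z ∈ segment ℝ c w, HasDerivAt M (φ z) z)
    (hφ : ∀ z ∈ segment ℝ c w, ‖φ z‖ ≤ A * ‖M z‖ + e) (hd : ‖M c‖ ≤ d) :
    ‖M w‖ ≤ (d + e * l) * Real.exp (A * l) := by
  have hl0 : 0 ≤ l := (norm_nonneg _).trans hl
  have hd0 : 0 ≤ d := (norm_nonneg _).trans hd
  set q : ℝ → ℂ := fun t => c + (t : ℂ) * (w - c) with hq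
  have hqd : ∀ t : ℝ, HasDerivAt q (w - c) t := by
    intro t
    have h1 : HasDerivAt (fun t : ℝ => (t : ℂ)) 1 t := Complex.ofRealCLM.hasDerivAt
    have h2 := (h1.mul_const (w - c)).const_add c
    rw [one_mul] at h2
    exact h2
  have hqs : ∀ t ∈ Icc (0:ℝ) 1, q t ∈ segment ℝ c w := by
    intro t ht
    rw [segment_eq_image']
    refine ⟨t, ht, ?_⟩
    simp [hq]
  have hmd : ∀ t ∈ Icc (0:ℝ) 1, HasDerivAt (fun t => M (q t)) (φ (q t) * (w - c)) t := by
    intro t ht
    exact (hM _ (hqs t ht)).comp_of_eq t (hqd t) rfl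
  have hmain := norm_le_gronwallBound_of_norm_deriv_right_le (f := fun t => M (q t))
    (f' := fun t => φ (q t) * (w - c)) (δ := d) (K := A * l) (ε := e * l) (a := 0) (b := 1)
    (fun t ht => (hmd t ht).continuousAt.continuousWithinAt)
    (fun t ht => (hmd t (Ico_subset_Icc_self ht)).hasDerivWithinAt)
    (by simpa [hq] using hd)
    (fun t ht => by
      have h1 := hφ _ (hqs t (Ico_subset_Icc_self ht))
      have h2 : 0 ≤ A * ‖M (q t)‖ + e := by positivity
      rw [norm_mul]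
      calc ‖φ (q t)‖ * ‖w - c‖ ≤ (A * ‖M (q t)‖ + e) * l :=
            mul_le_mul h1 hl (norm_nonneg _) h2
        _ = A * l * ‖M (q t)‖ + e * l := by ring)
    1 (right_mem_Icc.2 zero_le_one)
  have h1 : q 1 = w := by simp [hq]
  rw [h1] at hmain
  refine hmain.trans ?_
  rw [sub_zero]
  by_cases hK : A * l = 0
  · rw [hK, gronwallBound_K0, Real.exp_zero]
    simp
  · rw [gronwallBound_of_K_ne_0 hK]
    have hKp : 0 < A * l := lt_of_le_of_ne (by positivity) (Ne.symm hK)
    have h2 : Real.exp (A * l) - 1 ≤ A * l * Real.exp (A * l) := by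
      have h3 := Real.add_one_le_exp (-(A * l))
      have h4 := mul_le_mul_of_nonneg_right h3 (Real.exp_pos (A * l)).le
      rw [← Real.exp_add, neg_add_cancel, Real.exp_zero] at h4
      linarith
    have h5 : e * l / (A * l) * (Real.exp (A * l) - 1) ≤ e * l * Real.exp (A * l) := by
      have h6 : e * l / (A * l) * (Real.exp (A * l) - 1) ≤
          e * l / (A * l) * (A * l * Real.exp (A * l)) :=
        mul_le_mul_of_nonneg_left h2 (by positivity)
      refine h6.trans (le_of_eq ?_)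
      have h7 : e * l / (A * l) * (A * l * Real.exp (A * l)) =
          e * l * (A * l / (A * l)) * Real.exp (A * l) := by ring
      rw [h7, div_self hK, mul_one]
    change d * Real.exp (A * l * 1) + e * l / (A * l) * (Real.exp (A * l * 1) - 1) ≤ _
    rw [mul_one]
    linarith

end Pool.Agent.MP_ae5b4e_an_N4
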