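import Pool.Agent.Lib.MP_ae5b4e_an_N4.HG
import Pool.Agent.Lib.MP_ae5b4e_an_N4.HLg
import Pool.Agent.Lib.MP_ae5b4e_an_N4.HNb

/-!
# MP_ae5b4e_an N4, part H: definitions

One variable `z` near the zero `z₁` of `S + 1`; the state of the chain at `z` is `(S z, Λ z)`.
-/

set_option autoImplicit false

noncomputable section

namespace Pool.Agent.MP_ae5b4e_an_N4

open Complex Set Filter Topology Metric

/-- the data near `z₁` -/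
structure HD (k ν η L s1 s2 : ℝ) (G n g S Λ : ℂ → ℂ) (z₁ : ℂ) : Prop where
  hk : 10 ^ 20 ≤ k
  ν1 : 2 * k ≤ ν
  ν2 : ν ≤ 2 * k + 1
  η0 : 0 ≤ η
  η1 : η ≤ 1 / 10 ^ 30
  gd : Gd ν η s1 s2 G n g
  L0 : 100 ≤ L
  L1 : L ≤ 10 ^ 12 * k
  anS : ∀ z ∈ ball z₁ (1 / 2), AnalyticAt ℂ S z
  anL : ∀ z ∈ ball z₁ (1 / 2), AnalyticAt ℂ Λ z
  S0 : S z₁ = -1
  dS : ∀ z ∈ ball z₁ (1 / 2), ‖ν * deriv S z - 1‖ ≤ 1 / 50
  dL : ∀ z ∈ ball z₁ (1 / 2), ‖ν * deriv Λ z‖ ≤ L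
  im1 : ∀ z ∈ ball z₁ (1 / 2), -Real.pi + 2 * aa ≤ (Λ z).im
  im2 : ∀ z ∈ ball z₁ (1 / 2), (Λ z).im ≤ -(2 * aa)
  re1 : ∀ z ∈ ball z₁ (1 / 2), s1 + 600 ≤ (Λ z).re
  re2 : ∀ z ∈ ball z₁ (1 / 2), (Λ z).re ≤ s2 - 600

/-- the radius -/
def rL (L : ℝ) : ℝ := 1 / (32 * (L + 1))

/-- the function `F̂ (z) (1 + 1 / S z)`, which is the value of `F` one step later -/
def Xf (G S Λ : ℂ → ℂ) (z : ℂ) : ℂ := cexp (G (Λ z)) * (1 + (S z)⁻¹)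

/-- its derivative at `z₁` -/
def Xa (G S Λ : ℂ → ℂ) (z₁ : ℂ) : ℂ := -(cexp (G (Λ z₁)) * deriv S z₁)

/-- the next label -/
def Lpl (B : Set ℂ) (G S Λ : ℂ → ℂ) (z : ℂ) : ℂ := Function.invFunOn G B (G (Λ z) + ellu (S z))

/-- the combination which is equal to `g` of the next label -/
def Gam (f G S Λ : ℂ → ℂ) (z : ℂ) : ℂ :=
  1 + Xf G S Λ z * ((f (z + 2) - Xf G S Λ z)⁻¹ + (cexp (G (Λ z)) - Xf G S Λ z)⁻¹)

/-- the radius in the plane of the values -/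
def Xr (L : ℝ) (G S Λ : ℂ → ℂ) (z₁ : ℂ) : ℝ := 6 / 10 * ‖Xa G S Λ z₁‖ * rL L

/-- the centre of the second half of the proof -/
def cen (Λ : ℂ → ℂ) (z₁ : ℂ) : ℂ := ⟨(Λ z₁).re - 1 / 2, -(Real.pi / 2)⟩

/-- the part of the box near the abscissa of `c` -/
def Bc (s1 s2 : ℝ) (c : ℂ) : Set ℂ := {σ | σ ∈ Bx s1 s2 ∧ |σ.re - c.re| < 26 / 100}

/-- the part of the box where `exp G` is small -/
def Ux (L s1 s2 : ℝ) (G S Λ : ℂ → ℂ) (z₁ : ℂ) : Set ℂ :=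
  {σ | σ ∈ Bx s1 s2 ∧ ‖cexp (G σ)‖ < Xr L G S Λ z₁}

/-- the strip in the plane of the values of `G` -/
def Sw (ν : ℝ) (b : ℂ) : Set ℂ := {w | |w.re - b.re| < ν / 4}

/-- the rectangle in the plane of the values of `G` -/
def Rw (ν : ℝ) (b : ℂ) : Set ℂ := {w | |w.re - b.re| < ν / 4 ∧ |w.im - b.im| < 2 * ν}

/-- the data of the second half of the proof -/
structure HC (ν η s1 s2 : ℝ) (G n g : ℂ → ℂ) (c : ℂ) : Prop where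
  hν : 10 ^ 20 ≤ ν
  η0 : 0 ≤ η
  η1 : η ≤ 1 / 10 ^ 30
  gd : Gd ν η s1 s2 G n g
  im : c.im = -(Real.pi / 2)
  re1 : s1 + 10 ≤ c.re
  re2 : c.re ≤ s2 - 10

variable {k ν η L s1 s2 : ℝ} {G n g S Λ : ℂ → ℂ} {z₁ c : ℂ}

theorem HD.ν20 (D : HD k ν η L s1 s2 G n g S Λ z₁) : 2 * 10 ^ 20 ≤ ν := by
  linarith [D.hk, D.ν1]

theorem HD.ν0 (D : HD k ν η L s1 s2 G n g S Λ z₁) : 0 < ν := by linarith [D.ν20]

theorem HD.rL0 (D : HD k ν η L s1 s2 G n g S Λ z₁) : 0 < rL L := by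
  have h := D.L0
  unfold rL
  positivity

theorem HD.rL1 (D : HD k ν η L s1 s2 G n g S Λ z₁) : rL L ≤ 1 / 3232 := by
  have h := D.L0
  unfold rL
  rw [div_le_div_iff₀ (by positivity) (by norm_num)]
  linarith

theorem HD.rL2 (D : HD k ν η L s1 s2 G n g S Λ z₁) : 1 / (10 ^ 14 * k) ≤ rL L := by
  have h := D.L0
  have h1 := D.L1
  have h2 := D.hk
  unfold rL
  rw [div_le_div_iff₀ (by positivity) (by positivity)]
  nlinarith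

theorem HD.LrL (D : HD k ν η L s1 s2 G n g S Λ z₁) : L * rL L ≤ 1 / 32 := by
  have h := D.L0
  unfold rL
  rw [mul_one_div, div_le_div_iff₀ (by positivity) (by norm_num)]
  linarith

theorem HD.ball_sub (D : HD k ν η L s1 s2 G n g S Λ z₁) : ball z₁ (rL L) ⊆ ball z₁ (1 / 2) :=
  ball_subset_ball (D.rL1.trans (by norm_num))

theorem HD.Lmem (D : HD k ν η L s1 s2 G n g S Λ z₁) {z : ℂ} (hz : z ∈ ball z₁ (1 / 2)) :
    Λ z ∈ Bx s1 s2 := by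
  have h1 := D.im1 z hz
  have h2 := D.im2 z hz
  have h3 := D.re1 z hz
  have h4 := D.re2 z hz
  have h5 : (0:ℝ) < aa := by unfold aa; norm_num
  refine ⟨?_, ?_, ?_, ?_⟩ <;> linarith

theorem HD.z1mem (D : HD k ν η L s1 s2 G n g S Λ z₁) : z₁ ∈ ball z₁ (1 / 2) :=
  mem_ball_self (by norm_num)

theorem HD.hc (D : HD k ν η L s1 s2 G n g S Λ z₁) : HC ν η s1 s2 G n g (cen Λ z₁) where
  hν := by linarith [D.ν20]
  η0 := D.η0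
  η1 := D.η1
  gd := D.gd
  im := rfl
  re1 := by
    change s1 + 10 ≤ (Λ z₁).re - 1 / 2
    linarith [D.re1 z₁ D.z1mem]
  re2 := by
    change (Λ z₁).re - 1 / 2 ≤ s2 - 10
    linarith [D.re2 z₁ D.z1mem]

theorem HC.mem (C : HC ν η s1 s2 G n g c) : c ∈ Bx s1 s2 := by
  have h1 := C.im
  have h2 := Real.pi_gt_three
  have h5 : aa = 1 / 12800 := rfl
  refine ⟨?_, ?_, ?_, ?_⟩ <;> linarith [C.re1, C.re2]

theorem HC.ν0 (C : HC ν η s1 s2 G n g c) : 0 < ν := by linarith [C.hν]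

end Pool.Agent.MP_ae5b4e_an_N4
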