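import Pool.Agent.Lib.MP_ae5b4e_an_N4.HNe

/-!
# MP_ae5b4e_an N4, part H: extension of `n` across the real axis
-/

set_option autoImplicit false

noncomputable section

namespace Pool.Agent.MP_ae5b4e_an_N4

open Complex Set Filter Topology Metric

variable {ν η s1 s2 : ℝ} {G n g : ℂ → ℂ} {c : ℂ}

/-- the target rectangle -/
def Tc (c : ℂ) : Set ℂ := {σ | |σ.re - c.re| < 1 / 10 ∧ -2 < σ.im ∧ σ.im < 1 / 10}

private theorem HE_nu {ν : ℝ} (hν : 0 < ν) : ‖(ν : ℂ)‖ = ν := by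
  rw [Complex.norm_real, Real.norm_eq_abs, abs_of_pos hν]

private theorem HE_inv {ν : ℝ} (hν : 0 < ν) : ‖(1 : ℂ) / ν‖ = 1 / ν := by
  rw [norm_div, norm_one, HE_nu hν]

/-- The function `s` with `s' = 1 / N`.  Proof: `exists_prim` on `Rw` for `1 / N` (`N ≠ 0` as
`‖N - ν‖ ≤ 30 η ν`), `naff_of_deriv` with `a = 1 / ν`: `‖1 / N - 1 / ν‖ ≤ 31 η / ν`. -/
theorem exists_s {N N' : ℂ → ℂ} {b : ℂ} (hν : 0 < ν) (h0 : 0 ≤ η) (h1 : η ≤ 1 / 10 ^ 6)
    (hN : ∀ w ∈ Rw ν b, HasDerivAt N (N' w) w) (hN2 : ∀ w ∈ Rw ν b, ‖N w - ν‖ ≤ 30 * η * ν) (c : ℂ) :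
    ∃ s : ℂ → ℂ, s b = c ∧ (∀ w ∈ Rw ν b, HasDerivAt s (N w)⁻¹ w) ∧
      NAff s ((1 : ℂ) / ν) (31 * η) (Rw ν b) := by
  have hlow : ∀ w ∈ Rw ν b, (1 - 30 * η) * ν ≤ ‖N w‖ := by
    intro w hw
    have h2 := norm_sub_norm_le (ν : ℂ) (N w)
    rw [norm_sub_rev, HE_nu hν] at h2
    have h3 := hN2 w hw
    linarith
  have hpos : 0 < (1 - 30 * η) * ν := mul_pos (by norm_num at h1; linarith) hν
  have hne : ∀ w ∈ Rw ν b, N w ≠ 0 := fun w hw h => by
    have h2 := hlow w hw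
    rw [h, norm_zero] at h2
    linarith
  obtain ⟨s, hs1, hs2⟩ := exists_prim (Rw_open ν b) (Rw_convex ν b) (f := fun w => (N w)⁻¹)
    (fun w hw => ((hN w hw).differentiableAt.inv (hne w hw)).differentiableWithinAt) b c
  refine ⟨s, hs1, hs2, naff_of_deriv (Rw_convex ν b) hs2 fun w hw => ?_⟩
  have hν' : (ν : ℂ) ≠ 0 := by exact_mod_cast hν.ne'
  have e1 : (N w)⁻¹ - (1 : ℂ) / ν = -((N w - ν) / (N w * ν)) := by
    field_simp [hne w hw]
    ring
  rw [e1, norm_neg, norm_div, norm_mul, HE_inv hν, HE_nu hν]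
  have h2 := hlow w hw
  have h3 := hN2 w hw
  rw [div_le_iff₀ (mul_pos (hpos.trans_le h2) hν)]
  have h4 : 31 * η * (1 / ν) * (((1 - 30 * η) * ν) * ν) ≤ 31 * η * (1 / ν) * (‖N w‖ * ν) := by
    gcongr
  have h5 : 31 * η * (1 / ν) * (((1 - 30 * η) * ν) * ν) = 31 * η * (1 - 30 * η) * ν := by
    field_simp
  have h6 : 30 * η * ν ≤ 31 * η * (1 - 30 * η) * ν := by
    have h7 : 30 * η ≤ 31 * η * (1 - 30 * η) := by
      norm_num at h1
      nlinarith
    gcongr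
  linarith

/-- Proof: `NAff.solve` with `w₀ = b`, `s b = c`, `y = σ`, `‖y - c‖ ≤ 2` (`Im c = - π / 2`): the ball
about `b + ν (σ - c)` of radius `62 η ν 2` is in `Rw ν b`. -/
theorem s_surj {s : ℂ → ℂ} {b c : ℂ} (hν : 0 < ν) (h0 : 0 ≤ η) (h1 : η ≤ 1 / 10 ^ 6)
    (hb : s b = c) (hs : NAff s ((1 : ℂ) / ν) (31 * η) (Rw ν b)) (hc : c.im = -(Real.pi / 2)) {σ : ℂ}
    (hσ : σ ∈ Tc c) : ∃ w ∈ Rw ν b, s w = σ := by
  have hp1 := Real.pi_gt_d2
  have hp2 := Real.pi_lt_d2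
  have hν' : (ν : ℂ) ≠ 0 := by exact_mod_cast hν.ne'
  have hbm : b ∈ Rw ν b := by
    refine ⟨?_, ?_⟩
    · rw [sub_self, abs_zero]; positivity
    · rw [sub_self, abs_zero]; positivity
  obtain ⟨t1, t2, t3⟩ := hσ
  have r1 : |(σ - c).re| < 1 / 10 := by rw [Complex.sub_re]; exact t1
  have r2 : |(σ - c).im| < 17 / 10 := by
    rw [Complex.sub_im, hc, abs_lt]
    constructor <;> linarith
  have r3 : ‖σ - c‖ ≤ 2 := by
    have := Complex.norm_le_abs_re_add_abs_im (σ - c)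
    linarith
  have e1 : (σ - s b) / ((1 : ℂ) / ν) = ν * (σ - c) := by
    rw [hb]
    field_simp
  have e2 : 2 * (31 * η) * (‖σ - s b‖ / ‖(1 : ℂ) / ν‖) ≤ ν / 1000 := by
    rw [hb, HE_inv hν]
    have e3 : 2 * (31 * η) * (‖σ - c‖ / (1 / ν)) = 62 * η * ‖σ - c‖ * ν := by
      field_simp
      ring
    rw [e3]
    have e4 : 62 * η * ‖σ - c‖ ≤ 62 * (1 / 10 ^ 6) * 2 := by gcongr
    have e5 : 62 * η * ‖σ - c‖ ≤ 1 / 1000 := e4.trans (by norm_num)
    calc 62 * η * ‖σ - c‖ * ν ≤ 1 / 1000 * ν := by gcongr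
      _ = ν / 1000 := by ring
  obtain ⟨w, hw, hw2⟩ := hs.solve (one_div_ne_zero hν') (by positivity)
    (by norm_num at h1 ⊢; linarith) hbm σ (by
      intro w hw
      rw [e1] at hw
      have h2 : ‖w - (b + ν * (σ - c))‖ ≤ ν / 1000 := by
        have := mem_closedBall.1 hw
        rw [dist_eq_norm] at this
        exact this.trans e2
      have h3 := (Complex.abs_re_le_norm _).trans h2
      have h4 := (Complex.abs_im_le_norm _).trans h2
      have e5 : (w - (b + ν * (σ - c))).re = (w.re - b.re) - ν * (σ - c).re := by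
        simp only [Complex.sub_re, Complex.add_re, Complex.re_ofReal_mul]
        ring
      have e6 : (w - (b + ν * (σ - c))).im = (w.im - b.im) - ν * (σ - c).im := by
        simp only [Complex.sub_im, Complex.add_im, Complex.im_ofReal_mul]
        ring
      rw [e5] at h3
      rw [e6] at h4
      have h5 : |ν * (σ - c).re| ≤ ν * (1 / 10) := by
        rw [abs_mul, abs_of_pos hν]
        gcongr
      have h6 : |ν * (σ - c).im| ≤ ν * (17 / 10) := by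
        rw [abs_mul, abs_of_pos hν]
        gcongr
      refine ⟨?_, ?_⟩
      · have := abs_sub_abs_le_abs_sub (w.re - b.re) (ν * (σ - c).re)
        linarith
      · have := abs_sub_abs_le_abs_sub (w.im - b.im) (ν * (σ - c).im)
        linarith)
  refine ⟨w, ?_, hw2⟩
  rw [e1] at hw
  have h2 : ‖w - (b + ν * (σ - c))‖ ≤ ν / 1000 := by
    have := mem_closedBall.1 hw
    rw [dist_eq_norm] at this
    exact this.trans e2
  have h3 := (Complex.abs_re_le_norm _).trans h2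
  have h4 := (Complex.abs_im_le_norm _).trans h2
  have e5 : (w - (b + ν * (σ - c))).re = (w.re - b.re) - ν * (σ - c).re := by
    simp only [Complex.sub_re, Complex.add_re, Complex.re_ofReal_mul]
    ring
  have e6 : (w - (b + ν * (σ - c))).im = (w.im - b.im) - ν * (σ - c).im := by
    simp only [Complex.sub_im, Complex.add_im, Complex.im_ofReal_mul]
    ring
  rw [e5] at h3
  rw [e6] at h4
  have h5 : |ν * (σ - c).re| ≤ ν * (1 / 10) := by
    rw [abs_mul, abs_of_pos hν]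
    gcongr
  have h6 : |ν * (σ - c).im| ≤ ν * (17 / 10) := by
    rw [abs_mul, abs_of_pos hν]
    gcongr
  refine ⟨?_, ?_⟩
  · have := abs_sub_abs_le_abs_sub (w.re - b.re) (ν * (σ - c).re)
    linarith
  · have := abs_sub_abs_le_abs_sub (w.im - b.im) (ν * (σ - c).im)
    linarith

private def HE_V (s1 s2 : ℝ) (c : ℂ) : Set ℂ := Bx s1 s2 ∩ {σ | |σ.re - c.re| < 24 / 100}

private theorem HE_V_open (s1 s2 : ℝ) (c : ℂ) : IsOpen (HE_V s1 s2 c) :=
  (Bx_open' s1 s2).inter (isOpen_lt (by fun_prop) continuous_const)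

private theorem HE_V_convex (s1 s2 : ℝ) (c : ℂ) : Convex ℝ (HE_V s1 s2 c) := by
  refine (Bx_convex' s1 s2).inter ?_
  have h : {σ : ℂ | |σ.re - c.re| < 24 / 100} =
      {σ : ℂ | c.re - 24 / 100 < σ.re} ∩ {σ : ℂ | σ.re < c.re + 24 / 100} := by
    ext σ
    simp only [mem_ofPred_eq, mem_inter_iff, abs_lt]
    constructor
    · rintro ⟨h1, h2⟩
      constructor <;> linarith
    · rintro ⟨h1, h2⟩
      constructor <;> linarith
  rw [h]
  exact (convex_halfSpace_re_gt _).inter (convex_halfSpace_re_lt _)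

/-- Proof: `σ ↦ s (G σ) - σ` has the derivative `n σ / N (G σ) - 1 = 0` on the convex open set
`Bx ∩ {|σ.re - c.re| < 24 / 100}` (`HC.G_mem`, `N (G σ) = n σ`), and the value `0` at `c`. -/
theorem HC.s_eq (C : HC ν η s1 s2 G n g c) {N s : ℂ → ℂ}
    (hN : ∀ σ ∈ Bx s1 s2, |σ.re - c.re| < 24 / 100 → N (G σ) = n σ)
    (hs : ∀ w ∈ Rw ν (G c), HasDerivAt s (N w)⁻¹ w) (hc : s (G c) = c) :
    ∀ σ ∈ Bx s1 s2, |σ.re - c.re| < 24 / 100 → s (G σ) = σ := by
  intro σ hσ hσ2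
  have hcV : c ∈ HE_V s1 s2 c := ⟨C.mem, by
    change |c.re - c.re| < 24 / 100
    rw [sub_self, abs_zero]; norm_num⟩
  have hn : ∀ σ ∈ Bx s1 s2, n σ ≠ 0 := by
    intro σ hσ h
    have h1 := C.gd.nc σ hσ
    rw [h, zero_sub, norm_neg, HE_nu C.ν0] at h1
    have h2 := C.η1
    have h3 := C.ν0
    norm_num at h2
    nlinarith
  have hd : ∀ σ ∈ HE_V s1 s2 c, HasDerivWithinAt (fun σ => s (G σ) - σ) 0 (HE_V s1 s2 c) σ := by
    intro σ hσ
    have h1 := (hs (G σ) (C.G_mem hσ.1 hσ.2)).comp σ (C.gd.dG σ hσ.1)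
    have h2 := h1.sub (hasDerivAt_id σ)
    have e : (N (G σ))⁻¹ * n σ - 1 = 0 := by
      rw [hN σ hσ.1 hσ.2, inv_mul_cancel₀ (hn σ hσ.1), sub_self]
    rw [e] at h2
    exact h2.hasDerivWithinAt
  have h1 := (HE_V_convex s1 s2 c).norm_image_sub_le_of_norm_hasDerivWithin_le (C := 0)
    hd (fun σ _ => by rw [norm_zero]) hcV (show σ ∈ HE_V s1 s2 c from ⟨hσ, hσ2⟩)
  rw [hc, sub_self, sub_zero, zero_mul] at h1
  exact sub_eq_zero.1 (norm_le_zero_iff.1 h1)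

end Pool.Agent.MP_ae5b4e_an_N4
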