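import Pool.Agent.Lib.MP_ae5b4e_an_N4.HE

/-!
# MP_ae5b4e_an N4, part H: the extension of `n` across the real axis
-/

set_option autoImplicit false

noncomputable section

namespace Pool.Agent.MP_ae5b4e_an_N4

open Complex Set Filter Topology Metric

variable {ν η s1 s2 : ℝ} {G n g : ℂ → ℂ} {c : ℂ}

/-- The extension.  Proof: `γ`; `exists_lin` on `Sw` (`Sw_open`, `Sw_convex`, `Rw ⊆ Sw`) with
`N (G c) = n c`; `N_bound` (`‖n c - ν‖ ≤ η ν`, `nc`); `N_eq`; `exists_s`, `s_eq`.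
`n' σ := N (invFunOn s (Rw ν (G c)) σ)` on `Tc c`: by `s_surj` the point
`w = invFunOn s (Rw ν (G c)) σ` is in `Rw` and `s w = σ`, `n'` is analytic at `σ` (`NAff.inv`,
`31 η < 1`), `N w ≠ 0`; for `σ.im < - aa` `σ ∈ Bx` (`re1`, `re2`, `- π + aa < - 2`), `s (G σ) = σ`,
injectivity of `s` (`NAff.injOn`, `G σ ∈ Rw`): `w = G σ`, `n' σ = N (G σ) = n σ`.  This contradicts
`NoX` with `x = c.re`, `r = 1 / 10`. -/
theorem HC.noX (C : HC ν η s1 s2 G n g c) {γ : ℂ → ℂ}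
    (h1 : AnalyticOnNhd ℂ γ (Sw ν (G c))) (h2 : ∀ w ∈ Sw ν (G c), ‖ν * γ w - 1‖ ≤ η)
    (h3 : ∀ σ ∈ Bx s1 s2, |σ.re - c.re| < 24 / 100 → γ (G σ) = g σ) : ¬ NoX s1 s2 n := by
  intro hX
  have hν := C.ν0
  have hνc : (ν : ℂ) ≠ 0 := by exact_mod_cast hν.ne'
  have hη0 := C.η0
  have hη1 := C.η1
  have hη2 : η ≤ 1 / 10 ^ 6 := hη1.trans (by norm_num)
  have hη3 : η ≤ 1 / 1000 := hη1.trans (by norm_num)
  have hRS : Rw ν (G c) ⊆ Sw ν (G c) := fun w hw => hw.1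
  obtain ⟨N, hNb, hN⟩ := exists_lin (Sw_open ν (G c)) (Sw_convex ν (G c))
    h1.differentiableOn (G c) (n c)
  have hNR : ∀ w ∈ Rw ν (G c), HasDerivAt N (1 - γ w * N w) w := fun w hw => hN w (hRS hw)
  have hB := N_bound hν hη0 hη3 (fun w hw => h2 w (hRS hw)) hNR
    (by rw [hNb]; exact C.gd.nc c C.mem)
  have hNe := C.N_eq h3 hNR hNb
  obtain ⟨s, hsb, hs, hsN⟩ := exists_s hν hη0 hη2 hNR hB c
  have hse := C.s_eq hNe hs hsb
  have ha : (1 : ℂ) / ν ≠ 0 := div_ne_zero one_ne_zero hνc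
  have he : 31 * η < 1 := by linarith
  have hsd : DifferentiableOn ℂ s (Rw ν (G c)) := fun w hw =>
    (hs w hw).differentiableAt.differentiableWithinAt
  have hinj := hsN.injOn ha he
  have hTm : ∀ σ ∈ Tc c, ∃ w ∈ Rw ν (G c), s w = σ := fun σ hσ =>
    s_surj hν hη0 hη2 hsb hsN C.im hσ
  refine hX c.re (1 / 10) (by norm_num) (by linarith [C.re1]) (by linarith [C.re2])
    ⟨fun σ => N (Function.invFunOn s (Rw ν (G c)) σ), ?_, ?_, ?_⟩
  · intro σ hσ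
    obtain ⟨w, hw, hsw⟩ := hTm σ hσ
    have hm : Function.invFunOn s (Rw ν (G c)) σ ∈ Rw ν (G c) :=
      Function.invFunOn_mem ⟨w, hw, hsw⟩
    have hA := (hsN.inv ha he (Rw_open ν (G c)) hsd hw).1
    rw [hsw] at hA
    have hNd : DifferentiableOn ℂ N (Sw ν (G c)) := fun w hw =>
      (hN w hw).differentiableAt.differentiableWithinAt
    have hNA : AnalyticAt ℂ N (Function.invFunOn s (Rw ν (G c)) σ) :=
      hNd.analyticAt ((Sw_open ν (G c)).mem_nhds (hRS hm))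
    exact hNA.comp_of_eq hA rfl
  · intro σ hσ1 hσ2 hσ3
    obtain ⟨w, hw, hsw⟩ := hTm σ ⟨hσ1, hσ2, hσ3⟩
    have hm : Function.invFunOn s (Rw ν (G c)) σ ∈ Rw ν (G c) :=
      Function.invFunOn_mem ⟨w, hw, hsw⟩
    have hb := hB _ hm
    intro h0
    simp only at h0
    rw [h0, zero_sub, norm_neg, Complex.norm_real, Real.norm_of_nonneg hν.le] at hb
    nlinarith
  · intro σ hσ1 hσ2 hσ3
    have haa : aa = 1 / 12800 := rfl
    have hpi := Real.pi_gt_three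
    rw [abs_lt] at hσ1
    have hσB : σ ∈ Bx s1 s2 := by
      refine ⟨?_, ?_, ?_, hσ3⟩
      · linarith [C.re1, hσ1.1]
      · linarith [C.re2, hσ1.2]
      · rw [haa]; linarith
    have hσ4 : |σ.re - c.re| < 24 / 100 := by
      rw [abs_lt]
      constructor <;> linarith [hσ1.1, hσ1.2]
    have hG := C.G_mem hσB hσ4
    have hsG := hse σ hσB hσ4
    have hm : Function.invFunOn s (Rw ν (G c)) σ ∈ Rw ν (G c) :=
      Function.invFunOn_mem ⟨G σ, hG, hsG⟩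
    have hq : s (Function.invFunOn s (Rw ν (G c)) σ) = σ :=
      Function.invFunOn_eq ⟨G σ, hG, hsG⟩
    have hw : Function.invFunOn s (Rw ν (G c)) σ = G σ := hinj hm hG (hq.trans hsG.symm)
    simp only
    rw [hw]
    exact hNe σ hσB hσ4

end Pool.Agent.MP_ae5b4e_an_N4
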