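import Pool.Agent.Lib.MP_ae5b4e_an_N4.HGa

/-!
# MP_ae5b4e_an N4, part H: the periodic continuation of `g`, conclusion
-/

set_option autoImplicit false

noncomputable section

namespace Pool.Agent.MP_ae5b4e_an_N4

open Complex Set Filter Topology Metric

variable {ν η s1 s2 : ℝ} {G n g : ℂ → ℂ} {c : ℂ}

/-- The continuation.  Proof: for `w` in the strip choose `σ w ∈ Bc` with
`G (σ w) = w + 2 π i m` (`exists_lab`), `γ w := g (σ w)`; by `g_eq` `γ w = g σ` for all `σ ∈ Bc` with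
`exp (G σ) = exp w`.  Analytic at `w₀`: for `w` near `w₀` the point
`σ = invFunOn G B (w + 2 π i m)`, `m = m (w₀)`, is in `Bc` (`Gd.inv_an` at `σ (w₀)`, `Bc` is
open), so `γ w = g (invFunOn G B (w + 2 π i m))` near `w₀`.  Bound: `gc`. -/
theorem HC.gam (C : HC ν η s1 s2 G n g c) {H : ℂ → ℂ}
    (hH : ∀ σ ∈ Bc s1 s2 c, ∀ᶠ σ' in 𝓝[≠] σ, H (cexp (G σ')) = g σ') :
    ∃ γ : ℂ → ℂ, AnalyticOnNhd ℂ γ (Sw ν (G c)) ∧ (∀ w ∈ Sw ν (G c), ‖ν * γ w - 1‖ ≤ η) ∧
      ∀ σ ∈ Bc s1 s2 c, G σ ∈ Sw ν (G c) → γ (G σ) = g σ := by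
  classical
  have hν := C.ν0
  have hη1 : η < 1 := lt_of_le_of_lt C.η1 (by norm_num)
  choose! σf hσf using fun (w : ℂ) (hw : w ∈ Sw ν (G c)) => C.exists_lab hw
  -- the values of the continuation
  have key : ∀ w ∈ Sw ν (G c), ∀ σ ∈ Bc s1 s2 c, cexp (G σ) = cexp w → g (σf w) = g σ := by
    intro w hw σ hσ he
    obtain ⟨h1, m, hm⟩ := hσf w hw
    refine C.g_eq hH h1 hσ ?_
    rw [hm, he]
    have h2 : w + 2 * Real.pi * I * m = w + m * (2 * Real.pi * I) := by ring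
    rw [h2, exp_add, exp_int_mul_two_pi_mul_I, mul_one]
  have hopen : IsOpen (Bc s1 s2 c) := by
    have h1 : IsOpen {σ : ℂ | |σ.re - c.re| < 26 / 100} :=
      isOpen_lt ((continuous_re.sub continuous_const).abs) continuous_const
    exact (Bx_open' s1 s2).inter h1
  have hSw : IsOpen (Sw ν (G c)) :=
    isOpen_lt ((continuous_re.sub continuous_const).abs) continuous_const
  refine ⟨fun w => g (σf w), ?_, ?_, ?_⟩
  · intro w₀ hw₀
    obtain ⟨h1, m, hm⟩ := hσf w₀ hw₀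
    obtain ⟨a1, a2⟩ := C.gd.inv_an hν hη1 h1.1
    rw [hm] at a1 a2
    have htr : AnalyticAt ℂ (fun w : ℂ => w + 2 * Real.pi * I * m) w₀ :=
      analyticAt_id.add analyticAt_const
    have hψ : AnalyticAt ℂ (fun w : ℂ => Function.invFunOn G (Bx s1 s2)
        (w + 2 * Real.pi * I * m)) w₀ :=
      AnalyticAt.fun_comp (g := Function.invFunOn G (Bx s1 s2))
        (f := fun w : ℂ => w + 2 * Real.pi * I * m) a1 htr
    have hψ0 : Function.invFunOn G (Bx s1 s2) (w₀ + 2 * Real.pi * I * m) = σf w₀ := by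
      rw [← hm]
      exact C.gd.inv_G hν hη1 h1.1
    have hg : AnalyticAt ℂ g (Function.invFunOn G (Bx s1 s2) (w₀ + 2 * Real.pi * I * m)) := by
      rw [hψ0]
      exact C.gd.g_an hν hη1 _ h1.1
    have hcomp : AnalyticAt ℂ (fun w : ℂ => g (Function.invFunOn G (Bx s1 s2)
        (w + 2 * Real.pi * I * m))) w₀ :=
      AnalyticAt.fun_comp (g := g) (f := fun w : ℂ => Function.invFunOn G (Bx s1 s2)
        (w + 2 * Real.pi * I * m)) hg hψ
    refine hcomp.congr ?_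
    have e1 : ∀ᶠ w in 𝓝 w₀, Function.invFunOn G (Bx s1 s2) (w + 2 * Real.pi * I * m) ∈
        Bc s1 s2 c := by
      refine hψ.continuousAt.eventually (hopen.mem_nhds ?_)
      change Function.invFunOn G (Bx s1 s2) (w₀ + 2 * Real.pi * I * m) ∈ Bc s1 s2 c
      rw [hψ0]
      exact h1
    have e2 : ∀ᶠ w in 𝓝 w₀, G (Function.invFunOn G (Bx s1 s2) (w + 2 * Real.pi * I * m)) =
        w + 2 * Real.pi * I * m := (htr.continuousAt.eventually a2).mono fun w hw => hw.2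
    filter_upwards [e1, e2, hSw.mem_nhds hw₀] with w b1 b2 b3
    refine (key w b3 _ b1 ?_).symm
    rw [b2]
    have h2 : w + 2 * Real.pi * I * m = w + m * (2 * Real.pi * I) := by ring
    rw [h2, exp_add, exp_int_mul_two_pi_mul_I, mul_one]
  · intro w hw
    obtain ⟨h1, -⟩ := hσf w hw
    exact C.gd.gc _ h1.1
  · intro σ hσ hG
    exact key _ hG σ hσ rfl

end Pool.Agent.MP_ae5b4e_an_N4
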