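import Pool.Agent.Lib.MP_ae5b4e_an_N4.HX

/-!
# MP_ae5b4e_an N4, part H: the region where `exp G` is small
-/

set_option autoImplicit false

noncomputable section

namespace Pool.Agent.MP_ae5b4e_an_N4

open Complex Set Filter Topology Metric

variable {k ν η L s1 s2 : ℝ} {G n g S Λ : ℂ → ℂ} {z₁ c : ℂ}

/-- Proof: `Gd.naff`: `Re (G σ - G σ') ≥ ν (σ - σ').re - η ν ‖σ - σ'‖ ≥ 0` as
`‖σ - σ'‖ = (σ - σ').re`. -/
theorem Gd.re_mono (hG : Gd ν η s1 s2 G n g) (hν : 0 < ν) (h0 : 0 ≤ η) (hη : η ≤ 1) {σ σ' : ℂ}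
    (hσ : σ ∈ Bx s1 s2) (hσ' : σ' ∈ Bx s1 s2) (him : σ.im = σ'.im) (hre : σ'.re ≤ σ.re) :
    (G σ').re ≤ (G σ).re := by
  have h1 := hG.naff hν σ hσ σ' hσ'
  set r : ℝ := σ.re - σ'.re with hr
  have hr0 : 0 ≤ r := sub_nonneg.2 hre
  have h2 : σ - σ' = (r : ℂ) := by
    apply Complex.ext
    · simp [hr]
    · simp [him]
  rw [h2, norm_real, norm_real, Real.norm_eq_abs, Real.norm_eq_abs, abs_of_nonneg hr0,
    abs_of_pos hν] at h1
  have h3 := (abs_re_le_norm _).trans h1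
  rw [sub_re, sub_re, ← ofReal_mul, ofReal_re, abs_le] at h3
  have h4 : η * ν * r ≤ ν * r := by nlinarith [mul_nonneg hν.le hr0]
  linarith [h3.1]

private theorem hu_num {k ν : ℝ} (hk : 10 ^ 20 ≤ k) (hν : 2 * k ≤ ν) :
    Real.exp (-(23 / 100 * ν)) < 6 / 10 * (49 / 50 / ν) * (1 / (10 ^ 14 * k)) := by
  have hk0 : 0 < k := by linarith
  have hν0 : 0 < ν := by linarith
  have h1 := Real.pow_div_factorial_le_exp (23 / 100 * ν) (by positivity) 3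
  have h2 : Real.exp (-(23 / 100 * ν)) ≤ 6 / (23 / 100 * ν) ^ 3 := by
    rw [Real.exp_neg, le_div_iff₀ (by positivity), inv_mul_le_iff₀ (Real.exp_pos _)]
    have h3 : (23 / 100 * ν) ^ 3 / 6 ≤ Real.exp (23 / 100 * ν) := by
      simpa [Nat.factorial] using h1
    linarith
  refine h2.trans_lt ?_
  have h3 : 6 / 10 * (49 / 50 / ν) * (1 / (10 ^ 14 * k)) = 147 / 250 / (ν * (10 ^ 14 * k)) := by
    field_simp
    ring
  rw [h3, div_lt_div_iff₀ (by positivity) (by positivity)]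
  have h4 : (23 / 100 * ν) ^ 3 = 12167 / 1000000 * (ν * ν ^ 2) := by ring
  rw [h4]
  have h5 : 4 * (k * k) ≤ ν ^ 2 := by nlinarith
  have h6 : (10:ℝ) ^ 20 * k ≤ k * k := by nlinarith
  have h7 : 6 * (10 ^ 14 * k) < 147 / 250 * (12167 / 1000000 * ν ^ 2) := by
    nlinarith
  have h8 := mul_lt_mul_of_pos_left h7 hν0
  linarith

/-- Proof: with `d = (Λ z₁).re - σ.re ≥ 24 / 100`: `‖σ - Λ z₁‖ ≤ d + π ≤ 15 d`, so by `Gd.naff`
`Re (G σ - G (Λ z₁)) ≤ - ν d (1 - 15 η) ≤ - (23 / 100) ν`; `‖exp (G σ)‖ ≤ E₁ exp (- (23 / 100) ν)`,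
`E₁ = ‖exp (G (Λ z₁))‖`, and `Xr ≥ (6 / 10) E₁ (49 / 50 / ν) / (10^14 k)` (`Xa_ge`, `rL2`);
`exp x ≥ x³ / 6` for `x = (23 / 100) ν`, `k ≤ ν`, `ν ≥ 10^20`. -/
theorem HD.Ux_left (D : HD k ν η L s1 s2 G n g S Λ z₁) {σ : ℂ} (hσ : σ ∈ Bx s1 s2)
    (hre : σ.re ≤ (Λ z₁).re - 24 / 100) : σ ∈ Ux L s1 s2 G S Λ z₁ := by
  refine ⟨hσ, ?_⟩
  have hν := D.ν0
  have hη0 := D.η0
  have hη1 := D.η1
  have hL := D.Lmem D.z1mem
  have h1 := D.gd.naff hν σ hσ (Λ z₁) hL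
  set d : ℝ := (Λ z₁).re - σ.re with hd
  have hd0 : 24 / 100 ≤ d := by linarith
  have h2 : ‖σ - Λ z₁‖ ≤ 15 * d := by
    have h3 := norm_le_abs_re_add_abs_im (σ - Λ z₁)
    have h4 : |(σ - Λ z₁).re| = d := by
      rw [sub_re, abs_sub_comm]
      exact abs_of_nonneg (by linarith)
    have h5 : |(σ - Λ z₁).im| ≤ Real.pi := by
      have e1 := hσ.2.2.1
      have e2 := hσ.2.2.2
      have e3 := hL.2.2.1
      have e4 := hL.2.2.2
      have e5 : (0:ℝ) < aa := by unfold aa; norm_num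
      rw [sub_im, abs_le]
      constructor <;> linarith
    have h6 := Real.pi_lt_d2
    rw [h4] at h3
    linarith
  rw [norm_real, Real.norm_eq_abs, abs_of_pos hν] at h1
  have h3 : η * ν * ‖σ - Λ z₁‖ ≤ η * ν * (15 * d) := by gcongr
  have h4 := (abs_re_le_norm _).trans (h1.trans h3)
  have h5 : (G σ - G (Λ z₁) - (ν : ℂ) * (σ - Λ z₁)).re =
      (G σ).re - (G (Λ z₁)).re + ν * d := by
    rw [sub_re, sub_re, re_ofReal_mul, sub_re]
    ring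
  rw [h5, abs_le] at h4
  have h6 : η * ν * (15 * d) ≤ 1 / 100 * (ν * d) := by
    have : η * 15 ≤ 1 / 100 := by linarith
    nlinarith [mul_nonneg hν.le (by linarith : (0:ℝ) ≤ d)]
  have h7 : 24 / 100 * ν ≤ ν * d := by nlinarith
  have h8 : (G σ).re ≤ (G (Λ z₁)).re + -(23 / 100 * ν) := by
    nlinarith [h4.2]
  have h9 : ‖cexp (G σ)‖ ≤ ‖cexp (G (Λ z₁))‖ * Real.exp (-(23 / 100 * ν)) := by
    rw [Complex.norm_exp, Complex.norm_exp, ← Real.exp_add]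
    exact Real.exp_le_exp.2 h8
  have hE : 0 < ‖cexp (G (Λ z₁))‖ := norm_pos_iff.2 (Complex.exp_ne_zero _)
  refine h9.trans_lt ?_
  unfold Xr
  have h10 := D.Xa_ge
  have h11 := D.rL2
  have hk0 : 0 < k := by linarith [D.hk]
  calc ‖cexp (G (Λ z₁))‖ * Real.exp (-(23 / 100 * ν))
      < ‖cexp (G (Λ z₁))‖ * (6 / 10 * (49 / 50 / ν) * (1 / (10 ^ 14 * k))) := by
        gcongr
        exact hu_num D.hk D.ν1
    _ = 6 / 10 * (‖cexp (G (Λ z₁))‖ * (49 / 50 / ν)) * (1 / (10 ^ 14 * k)) := by ring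
    _ ≤ 6 / 10 * ‖Xa G S Λ z₁‖ * rL L := by gcongr

/-- Proof: `σ.re < c.re + 26 / 100 = (Λ z₁).re - 24 / 100` for `c = cen Λ z₁`, `Ux_left`. -/
theorem HD.Bc_sub (D : HD k ν η L s1 s2 G n g S Λ z₁) :
    Bc s1 s2 (cen Λ z₁) ⊆ Ux L s1 s2 G S Λ z₁ := by
  rintro σ ⟨hσ, h1⟩
  refine D.Ux_left hσ ?_
  have h2 : (cen Λ z₁).re = (Λ z₁).re - 1 / 2 := rfl
  rw [h2, abs_lt] at h1
  linarith [h1.2]

/-- Proof: `Bx` is open, `G` is continuous on it. -/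
theorem HD.Ux_open (D : HD k ν η L s1 s2 G n g S Λ z₁) : IsOpen (Ux L s1 s2 G S Λ z₁) := by
  have h1 : ContinuousOn (fun σ => ‖cexp (G σ)‖) (Bx s1 s2) :=
    (Complex.continuous_exp.comp_continuousOn D.gd.diff.continuousOn).norm
  exact h1.isOpen_inter_preimage (Bx_open' s1 s2) isOpen_Iio

/-- Proof: `isPreconnected_of_forall` with the point `c = cen Λ z₁`: for `σ ∈ Ux` let
`σ' = ⟨c.re, σ.im⟩ ∈ Bx`; the segment from `σ` to `σ'` (horizontal) is in `Ux`: for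
`σ.re ≤ c.re` by `Ux_left`, for `σ.re ≥ c.re` by `re_mono` (norms of `exp`: `Complex.norm_exp`);
the vertical segment from `σ'` to `c` is in `Ux` by `Ux_left`.  Convexity of `Bx`
(`Bx_convex'`), `IsPreconnected.union` of the two segments (`(convex_segment _ _).isPreconnected`). -/
theorem HD.Ux_pre (D : HD k ν η L s1 s2 G n g S Λ z₁) :
    IsPreconnected (Ux L s1 s2 G S Λ z₁) := by
  have hc := D.hc.mem
  have hcre : (cen Λ z₁).re = (Λ z₁).re - 1 / 2 := rfl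
  set A : Set ℂ := Bx s1 s2 ∩ {σ : ℂ | σ.re ≤ (Λ z₁).re - 24 / 100} with hA
  have hAU : A ⊆ Ux L s1 s2 G S Λ z₁ := fun σ hσ => D.Ux_left hσ.1 hσ.2
  have hAp : IsPreconnected A :=
    ((Bx_convex' s1 s2).inter (convex_halfSpace_re_le _)).isPreconnected
  have hcA : cen Λ z₁ ∈ A := ⟨hc, by show (cen Λ z₁).re ≤ _; rw [hcre]; linarith⟩
  refine isPreconnected_of_forall (cen Λ z₁) fun σ hσ => ?_
  set σ' : ℂ := ⟨(cen Λ z₁).re, σ.im⟩ with hσ'
  have hσ'B : σ' ∈ Bx s1 s2 := ⟨hc.1, hc.2.1, hσ.1.2.2.1, hσ.1.2.2.2⟩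
  have hσ'A : σ' ∈ A := ⟨hσ'B, by show (cen Λ z₁).re ≤ _; rw [hcre]; linarith⟩
  have hseg : segment ℝ σ' σ ⊆ Ux L s1 s2 G S Λ z₁ := by
    intro w hw
    have hwB : w ∈ Bx s1 s2 := (Bx_convex' s1 s2).segment_subset hσ'B hσ.1 hw
    obtain ⟨a, b, ha, hb, hab, rfl⟩ := hw
    have him : (a • σ' + b • σ).im = σ.im := by
      simp only [add_im, Complex.real_smul, im_ofReal_mul, hσ']
      rw [← add_mul, hab, one_mul]
    have hre : (a • σ' + b • σ).re = a * (cen Λ z₁).re + b * σ.re := by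
      simp only [add_re, Complex.real_smul, re_ofReal_mul, hσ']
    rcases le_total (cen Λ z₁).re σ.re with h1 | h1
    · have h2 : (a • σ' + b • σ).re ≤ σ.re := by
        rw [hre]
        have e1 : a * (cen Λ z₁).re ≤ a * σ.re := mul_le_mul_of_nonneg_left h1 ha
        have e2 : a * σ.re + b * σ.re = σ.re := by rw [← add_mul, hab, one_mul]
        linarith
      refine ⟨hwB, lt_of_le_of_lt ?_ hσ.2⟩
      rw [Complex.norm_exp, Complex.norm_exp]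
      exact Real.exp_le_exp.2 (D.gd.re_mono D.ν0 D.η0 (D.η1.trans (by norm_num)) hσ.1 hwB
        him.symm h2)
    · have h2 : (a • σ' + b • σ).re ≤ (Λ z₁).re - 24 / 100 := by
        rw [hre]
        have e1 : b * σ.re ≤ b * (cen Λ z₁).re := mul_le_mul_of_nonneg_left h1 hb
        have e2 : a * (cen Λ z₁).re + b * (cen Λ z₁).re = (cen Λ z₁).re := by
          rw [← add_mul, hab, one_mul]
        linarith
      exact D.Ux_left hwB h2
  refine ⟨A ∪ segment ℝ σ' σ, union_subset hAU hseg, Or.inl hcA,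
    Or.inr (right_mem_segment ℝ σ' σ), ?_⟩
  exact hAp.union σ' hσ'A (left_mem_segment ℝ σ' σ) (convex_segment _ _).isPreconnected

end Pool.Agent.MP_ae5b4e_an_N4
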