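import Pool.Agent.Lib.MP_ae5b4e_an_N4.HM
import Pool.Agent.Lib.MP_ae5b4e_an_N4.HU
import Pool.Agent.Lib.MP_ae5b4e_an_N4.HNb

/-!
# MP_ae5b4e_an N4, part H: continuation of the identity `Gam = g`
-/

set_option autoImplicit false

noncomputable section

namespace Pool.Agent.MP_ae5b4e_an_N4

open Complex Set Filter Topology Metric

variable {k ν η L s1 s2 : ℝ} {G n g S Λ : ℂ → ℂ} {z₁ : ℂ}

/-- Proof: `mero_ident` on `Ux` (`Ux_pre`): `σ ↦ Gam (Xi (exp (G σ)))` is meromorphic on `Ux`: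
`MeromorphicAt.comp_analyticAt` with `Gam_mero` at `Xi (exp (G σ))` (in the ball by `X_inv`) and the
analytic map `σ ↦ Xi (exp (G σ))` (`X_inv`, `G` analytic at `σ`: `Gd.diff` on the open box); `g` is
analytic (`g_an`); the two functions agree near the point of `HD.near`. -/
theorem HD.ident (D : HD k ν η L s1 s2 G n g S Λ z₁) {f : ℂ → ℂ}
    (hm : MeromorphicOn f (ball (z₁ + 2) (rL L)))
    (hf : ∀ z ∈ ball z₁ (rL L), (z - z₁).im < -Real.exp (-k) →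
      Gam f G S Λ z = g (Lpl (Bx s1 s2) G S Λ z)) :
    ∀ σ ∈ Ux L s1 s2 G S Λ z₁, ∀ᶠ σ' in 𝓝[≠] σ,
      Gam f G S Λ (Xi L G S Λ z₁ (cexp (G σ'))) = g σ' := by
  obtain ⟨σs, hσs, hev⟩ := D.near hf
  have hη1 : η < 1 := lt_of_le_of_lt D.η1 (by norm_num)
  refine mero_ident D.Ux_pre (fun σ hσ => ?_)
    (fun σ hσ => (D.gd.g_an D.ν0 hη1 σ hσ.1).meromorphicAt) hσs hev
  obtain ⟨i1, -, i3⟩ := D.X_inv hσ.2
  have hG : AnalyticAt ℂ G σ := D.gd.diff.analyticAt ((Bx_open' s1 s2).mem_nhds hσ.1)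
  have h1 : AnalyticAt ℂ (fun σ => Xi L G S Λ z₁ (cexp (G σ))) σ :=
    AnalyticAt.fun_comp (g := Xi L G S Λ z₁) (f := fun σ => cexp (G σ)) i3 hG.cexp
  exact MeromorphicAt.comp_analyticAt (f := Gam f G S Λ)
    (g := fun σ => Xi L G S Λ z₁ (cexp (G σ))) (D.Gam_mero hm _ i1) h1

end Pool.Agent.MP_ae5b4e_an_N4
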