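import Pool.Agent.Lib.MP_ae5b4e_an_N4.HEx
import Pool.Agent.Lib.MP_ae5b4e_an_N4.HGb
import Pool.Agent.Lib.MP_ae5b4e_an_N4.HI

/-!
# MP_ae5b4e_an N4, part H: no regularity beyond the zero
-/

set_option autoImplicit false

noncomputable section

namespace Pool.Agent.MP_ae5b4e_an_N4

open Complex Set Filter Topology Metric

variable {k ν η L s1 s2 : ℝ} {G n g S Λ : ℂ → ℂ} {z₁ : ℂ}

/-- The theorem for the data `HD`.  Proof: `Gam_low` (with `z` for `z - 2`), `HD.ident`,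
`HC.gam` for `C = D.hc`, `H = Gam ∘ Xi`, `Bc_sub`; `HC.noX` with `HC.G_mem`
(`Bx ∩ {|σ.re - c.re| < 24 / 100} ⊆ Bc`, `Rw ⊆ Sw`). -/
theorem HD.no_reg (D : HD k ν η L s1 s2 G n g S Λ z₁) (hx : NoX s1 s2 n) :
    ¬ ∃ f : ℂ → ℂ, MeromorphicOn f (ball (z₁ + 2) (rL L)) ∧
      ∀ z ∈ ball (z₁ + 2) (rL L), (z - z₁).im < -Real.exp (-k) →
        f z = cexp (G (stp ellu (Bx s1 s2) G g
          (stp ellu (Bx s1 s2) G g (S (z - 2), Λ (z - 2)))).2) := by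
  rintro ⟨f, hm, hf⟩
  have h1 : ∀ z ∈ ball z₁ (rL L), (z - z₁).im < -Real.exp (-k) →
      Gam f G S Λ z = g (Lpl (Bx s1 s2) G S Λ z) := by
    intro z hz hk
    have h2 : Real.exp (-k) ≤ ‖z - z₁‖ := by
      have h3 := Complex.abs_im_le_norm (z - z₁)
      have h4 := neg_abs_le (z - z₁).im
      linarith
    refine D.Gam_low hz h2 ?_
    have h5 : z + 2 ∈ ball (z₁ + 2) (rL L) := by
      rw [mem_ball, dist_eq_norm] at hz ⊢
      rwa [show z + 2 - (z₁ + 2) = z - z₁ by ring]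
    have h6 := hf (z + 2) h5 (by
      have h7 : (z + 2 - z₁).im = (z - z₁).im := by simp
      rw [h7]
      exact hk)
    rw [h6, show z + 2 - 2 = z by ring]
  obtain ⟨γ, g1, g2, g3⟩ := D.hc.gam (H := fun y => Gam f G S Λ (Xi L G S Λ z₁ y))
    (fun σ hσ => D.ident hm h1 σ (D.Bc_sub hσ))
  refine D.hc.noX g1 g2 (fun σ hσ h => g3 σ ⟨hσ, h.trans (by norm_num)⟩ ?_) hx
  exact (D.hc.G_mem hσ h).1

end Pool.Agent.MP_ae5b4e_an_N4
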