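import Pool.Agent.Lib.MP_ae5b4e_an_N4.ChD
import Pool.Agent.Lib.MP_ae5b4e_an_N4.HNa

/-!
# MP_ae5b4e_an N4, part H: the function `G` on the box
-/

set_option autoImplicit false

noncomputable section

namespace Pool.Agent.MP_ae5b4e_an_N4

open Complex Set Filter Topology Metric

/-- Proof: an intersection of four open half planes. -/
theorem Bx_open' (s1 s2 : ℝ) : IsOpen (Bx s1 s2) :=
  (isOpen_lt continuous_const continuous_re).inter ((isOpen_lt continuous_re continuous_const).inter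
    ((isOpen_lt continuous_const continuous_im).inter (isOpen_lt continuous_im continuous_const)))

theorem Bx_convex' (s1 s2 : ℝ) : Convex ℝ (Bx s1 s2) :=
  (convex_halfSpace_re_gt s1).inter ((convex_halfSpace_re_lt s2).inter
    ((convex_halfSpace_im_gt (-Real.pi + aa)).inter (convex_halfSpace_im_lt (-aa))))

variable {ν η s1 s2 : ℝ} {G n g : ℂ → ℂ}

/-- Proof: `naff_of_deriv` with `nc`. -/
theorem Gd.naff (hG : Gd ν η s1 s2 G n g) (hν : 0 < ν) : NAff G ν η (Bx s1 s2) := by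
  refine naff_of_deriv (Bx_convex' s1 s2) hG.dG (fun w hw => ?_)
  rw [Complex.norm_real, Real.norm_of_nonneg hν.le]
  exact hG.nc w hw

theorem Gd.injOn (hG : Gd ν η s1 s2 G n g) (hν : 0 < ν) (hη : η < 1) : InjOn G (Bx s1 s2) :=
  (hG.naff hν).injOn (by exact_mod_cast hν.ne') hη

theorem Gd.diff (hG : Gd ν η s1 s2 G n g) : DifferentiableOn ℂ G (Bx s1 s2) := fun σ hσ =>
  (hG.dG σ hσ).differentiableAt.differentiableWithinAt

/-- Proof: `Function.invFunOn_mem`, `Function.invFunOn_eq`, `Gd.injOn`. -/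
theorem Gd.inv_G (hG : Gd ν η s1 s2 G n g) (hν : 0 < ν) (hη : η < 1) {σ : ℂ}
    (hσ : σ ∈ Bx s1 s2) : Function.invFunOn G (Bx s1 s2) (G σ) = σ :=
  (hG.injOn hν hη).leftInvOn_invFunOn hσ

/-- Proof: `NAff.solve` with `y = G σ₀ + ζ` gives a solution `σ`, `invFunOn` is equal to it
(`Gd.inv_G`). -/
theorem Gd.solve (hG : Gd ν η s1 s2 G n g) (hν : 0 < ν) (h0 : 0 ≤ η) (hη : η ≤ 1 / 2) {σ₀ ζ : ℂ}
    (hσ : σ₀ ∈ Bx s1 s2) (hb : closedBall (σ₀ + ζ / ν) (2 * η * (‖ζ‖ / ν)) ⊆ Bx s1 s2) :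
    Function.invFunOn G (Bx s1 s2) (G σ₀ + ζ) ∈ closedBall (σ₀ + ζ / ν) (2 * η * (‖ζ‖ / ν)) ∧
      G (Function.invFunOn G (Bx s1 s2) (G σ₀ + ζ)) = G σ₀ + ζ := by
  have hνn : ‖(ν : ℂ)‖ = ν := by rw [Complex.norm_real, Real.norm_of_nonneg hν.le]
  have hνc : (ν : ℂ) ≠ 0 := by exact_mod_cast hν.ne'
  have h1 := (hG.naff hν).solve hνc h0 hη hσ (G σ₀ + ζ)
  rw [add_sub_cancel_left, hνn] at h1
  obtain ⟨σ, hσ1, hσ2⟩ := h1 hb
  have h2 := hG.inv_G hν (by linarith) (hb hσ1)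
  rw [← hσ2, h2]
  exact ⟨hσ1, rfl⟩

theorem Gd.inv_an (hG : Gd ν η s1 s2 G n g) (hν : 0 < ν) (hη : η < 1) {σ : ℂ}
    (hσ : σ ∈ Bx s1 s2) : AnalyticAt ℂ (Function.invFunOn G (Bx s1 s2)) (G σ) ∧
      ∀ᶠ y in 𝓝 (G σ), Function.invFunOn G (Bx s1 s2) y ∈ Bx s1 s2 ∧
        G (Function.invFunOn G (Bx s1 s2) y) = y :=
  (hG.naff hν).inv (by exact_mod_cast hν.ne') hη (Bx_open' s1 s2) hG.diff hσ

/-- Proof: `g = (1 - n' / n) / n` on the open set `Bx` (`geq`), `n ≠ 0` (`nc`, `η < 1`), `n` is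
differentiable on the open set, hence analytic, `deriv n` is analytic. -/
theorem Gd.g_an (hG : Gd ν η s1 s2 G n g) (hν : 0 < ν) (hη : η < 1) :
    AnalyticOnNhd ℂ g (Bx s1 s2) := by
  have hne : ∀ σ ∈ Bx s1 s2, n σ ≠ 0 := by
    intro σ hσ h0
    have h1 := hG.nc σ hσ
    rw [h0, zero_sub, norm_neg, Complex.norm_real, Real.norm_of_nonneg hν.le] at h1
    nlinarith
  have hn : AnalyticOnNhd ℂ n (Bx s1 s2) := hG.dn.analyticOnNhd (Bx_open' s1 s2)
  intro σ hσ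
  have h1 : AnalyticAt ℂ (fun w => (1 - deriv n w / n w) / n w) σ :=
    (analyticAt_const.sub ((hn σ hσ).deriv.div (hn σ hσ) (hne σ hσ))).div (hn σ hσ) (hne σ hσ)
  refine h1.congr ?_
  filter_upwards [(Bx_open' s1 s2).mem_nhds hσ] with w hw
  rw [← hG.geq w hw]
  exact mul_div_cancel_left₀ _ (hne w hw)

/-- A closed ball of small radius about a point with room lies in the box. -/
theorem ball_sub_Bx {σ : ℂ} {e : ℝ} (h1 : s1 + e < σ.re) (h2 : σ.re < s2 - e)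
    (h3 : -Real.pi + aa + e < σ.im) (h4 : σ.im < -aa - e) : closedBall σ e ⊆ Bx s1 s2 := by
  intro w hw
  have h5 : ‖w - σ‖ ≤ e := by simpa [dist_eq_norm] using hw
  have h6 := (Complex.abs_re_le_norm (w - σ)).trans h5
  have h7 := (Complex.abs_im_le_norm (w - σ)).trans h5
  rw [Complex.sub_re, abs_le] at h6
  rw [Complex.sub_im, abs_le] at h7
  refine ⟨?_, ?_, ?_, ?_⟩ <;> linarith [h6.1, h6.2, h7.1, h7.2]

end Pool.Agent.MP_ae5b4e_an_N4
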