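import Pool.Agent.Lib.MP_ae5b4e_an_N4.HDe

/-!
# MP_ae5b4e_an N4, part H: the periodic continuation of `g`
-/

set_option autoImplicit false

noncomputable section

namespace Pool.Agent.MP_ae5b4e_an_N4

open Complex Set Filter Topology Metric

variable {ν η s1 s2 : ℝ} {G n g : ℂ → ℂ} {c : ℂ}

/-- `g` depends on `exp G` only.  Proof: `G σ₂ = G σ₁ + 2 π i m`.  Near `σ₁` let
`ψ σ := invFunOn G B (G σ + (G σ₂ - G σ₁))`: continuous at `σ₁` with the value `σ₂` (`Gd.inv_an`,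
`Gd.inv_G`), `G (ψ σ) = G σ + (G σ₂ - G σ₁)` near `σ₁`, so `exp (G (ψ σ)) = exp (G σ)` and
`ψ σ ≠ σ₂` for `σ ≠ σ₁` near `σ₁` (injectivity of `G`).  Hence for `σ → σ₁`, `σ ≠ σ₁`:
`g (ψ σ) = H (exp (G (ψ σ))) = H (exp (G σ)) = g σ` (eventually, `hH` at `σ₂` along `ψ` and at
`σ₁`); limit `σ → σ₁` with the continuity of `g` (`Gd.g_an`): `g σ₂ = g σ₁`. -/
theorem HC.g_eq (C : HC ν η s1 s2 G n g c) {H : ℂ → ℂ}
    (hH : ∀ σ ∈ Bc s1 s2 c, ∀ᶠ σ' in 𝓝[≠] σ, H (cexp (G σ')) = g σ') {σ₁ σ₂ : ℂ}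
    (h1 : σ₁ ∈ Bc s1 s2 c) (h2 : σ₂ ∈ Bc s1 s2 c) (he : cexp (G σ₁) = cexp (G σ₂)) :
    g σ₁ = g σ₂ := by
  have hν := C.ν0
  have hη : η < 1 := lt_of_le_of_lt C.η1 (by norm_num)
  have hG := C.gd
  have hinv := hG.inv_G hν hη h2.1
  obtain ⟨han, hev⟩ := hG.inv_an hν hη h2.1
  set ψ : ℂ → ℂ := fun σ => Function.invFunOn G (Bx s1 s2) (G σ + (G σ₂ - G σ₁)) with hψ
  have hadd : G σ₁ + (G σ₂ - G σ₁) = G σ₂ := by ring
  have hψ1 : ψ σ₁ = σ₂ := by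
    rw [hψ]
    show Function.invFunOn G (Bx s1 s2) (G σ₁ + (G σ₂ - G σ₁)) = σ₂
    rw [hadd, hinv]
  have hcG : ContinuousAt (fun σ => G σ + (G σ₂ - G σ₁)) σ₁ :=
    (hG.dG σ₁ h1.1).continuousAt.add continuousAt_const
  have hcψ : ContinuousAt ψ σ₁ := by
    refine ContinuousAt.comp (g := Function.invFunOn G (Bx s1 s2))
      (f := fun σ => G σ + (G σ₂ - G σ₁)) ?_ hcG
    rw [hadd]
    exact han.continuousAt
  have hev1 : ∀ᶠ σ in 𝓝 σ₁, G (ψ σ) = G σ + (G σ₂ - G σ₁) := by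
    have h3 : Tendsto (fun σ => G σ + (G σ₂ - G σ₁)) (𝓝 σ₁) (𝓝 (G σ₂)) := by
      have h4 := hcG.tendsto
      rwa [hadd] at h4
    filter_upwards [h3.eventually hev] with σ hσ
    exact hσ.2
  have hexp : cexp (G σ₂ - G σ₁) = 1 := by
    rw [Complex.exp_sub, he, div_self (Complex.exp_ne_zero _)]
  have hB : ∀ᶠ σ in 𝓝 σ₁, σ ∈ Bx s1 s2 := (Bx_open' s1 s2).mem_nhds h1.1
  have htend : Tendsto ψ (𝓝[≠] σ₁) (𝓝[≠] σ₂) := by
    rw [tendsto_nhdsWithin_iff]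
    refine ⟨?_, ?_⟩
    · have h3 : Tendsto ψ (𝓝 σ₁) (𝓝 σ₂) := by
        have h4 := hcψ.tendsto
        rwa [hψ1] at h4
      exact h3.mono_left nhdsWithin_le_nhds
    · filter_upwards [nhdsWithin_le_nhds hev1, nhdsWithin_le_nhds hB, self_mem_nhdsWithin]
        with σ e1 e2 e3 e4
      apply e3
      have e5 : ψ σ = σ₂ := e4
      rw [e5] at e1
      have e6 : G σ = G σ₁ := by linear_combination -e1
      exact hG.injOn hν hη e2 h1.1 e6
  have h5 : ∀ᶠ σ in 𝓝[≠] σ₁, g (ψ σ) = g σ := by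
    filter_upwards [htend.eventually (hH σ₂ h2), hH σ₁ h1, nhdsWithin_le_nhds hev1]
      with σ e1 e2 e3
    rw [← e1, ← e2, e3, Complex.exp_add, hexp, mul_one]
  have hgan := hG.g_an hν hη
  have h6 : Tendsto (fun σ => g (ψ σ)) (𝓝[≠] σ₁) (𝓝 (g σ₂)) :=
    ((hgan σ₂ h2.1).continuousAt.tendsto.mono_left nhdsWithin_le_nhds).comp htend
  have h7 : Tendsto g (𝓝[≠] σ₁) (𝓝 (g σ₁)) :=
    (hgan σ₁ h1.1).continuousAt.tendsto.mono_left nhdsWithin_le_nhds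
  exact tendsto_nhds_unique (h7.congr' (h5.mono fun σ hσ => hσ.symm)) h6

/-- Proof: choose an integer `m` with `|Im (w + 2 π i m - G c)| ≤ π` (round), `Gd.solve` with
`σ₀ = c`, `ζ = w + 2 π i m - G c`: `‖ζ‖ ≤ ν / 4 + 4`, `|Re (ζ / ν)| < 1 / 4`,
`|Im (ζ / ν)| ≤ 4 / ν`; the ball is in the box (`HC.mem`, `ball_sub_Bx`: `Im c = - π / 2`), its
radius is
`≤ 2 η`; so the solution is in `Bc`. -/
theorem HC.exists_lab (C : HC ν η s1 s2 G n g c) {w : ℂ} (hw : w ∈ Sw ν (G c)) :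
    ∃ σ ∈ Bc s1 s2 c, ∃ m : ℤ, G σ = w + 2 * Real.pi * I * m := by
  have hν := C.ν0
  have hν20 := C.hν
  have hη0 := C.η0
  have hη1 := C.η1
  have hG := C.gd
  have hpi := Real.pi_gt_three
  have hpi4 := Real.pi_lt_four
  have hpos : (0:ℝ) < 2 * Real.pi := by linarith
  set m : ℤ := -round ((w - G c).im / (2 * Real.pi)) with hm
  set ζ : ℂ := w + 2 * Real.pi * I * m - G c with hζ
  have him : |ζ.im| ≤ Real.pi := by
    have h1 := abs_sub_round ((w - G c).im / (2 * Real.pi))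
    have h2 : ζ.im = (2 * Real.pi) * ((w - G c).im / (2 * Real.pi) -
        (round ((w - G c).im / (2 * Real.pi)) : ℝ)) := by
      have h3 : ζ.im = (w - G c).im + 2 * Real.pi * (m : ℝ) := by
        rw [hζ]
        simp
        ring
      rw [h3, hm, mul_sub, mul_div_cancel₀ _ hpos.ne']
      push_cast
      ring
    rw [h2, abs_mul, abs_of_pos hpos]
    have h4 := mul_le_mul_of_nonneg_left h1 hpos.le
    linarith
  have hre : |ζ.re| < ν / 4 := by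
    have h3 : ζ.re = w.re - (G c).re := by
      rw [hζ]
      simp
    rw [h3]
    exact hw
  have hnorm : ‖ζ‖ ≤ ν / 4 + 4 := by
    have := Complex.norm_le_abs_re_add_abs_im ζ
    linarith
  have hζν : ‖ζ‖ / ν ≤ 1 / 2 := by
    rw [div_le_iff₀ hν]
    linarith
  have hr0 : 0 ≤ 2 * η * (‖ζ‖ / ν) := by positivity
  have hr1 : 2 * η * (‖ζ‖ / ν) ≤ 1 / 10 ^ 30 := by
    have h1 : 2 * η * (‖ζ‖ / ν) ≤ 2 * η * (1 / 2) :=
      mul_le_mul_of_nonneg_left hζν (by linarith)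
    linarith
  have hre2 : |(ζ / (ν:ℂ)).re| < 1 / 4 := by
    rw [Complex.div_ofReal_re, abs_div, abs_of_pos hν, div_lt_iff₀ hν]
    linarith
  have him2 : |(ζ / (ν:ℂ)).im| ≤ 1 / 100 := by
    rw [Complex.div_ofReal_im, abs_div, abs_of_pos hν, div_le_iff₀ hν]
    linarith
  have hre3 := abs_lt.1 hre2
  have him3 := abs_le.1 him2
  have haa : aa = 1 / 12800 := rfl
  have hr2 : 2 * η * (‖ζ‖ / ν) ≤ 1 / 1000 := hr1.trans (by norm_num)
  have hball : closedBall (c + ζ / ν) (2 * η * (‖ζ‖ / ν)) ⊆ Bx s1 s2 := by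
    refine ball_sub_Bx ?_ ?_ ?_ ?_
    · rw [add_re]
      linarith [C.re1]
    · rw [add_re]
      linarith [C.re2]
    · rw [add_im, C.im, haa]
      linarith
    · rw [add_im, C.im, haa]
      linarith
  obtain ⟨hs1, hs2⟩ := hG.solve hν hη0 (hη1.trans (by norm_num)) C.mem hball
  refine ⟨Function.invFunOn G (Bx s1 s2) (G c + ζ), ⟨hball hs1, ?_⟩, m, ?_⟩
  · have h1 : ‖Function.invFunOn G (Bx s1 s2) (G c + ζ) - (c + ζ / ν)‖ ≤
        2 * η * (‖ζ‖ / ν) := by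
      simpa [dist_eq_norm] using hs1
    have h2 := (Complex.abs_re_le_norm _).trans h1
    rw [sub_re, add_re] at h2
    have h3 := abs_le.1 h2
    rw [abs_lt]
    constructor
    · linarith [h3.1]
    · linarith [h3.2]
  · rw [hs2, hζ]
    ring

end Pool.Agent.MP_ae5b4e_an_N4
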