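import Pool.Agent.Lib.MP_ae5b4e_an_N4.HS

/-!
# MP_ae5b4e_an N4, part H: the two steps of the chain below the zero
-/

set_option autoImplicit false

noncomputable section

namespace Pool.Agent.MP_ae5b4e_an_N4

open Complex Set Filter Topology Metric

variable {k ν η L s1 s2 : ℝ} {G n g S Λ : ℂ → ℂ} {z₁ : ℂ}

private theorem HL_S1_pos (D : HD k ν η L s1 s2 G n g S Λ z₁) {z : ℂ}
    (hz : z ∈ ball z₁ (1 / 2)) (hne : z ≠ z₁) : 0 < ‖S z + 1‖ := by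
  refine lt_of_lt_of_le ?_ (D.S_lo hz)
  have h1 : 0 < ‖z - z₁‖ := norm_pos_iff.2 (sub_ne_zero.2 hne)
  have h2 := D.ν0
  positivity

private theorem HL_ne {k : ℝ} {z z₁ : ℂ} (hk : Real.exp (-k) ≤ ‖z - z₁‖) : z ≠ z₁ := by
  intro h
  rw [h, sub_self, norm_zero] at hk
  linarith [Real.exp_pos (-k)]

/-- Proof: `‖z - z₁‖ ≥ exp (- k)`, `S_lo`, `S_up`, `S_norm`, `re_ellu`: `Re (ellu S) =
log ‖S + 1‖ - log ‖S‖ ≥ log (0.98 exp (- k) / ν) - 1 ≥ - k - log ν - 2 ≥ - 0.51 ν` (`log ν ≤ ν / 1000`,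
`k ≤ ν / 2`) and `≤ log (1 / 10^20) + 1 ≤ 0`. -/
theorem HD.ell_re (D : HD k ν η L s1 s2 G n g S Λ z₁) {z : ℂ} (hz : z ∈ ball z₁ (1 / 2))
    (hk : Real.exp (-k) ≤ ‖z - z₁‖) :
    -(51 / 100 * ν) ≤ (ellu (S z)).re ∧ (ellu (S z)).re ≤ 0 := by
  have hν := D.ν0
  have hν20 := D.ν20
  have hν1 := D.ν1
  have h0 := HL_S1_pos D hz (HL_ne hk)
  have hn := abs_le.1 (D.S_norm hz)
  have hS0 : 0 < ‖S z‖ := by
    have : (1:ℝ) / 10 ^ 20 ≤ 1 / 2 := by norm_num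
    linarith [hn.1]
  rw [re_ellu]
  constructor
  · have h1 : Real.exp (-k) / (2 * ν) ≤ ‖S z + 1‖ := by
      refine le_trans ?_ (D.S_lo hz)
      rw [div_le_div_iff₀ (by positivity) hν]
      have h2 := Real.exp_pos (-k)
      nlinarith
    have h2 := Real.log_le_log (by positivity) h1
    rw [Real.log_div (Real.exp_pos _).ne' (by positivity), Real.log_exp,
      Real.log_mul (by norm_num) hν.ne'] at h2
    have h3 : Real.log ‖S z‖ ≤ 1 := by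
      have h4 := Real.log_le_sub_one_of_pos hS0
      have : (1:ℝ) / 10 ^ 20 ≤ 1 / 2 := by norm_num
      linarith [hn.2]
    have h4 : Real.log 2 ≤ 1 := by
      have := Real.log_le_sub_one_of_pos (show (0:ℝ) < 2 by norm_num)
      linarith
    have h5 : Real.log ν ≤ ν / 2000 + 1998 := by
      have h6 := Real.log_le_sub_one_of_pos (show (0:ℝ) < ν / 2000 by positivity)
      rw [Real.log_div hν.ne' (by norm_num)] at h6
      have h7 := Real.log_le_sub_one_of_pos (show (0:ℝ) < 2000 by norm_num)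
      linarith
    linarith
  · have h1 : ‖S z + 1‖ ≤ ‖S z‖ := by
      have h2 := D.S_sm hz
      have : (1:ℝ) / 10 ^ 20 ≤ 1 / 2 := by norm_num
      linarith [hn.1]
    have h2 := Real.log_le_log h0 h1
    linarith

/-- The first step.  Proof: `Gd.solve` with `σ₀ = Λ z`, `ζ = ellu (S z)`: `Re ζ / ν ∈ [- 0.51, 0]`,
`|Im ζ| ≤ 7` (`im_ellu`), so `σ₀ + ζ / ν` has the distance `≥ aa / 2` from the boundary of the box
(`im1`, `im2`, `re1`, `re2`, `7 / ν ≤ 10^(-19)`), the radius is `≤ 2 η ≤ aa / 2`: `ball_sub_Bx`. -/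
theorem HD.step1 (D : HD k ν η L s1 s2 G n g S Λ z₁) {z : ℂ} (hz : z ∈ ball z₁ (1 / 2))
    (hk : Real.exp (-k) ≤ ‖z - z₁‖) :
    G (Lpl (Bx s1 s2) G S Λ z) = G (Λ z) + ellu (S z) ∧
    s1 + 500 ≤ (Lpl (Bx s1 s2) G S Λ z).re ∧ (Lpl (Bx s1 s2) G S Λ z).re ≤ s2 - 500 ∧
    -Real.pi + 3 / 2 * aa ≤ (Lpl (Bx s1 s2) G S Λ z).im ∧
    (Lpl (Bx s1 s2) G S Λ z).im ≤ -(3 / 2 * aa) := by
  have hν := D.ν0
  have hν20 := D.ν20
  have hη0 := D.η0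
  have hη1 := D.η1
  have haa : aa = 1 / 12800 := rfl
  have h30 : (1:ℝ) / 10 ^ 30 ≤ 1 / 10 ^ 10 := by norm_num
  obtain ⟨hr1, hr2⟩ := D.ell_re hz hk
  have hi := im_ellu (S z)
  obtain ⟨ζ, hζ⟩ : ∃ ζ : ℂ, ζ = ellu (S z) := ⟨_, rfl⟩
  rw [← hζ] at hr1 hr2 hi
  have hnorm : ‖ζ‖ ≤ ν := by
    have h1 := Complex.norm_le_abs_re_add_abs_im ζ
    rw [abs_of_nonpos hr2] at h1
    linarith
  have hrad : 2 * η * (‖ζ‖ / ν) ≤ 2 / 10 ^ 10 := by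
    have h1 : ‖ζ‖ / ν ≤ 1 := (div_le_one hν).2 hnorm
    have h2 : 2 * η * (‖ζ‖ / ν) ≤ 2 * η * 1 := mul_le_mul_of_nonneg_left h1 (by positivity)
    have h3 : (2:ℝ) / 10 ^ 10 = 2 * (1 / 10 ^ 10) := by norm_num
    rw [h3]
    linarith
  have hcr : (Λ z + ζ / ν).re = (Λ z).re + ζ.re / ν := by
    rw [Complex.add_re, Complex.div_ofReal_re]
  have hci : (Λ z + ζ / ν).im = (Λ z).im + ζ.im / ν := by
    rw [Complex.add_im, Complex.div_ofReal_im]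
  have hc1 : -(51 / 100) ≤ ζ.re / ν := by
    rw [le_div_iff₀ hν]
    linarith
  have hc2 : ζ.re / ν ≤ 0 := div_nonpos_of_nonpos_of_nonneg hr2 hν.le
  have hc3 : |ζ.im / ν| ≤ 1 / 10 ^ 10 := by
    rw [abs_div, abs_of_pos hν, div_le_div_iff₀ hν (by norm_num)]
    refine (mul_le_mul_of_nonneg_right hi (by norm_num)).trans ?_
    linarith
  have hc4 := abs_le.1 hc3
  have hz1 := D.im1 z hz
  have hz2 := D.im2 z hz
  have hz3 := D.re1 z hz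
  have hz4 := D.re2 z hz
  have hn1 : (1:ℝ) / 10 ^ 10 ≤ 1 / 100000 := by norm_num
  have hn2 : (2:ℝ) / 10 ^ 10 ≤ 1 / 100000 := by norm_num
  have hb : closedBall (Λ z + ζ / ν) (2 * η * (‖ζ‖ / ν)) ⊆ Bx s1 s2 := by
    refine (closedBall_subset_closedBall hrad).trans (ball_sub_Bx ?_ ?_ ?_ ?_)
    · rw [hcr]
      linarith
    · rw [hcr]
      linarith
    · rw [hci]
      linarith [hc4.1]
    · rw [hci]
      linarith [hc4.2]
  obtain ⟨hm, hG⟩ := D.gd.solve hν hη0 (by linarith) (D.Lmem hz) hb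
  have hL : Lpl (Bx s1 s2) G S Λ z = Function.invFunOn G (Bx s1 s2) (G (Λ z) + ζ) := by
    rw [hζ]
    rfl
  rw [hL, ← hζ]
  obtain ⟨w, hw⟩ : ∃ w : ℂ, w = Function.invFunOn G (Bx s1 s2) (G (Λ z) + ζ) := ⟨_, rfl⟩
  rw [← hw] at hm hG ⊢
  have hm2 : ‖w - (Λ z + ζ / ν)‖ ≤ 2 / 10 ^ 10 := by
    rw [mem_closedBall, dist_eq_norm] at hm
    exact hm.trans hrad
  have h6 := (Complex.abs_re_le_norm (w - (Λ z + ζ / ν))).trans hm2
  have h7 := (Complex.abs_im_le_norm (w - (Λ z + ζ / ν))).trans hm2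
  rw [Complex.sub_re, hcr, abs_le] at h6
  rw [Complex.sub_im, hci, abs_le] at h7
  refine ⟨hG, ?_, ?_, ?_, ?_⟩
  · linarith [h6.1]
  · linarith [h6.2]
  · linarith [h7.1, hc4.1]
  · linarith [h7.2, hc4.2]

theorem HD.step1_mem (D : HD k ν η L s1 s2 G n g S Λ z₁) {z : ℂ} (hz : z ∈ ball z₁ (1 / 2))
    (hk : Real.exp (-k) ≤ ‖z - z₁‖) : Lpl (Bx s1 s2) G S Λ z ∈ Bx s1 s2 := by
  obtain ⟨_, h1, h2, h3, h4⟩ := D.step1 hz hk
  have h5 : (0:ℝ) < aa := by unfold aa; norm_num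
  refine ⟨?_, ?_, ?_, ?_⟩ <;> linarith

/-- Proof: `exp_ellu` (`S_ne`, `S_lo`), `Complex.exp_add`. -/
theorem HD.exp_step1 (D : HD k ν η L s1 s2 G n g S Λ z₁) {z : ℂ} (hz : z ∈ ball z₁ (1 / 2))
    (hk : Real.exp (-k) ≤ ‖z - z₁‖) :
    cexp (G (Lpl (Bx s1 s2) G S Λ z)) = Xf G S Λ z := by
  have h0 := D.S_ne hz
  have h1 : S z + 1 ≠ 0 := norm_pos_iff.1 (HL_S1_pos D hz (HL_ne hk))
  rw [(D.step1 hz hk).1, Complex.exp_add, exp_ellu h0 h1]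
  unfold Xf
  congr 1
  field_simp

/-- Proof: `exp (G Λ) ≠ 0` and `1 + 1 / S = (S + 1) / S ≠ 0` (`S_lo`, `S_ne`). -/
theorem HD.X_ne (D : HD k ν η L s1 s2 G n g S Λ z₁) {z : ℂ} (hz : z ∈ ball z₁ (1 / 2))
    (hne : z ≠ z₁) : Xf G S Λ z ≠ 0 := by
  have h0 := D.S_ne hz
  have h1 : S z + 1 ≠ 0 := norm_pos_iff.1 (HL_S1_pos D hz hne)
  have h2 : 1 + (S z)⁻¹ = (S z + 1) / S z := by
    field_simp
  unfold Xf
  rw [h2]
  exact mul_ne_zero (Complex.exp_ne_zero _) (div_ne_zero h1 h0)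

end Pool.Agent.MP_ae5b4e_an_N4
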