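import Pool.Agent.Lib.MP_ae5b4e_an_N4.HL

/-!
# MP_ae5b4e_an N4, part H: the second step of the chain below the zero
-/

set_option autoImplicit false

noncomputable section

namespace Pool.Agent.MP_ae5b4e_an_N4

open Complex Set Filter Topology Metric

variable {k ν η L s1 s2 : ℝ} {G n g S Λ : ℂ → ℂ} {z₁ : ℂ}

/-- The value of `s` after the first step.  Proof: `ν (S + g + 1) - 1 = ν (S + 1) + (ν g - 1)`,
`‖ν (S + 1)‖ ≤ (51 / 50) rL L ≤ 1 / 10` (`S_up`, `rL1`), `‖ν g - 1‖ ≤ η` (`gc`). -/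
theorem HD.S2 (D : HD k ν η L s1 s2 G n g S Λ z₁) {z : ℂ} (hz : z ∈ ball z₁ (rL L))
    (hk : Real.exp (-k) ≤ ‖z - z₁‖) :
    ‖ν * (S z + g (Lpl (Bx s1 s2) G S Λ z) + 1) - 1‖ ≤ 1 / 5 := by
  have hz' : z ∈ ball z₁ (1 / 2) := D.ball_sub hz
  have hν := D.ν0
  have h1 : ‖S z + 1‖ ≤ 51 / 50 * ‖z - z₁‖ / ν := D.S_up hz'
  have h2 : ‖z - z₁‖ < rL L := by simpa [dist_eq_norm] using hz
  have h3 := D.rL1
  have h4 := D.gd.gc _ (D.step1_mem hz' hk)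
  have h5 : (η : ℝ) ≤ 1 / 10 ^ 30 := D.η1
  have h6 : (ν : ℂ) * (S z + g (Lpl (Bx s1 s2) G S Λ z) + 1) - 1 =
      (ν : ℂ) * (S z + 1) + ((ν : ℂ) * g (Lpl (Bx s1 s2) G S Λ z) - 1) := by ring
  rw [h6]
  have h7 : ‖(ν : ℂ) * (S z + 1)‖ ≤ 51 / 50 * ‖z - z₁‖ := by
    rw [norm_mul, Complex.norm_real, Real.norm_of_nonneg hν.le]
    rw [le_div_iff₀ hν] at h1
    linarith
  have h8 := norm_add_le ((ν : ℂ) * (S z + 1)) ((ν : ℂ) * g (Lpl (Bx s1 s2) G S Λ z) - 1)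
  have h9 : (1 : ℝ) / 10 ^ 30 ≤ 1 / 100 := by norm_num
  linarith

/-- Proof: from `S2`. -/
theorem HD.S2_ne (D : HD k ν η L s1 s2 G n g S Λ z₁) {z : ℂ} (hz : z ∈ ball z₁ (rL L))
    (hk : Real.exp (-k) ≤ ‖z - z₁‖) :
    S z + g (Lpl (Bx s1 s2) G S Λ z) ≠ 0 ∧ S z + g (Lpl (Bx s1 s2) G S Λ z) + 1 ≠ 0 := by
  have h := D.S2 hz hk
  have hν := D.ν20
  constructor
  · intro h0
    rw [h0] at h
    have h1 : ((ν : ℂ) * (0 + 1) - 1) = ((ν - 1 : ℝ) : ℂ) := by push_cast; ring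
    rw [h1, Complex.norm_real, Real.norm_eq_abs, abs_le] at h
    have := h.2
    norm_num at hν this
    linarith
  · intro h0
    rw [h0] at h
    norm_num at h

private theorem HLb_log {ν : ℝ} (h : 2 * 10 ^ 20 ≤ ν) : Real.log ν ≤ 2 * ν / 10 ^ 10 := by
  have h0 : 0 < ν := by linarith [show (0:ℝ) < 2 * 10 ^ 20 by norm_num]
  have h1 : Real.log ν = Real.log (ν / 10 ^ 10) + Real.log (10 ^ 10) := by
    rw [← Real.log_mul (by positivity) (by positivity)]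
    congr 1
    field_simp
  have h2 := Real.log_le_sub_one_of_pos (show 0 < ν / 10 ^ 10 by positivity)
  have h3 := Real.log_le_sub_one_of_pos (show (0:ℝ) < 10 ^ 10 by positivity)
  have h4 : (10:ℝ) ^ 10 ≤ ν / 10 ^ 10 := by
    rw [le_div_iff₀ (by positivity)]
    linarith [show (10:ℝ) ^ 10 * 10 ^ 10 ≤ 2 * 10 ^ 20 by norm_num]
  have h5 : 2 * ν / 10 ^ 10 = ν / 10 ^ 10 + ν / 10 ^ 10 := by ring
  rw [h1, h5]
  exact add_le_add (h2.trans (sub_le_self _ zero_le_one)) (h3.trans ((sub_le_self _ zero_le_one).trans h4))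

private theorem HLb_ell {ν : ℝ} (hν : 2 * 10 ^ 20 ≤ ν) {s : ℂ} (h : ‖(ν : ℂ) * (s + 1) - 1‖ ≤ 1 / 5) :
    ‖ellu s‖ / ν ≤ 1 / 10 ^ 9 := by
  have h0 : 0 < ν := by linarith [show (0:ℝ) < 2 * 10 ^ 20 by norm_num]
  have h1 : ‖(ν : ℂ) * (s + 1)‖ = ν * ‖s + 1‖ := by
    rw [norm_mul, Complex.norm_real, Real.norm_of_nonneg h0.le]
  have h2 : ν * ‖s + 1‖ ≤ 6 / 5 := by
    rw [← h1]
    have := norm_add_le ((ν : ℂ) * (s + 1) - 1) 1
    rw [sub_add_cancel, norm_one] at this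
    linarith
  have h3 : 4 / 5 ≤ ν * ‖s + 1‖ := by
    rw [← h1]
    have := norm_sub_le ((ν : ℂ) * (s + 1)) ((ν : ℂ) * (s + 1) - 1)
    rw [sub_sub_cancel, norm_one] at this
    linarith
  have h4 : 0 < ‖s + 1‖ := by
    by_contra hc
    have : ‖s + 1‖ = 0 := le_antisymm (not_lt.mp hc) (norm_nonneg _)
    rw [this] at h3
    norm_num at h3
  have h5 : ‖s + 1‖ ≤ 1 / 100 := by
    by_contra hc
    push Not at hc
    have : (2:ℝ) * 10 ^ 20 * (1 / 100) ≤ ν * ‖s + 1‖ := by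
      apply mul_le_mul hν hc.le (by norm_num) h0.le
    norm_num at this
    linarith
  have h6 : ‖s‖ ≤ 2 := by
    have := norm_sub_le (s + 1) 1
    rw [add_sub_cancel_right, norm_one] at this
    linarith
  have h7 : 1 / 2 ≤ ‖s‖ := by
    have := norm_sub_le (s + 1) s
    rw [add_sub_cancel_left, norm_one] at this
    linarith
  have h8 : |Real.log ‖s‖| ≤ 1 := by
    rw [abs_le]
    constructor
    · have := Real.log_le_sub_one_of_pos (show 0 < ‖s‖⁻¹ by positivity)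
      rw [Real.log_inv] at this
      have h9 : ‖s‖⁻¹ ≤ 2 := by
        rw [inv_le_comm₀ (by linarith) (by norm_num)]
        linarith
      linarith
    · have := Real.log_le_sub_one_of_pos (show 0 < ‖s‖ by linarith)
      linarith
  have h10 : |Real.log ‖s + 1‖| ≤ Real.log ν + 1 := by
    have e1 : Real.log (ν * ‖s + 1‖) = Real.log ν + Real.log ‖s + 1‖ :=
      Real.log_mul h0.ne' h4.ne'
    have e2 := Real.log_le_sub_one_of_pos (show 0 < ν * ‖s + 1‖ by positivity)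
    have e3 := Real.log_le_sub_one_of_pos (show 0 < (ν * ‖s + 1‖)⁻¹ by positivity)
    rw [Real.log_inv] at e3
    have e4 : (ν * ‖s + 1‖)⁻¹ ≤ 5 / 4 := by
      rw [inv_le_comm₀ (by positivity) (by norm_num)]
      norm_num
      linarith
    have e5 : 0 ≤ Real.log ν := Real.log_nonneg (by linarith [show (1:ℝ) ≤ 2 * 10 ^ 20 by norm_num])
    rw [abs_le]
    constructor <;> linarith
  have h11 : ‖ellu s‖ ≤ |(ellu s).re| + |(ellu s).im| := Complex.norm_le_abs_re_add_abs_im _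
  have h12 : |(ellu s).re| ≤ Real.log ν + 2 := by
    rw [re_ellu]
    have := abs_sub (Real.log ‖s + 1‖) (Real.log ‖s‖)
    linarith
  have h13 := im_ellu s
  have h14 := HLb_log hν
  rw [div_le_iff₀ h0]
  have h15 : (9:ℝ) ≤ ν / 10 ^ 10 := by
    rw [le_div_iff₀ (by positivity)]
    linarith [show (9:ℝ) * 10 ^ 10 ≤ 2 * 10 ^ 20 by norm_num]
  have h16 : 1 / 10 ^ 9 * ν = 10 * (ν / 10 ^ 10) := by ring
  have h17 : 2 * ν / 10 ^ 10 = 2 * (ν / 10 ^ 10) := by ring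
  rw [h16]
  rw [h17] at h14
  linarith

/-- The second step.  Proof: `S₂ = S + g (Λ⁺)`; `Re (ellu S₂) = log ‖S₂ + 1‖ - log ‖S₂‖` is between
`- log ν - 2` and `0` (`S2`), so `‖ellu S₂‖ ≤ log ν + 9 ≤ ν / 10^10`; `Gd.solve` with `σ₀ = Λ⁺`
(`step1`, room `aa / 2`, `ball_sub_Bx`): the new label exists, `exp G` is `Xf (1 + 1 / S₂)`. -/
theorem HD.step2 (D : HD k ν η L s1 s2 G n g S Λ z₁) {z : ℂ} (hz : z ∈ ball z₁ (rL L))
    (hk : Real.exp (-k) ≤ ‖z - z₁‖) :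
    cexp (G (stp ellu (Bx s1 s2) G g (stp ellu (Bx s1 s2) G g (S z, Λ z))).2) =
      Xf G S Λ z * (1 + (S z + g (Lpl (Bx s1 s2) G S Λ z))⁻¹) := by
  have hz' : z ∈ ball z₁ (1 / 2) := D.ball_sub hz
  have hν := D.ν0
  have hm := D.step1_mem hz' hk
  obtain ⟨_, m1, m2, m3, m4⟩ := D.step1 hz' hk
  have hS := D.S2 hz hk
  obtain ⟨n0, n1⟩ := D.S2_ne hz hk
  set σ₀ := Lpl (Bx s1 s2) G S Λ z with hσ₀
  set S₂ := S z + g σ₀ with hS₂
  have hst : (stp ellu (Bx s1 s2) G g (stp ellu (Bx s1 s2) G g (S z, Λ z))).2 =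
      Function.invFunOn G (Bx s1 s2) (G σ₀ + ellu S₂) := rfl
  have hζ : ‖ellu S₂‖ / ν ≤ 1 / 10 ^ 9 := HLb_ell D.ν20 hS
  have hζ0 : 0 ≤ ‖ellu S₂‖ / ν := by positivity
  have hη0 := D.η0
  have hη1 := D.η1
  have hη2 : η ≤ 1 / 2 := hη1.trans (by norm_num)
  have hn : ‖ellu S₂ / (ν : ℂ)‖ ≤ 1 / 10 ^ 9 := by
    rw [norm_div, Complex.norm_real, Real.norm_of_nonneg hν.le]
    exact hζ
  have hre := (Complex.abs_re_le_norm (ellu S₂ / (ν : ℂ))).trans hn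
  have him := (Complex.abs_im_le_norm (ellu S₂ / (ν : ℂ))).trans hn
  rw [abs_le] at hre him
  have he : 2 * η * (‖ellu S₂‖ / ν) ≤ 1 / 10 ^ 9 := by nlinarith
  have haa : aa = 1 / 12800 := rfl
  have hb : closedBall (σ₀ + ellu S₂ / ν) (2 * η * (‖ellu S₂‖ / ν)) ⊆ Bx s1 s2 := by
    apply ball_sub_Bx
    · rw [Complex.add_re]; norm_num at he hre ⊢; linarith [hre.1, hre.2]
    · rw [Complex.add_re]; norm_num at he hre ⊢; linarith [hre.1, hre.2]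
    · rw [Complex.add_im, haa]; rw [haa] at m3; norm_num at he him m3 ⊢; linarith [him.1, him.2]
    · rw [Complex.add_im, haa]; rw [haa] at m4; norm_num at he him m4 ⊢; linarith [him.1, him.2]
  obtain ⟨_, hsol⟩ := D.gd.solve hν hη0 hη2 hm hb
  rw [hst, hsol, Complex.exp_add, exp_ellu n0 n1]
  rw [hσ₀, D.exp_step1 hz' hk]
  congr 1
  field_simp

/-- The combination `Gam` on the lower part.  Proof: with `X = Xf z`, `E = exp (G (Λ z))`,
`S₂ = S + g (Λ⁺)`: `f (z + 2) - X = X / S₂`, `E - X = - E / S`; so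
`X (f (z + 2) - X)⁻¹ = S₂`, `X (E - X)⁻¹ = - (S + 1)`, and `1 + S₂ - (S + 1) = g (Λ⁺)`. -/
theorem HD.Gam_low (D : HD k ν η L s1 s2 G n g S Λ z₁) {f : ℂ → ℂ} {z : ℂ}
    (hz : z ∈ ball z₁ (rL L)) (hk : Real.exp (-k) ≤ ‖z - z₁‖)
    (hf : f (z + 2) =
      cexp (G (stp ellu (Bx s1 s2) G g (stp ellu (Bx s1 s2) G g (S z, Λ z))).2)) :
    Gam f G S Λ z = g (Lpl (Bx s1 s2) G S Λ z) := by
  have hz' : z ∈ ball z₁ (1 / 2) := D.ball_sub hz
  have hne : z ≠ z₁ := by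
    rintro rfl
    rw [sub_self, norm_zero] at hk
    exact absurd hk (not_le.mpr (Real.exp_pos _))
  have hX := D.X_ne hz' hne
  have hS := D.S_ne hz'
  obtain ⟨n0, _⟩ := D.S2_ne hz hk
  have hE : cexp (G (Λ z)) ≠ 0 := Complex.exp_ne_zero _
  rw [D.step2 hz hk] at hf
  unfold Gam
  rw [hf]
  set X := Xf G S Λ z with hXd
  set S₂ := S z + g (Lpl (Bx s1 s2) G S Λ z) with hS₂
  have e1 : X * (1 + S₂⁻¹) - X = X * S₂⁻¹ := by ring
  have e2 : cexp (G (Λ z)) - X = -(cexp (G (Λ z)) * (S z)⁻¹) := by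
    rw [hXd]; unfold Xf; ring
  have e3 : X * (X * S₂⁻¹)⁻¹ = S₂ := by
    rw [mul_inv, inv_inv, ← mul_assoc, mul_inv_cancel₀ hX, one_mul]
  have e4 : X * (-(cexp (G (Λ z)) * (S z)⁻¹))⁻¹ = -(S z + 1) := by
    rw [hXd]
    unfold Xf
    field_simp
  rw [mul_add, e1, e2, e3, e4, hS₂]
  ring

end Pool.Agent.MP_ae5b4e_an_N4
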