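import Pool.Agent.Lib.MP_ae5b4e_an_N4.HXi
import Pool.Agent.Lib.MP_ae5b4e_an_N4.HLb

/-!
# MP_ae5b4e_an N4, part H: the function `Gam` in the label
-/

set_option autoImplicit false

noncomputable section

namespace Pool.Agent.MP_ae5b4e_an_N4

open Complex Set Filter Topology Metric

variable {k ν η L s1 s2 : ℝ} {G n g S Λ : ℂ → ℂ} {z₁ : ℂ}

/-- the inverse of `Xf` on the small ball -/
def Xi (L : ℝ) (G S Λ : ℂ → ℂ) (z₁ : ℂ) (y : ℂ) : ℂ :=
  Function.invFunOn (Xf G S Λ) (ball z₁ (rL L)) y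

/-- `exp (G (Λ z))` is analytic -/
private theorem hm_an (D : HD k ν η L s1 s2 G n g S Λ z₁) {z : ℂ} (hz : z ∈ ball z₁ (1 / 2)) :
    AnalyticAt ℂ (fun z => cexp (G (Λ z))) z := by
  have h1 : AnalyticAt ℂ G (Λ z) := D.gd.diff.analyticAt ((Bx_open' s1 s2).mem_nhds (D.Lmem hz))
  exact (AnalyticAt.fun_comp (g := G) (f := Λ) h1 (D.anL z hz)).cexp

/-- Proof: `Xf`, `exp (G (Λ z))` are analytic (`X_der` on the open ball, `DifferentiableOn.analyticAt`),
`z ↦ f (z + 2)` is meromorphic (`MeromorphicAt.comp_analyticAt`); sums, products, inverses. -/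
theorem HD.Gam_mero (D : HD k ν η L s1 s2 G n g S Λ z₁) {f : ℂ → ℂ}
    (hf : MeromorphicOn f (ball (z₁ + 2) (rL L))) :
    MeromorphicOn (Gam f G S Λ) (ball z₁ (rL L)) := by
  intro z hz
  have hX : MeromorphicAt (Xf G S Λ) z :=
    (D.X_diff.analyticAt (isOpen_ball.mem_nhds hz)).meromorphicAt
  have hE : MeromorphicAt (fun z => cexp (G (Λ z))) z := (hm_an D (D.ball_sub hz)).meromorphicAt
  have hz2 : z + 2 ∈ ball (z₁ + 2) (rL L) := by
    rw [mem_ball, dist_eq_norm] at hz ⊢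
    rwa [add_sub_add_right_eq_sub]
  have hF : MeromorphicAt (fun z => f (z + 2)) z := by
    have h1 : AnalyticAt ℂ (fun z : ℂ => z + 2) z := analyticAt_id.add analyticAt_const
    exact MeromorphicAt.comp_analyticAt (f := f) (g := fun z : ℂ => z + 2) (hf (z + 2) hz2) h1
  have h1 := ((hF.fun_sub hX).fun_inv).fun_add ((hE.fun_sub hX).fun_inv)
  exact (MeromorphicAt.const 1 z).fun_add (hX.fun_mul h1)

/-- Proof: `1 / (10^14 k) ≤ rL L` (`rL2`), `exp k ≥ k² / 2` and `k ≥ 10^20`. -/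
theorem HD.exp_lt (D : HD k ν η L s1 s2 G n g S Λ z₁) : Real.exp (-k) < rL L / 8 := by
  have hk := D.hk
  have hk0 : 0 < k := by linarith
  have h1 : k ^ 2 / 2 ≤ Real.exp k := by
    have := Real.pow_div_factorial_le_exp k hk0.le 2
    simpa [Nat.factorial] using this
  have h2 : Real.exp (-k) ≤ 2 / k ^ 2 := by
    rw [Real.exp_neg, le_div_iff₀ (by positivity), inv_mul_le_iff₀ (Real.exp_pos _)]
    linarith
  have h3 := D.rL2
  have h4 : 2 / k ^ 2 < 1 / (10 ^ 14 * k) / 8 := by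
    rw [div_div, div_lt_div_iff₀ (by positivity) (by positivity)]
    nlinarith
  linarith

/-- The place where the continuation starts.  Proof: `r = rL L`, `zs = z₁ - i r / 4`, `ξ = Xi`.
`σs := Lpl zs ∈ Bx` (`step1_mem`, `exp_lt`), `exp (G σs) = Xf zs` (`exp_step1`), and
`‖Xf zs‖ ≤ (13 / 10) ‖a‖ r / 4 < Xr` (`X_naff` for `zs`, `z₁`, `X_zero`).
`φ σ := ξ (exp (G σ))` is continuous at `σs` (`X_inv`, `G` is differentiable at `σs`), `φ σs = zs`
(injectivity, `NAff.injOn`).  `Im (S zs + 1) < 0` (`S_near`), `Im (S zs) < 0`, so `ellu` is continuous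
at `S zs` (`an_ellu`), and `h σ := G (Λ (φ σ)) + ellu (S (φ σ)) - G σ` is continuous at `σs` and
`h σs = 0` (`step1`).  For `σ` near `σs`: `‖h σ‖ < 1`, `φ σ` is in the ball, `Im (φ σ - z₁) < - exp (- k)`,
`σ ∈ Bx`, and `exp (h σ) = Xf (φ σ) / exp (G σ) = 1` (`exp_ellu`, `X_inv`): so `h σ = 0`
(`Complex.exp_eq_one_iff`), `Lpl (φ σ) = invFunOn G B (G σ) = σ` (`Gd.inv_G`), and
`Gam (φ σ) = g (Lpl (φ σ)) = g σ`. -/
theorem HD.near (D : HD k ν η L s1 s2 G n g S Λ z₁) {f : ℂ → ℂ}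
    (hf : ∀ z ∈ ball z₁ (rL L), (z - z₁).im < -Real.exp (-k) →
      Gam f G S Λ z = g (Lpl (Bx s1 s2) G S Λ z)) :
    ∃ σs ∈ Ux L s1 s2 G S Λ z₁, ∀ᶠ σ in 𝓝 σs,
      Gam f G S Λ (Xi L G S Λ z₁ (cexp (G σ))) = g σ := by
  have hr := D.rL0
  have hexp := D.exp_lt
  have hν := D.ν0
  have hη1 : η < 1 := lt_of_le_of_lt D.η1 (by norm_num)
  have ha : 0 < ‖Xa G S Λ z₁‖ := norm_pos_iff.2 D.Xa_ne
  set zs : ℂ := z₁ - ((rL L / 4 : ℝ) : ℂ) * I with hzsdef
  have hd : zs - z₁ = -(((rL L / 4 : ℝ) : ℂ) * I) := by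
    rw [hzsdef]
    ring
  have hdn : ‖zs - z₁‖ = rL L / 4 := by
    rw [hd, norm_neg, norm_mul, norm_I, mul_one, norm_real, Real.norm_eq_abs,
      abs_of_pos (by positivity)]
  have hdi : (zs - z₁).im = -(rL L / 4) := by
    rw [hd]
    simp
  have hzs : zs ∈ ball z₁ (rL L) := by
    rw [mem_ball, dist_eq_norm, hdn]
    linarith
  have hzs' := D.ball_sub hzs
  have hkzs : Real.exp (-k) ≤ ‖zs - z₁‖ := by
    rw [hdn]
    linarith
  set σs : ℂ := Lpl (Bx s1 s2) G S Λ zs with hσs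
  have hσsB : σs ∈ Bx s1 s2 := D.step1_mem hzs' hkzs
  have hσsE : cexp (G σs) = Xf G S Λ zs := D.exp_step1 hzs' hkzs
  have hXs : ‖Xf G S Λ zs‖ < Xr L G S Λ z₁ := by
    have h1 := D.X_naff zs hzs z₁ (mem_ball_self hr)
    rw [D.X_zero, sub_zero, hdn] at h1
    have h2 : ‖Xa G S Λ z₁ * (zs - z₁)‖ = ‖Xa G S Λ z₁‖ * (rL L / 4) := by
      rw [norm_mul, hdn]
    have h3 : ‖Xf G S Λ zs‖ ≤ ‖Xf G S Λ zs - Xa G S Λ z₁ * (zs - z₁)‖ +
        ‖Xa G S Λ z₁ * (zs - z₁)‖ := by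
      calc ‖Xf G S Λ zs‖ = ‖(Xf G S Λ zs - Xa G S Λ z₁ * (zs - z₁)) +
          Xa G S Λ z₁ * (zs - z₁)‖ := by rw [sub_add_cancel]
        _ ≤ _ := norm_add_le _ _
    unfold Xr
    have h4 := mul_pos ha hr
    rw [h2] at h3
    linarith
  have hσsU : σs ∈ Ux L s1 s2 G S Λ z₁ := ⟨hσsB, by rw [hσsE]; exact hXs⟩
  -- the inverse at `σs`
  have hys : ‖cexp (G σs)‖ < Xr L G S Λ z₁ := hσsU.2
  obtain ⟨i1, i2, i3⟩ := D.X_inv hys
  have hφs : Xi L G S Λ z₁ (cexp (G σs)) = zs := by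
    refine D.X_naff.injOn D.Xa_ne (by norm_num) i1 hzs ?_
    rw [i2, hσsE]
  have hGan : AnalyticAt ℂ G σs := D.gd.diff.analyticAt ((Bx_open' s1 s2).mem_nhds hσsB)
  have hφc : ContinuousAt (fun σ => Xi L G S Λ z₁ (cexp (G σ))) σs := by
    have h1 : ContinuousAt (fun σ => cexp (G σ)) σs := hGan.continuousAt.cexp
    exact ContinuousAt.comp (g := Xi L G S Λ z₁) (f := fun σ => cexp (G σ)) i3.continuousAt h1
  -- `S zs`
  have hSim : (S zs + 1).im < 0 := by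
    have h1 := D.S_near hzs'
    have h2 := (abs_im_le_norm _).trans h1
    rw [sub_im, im_ofReal_mul, hdi, hdn, abs_le] at h2
    have h3 : ν * (S zs + 1).im < 0 := by linarith [h2.2]
    by_contra h4
    push Not at h4
    linarith [mul_nonneg hν.le h4]
  have hSim' : (S zs).im < 0 := by
    simpa using hSim
  have hell : ContinuousAt ellu (S zs) := (an_ellu (Or.inr hSim') (Or.inr hSim)).continuousAt
  set h : ℂ → ℂ := fun σ => G (Λ (Xi L G S Λ z₁ (cexp (G σ)))) +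
    ellu (S (Xi L G S Λ z₁ (cexp (G σ)))) - G σ with hh
  have hhc : ContinuousAt h σs := by
    have hΛ : ContinuousAt Λ zs := (D.anL zs hzs').continuousAt
    have hS : ContinuousAt S zs := (D.anS zs hzs').continuousAt
    have hG : ContinuousAt G (Λ zs) :=
      (D.gd.diff.analyticAt ((Bx_open' s1 s2).mem_nhds (D.Lmem hzs'))).continuousAt
    have c1 : ContinuousAt (fun σ => Λ (Xi L G S Λ z₁ (cexp (G σ)))) σs :=
      ContinuousAt.comp (g := Λ) (by rw [hφs]; exact hΛ) hφc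
    have c2 : ContinuousAt (fun σ => G (Λ (Xi L G S Λ z₁ (cexp (G σ))))) σs :=
      ContinuousAt.comp (g := G) (f := fun σ => Λ (Xi L G S Λ z₁ (cexp (G σ))))
        (by simp only [hφs]; exact hG) c1
    have c3 : ContinuousAt (fun σ => S (Xi L G S Λ z₁ (cexp (G σ)))) σs :=
      ContinuousAt.comp (g := S) (by rw [hφs]; exact hS) hφc
    have c4 : ContinuousAt (fun σ => ellu (S (Xi L G S Λ z₁ (cexp (G σ))))) σs :=
      ContinuousAt.comp (g := ellu) (f := fun σ => S (Xi L G S Λ z₁ (cexp (G σ))))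
        (by simp only [hφs]; exact hell) c3
    exact (c2.add c4).sub hGan.continuousAt
  have hhs : h σs = 0 := by
    simp only [hh, hφs]
    rw [hσs, (D.step1 hzs' hkzs).1, sub_self]
  have e1 : ∀ᶠ σ in 𝓝 σs, ‖h σ‖ < 1 := by
    have := hhc.norm
    exact this.eventually_lt continuousAt_const (by simp [hhs])
  have e2 : ∀ᶠ σ in 𝓝 σs, (Xi L G S Λ z₁ (cexp (G σ)) - z₁).im < -Real.exp (-k) := by
    have h1 : ContinuousAt (fun σ => (Xi L G S Λ z₁ (cexp (G σ)) - z₁).im) σs :=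
      Complex.continuous_im.continuousAt.comp (hφc.sub continuousAt_const)
    refine h1.eventually_lt continuousAt_const ?_
    show (Xi L G S Λ z₁ (cexp (G σs)) - z₁).im < -Real.exp (-k)
    rw [hφs, hdi]
    linarith
  have e3 : ∀ᶠ σ in 𝓝 σs, σ ∈ Bx s1 s2 := (Bx_open' s1 s2).mem_nhds hσsB
  have e4 : ∀ᶠ σ in 𝓝 σs, ‖cexp (G σ)‖ < Xr L G S Λ z₁ :=
    hGan.continuousAt.cexp.norm.eventually_lt continuousAt_const hys
  refine ⟨σs, hσsU, ?_⟩
  filter_upwards [e1, e2, e3, e4] with σ f1 f2 f3 f4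
  obtain ⟨j1, j2, -⟩ := D.X_inv f4
  set φ : ℂ := Xi L G S Λ z₁ (cexp (G σ)) with hφ
  have j1' : φ ∈ ball z₁ (rL L) := j1
  have j2' : Xf G S Λ φ = cexp (G σ) := j2
  have hφb := D.ball_sub j1'
  have hkφ : Real.exp (-k) ≤ ‖φ - z₁‖ := by
    have := (neg_le_abs _).trans (abs_im_le_norm (φ - z₁))
    linarith
  have hS0 : S φ ≠ 0 := D.S_ne hφb
  have hS1 : S φ + 1 ≠ 0 := by
    intro h0
    have h1 := D.S_lo hφb
    rw [h0, norm_zero, div_le_iff₀ hν, zero_mul] at h1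
    have h2 := Real.exp_pos (-k)
    linarith
  have hexp1 : cexp (h σ) = 1 := by
    have h1 : cexp (G (Λ φ)) * ((S φ + 1) / S φ) = Xf G S Λ φ := by
      unfold Xf
      field_simp
    show cexp (G (Λ φ) + ellu (S φ) - G σ) = 1
    rw [Complex.exp_sub, Complex.exp_add, exp_ellu hS0 hS1,
      div_eq_one_iff_eq (Complex.exp_ne_zero _)]
    exact h1.trans j2'
  have hh0 : h σ = 0 := by
    obtain ⟨m, hm⟩ := Complex.exp_eq_one_iff.1 hexp1
    have h1 : ‖h σ‖ = |(m:ℝ)| * (2 * Real.pi) := by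
      rw [hm, norm_mul, norm_mul, norm_mul, norm_I, mul_one, Complex.norm_intCast, norm_real,
        Real.norm_eq_abs, abs_of_pos Real.pi_pos, Complex.norm_ofNat]
    rw [h1] at f1
    have h2 : m = 0 := by
      by_contra hne
      have h3 : (1:ℝ) ≤ |(m:ℝ)| := by
        have := Int.one_le_abs hne
        exact_mod_cast this
      nlinarith [Real.pi_gt_three]
    rw [hm, h2]
    simp
  have hL : Lpl (Bx s1 s2) G S Λ φ = σ := by
    have h1 : G (Λ φ) + ellu (S φ) = G σ := sub_eq_zero.1 hh0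
    unfold Lpl
    rw [h1]
    exact D.gd.inv_G hν hη1 f3
  rw [hf φ j1' f2, hL]

end Pool.Agent.MP_ae5b4e_an_N4
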