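import Pool.Agent.Lib.MP_ae5b4e_an_N4.HDe

/-!
# MP_ae5b4e_an N4, part H: the linear equation for `n`
-/

set_option autoImplicit false

noncomputable section

namespace Pool.Agent.MP_ae5b4e_an_N4

open Complex Set Filter Topology Metric

variable {ν η s1 s2 : ℝ} {G n g : ℂ → ℂ} {c : ℂ}

theorem Sw_open (ν : ℝ) (b : ℂ) : IsOpen (Sw ν b) :=
  isOpen_lt (continuous_abs.comp (Complex.continuous_re.sub continuous_const)) continuous_const

theorem Sw_convex (ν : ℝ) (b : ℂ) : Convex ℝ (Sw ν b) := by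
  have h1 : Sw ν b = Complex.reCLM ⁻¹' (Ioo (b.re - ν / 4) (b.re + ν / 4)) := by
    ext w
    simp only [Sw, mem_setOf_eq, mem_preimage, Complex.reCLM_apply, mem_Ioo, abs_lt]
    constructor
    · rintro ⟨h1, h2⟩
      exact ⟨by linarith, by linarith⟩
    · rintro ⟨h1, h2⟩
      exact ⟨by linarith, by linarith⟩
  rw [h1]
  exact (convex_Ioo _ _).is_linear_preimage Complex.reCLM.toLinearMap.isLinear

theorem Rw_open (ν : ℝ) (b : ℂ) : IsOpen (Rw ν b) :=
  (isOpen_lt (continuous_abs.comp (Complex.continuous_re.sub continuous_const))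
    continuous_const).inter
    (isOpen_lt (continuous_abs.comp (Complex.continuous_im.sub continuous_const))
    continuous_const)

theorem Rw_convex (ν : ℝ) (b : ℂ) : Convex ℝ (Rw ν b) := by
  have h1 : Rw ν b = Sw ν b ∩ Complex.imCLM ⁻¹' (Ioo (b.im - 2 * ν) (b.im + 2 * ν)) := by
    ext w
    simp only [Rw, Sw, mem_setOf_eq, mem_inter_iff, mem_preimage, Complex.imCLM_apply, mem_Ioo]
    refine and_congr_right fun _ => ?_
    rw [abs_lt]
    constructor
    · rintro ⟨h1, h2⟩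
      exact ⟨by linarith, by linarith⟩
    · rintro ⟨h1, h2⟩
      exact ⟨by linarith, by linarith⟩
  rw [h1]
  exact (Sw_convex ν b).inter
    ((convex_Ioo _ _).is_linear_preimage Complex.imCLM.toLinearMap.isLinear)

/-- The linear equation `N' = 1 - γ N` on a convex open set.  Proof: `exists_prim`: `P' = γ`, then
`Q' = exp P`, `Q b = v exp (P b)`; `N = exp (- P) Q`. -/
theorem exists_lin {D : Set ℂ} (hD : IsOpen D) (hDc : Convex ℝ D) {γ : ℂ → ℂ}
    (hγ : DifferentiableOn ℂ γ D) (b v : ℂ) :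
    ∃ N : ℂ → ℂ, N b = v ∧ ∀ w ∈ D, HasDerivAt N (1 - γ w * N w) w := by
  obtain ⟨P, -, hP⟩ := exists_prim hD hDc hγ b 0
  have hE : DifferentiableOn ℂ (fun w => cexp (P w)) D := fun w hw =>
    ((hP w hw).cexp).differentiableAt.differentiableWithinAt
  obtain ⟨Q, hQb, hQ⟩ := exists_prim hD hDc hE b (v * cexp (P b))
  refine ⟨fun w => cexp (-P w) * Q w, ?_, fun w hw => ?_⟩
  · simp only
    rw [hQb, mul_comm v, ← mul_assoc, ← Complex.exp_add, neg_add_cancel, Complex.exp_zero,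
      one_mul]
  · have h1 := ((hP w hw).neg.cexp).mul (hQ w hw)
    have h2 : cexp (-P w) * cexp (P w) = 1 := by
      rw [← Complex.exp_add, neg_add_cancel, Complex.exp_zero]
    refine h1.congr_deriv ?_
    linear_combination h2

/-- The bound.  Proof: `M := N - ν`, `M' = (1 - ν γ) - γ M`, `‖1 - ν γ‖ ≤ η`,
`‖γ‖ ≤ (1 + η) / ν`, `‖M b‖ ≤ η ν`; `gron_seg` with `A = (1 + η) / ν`, `e = η`, `d = η ν`,
`l = (21 / 10) ν` (`ℓ² ≤ (ν / 4)² + (2 ν)²`): `‖M w‖ ≤ η ν (1 + 2.1) exp (2.1 (1 + η)) ≤ 30 η ν`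
(`exp (2.11) ≤ 9`). -/
theorem N_bound {γ N : ℂ → ℂ} {b : ℂ} (hν : 0 < ν) (h0 : 0 ≤ η) (h1 : η ≤ 1 / 1000)
    (hγ : ∀ w ∈ Rw ν b, ‖ν * γ w - 1‖ ≤ η)
    (hN : ∀ w ∈ Rw ν b, HasDerivAt N (1 - γ w * N w) w) (hb : ‖N b - ν‖ ≤ η * ν) :
    ∀ w ∈ Rw ν b, ‖N w - ν‖ ≤ 30 * η * ν := by
  intro w hw
  have hνc : ‖(ν : ℂ)‖ = ν := by
    rw [Complex.norm_real, Real.norm_eq_abs, abs_of_pos hν]
  have hb0 : b ∈ Rw ν b := by
    refine ⟨?_, ?_⟩
    · rw [sub_self, abs_zero]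
      positivity
    · rw [sub_self, abs_zero]
      positivity
  have hseg : segment ℝ b w ⊆ Rw ν b := (Rw_convex ν b).segment_subset hb0 hw
  have hl : ‖w - b‖ ≤ 21 / 10 * ν := by
    obtain ⟨h2, h3⟩ := hw
    have h4 : ‖w - b‖ ^ 2 ≤ (21 / 10 * ν) ^ 2 := by
      rw [Complex.sq_norm, Complex.normSq_apply, Complex.sub_re, Complex.sub_im]
      have h5 : (w.re - b.re) * (w.re - b.re) ≤ (ν / 4) ^ 2 := by
        rw [← sq, ← sq_abs]
        exact pow_le_pow_left₀ (abs_nonneg _) h2.le 2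
      have h6 : (w.im - b.im) * (w.im - b.im) ≤ (2 * ν) ^ 2 := by
        rw [← sq, ← sq_abs]
        exact pow_le_pow_left₀ (abs_nonneg _) h3.le 2
      nlinarith [sq_nonneg ν]
    exact le_of_sq_le_sq h4 (by positivity)
  have hg := gron_seg (M := fun z => N z - ν) (φ := fun z => 1 - γ z * N z) (c := b) (w := w)
    (A := (1 + η) / ν) (e := η) (d := η * ν) (l := 21 / 10 * ν) (by positivity) h0 hl
    (fun z hz => (hN z (hseg hz)).sub_const (ν : ℂ))
    (fun z hz => by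
      have h2 := hγ z (hseg hz)
      have h3 : 1 - γ z * N z = (1 - ν * γ z) - γ z * (N z - ν) := by ring
      have h4 : ‖γ z‖ ≤ (1 + η) / ν := by
        rw [le_div_iff₀ hν, mul_comm]
        have h5 : ν * ‖γ z‖ = ‖ν * γ z‖ := by rw [norm_mul, hνc]
        rw [h5]
        calc ‖ν * γ z‖ = ‖1 + (ν * γ z - 1)‖ := by congr 1; ring
          _ ≤ ‖(1:ℂ)‖ + ‖ν * γ z - 1‖ := norm_add_le _ _
          _ ≤ 1 + η := by rw [norm_one]; linarith
      rw [h3]
      calc ‖(1 - ν * γ z) - γ z * (N z - ν)‖ ≤ ‖1 - ν * γ z‖ + ‖γ z * (N z - ν)‖ :=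
            norm_sub_le _ _
        _ ≤ η + (1 + η) / ν * ‖N z - ν‖ := by
            rw [norm_sub_rev, norm_mul]
            exact add_le_add h2 (mul_le_mul_of_nonneg_right h4 (norm_nonneg _))
        _ = (1 + η) / ν * ‖N z - ν‖ + η := by ring)
    hb
  refine hg.trans ?_
  have h2 : (1 + η) / ν * (21 / 10 * ν) = (1 + η) * (21 / 10) := by
    field_simp
  rw [h2]
  have h3 : Real.exp ((1 + η) * (21 / 10)) ≤ 9 := by
    have h4 : (1 + η) * (21 / 10) ≤ 1 + 1 + 11 / 100 := by linarith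
    refine (Real.exp_le_exp.2 h4).trans ?_
    rw [Real.exp_add, Real.exp_add]
    have h5 := Real.exp_one_lt_d9
    have h6 : Real.exp (11 / 100) ≤ 1 / (1 - 11 / 100) :=
      Real.exp_bound_div_one_sub_of_interval (by norm_num) (by norm_num)
    have h7 : Real.exp 1 * Real.exp 1 ≤ 2.7182818286 * 2.7182818286 :=
      mul_le_mul h5.le h5.le (Real.exp_pos 1).le (by norm_num)
    calc Real.exp 1 * Real.exp 1 * Real.exp (11 / 100)
        ≤ 2.7182818286 * 2.7182818286 * (1 / (1 - 11 / 100)) :=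
          mul_le_mul h7 h6 (Real.exp_pos _).le (by norm_num)
      _ ≤ 9 := by norm_num
  have h4 : 0 ≤ η * ν := by positivity
  calc (η * ν + η * (21 / 10 * ν)) * Real.exp ((1 + η) * (21 / 10))
      ≤ (η * ν + η * (21 / 10 * ν)) * 9 := mul_le_mul_of_nonneg_left h3 (by positivity)
    _ ≤ 30 * η * ν := by nlinarith

end Pool.Agent.MP_ae5b4e_an_N4
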