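import Pool.Agent.Lib.MP_ae5b4e_an_N4.HN

/-!
# MP_ae5b4e_an N4, part H: the function `N` is `n` in the coordinate `G`
-/

set_option autoImplicit false

noncomputable section

namespace Pool.Agent.MP_ae5b4e_an_N4

open Complex Set Filter Topology Metric

variable {ν η s1 s2 : ℝ} {G n g : ℂ → ℂ} {c : ℂ}

/-- The part of the box which is mapped into the rectangle.  Proof: `Gd.naff` for `σ`, `c`:
`G σ - G c = ν (σ - c) + O (η ν 3)`, `|σ.re - c.re| < 24 / 100`, `|σ.im - c.im| < π / 2`. -/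
theorem HC.G_mem (C : HC ν η s1 s2 G n g c) {σ : ℂ} (hσ : σ ∈ Bx s1 s2)
    (h : |σ.re - c.re| < 24 / 100) : G σ ∈ Rw ν (G c) := by
  have hν := C.ν0
  have hc := C.mem
  have h1 := C.gd.naff hν σ hσ c hc
  rw [Complex.norm_real, Real.norm_of_nonneg hν.le] at h1
  obtain ⟨hσ1, hσ2, hσ3, hσ4⟩ := hσ
  have him := C.im
  have hpi := Real.pi_lt_d2
  have hpi0 := Real.pi_gt_three
  have haa : aa = 1 / 12800 := rfl
  have h2 : |(σ - c).im| < 158 / 100 := by
    rw [Complex.sub_im, abs_lt, him]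
    constructor <;> linarith
  have h3 : |(σ - c).re| < 24 / 100 := by rwa [Complex.sub_re]
  have h4 : ‖σ - c‖ ≤ 2 := (Complex.norm_le_abs_re_add_abs_im _).trans (by linarith)
  have h5 : η * ν * ‖σ - c‖ ≤ ν / 10 ^ 20 := by
    have h6 : η * ν ≤ 1 / 10 ^ 30 * ν := mul_le_mul_of_nonneg_right C.η1 hν.le
    have h7 : η * ν * ‖σ - c‖ ≤ 1 / 10 ^ 30 * ν * 2 :=
      mul_le_mul h6 h4 (norm_nonneg _) (by positivity)
    refine h7.trans ?_
    nlinarith
  obtain ⟨D, hD⟩ : ∃ D, D = G σ - G c - ν * (σ - c) := ⟨_, rfl⟩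
  rw [← hD] at h1
  have h8 := (Complex.abs_re_le_norm D).trans (h1.trans h5)
  have h9 := (Complex.abs_im_le_norm D).trans (h1.trans h5)
  have h10 : D.re = (G σ).re - (G c).re - ν * (σ - c).re := by
    rw [hD, Complex.sub_re, Complex.sub_re, Complex.re_ofReal_mul]
  have h11 : D.im = (G σ).im - (G c).im - ν * (σ - c).im := by
    rw [hD, Complex.sub_im, Complex.sub_im, Complex.im_ofReal_mul]
  rw [abs_le] at h8 h9
  rw [abs_lt] at h2 h3
  refine ⟨?_, ?_⟩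
  · rw [abs_lt]
    constructor <;> nlinarith [h8.1, h8.2, h3.1, h3.2]
  · rw [abs_lt]
    constructor <;> nlinarith [h9.1, h9.2, h2.1, h2.2]

/-- Proof: `M σ := N (G σ) - n σ` has the derivative `- g n M` on `Bx ∩ {|σ.re - c.re| < 24 / 100}`
(`n' = n - n² g` by `geq`, `γ (G σ) = g σ`), `M c = 0`; `gron_seg` on the segment from `c` to `σ`
(convex set) with `e = d = 0`, `A = 4` (`‖g n‖ ≤ (1 + η)²`). -/
theorem HC.N_eq (C : HC ν η s1 s2 G n g c) {γ N : ℂ → ℂ}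
    (hγ : ∀ σ ∈ Bx s1 s2, |σ.re - c.re| < 24 / 100 → γ (G σ) = g σ)
    (hN : ∀ w ∈ Rw ν (G c), HasDerivAt N (1 - γ w * N w) w) (hc : N (G c) = n c) :
    ∀ σ ∈ Bx s1 s2, |σ.re - c.re| < 24 / 100 → N (G σ) = n σ := by
  intro σ hσ hσc
  have hν := C.ν0
  have hη0 := C.η0
  have hη : η ≤ 1 / 10 := C.η1.trans (by norm_num)
  have hνc : ‖(ν : ℂ)‖ = ν := by rw [Complex.norm_real, Real.norm_of_nonneg hν.le]
  have hseg : ∀ z ∈ segment ℝ c σ, z ∈ Bx s1 s2 ∧ |z.re - c.re| < 24 / 100 := by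
    intro z hz
    refine ⟨(Bx_convex' s1 s2).segment_subset C.mem hσ hz, ?_⟩
    rw [segment_eq_image'] at hz
    obtain ⟨t, ht, rfl⟩ := hz
    have h1 : (c + t • (σ - c)).re - c.re = t * (σ.re - c.re) := by
      rw [Complex.add_re, Complex.real_smul, Complex.re_ofReal_mul, Complex.sub_re]
      ring
    simp only
    rw [h1, abs_mul, abs_of_nonneg ht.1]
    calc t * |σ.re - c.re| ≤ 1 * |σ.re - c.re| :=
          mul_le_mul_of_nonneg_right ht.2 (abs_nonneg _)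
      _ < 24 / 100 := by rwa [one_mul]
  have hder : ∀ z ∈ segment ℝ c σ, HasDerivAt (fun z => N (G z) - n z)
      (-(g z * n z) * (N (G z) - n z)) z := by
    intro z hz
    obtain ⟨hz1, hz2⟩ := hseg z hz
    have h1 := (hN (G z) (C.G_mem hz1 hz2)).comp z (C.gd.dG z hz1)
    have h2 : HasDerivAt n (deriv n z) z :=
      ((C.gd.dn z hz1).differentiableAt ((Bx_open' s1 s2).mem_nhds hz1)).hasDerivAt
    have hn0 : n z ≠ 0 := by
      intro h0
      have h3 := C.gd.nc z hz1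
      rw [h0, zero_sub, norm_neg, hνc] at h3
      nlinarith
    have h4 := C.gd.geq z hz1
    have h5 : deriv n z = n z - n z * g z * n z := by
      rw [h4]
      field_simp
      ring
    refine (h1.sub h2).congr_deriv ?_
    rw [h5, hγ z hz1 hz2]
    ring
  have hb : ∀ z ∈ segment ℝ c σ, ‖-(g z * n z) * (N (G z) - n z)‖ ≤
      4 * ‖N (G z) - n z‖ + 0 := by
    intro z hz
    obtain ⟨hz1, hz2⟩ := hseg z hz
    have h1 : ν * ‖g z‖ ≤ 1 + η := by
      have h5 : ν * ‖g z‖ = ‖(ν : ℂ) * g z‖ := by rw [norm_mul, hνc]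
      rw [h5]
      calc ‖(ν : ℂ) * g z‖ = ‖1 + (ν * g z - 1)‖ := by congr 1; ring
        _ ≤ ‖(1:ℂ)‖ + ‖ν * g z - 1‖ := norm_add_le _ _
        _ ≤ 1 + η := by rw [norm_one]; linarith [C.gd.gc z hz1]
    have h2 : ‖n z‖ ≤ (1 + η) * ν := by
      calc ‖n z‖ = ‖(ν : ℂ) + (n z - ν)‖ := by congr 1; ring
        _ ≤ ‖(ν : ℂ)‖ + ‖n z - ν‖ := norm_add_le _ _
        _ ≤ (1 + η) * ν := by rw [hνc]; linarith [C.gd.nc z hz1]
    have h3 : ‖g z * n z‖ ≤ 4 := by
      rw [norm_mul]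
      calc ‖g z‖ * ‖n z‖ ≤ ‖g z‖ * ((1 + η) * ν) := mul_le_mul_of_nonneg_left h2 (norm_nonneg _)
        _ = (1 + η) * (ν * ‖g z‖) := by ring
        _ ≤ (1 + η) * (1 + η) := mul_le_mul_of_nonneg_left h1 (by linarith)
        _ ≤ 4 := by nlinarith
    rw [norm_mul, norm_neg, add_zero]
    exact mul_le_mul_of_nonneg_right h3 (norm_nonneg _)
  have h0 : ‖N (G c) - n c‖ ≤ 0 := by rw [hc, sub_self, norm_zero]
  have hg := gron_seg (M := fun z => N (G z) - n z)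
    (φ := fun z => -(g z * n z) * (N (G z) - n z)) (c := c) (w := σ) (A := 4) (e := 0) (d := 0)
    (l := ‖σ - c‖) (by norm_num) le_rfl le_rfl hder hb h0
  rw [zero_mul, add_zero, zero_mul] at hg
  exact sub_eq_zero.1 (norm_le_zero_iff.1 hg)

end Pool.Agent.MP_ae5b4e_an_N4
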