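import Pool.Agent.Lib.MP_ae5b4e_an_N4.HDe

/-!
# MP_ae5b4e_an N4, part H: the function `S` near its zero
-/

set_option autoImplicit false

noncomputable section

namespace Pool.Agent.MP_ae5b4e_an_N4

open Complex Set Filter Topology Metric

variable {k ν η L s1 s2 : ℝ} {G n g S Λ : ℂ → ℂ} {z₁ : ℂ}

/-- `S` is nearly affine.  Proof: `Convex.norm_image_sub_le_of_norm_hasDerivWithin_le` on the ball for
`z ↦ ν (S z + 1) - (z - z₁)`, whose derivative is `ν S' - 1`; the value at `z₁` is `0` (`S0`). -/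
theorem HD.S_near (D : HD k ν η L s1 s2 G n g S Λ z₁) {z : ℂ} (hz : z ∈ ball z₁ (1 / 2)) :
    ‖ν * (S z + 1) - (z - z₁)‖ ≤ 1 / 50 * ‖z - z₁‖ := by
  have h1 := Convex.norm_image_sub_le_of_norm_hasDerivWithin_le
    (f := fun z => (ν : ℂ) * (S z + 1) - (z - z₁)) (f' := fun z => (ν : ℂ) * deriv S z - 1)
    (C := 1 / 50) (s := ball z₁ (1 / 2)) (x := z₁) (y := z)
    (fun x hx => ?_) D.dS (convex_ball _ _) D.z1mem hz
  · have h2 : (ν : ℂ) * (S z + 1) - (z - z₁) - ((ν : ℂ) * (S z₁ + 1) - (z₁ - z₁)) =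
        (ν : ℂ) * (S z + 1) - (z - z₁) := by
      rw [D.S0]
      ring
    rwa [h2] at h1
  · have h3 := (D.anS x hx).differentiableAt.hasDerivAt
    exact (((h3.add_const (1 : ℂ)).const_mul (ν : ℂ)).sub
      ((hasDerivAt_id x).sub_const z₁)).hasDerivWithinAt

private theorem HS_norm (D : HD k ν η L s1 s2 G n g S Λ z₁) (z : ℂ) :
    ‖(ν : ℂ) * (S z + 1)‖ = ν * ‖S z + 1‖ := by
  rw [norm_mul, Complex.norm_real, Real.norm_of_nonneg D.ν0.le]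

/-- Proof: from `S_near`. -/
theorem HD.S_up (D : HD k ν η L s1 s2 G n g S Λ z₁) {z : ℂ} (hz : z ∈ ball z₁ (1 / 2)) :
    ‖S z + 1‖ ≤ 51 / 50 * ‖z - z₁‖ / ν := by
  have h1 := D.S_near hz
  have h2 : ‖(ν : ℂ) * (S z + 1)‖ ≤ ‖(ν : ℂ) * (S z + 1) - (z - z₁)‖ + ‖z - z₁‖ := by
    simpa using norm_add_le ((ν : ℂ) * (S z + 1) - (z - z₁)) (z - z₁)
  rw [HS_norm D] at h2
  rw [le_div_iff₀ D.ν0]
  linarith

theorem HD.S_lo (D : HD k ν η L s1 s2 G n g S Λ z₁) {z : ℂ} (hz : z ∈ ball z₁ (1 / 2)) :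
    49 / 50 * ‖z - z₁‖ / ν ≤ ‖S z + 1‖ := by
  have h1 := D.S_near hz
  have h2 : ‖z - z₁‖ ≤ ‖(ν : ℂ) * (S z + 1)‖ + ‖(ν : ℂ) * (S z + 1) - (z - z₁)‖ := by
    have h3 := norm_sub_le ((ν : ℂ) * (S z + 1)) ((ν : ℂ) * (S z + 1) - (z - z₁))
    rwa [sub_sub_cancel] at h3
  rw [HS_norm D] at h2
  rw [div_le_iff₀ D.ν0]
  linarith

/-- Proof: `S_up`, `‖z - z₁‖ < 1 / 2`, `ν ≥ 2 10^20`. -/
theorem HD.S_sm (D : HD k ν η L s1 s2 G n g S Λ z₁) {z : ℂ} (hz : z ∈ ball z₁ (1 / 2)) :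
    ‖S z + 1‖ ≤ 1 / 10 ^ 20 := by
  have h1 := D.S_up hz
  rw [mem_ball, dist_eq_norm] at hz
  have h2 := D.ν20
  refine h1.trans ?_
  rw [div_le_div_iff₀ D.ν0 (by norm_num)]
  linarith

/-- Proof: `S_sm`. -/
theorem HD.S_ne (D : HD k ν η L s1 s2 G n g S Λ z₁) {z : ℂ} (hz : z ∈ ball z₁ (1 / 2)) :
    S z ≠ 0 := by
  intro h0
  have h1 := D.S_sm hz
  rw [h0, zero_add, norm_one] at h1
  norm_num at h1

theorem HD.S_norm (D : HD k ν η L s1 s2 G n g S Λ z₁) {z : ℂ} (hz : z ∈ ball z₁ (1 / 2)) :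
    |‖S z‖ - 1| ≤ 1 / 10 ^ 20 := by
  have h1 := D.S_sm hz
  have h2 := abs_norm_sub_norm_le (S z) (-1)
  rw [norm_neg, norm_one, sub_neg_eq_add] at h2
  exact h2.trans h1

/-- The label moves little on the small ball.  Proof: mean value inequality with `dL`,
`‖z - z₁‖ < rL L ≤ 1`, `LrL`. -/
theorem HD.L_near (D : HD k ν η L s1 s2 G n g S Λ z₁) {z : ℂ} (hz : z ∈ ball z₁ (rL L)) :
    ‖Λ z - Λ z₁‖ ≤ 1 / (32 * ν) := by
  have hν := D.ν0
  have h1 := Convex.norm_image_sub_le_of_norm_hasDerivWithin_le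
    (f := Λ) (f' := fun z => deriv Λ z)
    (C := L / ν) (s := ball z₁ (rL L)) (x := z₁) (y := z)
    (fun x hx => (D.anL x (D.ball_sub hx)).differentiableAt.hasDerivAt.hasDerivWithinAt)
    (fun x hx => ?_) (convex_ball _ _) (mem_ball_self D.rL0) hz
  · rw [mem_ball, dist_eq_norm] at hz
    have h2 := D.LrL
    have hL : 0 ≤ L := by linarith [D.L0]
    refine h1.trans ?_
    rw [div_mul_eq_mul_div, div_le_div_iff₀ hν (by positivity)]
    have h3 : L * ‖z - z₁‖ ≤ 1 / 32 := (mul_le_mul_of_nonneg_left hz.le hL).trans h2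
    nlinarith
  · have h4 := D.dL x (D.ball_sub hx)
    rw [norm_mul, Complex.norm_real, Real.norm_of_nonneg hν.le] at h4
    rw [le_div_iff₀ hν]
    linarith

end Pool.Agent.MP_ae5b4e_an_N4
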