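import Pool.Agent.Lib.MP_ae5b4e_an_N4.HS

/-!
# MP_ae5b4e_an N4, part H: the function `Xf` is univalent on the small ball
-/

set_option autoImplicit false

noncomputable section

namespace Pool.Agent.MP_ae5b4e_an_N4

open Complex Set Filter Topology Metric

variable {k ν η L s1 s2 : ℝ} {G n g S Λ : ℂ → ℂ} {z₁ : ℂ}

/-- The derivative of `Xf`.  Proof: product and chain rule (`D.gd.dG`, `anS`, `anL`, `S_ne`). -/
theorem HD.X_der (D : HD k ν η L s1 s2 G n g S Λ z₁) {z : ℂ} (hz : z ∈ ball z₁ (1 / 2)) :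
    HasDerivAt (Xf G S Λ)
      (cexp (G (Λ z)) * (n (Λ z) * deriv Λ z * (1 + (S z)⁻¹) - deriv S z / (S z) ^ 2)) z := by
  have hs : S z ≠ 0 := D.S_ne hz
  have h1 : HasDerivAt S (deriv S z) z := (D.anS z hz).differentiableAt.hasDerivAt
  have h2 : HasDerivAt Λ (deriv Λ z) z := (D.anL z hz).differentiableAt.hasDerivAt
  have h3 : HasDerivAt (fun w => G (Λ w)) (n (Λ z) * deriv Λ z) z :=
    HasDerivAt.comp (h₂ := G) (h := Λ) z (D.gd.dG _ (D.Lmem hz)) h2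
  have h4 := h3.cexp.mul ((h1.inv hs).const_add 1)
  refine h4.congr_deriv ?_
  change cexp (G (Λ z)) * (n (Λ z) * deriv Λ z) * (1 + (S z)⁻¹) +
    cexp (G (Λ z)) * (-deriv S z / S z ^ 2) = _
  ring

theorem HD.dS_ge (D : HD k ν η L s1 s2 G n g S Λ z₁) {z : ℂ} (hz : z ∈ ball z₁ (1 / 2)) :
    49 / 50 / ν ≤ ‖deriv S z‖ := by
  have hν := D.ν0
  have h1 := D.dS z hz
  have h2 : ‖(ν : ℂ)‖ = ν := by rw [Complex.norm_real, Real.norm_eq_abs, abs_of_pos hν]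
  have h3 : ‖(1:ℂ)‖ - ‖ν * deriv S z‖ ≤ ‖ν * deriv S z - 1‖ := by
    rw [norm_sub_rev]
    exact norm_sub_norm_le _ _
  rw [norm_one, norm_mul, h2] at h3
  rw [div_le_iff₀ hν, mul_comm]
  linarith

/-- Proof: `‖exp (G (Λ z₁))‖ > 0`, `‖ν S' (z₁)‖ ≥ 49 / 50`. -/
theorem HD.Xa_ge (D : HD k ν η L s1 s2 G n g S Λ z₁) :
    ‖cexp (G (Λ z₁))‖ * (49 / 50 / ν) ≤ ‖Xa G S Λ z₁‖ := by
  unfold Xa
  rw [norm_neg, norm_mul]
  refine mul_le_mul_of_nonneg_left (D.dS_ge D.z1mem) (norm_nonneg _)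

theorem HD.Xa_ne (D : HD k ν η L s1 s2 G n g S Λ z₁) : Xa G S Λ z₁ ≠ 0 := by
  have h1 := D.Xa_ge
  have h2 : 0 < ‖cexp (G (Λ z₁))‖ := norm_pos_iff.2 (Complex.exp_ne_zero _)
  have h3 := D.ν0
  intro h
  rw [h, norm_zero] at h1
  have h4 : 0 < ‖cexp (G (Λ z₁))‖ * (49 / 50 / ν) := by positivity
  linarith

/-- `exp (G (Λ z))` is nearly constant on the small ball.  Proof: `G ∘ Λ` has the derivative
`n (Λ) Λ'`, of norm `≤ (1 + η) ν (L / ν) ≤ (1 + η) L`; so `‖G (Λ z) - G (Λ z₁)‖ ≤ (1 + η) / 32`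
(`LrL`), and `‖exp u - 1‖ ≤ 2 ‖u‖` for `‖u‖ ≤ 1` (`Complex.norm_exp_sub_one_le`). -/
theorem HD.E_near (D : HD k ν η L s1 s2 G n g S Λ z₁) {z : ℂ} (hz : z ∈ ball z₁ (rL L)) :
    ‖cexp (G (Λ z)) / cexp (G (Λ z₁)) - 1‖ ≤ 7 / 100 := by
  have hν := D.ν0
  have hη := D.η1
  have hη0 := D.η0
  have hνc : ‖(ν : ℂ)‖ = ν := by rw [Complex.norm_real, Real.norm_eq_abs, abs_of_pos hν]
  have hb := D.Lmem (D.ball_sub hz)
  have hb1 := D.Lmem D.z1mem
  have h1 := D.gd.naff hν _ hb _ hb1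
  have h2 := D.L_near hz
  have h3 : ‖G (Λ z) - G (Λ z₁)‖ ≤ (1 + η) / 32 := by
    have e1 : G (Λ z) - G (Λ z₁) = (G (Λ z) - G (Λ z₁) - ν * (Λ z - Λ z₁)) +
        ν * (Λ z - Λ z₁) := by ring
    rw [e1]
    refine (norm_add_le _ _).trans ?_
    rw [hνc] at h1
    have e2 : ‖(ν : ℂ) * (Λ z - Λ z₁)‖ = ν * ‖Λ z - Λ z₁‖ := by rw [norm_mul, hνc]
    rw [e2]
    have e3 : ν * ‖Λ z - Λ z₁‖ ≤ 1 / 32 := by
      calc ν * ‖Λ z - Λ z₁‖ ≤ ν * (1 / (32 * ν)) := mul_le_mul_of_nonneg_left h2 hν.le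
        _ = 1 / 32 := by field_simp
    have e4 : η * ν * ‖Λ z - Λ z₁‖ ≤ η * (1 / 32) := by
      rw [mul_assoc]
      exact mul_le_mul_of_nonneg_left e3 hη0
    linarith
  have hη' : η ≤ 1 / 100 := hη.trans (by norm_num)
  rw [← Complex.exp_sub]
  have h4 := Complex.norm_exp_sub_one_le (x := G (Λ z) - G (Λ z₁)) (by linarith)
  linarith

/-- The estimate of the derivative.  Proof: divide by `Xa = - E₁ S'₁`, `E₁ = exp (G (Λ z₁))`:
the quotient is `(E / E₁) (p - q)`, `p = S' / (S² S'₁)`, `q = n Λ' (1 + 1 / S) / S'₁`.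
`E / E₁ = 1 + O (7 / 100)` (`E_near`); `S' / S'₁ = 1 + O (41 / 1000)` as
`ν S', ν S'₁ = 1 + O (1 / 50)`; `S² = 1 + O (10^(-19))` (`S_sm`); `‖n Λ'‖ ≤ (1 + η) L` (`nc`,
`dL`), `‖1 + 1 / S‖ = ‖S + 1‖ / ‖S‖ ≤ 1.03 rL L / ν` (`S_up`), `‖S'₁‖ ≥ 0.98 / ν`:
`‖q‖ ≤ 1.06 L (rL L) ≤ 0.034` (`LrL`).  So the quotient is `1 + O (0.2)`. -/
theorem HD.X_est (D : HD k ν η L s1 s2 G n g S Λ z₁) {z : ℂ} (hz : z ∈ ball z₁ (rL L)) :
    ‖cexp (G (Λ z)) * (n (Λ z) * deriv Λ z * (1 + (S z)⁻¹) - deriv S z / (S z) ^ 2) -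
      Xa G S Λ z₁‖ ≤ 3 / 10 * ‖Xa G S Λ z₁‖ := by
  have hν := D.ν0
  have hνC : (ν : ℂ) ≠ 0 := by exact_mod_cast hν.ne'
  have hη := D.η1
  have hη0 := D.η0
  have hη' : η ≤ 1 / 10000 := hη.trans (by norm_num)
  have hνc : ‖(ν : ℂ)‖ = ν := by rw [Complex.norm_real, Real.norm_eq_abs, abs_of_pos hν]
  have hzz := D.ball_sub hz
  have hE := D.E_near hz
  have hE1 : cexp (G (Λ z₁)) ≠ 0 := Complex.exp_ne_zero _
  have hs : S z ≠ 0 := D.S_ne hzz
  have hs1ge := D.dS_ge D.z1mem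
  have hs1 : deriv S z₁ ≠ 0 := by
    intro h0
    rw [h0, norm_zero] at hs1ge
    have : 0 < 49 / 50 / ν := by positivity
    linarith
  have hsn := D.S_norm hzz
  rw [abs_le] at hsn
  have hsn1 : 99 / 100 ≤ ‖S z‖ := by
    have h1 := hsn.1
    norm_num at h1 ⊢
    linarith
  have hsn2 : ‖S z‖ ≤ 101 / 100 := by
    have h1 := hsn.2
    norm_num at h1 ⊢
    linarith
  have hsm := D.S_sm hzz
  -- quotient of the derivatives
  have hq1 : ‖deriv S z / deriv S z₁ - 1‖ ≤ 41 / 1000 := by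
    have h1 := D.dS z hzz
    have h2 := D.dS z₁ D.z1mem
    have h3 : deriv S z / deriv S z₁ - 1 =
        ((ν * deriv S z - 1) - (ν * deriv S z₁ - 1)) / (ν * deriv S z₁) := by
      field_simp
      ring
    rw [h3, norm_div, norm_mul, hνc]
    have h4 : 49 / 50 ≤ ν * ‖deriv S z₁‖ := by
      have h5 := mul_le_mul_of_nonneg_left hs1ge hν.le
      have h6 : ν * (49 / 50 / ν) = 49 / 50 := by field_simp
      linarith
    have h7 : ‖(ν * deriv S z - 1) - (ν * deriv S z₁ - 1)‖ ≤ 1 / 25 := by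
      refine (norm_sub_le _ _).trans ?_
      linarith
    rw [div_le_iff₀ (by linarith)]
    linarith
  -- the inverse square
  have hq2 : ‖(S z ^ 2)⁻¹ - 1‖ ≤ 1 / 1000 := by
    have h1 : (S z ^ 2)⁻¹ - 1 = -((S z + 1) * (S z - 1)) / (S z ^ 2) := by
      field_simp
      ring
    rw [h1, norm_div, norm_neg, norm_mul, norm_pow]
    have h2 : ‖S z - 1‖ ≤ 3 := by
      refine (norm_sub_le _ _).trans ?_
      rw [norm_one]
      linarith
    have h3 : ‖S z + 1‖ * ‖S z - 1‖ ≤ 1 / 10 ^ 20 * 3 :=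
      mul_le_mul hsm h2 (norm_nonneg _) (by positivity)
    have h4 : (99 / 100 : ℝ) ^ 2 ≤ ‖S z‖ ^ 2 := pow_le_pow_left₀ (by norm_num) hsn1 2
    rw [div_le_iff₀ (by positivity)]
    norm_num at h3 h4 ⊢
    linarith
  -- the small term
  have hq3 : ‖n (Λ z) * deriv Λ z * (1 + (S z)⁻¹) / deriv S z₁‖ ≤ 34 / 1000 := by
    have hn : ‖n (Λ z)‖ ≤ (1 + η) * ν := by
      have h1 := D.gd.nc _ (D.Lmem hzz)
      have h2 : ‖n (Λ z)‖ ≤ ‖n (Λ z) - ν‖ + ‖(ν:ℂ)‖ := by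
        calc ‖n (Λ z)‖ = ‖(n (Λ z) - ν) + ν‖ := by congr 1; ring
          _ ≤ _ := norm_add_le _ _
      rw [hνc] at h2
      linarith
    have hl : ν * ‖deriv Λ z‖ ≤ L := by
      have h1 := D.dL z hzz
      rwa [norm_mul, hνc] at h1
    have hsz : ‖1 + (S z)⁻¹‖ ≤ 104 / 100 * rL L / ν := by
      have h1 : 1 + (S z)⁻¹ = (S z + 1) / S z := by
        field_simp
      rw [h1, norm_div]
      have h2 := D.S_up hzz
      have h3 : ‖z - z₁‖ ≤ rL L := by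
        have := hz
        rw [mem_ball, dist_eq_norm] at this
        exact this.le
      have h4 : 51 / 50 * ‖z - z₁‖ / ν ≤ 51 / 50 * rL L / ν := by
        gcongr
      rw [div_le_iff₀ (by linarith)]
      have h5 : 104 / 100 * rL L / ν * (99 / 100) ≤ 104 / 100 * rL L / ν * ‖S z‖ :=
        mul_le_mul_of_nonneg_left hsn1 (by have := D.rL0; positivity)
      have h6 : 51 / 50 * rL L / ν ≤ 104 / 100 * rL L / ν * (99 / 100) := by
        have h7 : 0 ≤ rL L / ν := by have := D.rL0; positivity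
        have h8 : 51 / 50 * rL L / ν = 51 / 50 * (rL L / ν) := by ring
        have h9 : 104 / 100 * rL L / ν * (99 / 100) = 104 / 100 * (99 / 100) * (rL L / ν) := by
          ring
        rw [h8, h9]
        exact mul_le_mul_of_nonneg_right (by norm_num) h7
      linarith
    rw [norm_div, norm_mul, norm_mul, div_le_iff₀ (lt_of_lt_of_le (by positivity) hs1ge)]
    have h1 : ‖n (Λ z)‖ * ‖deriv Λ z‖ ≤ (1 + η) * L := by
      calc ‖n (Λ z)‖ * ‖deriv Λ z‖ ≤ ((1 + η) * ν) * ‖deriv Λ z‖ :=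
            mul_le_mul_of_nonneg_right hn (norm_nonneg _)
        _ = (1 + η) * (ν * ‖deriv Λ z‖) := by ring
        _ ≤ (1 + η) * L := mul_le_mul_of_nonneg_left hl (by positivity)
    have hL0 := D.L0
    have hr0 := D.rL0
    have h2 : ‖n (Λ z)‖ * ‖deriv Λ z‖ * ‖1 + (S z)⁻¹‖ ≤
        ((1 + η) * L) * (104 / 100 * rL L / ν) :=
      mul_le_mul h1 hsz (norm_nonneg _) (by positivity)
    have h3 : ((1 + η) * L) * (104 / 100 * rL L / ν) =
        (1 + η) * (104 / 100) * (L * rL L) * (1 / ν) := by ring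
    have h4 : (1 + η) * (104 / 100) * (L * rL L) ≤ 34 / 1000 * (49 / 50) := by
      have h5 : (1 + η) * (104 / 100) * (L * rL L) ≤ (1 + η) * (104 / 100) * (1 / 32) :=
        mul_le_mul_of_nonneg_left D.LrL (by positivity)
      linarith
    have h6 : 34 / 1000 * (49 / 50) * (1 / ν) ≤ 34 / 1000 * ‖deriv S z₁‖ := by
      have h7 : 49 / 50 / ν = 49 / 50 * (1 / ν) := by ring
      rw [h7] at hs1ge
      linarith
    have h8 : (1 + η) * (104 / 100) * (L * rL L) * (1 / ν) ≤ 34 / 1000 * (49 / 50) * (1 / ν) :=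
      mul_le_mul_of_nonneg_right h4 (by positivity)
    linarith
  -- assembly
  set ρ : ℂ := cexp (G (Λ z)) / cexp (G (Λ z₁)) with hρ
  set a : ℂ := deriv S z / deriv S z₁ with ha
  set b : ℂ := (S z ^ 2)⁻¹ with hb
  set q : ℂ := n (Λ z) * deriv Λ z * (1 + (S z)⁻¹) / deriv S z₁ with hq
  have hid : cexp (G (Λ z)) * (n (Λ z) * deriv Λ z * (1 + (S z)⁻¹) - deriv S z / (S z) ^ 2) -
      Xa G S Λ z₁ = Xa G S Λ z₁ * (ρ * (a * b - q) - 1) := by
    have h1 : cexp (G (Λ z)) = ρ * cexp (G (Λ z₁)) := by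
      rw [hρ, div_mul_cancel₀ _ hE1]
    have h2 : deriv S z = a * deriv S z₁ := by
      rw [ha, div_mul_cancel₀ _ hs1]
    have h3 : n (Λ z) * deriv Λ z * (1 + (S z)⁻¹) = q * deriv S z₁ := by
      rw [hq, div_mul_cancel₀ _ hs1]
    rw [h3, div_eq_mul_inv, ← hb, h1, h2]
    unfold Xa
    ring
  rw [hid, norm_mul, mul_comm]
  refine mul_le_mul_of_nonneg_right ?_ (norm_nonneg _)
  have hab : ‖a * b - 1‖ ≤ 43 / 1000 := by
    have h1 : a * b - 1 = (a - 1) + (b - 1) + (a - 1) * (b - 1) := by ring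
    rw [h1]
    have h2 : ‖(a - 1) * (b - 1)‖ ≤ 41 / 1000000 := by
      rw [norm_mul]
      exact (mul_le_mul hq1 hq2 (norm_nonneg _) (by norm_num)).trans (by norm_num)
    have h3 := norm_add₃_le (a := a - 1) (b := b - 1) (c := (a - 1) * (b - 1))
    linarith
  have hc : ‖a * b - q - 1‖ ≤ 77 / 1000 := by
    have h1 : a * b - q - 1 = (a * b - 1) - q := by ring
    rw [h1]
    refine (norm_sub_le _ _).trans ?_
    linarith
  have h1 : ρ * (a * b - q) - 1 = (ρ - 1) + (a * b - q - 1) + (ρ - 1) * (a * b - q - 1) := by ring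
  rw [h1]
  have h2 : ‖(ρ - 1) * (a * b - q - 1)‖ ≤ 539 / 100000 := by
    rw [norm_mul]
    exact (mul_le_mul hE hc (norm_nonneg _) (by norm_num)).trans (by norm_num)
  have h3 := norm_add₃_le (a := ρ - 1) (b := a * b - q - 1) (c := (ρ - 1) * (a * b - q - 1))
  linarith

theorem HD.X_naff (D : HD k ν η L s1 s2 G n g S Λ z₁) :
    NAff (Xf G S Λ) (Xa G S Λ z₁) (3 / 10) (ball z₁ (rL L)) :=
  naff_of_deriv (convex_ball _ _) (fun z hz => D.X_der (D.ball_sub hz)) fun z hz => D.X_est hz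

theorem HD.X_diff (D : HD k ν η L s1 s2 G n g S Λ z₁) :
    DifferentiableOn ℂ (Xf G S Λ) (ball z₁ (rL L)) := fun z hz =>
  (D.X_der (D.ball_sub hz)).differentiableAt.differentiableWithinAt

theorem HD.X_zero (D : HD k ν η L s1 s2 G n g S Λ z₁) : Xf G S Λ z₁ = 0 := by
  unfold Xf
  rw [D.S0]
  norm_num

end Pool.Agent.MP_ae5b4e_an_N4
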