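import Pool.Agent.Lib.MP_ae5b4e_an_N4.HX

/-!
# MP_ae5b4e_an N4, part H: the inverse of `Xf`
-/

set_option autoImplicit false

noncomputable section

namespace Pool.Agent.MP_ae5b4e_an_N4

open Complex Set Filter Topology Metric

variable {k ν η L s1 s2 : ℝ} {G n g S Λ : ℂ → ℂ} {z₁ : ℂ}

/-- All values of norm `< Xr` are taken.  Proof: `NAff.solve` with `w₀ = z₁`, `Xf z₁ = 0`: the ball
about `z₁ + y / a` of radius `(6 / 10) ‖y‖ / ‖a‖`, `‖y‖ / ‖a‖ < (6 / 10) rL L`, lies in the ball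
of radius `(1.6) (0.6) rL L < rL L`. -/
theorem HD.X_surj (D : HD k ν η L s1 s2 G n g S Λ z₁) {y : ℂ} (hy : ‖y‖ < Xr L G S Λ z₁) :
    ∃ z ∈ ball z₁ (rL L), Xf G S Λ z = y := by
  have ha := D.Xa_ne
  have hna : 0 < ‖Xa G S Λ z₁‖ := norm_pos_iff.2 ha
  have hr := D.rL0
  have hδ : ‖y‖ / ‖Xa G S Λ z₁‖ < 6 / 10 * rL L := by
    rw [div_lt_iff₀ hna]
    unfold Xr at hy
    linarith
  have hδ0 : 0 ≤ ‖y‖ / ‖Xa G S Λ z₁‖ := by positivity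
  have hsub : closedBall (z₁ + (y - Xf G S Λ z₁) / Xa G S Λ z₁)
      (2 * (3 / 10) * (‖y - Xf G S Λ z₁‖ / ‖Xa G S Λ z₁‖)) ⊆ ball z₁ (rL L) := by
    intro z hz
    rw [D.X_zero, sub_zero, mem_closedBall, dist_eq_norm] at hz
    rw [mem_ball, dist_eq_norm]
    have h1 : ‖z - z₁‖ ≤ ‖z - (z₁ + y / Xa G S Λ z₁)‖ + ‖y / Xa G S Λ z₁‖ := by
      have h2 := norm_add_le (z - (z₁ + y / Xa G S Λ z₁)) (y / Xa G S Λ z₁)
      rwa [show z - (z₁ + y / Xa G S Λ z₁) + y / Xa G S Λ z₁ = z - z₁ by ring] at h2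
    rw [norm_div y] at h1
    linarith
  obtain ⟨z, hz, hzy⟩ := D.X_naff.solve ha (by norm_num) (by norm_num) (mem_ball_self hr) y hsub
  exact ⟨z, hsub hz, hzy⟩

/-- The inverse `ξ` of `Xf`.  Proof: `X_surj`, `Function.invFunOn_mem`, `invFunOn_eq`, `NAff.inv`. -/
theorem HD.X_inv (D : HD k ν η L s1 s2 G n g S Λ z₁) {y : ℂ} (hy : ‖y‖ < Xr L G S Λ z₁) :
    Function.invFunOn (Xf G S Λ) (ball z₁ (rL L)) y ∈ ball z₁ (rL L) ∧
    Xf G S Λ (Function.invFunOn (Xf G S Λ) (ball z₁ (rL L)) y) = y ∧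
    AnalyticAt ℂ (Function.invFunOn (Xf G S Λ) (ball z₁ (rL L))) y := by
  obtain ⟨z, hz, hzy⟩ := D.X_surj hy
  have hmem : y ∈ Xf G S Λ '' ball z₁ (rL L) := ⟨z, hz, hzy⟩
  refine ⟨Function.invFunOn_mem hmem, Function.invFunOn_eq hmem, ?_⟩
  have h1 := (D.X_naff.inv D.Xa_ne (by norm_num) isOpen_ball D.X_diff hz).1
  rwa [hzy] at h1

end Pool.Agent.MP_ae5b4e_an_N4
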