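import Pool.Agent.Lib.MP_ae5b4e_an_N4.Gin

/-!
# N4, module Seq: the discrete chain stays in the box

`p 0, …, p m` is an orbit of `stp ell`, `z - (m - i)` is the abscissa of `p i`, the start state is near
`(z_0 / ν - 1 / 2, …)`.  `c1 ν`, `c2 ν` are bounds for the imaginary part of the column sums.

PROOF.  Induction on `i ≤ m`: claim `C i`: for all `l ≤ i`: `(p l).2 ∈ Bx s1 s2`,
`G (p l).2 = G (p 0).2 + W_l`, `W_l := ∑_{l' < l} ell (p l').1`,
`‖(p l).2 - ((p 0).2 + W_l / ν)‖ ≤ 2 η ‖W_l‖ / ν`, `‖(p l).1 - (z_l / ν - 1 / 2)‖ ≤ δ + l η / ν ≤ 2 δ`.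
`C 0`: `W_0 = 0`; `(p 0).2 ∈ Bx` by `hi`, `hr`, `hθ1`, `hθ2`, `b1`, `b2` and `aa`, `c1`, `c2`.
Step `i → i + 1 ≤ m`: `hW (i + 1)` applies (all `l < i + 1` are near affine and in the box):
`‖W_{i+1}‖ ≤ (X / k + 200) ν`, `c1 ν ≤ Im W_{i+1} ≤ c2 ν`.  The error radius
`2 η ‖W‖ / ν ≤ 2 η (X / k + 200) ≤ 10 ^ (-20)` (`η1`: `η ≤ δ / (10 ^ 14 (X / k) ^ 2)`, `X / k ≥ 10 ^ 10`, `δ ≤ 10 ^ (-12)`).
So `closedBall ((p 0).2 + W / ν) (2 η ‖W‖ / ν) ⊆ Bx s1 s2`: imaginary parts in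
`[θ - π - 10 ^ (-9) + c1 - 10 ^ (-20), θ - π + 10 ^ (-9) + c2 + 10 ^ (-20)]`, inside `(-π + aa, -aa)` by `hθ1`, `hθ2`;
real parts within `1 + X / k + 200 + 1` of `lr`, `Dl ≥ X / k + 1000`.  `G_solve` gives `σ'` in it with
`G σ' = G (p 0).2 + W_{i+1}`.  By the induction hypothesis `G (p i).2 + ell (p i).1 = G (p 0).2 + W_{i+1}`, so
`(p (i+1)).2 = Function.invFunOn G Bx (G (p i).2 + ell (p i).1) = σ'` (`hp`, definition of `stp`,
last claim of `G_solve`).  `(p (i+1)).1 = (p i).1 + g (p (i+1)).2` and `‖ν g - 1‖ ≤ η` (`Gd.gc`); `z_{i+1} = z_i + 1`: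
`‖(p (i+1)).1 - (z_{i+1} / ν - 1 / 2)‖ ≤ δ + (i + 1) η / ν`, `m η / ν ≤ (X + k) η / (2 k) ≤ δ`.
The conclusions `im1`, `im2`, `re` follow (`10 ^ (-9) + 10 ^ (-20) ≤ 10 ^ (-8)`).
-/

set_option autoImplicit false

noncomputable section

namespace Pool.Agent.MP_ae5b4e_an_N4

open Complex Set Filter Topology Metric

theorem seq_main {k ν X δ η Dl s1 s2 : ℝ} {G n g : ℂ → ℂ} (hP : Par k ν X δ η Dl)
    (hg : Gd ν η s1 s2 G n g) {ell : ℂ → ℂ} {m : ℕ} {p : ℕ → ℂ × ℂ} {z : ℂ} {θ lr c1 c2 : ℝ}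
    (hm : (m:ℝ) ≤ X + k) (b1 : s1 ≤ lr - Dl) (b2 : lr + Dl ≤ s2) (hc : c1 ≤ 0) (hc' : 0 ≤ c2)
    (hθ1 : aa - c1 + 1 / 10 ^ 8 ≤ θ) (hθ2 : θ + c2 + 1 / 10 ^ 8 ≤ Real.pi - aa)
    (hs0 : ‖(p 0).1 - ((z - (m:ℂ)) / ν - 1 / 2)‖ ≤ δ)
    (hi : |(p 0).2.im - (θ - Real.pi)| ≤ 1 / 10 ^ 9) (hr : |(p 0).2.re - lr| ≤ 1)
    (hp : ∀ i < m, p (i + 1) = stp ell (Bx s1 s2) G g (p i))
    (hW : ∀ i ≤ m, (∀ l < i, ‖(p l).1 - ((z - (m:ℂ) + (l:ℂ)) / ν - 1 / 2)‖ ≤ 2 * δ ∧
        (p l).2 ∈ Bx s1 s2) →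
      ‖∑ l ∈ Finset.range i, ell (p l).1‖ ≤ (X / k + 200) * ν ∧
        c1 * ν ≤ (∑ l ∈ Finset.range i, ell (p l).1).im ∧
        (∑ l ∈ Finset.range i, ell (p l).1).im ≤ c2 * ν) :
    ∀ i ≤ m, (p i).2 ∈ Bx s1 s2 ∧
      (∀ l < i, G (p (l + 1)).2 = G (p l).2 + ell (p l).1) ∧
      ‖(p i).1 - ((z - (m:ℂ) + (i:ℂ)) / ν - 1 / 2)‖ ≤ 2 * δ ∧
      θ - Real.pi + c1 - 1 / 10 ^ 8 ≤ (p i).2.im ∧ (p i).2.im ≤ θ - Real.pi + c2 + 1 / 10 ^ 8 ∧
      |(p i).2.re - lr| ≤ X / k + 210 := by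
  have hk := hP.hk
  have hk0 : 0 < k := lt_of_lt_of_le (by positivity) hk
  have hν0 : 0 < ν := by linarith [hP.ν1]
  have hνc : (ν : ℂ) ≠ 0 := by exact_mod_cast hν0.ne'
  have hη0 := hP.η0
  have hδ0 := hP.δ0
  have hδ1 := hP.δ1
  have hR : (10:ℝ) ^ 10 ≤ X / k := by
    rw [le_div_iff₀ hk0]
    exact hP.hX
  set R : ℝ := X / k with hRdef
  have hR0 : 0 < R := lt_of_lt_of_le (by positivity) hR
  have hXR : X = R * k := by
    rw [hRdef]
    field_simp
  -- the size of eta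
  have hη1 : η * R ^ 2 * 10 ^ 14 ≤ δ := hP.η1
  have hηR : η * R * 10 ^ 24 ≤ δ := by
    have e1 : η * R * 10 ^ 24 = η * R * 10 ^ 10 * 10 ^ 14 := by ring
    have e2 : η * R * 10 ^ 10 ≤ η * R ^ 2 := by
      have e3 : η * R ^ 2 = η * R * R := by ring
      rw [e3]
      exact mul_le_mul_of_nonneg_left hR (by positivity)
    rw [e1]
    linarith [mul_le_mul_of_nonneg_right e2 (show (0:ℝ) ≤ 10 ^ 14 by positivity)]
  have hηh : η ≤ 1 / 2 := by
    have e1 : η * 10 ^ 10 ≤ η * R := mul_le_mul_of_nonneg_left hR hη0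
    have e2 : η * R ≤ 1 / 10 ^ 36 := by
      have e3 : η * R * 10 ^ 24 ≤ 1 / 10 ^ 12 := hηR.trans hδ1
      norm_num at e3 ⊢
      linarith
    norm_num at e1 e2 ⊢
    linarith
  have hη1' : η < 1 := by linarith
  set W : ℕ → ℂ := fun i => ∑ l ∈ Finset.range i, ell (p l).1 with hWdef
  have hW0 : W 0 = 0 := by simp [hWdef]
  have hWs : ∀ i, W (i + 1) = W i + ell (p i).1 := fun i => by
    simp only [hWdef]
    rw [Finset.sum_range_succ]
  rw [abs_le] at hi hr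
  obtain ⟨hi1, hi2⟩ := hi
  obtain ⟨hr1, hr2⟩ := hr
  have hD := hP.hD
  -- the start point is in the box
  have h0B : (p 0).2 ∈ Bx s1 s2 := by
    refine ⟨?_, ?_, ?_, ?_⟩
    · linarith
    · linarith
    · norm_num at hi1 hθ1 ⊢
      linarith
    · norm_num at hi2 hθ2 ⊢
      linarith
  have hmη : (m:ℝ) * (η / ν) ≤ δ := by
    have e1 : (m:ℝ) * (η / ν) ≤ (X + k) * (η / ν) :=
      mul_le_mul_of_nonneg_right hm (by positivity)
    have e2 : (X + k) * (η / ν) ≤ (X + k) * (η / (2 * k)) := by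
      have e3 : η / ν ≤ η / (2 * k) := div_le_div_of_nonneg_left hη0 (by positivity) hP.ν1
      exact mul_le_mul_of_nonneg_left e3 (by rw [hXR]; positivity)
    have e3 : (X + k) * (η / (2 * k)) = (R + 1) * η / 2 := by
      rw [hXR]
      field_simp
    have e4 : (R + 1) * η / 2 ≤ η * R := by nlinarith
    have e5 : η * R ≤ η * R * 10 ^ 24 := by
      have : 0 ≤ η * R := by positivity
      norm_num
      linarith
    linarith
  have key : ∀ i, i ≤ m → ((p i).2 ∈ Bx s1 s2 ∧ G (p i).2 = G (p 0).2 + W i ∧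
      ‖(p i).1 - ((z - (m:ℂ) + (i:ℂ)) / ν - 1 / 2)‖ ≤ δ + i * (η / ν) ∧
      θ - Real.pi + c1 - 1 / 10 ^ 8 ≤ (p i).2.im ∧ (p i).2.im ≤ θ - Real.pi + c2 + 1 / 10 ^ 8 ∧
      |(p i).2.re - lr| ≤ R + 210) := by
    intro i
    induction i using Nat.strong_induction_on with
    | _ i ih =>
    intro him
    rcases i with _ | j
    · refine ⟨h0B, by rw [hW0, add_zero], ?_, ?_, ?_, ?_⟩
      · simpa using hs0
      · norm_num at hi1 ⊢
        linarith
      · norm_num at hi2 ⊢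
        linarith
      · rw [abs_le]
        constructor
        · linarith
        · linarith
    · have hjm : j < m := him
      obtain ⟨hj1, hj2, hj3, -, -, -⟩ := ih j (Nat.lt_succ_self j) hjm.le
      obtain ⟨hw1, hw2, hw3⟩ := hW (j + 1) him (by
        intro l hl
        obtain ⟨h1, -, h3, -⟩ := ih l hl (hl.le.trans him)
        refine ⟨h3.trans ?_, h1⟩
        have hlm : (l:ℝ) ≤ m := by exact_mod_cast hl.le.trans him
        have : (l:ℝ) * (η / ν) ≤ m * (η / ν) :=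
          mul_le_mul_of_nonneg_right hlm (by positivity)
        linarith)
      change ‖W (j + 1)‖ ≤ (R + 200) * ν at hw1
      change c1 * ν ≤ (W (j + 1)).im at hw2
      change (W (j + 1)).im ≤ c2 * ν at hw3
      -- radius
      have hnν : ‖W (j + 1)‖ / ν ≤ R + 200 := by
        rw [div_le_iff₀ hν0]
        exact hw1
      have hrad : 2 * η * ‖W (j + 1)‖ / ν ≤ 1 / 10 ^ 20 := by
        have e1 : 2 * η * ‖W (j + 1)‖ / ν = 2 * η * (‖W (j + 1)‖ / ν) := by ring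
        have e2 : 2 * η * (‖W (j + 1)‖ / ν) ≤ 2 * η * (R + 200) :=
          mul_le_mul_of_nonneg_left hnν (by positivity)
        have e3 : 2 * η * (R + 200) ≤ 4 * (η * R) := by nlinarith
        have e4 : η * R * 10 ^ 24 ≤ 1 / 10 ^ 12 := hηR.trans hδ1
        norm_num at e4 ⊢
        linarith
      have hball : ∀ τ ∈ closedBall ((p 0).2 + W (j + 1) / ν) (2 * η * ‖W (j + 1)‖ / ν),
          θ - Real.pi + c1 - 1 / 10 ^ 8 < τ.im ∧ τ.im < θ - Real.pi + c2 + 1 / 10 ^ 8 ∧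
            |τ.re - lr| ≤ R + 210 := by
        intro τ hτ
        rw [mem_closedBall, dist_eq_norm] at hτ
        have hτ' := hτ.trans hrad
        have e1 := (Complex.abs_re_le_norm _).trans hτ'
        have e2 := (Complex.abs_im_le_norm _).trans hτ'
        rw [Complex.sub_re, Complex.add_re, Complex.div_ofReal_re, abs_le] at e1
        rw [Complex.sub_im, Complex.add_im, Complex.div_ofReal_im, abs_le] at e2
        have e3 : c1 ≤ (W (j + 1)).im / ν := by rwa [le_div_iff₀ hν0]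
        have e4 : (W (j + 1)).im / ν ≤ c2 := by rwa [div_le_iff₀ hν0]
        have e5 : |(W (j + 1)).re / ν| ≤ R + 200 := by
          rw [abs_div, abs_of_pos hν0]
          refine le_trans ?_ hnν
          exact div_le_div_of_nonneg_right (Complex.abs_re_le_norm _) hν0.le
        rw [abs_le] at e5
        obtain ⟨e5, e5'⟩ := e5
        obtain ⟨e1, e1'⟩ := e1
        obtain ⟨e2, e2'⟩ := e2
        refine ⟨?_, ?_, ?_⟩
        · norm_num at e2 hi1 ⊢
          linarith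
        · norm_num at e2' hi2 ⊢
          linarith
        · rw [abs_le]
          norm_num at e1 e1' ⊢
          constructor
          · linarith
          · linarith
      have hsub : closedBall ((p 0).2 + W (j + 1) / ν) (2 * η * ‖W (j + 1)‖ / ν) ⊆ Bx s1 s2 := by
        intro τ hτ
        obtain ⟨e1, e2, e3⟩ := hball τ hτ
        rw [abs_le] at e3
        refine ⟨?_, ?_, ?_, ?_⟩
        · linarith [e3.1]
        · linarith [e3.2]
        · linarith
        · linarith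
      obtain ⟨σ', hσ', hG1, hG2⟩ := G_solve hg hν0 hη0 hηh h0B hsub
      have hval : (p (j + 1)).2 = σ' := by
        rw [hp j hjm]
        change Function.invFunOn G (Bx s1 s2) (G (p j).2 + ell (p j).1) = σ'
        rw [hj2, add_assoc, ← hWs]
        exact hG2
      have hval1 : (p (j + 1)).1 = (p j).1 + g σ' := by
        have e1 : (p (j + 1)).1 = (p j).1 + g (p (j + 1)).2 := by
          rw [hp j hjm]
          rfl
        rw [e1, hval]
      have hσB := hsub hσ'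
      obtain ⟨b1', b2', b3'⟩ := hball σ' hσ'
      refine ⟨by rw [hval]; exact hσB, by rw [hval]; exact hG1, ?_, by rw [hval]; exact b1'.le,
        by rw [hval]; exact b2'.le, by rw [hval]; exact b3'⟩
      have hgν : ‖g σ' - 1 / ν‖ ≤ η / ν := by
        have e1 := hg.gc σ' hσB
        have e2 : g σ' - 1 / ν = (ν * g σ' - 1) / ν := by
          field_simp
        rw [e2, norm_div, Complex.norm_real, Real.norm_eq_abs, abs_of_pos hν0]
        exact div_le_div_of_nonneg_right e1 hν0.le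
      have e3 : (p (j + 1)).1 - ((z - (m:ℂ) + ((j + 1 : ℕ):ℂ)) / ν - 1 / 2) =
          ((p j).1 - ((z - (m:ℂ) + (j:ℂ)) / ν - 1 / 2)) + (g σ' - 1 / ν) := by
        rw [hval1]
        push_cast
        field_simp
        ring
      rw [e3]
      refine (norm_add_le _ _).trans ?_
      push_cast
      linarith
  intro i him
  obtain ⟨h1, h2, h3, h4, h5, h6⟩ := key i him
  refine ⟨h1, ?_, h3.trans ?_, h4, h5, h6⟩
  · intro l hl
    obtain ⟨-, e1, -⟩ := key l (hl.le.trans him)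
    obtain ⟨-, e2, -⟩ := key (l + 1) (hl.trans_le him)
    rw [e1, e2, hWs]
    ring
  · have hlm : (i:ℝ) ≤ m := by exact_mod_cast him
    have : (i:ℝ) * (η / ν) ≤ m * (η / ν) :=
      mul_le_mul_of_nonneg_right hlm (by positivity)
    linarith

end Pool.Agent.MP_ae5b4e_an_N4
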