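import Pool.Agent.Lib.MP_ae5b4e_an_N4.LfD
import Pool.Agent.Lib.MP_ae5b4e_an_N4.ColL
import Pool.Agent.Lib.MP_ae5b4e_an_N4.Seq
import Pool.Agent.Lib.MP_ae5b4e_an_N4.Drv
import Pool.Agent.Lib.MP_ae5b4e_an_N4.StA

/-!
# N4, module LfA: the left zone, continuation step

`left_step`.  Let `z ∈ Zn k X (X' + 1 / 2)`.  If `z.re ≤ - X`: `start_good` (`e6 k ≤ k`).
Otherwise let `m = nst X z ≥ 1` (so `- X - 1 < z.re - m ≤ - X`, `m ≤ X + k` because `z.re ≤ 0`) and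
`p i := O (z - (m - i), ρ₀)`, `i ≤ m`, `q i := (deriv (fun w => (O (w, ρ₀)).1) (z - (m - i)),
deriv (fun w => (O (w, ρ₀)).2) (z - (m - i)))`.  For `i < m` put `j = m - i ≥ 1`: the node
`z - j ∈ Zn k X (X' + 1 / 2 - j)`, has real part `≤ X' - 1 / 2 < X'`, is good and `s ≠ -1`; `low_bd`:
`min j (e6 k) / (4 ν) ≤ ‖(p i).1 + 1‖`.
(1) LABEL.  `seq_main` with `ell = ellp`, `θ = arg ρ₀`, `lr = log (X ‖ρ₀‖)`, `c1 = - 1 / 15000`, `c2 = 1 / 15000`:
start by `start_good` for `z - m`; `hp` is `Chn.step` (`-X < (z - (m - i - 1)).re` for `i < m`; the state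
before is `O (z - (m - i), ρ₀) = p i`).  `hW i`: `col_left` for the column of the point
`z_i = z - (m - i)`: number of nodes `i`, nodes `a j := (p (i - j)).1 + 1`, `1 ≤ j ≤ i`,
`x0 = (z_i).re / ν + 1 / 2`, `y = z.im / ν`: `x0 ≤ (X' + 1 / 2) / ν + 1 / 2 ≤ 3 δ + 1 / (2 ν)` by `hX2`,
`|y| ≤ e6 k / ν ≤ e6`; `ha` from the hypothesis of `hW`; lower bounds: the node `p (i - j)` is
`z - (m - i + j)`, so `‖a j‖ ≥ min (m - i + j) (e6 k) / (4 ν) ≥ min j (e6 k) / (4 ν)`.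
(`∑_{l < i} ellp (p l).1 = ∑_{j = 1}^{i} ellp (a j - 1)`: reindex `l = i - j`; the norm of the sum is at most the
sum of the norms.)  Conclusions for `i = m`: `GdZ.im` (`1 / 15000 + 10 ^ (-8) ≤ 1 / 10000`), `re`, `s`; the
labels of all nodes and of `z` are in the box and `G (p (i+1)).2 = G (p i).2 + ellp (p i).1`.
(2) ANALYTICITY.  `step_an` at the point `z`: `O` is analytic at `(z - 1, ρ₀)` (good); `Chn.step` holds
near `(z, ρ₀)` since `-X < z.re` is an open condition; `ellp` is analytic at `s = (O (z - 1, ρ₀)).1` by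
`re_neg` and `ellp_an`.
(3) DERIVATIVES.  `step_an` at all the points `z - (m - i - 1)`, `i < m` (their predecessors are good,
the label relation is in (1)) gives `hd1`, `hd2` of `seq_drv`, with
`deriv ellp s = - (s (s + 1))⁻¹` (`ellp_deriv`, `re_neg`); `h0`, `h0'` are `Chn.sds`, `sdl` at `z - m`;
`hs`: `Re (p i).1 ≤ - 1 + x0 + 2 δ ≤ - 9 / 10`.  `seq_drv` at `i = m` gives `GdZ.ds`, `GdZ.dl`.
-/

set_option autoImplicit false

noncomputable section

namespace Pool.Agent.MP_ae5b4e_an_N4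

open Complex Set Filter Topology Metric

private theorem LfA_reidx {M : Type} [AddCommMonoid M] (i : ℕ) (f : ℕ → M) :
    ∑ j ∈ Finset.Icc 1 i, f (i - j) = ∑ l ∈ Finset.range i, f l := by
  refine Finset.sum_nbij' (fun j => i - j) (fun l => i - l) ?_ ?_ ?_ ?_ ?_
  · intro j hj
    have := Finset.mem_Icc.1 hj
    exact Finset.mem_range.2 (by omega)
  · intro j hj
    have := Finset.mem_range.1 hj
    exact Finset.mem_Icc.2 (by omega)
  · intro j hj
    have := Finset.mem_Icc.1 hj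
    show i - (i - j) = j
    omega
  · intro j hj
    have := Finset.mem_range.1 hj
    show i - (i - j) = j
    omega
  · intro j _
    rfl

/-- positivity of the parameters -/
private theorem LfA_par {k ν X δ η Dl : ℝ} (hP : Par k ν X δ η Dl) :
    1 ≤ k ∧ 0 < ν ∧ k ≤ ν ∧ 1 ≤ X ∧ 0 < X ∧ η < 1 := by
  have h1 := hP.hk
  have h2 : (1:ℝ) ≤ 10 ^ 20 := by norm_num
  have hk1 : 1 ≤ k := h2.trans h1
  have h3 := hP.ν1
  have h4 := hP.hX
  have hX1 : 1 ≤ X := by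
    have : (1:ℝ) ≤ 10 ^ 10 * k := by nlinarith [(by norm_num : (1:ℝ) ≤ 10 ^ 10)]
    linarith
  refine ⟨hk1, by linarith, by linarith, hX1, by linarith, ?_⟩
  have h5 := hP.η1
  have h6 : 1 ≤ (X / k) ^ 2 * 10 ^ 14 := by
    have h7 : 1 ≤ X / k := by
      rw [le_div_iff₀ (by linarith)]
      nlinarith [(by norm_num : (1:ℝ) ≤ 10 ^ 10)]
    nlinarith [(by norm_num : (1:ℝ) ≤ 10 ^ 14)]
  have h8 := hP.η0
  have h9 : η ≤ η * ((X / k) ^ 2 * 10 ^ 14) := le_mul_of_one_le_right h8 h6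
  have h10 := hP.δ1
  have h11 : (1:ℝ) / 10 ^ 12 < 1 := by norm_num
  rw [mul_assoc] at h5
  linarith

private theorem LfA_col {k ν X δ η Dl : ℝ} (hP : Par k ν X δ η Dl) {i m : ℕ} (him : i ≤ m)
    {z : ℂ} {p : ℕ → ℂ × ℂ} (hm : (m:ℝ) ≤ X + k)
    (hre : z.re ≤ -(ν / 2) + 3 * δ * ν + 1 / 2) (hzi : |z.im| ≤ e6 * k)
    (hl : ∀ l < m, min ((m - l : ℕ) : ℝ) (e6 * k) / (4 * ν) ≤ ‖(p l).1 + 1‖)
    (h : ∀ l < i, ‖(p l).1 - ((z - (m:ℂ) + (l:ℂ)) / ν - 1 / 2)‖ ≤ 2 * δ) :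
    ‖∑ l ∈ Finset.range i, ellp (p l).1‖ ≤ (X / k + 200) * ν ∧
      -(1 / 15000) * ν ≤ (∑ l ∈ Finset.range i, ellp (p l).1).im ∧
      (∑ l ∈ Finset.range i, ellp (p l).1).im ≤ 1 / 15000 * ν := by
  obtain ⟨hk1, hν, hkν, hX1, hX0, -⟩ := LfA_par hP
  have himr : (i:ℝ) ≤ m := by exact_mod_cast him
  have hνC : (ν:ℂ) ≠ 0 := by exact_mod_cast hν.ne'
  have h1 := col_left hP (m := i) (x0 := (z.re - m + i) / ν + 1 / 2) (y := z.im / ν)
    (a := fun j => (p (i - j)).1 + 1) (himr.trans hm) (by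
      have h2 : (z.re - m + i) / ν ≤ (-(ν / 2) + 3 * δ * ν + 1 / 2) / ν :=
        (div_le_div_iff_of_pos_right hν).2 (by linarith)
      have h3 : (-(ν / 2) + 3 * δ * ν + 1 / 2) / ν = -(1 / 2) + 3 * δ + 1 / 2 * (1 / ν) := by
        field_simp
      have h4 : 0 < 1 / ν := by positivity
      have h5 := hP.δ0
      linarith) (by
      rw [abs_div, abs_of_pos hν, div_le_iff₀ hν]
      have h2 : (0:ℝ) < e6 := by
        unfold e6
        norm_num
      nlinarith) (by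
      intro j hj
      obtain ⟨hj1, hj2⟩ := Finset.mem_Icc.1 hj
      have h2 := h (i - j) (by omega)
      have h3 : (((i - j : ℕ) : ℕ) : ℂ) = (i:ℂ) - (j:ℂ) := by
        rw [Nat.cast_sub hj2]
      have h4 : ((((z.re - m + i) / ν + 1 / 2 - (j:ℝ) / ν : ℝ) : ℂ) + ((z.im / ν : ℝ) : ℂ) * I) =
          ((z - (m:ℂ) + ((i - j : ℕ) : ℂ)) / ν - 1 / 2) + 1 := by
        rw [h3]
        conv_rhs => rw [← Complex.re_add_im z]
        push_cast
        field_simp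
        ring
      show ‖(p (i - j)).1 + 1 - _‖ ≤ 2 * δ
      rw [h4]
      have h5 : (p (i - j)).1 + 1 - ((z - (m:ℂ) + ((i - j : ℕ) : ℂ)) / ν - 1 / 2 + 1) =
          (p (i - j)).1 - ((z - (m:ℂ) + ((i - j : ℕ) : ℂ)) / ν - 1 / 2) := by ring
      rw [h5]
      exact h2) (by
      intro j hj
      obtain ⟨hj1, hj2⟩ := Finset.mem_Icc.1 hj
      refine le_trans ?_ (hl (i - j) (by omega))
      have h2 : (j:ℝ) ≤ ((m - (i - j) : ℕ) : ℝ) := by
        exact_mod_cast (by omega : j ≤ m - (i - j))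
      gcongr)
  have e1 : ∑ j ∈ Finset.Icc 1 i, ‖ellp ((p (i - j)).1 + 1 - 1)‖ =
      ∑ l ∈ Finset.range i, ‖ellp (p l).1‖ := by
    rw [← LfA_reidx i fun l => ‖ellp (p l).1‖]
    refine Finset.sum_congr rfl fun j _ => ?_
    rw [add_sub_cancel_right]
  have e2 : ∑ j ∈ Finset.Icc 1 i, (ellp ((p (i - j)).1 + 1 - 1)).im =
      (∑ l ∈ Finset.range i, ellp (p l).1).im := by
    rw [Complex.im_sum, ← LfA_reidx i fun l => (ellp (p l).1).im]
    refine Finset.sum_congr rfl fun j _ => ?_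
    rw [add_sub_cancel_right]
  rw [e1, e2] at h1
  obtain ⟨h2, h3⟩ := h1
  refine ⟨(norm_sum_le _ _).trans h2, ?_, ?_⟩
  · have := (abs_le.1 h3).1
    linarith
  · have := (abs_le.1 h3).2
    linarith

theorem left_step {k ν X δ η Dl s1 s2 : ℝ} {G n g : ℂ → ℂ} {O : ℂ × ℂ → ℂ × ℂ} {ρ₀ : ℂ}
    (hC : Chn k ν X δ η Dl s1 s2 G n g ellp O ρ₀) {X' : ℝ} (hX1 : -X ≤ X')
    (hX2 : X' ≤ -(ν / 2) + 3 * δ * ν)
    (h : ∀ z ∈ Zn k X X', z.re < X' → GdZ k ν X δ O ρ₀ z ∧ (O (z, ρ₀)).1 ≠ -1) :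
    ∀ z ∈ Zn k X (X' + 1 / 2), GdZ k ν X δ O ρ₀ z := by
  have hP := hC.par
  obtain ⟨hk1, hν, hkν, hX01, hX0, hη1⟩ := LfA_par hP
  have he6 : e6 = 1 / 10 ^ 10 := rfl
  have he0 : 0 < e6 := by
    rw [he6]
    norm_num
  have he1 : e6 * k ≤ k := by
    have : e6 ≤ 1 := by
      rw [he6]
      norm_num
    nlinarith
  have hδ0 := hP.δ0
  have hδ1 := hP.δ1
  intro z hz
  obtain ⟨z1, z2, z3⟩ := hz
  rcases le_or_gt z.re (-X) with hlt | hlt
  · exact (start_good hC z1 hlt (z3.trans he1)).1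
  -- the number of steps
  obtain ⟨m, hm1, hm2, hm3⟩ : ∃ m : ℕ, 1 ≤ m ∧ z.re + X ≤ m ∧ (m:ℝ) < z.re + X + 1 :=
    ⟨⌈z.re + X⌉₊, Nat.one_le_iff_ne_zero.2 (Nat.ceil_pos.2 (by linarith)).ne', Nat.le_ceil _,
      Nat.ceil_lt_add_one (by linarith)⟩
  have hνδ : 3 * δ * ν ≤ ν / 4 := by nlinarith [(by norm_num : (1:ℝ) / 10 ^ 12 ≤ 1 / 100)]
  have hmX : (m:ℝ) ≤ X + k := by
    have := hP.ν1
    linarith
  -- the nodes
  obtain ⟨zi, hzi⟩ : ∃ zi : ℕ → ℂ, ∀ i, zi i = z - (m:ℂ) + (i:ℂ) := ⟨_, fun _ => rfl⟩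
  have hzre : ∀ i, (zi i).re = z.re - m + i := by
    intro i
    rw [hzi]
    simp
  have hzim : ∀ i, (zi i).im = z.im := by
    intro i
    rw [hzi]
    simp
  have hz0 : zi 0 = z - (m:ℂ) := by rw [hzi]; simp
  have hzm : zi m = z := by rw [hzi]; ring
  have hzs : ∀ i, zi (i + 1) - 1 = zi i := by
    intro i
    rw [hzi, hzi]
    push_cast
    ring
  obtain ⟨p, hp⟩ : ∃ p : ℕ → ℂ × ℂ, ∀ i, p i = O (zi i, ρ₀) := ⟨_, fun _ => rfl⟩
  have hnode : ∀ i < m, zi i ∈ Zn k X (X' + 1 / 2 - ((m - i : ℕ) : ℝ)) := by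
    intro i hi
    have hir : (0:ℝ) ≤ i := Nat.cast_nonneg i
    refine ⟨?_, ?_, ?_⟩
    · rw [hzre]
      linarith
    · rw [hzre, Nat.cast_sub hi.le]
      linarith
    · rw [hzim]
      exact z3
  have hmi : ∀ i < m, (1:ℝ) ≤ ((m - i : ℕ) : ℝ) := by
    intro i hi
    exact_mod_cast (by omega : 1 ≤ m - i)
  have hnode' : ∀ i < m, zi i ∈ Zn k X X' ∧ (zi i).re < X' := by
    intro i hi
    obtain ⟨h1, h2, h3⟩ := hnode i hi
    have h4 := hmi i hi
    exact ⟨⟨h1, by linarith, h3⟩, by linarith⟩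
  have hgood : ∀ i < m, GdZ k ν X δ O ρ₀ (zi i) ∧ (O (zi i, ρ₀)).1 ≠ -1 := fun i hi =>
    h _ (hnode' i hi).1 (hnode' i hi).2
  have hlow : ∀ l < m, min ((m - l : ℕ) : ℝ) (e6 * k) / (4 * ν) ≤ ‖(p l).1 + 1‖ := by
    intro l hl
    rw [hp]
    exact low_bd hC h (by omega) (hnode l hl)
  -- the start
  have hs1 : -X - 1 ≤ (zi 0).re := by
    rw [hzre]
    push_cast
    linarith
  have hs2 : (zi 0).re ≤ -X := by
    rw [hzre]
    push_cast
    linarith
  have hs3 : |(zi 0).im| ≤ k := by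
    rw [hzim]
    exact z3.trans he1
  obtain ⟨-, st1, st2, -⟩ := start_good hC hs1 hs2 hs3
  have hstep : ∀ i < m, -X < (zi (i + 1)).re := by
    intro i _
    have hir : (0:ℝ) ≤ i := Nat.cast_nonneg i
    rw [hzre]
    push_cast
    linarith
  -- the labels
  have S := seq_main hP hC.gd (ell := ellp) (m := m) (p := p) (z := z) (θ := arg ρ₀)
    (lr := Real.log (X * ‖ρ₀‖)) (c1 := -(1 / 15000)) (c2 := 1 / 15000) hmX hC.b1 hC.b2
    (by norm_num) (by norm_num) (by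
      have h1 := hC.th1
      unfold ph2 at h1
      unfold aa
      norm_num at h1 ⊢
      linarith) (by
      have h1 := hC.th2
      unfold ph2 at h1
      unfold aa
      norm_num at h1 ⊢
      linarith) (by
      have h1 := hC.ss (zi 0) hs1 hs2 hs3
      rw [hp, ← hz0]
      exact h1) (by rw [hp]; exact st1) (by rw [hp]; exact st2) (by
      intro i hi
      rw [hp, hp, ← hzs i]
      exact hC.step _ (hstep i hi) ρ₀) (by
      intro i hi hW
      exact LfA_col hP hi hmX (by linarith) z3 hlow fun l hl => (hW l hl).1)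
  have hBx : ∀ i ≤ m, (p i).2 ∈ Bx s1 s2 := fun i hi => (S i hi).1
  have hGr : ∀ i < m, G (p (i + 1)).2 = G (p i).2 + ellp (p i).1 := fun i hi =>
    (S m le_rfl).2.1 i hi
  have haff : ∀ i ≤ m, ‖(p i).1 - (zi i / ν - 1 / 2)‖ ≤ 2 * δ := fun i hi => by
    rw [hzi]
    exact (S i hi).2.2.1
  have hneg : ∀ i < m, (O (zi i, ρ₀)).1.re < -1 ∨ (O (zi i, ρ₀)).1.im ≠ 0 := fun i hi =>
    re_neg hC hX2 h (hnode' i hi).1 (hnode' i hi).2
  -- one step
  have hA : ∀ i < m, AnalyticAt ℂ O (zi (i + 1), ρ₀) ∧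
      n (O (zi (i + 1), ρ₀)).2 * deriv (fun w => (O (w, ρ₀)).2) (zi (i + 1)) =
        n (O (zi i, ρ₀)).2 * deriv (fun w => (O (w, ρ₀)).2) (zi i) +
          deriv ellp (O (zi i, ρ₀)).1 * deriv (fun w => (O (w, ρ₀)).1) (zi i) ∧
      deriv (fun w => (O (w, ρ₀)).1) (zi (i + 1)) = deriv (fun w => (O (w, ρ₀)).1) (zi i) +
        deriv g (O (zi (i + 1), ρ₀)).2 * deriv (fun w => (O (w, ρ₀)).2) (zi (i + 1)) := by
    intro i hi
    have h1 := step_an (z := zi (i + 1)) (ρ₀ := ρ₀) (O := O) (ell := ellp) hC.gd hν hη1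
      (by rw [hzs]; exact (hgood i hi).1.an)
      (by
        have h2 : ∀ᶠ q : ℂ × ℂ in 𝓝 (zi (i + 1), ρ₀), -X < q.1.re := by
          have h3 : Continuous fun q : ℂ × ℂ => q.1.re := by fun_prop
          exact h3.continuousAt.eventually (lt_mem_nhds (hstep i hi))
        filter_upwards [h2] with q hq
        exact hC.step q.1 hq q.2)
      (by
        rw [hzs]
        refine ellp_an ?_
        rcases hneg i hi with h2 | h2
        · exact Or.inl h2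
        · exact Or.inr (Or.inl h2))
      (by rw [hzs, ← hp]; exact hBx i hi.le)
      (by rw [← hp]; exact hBx (i + 1) hi)
      (by rw [hzs, ← hp, ← hp]; exact hGr i hi)
    rwa [hzs] at h1
  -- the derivatives
  obtain ⟨q, hq⟩ : ∃ q : ℕ → ℂ × ℂ, ∀ i, q i = (deriv (fun w => (O (w, ρ₀)).1) (zi i),
      deriv (fun w => (O (w, ρ₀)).2) (zi i)) := ⟨_, fun _ => rfl⟩
  have D := seq_drv hP hC.gd (m := m) (p := p) (q := q) hmX hBx (by
      intro i hi
      rw [hp, hp, hq, hq]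
      have h1 := (hA i hi).2.1
      have h2 : deriv ellp (O (zi i, ρ₀)).1 =
          -((O (zi i, ρ₀)).1 * ((O (zi i, ρ₀)).1 + 1))⁻¹ := by
        refine (ellp_deriv ?_).deriv
        rcases hneg i hi with h2 | h2
        · exact Or.inl h2
        · exact Or.inr (Or.inl h2)
      rw [h2] at h1
      show n (O (zi (i + 1), ρ₀)).2 * deriv (fun w => (O (w, ρ₀)).2) (zi (i + 1)) =
        n (O (zi i, ρ₀)).2 * deriv (fun w => (O (w, ρ₀)).2) (zi i) -
          deriv (fun w => (O (w, ρ₀)).1) (zi i) /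
            ((O (zi i, ρ₀)).1 * ((O (zi i, ρ₀)).1 + 1))
      rw [h1]
      ring) (by
      intro i hi
      rw [hp, hq, hq]
      exact (hA i hi).2.2) (by
      rw [hq]
      exact hC.sds (zi 0) hs1 hs2 hs3) (by
      rw [hq]
      exact hC.sdl (zi 0) hs1 hs2 hs3) hlow (by
      intro i hi
      have h1 := haff i hi.le
      have h2 := (hnode' i hi).2
      have h3 : ((p i).1 - (zi i / ν - 1 / 2)).re = (p i).1.re - ((zi i).re / ν - 1 / 2) := by
        rw [Complex.sub_re, Complex.sub_re, Complex.div_ofReal_re]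
        norm_num
      have h4 : (p i).1.re - ((zi i).re / ν - 1 / 2) ≤ 2 * δ := by
        rw [← h3]
        exact (Complex.re_le_norm _).trans h1
      have h5 : (zi i).re / ν ≤ (-(ν / 2) + 3 * δ * ν) / ν :=
        (div_le_div_iff_of_pos_right hν).2 (by linarith)
      have h6 : (-(ν / 2) + 3 * δ * ν) / ν = -(1 / 2) + 3 * δ := by
        field_simp
      have h7 : (p i).1.re ≤ -(9 / 10) := by
        have : δ ≤ 1 / 100 := hδ1.trans (by norm_num)
        linarith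
      have h8 := Complex.abs_re_le_norm (p i).1
      have h9 : 9 / 10 ≤ |(p i).1.re| := by
        rw [abs_of_neg (by linarith)]
        linarith
      exact h9.trans h8)
  -- the conclusion
  obtain ⟨-, -, c3, c4, c5, c6⟩ := S m le_rfl
  obtain ⟨d1, d2⟩ := D m le_rfl
  rw [hq, hzm] at d1 d2
  rw [hp, hzm] at c3 c4 c5 c6
  obtain ⟨m', rfl⟩ : ∃ m', m = m' + 1 := ⟨m - 1, by omega⟩
  have an := (hA m' (by omega)).1
  rw [hzm] at an
  refine ⟨an, ?_, ?_, ?_, d1, d2⟩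
  · rw [abs_le]
    constructor
    · norm_num at c4 ⊢
      linarith
    · norm_num at c5 ⊢
      linarith
  · exact c6.trans (by linarith)
  · have h1 : z - ((m' + 1 : ℕ) : ℂ) + ((m' + 1 : ℕ) : ℂ) = z := by ring
    rwa [h1] at c3

end Pool.Agent.MP_ae5b4e_an_N4
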