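import Pool.Agent.Lib.MP_ae5b4e_an_N4.LfA

/-!
# N4, module LfB: existence of the zero `z₁`

`zero_ex`: if all points of `Zn k X X'` with real part `< X'` are good, and
`X' > - ν / 2 + 29 / 10 δ ν`, then `s = -1` at one of them: with `c = - ν / 2` (real),
`r = 29 / 10 δ ν`: `closedBall c r ⊆ {z ∈ Zn k X X' | z.re < X'}` (`29 / 10 δ ν ≤ 3 · 10 ^ (-12) · (2 k + 1) ≤ e6 k`;
`c - r > - X - 1`), `‖s c + 1‖ ≤ 2 δ` (`GdZ.s`: `c / ν - 1 / 2 = -1`), `near_inv` with `s_aff`: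
`closedBall (s c) (49 / 50 · 29 / 10 δ) ⊆ s '' closedBall c r`, `49 / 50 · 29 / 10 > 2`.

`left_zone`.  For `i : ℕ` let `X_i = - X + i / 2`; statement `P i`: all points of `Zn k X X_i` are good
and `s ≠ -1` there.  `P 0`: `start_good`.  `P i` fails for `X_i > - ν / 2 + 29 / 10 δ ν` (`zero_ex`).  Let `i ≥ 1`
be minimal such that `P i` fails.  `P (i - 1)` holds, so `X_{i-1} ≤ - ν / 2 + 29 / 10 δ ν`, and
`left_step` with `X' = X_{i-1}`: all points of `Zn k X X_i` are good.  So there is `z₁ ∈ Zn k X X_i` with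
`s z₁ = -1`; it is the only one (`s_aff` on the convex set `Zn k X X_i`: `s` is injective), and
`X_{i-1} < z₁.re ≤ X_i`.
With `X' = z₁.re`: the points of `Zn k X z₁.re` with real part `< z₁.re` are good and not zeros; so
`z₁.re ≤ - ν / 2 + 29 / 10 δ ν` (`zero_ex`) and `left_step` applies: all points of
`Zn k X (z₁.re + 1 / 2)` are good; `uniq`: `s_aff` on `Zn k X (z₁.re + 1 / 2)`.  `near`: `GdZ.s` at `z₁`:
`‖- 1 - (z₁ / ν - 1 / 2)‖ ≤ 2 δ`.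
-/

set_option autoImplicit false

noncomputable section

namespace Pool.Agent.MP_ae5b4e_an_N4

open Complex Set Filter Topology Metric

theorem zero_ex {k ν X δ η Dl s1 s2 : ℝ} {G n g ell : ℂ → ℂ} {O : ℂ × ℂ → ℂ × ℂ} {ρ₀ : ℂ}
    (hC : Chn k ν X δ η Dl s1 s2 G n g ell O ρ₀) {X' : ℝ} (hX : -(ν / 2) + 29 / 10 * δ * ν < X')
    (h : ∀ z ∈ Zn k X X', z.re < X' → GdZ k ν X δ O ρ₀ z) :
    ∃ z ∈ Zn k X X', z.re < X' ∧ (O (z, ρ₀)).1 = -1 := by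
  have hp := hC.par
  have hk := hp.hk
  have hν1 := hp.ν1
  have hν2 := hp.ν2
  have hXk := hp.hX
  have hδ0 := hp.δ0
  have hδ1 := hp.δ1
  have hν : 0 < ν := by linarith
  have hδν : δ * ν ≤ 1 / 10 ^ 12 * (2 * k + 1) :=
    mul_le_mul hδ1 hν2 hν.le (by norm_num)
  have hδν0 : 0 < δ * ν := mul_pos hδ0 hν
  obtain ⟨r, hr⟩ : ∃ r : ℝ, r = 29 / 10 * δ * ν := ⟨_, rfl⟩
  have hr0 : 0 < r := by
    rw [hr]
    positivity
  have hr1 : r ≤ e6 * k := by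
    rw [hr]
    unfold e6
    linarith
  have hr2 : ν / 2 + r ≤ X + 1 := by
    rw [hr]
    linarith
  obtain ⟨c, hc⟩ : ∃ c : ℂ, c = ((-(ν / 2) : ℝ) : ℂ) := ⟨_, rfl⟩
  have hcre : c.re = -(ν / 2) := by rw [hc, Complex.ofReal_re]
  have hcim : c.im = 0 := by rw [hc, Complex.ofReal_im]
  have hS : Convex ℝ (Zn k X X' ∩ {z : ℂ | z.re < X'}) :=
    (zn_convex k X X').inter (convex_halfSpace_re_lt X')
  have hSg : ∀ z ∈ Zn k X X' ∩ {z : ℂ | z.re < X'}, GdZ k ν X δ O ρ₀ z :=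
    fun z hz => h z hz.1 hz.2
  have hsub : ∀ z ∈ closedBall c r, z ∈ Zn k X X' ∩ {z : ℂ | z.re < X'} := by
    intro z hz
    rw [mem_closedBall, dist_eq_norm] at hz
    have h1 := (Complex.abs_re_le_norm (z - c)).trans hz
    have h2 := (Complex.abs_im_le_norm (z - c)).trans hz
    rw [Complex.sub_re, hcre, abs_le] at h1
    rw [Complex.sub_im, hcim, sub_zero] at h2
    have h3 : z.re < X' := by
      rw [hr] at h1
      linarith [h1.2]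
    exact ⟨⟨by linarith [h1.1], h3.le, h2.trans hr1⟩, h3⟩
  have hna : ‖(1 / (ν : ℂ))‖ = 1 / ν := by
    rw [norm_div, norm_one, Complex.norm_real, Real.norm_eq_abs, abs_of_pos hν]
  have hν0 : (ν : ℂ) ≠ 0 := by exact_mod_cast hν.ne'
  have hinv := near_inv (f := fun w => (O (w, ρ₀)).1) (c := c) (a := 1 / (ν : ℂ)) (r := r)
    (κ := 1 / 50) hr0.le (one_div_ne_zero hν0) (by norm_num) (by norm_num)
    (fun z hz w hw => by
      rw [hna]
      exact s_aff hν hS hSg (hsub z hz) (hsub w hw))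
  have hgc := (hSg c (hsub c (mem_closedBall_self hr0.le))).s
  have hcν : c / ν - 1 / 2 = -1 := by
    rw [hc]
    push_cast
    field_simp
    ring
  rw [hcν] at hgc
  have hmem : (-1 : ℂ) ∈ closedBall ((fun w => (O (w, ρ₀)).1) c)
      ((1 - 1 / 50) * ‖(1 / (ν : ℂ))‖ * r) := by
    rw [mem_closedBall, dist_comm, dist_eq_norm, hna]
    refine hgc.trans ?_
    rw [hr]
    have e : (1 - 1 / 50 : ℝ) * (1 / ν) * (29 / 10 * δ * ν) = 1421 / 500 * δ := by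
      field_simp
      ring
    rw [e]
    linarith
  obtain ⟨z, hz, hz1⟩ := hinv hmem
  have h1 := hsub z hz
  exact ⟨z, h1.1, h1.2, hz1⟩

theorem left_zone {k ν X δ η Dl s1 s2 : ℝ} {G n g : ℂ → ℂ} {O : ℂ × ℂ → ℂ × ℂ} {ρ₀ : ℂ}
    (hC : Chn k ν X δ η Dl s1 s2 G n g ellp O ρ₀) : ∃ z₁ : ℂ, IsZ1 k ν X δ O ρ₀ z₁ := by
  classical
  have hp := hC.par
  have hk := hp.hk
  have hν1 := hp.ν1
  have hδ0 := hp.δ0
  have hν : 0 < ν := by linarith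
  have hδν0 : 0 < δ * ν := mul_pos hδ0 hν
  have hk0 : 0 < k := by linarith
  have hν0 : (ν : ℂ) ≠ 0 := by exact_mod_cast hν.ne'
  -- monotonicity of the zones
  have hmono : ∀ {a b : ℝ}, a ≤ b → ∀ z ∈ Zn k X a, z ∈ Zn k X b :=
    fun hab z hz => ⟨hz.1, hz.2.1.trans hab, hz.2.2⟩
  -- injectivity
  have hinj : ∀ {a : ℝ}, (∀ z ∈ Zn k X a, GdZ k ν X δ O ρ₀ z) → ∀ z ∈ Zn k X a,
      ∀ w ∈ Zn k X a, (O (z, ρ₀)).1 = (O (w, ρ₀)).1 → z = w := by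
    intro a ha z hz w hw hzw
    have h1 := s_aff hν (zn_convex k X a) ha hz hw
    rw [hzw, sub_self, zero_sub, norm_neg, norm_mul] at h1
    have hna : ‖(1 / (ν : ℂ))‖ = 1 / ν := by
      rw [norm_div, norm_one, Complex.norm_real, Real.norm_eq_abs, abs_of_pos hν]
    rw [hna] at h1
    have h2 : 0 < 1 / ν := by positivity
    have h3 := norm_nonneg (z - w)
    have h4 : 1 / ν * ‖z - w‖ ≤ 0 := by nlinarith
    have h5 : ‖z - w‖ = 0 := by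
      by_contra hne
      have h6 : 0 < ‖z - w‖ := lt_of_le_of_ne h3 (Ne.symm hne)
      exact absurd h4 (not_le.2 (mul_pos h2 h6))
    exact sub_eq_zero.1 (norm_eq_zero.1 h5)
  obtain ⟨P, hP⟩ : ∃ P : ℕ → Prop, ∀ i, P i ↔ ∀ z ∈ Zn k X (-X + i / 2),
      GdZ k ν X δ O ρ₀ z ∧ (O (z, ρ₀)).1 ≠ -1 := ⟨_, fun i => Iff.rfl⟩
  have hP0 : P 0 := by
    rw [hP]
    intro z hz
    have h1 : z.re ≤ -X := by
      have := hz.2.1
      simpa using this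
    have h2 : |z.im| ≤ k := by
      refine hz.2.2.trans ?_
      unfold e6
      linarith
    have h3 := start_good hC hz.1 h1 h2
    refine ⟨h3.1, fun h4 => ?_⟩
    have h5 := h3.2.2.2
    rw [h4] at h5
    norm_num at h5
  have hex : ∃ i, ¬ P i := by
    obtain ⟨i, hi⟩ := exists_nat_gt (2 * (-(ν / 2) + 29 / 10 * δ * ν + X))
    refine ⟨i, fun hPi => ?_⟩
    rw [hP] at hPi
    obtain ⟨z, hz, -, hz1⟩ := zero_ex hC (X' := -X + i / 2) (by linarith)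
      (fun z hz _ => (hPi z hz).1)
    exact (hPi z hz).2 hz1
  obtain ⟨i, hi, hmin⟩ : ∃ i, ¬ P i ∧ ∀ j < i, P j :=
    ⟨Nat.find hex, Nat.find_spec hex, fun j hj => not_not.1 (Nat.find_min hex hj)⟩
  have hi1 : i ≠ 0 := by
    rintro rfl
    exact hi hP0
  obtain ⟨j, rfl⟩ := Nat.exists_eq_succ_of_ne_zero hi1
  have hPj := (hP j).1 (hmin j (Nat.lt_succ_self j))
  obtain ⟨Xm, hXm⟩ : ∃ Xm : ℝ, Xm = -X + (j : ℝ) / 2 := ⟨_, rfl⟩
  rw [← hXm] at hPj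
  have hXi : -X + ((j.succ : ℕ) : ℝ) / 2 = Xm + 1 / 2 := by
    rw [hXm]
    push_cast
    ring
  have hXm0 : -X ≤ Xm := by
    rw [hXm]
    have : (0 : ℝ) ≤ j := Nat.cast_nonneg j
    linarith
  have hXm1 : Xm ≤ -(ν / 2) + 29 / 10 * δ * ν := by
    by_contra hcon
    push Not at hcon
    obtain ⟨z, hz, -, hz1⟩ := zero_ex hC hcon (fun z hz _ => (hPj z hz).1)
    exact (hPj z hz).2 hz1
  have hgi := left_step hC hXm0 (by linarith) (fun z hz _ => hPj z hz)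
  obtain ⟨z₁, hz₁, hz₁1⟩ : ∃ z₁ ∈ Zn k X (Xm + 1 / 2), (O (z₁, ρ₀)).1 = -1 := by
    by_contra hcon
    push Not at hcon
    refine hi ((hP _).2 fun z hz => ?_)
    rw [hXi] at hz
    exact ⟨hgi z hz, hcon z hz⟩
  have hz₁m : Xm < z₁.re := by
    by_contra hcon
    push Not at hcon
    exact (hPj z₁ ⟨hz₁.1, hcon, hz₁.2.2⟩).2 hz₁1
  have hzz : ∀ z ∈ Zn k X z₁.re, z.re < z₁.re → GdZ k ν X δ O ρ₀ z ∧ (O (z, ρ₀)).1 ≠ -1 := by
    intro z hz hzlt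
    have h1 := hmono hz₁.2.1 z hz
    refine ⟨hgi z h1, fun h2 => ?_⟩
    have h3 := hinj hgi z h1 z₁ hz₁ (h2.trans hz₁1.symm)
    rw [h3] at hzlt
    exact lt_irrefl _ hzlt
  have hz₁2 : z₁.re ≤ -(ν / 2) + 29 / 10 * δ * ν := by
    by_contra hcon
    push Not at hcon
    obtain ⟨z, hz, hzlt, hz1⟩ := zero_ex hC hcon (fun z hz hzlt => (hzz z hz hzlt).1)
    exact (hzz z hz hzlt).2 hz1
  have hgood := left_step hC (hXm0.trans hz₁m.le) (by linarith) hzz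
  have hz₁mem : z₁ ∈ Zn k X (z₁.re + 1 / 2) := ⟨hz₁.1, by linarith, hz₁.2.2⟩
  refine ⟨z₁, ?_, hz₁1, hgood, fun z hz hz1 => hinj hgood z hz z₁ hz₁mem (hz1.trans hz₁1.symm)⟩
  have h1 := (hgood z₁ hz₁mem).s
  rw [hz₁1] at h1
  have e : z₁ + (ν : ℂ) / 2 = -((ν : ℂ) * (-1 - (z₁ / ν - 1 / 2))) := by
    field_simp
    ring
  rw [e, norm_neg, norm_mul, Complex.norm_real, Real.norm_eq_abs, abs_of_pos hν]
  calc ν * ‖(-1 - (z₁ / ν - 1 / 2) : ℂ)‖ ≤ ν * (2 * δ) :=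
        mul_le_mul_of_nonneg_left h1 hν.le
    _ ≤ 3 * δ * ν := by nlinarith

end Pool.Agent.MP_ae5b4e_an_N4
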