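import Pool.Agent.Lib.MP_ae5b4e_an_N4.ChD
import Pool.Agent.Lib.MP_ae5b4e_an_N4.Gin
import Pool.Agent.Lib.MP_ae5b4e_an_N4.EllB

/-!
# N4, module LfD: elementary facts about good points

* `s_aff`: on a convex set of good points (`S ⊆ ℂ` convex, `GdZ` at every point of `S`) the function
  `f w = (O (w, ρ₀)).1` is differentiable at every point (`GdZ.an`) with `‖ν f' - 1‖ ≤ 1 / 50`, so
  `w ↦ f w - w / ν` has derivative of norm `≤ 1 / (50 ν)`: mean value inequality.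
* `start_good`: `GdZ` on the start zone from `Chn.san`, `ss`, `sds`, `sl`, `sdl`:
  `Im (log ρ₀ + lgu z) = arg ρ₀ + Im lgu z`, `|Im lgu z + π| ≤ |z.im| / |z.re| ≤ k / X ≤ 10 ^ (-10)`
  (`lgu_start`); the real part is `log ‖ρ₀‖ + log ‖z‖`, `X ≤ ‖z‖ ≤ X + 1 + k ≤ X (1 + 10 ^ (-9))`;
  `‖ν σ'‖ ≤ 2 ν / X ≤ 1 ≤ Lk`.
  It also gives the sharper `im`, `re` used by `seq_main`.
* `zn_convex`: intersection of half planes.
* `low_bd` (key estimate).  Hypothesis: all points of `Zn k X X'` with real part `< X'` are good and no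
  zeros of `s + 1`.  Let `w ∈ Zn k X (X' + 1 / 2 - j)`, `j ≥ 1`; so `w.re ≤ X' - 1 / 2 < X'`.
  (i) `w.re ≤ - ν`: `Re (s w + 1) ≤ w.re / ν + 1 / 2 + 2 δ ≤ - 1 / 2 + 2 δ`, `‖s + 1‖ ≥ 1 / 4 ≥ e6 / 8 ≥
  min j (e6 k) / (4 ν)`.
  (ii) `|w.im| ≥ e6 k / 2`: `‖s + 1‖ ≥ |Im s| ≥ |w.im| / ν - 2 δ ≥ e6 k / (2 ν) - 2 δ ≥ e6 k / (4 ν)`, since
  `e6 k / (4 ν) ≥ e6 / 9 ≥ 2 δ`.
  (iii) otherwise let `r < min (j - 1 / 2) (e6 k / 2)`, `r > 0`: `closedBall w r` is contained in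
  `{z ∈ Zn k X X' | z.re < X'}` (`- ν - e6 k > - X - 1`), a convex set of good points; `s_aff` and `near_inv`
  (`a = 1 / ν`, `κ = 1 / 50`): `closedBall (s w) (49 / 50 · r / ν) ⊆ s '' closedBall w r`, which does not
  contain `-1`: `‖s w + 1‖ > 49 / 50 · r / ν`.  Let `r → min (j - 1 / 2) (e6 k / 2) ≥ min j (e6 k) / 2`.
* `re_neg`: the values avoid `[-1, 0]`.  Suppose `Im s w = 0` and `ε := Re s w + 1 ≥ 0`.  `ε ≠ 0` (no zero).
  `GdZ.s`: `|w.im| ≤ 2 δ ν`, `w.re ≥ - ν / 2 - 2 δ ν`, and `ε ≤ w.re / ν + 1 / 2 + 2 δ ≤ 5 δ` by `hX2`.  Put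
  `w' = w - ε ν`; `closedBall w' (ε ν / 40) ∪ {w}` is contained in the convex set
  `{z ∈ Zn k X X' | z.re < X'}` (`|z.im| ≤ 2 δ ν + ε ν ≤ 7 δ ν ≤ e6 k`).  `s_aff`:
  `‖s w' + 1‖ = ‖s w' - s w + ε‖ ≤ ε / 50`, and `near_inv`: `closedBall (s w') (49 / 50 · ε / 40) ⊆
  s '' closedBall w' (ε ν / 40)`, which contains `-1` as `1 / 50 ≤ 49 / 2000`: contradiction.
-/

set_option autoImplicit false

noncomputable section

namespace Pool.Agent.MP_ae5b4e_an_N4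

open Complex Set Filter Topology Metric

variable {k ν X δ η Dl s1 s2 : ℝ} {G n g : ℂ → ℂ} {O : ℂ × ℂ → ℂ × ℂ} {ρ₀ : ℂ}

private theorem lfd_an {z : ℂ} (h : AnalyticAt ℂ O (z, ρ₀)) :
    AnalyticAt ℂ (fun w => (O (w, ρ₀)).1) z := by
  have h1 : AnalyticAt ℂ O ((fun w : ℂ => (w, ρ₀)) z) := h
  have h2 : AnalyticAt ℂ (fun w : ℂ => (w, ρ₀)) z := analyticAt_id.prod analyticAt_const
  have h3 := AnalyticAt.comp (g := O) (f := fun w : ℂ => (w, ρ₀)) (x := z) h1 h2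
  exact analyticAt_fst.comp h3

theorem s_aff (hν : 0 < ν) {S : Set ℂ} (hS : Convex ℝ S) (h : ∀ z ∈ S, GdZ k ν X δ O ρ₀ z)
    {z w : ℂ} (hz : z ∈ S) (hw : w ∈ S) :
    ‖(O (z, ρ₀)).1 - (O (w, ρ₀)).1 - (1 / ν : ℂ) * (z - w)‖ ≤ 1 / 50 * (1 / ν) * ‖z - w‖ := by
  have hνC : (ν : ℂ) ≠ 0 := by exact_mod_cast hν.ne'
  have hder : ∀ x ∈ S, HasDerivWithinAt (fun w => (O (w, ρ₀)).1 - (1 / ν : ℂ) * w)
      (deriv (fun w => (O (w, ρ₀)).1) x - (1 / ν : ℂ)) S x := by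
    intro x hx
    have h1 := (lfd_an (h x hx).an).differentiableAt.hasDerivAt
    have h2 := (hasDerivAt_id x).const_mul (1 / ν : ℂ)
    rw [mul_one] at h2
    exact (h1.sub h2).hasDerivWithinAt
  have hbd : ∀ x ∈ S, ‖deriv (fun w => (O (w, ρ₀)).1) x - (1 / ν : ℂ)‖ ≤ 1 / 50 * (1 / ν) := by
    intro x hx
    have h1 := (h x hx).ds
    have h2 : deriv (fun w => (O (w, ρ₀)).1) x - (1 / ν : ℂ) =
        (1 / ν : ℂ) * (ν * deriv (fun w => (O (w, ρ₀)).1) x - 1) := by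
      field_simp
    rw [h2, norm_mul]
    have h3 : ‖(1 / ν : ℂ)‖ = 1 / ν := by
      rw [norm_div, norm_one, Complex.norm_real, Real.norm_of_nonneg hν.le]
    rw [h3, mul_comm (1 / 50 : ℝ)]
    exact mul_le_mul_of_nonneg_left h1 (by positivity)
  have := hS.norm_image_sub_le_of_norm_hasDerivWithin_le hder hbd hw hz
  have e : (O (z, ρ₀)).1 - (1 / ν : ℂ) * z - ((O (w, ρ₀)).1 - (1 / ν : ℂ) * w) =
      (O (z, ρ₀)).1 - (O (w, ρ₀)).1 - (1 / ν : ℂ) * (z - w) := by ring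
  rw [e] at this
  exact this

theorem zn_convex (k X X' : ℝ) : Convex ℝ (Zn k X X') := by
  intro x hx y hy a b ha hb hab
  obtain ⟨x1, x2, x3⟩ := hx
  obtain ⟨y1, y2, y3⟩ := hy
  rw [abs_le] at x3 y3
  have hb' : b = 1 - a := by linarith
  subst hb'
  have er : (a • x + (1 - a) • y).re = a * x.re + (1 - a) * y.re := by
    simp
  have ei : (a • x + (1 - a) • y).im = a * x.im + (1 - a) * y.im := by
    simp
  refine ⟨?_, ?_, ?_⟩
  · rw [er]
    nlinarith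
  · rw [er]
    nlinarith
  · rw [ei, abs_le]
    constructor <;> nlinarith [x3.1, x3.2, y3.1, y3.2]

/-- numbers -/
private theorem lfd_num {ell : ℂ → ℂ} (hC : Chn k ν X δ η Dl s1 s2 G n g ell O ρ₀) :
    0 < k ∧ 0 < ν ∧ 0 < X ∧ 0 < δ ∧ ν ≤ 9 / 4 * k ∧ 2 * k ≤ ν ∧ 10 ^ 10 * k ≤ X ∧
      δ ≤ 1 / 10 ^ 12 ∧ 10 ^ 20 ≤ k := by
  have h1 := hC.par.hk
  have h2 := hC.par.ν1
  have h3 := hC.par.ν2
  have h4 := hC.par.hX
  have hk : 0 < k := by linarith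
  refine ⟨hk, by linarith, by nlinarith, hC.par.δ0, by linarith, h2, h4, hC.par.δ1, h1⟩

theorem start_good {ell : ℂ → ℂ} (hC : Chn k ν X δ η Dl s1 s2 G n g ell O ρ₀) {z : ℂ}
    (h1 : -X - 1 ≤ z.re) (h2 : z.re ≤ -X) (h3 : |z.im| ≤ k) :
    GdZ k ν X δ O ρ₀ z ∧ |(O (z, ρ₀)).2.im - (arg ρ₀ - Real.pi)| ≤ 1 / 10 ^ 9 ∧
      |(O (z, ρ₀)).2.re - Real.log (X * ‖ρ₀‖)| ≤ 1 ∧ (O (z, ρ₀)).1.re < -10 := by
  obtain ⟨hk, hν, hX, hδ, hν2, hν1, hkX, hδ1, hkk⟩ := lfd_num hC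
  have hρ0 : ρ₀ ≠ 0 := by
    rintro rfl
    exact lt_irrefl _ (show (0 : ℝ) < 0 from hC.hρ)
  have hρn : 0 < ‖ρ₀‖ := norm_pos_iff.2 hρ0
  have hsl := hC.sl z h1 h2 h3
  have hzre : z.re < 0 := by linarith
  have hz0 : z ≠ 0 := by
    rintro rfl
    exact lt_irrefl _ (show (0 : ℝ) < 0 from hzre)
  have hlg := lgu_start hzre
  have habs : |z.re| = -z.re := abs_of_neg hzre
  have hkX' : k / X ≤ 1 / 10 ^ 10 := by
    rw [div_le_div_iff₀ hX (by norm_num)]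
    linarith
  have him : |(lgu z).im + Real.pi| ≤ 1 / 10 ^ 10 := by
    refine hlg.trans (le_trans ?_ hkX')
    rw [habs]
    exact div_le_div₀ hk.le h3 hX (by linarith)
  have hre1 : |(O (z, ρ₀)).2.re - (Real.log ‖ρ₀‖ + Real.log ‖z‖)| ≤ δ := by
    have := (Complex.abs_re_le_norm _).trans hsl
    rw [Complex.sub_re, Complex.add_re, Complex.log_re, lgu_re] at this
    exact this
  have him1 : |(O (z, ρ₀)).2.im - (arg ρ₀ + (lgu z).im)| ≤ δ := by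
    have := (Complex.abs_im_le_norm _).trans hsl
    rw [Complex.sub_im, Complex.add_im, Complex.log_im] at this
    exact this
  have himf : |(O (z, ρ₀)).2.im - (arg ρ₀ - Real.pi)| ≤ 1 / 10 ^ 9 := by
    rw [abs_le] at him him1 ⊢
    obtain ⟨a1, a2⟩ := him
    obtain ⟨b1, b2⟩ := him1
    constructor
    · norm_num at a1 a2 b1 b2 hδ1 ⊢
      linarith
    · norm_num at a1 a2 b1 b2 hδ1 ⊢
      linarith
  have hzn1 : X ≤ ‖z‖ := by
    have := Complex.abs_re_le_norm z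
    rw [habs] at this
    linarith
  have hzn2 : ‖z‖ ≤ X + 1 + k := by
    have := Complex.norm_le_abs_re_add_abs_im z
    rw [habs] at this
    linarith
  have hlog1 : Real.log X ≤ Real.log ‖z‖ := Real.log_le_log hX hzn1
  have hlog2 : Real.log ‖z‖ ≤ Real.log X + 1 / 2 := by
    have hr : ‖z‖ / X ≤ 3 / 2 := by
      rw [div_le_iff₀ hX]
      nlinarith
    have h5 : Real.log (‖z‖ / X) ≤ ‖z‖ / X - 1 :=
      Real.log_le_sub_one_of_pos (div_pos (norm_pos_iff.2 hz0) hX)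
    rw [Real.log_div (norm_pos_iff.2 hz0).ne' hX.ne'] at h5
    linarith
  have hlogm : Real.log (X * ‖ρ₀‖) = Real.log X + Real.log ‖ρ₀‖ := Real.log_mul hX.ne' hρn.ne'
  have href : |(O (z, ρ₀)).2.re - Real.log (X * ‖ρ₀‖)| ≤ 1 := by
    rw [hlogm]
    rw [abs_le] at hre1 ⊢
    have hδ2 : δ ≤ 1 / 2 := hδ1.trans (by norm_num)
    constructor <;> linarith [hre1.1, hre1.2]
  have hXk : 0 ≤ X / k := by positivity
  have hss := hC.ss z h1 h2 h3
  have hsre : (O (z, ρ₀)).1.re < -10 := by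
    have h5 := (Complex.abs_re_le_norm _).trans hss
    have e : (z / ν - 1 / 2 : ℂ).re = z.re / ν - 1 / 2 := by
      rw [Complex.sub_re, Complex.div_ofReal_re]
      norm_num
    rw [Complex.sub_re, e, abs_le] at h5
    have h6 : z.re / ν ≤ -100 := by
      rw [div_le_iff₀ hν]
      nlinarith
    have hδ2 : δ ≤ 1 / 2 := hδ1.trans (by norm_num)
    linarith [h5.2]
  refine ⟨⟨hC.san z h1 h2 h3, ?_, ?_, ?_, ?_, ?_⟩, himf, href, hsre⟩
  · exact himf.trans (by norm_num)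
  · linarith
  · linarith
  · exact (hC.sds z h1 h2 h3).trans (hδ1.trans (by norm_num))
  · rw [norm_mul, Complex.norm_real, Real.norm_of_nonneg hν.le]
    have h5 := hC.sdl z h1 h2 h3
    have h6 : ν * ‖deriv (fun w => (O (w, ρ₀)).2) z‖ ≤ ν * (2 / X) :=
      mul_le_mul_of_nonneg_left h5 hν.le
    have h7 : ν * (2 / X) ≤ 1 := by
      rw [mul_div_assoc', div_le_one hX]
      nlinarith
    have h8 : 0 ≤ Real.log k := Real.log_nonneg (by
      have : (1 : ℝ) ≤ 10 ^ 20 := by norm_num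
      linarith)
    have h9 : 1 ≤ Lk k X := by
      unfold Lk
      nlinarith
    linarith

theorem good_box {ell : ℂ → ℂ} (hC : Chn k ν X δ η Dl s1 s2 G n g ell O ρ₀) {z : ℂ}
    (h : GdZ k ν X δ O ρ₀ z) : (O (z, ρ₀)).2 ∈ Bx s1 s2 := by
  have h1 := h.re
  have h2 := h.im
  have h3 := hC.b1
  have h4 := hC.b2
  have h5 := hC.par.hD
  have h6 := hC.th1
  have h7 := hC.th2
  unfold ph2 at h6 h7
  rw [abs_le] at h1 h2
  refine ⟨by linarith [h1.1], by linarith [h1.2], ?_, ?_⟩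
  · unfold aa
    linarith [h2.1]
  · unfold aa
    linarith [h2.2]

private theorem lfd_s {z : ℂ} (hν : 0 < ν) (h : GdZ k ν X δ O ρ₀ z) :
    |(O (z, ρ₀)).1.re - (z.re / ν - 1 / 2)| ≤ 2 * δ ∧ |(O (z, ρ₀)).1.im - z.im / ν| ≤ 2 * δ := by
  have h1 := h.s
  have er : (z / ν - 1 / 2 : ℂ).re = z.re / ν - 1 / 2 := by
    rw [Complex.sub_re, Complex.div_ofReal_re]
    norm_num
  have ei : (z / ν - 1 / 2 : ℂ).im = z.im / ν := by
    rw [Complex.sub_im, Complex.div_ofReal_im]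
    norm_num
  have h2 := (Complex.abs_re_le_norm _).trans h1
  have h3 := (Complex.abs_im_le_norm _).trans h1
  rw [Complex.sub_re, er] at h2
  rw [Complex.sub_im, ei] at h3
  exact ⟨h2, h3⟩

private theorem lfd_S (k X X' : ℝ) : Convex ℝ {z : ℂ | z ∈ Zn k X X' ∧ z.re < X'} :=
  (zn_convex k X X').inter (convex_halfSpace_re_lt X')

/-- surjectivity: a value within `49/50 r/ν` is attained -/
private theorem lfd_surj (hν : 0 < ν) {S : Set ℂ} (hS : Convex ℝ S)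
    (h : ∀ z ∈ S, GdZ k ν X δ O ρ₀ z) {c v : ℂ} {r : ℝ} (hr : 0 ≤ r) (hb : closedBall c r ⊆ S)
    (hv : ‖v - (O (c, ρ₀)).1‖ ≤ 49 / 50 * (r / ν)) : ∃ z ∈ closedBall c r, (O (z, ρ₀)).1 = v := by
  have hνC : (1 / ν : ℂ) ≠ 0 := by
    have : (ν : ℂ) ≠ 0 := by exact_mod_cast hν.ne'
    exact one_div_ne_zero this
  have hn : ‖(1 / ν : ℂ)‖ = 1 / ν := by
    rw [norm_div, norm_one, Complex.norm_real, Real.norm_of_nonneg hν.le]
  have h1 := near_inv (f := fun w => (O (w, ρ₀)).1) (c := c) (a := (1 / ν : ℂ)) (r := r)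
    (κ := 1 / 50) hr hνC (by norm_num) (by norm_num)
    (fun z hz w hw => by
      rw [hn]
      exact s_aff hν hS h (hb hz) (hb hw))
  rw [hn] at h1
  have h2 : v ∈ closedBall ((fun w => (O (w, ρ₀)).1) c) ((1 - 1 / 50) * (1 / ν) * r) := by
    rw [mem_closedBall, dist_eq_norm]
    refine hv.trans (le_of_eq ?_)
    ring
  obtain ⟨z, hz, hz2⟩ := h1 h2
  exact ⟨z, hz, hz2⟩

theorem low_bd {ell : ℂ → ℂ} (hC : Chn k ν X δ η Dl s1 s2 G n g ell O ρ₀) {X' : ℝ}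
    (h : ∀ z ∈ Zn k X X', z.re < X' → GdZ k ν X δ O ρ₀ z ∧ (O (z, ρ₀)).1 ≠ -1) {w : ℂ} {j : ℕ}
    (hj : 1 ≤ j) (hw : w ∈ Zn k X (X' + 1 / 2 - j)) :
    min (j:ℝ) (e6 * k) / (4 * ν) ≤ ‖(O (w, ρ₀)).1 + 1‖ := by
  obtain ⟨hk, hν, hX, hδ, hν2, hν1, hkX, hδ1, hkk⟩ := lfd_num hC
  obtain ⟨hw1, hw2, hw3⟩ := hw
  have hj' : (1 : ℝ) ≤ j := by exact_mod_cast hj
  have hwX : w.re < X' := by linarith
  have he6 : (0:ℝ) < e6 := by unfold e6; norm_num
  have hwZ : w ∈ Zn k X X' := ⟨hw1, hwX.le, hw3⟩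
  obtain ⟨hgd, hne⟩ := h w hwZ hwX
  obtain ⟨hsr, hsi⟩ := lfd_s hν hgd
  have hmle : min (j:ℝ) (e6 * k) / (4 * ν) ≤ e6 * k / (4 * ν) :=
    div_le_div_of_nonneg_right (min_le_right _ _) (by positivity)
  have h4ν : 0 < 4 * ν := by positivity
  by_cases c1 : w.re ≤ -ν
  · have h1 : (O (w, ρ₀)).1.re + 1 ≤ -(1 / 4) := by
      rw [abs_le] at hsr
      have h2 : w.re / ν ≤ -1 := by
        rw [div_le_iff₀ hν]
        linarith
      have hδ2 : δ ≤ 1 / 8 := hδ1.trans (by norm_num)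
      linarith [hsr.2]
    have h2 : 1 / 4 ≤ ‖(O (w, ρ₀)).1 + 1‖ := by
      have h3 := Complex.abs_re_le_norm ((O (w, ρ₀)).1 + 1)
      rw [Complex.add_re, Complex.one_re, abs_of_neg (by linarith)] at h3
      linarith
    have h3 : e6 * k / (4 * ν) ≤ 1 / 4 := by
      rw [div_le_iff₀ h4ν]
      unfold e6
      nlinarith
    linarith
  by_cases c2 : e6 * k / 2 ≤ |w.im|
  · have h1 : |w.im| / ν - 2 * δ ≤ ‖(O (w, ρ₀)).1 + 1‖ := by
      have h3 := Complex.abs_im_le_norm ((O (w, ρ₀)).1 + 1)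
      rw [Complex.add_im, Complex.one_im, add_zero] at h3
      have h4 : |w.im / ν| ≤ |(O (w, ρ₀)).1.im| + |(O (w, ρ₀)).1.im - w.im / ν| := by
        have := abs_sub_abs_le_abs_sub (w.im / ν) ((O (w, ρ₀)).1.im)
        rw [abs_sub_comm] at this
        linarith
      rw [abs_div, abs_of_pos hν] at h4
      linarith
    have h2 : e6 * k / 2 / ν ≤ |w.im| / ν := div_le_div_of_nonneg_right c2 hν.le
    have h3 : 2 * δ ≤ e6 * k / (4 * ν) := by
      rw [le_div_iff₀ h4ν]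
      unfold e6
      have h5 : δ * ν ≤ 1 / 10 ^ 12 * (9 / 4 * k) := mul_le_mul hδ1 hν2 hν.le (by norm_num)
      norm_num at h5 ⊢
      linarith
    have h4 : e6 * k / 2 / ν = e6 * k / (4 * ν) + e6 * k / (4 * ν) := by
      field_simp
      ring
    linarith
  push Not at c1 c2
  set m : ℝ := min (j:ℝ) (e6 * k) with hm
  have hm0 : 0 < m := lt_min (by linarith) (by positivity)
  have hmj : m ≤ j := min_le_left _ _
  have hmk : m ≤ e6 * k := min_le_right _ _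
  by_contra hcon
  push Not at hcon
  have hgood : ∀ z ∈ {z : ℂ | z ∈ Zn k X X' ∧ z.re < X'}, GdZ k ν X δ O ρ₀ z :=
    fun z hz => (h z hz.1 hz.2).1
  have hball : closedBall w (3 / 10 * m) ⊆ {z : ℂ | z ∈ Zn k X X' ∧ z.re < X'} := by
    intro z hz
    rw [mem_closedBall, dist_eq_norm] at hz
    have hr := (Complex.abs_re_le_norm (z - w)).trans hz
    have hi := (Complex.abs_im_le_norm (z - w)).trans hz
    rw [Complex.sub_re, abs_le] at hr
    rw [Complex.sub_im, abs_le] at hi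
    have hle : z.re < X' := by
      have : m / 2 ≤ j - 1 / 2 := by linarith
      linarith [hr.2]
    refine ⟨⟨?_, hle.le, ?_⟩, hle⟩
    · have hmk' : m ≤ k := by
        refine hmk.trans ?_
        unfold e6
        nlinarith
      nlinarith [hr.1]
    · rw [abs_lt] at c2
      rw [abs_le]
      constructor <;> linarith [hi.1, hi.2, c2.1, c2.2]
  obtain ⟨z, hz, hz1⟩ := lfd_surj hν (lfd_S k X X') hgood (v := -1) (by positivity) hball (by
    have e : -1 - (O (w, ρ₀)).1 = -((O (w, ρ₀)).1 + 1) := by ring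
    rw [e, norm_neg]
    refine hcon.le.trans ?_
    have : m / (4 * ν) = 1 / 4 * (m / ν) := by field_simp
    rw [this]
    have h5 : 0 ≤ m / ν := by positivity
    have h6 : 3 / 10 * m / ν = 3 / 10 * (m / ν) := by ring
    rw [h6]
    nlinarith)
  exact (h z (hball hz).1 (hball hz).2).2 hz1

theorem re_neg {ell : ℂ → ℂ} (hC : Chn k ν X δ η Dl s1 s2 G n g ell O ρ₀) {X' : ℝ}
    (hX2 : X' ≤ -(ν / 2) + 3 * δ * ν)
    (h : ∀ z ∈ Zn k X X', z.re < X' → GdZ k ν X δ O ρ₀ z ∧ (O (z, ρ₀)).1 ≠ -1) {w : ℂ}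
    (hw : w ∈ Zn k X X') (hw' : w.re < X') :
    (O (w, ρ₀)).1.re < -1 ∨ (O (w, ρ₀)).1.im ≠ 0 := by
  obtain ⟨hk, hν, hX, hδ, hν2, hν1, hkX, hδ1, hkk⟩ := lfd_num hC
  obtain ⟨hgd, hne⟩ := h w hw hw'
  obtain ⟨hsr, hsi⟩ := lfd_s hν hgd
  by_contra hcon
  push Not at hcon
  obtain ⟨hre, him⟩ := hcon
  set ε : ℝ := (O (w, ρ₀)).1.re + 1 with hε
  have hsw : (O (w, ρ₀)).1 = -1 + (ε : ℂ) := by
    apply Complex.ext
    · rw [hε]
      simp
    · rw [him]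
      simp
  have hε0 : 0 < ε := by
    rcases (show 0 ≤ ε by rw [hε]; linarith).eq_or_lt with h0 | h0
    · exfalso
      apply hne
      rw [hsw, ← h0]
      simp
    · exact h0
  rw [abs_le] at hsr hsi
  rw [him] at hsi
  have hwdiv : w.re / ν < -(1 / 2) + 3 * δ := by
    rw [div_lt_iff₀ hν]
    nlinarith
  have hε5 : ε ≤ 5 * δ := by
    linarith [hsr.1, hsr.2]
  have hwlow : -(ν / 2) - 2 * δ * ν ≤ w.re := by
    have h1 : -(1 / 2) - 2 * δ ≤ w.re / ν := by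
      linarith [hsr.1, hsr.2]
    rw [le_div_iff₀ hν] at h1
    linarith
  have hwim1 : w.im ≤ 2 * δ * ν := by
    have h1 : w.im / ν ≤ 2 * δ := by linarith [hsi.1]
    rw [div_le_iff₀ hν] at h1
    exact h1
  have hwim2 : -(2 * δ * ν) ≤ w.im := by
    have h1 : -(2 * δ) ≤ w.im / ν := by linarith [hsi.2]
    rw [le_div_iff₀ hν] at h1
    linarith
  have hδν : δ * ν ≤ 9 / 4 / 10 ^ 12 * k := by
    have h5 : δ * ν ≤ 1 / 10 ^ 12 * (9 / 4 * k) := mul_le_mul hδ1 hν2 hν.le (by norm_num)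
    linarith
  have hδν0 : 0 < δ * ν := by positivity
  have hεν : ε * ν ≤ 5 * (δ * ν) := by nlinarith
  have hεν0 : 0 < ε * ν := by positivity
  set w' : ℂ := w - ((ε * ν : ℝ) : ℂ) with hw'def
  have hw're : w'.re = w.re - ε * ν := by
    rw [hw'def, Complex.sub_re, Complex.ofReal_re]
  have hw'im : w'.im = w.im := by
    rw [hw'def, Complex.sub_im, Complex.ofReal_im, sub_zero]
  have hgood : ∀ z ∈ {z : ℂ | z ∈ Zn k X X' ∧ z.re < X'}, GdZ k ν X δ O ρ₀ z :=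
    fun z hz => (h z hz.1 hz.2).1
  have hball : closedBall w' (ε * ν / 40) ⊆ {z : ℂ | z ∈ Zn k X X' ∧ z.re < X'} := by
    intro z hz
    rw [mem_closedBall, dist_eq_norm] at hz
    have hr := (Complex.abs_re_le_norm (z - w')).trans hz
    have hi := (Complex.abs_im_le_norm (z - w')).trans hz
    rw [Complex.sub_re, abs_le, hw're] at hr
    rw [Complex.sub_im, abs_le, hw'im] at hi
    have hle : z.re < X' := by linarith [hr.2]
    refine ⟨⟨?_, hle.le, ?_⟩, hle⟩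
    · have h5 : (9 / 4 / 10 ^ 12 : ℝ) * k ≤ k := by
        nlinarith
      nlinarith [hr.1]
    · rw [abs_le]
      unfold e6
      norm_num at hδν ⊢
      constructor <;> nlinarith [hi.1, hi.2]
  have hc : w' ∈ {z : ℂ | z ∈ Zn k X X' ∧ z.re < X'} :=
    hball (mem_closedBall_self (by positivity))
  have haff := s_aff hν (lfd_S k X X') hgood hc (show w ∈ {z : ℂ | z ∈ Zn k X X' ∧ z.re < X'} from
    ⟨hw, hw'⟩)
  have hνC : (ν : ℂ) ≠ 0 := by exact_mod_cast hν.ne'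
  have e1 : w' - w = -((ε * ν : ℝ) : ℂ) := by
    rw [hw'def]
    ring
  have e2 : (O (w', ρ₀)).1 - (O (w, ρ₀)).1 - (1 / ν : ℂ) * (w' - w) = (O (w', ρ₀)).1 + 1 := by
    rw [e1, hsw]
    push_cast
    field_simp
    ring
  rw [e2, e1, norm_neg, Complex.norm_real, Real.norm_of_nonneg hεν0.le] at haff
  have hn : ‖(O (w', ρ₀)).1 + 1‖ ≤ ε / 50 := by
    refine haff.trans (le_of_eq ?_)
    field_simp
  obtain ⟨z, hz, hz1⟩ := lfd_surj hν (lfd_S k X X') hgood (v := -1) (by positivity) hball (by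
    have e : -1 - (O (w', ρ₀)).1 = -((O (w', ρ₀)).1 + 1) := by ring
    rw [e, norm_neg]
    refine hn.trans ?_
    have : ε * ν / 40 / ν = ε / 40 := by field_simp
    rw [this]
    linarith)
  exact (h z (hball hz).1 (hball hz).2).2 hz1

end Pool.Agent.MP_ae5b4e_an_N4
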