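import Pool.Agent.Lib.MP_ae5b4e_an_N4.PU
import Pool.Agent.Lib.MP_ae5b4e_an_N4.ColU
import Pool.Agent.Lib.MP_ae5b4e_an_N4.Seq

/-!
# N4, module LoA: the states of a column of the lower zone

`z` admissible, `- X < z.re`, `m = nst X z ≥ 1`, nodes `z - j`, `1 ≤ j ≤ m`; every node `z - j` is
admissible (`Adm`: same imaginary part, smaller real part, the last condition is invariant under
integer shifts).  `p i := OU (z - (m - i), ρ₀)`.

`near_u` (nearness).  Let `z` be admissible, `- e6 k ≤ z.im` (so `|z.im| ≤ e6 k`, since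
`z.im ≤ z₁.im + 1 / 8 ≤ 3 δ ν + 1 / 8`), `l` an index such that the labels `(OU (z - j, ρ₀)).2` are in the box
for all natural `j < l'`… precise form: `w` admissible with `|w.im| ≤ e6 k`, and for every natural
number `j` with `w.re - j > z₁.re + 1 / 2` the label `(OU (w - j, ρ₀)).2` is in the box.  Then
`‖(s w + 1) - (w - z₁) / ν‖ ≤ 3 / 100 · ‖w - z₁‖ / ν`.
Proof: if `w.re ≤ z₁.re + 1 / 2`: `pu_eq` and `z1_aff`.  Otherwise let `i ≥ 1` be the least natural number with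
`w.re - i ≤ z₁.re + 1 / 2`, `w₀ = w - i`, `z₁.re - 1 / 2 < w₀.re`: by `Chn.step` (definition of `stp`)
`s (w₀ + j + 1) = s (w₀ + j) + g (σ (w₀ + j + 1))`, `‖ν g - 1‖ ≤ η` on the box (`Gd.gc`):
`‖s w - s w₀ - i / ν‖ ≤ i η / ν`.  With `‖(s w₀ + 1) - (w₀ - z₁) / ν‖ ≤ ‖w₀ - z₁‖ / (50 ν)`,
`‖w₀ - z₁‖ ≤ ‖w - z₁‖` (`|Re (w₀ - z₁)| ≤ 1 / 2 < Re (w - z₁)`, same imaginary part) and
`i ≤ 2 Re (w - z₁) ≤ 2 ‖w - z₁‖` (`Re (w - z₁) ≥ i - 1 / 2 ≥ i / 2`): total `(1 / 50 + 2 η) ‖w - z₁‖ / ν`.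

`sgn_u`: consequences for `a = s w + 1`, `u = w - z₁`, `‖ν a - u‖ ≤ 3 / 100 ‖u‖`, `w` admissible: `u ≠ 0`,
`‖a‖ ≥ 97 / 100 · ‖u‖ / ν`, and `0 ≤ a.re → a.im ≤ 11 / 10 a.re`, `a ≠ 0`.
Proof of the last claim: if `u.im < 0`: `ν a.re ≥ 0` gives `u.re ≥ - 3/100 ‖u‖`; if `u.re ≤ 0`, then
`|u.re| ≤ 3/100 ‖u‖`, so `u.im ≤ - 0.99 ‖u‖` and `ν a.im ≤ - 0.96 ‖u‖ < 0 ≤ a.re`; if `u.re > 0`:
`ν a.im ≤ u.im + 3/100 ‖u‖`; if `a.im ≤ 0` clear, otherwise `|u.im| ≤ 3/100 ‖u‖`, `u.re ≥ 0.99 ‖u‖`,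
`ν a.re ≥ 0.96 ‖u‖ ≥ 3/100 ‖u‖ ≥ ν a.im`.  If `u.im ≥ 0`: (`Adm.col`) `u.im ≤ 1 / 8 ≤ |u.re|`; `a.re ≥ 0` excludes
`u.re < 0` (`ν a.re ≤ u.re + 3/100 · 1.42 |u.re| < 0`); `u.re > 0`: `ν a.im ≤ u.re + 0.0425 u.re`,
`ν a.re ≥ 0.9575 u.re`, and `1.0425 ≤ 1.1 · 0.9575 = 1.053`.

`low_seq`: for `z` admissible, `- X < z.re`, `m = nst X z`: conclusions of `seq_main` for `i = 0, …, m` with `ell = ellu`,
`c1 = - 1 / 15000`, `c2 = 57 / 20`, `θ = arg ρ₀`.  `hW i` is `col_low` for the column of `z_i = z - (m - i)`: nodes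
`a j = (p (i - j)).1 + 1`, `1 ≤ j ≤ i`, `x0 = z_i.re / ν + 1 / 2 ≤ (k / 15) / (2 k) + 1 / 2 ≤ 27 / 50`, `y = z.im / ν ∈
[- 1 / 14 - …, (3 δ ν + 1 / 8) / ν] ⊆ [- 2 / 25, e6]`, `t = (z_i - z₁).re`.
Case `z.im < - e6 k`: all `Im a j ≤ z.im / ν + 2 δ ≤ - e6 / 3 + 2 δ < - e6 / 8 < 0`: case D, `‖a j‖ ≥ e6 / 8`.
Case `- e6 k ≤ z.im`: `near_u`, `sgn_u` at the nodes `w = z - (m - i) - j` (the labels before are in the box
by the hypothesis of `hW`): `‖a j‖ ≥ 97 / 100 ‖u‖ / ν`, `u = w - z₁`, `|u.re| = |t - j|`, and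
`‖u‖ ≥ e^{-k}` (`Adm.col`: `|u.im| ≥ e^{-k}`, or `|u.re| ≥ 1 / 8`); case U.
`hθ2`: `1 / 100 + 57 / 20 + 10 ^ (-8) ≤ π - aa`.
-/

set_option autoImplicit false

noncomputable section

namespace Pool.Agent.MP_ae5b4e_an_N4

open Complex Set Filter Topology Metric

variable {k ν X δ η Dl s1 s2 : ℝ} {G n g : ℂ → ℂ} {OP OU : ℂ × ℂ → ℂ × ℂ} {ρ₀ z₁ : ℂ}

theorem adm_shift {z : ℂ} (h : Adm k z₁ z) (j : ℕ) : Adm k z₁ (z - j) := by
  have e1 : (z - (j:ℂ)).im = z.im := by simp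
  have e2 : (z - (j:ℂ)).re = z.re - j := by simp
  have e3 : (z - (j:ℂ) - z₁).im = (z - z₁).im := by simp
  have e4 : (z - (j:ℂ) - z₁).re = (z - z₁).re - j := by
    simp only [Complex.sub_re, Complex.natCast_re]
    ring
  refine ⟨by rw [e1]; exact h.low, ?_, ?_⟩
  · rw [e2]
    have h1 := h.right
    have h2 : (0:ℝ) ≤ j := Nat.cast_nonneg j
    linarith
  · rw [e3, e4]
    rcases h.col with h1 | ⟨h1, h2⟩
    · exact Or.inl h1
    · refine Or.inr ⟨h1, fun i => ?_⟩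
      have h3 := h2 (j + i)
      push_cast at h3
      have e5 : (z - z₁).re - (j:ℝ) - (i:ℝ) = (z - z₁).re - ((j:ℝ) + (i:ℝ)) := by ring
      rw [e5]
      exact h3

private theorem LoA_z1 {O : ℂ × ℂ → ℂ × ℂ} (hP : Par k ν X δ η Dl) (hz : IsZ1 k ν X δ O ρ₀ z₁) :
    |z₁.re + ν / 2| ≤ k / 10 ^ 11 ∧ |z₁.im| ≤ k / 10 ^ 11 := by
  have hk := hP.hk
  have hδ1 := hP.δ1
  have hδ0 := hP.δ0
  have hν2 := hP.ν2
  have hν1 := hP.ν1
  have h1 : 3 * δ * ν ≤ k / 10 ^ 11 := by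
    have hν0 : 0 ≤ ν := by linarith [hk]
    have h2 : δ * ν ≤ 1 / 10 ^ 12 * (2 * k + 1) := mul_le_mul hδ1 hν2 hν0 (by positivity)
    have h3 : 3 * (1 / 10 ^ 12 * (2 * k + 1)) ≤ k / 10 ^ 11 := by
      rw [le_div_iff₀ (by positivity)]
      norm_num
      linarith
    nlinarith
  have h2 := hz.near.trans h1
  have e1 : (z₁ + (ν:ℂ) / 2).re = z₁.re + ν / 2 := by
    rw [Complex.add_re]
    congr 1
    rw [show (ν:ℂ) / 2 = ((ν / 2 : ℝ) : ℂ) by push_cast; ring, Complex.ofReal_re]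
  have e2 : (z₁ + (ν:ℂ) / 2).im = z₁.im := by
    rw [Complex.add_im, show (ν:ℂ) / 2 = ((ν / 2 : ℝ) : ℂ) by push_cast; ring, Complex.ofReal_im,
      add_zero]
  constructor
  · rw [← e1]
    exact (Complex.abs_re_le_norm _).trans h2
  · rw [← e2]
    exact (Complex.abs_im_le_norm _).trans h2

private theorem LoA_up {w : ℂ} (hw : Adm k z₁ w) : (w - z₁).im ≤ 1 / 8 := by
  rcases hw.col with h | h
  · have := Real.exp_pos (-k)
    linarith
  · exact h.1

private theorem LoA_step {O : ℂ × ℂ → ℂ × ℂ} {ell : ℂ → ℂ}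
    (hC : Chn k ν X δ η Dl s1 s2 G n g ell O ρ₀) {z : ℂ} (h : -X < z.re) :
    (O (z, ρ₀)).1 = (O (z - 1, ρ₀)).1 + g (O (z, ρ₀)).2 := by
  rw [hC.step z h ρ₀]
  rfl

private theorem LoA_sq {x y : ℝ} (h : x ^ 2 ≤ y ^ 2) (hy : 0 ≤ y) : x ≤ y := by
  by_contra hcon
  push Not at hcon
  nlinarith

theorem near_u (hC : Chn k ν X δ η Dl s1 s2 G n g ellp OP ρ₀)
    (hC' : Chn k ν X δ η Dl s1 s2 G n g ellu OU ρ₀) (hz : IsZ1 k ν X δ OP ρ₀ z₁)
    (h0 : ∀ z : ℂ, -X - 1 ≤ z.re → z.re ≤ -X → |z.im| ≤ k → OU =ᶠ[𝓝 (z, ρ₀)] OP)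
    {w : ℂ} (h1 : -X - 1 ≤ w.re) (hw : Adm k z₁ w) (h2 : -(e6 * k) ≤ w.im)
    (hb : ∀ j : ℕ, z₁.re + 1 / 2 < w.re - j → (OU (w - j, ρ₀)).2 ∈ Bx s1 s2) :
    ‖ν * ((OU (w, ρ₀)).1 + 1) - (w - z₁)‖ ≤ 3 / 100 * ‖w - z₁‖ := by
  have hP := hC.par
  have hk := hP.hk
  have hν1 := hP.ν1
  have hν2 := hP.ν2
  have hX := hP.hX
  have hη0 := hP.η0
  have hk0 : (0:ℝ) < k := lt_of_lt_of_le (by positivity) hk
  have hν0 : 0 < ν := by linarith
  have hη1 : η ≤ 1 / 200 := by
    have h3 := hP.η1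
    have h4 := hP.δ1
    have h5 : 1 ≤ (X / k) ^ 2 := by
      have h6 : 1 ≤ X / k := by
        rw [le_div_iff₀ hk0]
        nlinarith
      nlinarith
    have h6 : η * 1 ≤ η * (X / k) ^ 2 := mul_le_mul_of_nonneg_left h5 hη0
    have h7 : η * 10 ^ 14 ≤ δ := by nlinarith
    norm_num at h7 h4
    linarith
  obtain ⟨hz1r, hz1i⟩ := LoA_z1 hP hz
  have hup := LoA_up hw
  have hz1i' := (abs_le.1 hz1i).2
  have hz1r' := (abs_le.1 hz1r).1
  have hwim : |w.im| ≤ e6 * k := by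
    rw [abs_le]
    refine ⟨by linarith, ?_⟩
    have e : (w - z₁).im = w.im - z₁.im := Complex.sub_im _ _
    rw [e] at hup
    have h3 : k / 10 ^ 11 + 1 / 8 ≤ e6 * k := by
      unfold e6
      norm_num at hk ⊢
      linarith
    linarith
  have hX' : -X < z₁.re - 1 / 2 := by
    norm_num at hz1r' hX hk
    linarith
  -- points on the left
  have hleft : ∀ u : ℂ, -X - 1 ≤ u.re → u.re ≤ z₁.re + 1 / 2 → |u.im| ≤ e6 * k →
      (u - z₁).im ≤ 1 / 8 →
      ‖ν * ((OU (u, ρ₀)).1 + 1) - (u - z₁)‖ ≤ 1 / 50 * ‖u - z₁‖ := by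
    intro u hu1 hu2 hu3 hu4
    have hu : u ∈ Zn k X (z₁.re + 1 / 2) := ⟨hu1, hu2, hu3⟩
    have h3 := pu_eq hC hC' hz h0 hu hu4
    rw [h3.self_of_nhds]
    have h4 := z1_aff hC hz hu
    have hν0' : (ν:ℂ) ≠ 0 := by exact_mod_cast hν0.ne'
    have e : ν * ((OP (u, ρ₀)).1 + 1) - (u - z₁) =
        ν * ((OP (u, ρ₀)).1 + 1 - (1 / ν : ℂ) * (u - z₁)) := by
      field_simp
    rw [e, norm_mul, Complex.norm_real, Real.norm_of_nonneg hν0.le]
    calc ν * ‖(OP (u, ρ₀)).1 + 1 - (1 / ν : ℂ) * (u - z₁)‖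
        ≤ ν * (1 / 50 * (1 / ν) * ‖u - z₁‖) := mul_le_mul_of_nonneg_left h4 hν0.le
      _ = 1 / 50 * ‖u - z₁‖ := by
        field_simp
  rcases le_or_gt w.re (z₁.re + 1 / 2) with hc | hc
  · have h3 := hleft w h1 hc hwim hup
    have := norm_nonneg (w - z₁)
    linarith
  · set i : ℕ := ⌈w.re - (z₁.re + 1 / 2)⌉₊ with hi
    have hi0 : 0 < w.re - (z₁.re + 1 / 2) := by linarith
    have hi1 : w.re - (z₁.re + 1 / 2) ≤ i := Nat.le_ceil _
    have hi2 : (i:ℝ) < w.re - (z₁.re + 1 / 2) + 1 := Nat.ceil_lt_add_one hi0.le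
    have hi3 : 1 ≤ i := Nat.one_le_iff_ne_zero.2 (Nat.ceil_pos.2 hi0).ne'
    have hi3' : (1:ℝ) ≤ i := by exact_mod_cast hi3
    set w₀ : ℂ := w - (i:ℂ) with hw₀
    have ew0r : w₀.re = w.re - i := by simp [hw₀]
    have ew0i : w₀.im = w.im := by simp [hw₀]
    clear_value w₀
    have hupw : (w₀ - z₁).im ≤ 1 / 8 := by
      rw [Complex.sub_im, ew0i, ← Complex.sub_im]
      exact hup
    have hw₀l := hleft w₀ (by rw [ew0r]; linarith) (by rw [ew0r]; linarith)
      (by rw [ew0i]; exact hwim) hupw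
    have hind : ∀ j : ℕ, j ≤ i → ‖ν * ((OU (w₀ + (j:ℂ), ρ₀)).1 + 1) - (w₀ + (j:ℂ) - z₁)‖ ≤
        1 / 50 * ‖w₀ - z₁‖ + j * η := by
      intro j
      induction j with
      | zero =>
        intro _
        simpa using hw₀l
      | succ j ih =>
        intro hj
        have h3 := ih (by omega)
        have hre : (w₀ + ((j + 1 : ℕ) : ℂ)).re = w.re - i + (j + 1) := by
          rw [Complex.add_re, ew0r]
          simp
        have hj0 : (0:ℝ) ≤ j := Nat.cast_nonneg j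
        have h4 := LoA_step hC' (z := w₀ + ((j + 1 : ℕ) : ℂ)) (by rw [hre]; linarith)
        have e1 : w₀ + ((j + 1 : ℕ) : ℂ) - 1 = w₀ + (j:ℂ) := by
          push_cast
          ring
        rw [e1] at h4
        have e2 : w₀ + ((j + 1 : ℕ) : ℂ) = w - ((i - (j + 1) : ℕ) : ℂ) := by
          rw [Nat.cast_sub hj, hw₀]
          ring
        have h5 : (OU (w₀ + ((j + 1 : ℕ) : ℂ), ρ₀)).2 ∈ Bx s1 s2 := by
          have h6 := hb (i - (j + 1)) (by
            rw [Nat.cast_sub hj]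
            push_cast
            linarith)
          rw [e2]
          exact h6
        have h6 := hC'.gd.gc _ h5
        rw [h4]
        have e3 : ν * ((OU (w₀ + (j:ℂ), ρ₀)).1 + g (OU (w₀ + ((j + 1 : ℕ) : ℂ), ρ₀)).2 + 1) -
            (w₀ + ((j + 1 : ℕ) : ℂ) - z₁) =
            (ν * ((OU (w₀ + (j:ℂ), ρ₀)).1 + 1) - (w₀ + (j:ℂ) - z₁)) +
              (ν * g (OU (w₀ + ((j + 1 : ℕ) : ℂ), ρ₀)).2 - 1) := by
          push_cast
          ring
        have e4 : ((j + 1 : ℕ) : ℝ) * η = j * η + η := by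
          push_cast
          ring
        rw [e3, e4]
        refine (norm_add_le _ _).trans ?_
        linarith
    have h3 := hind i le_rfl
    have e1 : w₀ + (i:ℂ) = w := by rw [hw₀]; ring
    rw [e1] at h3
    have h4 : ‖w₀ - z₁‖ ≤ ‖w - z₁‖ := by
      rw [Complex.norm_def, Complex.norm_def]
      refine Real.sqrt_le_sqrt ?_
      rw [Complex.normSq_apply, Complex.normSq_apply, Complex.sub_re, Complex.sub_im,
        Complex.sub_re, Complex.sub_im, ew0r, ew0i]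
      nlinarith
    have h5 : (i:ℝ) ≤ 2 * ‖w - z₁‖ := by
      have h6 := (Complex.re_le_norm (w - z₁))
      rw [Complex.sub_re] at h6
      linarith
    have h6 : (i:ℝ) * η ≤ 1 / 100 * ‖w - z₁‖ := by
      have h7 : (i:ℝ) * η ≤ 2 * ‖w - z₁‖ * (1 / 200) :=
        mul_le_mul h5 hη1 hη0 (by positivity)
      linarith
    linarith

theorem sgn_u (hν : 0 < ν) {w a : ℂ} (hw : Adm k z₁ w) (h : ‖ν * a - (w - z₁)‖ ≤ 3 / 100 * ‖w - z₁‖) :
    a ≠ 0 ∧ 97 / 100 * ‖w - z₁‖ / ν ≤ ‖a‖ ∧ (0 ≤ a.re → a.im ≤ 11 / 10 * a.re) := by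
  have hcol := hw.col
  set u := w - z₁ with hu
  set N := ‖u‖ with hN
  have hu0 : u ≠ 0 := by
    intro h0
    rcases hcol with h1 | ⟨-, h2⟩
    · rw [h0] at h1
      have := Real.exp_pos (-k)
      simp only [Complex.zero_im] at h1
      linarith
    · have h3 := h2 0
      rw [h0] at h3
      norm_num at h3
  have hN0 : 0 < N := norm_pos_iff.2 hu0
  have hre := (Complex.abs_re_le_norm (ν * a - u)).trans h
  have him := (Complex.abs_im_le_norm (ν * a - u)).trans h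
  have er : (ν * a - u).re = ν * a.re - u.re := by
    rw [Complex.sub_re, Complex.re_ofReal_mul]
  have ei : (ν * a - u).im = ν * a.im - u.im := by
    rw [Complex.sub_im, Complex.im_ofReal_mul]
  rw [er, abs_le] at hre
  rw [ei, abs_le] at him
  have hN2 : N ^ 2 = u.re ^ 2 + u.im ^ 2 := by
    rw [hN, Complex.sq_norm, Complex.normSq_apply]
    ring
  refine ⟨?_, ?_, ?_⟩
  · rintro rfl
    rw [mul_zero, zero_sub, norm_neg] at h
    linarith
  · have h1 : N - ‖(ν:ℂ) * a‖ ≤ ‖(ν:ℂ) * a - u‖ := by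
      rw [norm_sub_rev]
      exact norm_sub_norm_le _ _
    rw [norm_mul, Complex.norm_real, Real.norm_of_nonneg hν.le] at h1
    rw [div_le_iff₀ hν]
    linarith
  · intro ha
    have hνa : 0 ≤ ν * a.re := mul_nonneg hν.le ha
    have hfin : ν * a.im ≤ 11 / 10 * (ν * a.re) → a.im ≤ 11 / 10 * a.re := by
      intro h1
      have h2 : ν * a.im ≤ ν * (11 / 10 * a.re) := by linarith
      exact le_of_mul_le_mul_left h2 hν
    rcases lt_or_ge u.im 0 with hy | hy
    · rcases le_or_gt u.re 0 with hx | hx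
      · have h1 : -(3 / 100 * N) ≤ u.re := by linarith
        have h2 : u.im ≤ -(99 / 100 * N) := by
          by_contra hcon
          push Not at hcon
          nlinarith
        refine hfin ?_
        nlinarith
      · by_cases h0 : ν * a.im ≤ 0
        · refine hfin ?_
          linarith
        · push Not at h0
          have h1 : -(3 / 100 * N) < u.im := by linarith
          have h2 : 99 / 100 * N ≤ u.re := by
            by_contra hcon
            push Not at hcon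
            nlinarith
          refine hfin ?_
          nlinarith
    · rcases hcol with h1 | ⟨h1, h2⟩
      · have := Real.exp_pos (-k)
        linarith
      · have h3 := h2 0
        rw [Int.cast_zero, sub_zero] at h3
        have hy2 : u.im ^ 2 ≤ u.re ^ 2 := by
          rw [← sq_abs u.re]
          have : u.im ≤ |u.re| := h1.trans h3
          nlinarith
        have hN3 : N ≤ 142 / 100 * |u.re| := by
          have h4 : N ^ 2 ≤ (142 / 100 * |u.re|) ^ 2 := by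
            rw [mul_pow, sq_abs]
            nlinarith [sq_nonneg u.re]
          exact LoA_sq h4 (by positivity)
        rcases le_or_gt u.re 0 with hx | hx
        · exfalso
          rw [abs_of_nonpos hx] at hN3 h3
          nlinarith
        · rw [abs_of_pos hx] at hN3 h3
          refine hfin ?_
          nlinarith

theorem low_seq (hC : Chn k ν X δ η Dl s1 s2 G n g ellp OP ρ₀)
    (hC' : Chn k ν X δ η Dl s1 s2 G n g ellu OU ρ₀) (hz : IsZ1 k ν X δ OP ρ₀ z₁)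
    (h0 : ∀ z : ℂ, -X - 1 ≤ z.re → z.re ≤ -X → |z.im| ≤ k → OU =ᶠ[𝓝 (z, ρ₀)] OP)
    (hθ : arg ρ₀ ≤ ph0) {z : ℂ} (h1 : -X < z.re) (hw : Adm k z₁ z) :
    (OU (z, ρ₀)).2 ∈ Bx s1 s2 ∧ (OU (z - 1, ρ₀)).2 ∈ Bx s1 s2 ∧
      G (OU (z, ρ₀)).2 = G (OU (z - 1, ρ₀)).2 + ellu (OU (z - 1, ρ₀)).1 ∧
      ‖(OU (z, ρ₀)).1 - (z / ν - 1 / 2)‖ ≤ 2 * δ ∧
      arg ρ₀ - Real.pi - 1 / 10000 ≤ (OU (z, ρ₀)).2.im ∧ (OU (z, ρ₀)).2.im ≤ -(1 / 4) ∧
      |(OU (z, ρ₀)).2.re - Real.log (X * ‖ρ₀‖)| ≤ X / k + 300 := by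
  have hP := hC.par
  have hk := hP.hk
  have hν1 := hP.ν1
  have hν2 := hP.ν2
  have hX := hP.hX
  have hδ0 := hP.δ0
  have hδ1 := hP.δ1
  have hk0 : (0:ℝ) < k := lt_of_lt_of_le (by positivity) hk
  have hν0 : 0 < ν := by linarith
  have hν0' : (ν:ℂ) ≠ 0 := by exact_mod_cast hν0.ne'
  obtain ⟨hz1r, hz1i⟩ := LoA_z1 hP hz
  have hz1i' := (abs_le.1 hz1i).2
  have hz1r' := (abs_le.1 hz1r).1
  have hupz := LoA_up hw
  rw [Complex.sub_im] at hupz
  have hlow := hw.low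
  have hright := hw.right
  have hX' : -X < z₁.re + 1 / 2 := by
    norm_num at hz1r' hX hk
    linarith
  have hzim : z.im ≤ k / 10 ^ 11 + 1 / 8 := by linarith
  have hzimk : |z.im| ≤ k := by
    rw [abs_le]
    norm_num at hzim hk
    constructor <;> linarith
  set m : ℕ := nst X z with hm
  have hmdef : m = ⌈z.re + X⌉₊ := rfl
  have hm0 : 0 < z.re + X := by linarith
  have hm1 : z.re + X ≤ m := by rw [hmdef]; exact Nat.le_ceil _
  have hm2 : (m:ℝ) < z.re + X + 1 := by rw [hmdef]; exact Nat.ceil_lt_add_one hm0.le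
  have hm3 : 1 ≤ m := by
    rw [hmdef]
    exact Nat.one_le_iff_ne_zero.2 (Nat.ceil_pos.2 hm0).ne'
  set p : ℕ → ℂ × ℂ := fun i => OU (z - (m:ℂ) + (i:ℂ), ρ₀) with hp
  have hre : ∀ i : ℕ, (z - (m:ℂ) + (i:ℂ)).re = z.re - m + i := by
    intro i
    simp
  have him : ∀ i : ℕ, (z - (m:ℂ) + (i:ℂ)).im = z.im := by
    intro i
    simp
  have hmX : (m:ℝ) ≤ X + k := by
    norm_num at hk
    linarith
  have hstart := start_good hC' (z := z - (m:ℂ) + ((0:ℕ):ℂ)) (by rw [hre]; push_cast; linarith)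
    (by rw [hre]; push_cast; linarith) (by rw [him]; exact hzimk)
  obtain ⟨-, hst1, hst2, -⟩ := hstart
  have hst0 := hC'.ss (z - (m:ℂ) + ((0:ℕ):ℂ)) (by rw [hre]; push_cast; linarith)
    (by rw [hre]; push_cast; linarith) (by rw [him]; exact hzimk)
  have hth1 := hC'.th1
  have haa : aa = 1 / 12800 := rfl
  have hph2 : ph2 = 1 / 1600 := rfl
  have hph0 : ph0 = 1 / 100 := rfl
  have hpi := Real.pi_gt_d6
  have hpe : Real.exp (-k) ≤ 1 / 8 := by
    have h3 : Real.exp (-k) ≤ Real.exp (-10) := Real.exp_le_exp.2 (by norm_num at hk; linarith)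
    have h4 : (10:ℝ) + 1 ≤ Real.exp 10 := Real.add_one_le_exp 10
    have h5 : Real.exp (-10) ≤ 1 / 8 := by
      rw [Real.exp_neg, inv_eq_one_div]
      exact one_div_le_one_div_of_le (by norm_num) (by linarith)
    exact h3.trans h5
  have hδν : 2 * δ ≤ 2 / 10 ^ 12 := by norm_num at hδ1 ⊢; linarith
  have hW : ∀ i ≤ m, (∀ l < i, ‖(p l).1 - ((z - (m:ℂ) + (l:ℂ)) / ν - 1 / 2)‖ ≤ 2 * δ ∧
        (p l).2 ∈ Bx s1 s2) →
      ‖∑ l ∈ Finset.range i, ellu (p l).1‖ ≤ (X / k + 200) * ν ∧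
        -(1 / 15000) * ν ≤ (∑ l ∈ Finset.range i, ellu (p l).1).im ∧
        (∑ l ∈ Finset.range i, ellu (p l).1).im ≤ 57 / 20 * ν := by
    intro i hi hl
    have hiR : (i:ℝ) ≤ m := by exact_mod_cast hi
    set a : ℕ → ℂ := fun j => (p (i - j)).1 + 1 with ha
    set x0 : ℝ := (z.re - m + i) / ν + 1 / 2 with hx0
    set y : ℝ := z.im / ν with hy
    set t : ℝ := z.re - m + i - z₁.re with ht
    have hx0' : x0 ≤ 27 / 50 := by
      have h3 : (z.re - m + i) / ν ≤ 1 / 30 := by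
        rw [div_le_iff₀ hν0]
        linarith
      rw [hx0]
      linarith
    have hy1 : -(2 / 25) ≤ y := by
      rw [hy, le_div_iff₀ hν0]
      linarith
    have hy2 : y ≤ e6 := by
      rw [hy, div_le_iff₀ hν0]
      unfold e6
      norm_num at hzim hk ⊢
      linarith
    have hnorm : ∀ j ∈ Finset.Icc 1 i,
        ‖a j - (((x0 - (j:ℝ) / ν : ℝ) : ℂ) + (y:ℂ) * I)‖ ≤ 2 * δ := by
      intro j hj
      rw [Finset.mem_Icc] at hj
      have h3 := (hl (i - j) (by omega)).1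
      have e1 : a j - (((x0 - (j:ℝ) / ν : ℝ) : ℂ) + (y:ℂ) * I) =
          (p (i - j)).1 - ((z - (m:ℂ) + ((i - j : ℕ) : ℂ)) / ν - 1 / 2) := by
        have e2 : z = (z.re : ℂ) + (z.im : ℂ) * I := (Complex.re_add_im z).symm
        have e3 : ((x0 - (j:ℝ) / ν : ℝ) : ℂ) + (y:ℂ) * I =
            (z - (m:ℂ) + ((i - j : ℕ) : ℂ)) / ν + 1 / 2 := by
          rw [Nat.cast_sub hj.2, hx0, hy]
          conv_rhs => rw [e2]
          push_cast
          field_simp
          ring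
        rw [e3, ha]
        ring
      rw [e1]
      exact h3
    have hsum : ∀ F : ℂ → ℂ, ∑ l ∈ Finset.range i, F (p l).1 =
        ∑ j ∈ Finset.Icc 1 i, F (a j - 1) := by
      intro F
      have e1 : ∀ j, a j - 1 = (p (i - j)).1 := by
        intro j
        rw [ha]
        ring
      simp only [e1]
      refine Finset.sum_nbij' (fun l => i - l) (fun j => i - j) ?_ ?_ ?_ ?_ ?_
      · intro l hl'
        rw [Finset.mem_range] at hl'
        rw [Finset.mem_Icc]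
        omega
      · intro j hj
        rw [Finset.mem_Icc] at hj
        rw [Finset.mem_range]
        omega
      · intro l hl'
        rw [Finset.mem_range] at hl'
        omega
      · intro j hj
        rw [Finset.mem_Icc] at hj
        omega
      · intro l hl'
        rw [Finset.mem_range] at hl'
        have e2 : i - (i - l) = l := by omega
        simp only [e2]
    have hcomb : (∀ j ∈ Finset.Icc 1 i,
        9 / 10 * max (Real.exp (-k)) |t - j| / ν ≤ ‖a j‖ ∨ e6 / 8 ≤ ‖a j‖) ∧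
        ((∀ j ∈ Finset.Icc 1 i, (a j).im < 0) ∨ (|y| ≤ e6 ∧ ∀ j ∈ Finset.Icc 1 i,
          0 ≤ (a j).re → (a j).im ≤ 11 / 10 * (a j).re ∧ a j ≠ 0)) := by
      rcases lt_or_ge z.im (-(e6 * k)) with hc | hc
      · have hye : y ≤ -(e6 / 3) := by
          rw [hy, div_le_iff₀ hν0]
          unfold e6 at hc ⊢
          norm_num at hc hk ⊢
          linarith
        have hneg : ∀ j ∈ Finset.Icc 1 i, (a j).im ≤ -(e6 / 8) := by
          intro j hj
          have h3 := (Complex.abs_im_le_norm _).trans (hnorm j hj)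
          have e1 : (a j - (((x0 - (j:ℝ) / ν : ℝ) : ℂ) + (y:ℂ) * I)).im = (a j).im - y := by
            simp
          rw [e1, abs_le] at h3
          have h4 := h3.2
          unfold e6 at hye ⊢
          norm_num at hye hδν ⊢
          linarith
        have he6 : (0:ℝ) < e6 / 8 := by unfold e6; norm_num
        refine ⟨fun j hj => Or.inr ?_, Or.inl fun j hj => ?_⟩
        · have h3 := Complex.abs_im_le_norm (a j)
          have h4 := hneg j hj
          have h5 : e6 / 8 ≤ |(a j).im| := by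
            rw [abs_of_neg (by linarith)]
            linarith
          linarith
        · have h4 := hneg j hj
          linarith
      · have hkey : ∀ j ∈ Finset.Icc 1 i, a j ≠ 0 ∧
            9 / 10 * max (Real.exp (-k)) |t - j| / ν ≤ ‖a j‖ ∧
            (0 ≤ (a j).re → (a j).im ≤ 11 / 10 * (a j).re) := by
          intro j hj
          rw [Finset.mem_Icc] at hj
          have hlm : i - j ≤ m := by omega
          set w : ℂ := z - (m:ℂ) + ((i - j : ℕ) : ℂ) with hwd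
          have ew : w = z - ((m - (i - j) : ℕ) : ℂ) := by
            rw [hwd, Nat.cast_sub hlm]
            ring
          have hAw : Adm k z₁ w := by
            rw [ew]
            exact adm_shift hw _
          have hwre : w.re = z.re - m + ((i - j : ℕ) : ℝ) := hre _
          have hwim : w.im = z.im := him _
          have hcast : ((i - j : ℕ) : ℝ) = i - j := Nat.cast_sub hj.2
          have h3 := near_u hC hC' hz h0 (w := w) (by
              rw [hwre]
              have : (0:ℝ) ≤ ((i - j : ℕ) : ℝ) := Nat.cast_nonneg _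
              linarith) hAw (by rw [hwim]; exact hc) (by
              intro j' hj'
              rw [hwre] at hj'
              have hlt : ((j' : ℕ) : ℝ) < ((i - j : ℕ) : ℝ) := by linarith
              have hlt' : j' < i - j := by exact_mod_cast hlt
              have h4 := (hl (i - j - j') (by omega)).2
              have e1 : w - (j':ℂ) = z - (m:ℂ) + ((i - j - j' : ℕ) : ℂ) := by
                rw [hwd, Nat.cast_sub hlt'.le]
                ring
              rw [e1]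
              exact h4)
          have h4 := sgn_u hν0 (a := a j) hAw h3
          refine ⟨h4.1, le_trans ?_ h4.2.1, h4.2.2⟩
          refine div_le_div_of_nonneg_right ?_ hν0.le
          have h5 : max (Real.exp (-k)) |t - j| ≤ ‖w - z₁‖ := by
            refine max_le ?_ ?_
            · rcases hAw.col with h6 | ⟨-, h6⟩
              · have h7 := Complex.abs_im_le_norm (w - z₁)
                have h8 := neg_abs_le (w - z₁).im
                linarith
              · have h7 := Complex.abs_re_le_norm (w - z₁)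
                have h8 := h6 0
                rw [Int.cast_zero, sub_zero] at h8
                linarith
            · have h7 := Complex.abs_re_le_norm (w - z₁)
              have e1 : (w - z₁).re = t - j := by
                rw [Complex.sub_re, hwre, hcast, ht]
                ring
              rw [e1] at h7
              exact h7
          have h6 : 0 ≤ ‖w - z₁‖ := norm_nonneg _
          nlinarith
        refine ⟨fun j hj => Or.inl (hkey j hj).2.1, Or.inr ⟨?_, fun j hj hr =>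
          ⟨(hkey j hj).2.2 hr, (hkey j hj).1⟩⟩⟩
        rw [abs_le]
        refine ⟨?_, hy2⟩
        rw [hy, le_div_iff₀ hν0]
        have he6 : (0:ℝ) < e6 := by unfold e6; norm_num
        nlinarith
    have hcol := col_low hP (m := i) (x0 := x0) (y := y) (t := t) (a := a) (hiR.trans hmX)
      hx0' hy1 hy2 hnorm hcomb.1 hcomb.2
    rw [hsum ellu]
    refine ⟨(norm_sum_le _ _).trans hcol.1, ?_, ?_⟩
    · rw [Complex.im_sum]
      have := hcol.2.1
      linarith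
    · rw [Complex.im_sum]
      exact hcol.2.2
  have hmain := seq_main hP hC'.gd (ell := ellu) (m := m) (p := p) (z := z) (θ := arg ρ₀)
    (lr := Real.log (X * ‖ρ₀‖)) (c1 := -(1 / 15000)) (c2 := 57 / 20) hmX hC'.b1 hC'.b2
    (by norm_num) (by norm_num) (by rw [haa]; rw [hph2] at hth1; norm_num at hth1 ⊢; linarith)
    (by rw [haa]; rw [hph0] at hθ; norm_num at hθ hpi ⊢; linarith)
    (by
      have e1 : z - (m:ℂ) = z - (m:ℂ) + ((0:ℕ):ℂ) := by simp
      rw [e1]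
      exact hst0) hst1 hst2
    (by
      intro i hi
      have h3 := hC'.step (z - (m:ℂ) + ((i + 1 : ℕ) : ℂ)) (by
        rw [hre]
        push_cast
        have : (0:ℝ) ≤ i := Nat.cast_nonneg i
        linarith) ρ₀
      have e1 : z - (m:ℂ) + ((i + 1 : ℕ) : ℂ) - 1 = z - (m:ℂ) + (i:ℂ) := by
        push_cast
        ring
      rw [e1] at h3
      exact h3) hW
  have hpm : p m = OU (z, ρ₀) := by
    change OU (z - (m:ℂ) + (m:ℂ), ρ₀) = _
    rw [sub_add_cancel]
  have hpm1 : p (m - 1) = OU (z - 1, ρ₀) := by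
    change OU (z - (m:ℂ) + ((m - 1 : ℕ) : ℂ), ρ₀) = _
    rw [Nat.cast_sub hm3]
    congr 2
    push_cast
    ring
  obtain ⟨c1, c2, c3, c4, c5, c6⟩ := hmain m le_rfl
  obtain ⟨d1, -, -, -, -, -⟩ := hmain (m - 1) (by omega)
  have c2' := c2 (m - 1) (by omega)
  rw [Nat.sub_add_cancel hm3, hpm, hpm1] at c2'
  rw [hpm] at c1 c3 c4 c5 c6
  rw [hpm1] at d1
  refine ⟨c1, d1, c2', ?_, ?_, ?_, ?_⟩
  · have e1 : z - (m:ℂ) + (m:ℂ) = z := sub_add_cancel _ _
    rw [e1] at c3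
    exact c3
  · norm_num at c4 ⊢
    linarith
  · rw [hph0] at hθ
    norm_num at c5 hθ hpi ⊢
    linarith
  · linarith

end Pool.Agent.MP_ae5b4e_an_N4
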