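import Pool.Agent.Lib.MP_ae5b4e_an_N4.Ell
import Pool.Agent.Lib.MP_ae5b4e_an_N4.Gin
import Pool.Agent.Lib.MP_ae5b4e_an_N4.Itf

/-!
# N4, module Mir: reflection of the start data

`tau σ = conj σ - π i` is an involution of `Bx s1 s2` (`Im (tau σ) = - Im σ - π`, `Re` fixed); it is an
isometry.  `mirF f = conj ∘ f ∘ tau`.
* `mir_deriv`: `HasDerivAt f f' (tau σ)` implies `HasDerivAt (mirF f) (conj f') σ`
  (`HasDerivAt.conj_conj` or `hasDerivAt_conj_conj_iff`, and the translation).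
* `mir_gd`: all fields by conjugation; `deriv (mirF n) σ = conj (deriv n (tau σ))`.
* `mir_inv`: for `σ ∈ Bx`: `invFunOn (mirF G) Bx (mirF G σ) = σ` (`mir_gd`, `inv_eq`).
* `mir_stp`: for a state `(s, σ)` with `σ ∈ Bx`, `(s.re < -1 ∨ s.im ≠ 0 ∨ 0 < s.re)`, such that
  `G σ⁺ = G σ + ellp s` for some `σ⁺ ∈ Bx`:
  `stp ellp Bx (mirF G) (mirF g) (conj s, tau σ) = (conj (stp …(s, σ)).1, tau (stp … (s, σ)).2)`:
  `mirF G (tau σ) + ellp (conj s) = conj (G σ + ellp s) = conj (G σ⁺) = mirF G (tau σ⁺)` (`ellp_conj`), so the new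
  label is `tau σ⁺`; the first component is `conj s + mirF g (tau σ⁺) = conj (s + g σ⁺)`.
* `std_mir`: the map `p ↦ (conj p.1, - conj p.2)` is an involution, `(z, - conj ρ₀) ↦ (conj z, ρ₀)`.
  `arg (- conj ρ₀) = π - arg ρ₀` (`0 < ρ₀.im`), `‖- conj ρ₀‖ = ‖ρ₀‖`.  `an`: if `f` is analytic at
  `(conj z, ρ₀)` then `p ↦ conj (f (conj p.1, - conj p.2))` is analytic at `(z, - conj ρ₀)` (there may be a
  general lemma in `NBT/DomE.lean` or `SCV`; otherwise: conjugate the coefficients of the power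
  series, or differentiability on a neighbourhood (`DifferentiableOn` in two complex variables on an
  open set implies analytic) by `fderiv` of the conjugated map).
  `ss`, `sds`, `sdl` by conjugation (`deriv (fun w => conj (f (conj w))) z = conj (deriv f (conj z))`).
  `sl`: `tau (log ρ₀ + lgu w) = log (- conj ρ₀) + lgu (conj w)` for `w = conj z`, `w.re < 0`:
  `log (- conj ρ₀) = log ‖ρ₀‖ + (π - arg ρ₀) i`; `lgu (conj w) = conj (lgu w) - 2 π i` (`w.re < 0`: both sides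
  have the exponential `conj w` and imaginary parts in `(- 3 π / 2, - π / 2)`, `lgu_neg`); sum:
  `conj (log ρ₀) + π i + conj (lgu w) - 2 π i = conj (log ρ₀ + lgu w) - π i`.
  `st`: near `(z, - conj ρ₀)` (the involution is continuous) apply `Std.st` at `conj z` and `mir_stp` to the
  state `S0 (conj p.1 - 1, - conj p.2)`: its first component has real part `< -1` near (`ss`), its
  second component is in the box near (`sl`, `b1`, `b2`; open set), and with `σ⁺ := (S0 (conj p.1, - conj p.2)).2`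
  one has `G σ⁺ = G σ + ellp s`: by `Std.st` `σ⁺ = invFunOn G Bx (G σ + ellp s)` and the value is attained:
  `G_solve` (`‖s‖ ≥ X / (3 k) ≥ 2`, `‖ellp s‖ ≤ 1`, `ellp_far`; displacement `≤ 2 / ν`, the label of the start
  zone has room).
-/

set_option autoImplicit false

noncomputable section

namespace Pool.Agent.MP_ae5b4e_an_N4

open Complex Set Filter Topology Metric
open scoped ComplexConjugate

variable {k ν X δ η Dl s1 s2 : ℝ} {G n g : ℂ → ℂ}

theorem tau_tau (σ : ℂ) : tau (tau σ) = σ := by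
  unfold tau
  rw [map_sub, map_mul, conj_conj, conj_ofReal, conj_I]
  ring

private theorem Mir_re (σ : ℂ) : (tau σ).re = σ.re := by
  unfold tau
  simp

private theorem Mir_im (σ : ℂ) : (tau σ).im = -σ.im - Real.pi := by
  unfold tau
  simp

theorem tau_mem {σ : ℂ} : tau σ ∈ Bx s1 s2 ↔ σ ∈ Bx s1 s2 := by
  unfold Bx
  rw [mem_ofPred_eq, mem_ofPred_eq, Mir_re, Mir_im]
  constructor
  · rintro ⟨h1, h2, h3, h4⟩
    exact ⟨h1, h2, by linarith, by linarith⟩
  · rintro ⟨h1, h2, h3, h4⟩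
    exact ⟨h1, h2, by linarith, by linarith⟩

private theorem Mir_comp (f : ℂ → ℂ) :
    mirF f = conj ∘ (fun w => f (w - (Real.pi : ℂ) * I)) ∘ conj := by
  funext σ
  rfl

theorem mir_deriv {f : ℂ → ℂ} {f' σ : ℂ} (h : HasDerivAt f f' (tau σ)) :
    HasDerivAt (mirF f) (conj f') σ := by
  have h1 : HasDerivAt (fun w => f (w - (Real.pi : ℂ) * I)) f' (conj σ) :=
    HasDerivAt.comp_sub_const (conj σ) ((Real.pi : ℂ) * I) h
  have h2 := h1.conj_conj
  rw [conj_conj] at h2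
  rw [Mir_comp]
  exact h2

private theorem Mir_deriv (f : ℂ → ℂ) (σ : ℂ) : deriv (mirF f) σ = conj (deriv f (tau σ)) := by
  rw [Mir_comp, deriv_conj_conj]
  change conj (deriv (fun w => f (w - (Real.pi : ℂ) * I)) (conj σ)) = _
  rw [deriv_comp_sub_const]
  rfl

theorem mir_gd (hg : Gd ν η s1 s2 G n g) : Gd ν η s1 s2 (mirF G) (mirF n) (mirF g) where
  dG σ hσ := mir_deriv (hg.dG (tau σ) (tau_mem.2 hσ))
  dn σ hσ := by
    have h1 : DifferentiableAt ℂ n (tau σ) :=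
      (hg.dn (tau σ) (tau_mem.2 hσ)).differentiableAt (isOpen_Bx.mem_nhds (tau_mem.2 hσ))
    exact (mir_deriv h1.hasDerivAt).differentiableAt.differentiableWithinAt
  nc σ hσ := by
    have h1 := hg.nc (tau σ) (tau_mem.2 hσ)
    have h2 : mirF n σ - ν = conj (n (tau σ) - ν) := by
      rw [map_sub, conj_ofReal]
      rfl
    rw [h2, RCLike.norm_conj]
    exact h1
  geq σ hσ := by
    have h1 := hg.geq (tau σ) (tau_mem.2 hσ)
    rw [Mir_deriv]
    have h2 := congrArg conj h1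
    rw [map_mul, map_sub, map_div₀, map_one] at h2
    exact h2
  gc σ hσ := by
    have h1 := hg.gc (tau σ) (tau_mem.2 hσ)
    have h2 : ν * mirF g σ - 1 = conj (ν * g (tau σ) - 1) := by
      rw [map_sub, map_mul, conj_ofReal, map_one]
      rfl
    rw [h2, RCLike.norm_conj]
    exact h1
  dg σ hσ := by
    have h1 := hg.dg (tau σ) (tau_mem.2 hσ)
    have h2 : ν * deriv (mirF g) σ = conj (ν * deriv g (tau σ)) := by
      rw [Mir_deriv, map_mul, conj_ofReal]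
    rw [h2, RCLike.norm_conj]
    exact h1

theorem mir_stp (hg : Gd ν η s1 s2 G n g) (hν : 0 < ν) (hη : η < 1) {s σ σ' : ℂ}
    (h : s.re < -1 ∨ s.im ≠ 0 ∨ 0 < s.re) (hσ : σ ∈ Bx s1 s2) (hσ' : σ' ∈ Bx s1 s2)
    (he : G σ' = G σ + ellp s) :
    stp ellp (Bx s1 s2) G g (s, σ) = (s + g σ', σ') ∧
    stp ellp (Bx s1 s2) (mirF G) (mirF g) (conj s, tau σ) = (conj (s + g σ'), tau σ') := by
  have h1 := inv_eq hg hν hη hσ'
  have h2 := inv_eq (mir_gd hg) hν hη (tau_mem.2 hσ')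
  have h3 : mirF G (tau σ') = mirF G (tau σ) + ellp (conj s) := by
    unfold mirF
    rw [tau_tau, tau_tau, he, map_add, ellp_conj h]
  constructor
  · unfold stp
    rw [← he, h1]
  · unfold stp
    rw [← h3, h2, map_add]
    unfold mirF
    rw [tau_tau]

private theorem Mir_cc : Continuous fun q : ℂ × ℂ => ((conj q.1, -conj q.2) : ℂ × ℂ) :=
  (continuous_conj.comp continuous_fst).prodMk (continuous_conj.comp continuous_snd).neg

theorem mir_an {f : ℂ × ℂ → ℂ} {z ρ : ℂ} (h : AnalyticAt ℂ f (conj z, -conj ρ)) :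
    AnalyticAt ℂ (fun p : ℂ × ℂ => conj (f (conj p.1, -conj p.2))) (z, ρ) := by
  obtain ⟨V, hV, hVo, hpV⟩ := _root_.eventually_nhds_iff.1 h.eventually_analyticAt
  have hU : IsOpen ((fun q : ℂ × ℂ => ((conj q.1, -conj q.2) : ℂ × ℂ)) ⁻¹' V) :=
    hVo.preimage Mir_cc
  refine Pool.Agent.SCV.osgood _ hU _ ?_ ?_ ?_ (z, ρ) hpV
  · intro q hq
    have h1 : ContinuousAt f (conj q.1, -conj q.2) := (hV _ hq).continuousAt
    have h2 : ContinuousAt (fun q : ℂ × ℂ => f (conj q.1, -conj q.2)) q :=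
      ContinuousAt.comp (f := fun q : ℂ × ℂ => ((conj q.1, -conj q.2) : ℂ × ℂ)) h1
        Mir_cc.continuousAt
    exact (continuous_conj.continuousAt.comp h2).continuousWithinAt
  · intro q hq
    have h1 : DifferentiableAt ℂ f (conj q.1, -conj q.2) := (hV _ hq).differentiableAt
    have h2 : DifferentiableAt ℂ (fun x : ℂ => f (x, -conj q.2)) (conj q.1) :=
      DifferentiableAt.comp (f := fun x : ℂ => (x, -conj q.2)) (conj q.1) h1 (by fun_prop)
    have h3 := h2.conj_conj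
    rw [conj_conj] at h3
    exact h3
  · intro q hq
    have h1 : DifferentiableAt ℂ f (conj q.1, -conj q.2) := (hV _ hq).differentiableAt
    have h2 : DifferentiableAt ℂ (fun x : ℂ => f (conj q.1, -x)) (conj q.2) :=
      DifferentiableAt.comp (f := fun x : ℂ => (conj q.1, -x)) (conj q.2) h1 (by fun_prop)
    have h3 := h2.conj_conj
    rw [conj_conj] at h3
    exact h3

private theorem Mir_lgu {w : ℂ} (h : w.re < 0) :
    lgu w = Complex.log (-w) - (Real.pi : ℂ) * I := by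
  have hw : w ≠ 0 := by
    rintro rfl
    simp at h
  obtain ⟨h1, h2⟩ := lgu_neg h
  have h3 : |arg (-w)| < Real.pi / 2 := by
    rw [abs_arg_lt_pi_div_two_iff]
    left
    simpa using h
  obtain ⟨h4, h5⟩ := abs_lt.1 h3
  have hp := Real.pi_pos
  have h6 : (lgu w + (Real.pi : ℂ) * I).im = (lgu w).im + Real.pi := by simp
  have h7 : lgu w + (Real.pi : ℂ) * I = Complex.log (-w) := by
    refine exp_inj_of_neg_pi_lt_of_le_pi ?_ ?_ ?_ ?_ ?_
    · rw [h6]; linarith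
    · rw [h6]; linarith
    · rw [log_im]; linarith
    · rw [log_im]; linarith
    · rw [exp_add, exp_lgu hw, exp_pi_mul_I, exp_log (neg_ne_zero.2 hw)]
      ring
  rw [← h7]
  ring

private theorem Mir_lgu_conj {w : ℂ} (h : w.re < 0) :
    lgu (conj w) = conj (lgu w) - 2 * (Real.pi : ℂ) * I := by
  have h1 : (conj w).re < 0 := by simpa using h
  have h2 : |arg (-w)| < Real.pi / 2 := by
    rw [abs_arg_lt_pi_div_two_iff]
    left
    simpa using h
  have h3 : arg (-w) ≠ Real.pi := by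
    intro h4
    rw [h4, abs_of_pos Real.pi_pos] at h2
    linarith [Real.pi_pos]
  rw [Mir_lgu h1, Mir_lgu h, ← map_neg, log_conj _ h3, map_sub, map_mul, conj_ofReal, conj_I]
  ring

private theorem Mir_arg {w : ℂ} {a b : ℝ} (ha : 0 < a) (h : a ≤ w.re) (hb : |w.im| ≤ b) :
    |arg w| ≤ 2 * (b / a) := by
  have hw : 0 < w.re := lt_of_lt_of_le ha h
  have h1 : |arg w| < Real.pi / 2 := by
    rw [abs_arg_lt_pi_div_two_iff]
    exact Or.inl hw
  have h2 := Real.mul_abs_le_abs_sin h1.le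
  rw [sin_arg, abs_div, abs_norm] at h2
  have h3 : a ≤ ‖w‖ := h.trans ((le_abs_self _).trans (abs_re_le_norm w))
  have h4 : |w.im| / ‖w‖ ≤ b / a := div_le_div₀ ((abs_nonneg _).trans hb) hb ha h3
  have h5 : 0 ≤ |arg w| := abs_nonneg _
  have h6 : 1 / 2 * |arg w| ≤ 2 / Real.pi * |arg w| := by
    refine mul_le_mul_of_nonneg_right ?_ h5
    rw [div_le_div_iff₀ two_pos Real.pi_pos]
    linarith [Real.pi_le_four]
  linarith

/-- the labels of the start zone are in the box, with room -/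
private theorem Mir_pos {ρ₀ : ℂ} (hp : Par k ν X δ η Dl) (th1 : ph2 / 2 ≤ arg ρ₀)
    (th2 : arg ρ₀ ≤ Real.pi - ph2 / 2) (hρ : 0 < ‖ρ₀‖) (b1 : s1 ≤ Real.log (X * ‖ρ₀‖) - Dl)
    (b2 : Real.log (X * ‖ρ₀‖) + Dl ≤ s2) {z : ℂ} (h1 : -X - 1 ≤ z.re) (h2 : z.re ≤ -X)
    (h3 : |z.im| ≤ k) {σ : ℂ}
    (hσ : ‖σ - (Complex.log ρ₀ + lgu z)‖ < 23 / 100000) : σ ∈ Bx s1 s2 := by
  have hk := hp.hk
  have hk0 : 0 < k := by linarith
  have hX := hp.hX
  have hX0 : 0 < X := by nlinarith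
  have hD := hp.hD
  have hXk : 0 < X / k := div_pos hX0 hk0
  have hzre : z.re < 0 := by linarith
  have hz : z ≠ 0 := by
    rintro rfl
    simp at hzre
  have hn1 : X ≤ ‖z‖ := by
    have := (neg_le_abs z.re).trans (abs_re_le_norm z)
    linarith
  have hn2 : ‖z‖ ≤ X * 2 := by
    have h4 := norm_le_abs_re_add_abs_im z
    have h5 : |z.re| = -z.re := abs_of_neg hzre
    rw [h5] at h4
    nlinarith
  obtain ⟨c, hc⟩ : ∃ c, c = Complex.log ρ₀ + lgu z := ⟨_, rfl⟩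
  rw [← hc] at hσ
  have hcre : c.re = Real.log (‖ρ₀‖ * ‖z‖) := by
    rw [hc, add_re, log_re, lgu_re, Real.log_mul hρ.ne' (norm_pos_iff.2 hz).ne']
  have hcr1 : Real.log (X * ‖ρ₀‖) ≤ c.re := by
    rw [hcre]
    exact Real.log_le_log (mul_pos hX0 hρ) (by nlinarith)
  have hcr2 : c.re ≤ Real.log (X * ‖ρ₀‖) + 1 := by
    have h4 : c.re ≤ Real.log ((X * ‖ρ₀‖) * 2) := by
      rw [hcre]
      exact Real.log_le_log (mul_pos hρ (norm_pos_iff.2 hz)) (by nlinarith)
    rw [Real.log_mul (mul_pos hX0 hρ).ne' two_ne_zero] at h4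
    linarith [Real.log_two_lt_d9]
  have hcim : c.im = arg ρ₀ + (arg (-z) - Real.pi) := by
    rw [hc, add_im, log_im, Mir_lgu hzre, sub_im, log_im]
    simp
  have harg : |arg (-z)| ≤ 2 * (k / X) := by
    refine Mir_arg hX0 ?_ ?_
    · rw [neg_re]; linarith
    · rw [neg_im, abs_neg]; exact h3
  have hkX : k / X ≤ 1 / 10 ^ 10 := by
    rw [div_le_div_iff₀ hX0 (by positivity)]
    linarith
  obtain ⟨a1, a2⟩ := abs_le.1 harg
  have d1 := (abs_re_le_norm (σ - c)).trans_lt hσ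
  have d2 := (abs_im_le_norm (σ - c)).trans_lt hσ
  rw [sub_re] at d1
  rw [sub_im] at d2
  obtain ⟨d3, d4⟩ := abs_lt.1 d1
  obtain ⟨d5, d6⟩ := abs_lt.1 d2
  have e1 : ph2 = 1 / 1600 := rfl
  have e2 : aa = 1 / 12800 := rfl
  rw [e1] at th1 th2
  refine ⟨by linarith, by linarith, ?_, ?_⟩
  · rw [e2]
    norm_num at *
    linarith
  · rw [e2]
    norm_num at *
    linarith

private theorem Mir_num (hp : Par k ν X δ η Dl) : 0 < ν ∧ η ≤ 1 / 2 ∧ 10 ≤ X / ν ∧
    2 / ν ≤ 1 / 10 ^ 10 := by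
  have hk := hp.hk
  have hk0 : 0 < k := by linarith
  have hX := hp.hX
  have hX0 : 0 < X := by nlinarith
  have hν1 := hp.ν1
  have hν2 := hp.ν2
  have hν0 : 0 < ν := by linarith
  have hXk : 10 ^ 10 ≤ X / k := by
    rw [le_div_iff₀ hk0]
    exact hX
  refine ⟨hν0, ?_, ?_, ?_⟩
  · have h1 := hp.η1
    have h2 := hp.δ1
    have h3 : 1 ≤ (X / k) ^ 2 := by nlinarith
    have h4 := hp.η0
    have h5 : η * 1 ≤ η * (X / k) ^ 2 := mul_le_mul_of_nonneg_left h3 h4
    nlinarith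
  · rw [le_div_iff₀ hν0]
    nlinarith
  · rw [div_le_div_iff₀ hν0 (by positivity)]
    nlinarith

/-- in the start zone the label relation holds -/
theorem std_rel {S0 : ℂ × ℂ → ℂ × ℂ} {ρ₀ : ℂ} (hS : Std k ν X δ η Dl s1 s2 G n g S0 ρ₀) {z : ℂ}
    (hz : z.re = -X) (hz' : |z.im| ≤ k) :
    ∀ᶠ p in 𝓝 (z, ρ₀), (S0 (p.1 - 1, p.2)).1.re < -1 ∧ (S0 (p.1 - 1, p.2)).2 ∈ Bx s1 s2 ∧
      (S0 p).2 ∈ Bx s1 s2 ∧ G (S0 p).2 = G (S0 (p.1 - 1, p.2)).2 + ellp (S0 (p.1 - 1, p.2)).1 := by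
  obtain ⟨hν, hη, hXν, h2ν⟩ := Mir_num hS.par
  have hη0 := hS.par.η0
  have hδ1 := hS.par.δ1
  have hρn : 0 < ‖ρ₀‖ := by
    rw [norm_pos_iff]
    rintro rfl
    have := hS.hρ
    simp at this
  have hm1 : (z - 1).re = -X - 1 := by rw [sub_re, hz, one_re]
  have hm2 : |(z - 1).im| ≤ k := by rw [sub_im, one_im, sub_zero]; exact hz'
  have a0 := hS.an (z - 1) hm1.ge (by rw [hm1]; linarith) hm2
  have a1 := hS.an z (by rw [hz]; linarith) hz.le hz'
  have s0 := hS.ss (z - 1) hm1.ge (by rw [hm1]; linarith) hm2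
  have l0 := hS.sl (z - 1) hm1.ge (by rw [hm1]; linarith) hm2
  have l1 := hS.sl z (by rw [hz]; linarith) hz.le hz'
  have t0 : Tendsto (fun p : ℂ × ℂ => S0 (p.1 - 1, p.2)) (𝓝 (z, ρ₀)) (𝓝 (S0 (z - 1, ρ₀))) := by
    have hc : Continuous fun p : ℂ × ℂ => ((p.1 - 1, p.2) : ℂ × ℂ) := by fun_prop
    exact a0.continuousAt.tendsto.comp (hc.tendsto (z, ρ₀))
  have t1 : Tendsto S0 (𝓝 (z, ρ₀)) (𝓝 (S0 (z, ρ₀))) := a1.continuousAt.tendsto
  have c1 : (S0 (z - 1, ρ₀)).1.re < -4 := by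
    have h1 := (abs_re_le_norm _).trans s0
    have h2 : ((z - 1) / ν - 1 / 2 : ℂ).re = (-X - 1) / ν - 1 / 2 := by
      rw [sub_re, div_ofReal_re, hm1]
      norm_num
    rw [sub_re, h2] at h1
    have h3 : (-X - 1) / ν ≤ -10 := by
      rw [div_le_iff₀ hν]
      rw [le_div_iff₀ hν] at hXν
      linarith
    obtain ⟨-, h4⟩ := abs_le.1 h1
    norm_num at hδ1
    linarith
  have E1 : ∀ᶠ p in 𝓝 (z, ρ₀), (S0 (p.1 - 1, p.2)).1.re < -4 := by
    have hc : Continuous fun q : ℂ × ℂ => q.1.re := by fun_prop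
    exact ((hc.tendsto _).comp t0).eventually (gt_mem_nhds c1)
  have E2 : ∀ᶠ p in 𝓝 (z, ρ₀), ‖(S0 (p.1 - 1, p.2)).2 - (S0 (z - 1, ρ₀)).2‖ < 1 / 10000 := by
    have hc : Continuous fun q : ℂ × ℂ => ‖q.2 - (S0 (z - 1, ρ₀)).2‖ := by fun_prop
    refine ((hc.tendsto _).comp t0).eventually (gt_mem_nhds ?_)
    rw [sub_self, norm_zero]
    positivity
  have E3 : ∀ᶠ p in 𝓝 (z, ρ₀), (S0 p).2 ∈ Bx s1 s2 := by
    have hc : Continuous fun q : ℂ × ℂ => q.2 := by fun_prop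
    refine ((hc.tendsto _).comp t1).eventually (isOpen_Bx.mem_nhds ?_)
    refine Mir_pos hS.par hS.th1 hS.th2 hρn hS.b1 hS.b2 (z := z) (by rw [hz]; linarith) hz.le hz' ?_
    refine lt_of_le_of_lt l1 ?_
    norm_num at hδ1 ⊢
    linarith
  filter_upwards [E1, E2, E3, hS.st z hz hz'] with p e1 e2 e3 e4
  obtain ⟨s, hs⟩ : ∃ s, s = (S0 (p.1 - 1, p.2)).1 := ⟨_, rfl⟩
  obtain ⟨σ, hσ⟩ : ∃ σ, σ = (S0 (p.1 - 1, p.2)).2 := ⟨_, rfl⟩
  rw [← hs] at e1
  rw [← hσ] at e2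
  have hsn : 4 ≤ ‖s‖ := by
    have := (neg_le_abs s.re).trans (abs_re_le_norm s)
    linarith
  have hw : ‖ellp s‖ ≤ 1 := by
    have h1 : ‖s⁻¹‖ ≤ 1 / 4 := by
      rw [norm_inv, inv_eq_one_div]
      exact one_div_le_one_div_of_le (by norm_num) hsn
    have h2 := norm_log_one_add_half_le_self (h1.trans (by norm_num))
    unfold ellp
    linarith
  have hball : ∀ τ : ℂ, ‖τ - σ‖ ≤ 2 / ν → τ ∈ Bx s1 s2 := by
    intro τ hτ
    refine Mir_pos hS.par hS.th1 hS.th2 hρn hS.b1 hS.b2 (z := z - 1) hm1.ge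
      (by rw [hm1]; linarith) hm2 ?_
    have h1 : τ - (Complex.log ρ₀ + lgu (z - 1)) = (τ - σ) + (σ - (S0 (z - 1, ρ₀)).2) +
        ((S0 (z - 1, ρ₀)).2 - (Complex.log ρ₀ + lgu (z - 1))) := by ring
    rw [h1]
    have h2 := norm_add₃_le (a := τ - σ) (b := σ - (S0 (z - 1, ρ₀)).2)
      (c := (S0 (z - 1, ρ₀)).2 - (Complex.log ρ₀ + lgu (z - 1)))
    refine lt_of_le_of_lt h2 ?_
    have h3 : δ ≤ 1 / 10 ^ 5 := hδ1.trans (by norm_num)
    have h4 : 2 / ν ≤ 1 / 10 ^ 5 := h2ν.trans (by norm_num)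
    linarith
  have hσB : σ ∈ Bx s1 s2 := hball σ (by rw [sub_self, norm_zero]; positivity)
  have hcl : closedBall (σ + ellp s / ν) (2 * η * ‖ellp s‖ / ν) ⊆ Bx s1 s2 := by
    intro τ hτ
    rw [mem_closedBall, dist_eq_norm] at hτ
    refine hball τ ?_
    have h1 : τ - σ = (τ - (σ + ellp s / ν)) + ellp s / ν := by ring
    rw [h1]
    refine (norm_add_le _ _).trans ?_
    have h2 : ‖ellp s / (ν : ℂ)‖ ≤ 1 / ν := by
      rw [norm_div, Complex.norm_real, Real.norm_of_nonneg hν.le]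
      exact div_le_div_of_nonneg_right hw hν.le
    have h3 : 2 * η * ‖ellp s‖ / ν ≤ 1 / ν := by
      refine div_le_div_of_nonneg_right ?_ hν.le
      have := norm_nonneg (ellp s)
      nlinarith
    have h4 : 2 / ν = 1 / ν + 1 / ν := by ring
    linarith
  obtain ⟨σ', hσ', h5, h6⟩ := G_solve hS.gd hν hη0 hη hσB hcl
  have h7 : (S0 p).2 = σ' := by
    rw [e4]
    change Function.invFunOn G (Bx s1 s2) (G (S0 (p.1 - 1, p.2)).2 +
      ellp (S0 (p.1 - 1, p.2)).1) = σ'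
    rw [← hs, ← hσ]
    exact h6
  rw [← hs, ← hσ]
  refine ⟨by linarith, hσB, e3, ?_⟩
  rw [h7]
  exact h5

theorem std_mir {S0 : ℂ × ℂ → ℂ × ℂ} {ρ₀ : ℂ}
    (hS : Std k ν X δ η Dl s1 s2 G n g S0 ρ₀) :
    Std k ν X δ η Dl s1 s2 (mirF G) (mirF n) (mirF g) (mirS S0) (-conj ρ₀) := by
  obtain ⟨hν, hη, hXν, h2ν⟩ := Mir_num hS.par
  have hη1 : η < 1 := lt_of_le_of_lt hη (by norm_num)
  have hX0 : 0 < X := by
    have h1 := (le_div_iff₀ hν).1 hXν
    linarith
  have hcc : -conj (-conj ρ₀) = ρ₀ := by rw [map_neg, conj_conj, neg_neg]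
  have hargpi : arg ρ₀ ≠ Real.pi := by
    intro h
    have h1 := hS.th2
    rw [h] at h1
    have h2 : ph2 = 1 / 1600 := rfl
    rw [h2] at h1
    linarith
  have harg : arg (-conj ρ₀) = Real.pi - arg ρ₀ := by
    have h1 : (conj ρ₀).im < 0 := by
      rw [conj_im]
      linarith [hS.hρ]
    rw [arg_neg_eq_arg_add_pi_of_im_neg h1, arg_conj, if_neg hargpi]
    ring
  have hnorm : ‖-conj ρ₀‖ = ‖ρ₀‖ := by rw [norm_neg, RCLike.norm_conj]
  have him : ∀ z : ℂ, |z.im| ≤ k → |(conj z).im| ≤ k := fun z hz => by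
    rw [conj_im, abs_neg]
    exact hz
  have hre : ∀ z : ℂ, (conj z).re = z.re := fun z => conj_re z
  have e1 : ∀ z : ℂ, (mirS S0 (z, -conj ρ₀)).1 = conj (S0 (conj z, ρ₀)).1 := fun z => by
    unfold mirS
    rw [hcc]
  have e2 : ∀ z : ℂ, (mirS S0 (z, -conj ρ₀)).2 = tau (S0 (conj z, ρ₀)).2 := fun z => by
    unfold mirS
    rw [hcc]
  have d1 : ∀ z : ℂ, deriv (fun w => (mirS S0 (w, -conj ρ₀)).1) z =
      conj (deriv (fun w => (S0 (w, ρ₀)).1) (conj z)) := fun z => by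
    have h1 : (fun w => (mirS S0 (w, -conj ρ₀)).1) =
        conj ∘ (fun w => (S0 (w, ρ₀)).1) ∘ conj := by
      funext w
      rw [e1]
      rfl
    rw [h1, deriv_conj_conj]
    rfl
  have d2 : ∀ z : ℂ, deriv (fun w => (mirS S0 (w, -conj ρ₀)).2) z =
      conj (deriv (fun w => (S0 (w, ρ₀)).2) (conj z)) := fun z => by
    have h1 : (fun w => (mirS S0 (w, -conj ρ₀)).2) =
        fun w => (conj ∘ (fun w => (S0 (w, ρ₀)).2) ∘ conj) w - (Real.pi : ℂ) * I := by
      funext w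
      rw [e2]
      rfl
    rw [h1, deriv_sub_const, deriv_conj_conj]
    rfl
  refine ⟨hS.par, mir_gd hS.gd, ?_, ?_, ?_, ?_, ?_, ?_, ?_, ?_, ?_, ?_, ?_⟩
  · rw [neg_im, conj_im, neg_neg]
    exact hS.hρ
  · rw [harg]
    linarith [hS.th2]
  · rw [harg]
    linarith [hS.th1]
  · rw [hnorm]
    exact hS.b1
  · rw [hnorm]
    exact hS.b2
  · intro z h1 h2 h3
    have h4 := hS.an (conj z) (by rw [hre]; exact h1) (by rw [hre]; exact h2) (him z h3)
    rw [← hcc] at h4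
    have h5 : AnalyticAt ℂ (fun p => (S0 p).1) (conj z, -conj (-conj ρ₀)) := by
      exact AnalyticAt.fun_comp (g := fun q : ℂ × ℂ => q.1) analyticAt_fst h4
    have h6 : AnalyticAt ℂ (fun p => (S0 p).2) (conj z, -conj (-conj ρ₀)) := by
      exact AnalyticAt.fun_comp (g := fun q : ℂ × ℂ => q.2) analyticAt_snd h4
    exact (mir_an h5).prod ((mir_an h6).sub analyticAt_const)
  · intro z h1 h2 h3
    have h4 := hS.ss (conj z) (by rw [hre]; exact h1) (by rw [hre]; exact h2) (him z h3)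
    have h5 : (mirS S0 (z, -conj ρ₀)).1 - (z / ν - 1 / 2) =
        conj ((S0 (conj z, ρ₀)).1 - (conj z / ν - 1 / 2)) := by
      rw [e1, map_sub, map_sub, map_div₀, conj_conj, conj_ofReal, map_div₀, map_one, map_ofNat]
    rw [h5, RCLike.norm_conj]
    exact h4
  · intro z h1 h2 h3
    have h4 := hS.sds (conj z) (by rw [hre]; exact h1) (by rw [hre]; exact h2) (him z h3)
    have h5 : (ν : ℂ) * deriv (fun w => (mirS S0 (w, -conj ρ₀)).1) z - 1 =
        conj ((ν : ℂ) * deriv (fun w => (S0 (w, ρ₀)).1) (conj z) - 1) := by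
      rw [d1, map_sub, map_mul, conj_ofReal, map_one]
    rw [h5, RCLike.norm_conj]
    exact h4
  · intro z h1 h2 h3
    have h4 := hS.sl (conj z) (by rw [hre]; exact h1) (by rw [hre]; exact h2) (him z h3)
    have hzr : (conj z).re < 0 := by
      rw [hre]
      linarith
    have h6 : lgu z = conj (lgu (conj z)) - 2 * (Real.pi : ℂ) * I := by
      have := Mir_lgu_conj hzr
      rwa [conj_conj] at this
    have h7 : Complex.log (-conj ρ₀) = conj (Complex.log ρ₀) + (Real.pi : ℂ) * I := by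
      apply Complex.ext
      · simp [log_re]
      · rw [add_im, conj_im, log_im, log_im, harg]
        simp
        ring
    have h5 : (mirS S0 (z, -conj ρ₀)).2 - (Complex.log (-conj ρ₀) + lgu z) =
        conj ((S0 (conj z, ρ₀)).2 - (Complex.log ρ₀ + lgu (conj z))) := by
      rw [e2, h6, h7, map_sub, map_add]
      unfold tau
      ring
    rw [h5, RCLike.norm_conj]
    exact h4
  · intro z h1 h2 h3
    have h4 := hS.sdl (conj z) (by rw [hre]; exact h1) (by rw [hre]; exact h2) (him z h3)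
    rw [d2, RCLike.norm_conj]
    exact h4
  · intro z hz hz'
    have h1 := hS.st (conj z) (by rw [hre]; exact hz) (him z hz')
    have h2 := std_rel hS (z := conj z) (by rw [hre]; exact hz) (him z hz')
    have ht : Tendsto (fun q : ℂ × ℂ => ((conj q.1, -conj q.2) : ℂ × ℂ)) (𝓝 (z, -conj ρ₀))
        (𝓝 (conj z, ρ₀)) := by
      have := Mir_cc.tendsto (z, -conj ρ₀)
      rw [hcc] at this
      exact this
    filter_upwards [ht.eventually h1, ht.eventually h2] with p h3 h4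
    obtain ⟨h5, h6, h7, h8⟩ := h4
    obtain ⟨k1, k2⟩ := mir_stp hS.gd hν hη1 (Or.inl h5) h6 h7 h8
    have k3 : S0 (conj p.1, -conj p.2) = ((S0 (conj p.1 - 1, -conj p.2)).1 +
        g (S0 (conj p.1, -conj p.2)).2, (S0 (conj p.1, -conj p.2)).2) := by
      rw [← k1]
      exact h3
    have k4 : mirS S0 (p.1 - 1, p.2) = (conj (S0 (conj p.1 - 1, -conj p.2)).1,
        tau (S0 (conj p.1 - 1, -conj p.2)).2) := by
      unfold mirS
      rw [map_sub, map_one]
    rw [k4, k2]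
    unfold mirS
    refine Prod.ext ?_ rfl
    exact congrArg conj (congrArg Prod.fst k3)

end Pool.Agent.MP_ae5b4e_an_N4
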