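import Pool.Agent.Lib.MP_ae5b4e_an_N4.Mpx
import Pool.Agent.Lib.MP_ae5b4e_an_N4.Bar

/-!
# N4, module PtA: the antisymmetric part, upper bounds

`P = PP k ℓ ε`.

**`a_one`.** Take `w₁`, `w₂` from `hP.one z`, `hP.two z`, `W := (w₁ + w₂)/2` (`SubH.add`, `SubH.const_mul`).
Majorant `K Hc k ℓ ε (ph0/2) (ph0/2)`, `K := (1 + 16 η) Qa + 32 δ Q + 2`, `rc_le` on `Rc ℓ 0 ph0`, `B = k`, `N`.
Bottom, `x ∉ N`: `W ≤ (1+16η) m x ≤ (1+16η) Qa P x ≤ K P x = K Hc`.  (For `x ∉ N` only.)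
Top: `W ≤ (Ω₁ - Ω₂)/2 + 16 δ (|Ω₁| + |Ω₂|) + 2 ε ≤ Aa + 32 δ Q P + 2 P ≤ K P` where `Ω₁ = Ω (pt x ph0)`,
`Ω₂ = Ω (pt x (π - ph0))`, `Aa Ω (pt x ph0) = (Ω₁ - Ω₂)/2` (`ε ≤ P`: `eps_le_PP`).  Ends: `k ≤ P ≤ Hc`, `K ≥ 1`.
Then `Aa Ω z ≤ (w₁ z + w₂ z)/2 + ε ≤ K Hc z + ε ≤ 1.00001 K P + P` and
`1.00001 (1 + 16 η) ≤ 1.0002`.  (If `z.im ≤ ph1 < ph0` then `z ∈ Rc ℓ 0 ph0`.)

**`a_two`.** `rc_le` on `Rc ℓ ph1 (π/2)` for `w = Aa Ω` (harmonic on a neighbourhood of the closed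
range, so subharmonic, and continuous: `BLe` at the two sides), `B = δ k ≤ k/100`, majorant `B1 Hs`.
Top: `Aa Ω (pt x (π/2)) = 0 ≤ Hs`.  Ends: `Hs_end`.  The points with `z.im = ph1`, `z.im = π/2` of the
conclusion: hypothesis with `Hs_bot`, resp. `Aa = 0`.

**`a_three`.** `g := (u q z + u q (conj z))/2` is subharmonic on `Rc ℓ (-ph0) ph0` (`subH_conj`), `≤ k`;
at `pt x (± ph0)`: `g ≤ Aa Ω (pt x ph0) + 16 δ (|Ω₁| + |Ω₂|) + 2 ε` (both `utop`, `ubot` are used;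
`BLe` for `u q ∘ conj` at `ζ` from `BLe` for `u q` at `conj ζ`), majorant
`(A0 + 32 δ Q + 2) Hc k ℓ ε 0 ph0`, `N = ∅`.

**`a_final`.** `contract` with `ι = {x // |x| < ℓ}`, `f x = max (if x ∈ N then 0 else m x) (Aa Ω (pt x ph0))`,
`g = P`, `q0 = k / ε`, `θ = 0.996`, `C = 65 (1 + δ Q)`: given `q` put `B1 := 1.0002 q + 33 δ Q + 4 ≥ 1`
(`a_one` at `z.im = ph1`), `a_two`, `Hs_ph0`: `Aa (pt x ph0) ≤ 0.9953 B1 P`; `a_three` with
`A0 = 0.9953 B1` and `mle`: `m x ≤ 1.00001 (0.9953 B1 + 32 δ Q + 2) P`.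
`0.9953 * 1.00001 * 1.0002 ≤ 0.996`, `1.00001 (0.9953 * 33 + 32) ≤ 65`, `1.00001 * 6 ≤ 65`.
So `f ≤ 16250 (1 + δ Q) P`; `a_one` and `a_two`, `Hs_le` again: `1.0002 * 16250 + 33 + 4 ≤ 16300`.
`a_three` with `A0 = 16250 (1 + δ Q)`.
-/

set_option autoImplicit false

noncomputable section

namespace Pool.Agent.MP_ae5b4e_an_N4

open Complex Set Filter Topology Metric InnerProductSpace
open Pool.Agent.Lib.MP_ae5b4e_an_LL (SubH)
open scoped ComplexConjugate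

variable {k ℓ δ η ε Q : ℝ} {N : Set ℝ} {Ω : ℂ → ℝ} {m : ℝ → ℝ} {u : ℝ → ℂ → ℝ}

theorem PtA_ble_mono {V : Set ℂ} {w : ℂ → ℝ} {ζ : ℂ} {a b : ℝ} (h : BLe V w ζ a) (hab : a ≤ b) :
    BLe V w ζ b := by
  intro e he
  filter_upwards [h e he] with z hz
  linarith

theorem PtA_ble_avg {V : Set ℂ} {w₁ w₂ : ℂ → ℝ} {ζ : ℂ} {a b c : ℝ} (h1 : BLe V w₁ ζ a)
    (h2 : BLe V w₂ ζ b) (hc : (a + b) / 2 ≤ c) :
    BLe V (fun z => (1 / 2 : ℝ) * (w₁ z + w₂ z)) ζ c := by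
  intro e he
  filter_upwards [h1 e he, h2 e he] with z hz1 hz2
  linarith

theorem PtA_ble_cont {V : Set ℂ} {w : ℂ → ℝ} {ζ : ℂ} {a : ℝ} (h : ContinuousAt w ζ)
    (ha : w ζ ≤ a) : BLe V w ζ a := by
  intro e he
  have h1 : ∀ᶠ z in 𝓝 ζ, w z < a + e := h.eventually_lt_const (by linarith)
  filter_upwards [h1.filter_mono nhdsWithin_le_nhds] with z hz
  exact hz.le

theorem PtA_ble_conj {ℓ b : ℝ} {w : ℂ → ℝ} {ζ : ℂ} {a : ℝ}
    (h : BLe (Rc ℓ (-b) b) w (conj ζ) a) : BLe (Rc ℓ (-b) b) (fun z => w (conj z)) ζ a := by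
  intro e he
  have h1 : Tendsto (fun z : ℂ => conj z) (𝓝[Rc ℓ (-b) b] ζ) (𝓝[Rc ℓ (-b) b] (conj ζ)) := by
    refine tendsto_nhdsWithin_iff.2 ⟨?_, ?_⟩
    · exact (Complex.continuous_conj.tendsto ζ).mono_left nhdsWithin_le_nhds
    · filter_upwards [self_mem_nhdsWithin] with z hz
      obtain ⟨h2, h3, h4⟩ := hz
      refine ⟨?_, ?_, ?_⟩
      · rwa [Complex.conj_re]
      · rw [Complex.conj_im]
        linarith
      · rw [Complex.conj_im]
        linarith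
  exact h1.eventually (h e he)

theorem PtA_pos (hP : Pot k ℓ δ η ε N Ω m u) (x : ℝ) : 0 < PP k ℓ ε x :=
  lt_of_lt_of_le hP.hε (eps_le_PP hP.hk.le x)

theorem PtA_refl_mem {ℓ : ℝ} {z : ℂ} (hz : z ∈ Sh ℓ) : pt z.re (Real.pi - z.im) ∈ Sh ℓ := by
  obtain ⟨h1, h2, h3⟩ := hz
  refine ⟨h1, ?_, ?_⟩
  · change ph2 ≤ Real.pi - z.im
    linarith
  · change Real.pi - z.im ≤ Real.pi - ph2
    linarith

theorem PtA_Aa_bd (hP : Pot k ℓ δ η ε N Ω m u) {z : ℂ} (hz : z ∈ Sh ℓ) : Aa Ω z ≤ δ * k := by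
  have h1 := hP.bd z hz
  have h2 := hP.bd _ (PtA_refl_mem hz)
  rw [abs_le] at h1 h2
  unfold Aa
  linarith [h1.2, h2.1]

theorem PtA_Aa_cont (hP : Pot k ℓ δ η ε N Ω m u) {z : ℂ} (hz : z ∈ Sh ℓ) :
    ContinuousAt (Aa Ω) z := by
  have h1 : ContinuousAt Ω z := (hP.harm z hz).1.continuousAt
  have h2 : ContinuousAt Ω (pt z.re (Real.pi - z.im)) :=
    (hP.harm _ (PtA_refl_mem hz)).1.continuousAt
  have h3 : ContinuousAt (fun w : ℂ => pt w.re (Real.pi - w.im)) z := by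
    have h4 : (fun w : ℂ => pt w.re (Real.pi - w.im)) =
        fun w : ℂ => ((w.re : ℝ) : ℂ) + ((Real.pi - w.im : ℝ) : ℂ) * Complex.I := by
      funext w
      apply Complex.ext <;> simp [pt]
    rw [h4]
    fun_prop
  have h5 : ContinuousAt (fun w : ℂ => Ω (pt w.re (Real.pi - w.im))) z :=
    ContinuousAt.comp (g := Ω) (f := fun w : ℂ => pt w.re (Real.pi - w.im)) h2 h3
  exact (h1.sub h5).div_const 2

theorem PtA_Aa_sub (hP : Pot k ℓ δ η ε N Ω m u) {a b : ℝ} (ha : ph2 ≤ a)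
    (hb : b ≤ Real.pi - ph2) : SubH (Aa Ω) (Rc ℓ a b) := by
  have hsub : Rc ℓ ph2 (Real.pi - ph2) ⊆ Sh ℓ := fun z hz => ⟨hz.1, hz.2.1.le, hz.2.2.le⟩
  have h1 : SubH Ω (Rc ℓ ph2 (Real.pi - ph2)) :=
    SubH.of_harmonic (isOpen_Rc _ _ _) fun z hz => hP.harm z (hsub hz)
  have h2 : SubH (-Ω) (Rc ℓ ph2 (Real.pi - ph2)) :=
    SubH.of_harmonic (isOpen_Rc _ _ _) (HarmonicOnNhd.neg fun z hz => hP.harm z (hsub hz))
  have hop : IsOpen {z : ℂ | z + Real.pi * Complex.I ∈ Rc ℓ ph2 (Real.pi - ph2)} :=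
    (isOpen_Rc _ _ _).preimage (by fun_prop)
  have h3 : SubH (fun z => (-Ω) (z + Real.pi * Complex.I))
      {z : ℂ | z + Real.pi * Complex.I ∈ Rc ℓ ph2 (Real.pi - ph2)} :=
    SubH.comp (isOpen_Rc _ _ _) hop h2
      (fun z _ => analyticAt_id.add analyticAt_const) (fun z hz => hz)
  have h4 := subH_conj h3
  have hpt : ∀ z : ℂ, conj z + Real.pi * Complex.I = pt z.re (Real.pi - z.im) := by
    intro z
    apply Complex.ext
    · simp [pt]
    · simp [pt]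
      ring
  have hmem : ∀ z ∈ Rc ℓ a b, z ∈ Rc ℓ ph2 (Real.pi - ph2) := fun z hz =>
    ⟨hz.1, lt_of_le_of_lt ha hz.2.1, lt_of_lt_of_le hz.2.2 hb⟩
  have h5 : SubH (fun z => Ω z + (-Ω) (conj z + Real.pi * Complex.I)) (Rc ℓ a b) := by
    refine SubH.add (isOpen_Rc _ _ _) (h1.mono hmem) (h4.mono ?_)
    intro z hz
    have h6 := hmem z hz
    change conj z + Real.pi * Complex.I ∈ Rc ℓ ph2 (Real.pi - ph2)
    rw [hpt]
    refine ⟨h6.1, ?_, ?_⟩
    · change ph2 < Real.pi - z.im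
      linarith [h6.2.2]
    · change Real.pi - z.im < Real.pi - ph2
      linarith [h6.2.1]
  have h6 := h5.const_mul (a := (1 / 2 : ℝ)) (by norm_num)
  refine h6.congr (isOpen_Rc _ _ _) fun z _ => ?_
  change (1 / 2 : ℝ) * (Ω z + -Ω (conj z + Real.pi * Complex.I)) =
    (Ω z - Ω (pt z.re (Real.pi - z.im))) / 2
  rw [hpt]
  ring

theorem a_one (hP : Pot k ℓ δ η ε N Ω m u) {Qa : ℝ} (hQ : 0 ≤ Q) (hQa : 0 ≤ Qa)
    (hQ1 : ∀ x, |x| < ℓ → |Ω (pt x ph0)| ≤ Q * PP k ℓ ε x)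
    (hQ2 : ∀ x, |x| < ℓ → |Ω (pt x (Real.pi - ph0))| ≤ Q * PP k ℓ ε x)
    (hm : ∀ x, |x| < ℓ → x ∉ N → m x ≤ Qa * PP k ℓ ε x)
    (hA : ∀ x, |x| < ℓ → Aa Ω (pt x ph0) ≤ Qa * PP k ℓ ε x) {z : ℂ} (hz : |z.re| < ℓ)
    (h1 : ph2 ≤ z.im) (h2 : z.im ≤ ph1) :
    Aa Ω z ≤ (1.0002 * Qa + 33 * δ * Q + 4) * PP k ℓ ε z.re := by
  have hk := hP.hk
  have hε := hP.hε
  have hδ := hP.hδ
  have hη := hP.hη
  have hη1 := hP.hη1
  obtain ⟨w₁, s1, b1, c1, d1, e1⟩ := hP.one z hz h1 h2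
  obtain ⟨w₂, s2, b2, c2, d2, e2⟩ := hP.two z hz h1 h2
  have h0 : (0 : ℝ) < ph2 := by unfold ph2; norm_num
  have h01 : ph1 < ph0 := by unfold ph1 ph0; norm_num
  have hp0 : (0 : ℝ) ≤ ph0 / 2 := by unfold ph0; norm_num
  have hp0' : ph0 / 2 ≤ Real.pi := by
    unfold ph0
    linarith [Real.pi_gt_three]
  have hp00 : (0 : ℝ) < ph0 := by unfold ph0; norm_num
  set K : ℝ := (1 + 16 * η) * Qa + 32 * δ * Q + 2 with hK
  have hδQ : 0 ≤ δ * Q := mul_nonneg hδ hQ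
  have hηQ : 0 ≤ η * Qa := mul_nonneg hη hQa
  have hK0 : 0 ≤ K := by
    rw [hK]
    nlinarith
  have hK1 : 1 ≤ K := by
    rw [hK]
    nlinarith
  have hPp := PtA_pos hP
  have hHge : ∀ w : ℂ, 0 ≤ w.im → w.im ≤ ph0 →
      PP k ℓ ε w.re ≤ Hc k ℓ ε (ph0 / 2) (ph0 / 2) w := by
    intro w hw1 hw2
    refine Hc_ge hk.le hp0 hp0' ?_
    rw [abs_le]
    constructor <;> linarith
  have hmain := rc_le (w := fun z => (1 / 2 : ℝ) * (w₁ z + w₂ z))
    (M := K • Hc k ℓ ε (ph0 / 2) (ph0 / 2)) (B := k) (N := N) (ℓ := ℓ) (a := 0) (b := ph0)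
    ((SubH.add (isOpen_Rc _ _ _) s1 s2).const_mul (by norm_num))
    (by
      intro w hw
      have := b1 w hw
      have := b2 w hw
      linarith)
    (HarmonicOnNhd.const_smul (Hc_harm _ _ _ _ _)) hP.hN
    (by
      intro x hx hxN
      refine PtA_ble_avg (c1 x hx) (c2 x hx) ?_
      have g1 := hm x hx hxN
      have g2 := hHge (pt x 0) (le_refl _) hp00.le
      change PP k ℓ ε x ≤ _ at g2
      have g3 := hPp x
      have g4 : (1 + 16 * η) * m x ≤ (1 + 16 * η) * (Qa * PP k ℓ ε x) :=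
        mul_le_mul_of_nonneg_left g1 (by linarith)
      have g5 : (1 + 16 * η) * (Qa * PP k ℓ ε x) ≤ K * PP k ℓ ε x := by
        rw [hK]
        nlinarith
      have g6 : K * PP k ℓ ε x ≤ K * Hc k ℓ ε (ph0 / 2) (ph0 / 2) (pt x 0) :=
        mul_le_mul_of_nonneg_left g2 hK0
      rw [Pi.smul_apply, smul_eq_mul]
      linarith)
    (by
      intro x hx hxN
      refine PtA_ble_avg (d1 x hx) (d2 x hx) ?_
      have g0 := hA x hx
      have g1 := hQ1 x hx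
      have g1' := hQ2 x hx
      have g2 := hHge (pt x ph0) hp00.le (le_refl _)
      change PP k ℓ ε x ≤ _ at g2
      have g3 := hPp x
      have g4 := eps_le_PP (k := k) (ℓ := ℓ) (ε := ε) hk.le x
      have g6 : K * PP k ℓ ε x ≤ K * Hc k ℓ ε (ph0 / 2) (ph0 / 2) (pt x ph0) :=
        mul_le_mul_of_nonneg_left g2 hK0
      have g7 : Aa Ω (pt x ph0) = (Ω (pt x ph0) - Ω (pt x (Real.pi - ph0))) / 2 := rfl
      rw [g7] at g0
      have g8 := mul_le_mul_of_nonneg_left g1 hδ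
      have g9 := mul_le_mul_of_nonneg_left g1' hδ
      have g10 : 0 ≤ η * Qa * PP k ℓ ε x := mul_nonneg hηQ g3.le
      rw [Pi.smul_apply, smul_eq_mul]
      refine le_trans ?_ g6
      rw [hK]
      nlinarith)
    (by
      intro w hw hw1 hw2
      have g1 := PP_end (k := k) hε.le hw
      have g2 := hHge w hw1 hw2
      rw [Pi.smul_apply, smul_eq_mul]
      nlinarith)
    z ⟨hz, by linarith, by linarith⟩
  rw [Pi.smul_apply, smul_eq_mul] at hmain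
  have g1 := Hc_le (k := k) (ℓ := ℓ) hk.le hε.le hp0 hp0' z (c := ph0 / 2)
  have g2 := inv_cos_small hp0 (by linarith : ph0 / 2 ≤ ph0)
  have g3 := hPp z.re
  have g4 := eps_le_PP (k := k) (ℓ := ℓ) (ε := ε) hk.le z.re
  have g5 : Hc k ℓ ε (ph0 / 2) (ph0 / 2) z ≤ 1.00001 * PP k ℓ ε z.re :=
    g1.trans (mul_le_mul_of_nonneg_right g2 g3.le)
  have g6 : K * Hc k ℓ ε (ph0 / 2) (ph0 / 2) z ≤ K * (1.00001 * PP k ℓ ε z.re) :=
    mul_le_mul_of_nonneg_left g5 hK0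
  have g7 : Aa Ω z = (Ω z - Ω (pt z.re (Real.pi - z.im))) / 2 := rfl
  have g8 : Aa Ω z ≤ K * (1.00001 * PP k ℓ ε z.re) + PP k ℓ ε z.re := by
    rw [g7]
    linarith
  refine g8.trans ?_
  have g9 : K * 1.00001 + 1 ≤ 1.0002 * Qa + 33 * δ * Q + 4 := by
    rw [hK]
    have : η * Qa ≤ 1 / 100000 * Qa := mul_le_mul_of_nonneg_right hη1 hQa
    nlinarith
  nlinarith

theorem a_two (hP : Pot k ℓ δ η ε N Ω m u) {B1 : ℝ} (hB1 : 1 ≤ B1)
    (h : ∀ x, |x| < ℓ → Aa Ω (pt x ph1) ≤ B1 * PP k ℓ ε x) {z : ℂ} (hz : |z.re| < ℓ)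
    (h1 : ph1 ≤ z.im) (h2 : z.im ≤ Real.pi / 2) : Aa Ω z ≤ B1 * Hs k ℓ ε z := by
  have hk := hP.hk
  have hε := hP.hε
  have hB0 : 0 ≤ B1 := by linarith
  have hph : (0 : ℝ) < ph2 := by unfold ph2; norm_num
  have hph12 : ph2 ≤ ph1 := by unfold ph2 ph1; norm_num
  have hph1 : ph1 ≤ Real.pi / 2 := by
    unfold ph1
    linarith [Real.pi_gt_three]
  have hph2' : Real.pi / 2 ≤ Real.pi - ph2 := by
    unfold ph2
    linarith [Real.pi_gt_three]
  have hPp := PtA_pos hP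
  have hSh : ∀ w : ℂ, |w.re| < ℓ → ph1 ≤ w.im → w.im ≤ Real.pi / 2 → w ∈ Sh ℓ :=
    fun w hw hw1 hw2 => ⟨hw, by linarith, by linarith⟩
  have hmid : ∀ w : ℂ, w.im = Real.pi / 2 → Aa Ω w = 0 := by
    intro w hw
    have g1 : pt w.re (Real.pi - w.im) = w := by
      apply Complex.ext
      · rfl
      · change Real.pi - w.im = w.im
        linarith
    unfold Aa
    rw [g1]
    simp
  rcases eq_or_lt_of_le h1 with h3 | h3
  · have g1 : z = pt z.re ph1 := Complex.ext rfl h3.symm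
    have g2 := h z.re hz
    rw [← g1] at g2
    rwa [Hs_bot h3.symm]
  rcases eq_or_lt_of_le h2 with h4 | h4
  · rw [hmid z h4]
    exact mul_nonneg hB0 (Hs_nonneg hk.le hε.le h1 h2)
  have hmain := rc_le (w := Aa Ω) (M := B1 • Hs k ℓ ε) (B := δ * k) (N := ∅) (ℓ := ℓ)
    (a := ph1) (b := Real.pi / 2) (PtA_Aa_sub hP hph12 hph2')
    (fun w hw => PtA_Aa_bd hP (hSh w hw.1 hw.2.1.le hw.2.2.le))
    (HarmonicOnNhd.const_smul (Hs_harm _ _ _)) Set.countable_empty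
    (by
      intro x hx _
      refine PtA_ble_cont (PtA_Aa_cont hP (hSh (pt x ph1) hx (le_refl _) hph1)) ?_
      rw [Pi.smul_apply, smul_eq_mul, Hs_bot (z := pt x ph1) rfl]
      exact h x hx)
    (by
      intro x hx _
      refine PtA_ble_cont (PtA_Aa_cont hP (hSh (pt x (Real.pi / 2)) hx hph1 (le_refl _))) ?_
      rw [Pi.smul_apply, smul_eq_mul, hmid (pt x (Real.pi / 2)) rfl]
      exact mul_nonneg hB0 (Hs_nonneg hk.le hε.le hph1 (le_refl _)))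
    (by
      intro w hw hw1 hw2
      have g1 := Hs_end (ε := ε) hk.le hε.le hw hw1 hw2
      have g2 := hP.hδ1
      rw [Pi.smul_apply, smul_eq_mul]
      nlinarith)
    z ⟨hz, h3, h4⟩
  rwa [Pi.smul_apply, smul_eq_mul] at hmain

theorem a_three (hP : Pot k ℓ δ η ε N Ω m u) {A0 : ℝ} (hA0 : 0 ≤ A0) (hQ : 0 ≤ Q)
    (hQ1 : ∀ x, |x| < ℓ → |Ω (pt x ph0)| ≤ Q * PP k ℓ ε x)
    (hQ2 : ∀ x, |x| < ℓ → |Ω (pt x (Real.pi - ph0))| ≤ Q * PP k ℓ ε x)
    (hA : ∀ x, |x| < ℓ → Aa Ω (pt x ph0) ≤ A0 * PP k ℓ ε x) {q : ℝ} (hq : |q| ≤ 3) {z : ℂ}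
    (hz : z ∈ Rc ℓ (-ph0) ph0) :
    (u q z + u q (conj z)) / 2 ≤ 1.00001 * (A0 + 32 * δ * Q + 2) * PP k ℓ ε z.re := by
  have hk := hP.hk
  have hε := hP.hε
  have hδ := hP.hδ
  have hp0 : (0 : ℝ) ≤ ph0 := by unfold ph0; norm_num
  have hp0' : ph0 ≤ Real.pi := by
    unfold ph0
    linarith [Real.pi_gt_three]
  set K : ℝ := A0 + 32 * δ * Q + 2 with hK
  have hδQ : 0 ≤ δ * Q := mul_nonneg hδ hQ
  have hK0 : 0 ≤ K := by
    rw [hK]
    nlinarith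
  have hK1 : 1 ≤ K := by
    rw [hK]
    nlinarith
  have hPp := PtA_pos hP
  have hHge : ∀ w : ℂ, -ph0 ≤ w.im → w.im ≤ ph0 → PP k ℓ ε w.re ≤ Hc k ℓ ε 0 ph0 w := by
    intro w hw1 hw2
    refine Hc_ge hk.le hp0 hp0' ?_
    rw [abs_le]
    constructor <;> linarith
  have hbound : ∀ x, |x| < ℓ → (Ω (pt x ph0) + 32 * δ * |Ω (pt x ph0)| + 2 * ε +
      (-Ω (pt x (Real.pi - ph0)) + 32 * δ * |Ω (pt x (Real.pi - ph0))| + 2 * ε)) / 2 ≤
      K * PP k ℓ ε x := by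
    intro x hx
    have g0 := hA x hx
    have g1 := hQ1 x hx
    have g1' := hQ2 x hx
    have g3 := hPp x
    have g4 := eps_le_PP (k := k) (ℓ := ℓ) (ε := ε) hk.le x
    have g7 : Aa Ω (pt x ph0) = (Ω (pt x ph0) - Ω (pt x (Real.pi - ph0))) / 2 := rfl
    rw [g7] at g0
    have g8 := mul_le_mul_of_nonneg_left g1 hδ
    have g9 := mul_le_mul_of_nonneg_left g1' hδ
    rw [hK]
    nlinarith
  have hmain := rc_le (w := fun z => (1 / 2 : ℝ) * (u q z + u q (conj z)))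
    (M := K • Hc k ℓ ε 0 ph0) (B := k) (N := ∅) (ℓ := ℓ) (a := -ph0) (b := ph0)
    ((SubH.add (isOpen_Rc _ _ _) (hP.usub q hq) ((subH_conj (hP.usub q hq)).mono (by
      intro w hw
      obtain ⟨g1, g2, g3⟩ := hw
      refine ⟨?_, ?_, ?_⟩
      · rwa [Complex.conj_re]
      · rw [Complex.conj_im]
        linarith
      · rw [Complex.conj_im]
        linarith))).const_mul (by norm_num))
    (by
      intro w hw
      have g1 := hP.ule q hq w hw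
      have g2 := hP.ule q hq (conj w) (by
        obtain ⟨g1, g2, g3⟩ := hw
        refine ⟨?_, ?_, ?_⟩
        · rwa [Complex.conj_re]
        · rw [Complex.conj_im]
          linarith
        · rw [Complex.conj_im]
          linarith)
      linarith)
    (HarmonicOnNhd.const_smul (Hc_harm _ _ _ _ _)) Set.countable_empty
    (by
      intro x hx _
      have g1 := hP.ubot q hq x hx
      have g2 : BLe (Rc ℓ (-ph0) ph0) (fun z => u q (conj z)) (pt x (-ph0))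
          (Ω (pt x ph0) + 32 * δ * |Ω (pt x ph0)| + 2 * ε) := by
        apply PtA_ble_conj
        have g3 : conj (pt x (-ph0)) = pt x ph0 := by
          apply Complex.ext
          · simp [pt]
          · simp [pt]
        rw [g3]
        exact hP.utop q hq x hx
      refine PtA_ble_avg g1 g2 ?_
      have g4 := hbound x hx
      have g5 := hHge (pt x (-ph0)) (le_refl _) (by change -ph0 ≤ ph0; linarith)
      change PP k ℓ ε x ≤ _ at g5
      have g6 := mul_le_mul_of_nonneg_left g5 hK0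
      rw [Pi.smul_apply, smul_eq_mul]
      linarith)
    (by
      intro x hx _
      have g1 := hP.utop q hq x hx
      have g2 : BLe (Rc ℓ (-ph0) ph0) (fun z => u q (conj z)) (pt x ph0)
          (-Ω (pt x (Real.pi - ph0)) + 32 * δ * |Ω (pt x (Real.pi - ph0))| + 2 * ε) := by
        apply PtA_ble_conj
        have g3 : conj (pt x ph0) = pt x (-ph0) := by
          apply Complex.ext
          · simp [pt]
          · simp [pt]
        rw [g3]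
        exact hP.ubot q hq x hx
      refine PtA_ble_avg g1 g2 ?_
      have g4 := hbound x hx
      have g5 := hHge (pt x ph0) (by change -ph0 ≤ ph0; linarith) (le_refl _)
      change PP k ℓ ε x ≤ _ at g5
      have g6 := mul_le_mul_of_nonneg_left g5 hK0
      rw [Pi.smul_apply, smul_eq_mul]
      linarith)
    (by
      intro w hw hw1 hw2
      have g1 := PP_end (k := k) hε.le hw
      have g2 := hHge w hw1 hw2
      rw [Pi.smul_apply, smul_eq_mul]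
      nlinarith)
    z hz
  rw [Pi.smul_apply, smul_eq_mul] at hmain
  have g1 := Hc_le (k := k) (ℓ := ℓ) hk.le hε.le hp0 hp0' z (c := 0)
  have g2 := inv_cos_small hp0 (le_refl ph0)
  have g3 := hPp z.re
  have g5 : Hc k ℓ ε 0 ph0 z ≤ 1.00001 * PP k ℓ ε z.re :=
    g1.trans (mul_le_mul_of_nonneg_right g2 g3.le)
  have g6 : K * Hc k ℓ ε 0 ph0 z ≤ K * (1.00001 * PP k ℓ ε z.re) :=
    mul_le_mul_of_nonneg_left g5 hK0
  calc (u q z + u q (conj z)) / 2 = 1 / 2 * (u q z + u q (conj z)) := by ring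
    _ ≤ K * (1.00001 * PP k ℓ ε z.re) := hmain.trans g6
    _ = 1.00001 * K * PP k ℓ ε z.re := by ring

theorem a_final (hP : Pot k ℓ δ η ε N Ω m u) (hQ : 0 ≤ Q)
    (hQ1 : ∀ x, |x| < ℓ → |Ω (pt x ph0)| ≤ Q * PP k ℓ ε x)
    (hQ2 : ∀ x, |x| < ℓ → |Ω (pt x (Real.pi - ph0))| ≤ Q * PP k ℓ ε x) :
    (∀ x, |x| < ℓ → x ∉ N → m x ≤ 16300 * (1 + δ * Q) * PP k ℓ ε x) ∧
    (∀ z : ℂ, |z.re| < ℓ → ph2 ≤ z.im → z.im ≤ Real.pi / 2 →
      Aa Ω z ≤ 16300 * (1 + δ * Q) * PP k ℓ ε z.re) ∧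
    ∀ q, |q| ≤ 3 → ∀ z ∈ Rc ℓ (-ph0) ph0,
      (u q z + u q (conj z)) / 2 ≤ 16300 * (1 + δ * Q) * PP k ℓ ε z.re := by
  classical
  have hk := hP.hk
  have hε := hP.hε
  have hδ := hP.hδ
  have hδQ : 0 ≤ δ * Q := mul_nonneg hδ hQ
  have hPp := PtA_pos hP
  have hph2 : (0 : ℝ) < ph2 := by unfold ph2; norm_num
  have hph12 : ph2 ≤ ph1 := by unfold ph2 ph1; norm_num
  have hph01 : ph1 ≤ ph0 := by unfold ph1 ph0; norm_num
  have hph0 : (0 : ℝ) < ph0 := by unfold ph0; norm_num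
  have hph0' : ph0 ≤ Real.pi / 2 := by
    unfold ph0
    linarith [Real.pi_gt_three]
  have hreal : ∀ x : ℝ, conj (pt x 0) = pt x 0 := by
    intro x
    apply Complex.ext
    · simp [pt]
    · simp [pt]
  have hx0 : ∀ x, |x| < ℓ → pt x 0 ∈ Rc ℓ (-ph0) ph0 := fun x hx =>
    ⟨hx, by change -ph0 < 0; linarith, by change (0 : ℝ) < ph0; linarith⟩
  have key : ∀ i : {x : ℝ // |x| < ℓ}, max (if i.1 ∈ N then 0 else m i.1) (Aa Ω (pt i.1 ph0)) ≤
      65 * (1 + δ * Q) / (1 - 0.996) * PP k ℓ ε i.1 := by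
    refine contract (ι := {x : ℝ // |x| < ℓ})
      (f := fun i => max (if i.1 ∈ N then 0 else m i.1) (Aa Ω (pt i.1 ph0)))
      (g := fun i => PP k ℓ ε i.1) (fun i => hPp i.1) (θ := 0.996) (C := 65 * (1 + δ * Q))
      (q0 := k / ε) (by norm_num) (by norm_num) (by positivity) ?_ ?_
    · rintro ⟨x, hx⟩
      have g1 : k ≤ k / ε * PP k ℓ ε x := by
        have g2 := eps_le_PP (k := k) (ℓ := ℓ) (ε := ε) hk.le x
        have g3 : k / ε * ε ≤ k / ε * PP k ℓ ε x := mul_le_mul_of_nonneg_left g2 (by positivity)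
        rwa [div_mul_cancel₀ _ hε.ne'] at g3
      refine max_le ?_ ?_
      · change (if x ∈ N then 0 else m x) ≤ _
        split_ifs
        · exact le_trans hk.le g1
        · exact (hP.m1 x hx).trans g1
      · refine le_trans ?_ g1
        have g4 : Aa Ω (pt x ph0) ≤ δ * k := PtA_Aa_bd hP
          ⟨hx, hph12.trans hph01, by change ph0 ≤ Real.pi - ph2; linarith⟩
        have := hP.hδ1
        change Aa Ω (pt x ph0) ≤ k
        nlinarith
    · intro q hq hf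
      have hm : ∀ x, |x| < ℓ → x ∉ N → m x ≤ q * PP k ℓ ε x := by
        intro x hx hxN
        have g1 := le_trans (le_max_left _ _) (hf ⟨x, hx⟩)
        rwa [if_neg hxN] at g1
      have hA : ∀ x, |x| < ℓ → Aa Ω (pt x ph0) ≤ q * PP k ℓ ε x := fun x hx =>
        le_trans (le_max_right _ _) (hf ⟨x, hx⟩)
      set B1 : ℝ := 1.0002 * q + 33 * δ * Q + 4 with hB1
      have hB11 : 1 ≤ B1 := by
        rw [hB1]
        nlinarith
      have s1 : ∀ x, |x| < ℓ → Aa Ω (pt x ph1) ≤ B1 * PP k ℓ ε x := fun x hx =>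
        a_one hP hQ hq hQ1 hQ2 hm hA (z := pt x ph1) hx hph12 (le_refl _)
      have s2 : ∀ x, |x| < ℓ → Aa Ω (pt x ph0) ≤ 0.9953 * B1 * PP k ℓ ε x := by
        intro x hx
        have g1 := a_two hP hB11 s1 (z := pt x ph0) hx hph01 hph0'
        have g2 := Hs_ph0 (k := k) (ℓ := ℓ) (ε := ε) hk.le hε.le (z := pt x ph0) rfl
        change Hs k ℓ ε (pt x ph0) ≤ 0.9953 * PP k ℓ ε x at g2
        have g3 := mul_le_mul_of_nonneg_left g2 (by linarith : 0 ≤ B1)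
        linarith
      have hfac : 1.00001 * (0.9953 * B1 + 32 * δ * Q + 2) ≤ 0.996 * q + 65 * (1 + δ * Q) := by
        rw [hB1]
        nlinarith
      have s3 : ∀ r : ℝ, |r| ≤ 3 → ∀ x, |x| < ℓ →
          u r (pt x 0) ≤ (0.996 * q + 65 * (1 + δ * Q)) * PP k ℓ ε x := by
        intro r hr x hx
        have g1 := a_three hP (A0 := 0.9953 * B1) (by linarith) hQ hQ1 hQ2 s2 hr (hx0 x hx)
        rw [hreal] at g1
        change (u r (pt x 0) + u r (pt x 0)) / 2 ≤ _ * PP k ℓ ε x at g1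
        have g2 := mul_le_mul_of_nonneg_right hfac (hPp x).le
        linarith
      rintro ⟨x, hx⟩
      have hpos : 0 ≤ (0.996 * q + 65 * (1 + δ * Q)) * PP k ℓ ε x :=
        mul_nonneg (by nlinarith) (hPp x).le
      refine max_le ?_ ?_
      · change (if x ∈ N then 0 else m x) ≤ (0.996 * q + 65 * (1 + δ * Q)) * PP k ℓ ε x
        split_ifs with hxN
        · exact hpos
        · refine (hP.mle x hx hxN).trans (max_le (s3 0 (by norm_num) x hx) (s3 (-1) ?_ x hx))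
          rw [abs_neg, abs_one]
          norm_num
      · change Aa Ω (pt x ph0) ≤ (0.996 * q + 65 * (1 + δ * Q)) * PP k ℓ ε x
        have g1 : 0.9953 * B1 ≤ 0.996 * q + 65 * (1 + δ * Q) := by
          rw [hB1]
          nlinarith
        exact (s2 x hx).trans (mul_le_mul_of_nonneg_right g1 (hPp x).le)
  have hconst : 65 * (1 + δ * Q) / (1 - 0.996) = 16250 * (1 + δ * Q) := by
    field_simp
    norm_num
  rw [hconst] at key
  set Qa : ℝ := 16250 * (1 + δ * Q) with hQa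
  have hQa0 : 0 ≤ Qa := by
    rw [hQa]
    nlinarith
  have hm : ∀ x, |x| < ℓ → x ∉ N → m x ≤ Qa * PP k ℓ ε x := by
    intro x hx hxN
    have g1 := le_trans (le_max_left _ _) (key ⟨x, hx⟩)
    rwa [if_neg hxN] at g1
  have hA : ∀ x, |x| < ℓ → Aa Ω (pt x ph0) ≤ Qa * PP k ℓ ε x := fun x hx =>
    le_trans (le_max_right _ _) (key ⟨x, hx⟩)
  have hfac : 1.0002 * Qa + 33 * δ * Q + 4 ≤ 16300 * (1 + δ * Q) := by
    rw [hQa]
    nlinarith
  refine ⟨?_, ?_, ?_⟩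
  · intro x hx hxN
    refine (hm x hx hxN).trans (mul_le_mul_of_nonneg_right ?_ (hPp x).le)
    rw [hQa]
    nlinarith
  · intro z hz hz1 hz2
    rcases le_total z.im ph1 with h | h
    · exact (a_one hP hQ hQa0 hQ1 hQ2 hm hA hz hz1 h).trans
        (mul_le_mul_of_nonneg_right hfac (hPp z.re).le)
    · have g1 := a_two hP (B1 := 1.0002 * Qa + 33 * δ * Q + 4) (by nlinarith)
        (fun x hx => a_one hP hQ hQa0 hQ1 hQ2 hm hA (z := pt x ph1) hx hph12 (le_refl _)) hz h hz2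
      have g2 := Hs_le (k := k) (ℓ := ℓ) (ε := ε) hk.le hε.le h hz2
      have g3 := mul_le_mul_of_nonneg_left g2
        (by nlinarith : 0 ≤ 1.0002 * Qa + 33 * δ * Q + 4)
      have g4 := mul_le_mul_of_nonneg_right hfac (hPp z.re).le
      linarith
  · intro q hq z hz
    have g1 := a_three hP hQa0 hQ hQ1 hQ2 hA hq hz
    refine g1.trans (mul_le_mul_of_nonneg_right ?_ (hPp z.re).le)
    rw [hQa]
    nlinarith

end Pool.Agent.MP_ae5b4e_an_N4
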