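import Pool.Agent.Lib.MP_ae5b4e_an_LL.Two
import Pool.Agent.Lib.MP_ae5b4e_an_LL.Int
import Pool.Agent.Lib.MP_ae5b4e_an_LL.Lim
import Pool.Agent.Lib.MP_ae5b4e_an_LL.Comp

/-!
# MP_ae5b4e_an, NB_3 section N4 (conical intervals): potential theory, definitions

Coordinates: `ρ = r_m e ^ (x + i θ)`, `|x| < ℓ`.  `Ω` is minus the imaginary part of the first
zero, `m x` is the height `v (c) / c` at `c = r_m e ^ x`, `u q` is minus the logarithm of the radius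
of regularity about `q - i R₀`.
-/

set_option autoImplicit false

noncomputable section

namespace Pool.Agent.MP_ae5b4e_an_N4

open Complex Set Filter Topology Metric InnerProductSpace
open Pool.Agent.Lib.MP_ae5b4e_an_LL (SubH)
open scoped ComplexConjugate

/-- the three angles -/
def ph0 : ℝ := 1 / 100

/-- the three angles -/
def ph1 : ℝ := 1 / 800

/-- the three angles -/
def ph2 : ℝ := 1 / 1600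

/-- open rectangle -/
def Rc (ℓ a b : ℝ) : Set ℂ := {z | |z.re| < ℓ ∧ a < z.im ∧ z.im < b}

/-- `w ≤ a` in the limit at the point `ζ` of the closure of `V` -/
def BLe (V : Set ℂ) (w : ℂ → ℝ) (ζ : ℂ) (a : ℝ) : Prop := ∀ e > 0, ∀ᶠ z in 𝓝[V] ζ, w z ≤ a + e

/-- the weight -/
def PP (k ℓ ε x : ℝ) : ℝ := k * Real.cosh (x / 4) / Real.cosh (ℓ / 4) + ε

/-- the point with the coordinates `x`, `y` -/
def pt (x y : ℝ) : ℂ := ⟨x, y⟩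

/-- the antisymmetric part with respect to `θ = π / 2` -/
def Aa (Ω : ℂ → ℝ) (z : ℂ) : ℝ := (Ω z - Ω (pt z.re (Real.pi - z.im))) / 2

/-- the symmetric part with respect to `θ = π / 2` -/
def Ss (Ω : ℂ → ℝ) (z : ℂ) : ℝ := (Ω z + Ω (pt z.re (Real.pi - z.im))) / 2

/-- the closed range of angles where `Ω` is harmonic -/
def Sh (ℓ : ℝ) : Set ℂ := {z | |z.re| < ℓ ∧ ph2 ≤ z.im ∧ z.im ≤ Real.pi - ph2}

/-- the data of the potential theoretic part -/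
structure Pot (k ℓ δ η ε : ℝ) (N : Set ℝ) (Ω : ℂ → ℝ) (m : ℝ → ℝ) (u : ℝ → ℂ → ℝ) : Prop where
  hk : 0 < k
  hℓ : 0 < ℓ
  hε : 0 < ε
  hδ : 0 ≤ δ
  hδ1 : δ ≤ 1 / 100
  hη : 0 ≤ η
  hη1 : η ≤ 1 / 100000
  hN : N.Countable
  harm : HarmonicOnNhd Ω (Sh ℓ)
  bd : ∀ z ∈ Sh ℓ, |Ω z| ≤ δ * k
  m0 : ∀ x, |x| < ℓ → 0 ≤ m x
  m1 : ∀ x, |x| < ℓ → m x ≤ k
  one : ∀ ζ : ℂ, |ζ.re| < ℓ → ph2 ≤ ζ.im → ζ.im ≤ ph1 → ∃ w : ℂ → ℝ, SubH w (Rc ℓ 0 ph0) ∧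
    (∀ z ∈ Rc ℓ 0 ph0, w z ≤ k) ∧
    (∀ x, |x| < ℓ → BLe (Rc ℓ 0 ph0) w (pt x 0) ((1 + 16 * η) * m x)) ∧
    (∀ x, |x| < ℓ → BLe (Rc ℓ 0 ph0) w (pt x ph0)
      (Ω (pt x ph0) + 32 * δ * |Ω (pt x ph0)| + 2 * ε)) ∧ Ω ζ - ε ≤ w ζ
  two : ∀ ζ : ℂ, |ζ.re| < ℓ → ph2 ≤ ζ.im → ζ.im ≤ ph1 → ∃ w : ℂ → ℝ, SubH w (Rc ℓ 0 ph0) ∧
    (∀ z ∈ Rc ℓ 0 ph0, w z ≤ k) ∧
    (∀ x, |x| < ℓ → BLe (Rc ℓ 0 ph0) w (pt x 0) ((1 + 16 * η) * m x)) ∧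
    (∀ x, |x| < ℓ → BLe (Rc ℓ 0 ph0) w (pt x ph0) (-Ω (pt x (Real.pi - ph0)) +
      32 * δ * |Ω (pt x (Real.pi - ph0))| + 2 * ε)) ∧
    -Ω (pt ζ.re (Real.pi - ζ.im)) - ε ≤ w ζ
  usub : ∀ q, |q| ≤ 3 → SubH (u q) (Rc ℓ (-ph0) ph0)
  ule : ∀ q, |q| ≤ 3 → ∀ z ∈ Rc ℓ (-ph0) ph0, u q z ≤ k
  utop : ∀ q, |q| ≤ 3 → ∀ x, |x| < ℓ → BLe (Rc ℓ (-ph0) ph0) (u q) (pt x ph0)
    (Ω (pt x ph0) + 32 * δ * |Ω (pt x ph0)| + 2 * ε)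
  ubot : ∀ q, |q| ≤ 3 → ∀ x, |x| < ℓ → BLe (Rc ℓ (-ph0) ph0) (u q) (pt x (-ph0))
    (-Ω (pt x (Real.pi - ph0)) + 32 * δ * |Ω (pt x (Real.pi - ph0))| + 2 * ε)
  mle : ∀ x, |x| < ℓ → x ∉ N → m x ≤ max (u 0 (pt x 0)) (u (-1) (pt x 0))

/-! ### Barriers -/

/-- on the sides `|Im z - c| = d` equal to the weight, above it in between -/
def Hc (k ℓ ε c d : ℝ) (z : ℂ) : ℝ :=
  k * Real.cosh (z.re / 4) / Real.cosh (ℓ / 4) *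
    (Real.cos ((z.im - c) / 4) / Real.cos (d / 4)) + ε

/-- equal to the weight for `Im z = ph1`, decreasing -/
def Hs (k ℓ ε : ℝ) (z : ℂ) : ℝ :=
  k * Real.cosh (z.re / 4) / Real.cosh (ℓ / 4) *
    (Real.sin ((Real.pi / 2 + 1 / 10 - z.im) / 4) / Real.sin ((Real.pi / 2 + 1 / 10 - ph1) / 4)) +
    ε * ((Real.pi / 2 + 1 / 10 - z.im) / (Real.pi / 2 + 1 / 10 - ph1))

/-- zero for `Im z = 0`, the weight for `Im z = ph0` -/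
def Hu (k ℓ ε : ℝ) (z : ℂ) : ℝ :=
  k * Real.cosh (z.re / 4) / Real.cosh (ℓ / 4) *
    (Real.sin (z.im / 4) / Real.sin (ph0 / 4)) + ε * (z.im / ph0)

end Pool.Agent.MP_ae5b4e_an_N4
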