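import Pool.Agent.Lib.MP_ae5b4e_an_N4.SGd

/-!
# MP_ae5b4e_an, N4, part S: the cone in the coordinate `σ`; the label near the ray
-/

set_option autoImplicit false

noncomputable section

namespace Pool.Agent.MP_ae5b4e_an_N4

open Complex Set Filter Topology Metric
open Pool.Agent.MP_ae5b4e_an_NBT (St)
open Pool.Agent.MP_ae5b4e_an_NB2 (Sys)
open Pool.Agent.MP_ae5b4e_an_N5 (NV)
open Pool.Agent.MP_ae5b4e_an_PB (DFU DKU RegF Base)
open scoped ComplexConjugate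

/-- the numerical relations between the constants: `A` large, `lam`, `a` small depending on `A` -/
structure Cst (A lam a : ℝ) : Prop where
  hA : 10 ^ 10 ≤ A
  l0 : 0 < lam
  l1 : lam * Real.exp (A + 1010) * (A + 1) ≤ 1
  a0 : 0 < a
  a1 : a ≤ aa / 8

/-- the box of the interval: `s1 = log (X rf) - Dl`, `s2 = log (X lam re) + Dl`, `X = A k`,
`Dl = A + 1000` -/
def sL (A k rf : ℝ) : ℝ := Real.log (A * k * rf) - (A + 1000)

def sR (A k lam re : ℝ) : ℝ := Real.log (A * k * (lam * re)) + (A + 1000)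

/-- consequence of `l1` -/
theorem Cst.le_exp {A lam a t : ℝ} (hc : Cst A lam a) (ht : t ≤ A + 1010) :
    lam * Real.exp t * (A + 1) ≤ 1 := by
  refine le_trans ?_ hc.l1
  have hA1 : (1:ℝ) ≤ A := le_trans (by norm_num) hc.hA
  exact mul_le_mul_of_nonneg_right
    (mul_le_mul_of_nonneg_left (Real.exp_le_exp.2 ht) hc.l0.le) (by linarith)

/-- consequence of `l1` -/
theorem Cst.le_inv {A lam a : ℝ} (hc : Cst A lam a) : lam * (A + 1) ≤ 1 := by
  have hA1 : (1:ℝ) ≤ A := le_trans (by norm_num) hc.hA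
  have := hc.le_exp (t := 0) (by linarith)
  simpa using this

/-- consequence of `l1` -/
theorem Cst.le_sm {A lam a : ℝ} (hc : Cst A lam a) : lam * (100 * (A + 1)) ≤ 1 := by
  have hA1 : (1:ℝ) ≤ A := le_trans (by norm_num) hc.hA
  have h1 := hc.le_exp (t := 99) (by linarith)
  have h2 : (100:ℝ) ≤ Real.exp 99 := by
    have := Real.add_one_le_exp (99:ℝ)
    linarith
  refine le_trans ?_ h1
  rw [mul_assoc]
  exact mul_le_mul_of_nonneg_left (mul_le_mul_of_nonneg_right h2 (by linarith)) hc.l0.le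

/-- consequence of `l1` -/
theorem Cst.le_one {A lam a : ℝ} (hc : Cst A lam a) : lam ≤ 1 := by
  have hA1 : (1:ℝ) ≤ A := le_trans (by norm_num) hc.hA
  have h1 := hc.le_inv
  have h2 : lam * 1 ≤ lam * (A + 1) := mul_le_mul_of_nonneg_left (by linarith) hc.l0.le
  linarith

/-- `k re < h` -/
theorem Cst.re_lt {Y : Sys} {h R : ℝ} {v : ℂ → ℝ} {η lam a A rf re k x0 : ℝ} (hc : Cst A lam a)
    (hh : 0 < h) (H : Hyp Y h R v η lam a rf re k x0) {t : ℝ} (ht : t ≤ k * re) : t < h := by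
  have hA1 : (1:ℝ) ≤ A := le_trans (by norm_num) hc.hA
  have h1 := hc.le_sm
  have h0 := hc.l0
  have h2 : lam < 1 := by nlinarith
  have h3 : lam ^ 2 < 1 := by nlinarith
  have h4 := H.sm
  nlinarith

/-- (the cone hypothesis in the coordinate `σ`)

Proof. For `σ` in the bigger box `z = exp σ` has `‖z‖ = exp (σ.re)` and `- Im z = ‖z‖ sin (- Im σ) ≥
‖z‖ sin (aa / 2) ≥ a ‖z‖` (`sin x ≥ 2 x / π`). `‖z‖ ≥ A k rf exp (-(A + 1004)) ≥ lam k rf` (`l1`:
`lam exp (A + 1010) ≤ 1 ≤ A`), `lam ‖z‖ ≤ lam A k lam re exp (A + 1004) ≤ k re` (`l1`, `lam ≤ 1`). So `H.cone`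
applies: `Vc - (k² + 1/4) = - (z² Q + k²)`. Moreover `‖z‖ ≤ lam A k re exp (A + 1004) ≤ k re ≤ lam² h < h`,
so `b + z` is in the strip. -/
theorem cone_V {Y : Sys} {h R : ℝ} {v : ℂ → ℝ} {η lam a A rf re k x0 : ℝ} (hc : Cst A lam a)
    (hh : 0 < h) (hk : 1 ≤ k) (H : Hyp Y h R v η lam a rf re k x0) {σ : ℂ}
    (hσ : σ ∈ Bb (sL A k rf) (sR A k lam re)) :
    (x0:ℂ) + (h:ℂ) * I + cexp σ ∈ St (-h) h ∧
      ‖Vc Y ((x0:ℂ) + (h:ℂ) * I) σ - (k ^ 2 + 1 / 4 : ℝ)‖ ≤ η * k ^ 2 := by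
  obtain ⟨h1, h2, h3, h4⟩ := hσ
  have hA1 : (1:ℝ) ≤ A := le_trans (by norm_num) hc.hA
  have hA0 : (0:ℝ) < A := by linarith
  have hk0 : (0:ℝ) < k := by linarith
  have hre : 0 < re := lt_of_lt_of_le H.rf0 H.rle
  have hlam : lam * Real.exp (A + 1004) * (A + 1) ≤ 1 := Cst.le_exp hc (by linarith)
  have hlam1 : lam ≤ 1 := Cst.le_one hc
  have hlamA : lam * Real.exp (A + 1004) * A ≤ 1 := by
    refine le_trans ?_ hlam
    exact mul_le_mul_of_nonneg_left (by linarith) (mul_nonneg hc.l0.le (Real.exp_pos _).le)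
  have hlamE : lam * Real.exp (A + 1004) ≤ 1 := by
    refine le_trans ?_ hlamA
    exact le_mul_of_one_le_right (mul_nonneg hc.l0.le (Real.exp_pos _).le) hA1
  have hnz : ‖cexp σ‖ = Real.exp σ.re := Complex.norm_exp σ
  -- lower bound
  have hlow : A * k * rf * Real.exp (-(A + 1004)) ≤ ‖cexp σ‖ := by
    have e1 : Real.exp (sL A k rf - 4) = A * k * rf * Real.exp (-(A + 1004)) := by
      unfold sL
      rw [show Real.log (A * k * rf) - (A + 1000) - 4 = Real.log (A * k * rf) + -(A + 1004) by ring,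
        Real.exp_add, Real.exp_log (mul_pos (mul_pos hA0 hk0) H.rf0)]
    rw [hnz, ← e1]
    exact Real.exp_le_exp.2 h1.le
  have hupp : ‖cexp σ‖ ≤ A * k * (lam * re) * Real.exp (A + 1004) := by
    have e1 : Real.exp (sR A k lam re + 4) = A * k * (lam * re) * Real.exp (A + 1004) := by
      unfold sR
      rw [show Real.log (A * k * (lam * re)) + (A + 1000) + 4 =
        Real.log (A * k * (lam * re)) + (A + 1004) by ring,
        Real.exp_add, Real.exp_log (mul_pos (mul_pos hA0 hk0) (mul_pos hc.l0 hre))]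
    rw [hnz, ← e1]
    exact Real.exp_le_exp.2 h2.le
  have hupp2 : ‖cexp σ‖ ≤ k * re := by
    refine hupp.trans ?_
    have : A * k * (lam * re) * Real.exp (A + 1004) =
        (lam * Real.exp (A + 1004) * A) * (k * re) := by
      ring
    rw [this]
    exact mul_le_of_le_one_left (mul_pos hk0 hre).le hlamA
  have hlt : ‖cexp σ‖ < h := Cst.re_lt hc hh H (hupp2)
  have hc1 : lam * (k * rf) ≤ ‖cexp σ‖ := by
    refine le_trans ?_ hlow
    have e2 : Real.exp (A + 1004) * Real.exp (-(A + 1004)) = 1 := by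
      rw [← Real.exp_add]
      simp
    have e3 : lam ≤ A * Real.exp (-(A + 1004)) := by
      have e4 : lam * Real.exp (A + 1004) ≤ A := hlamE.trans hA1
      have e5 := mul_le_mul_of_nonneg_right e4 (Real.exp_pos (-(A + 1004))).le
      rwa [mul_assoc, e2, mul_one] at e5
    calc lam * (k * rf) ≤ (A * Real.exp (-(A + 1004))) * (k * rf) :=
          mul_le_mul_of_nonneg_right e3 (mul_pos hk0 H.rf0).le
      _ = A * k * rf * Real.exp (-(A + 1004)) := by ring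
  have hc2 : lam * ‖cexp σ‖ ≤ k * re :=
    (mul_le_of_le_one_left (norm_nonneg _) hlam1).trans hupp2
  have hsin : a ≤ Real.sin (-σ.im) := by
    have haa : (0:ℝ) < aa := by norm_num [aa]
    have hpi := Real.pi_pos
    have hpi4 : Real.pi < 4 := by linarith [Real.pi_lt_d2]
    have hpi3 : 3 < Real.pi := Real.pi_gt_three
    have haa1 : aa < 1 := by norm_num [aa]
    have hq : aa / 8 ≤ Real.sin (aa / 2) := by
      have := Real.mul_le_sin (x := aa / 2) (by linarith) (by linarith)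
      refine le_trans ?_ this
      rw [div_mul_div_comm, div_le_div_iff₀ (by norm_num) (by positivity)]
      nlinarith
    refine hc.a1.trans (hq.trans ?_)
    rcases le_total (-σ.im) (Real.pi / 2) with h5 | h5
    · exact Real.sin_le_sin_of_le_of_le_pi_div_two (by linarith) h5 (by linarith)
    · rw [← Real.sin_pi_sub (-σ.im)]
      exact Real.sin_le_sin_of_le_of_le_pi_div_two (by linarith) (by linarith) (by linarith)
  have him : (cexp σ).im = -(‖cexp σ‖ * Real.sin (-σ.im)) := by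
    rw [hnz, Complex.exp_im, Real.sin_neg]
    ring
  have hc3 : a * ‖cexp σ‖ ≤ -(cexp σ).im := by
    rw [him, neg_neg, mul_comm a]
    exact mul_le_mul_of_nonneg_left hsin (norm_nonneg _)
  refine ⟨?_, ?_⟩
  · have hi := abs_le.1 (Complex.abs_im_le_norm (cexp σ))
    have hpos : 0 < ‖cexp σ‖ := by
      rw [hnz]
      exact Real.exp_pos _
    have hneg : (cexp σ).im < 0 := by
      have : 0 < a * ‖cexp σ‖ := mul_pos hc.a0 hpos
      linarith
    have him2 : ((x0:ℂ) + (h:ℂ) * I + cexp σ).im = h + (cexp σ).im := by simp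
    rw [Pool.Agent.MP_ae5b4e_an_NBT.mem_St, him2]
    constructor <;> linarith [hi.1]
  · have h5 := H.cone (cexp σ) hc1 hc2 hc3
    have e6 : Vc Y ((x0:ℂ) + (h:ℂ) * I) σ - (k ^ 2 + 1 / 4 : ℝ) =
        -(cexp σ ^ 2 * Y.Q ((x0:ℂ) + (h:ℂ) * I + cexp σ) + (k:ℂ) ^ 2) := by
      unfold Vc
      rw [two_mul, Complex.exp_add]
      push_cast
      ring
    rw [e6, norm_neg]
    exact h5

theorem exp_sR {Y : Sys} {h R : ℝ} {v : ℂ → ℝ} {η lam a A rf re k x0 : ℝ} (hc : Cst A lam a)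
    (hh : 0 < h) (hk : 1 ≤ k) (H : Hyp Y h R v η lam a rf re k x0) :
    Real.exp (sR A k lam re) < h ∧ (rf < lam * re → sL A k rf < sR A k lam re) := by
  have hA1 : (1:ℝ) ≤ A := le_trans (by norm_num) hc.hA
  have hA0 : (0:ℝ) < A := by linarith
  have hk0 : (0:ℝ) < k := by linarith
  have hre : 0 < re := lt_of_lt_of_le H.rf0 H.rle
  have hlam : lam * Real.exp (A + 1000) * (A + 1) ≤ 1 := Cst.le_exp hc (by linarith)
  have hlamA : lam * Real.exp (A + 1000) * A ≤ 1 := by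
    refine le_trans ?_ hlam
    exact mul_le_mul_of_nonneg_left (by linarith) (mul_nonneg hc.l0.le (Real.exp_pos _).le)
  refine ⟨?_, fun hlt => ?_⟩
  · refine Cst.re_lt hc hh H ?_
    unfold sR
    rw [Real.exp_add, Real.exp_log (mul_pos (mul_pos hA0 hk0) (mul_pos hc.l0 hre))]
    have : A * k * (lam * re) * Real.exp (A + 1000) =
        (lam * Real.exp (A + 1000) * A) * (k * re) := by
      ring
    rw [this]
    exact mul_le_of_le_one_left (mul_pos hk0 hre).le hlamA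
  · unfold sL sR
    have h1 : Real.log (A * k * rf) ≤ Real.log (A * k * (lam * re)) :=
      Real.log_le_log (mul_pos (mul_pos hA0 hk0) H.rf0)
        (mul_le_mul_of_nonneg_left hlt.le (mul_pos hA0 hk0).le)
    linarith

/-- the directions: `ρ` -/
structure Dir (lam rf re : ℝ) (ρ : ℂ) : Prop where
  r1 : rf < ‖ρ‖
  r2 : ‖ρ‖ < lam * re
  im : 0 < ρ.im
  a1 : ph2 / 4 < arg ρ
  a2 : arg ρ < Real.pi - ph2 / 4

/-- the depth of `ρ z` for `z` near `- X`: the zone `‖z + X‖ ≤ X / 25600` (`25600 = 16 / ph2`).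

Proof. `z = - X (1 + u)`, `‖u‖ ≤ ph2 / 16`: `- Im (ρ z) = X Im (ρ (1 + u)) ≥ X ‖ρ‖ (sin (arg ρ) - ‖u‖)`, and
`sin (arg ρ) ≥ sin (ph2 / 4) ≥ ph2 / 8` (`arg ρ ∈ (ph2/4, π - ph2/4)`). So `- Im (ρ z) ≥ X ‖ρ‖ ph2 / 16 ≥
X ‖ρ‖ / 30000`. -/
theorem dep_z {lam rf re : ℝ} {ρ z : ℂ} {X : ℝ} (hX : 0 < X) (hρ : Dir lam rf re ρ)
    (hz : ‖z + X‖ ≤ X / 25600) :
    X * ‖ρ‖ / 30000 ≤ -(ρ * z).im ∧ ‖ρ * z‖ ≤ 2 * X * ‖ρ‖ ∧ X * ‖ρ‖ / 2 ≤ ‖ρ * z‖ := by
  have hn := norm_nonneg ρ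
  have hXn : 0 ≤ X * ‖ρ‖ := mul_nonneg hX.le hn
  have hXc : ‖(X:ℂ)‖ = X := by rw [Complex.norm_real, Real.norm_eq_abs, abs_of_pos hX]
  have e0 : ρ * z = ρ * (z + X) - X * ρ := by ring
  have hsmall : ‖ρ * (z + X)‖ ≤ X * ‖ρ‖ / 25600 := by
    rw [norm_mul]
    calc ‖ρ‖ * ‖z + X‖ ≤ ‖ρ‖ * (X / 25600) := mul_le_mul_of_nonneg_left hz hn
      _ = X * ‖ρ‖ / 25600 := by ring
  have hz1 : ‖z‖ ≤ 2 * X := by
    have : ‖z‖ = ‖(z + X) - X‖ := by rw [add_sub_cancel_right]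
    rw [this]
    refine (norm_sub_le _ _).trans ?_
    rw [hXc]
    linarith
  have hz2 : X / 2 ≤ ‖z‖ := by
    have h1 : ‖(X:ℂ)‖ ≤ ‖z + X‖ + ‖z‖ := by
      have : (X:ℂ) = (z + X) - z := by ring
      calc ‖(X:ℂ)‖ = ‖(z + X) - z‖ := by rw [← this]
        _ ≤ _ := norm_sub_le _ _
    rw [hXc] at h1
    linarith
  have hsin : 1 / 12800 ≤ Real.sin (arg ρ) := by
    have hpi := Real.pi_pos
    have hpi4 : Real.pi < 4 := by linarith [Real.pi_lt_d2]
    have hpi3 : 3 < Real.pi := Real.pi_gt_three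
    have a1 := hρ.a1
    have a2 := hρ.a2
    unfold ph2 at a1 a2
    have hq : (1:ℝ) / 12800 ≤ Real.sin (1 / 1600 / 4) := by
      have := Real.mul_le_sin (x := 1 / 1600 / 4) (by norm_num) (by linarith)
      refine le_trans ?_ this
      rw [div_mul_eq_mul_div, div_le_div_iff₀ (by norm_num) hpi]
      linarith
    refine hq.trans ?_
    rcases le_total (arg ρ) (Real.pi / 2) with h5 | h5
    · exact Real.sin_le_sin_of_le_of_le_pi_div_two (by linarith) h5 a1.le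
    · rw [← Real.sin_pi_sub (arg ρ)]
      exact Real.sin_le_sin_of_le_of_le_pi_div_two (by linarith) (by linarith) (by linarith)
  have him : ‖ρ‖ / 12800 ≤ ρ.im := by
    have := Complex.norm_mul_sin_arg ρ
    rw [← this]
    calc ‖ρ‖ / 12800 = ‖ρ‖ * (1 / 12800) := by ring
      _ ≤ _ := mul_le_mul_of_nonneg_left hsin hn
  refine ⟨?_, ?_, ?_⟩
  · have h1 : (ρ * z).im = (ρ * (z + X)).im - X * ρ.im := by
      have hXi : ((X:ℂ) * ρ).im = X * ρ.im := by simp [Complex.mul_im]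
      rw [e0, Complex.sub_im, hXi]
    have h2 := (abs_le.1 (Complex.abs_im_le_norm (ρ * (z + X)))).2
    have h3 : X * (‖ρ‖ / 12800) ≤ X * ρ.im := mul_le_mul_of_nonneg_left him hX.le
    rw [h1]
    have h4 : X * (‖ρ‖ / 12800) = X * ‖ρ‖ / 12800 := by ring
    rw [h4] at h3
    linarith
  · rw [norm_mul]
    calc ‖ρ‖ * ‖z‖ ≤ ‖ρ‖ * (2 * X) := mul_le_mul_of_nonneg_left hz1 hn
      _ = 2 * X * ‖ρ‖ := by ring
  · rw [norm_mul]
    calc X * ‖ρ‖ / 2 = ‖ρ‖ * (X / 2) := by ring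
      _ ≤ ‖ρ‖ * ‖z‖ := mul_le_mul_of_nonneg_left hz2 hn

/-- (S4, first part) THE LABEL DOMAIN. For `d = - Im (ρ z)` and `‖ρ'‖ < d / (3 k)` the point
`(b + ρ z, ρ')` is in the domain of the label.

Proof. `R1 = d / (3 k) ≤ 2 X ‖ρ‖ / (3 k) ≤ A lam re ≤ re`. If `rf / 4 ≤ ‖ρ'‖`: `H.con` gives `v ρ' ≤
k (1 + 2 η) ‖ρ'‖`, so `v ρ' + |Im ρ'| ≤ (k (1 + 2 η) + 1) ‖ρ'‖ ≤ 3 k ‖ρ'‖ < d` (`η ≤ 1/4`, `k ≥ 2`). If
`‖ρ'‖ < rf / 4`: maximum principle for `v` on the disc of radius `rf / 4` (`hB.nv.sub`, upper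
semicontinuity; on the circle `v ≤ k (1 + 2 η) rf / 4`): `v ρ' + |Im ρ'| ≤ 3 k rf / 4 < 3 k ‖ρ‖ / 4 < d`
(`d ≥ A k ‖ρ‖ / 30000`). `d ≤ 2 X lam re < h` and `‖ρ'‖ < re ≤ R`. -/
theorem mem_DKU_ray {Y : Sys} {h R C0 : ℝ} {v : ℂ → ℝ} {G L : ℂ × ℂ → ℂ} (hB : Base Y h R C0 v G L)
    {η lam a A rf re k x0 : ℝ} (hc : Cst A lam a) (hk : 2 ≤ k) (hη : η ≤ 1 / 4) (hη0 : 0 ≤ η)
    (H : Hyp Y h R v η lam a rf re k x0) {ρ z ρ' : ℂ} (hρ : Dir lam rf re ρ)
    (hz : ‖z + A * k‖ ≤ A * k / 25600) (hρ' : ‖ρ'‖ < -(ρ * z).im / (3 * k)) :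
    ((x0:ℂ) + (h:ℂ) * I + ρ * z, ρ') ∈ DKU v h R := by
  have hA1 : (1:ℝ) ≤ A := le_trans (by norm_num) hc.hA
  have hA0 : (0:ℝ) < A := by linarith
  have hk0 : (0:ℝ) < k := by linarith
  have hre : 0 < re := lt_of_lt_of_le H.rf0 H.rle
  have hX : 0 < A * k := mul_pos hA0 hk0
  obtain ⟨d1, d2, d3⟩ := dep_z (X := A * k) hX hρ (by push_cast; exact hz)
  have hsm := hc.le_sm
  have hl0 := hc.l0
  have hrn : 0 < ‖ρ‖ := lt_trans H.rf0 hρ.r1
  have hi := (abs_le.1 (Complex.abs_im_le_norm (ρ * z))).1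
  have hd2 : -(ρ * z).im ≤ 2 * (A * k) * ‖ρ‖ := by linarith
  have hAl : A * lam ≤ 1 / 100 := by nlinarith
  have hAr : A * ‖ρ‖ ≤ re / 100 := by
    calc A * ‖ρ‖ ≤ A * (lam * re) := mul_le_mul_of_nonneg_left hρ.r2.le hA0.le
      _ = (A * lam) * re := by ring
      _ ≤ (1 / 100) * re := mul_le_mul_of_nonneg_right hAl hre.le
      _ = re / 100 := by ring
  have h3k : (0:ℝ) < 3 * k := by linarith
  have hR1 : ‖ρ'‖ * (3 * k) < -(ρ * z).im := by
    rwa [lt_div_iff₀ h3k] at hρ'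
  have hρre : ‖ρ'‖ < re := by
    have : ‖ρ'‖ * (3 * k) < re * (3 * k) := by
      refine hR1.trans_le (hd2.trans ?_)
      nlinarith
    exact lt_of_mul_lt_mul_right this h3k.le
  have hRR : ‖ρ'‖ < R := by linarith [H.reR]
  have hdh : -(ρ * z).im < h := by
    refine Cst.re_lt hc hB.h_pos H (hd2.trans ?_)
    nlinarith
  have him1 : ((x0:ℂ) + (h:ℂ) * I + ρ * z).im = h + (ρ * z).im := by simp
  have hη2 : 1 + 2 * η ≤ 3 / 2 := by linarith
  have hcon : ∀ w : ℂ, rf / 4 ≤ ‖w‖ → ‖w‖ ≤ 4 * re → v w ≤ 3 / 2 * k * ‖w‖ := by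
    intro w hw1 hw2
    have h1 := H.con w hw1 hw2
    have h2 : |w.im| ≤ ‖w‖ := Complex.abs_im_le_norm w
    have h3 : (1 + η) * |w.im| + η * ‖w‖ ≤ 3 / 2 * ‖w‖ := by nlinarith [norm_nonneg w]
    calc v w ≤ k * ((1 + η) * |w.im| + η * ‖w‖) := h1
      _ ≤ k * (3 / 2 * ‖w‖) := mul_le_mul_of_nonneg_left h3 hk0.le
      _ = 3 / 2 * k * ‖w‖ := by ring
  have him2 : |ρ'.im| ≤ ‖ρ'‖ := Complex.abs_im_le_norm ρ'
  have hkey : v ρ' + |ρ'.im| < -(ρ * z).im := by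
    rcases le_or_gt (rf / 4) ‖ρ'‖ with hc1 | hc1
    · have h1 := hcon ρ' hc1 (by linarith)
      nlinarith [norm_nonneg ρ']
    · have hrf := H.rf0
      have hrf4 : 0 < rf / 4 := by linarith
      have hsub : closedBall (0:ℂ) (rf / 4) ⊆ ball (0:ℂ) R := by
        apply closedBall_subset_ball
        linarith [H.rle, H.reR]
      have hmax := (hB.nv.sub.mono (ball_subset_closedBall.trans hsub)).le_dirichlet
        (u := fun _ => 3 / 2 * k * (rf / 4)) (hB.nv.sub.usc.mono hsub) continuousOn_const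
        (fun z _ => InnerProductSpace.harmonicAt_const (3 / 2 * k * (rf / 4)))
        (fun w hw => by
          have hw' : ‖w‖ = rf / 4 := by simpa using hw
          have h1 := hcon w hw'.ge (by rw [hw']; linarith [H.rle])
          rw [hw'] at h1
          exact h1) ρ' (by simpa using hc1.le)
      have hmax' : v ρ' ≤ 3 / 2 * k * (rf / 4) := hmax
      have h5 : k * rf / 2 < -(ρ * z).im := by
        refine lt_of_lt_of_le ?_ d1
        have h6 : (30000:ℝ) ≤ A := le_trans (by norm_num) hc.hA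
        have h7 : k * rf < k * ‖ρ‖ := mul_lt_mul_of_pos_left hρ.r1 hk0
        have h8 : k * ‖ρ‖ * 30000 ≤ k * ‖ρ‖ * A :=
          mul_le_mul_of_nonneg_left h6 (mul_pos hk0 hrn).le
        have h9 : 0 < k * rf := mul_pos hk0 hrf
        nlinarith
      have h10 : rf / 4 ≤ k * rf / 8 := by nlinarith
      have h11 : 3 / 2 * k * (rf / 4) = 3 * (k * rf / 8) := by ring
      rw [h11] at hmax'
      have h12 : 0 < k * rf := mul_pos hk0 hrf
      linarith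
  refine ⟨hRR, ?_, ?_⟩
  · show 0 < ((x0:ℂ) + (h:ℂ) * I + ρ * z).im
    rw [him1]
    linarith
  · show ((x0:ℂ) + (h:ℂ) * I + ρ * z).im < h - v ρ' - |ρ'.im|
    rw [him1]
    linarith

theorem lab_num {d k r : ℝ} (hd : d ≠ 0) (hk : k ≠ 0) :
    2 * d * (r / (d / (3 * k) / 2)) ^ (1 + 1) = 72 * k ^ 2 * r ^ 2 / d := by
  have h1 : r / (d / (3 * k) / 2) = 6 * k * r / d := by
    field_simp
    ring
  rw [h1, show (1 + 1 : ℕ) = 2 from rfl, div_pow]
  field_simp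
  ring

/-- (S4) THE LABEL ESTIMATE.

Proof. `d = - Im (ρ z)`, `t = b + ρ z`, `R1 = d / (3 k) ≥ A ‖ρ‖ / 90000 ≥ 2 ‖ρ‖`. The function
`g ρ' = L (t, ρ') - t` on `ball 0 R1` is analytic, even, `g 0 = 0` (`hB.zero`; `0 < t.im`), and
`Im g < h - t.im = d` (`hB.maps`). Borel-Caratheodory: `‖g‖ ≤ 2 d` on `ball 0 (R1 / 2)`; Schwarz twice
(`g` even): `‖g ρ'‖ ≤ 8 d (‖ρ'‖ / R1)²`. At `ρ' = ρ`: `≤ 72 k² ‖ρ‖² / d ≤ 72 · 30000 k² ‖ρ‖ / (A k)`, and
`‖ρ z‖ ≥ A k ‖ρ‖ / 2`: the quotient is `≤ 10 ^ 7 / A²`. -/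
theorem lab_est {Y : Sys} {h R C0 : ℝ} {v : ℂ → ℝ} {G L : ℂ × ℂ → ℂ} (hB : Base Y h R C0 v G L)
    {η lam a A rf re k x0 : ℝ} (hc : Cst A lam a) (hk : 2 ≤ k) (hη : η ≤ 1 / 4) (hη0 : 0 ≤ η)
    (H : Hyp Y h R v η lam a rf re k x0) {ρ z : ℂ} (hρ : Dir lam rf re ρ)
    (hz : ‖z + A * k‖ ≤ A * k / 25600) :
    ((x0:ℂ) + (h:ℂ) * I + ρ * z, ρ) ∈ DKU v h R ∧
    ‖L ((x0:ℂ) + (h:ℂ) * I + ρ * z, ρ) - ((x0:ℂ) + (h:ℂ) * I) - ρ * z‖ ≤
      10 ^ 7 / A ^ 2 * ‖ρ * z‖ := by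
  have hA1 : (1:ℝ) ≤ A := le_trans (by norm_num) hc.hA
  have hA0 : (0:ℝ) < A := by linarith
  have hk0 : (0:ℝ) < k := by linarith
  have hX : 0 < A * k := mul_pos hA0 hk0
  obtain ⟨d1, d2, d3⟩ := dep_z (X := A * k) hX hρ (by push_cast; exact hz)
  have hrn : 0 < ‖ρ‖ := lt_trans H.rf0 hρ.r1
  have h3k : (0:ℝ) < 3 * k := by linarith
  have hmem : ∀ ρ' : ℂ, ‖ρ'‖ < -(ρ * z).im / (3 * k) →
      ((x0:ℂ) + (h:ℂ) * I + ρ * z, ρ') ∈ DKU v h R :=
    fun ρ' hρ' => mem_DKU_ray hB hc hk hη hη0 H hρ hz hρ'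
  have him1 : ((x0:ℂ) + (h:ℂ) * I + ρ * z).im = h + (ρ * z).im := by simp
  set t : ℂ := (x0:ℂ) + (h:ℂ) * I + ρ * z with ht
  set d : ℝ := -(ρ * z).im with hd
  have hd0 : 0 < d := lt_of_lt_of_le (by positivity) d1
  set R1 : ℝ := d / (3 * k) with hR1
  have hR1d : R1 * (3 * k) = d := by
    rw [hR1]
    exact div_mul_cancel₀ _ h3k.ne'
  have hR10 : 0 < R1 := div_pos hd0 h3k
  have hR1ρ : 2 * ‖ρ‖ < R1 := by
    have h1 : (2:ℝ) * 10 ^ 5 ≤ A := le_trans (by norm_num) hc.hA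
    have h2 : 2 * ‖ρ‖ * (3 * k) < R1 * (3 * k) := by
      rw [hR1d]
      refine lt_of_lt_of_le ?_ d1
      have h3 : 0 < k * ‖ρ‖ := mul_pos hk0 hrn
      have h4 : (2 * 10 ^ 5) * (k * ‖ρ‖) ≤ A * (k * ‖ρ‖) := mul_le_mul_of_nonneg_right h1 h3.le
      nlinarith
    exact lt_of_mul_lt_mul_right h2 h3k.le
  have hρR1 : ‖ρ‖ < R1 := by linarith
  refine ⟨hmem ρ hρR1, ?_⟩
  -- the function
  set g : ℂ → ℂ := fun ρ' => L (t, ρ') - t with hg
  have hgd : DifferentiableOn ℂ g (ball 0 R1) := by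
    intro ρ' hρ'
    have h1 : AnalyticAt ℂ L (t, ρ') := hB.an _ (hmem ρ' (mem_ball_zero_iff.1 hρ'))
    have h2 : AnalyticAt ℂ (fun w : ℂ => L (t, w)) ρ' :=
      h1.comp₂ analyticAt_const analyticAt_id
    exact (h2.sub analyticAt_const).differentiableAt.differentiableWithinAt
  have hm0 := hmem 0 (by rw [norm_zero]; exact hR10)
  have ht0 : 0 < t.im := hm0.2.1
  have hth : t.im < h := by rw [him1]; linarith
  have hg0 : g 0 = 0 := by
    show L (t, 0) - t = 0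
    rw [hB.zero t ht0 hth, sub_self]
  have heven : ∀ w ∈ ball (0:ℂ) R1, g (-w) = g w := by
    intro w hw
    show L (t, -w) - t = L (t, w) - t
    rw [hB.even _ (hmem w (mem_ball_zero_iff.1 hw))]
  have him : ∀ w ∈ ball (0:ℂ) R1, (g w).im ≤ d := by
    intro w hw
    have h1 := (hB.maps _ (hmem w (mem_ball_zero_iff.1 hw))).2
    show (L (t, w) - t).im ≤ d
    rw [Complex.sub_im, him1]
    linarith
  have hbc : ∀ w ∈ ball (0:ℂ) (R1 / 2), ‖g w‖ ≤ 2 * d := by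
    intro w hw
    have hw' : ‖w‖ < R1 / 2 := mem_ball_zero_iff.1 hw
    have h1 := Complex.borelCaratheodory_zero (f := fun w => -I * g w) (M := d) (R := R1) (z := w)
      hd0 (hgd.const_mul _) (fun x hx => by
        show (-I * g x).re ≤ d
        have : (-I * g x).re = (g x).im := by simp
        rw [this]
        exact him x hx) hR10 (mem_ball_zero_iff.2 (by linarith)) (by simp [hg0])
    have h2 : ‖-I * g w‖ = ‖g w‖ := by simp
    rw [h2] at h1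
    refine h1.trans ?_
    rw [div_le_iff₀ (by linarith)]
    nlinarith
  have hder : HasDerivAt g 0 0 := by
    have h1 : DifferentiableAt ℂ g 0 := hgd.differentiableAt (ball_mem_nhds _ hR10)
    have h2 : HasDerivAt g (deriv g 0) 0 := h1.hasDerivAt
    have h3 : HasDerivAt (fun w : ℂ => g (-w)) (-(deriv g 0)) 0 := by
      have h4 : HasDerivAt g (deriv g 0) (-(0:ℂ)) := by rw [neg_zero]; exact h2
      have h5 := h4.comp (0:ℂ) (hasDerivAt_neg (0:ℂ))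
      simpa [Function.comp_def] using h5
    have h6 : (fun w : ℂ => g (-w)) =ᶠ[𝓝 0] g := by
      filter_upwards [ball_mem_nhds (0:ℂ) hR10] with w hw
      exact heven w hw
    have h7 : HasDerivAt g (-(deriv g 0)) 0 := h3.congr_of_eventuallyEq h6.symm
    have h8 : deriv g 0 = -deriv g 0 := h2.unique h7
    have h9 : deriv g 0 = 0 := by
      have : deriv g 0 + deriv g 0 = 0 := by
        nth_rewrite 1 [h8]
        exact neg_add_cancel _
      exact add_self_eq_zero.1 this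
    rw [h9] at h2
    exact h2
  have hlo : (fun w => g w - g 0) =o[𝓝 0] (fun w : ℂ => ‖w - 0‖ ^ 1) := by
    have h1 := hder.isLittleO
    simp only [smul_zero, sub_zero] at h1
    simp only [pow_one, sub_zero]
    exact h1.norm_right
  have hρh : ρ ∈ ball (0:ℂ) (R1 / 2) := mem_ball_zero_iff.2 (by linarith)
  have hsch := Complex.dist_le_mul_div_pow_of_mapsTo_ball_of_isLittleO (f := g) (c := (0:ℂ))
    (z := ρ) (R₁ := R1 / 2) (R₂ := 2 * d) (n := 1) (hgd.mono (ball_subset_ball (by linarith)))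
    (fun w hw => by
      rw [hg0, mem_closedBall, dist_zero_right]
      exact hbc w hw) hlo hρh
  rw [hg0, dist_zero_right, dist_zero_right] at hsch
  have e1 : L (t, ρ) - ((x0:ℂ) + (h:ℂ) * I) - ρ * z = g ρ := by
    show L (t, ρ) - ((x0:ℂ) + (h:ℂ) * I) - ρ * z = L (t, ρ) - t
    rw [ht]
    ring
  rw [e1]
  refine hsch.trans ?_
  -- numerical part
  have e2 : 2 * d * (‖ρ‖ / (R1 / 2)) ^ (1 + 1) = 72 * k ^ 2 * ‖ρ‖ ^ 2 / d := by
    rw [hR1]
    exact lab_num hd0.ne' hk0.ne'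
  rw [e2]
  have h5 : 72 * k ^ 2 * ‖ρ‖ ^ 2 / d ≤ 72 * k ^ 2 * ‖ρ‖ ^ 2 / (A * k * ‖ρ‖ / 30000) := by
    apply div_le_div_of_nonneg_left (by positivity) (by positivity) d1
  refine h5.trans ?_
  have e3 : 72 * k ^ 2 * ‖ρ‖ ^ 2 / (A * k * ‖ρ‖ / 30000) = 2160000 / A * (k * ‖ρ‖) := by
    field_simp
    ring
  rw [e3]
  calc 2160000 / A * (k * ‖ρ‖) = 4320000 / A ^ 2 * (A * k * ‖ρ‖ / 2) := by
        field_simp
        ring
    _ ≤ 10 ^ 7 / A ^ 2 * ‖ρ * z‖ := by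
        apply mul_le_mul _ d3 (by positivity) (by positivity)
        apply div_le_div_of_nonneg_right _ (by positivity)
        norm_num

end Pool.Agent.MP_ae5b4e_an_N4
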