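import Pool.Agent.Lib.MP_ae5b4e_an_N4.SCone

/-!
# MP_ae5b4e_an, N4, part S: the labels of the start zone
-/

set_option autoImplicit false

noncomputable section

namespace Pool.Agent.MP_ae5b4e_an_N4

open Complex Set Filter Topology Metric
open Pool.Agent.MP_ae5b4e_an_NBT (St MerAt Mer EqM Den)
open Pool.Agent.MP_ae5b4e_an_NB2 (Sys)
open Pool.Agent.MP_ae5b4e_an_N5 (NV)
open Pool.Agent.MP_ae5b4e_an_PB (DFU DKU RegF Base)
open scoped ComplexConjugate

/-- the label minus `b` -/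
def lbl (L : ℂ × ℂ → ℂ) (x0 h : ℝ) (p : ℂ × ℂ) : ℂ :=
  L ((x0:ℂ) + (h:ℂ) * I + p.2 * p.1, p.2) - ((x0:ℂ) + (h:ℂ) * I)

/-- the correction `log (label / (ρ z))` -/
def psi (L : ℂ × ℂ → ℂ) (x0 h : ℝ) (p : ℂ × ℂ) : ℂ := Complex.log (lbl L x0 h p / (p.2 * p.1))

/-- the coordinate `σ` of the label -/
def sg (L : ℂ × ℂ → ℂ) (x0 h : ℝ) (p : ℂ × ℂ) : ℂ :=
  Complex.log p.2 + lgu p.1 + psi L x0 h p

/-- `log (1 + u)` is small -/
private theorem log_one_add_small {u : ℂ} {e : ℝ} (he : ‖u‖ ≤ e) (he' : e ≤ 1 / 100) :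
    ‖Complex.log (1 + u)‖ ≤ e * (1 + e) := by
  have h0 := norm_nonneg u
  have h1 : ‖u‖ < 1 := by linarith
  have h2 := Complex.norm_log_one_add_le h1
  have h3 : (1 - ‖u‖)⁻¹ ≤ 2 := by
    rw [inv_le_comm₀ (by linarith) (by norm_num)]
    linarith
  nlinarith [mul_nonneg h0 h0, mul_le_mul_of_nonneg_left h3 (mul_nonneg h0 h0)]

/-- properties of `lgu` near the negative axis (`z = - X (1 + u)`, `‖u‖ ≤ 1 / 25600`):
analytic, `exp (lgu z) = z`, `lgu z = log X - π i + log (1 + u)`, derivative `1 / z`. -/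
theorem lgu_near {X : ℝ} (hX : 0 < X) {z : ℂ} (hz : ‖z + X‖ ≤ X / 25600) :
    cexp (lgu z) = z ∧ HasDerivAt lgu z⁻¹ z ∧ AnalyticAt ℂ lgu z ∧
      |(lgu z).im + Real.pi| ≤ 1 / 20000 ∧ |(lgu z).re - Real.log X| ≤ 1 / 10000 := by
  have hre : z.re < 0 := by
    have h1 := (abs_le.1 ((Complex.abs_re_le_norm (z + X)).trans hz)).2
    rw [Complex.add_re, Complex.ofReal_re] at h1
    linarith
  have hz0 : z ≠ 0 := by
    rintro rfl
    simp at hre
  have hI : (z * I).im = z.re := by simp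
  have hsl : z * I ∈ slitPlane := Or.inr (by rw [hI]; exact hre.ne)
  have hexp : cexp (((Real.pi / 2 : ℝ) : ℂ) * I) = I := by
    push_cast
    exact Complex.exp_pi_div_two_mul_I
  have hE : cexp (lgu z) = z := by
    unfold lgu
    rw [Complex.exp_sub, Complex.exp_log (mul_ne_zero hz0 I_ne_zero), hexp,
      mul_div_cancel_right₀ _ I_ne_zero]
  have hD : HasDerivAt lgu z⁻¹ z := by
    have h1 : HasDerivAt (fun w : ℂ => w * I) (1 * I) z := (hasDerivAt_id z).mul_const I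
    have h2 := (h1.clog hsl).sub_const (((Real.pi / 2 : ℝ) : ℂ) * I)
    convert! h2 using 1
    rw [one_mul]
    field_simp
  have hA : AnalyticAt ℂ lgu z := by
    unfold lgu
    exact ((analyticAt_id.mul analyticAt_const).clog hsl).sub analyticAt_const
  -- the quotient
  have hXc : (X : ℂ) ≠ 0 := by exact_mod_cast hX.ne'
  set u : ℂ := -(z + X) / X with hu
  have hun : ‖u‖ ≤ 1 / 25600 := by
    rw [hu, norm_div, norm_neg, Complex.norm_real, Real.norm_of_nonneg hX.le, div_le_iff₀ hX]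
    linarith
  have hzu : z * I = ((X : ℝ) : ℂ) * ((1 + u) * (-I)) := by
    rw [hu]
    field_simp
    ring
  have hu1 : 0 < (1 + u).re := by
    have h1 := (abs_le.1 ((Complex.abs_re_le_norm u).trans hun)).1
    rw [Complex.add_re, Complex.one_re]
    linarith
  have hu0 : (1 + u) ≠ 0 := by
    intro h
    rw [h] at hu1
    simp at hu1
  have hlog : lgu z = Real.log X + Complex.log (1 + u) - Real.pi * I := by
    have h1 : |(1 + u).arg| < Real.pi / 2 := Complex.abs_arg_lt_pi_div_two_iff.2 (Or.inl hu1)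
    rw [abs_lt] at h1
    have hI0 : (-I : ℂ) ≠ 0 := neg_ne_zero.2 I_ne_zero
    have h2 := (Complex.log_mul_eq_add_log_iff hu0 hI0).2 (by
      rw [Complex.arg_neg_I]
      constructor <;> linarith [h1.1, h1.2, Real.pi_pos])
    unfold lgu
    rw [hzu, Complex.log_ofReal_mul hX (mul_ne_zero hu0 hI0), h2, Complex.log_neg_I]
    push_cast
    ring
  have hl := log_one_add_small hun (by norm_num)
  refine ⟨hE, hD, hA, ?_, ?_⟩
  · have h1 : (lgu z).im + Real.pi = (Complex.log (1 + u)).im := by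
      rw [hlog]
      simp
    rw [h1]
    refine (Complex.abs_im_le_norm _).trans (hl.trans (by norm_num))
  · have h1 : (lgu z).re - Real.log X = (Complex.log (1 + u)).re := by
      rw [hlog]
      simp
    rw [h1]
    refine (Complex.abs_re_le_norm _).trans (hl.trans (by norm_num))

/-- consecutive points: `lgu (z + 1) - lgu z = log (1 + 1 / z)` is `1 / z` up to `‖z‖ ^ (-2)` -/
theorem lgu_step {X : ℝ} (hX : 10 ^ 6 ≤ X) {z : ℂ} (hz : ‖z + X‖ ≤ X / 50000) :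
    ‖lgu (z + 1) - lgu z - z⁻¹‖ ≤ 4 / X ^ 2 := by
  have hX0 : 0 < X := by linarith
  have h1 := lgu_near hX0 (z := z) (by linarith)
  have h2 := lgu_near hX0 (z := z + 1) (by
    have : ‖z + 1 + X‖ ≤ ‖z + X‖ + 1 := by
      have := norm_add_le (z + X) 1
      rw [norm_one] at this
      rwa [show z + 1 + X = z + X + 1 by ring]
    linarith)
  have hzn : X / 2 ≤ ‖z‖ := by
    have h3 : ‖(X : ℂ)‖ ≤ ‖z + X‖ + ‖z‖ := by
      have := norm_sub_le (z + X) z
      rwa [show z + X - z = X by ring] at this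
    rw [Complex.norm_real, Real.norm_of_nonneg hX0.le] at h3
    linarith
  have hz0 : z ≠ 0 := by
    rintro rfl
    rw [norm_zero] at hzn
    linarith
  have hzi : ‖z⁻¹‖ ≤ 2 / X := by
    rw [norm_inv, inv_le_comm₀ (by linarith) (by positivity), inv_div]
    exact hzn
  have hexp : cexp (lgu (z + 1) - lgu z) = 1 + z⁻¹ := by
    rw [Complex.exp_sub, h1.1, h2.1]
    field_simp
  have him : (lgu (z + 1) - lgu z).im = (lgu (z + 1)).im - (lgu z).im := Complex.sub_im _ _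
  have h3 := abs_le.1 h1.2.2.2.1
  have h4 := abs_le.1 h2.2.2.2.1
  have hpi := Real.pi_gt_three
  have hlog : lgu (z + 1) - lgu z = Complex.log (1 + z⁻¹) := by
    rw [← hexp, Complex.log_exp]
    · rw [him]
      linarith [h3.1, h3.2, h4.1, h4.2]
    · rw [him]
      linarith [h3.1, h3.2, h4.1, h4.2]
  have hzi1 : ‖z⁻¹‖ ≤ 1 / 2 := hzi.trans (by
    rw [div_le_iff₀ hX0]
    linarith)
  have h5 := Complex.norm_log_one_add_sub_self_le (z := z⁻¹) (by linarith)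
  rw [hlog]
  refine h5.trans ?_
  have h6 : (1 - ‖z⁻¹‖)⁻¹ ≤ 2 := by
    rw [inv_le_comm₀ (by linarith) (by norm_num)]
    linarith
  have h7 : ‖z⁻¹‖ ^ 2 ≤ (2 / X) ^ 2 := by gcongr
  have h8 : (4 : ℝ) / X ^ 2 = (2 / X) ^ 2 * 2 / 2 := by
    field_simp
    ring
  rw [h8]
  have h9 : 0 ≤ (1 - ‖z⁻¹‖)⁻¹ := inv_nonneg.2 (by linarith)
  gcongr

variable {Y : Sys} {h R C0 : ℝ} {v : ℂ → ℝ} {G L : ℂ × ℂ → ℂ} {η lam a A rf re k x0 : ℝ}

/-- the constants -/
private theorem cst_bd (hc : Cst A lam a) : 0 < A ∧ 10 ^ 7 / A ^ 2 ≤ 1 / 10 ^ 13 := by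
  have hA := hc.hA
  have hA0 : 0 < A := by linarith
  refine ⟨hA0, ?_⟩
  rw [div_le_div_iff₀ (by positivity) (by positivity)]
  nlinarith

/-- the zone near the negative axis -/
private theorem zone_cast {z : ℂ} (hz : ‖z + A * k‖ < A * k / 25600) :
    ‖z + ((A * k : ℝ) : ℂ)‖ ≤ A * k / 25600 := by
  push_cast
  exact hz.le

/-- the quotient `lbl / (ρ z)` -/
private theorem lbl_quot (hB : Base Y h R C0 v G L) (hc : Cst A lam a) (hk : 2 ≤ k)
    (hη : η ≤ 1 / 4) (hη0 : 0 ≤ η) (H : Hyp Y h R v η lam a rf re k x0) {ρ z : ℂ}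
    (hρ : Dir lam rf re ρ) (hz : ‖z + A * k‖ < A * k / 25600) :
    ρ ≠ 0 ∧ z ≠ 0 ∧ ((x0:ℂ) + (h:ℂ) * I + ρ * z, ρ) ∈ DKU v h R ∧
      ∃ u : ℂ, ‖u‖ ≤ 10 ^ 7 / A ^ 2 ∧ lbl L x0 h (z, ρ) / (ρ * z) = 1 + u := by
  obtain ⟨hA0, hA1⟩ := cst_bd hc
  have hX : 0 < A * k := by positivity
  have hρ0 : ρ ≠ 0 := by
    rintro rfl
    have := hρ.im
    simp at this
  have hz0 : z ≠ 0 := by
    rintro rfl
    rw [zero_add, norm_mul, Complex.norm_real, Complex.norm_real, Real.norm_of_nonneg hA0.le,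
      Real.norm_of_nonneg (by linarith)] at hz
    linarith
  obtain ⟨h1, h2⟩ := lab_est hB hc hk hη hη0 H hρ hz.le
  refine ⟨hρ0, hz0, h1, lbl L x0 h (z, ρ) / (ρ * z) - 1, ?_, by ring⟩
  have hn : 0 < ‖ρ * z‖ := norm_pos_iff.2 (mul_ne_zero hρ0 hz0)
  have h3 : lbl L x0 h (z, ρ) / (ρ * z) - 1 =
      (L ((x0:ℂ) + (h:ℂ) * I + ρ * z, ρ) - ((x0:ℂ) + (h:ℂ) * I) - ρ * z) / (ρ * z) := by
    unfold lbl
    field_simp
  rw [h3, norm_div, div_le_iff₀ hn]
  exact h2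

/-- Proof. `lab_est`: `lbl = ρ z (1 + u)`, `‖u‖ ≤ 10 ^ 7 / A ^ 2 ≤ 1 / 2`, `‖log (1 + u)‖ ≤ 2 ‖u‖`;
`exp (sg) = ρ z (1 + u) = lbl`. Analytic: `lbl` is analytic at `(z, ρ)` (`hB.an` and composition), the
arguments of the logarithms are in the slit plane (`Im ρ > 0`; `lbl / (ρ z)` near `1`). -/
theorem sg_exp (hB : Base Y h R C0 v G L) (hc : Cst A lam a) (hk : 2 ≤ k) (hη : η ≤ 1 / 4)
    (hη0 : 0 ≤ η) (H : Hyp Y h R v η lam a rf re k x0) {ρ z : ℂ} (hρ : Dir lam rf re ρ)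
    (hz : ‖z + A * k‖ < A * k / 25600) :
    cexp (sg L x0 h (z, ρ)) = lbl L x0 h (z, ρ) ∧ ‖psi L x0 h (z, ρ)‖ ≤ 2 * 10 ^ 7 / A ^ 2 ∧
      AnalyticAt ℂ (sg L x0 h) (z, ρ) ∧ AnalyticAt ℂ (psi L x0 h) (z, ρ) := by
  obtain ⟨hA0, hA1⟩ := cst_bd hc
  have hX : 0 < A * k := by positivity
  obtain ⟨hρ0, hz0, hmem, u, hu, hq⟩ := lbl_quot hB hc hk hη hη0 H hρ hz
  have hl := lgu_near hX (zone_cast hz)
  have hu1 : 0 < (1 + u).re := by
    have h1 := (abs_le.1 ((Complex.abs_re_le_norm u).trans hu)).1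
    rw [Complex.add_re, Complex.one_re]
    linarith
  have hu0 : (1 + u) ≠ 0 := by
    intro h
    rw [h] at hu1
    simp at hu1
  have hpsi : psi L x0 h (z, ρ) = Complex.log (1 + u) := by
    unfold psi
    rw [hq]
  have hanL : AnalyticAt ℂ (lbl L x0 h) (z, ρ) := by
    have h1 : AnalyticAt ℂ (fun p : ℂ × ℂ => ((x0:ℂ) + (h:ℂ) * I + p.2 * p.1, p.2)) (z, ρ) :=
      (analyticAt_const.add (analyticAt_snd.mul analyticAt_fst)).prod analyticAt_snd
    exact (AnalyticAt.fun_comp (g := L) (x := (z, ρ))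
      (f := fun p : ℂ × ℂ => ((x0:ℂ) + (h:ℂ) * I + p.2 * p.1, p.2)) (hB.an _ hmem) h1).sub
      analyticAt_const
  have hanP : AnalyticAt ℂ (psi L x0 h) (z, ρ) := by
    refine (hanL.div (analyticAt_snd.mul analyticAt_fst) (mul_ne_zero hρ0 hz0)).clog ?_
    change lbl L x0 h (z, ρ) / (ρ * z) ∈ slitPlane
    rw [hq]
    exact Or.inl hu1
  refine ⟨?_, ?_, ?_, hanP⟩
  · unfold sg
    rw [Complex.exp_add, Complex.exp_add, Complex.exp_log hρ0, hl.1, hpsi,
      Complex.exp_log hu0, ← hq]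
    field_simp
  · rw [hpsi]
    have h1 := log_one_add_small hu (by linarith)
    have h2 : (2 : ℝ) * 10 ^ 7 / A ^ 2 = 10 ^ 7 / A ^ 2 * 2 := by ring
    rw [h2]
    refine h1.trans ?_
    have h3 : 0 ≤ 10 ^ 7 / A ^ 2 := by positivity
    gcongr
    linarith
  · have h1 : AnalyticAt ℂ (fun p : ℂ × ℂ => Complex.log p.2) (z, ρ) :=
      analyticAt_snd.clog (Or.inr hρ.im.ne')
    have h2 : AnalyticAt ℂ (fun p : ℂ × ℂ => lgu p.1) (z, ρ) :=
      AnalyticAt.fun_comp (g := lgu) (f := fun p : ℂ × ℂ => p.1) hl.2.2.1 analyticAt_fst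
    exact (h1.add h2).add hanP

/-- THE LABELS ARE IN THE BOX.

Proof. `Re sg = log ‖ρ‖ + Re (lgu z) + Re psi ∈ (log rf + log X - 1, log (lam re) + log X + 1)`,
`Dl = A + 1000`. `Im sg = arg ρ + Im (lgu z) + Im psi`, `|Im (lgu z) + π| ≤ 1/20000`, `‖psi‖ ≤ 10 ^ (-12)`,
`arg ρ ∈ (1/6400, π - 1/6400)`, `1/6400 - 1/20000 - 10 ^ (-12) > 1/12800 = aa`. -/
theorem sg_mem (hB : Base Y h R C0 v G L) (hc : Cst A lam a) (hk : 2 ≤ k) (hη : η ≤ 1 / 4)
    (hη0 : 0 ≤ η) (H : Hyp Y h R v η lam a rf re k x0) {ρ z : ℂ} (hρ : Dir lam rf re ρ)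
    (hz : ‖z + A * k‖ < A * k / 25600) :
    sg L x0 h (z, ρ) ∈ Bx (sL A k rf) (sR A k lam re) := by
  obtain ⟨hA0, hA1⟩ := cst_bd hc
  have hA := hc.hA
  have hX : 0 < A * k := by positivity
  obtain ⟨-, hpsi, -, -⟩ := sg_exp hB hc hk hη hη0 H hρ hz
  obtain ⟨-, -, -, him, hre⟩ := lgu_near hX (zone_cast hz)
  have hp1 : ‖psi L x0 h (z, ρ)‖ ≤ 1 / 10 ^ 6 := by
    refine hpsi.trans ?_
    have h2 : (2 : ℝ) * 10 ^ 7 / A ^ 2 = 2 * (10 ^ 7 / A ^ 2) := by ring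
    rw [h2]
    linarith
  have hpr := abs_le.1 ((Complex.abs_re_le_norm _).trans hp1)
  have hpi := abs_le.1 ((Complex.abs_im_le_norm _).trans hp1)
  rw [abs_le] at him hre
  have hrf := H.rf0
  have hρn : 0 < ‖ρ‖ := hrf.trans hρ.r1
  have hlr : 0 < lam * re := hρn.trans hρ.r2
  have hl1 : Real.log rf < Real.log ‖ρ‖ := Real.log_lt_log hrf hρ.r1
  have hl2 : Real.log ‖ρ‖ < Real.log (lam * re) := Real.log_lt_log hρn hρ.r2
  have hsre : (sg L x0 h (z, ρ)).re = Real.log ‖ρ‖ + (lgu z).re + (psi L x0 h (z, ρ)).re := by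
    unfold sg
    rw [Complex.add_re, Complex.add_re, Complex.log_re]
  have hsim : (sg L x0 h (z, ρ)).im = arg ρ + (lgu z).im + (psi L x0 h (z, ρ)).im := by
    unfold sg
    rw [Complex.add_im, Complex.add_im, Complex.log_im]
  have ha1 := hρ.a1
  have ha2 := hρ.a2
  unfold ph2 at ha1 ha2
  refine ⟨?_, ?_, ?_, ?_⟩
  · rw [hsre, sL, Real.log_mul hX.ne' hrf.ne']
    linarith
  · rw [hsre, sR, Real.log_mul hX.ne' hlr.ne']
    linarith
  · rw [hsim, aa]
    linarith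
  · rw [hsim, aa]
    linarith

/-- the label has derivative different from zero in `z` (in the smaller zone).

Proof. `σ' = 1 / z + ψ'`, `‖ψ'‖ ≤ 2 · 10 ^ 7 / A² · 51200 / X` (Cauchy's estimate, radius `X / 51200`)
`< 1 / (2 ‖z‖)`. -/
theorem sg_deriv (hB : Base Y h R C0 v G L) (hc : Cst A lam a) (hk : 2 ≤ k) (hη : η ≤ 1 / 4)
    (hη0 : 0 ≤ η) (H : Hyp Y h R v η lam a rf re k x0) {ρ z : ℂ} (hρ : Dir lam rf re ρ)
    (hz : ‖z + A * k‖ < A * k / 51200) :
    ‖deriv (fun z => sg L x0 h (z, ρ)) z - z⁻¹‖ ≤ 2 * 10 ^ 12 / (A ^ 2 * (A * k)) ∧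
      deriv (fun z => sg L x0 h (z, ρ)) z ≠ 0 := by
  obtain ⟨hA0, hA1⟩ := cst_bd hc
  have hA := hc.hA
  have hX : 0 < A * k := by positivity
  have hz' : ‖z + A * k‖ < A * k / 25600 := by linarith
  have hbig : ∀ w ∈ closedBall z (A * k / 51200), ‖w + A * k‖ < A * k / 25600 := by
    intro w hw
    rw [mem_closedBall, dist_eq_norm] at hw
    calc ‖w + A * k‖ = ‖(w - z) + (z + A * k)‖ := by ring_nf
      _ ≤ ‖w - z‖ + ‖z + A * k‖ := norm_add_le _ _
      _ < A * k / 25600 := by linarith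
  have han : ∀ w ∈ closedBall z (A * k / 51200),
      AnalyticAt ℂ (fun z => psi L x0 h (z, ρ)) w := fun w hw =>
    AnalyticAt.fun_comp (g := psi L x0 h) (x := w) (f := fun z : ℂ => (z, ρ))
      (sg_exp hB hc hk hη hη0 H hρ (hbig w hw)).2.2.2 (analyticAt_id.prod analyticAt_const)
  have hr : 0 < A * k / 51200 := by positivity
  have hd : DiffContOnCl ℂ (fun z => psi L x0 h (z, ρ)) (ball z (A * k / 51200)) := by
    refine DifferentiableOn.diffContOnCl ?_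
    rw [closure_ball z hr.ne']
    exact fun w hw => (han w hw).differentiableAt.differentiableWithinAt
  have hC := Complex.norm_deriv_le_of_forall_mem_sphere_norm_le hr hd
    (C := 2 * 10 ^ 7 / A ^ 2) (fun w hw =>
      (sg_exp hB hc hk hη hη0 H hρ (hbig w (sphere_subset_closedBall hw))).2.1)
  have hdz : HasDerivAt (fun z => sg L x0 h (z, ρ))
      (z⁻¹ + deriv (fun z => psi L x0 h (z, ρ)) z) z := by
    have h1 := (lgu_near hX (zone_cast hz')).2.1
    have h2 := (han z (mem_closedBall_self hr.le)).differentiableAt.hasDerivAt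
    exact (h1.const_add (Complex.log ρ)).add h2
  have hle : 2 * 10 ^ 7 / A ^ 2 / (A * k / 51200) ≤ 2 * 10 ^ 12 / (A ^ 2 * (A * k)) := by
    rw [div_div, div_le_div_iff₀ (by positivity) (by positivity)]
    have h1 : 0 < A ^ 2 * (A * k) := by positivity
    nlinarith
  have hfin : ‖deriv (fun z => sg L x0 h (z, ρ)) z - z⁻¹‖ ≤ 2 * 10 ^ 12 / (A ^ 2 * (A * k)) := by
    rw [hdz.deriv, add_sub_cancel_left]
    exact hC.trans hle
  refine ⟨hfin, fun h0 => ?_⟩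
  rw [h0, zero_sub, norm_neg, norm_inv] at hfin
  have hzn : ‖z‖ ≤ 2 * (A * k) := by
    have h1 : ‖z‖ ≤ ‖z + A * k‖ + ‖((A * k : ℝ) : ℂ)‖ := by
      have := norm_sub_le (z + A * k) ((A * k : ℝ) : ℂ)
      rwa [show z + A * k - ((A * k : ℝ) : ℂ) = z by push_cast; ring] at this
    rw [Complex.norm_real, Real.norm_of_nonneg hX.le] at h1
    linarith
  obtain ⟨-, hz0, -, -⟩ := lbl_quot hB hc hk hη hη0 H hρ hz'
  have hzn0 : 0 < ‖z‖ := norm_pos_iff.2 hz0
  have h1 : (2 * (A * k))⁻¹ ≤ ‖z‖⁻¹ := inv_anti₀ hzn0 hzn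
  have h2 := h1.trans hfin
  rw [inv_eq_one_div, div_le_div_iff₀ (by positivity) (by positivity)] at h2
  have h3 : 10 ^ 20 ≤ A ^ 2 := by nlinarith
  nlinarith

/-- the change of coordinates `(z, ρ) ↦ (b + ρ z, ρ)` transports `EqM` at points with `ρ ≠ 0` (it is a
local homeomorphism which is analytic, with the inverse `(t, ρ) ↦ ((t - b) / ρ, ρ)`; a denominator
is transported to a denominator) -/
theorem EqM.ray {f g : ℂ × ℂ → ℂ} {b z ρ : ℂ} (hρ : ρ ≠ 0) (h : EqM f g (b + ρ * z, ρ)) :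
    EqM (fun p => f (b + p.2 * p.1, p.2)) (fun p => g (b + p.2 * p.1, p.2)) (z, ρ) := by
  obtain ⟨B, hB, h⟩ := h
  have h1 : AnalyticAt ℂ (fun p : ℂ × ℂ => (b + p.2 * p.1, p.2)) (z, ρ) :=
    (analyticAt_const.add (analyticAt_snd.mul analyticAt_fst)).prod analyticAt_snd
  refine ⟨fun p => B (b + p.2 * p.1, p.2), ⟨?_, fun h0 => hB.ne ?_⟩, ?_⟩
  · exact AnalyticAt.fun_comp (g := B) (x := (z, ρ))
      (f := fun p : ℂ × ℂ => (b + p.2 * p.1, p.2)) hB.an h1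
  · have h2 : ContinuousAt (fun q : ℂ × ℂ => ((q.1 - b) / q.2, q.2)) (b + ρ * z, ρ) :=
      ((continuousAt_fst.sub continuousAt_const).div continuousAt_snd hρ).prodMk
        continuousAt_snd
    have h3 : Tendsto (fun q : ℂ × ℂ => ((q.1 - b) / q.2, q.2)) (𝓝 (b + ρ * z, ρ))
        (𝓝 (z, ρ)) := by
      have h4 := h2.tendsto
      simp only at h4
      rwa [show (b + ρ * z - b) / ρ = z by field_simp; ring] at h4
    have h5 : ∀ᶠ q : ℂ × ℂ in 𝓝 (b + ρ * z, ρ), q.2 ≠ 0 :=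
      continuousAt_snd.eventually_ne hρ
    filter_upwards [h3.eventually h0, h5] with q hq hq0
    have h6 : b + q.2 * ((q.1 - b) / q.2) = q.1 := by
      field_simp
      ring
    simpa [h6] using hq
  · exact h1.continuousAt.eventually h

/-- the directions form an open set -/
private theorem dir_eventually {lam rf re : ℝ} {ρ : ℂ} (hρ : Dir lam rf re ρ) :
    ∀ᶠ ρ' in 𝓝 ρ, Dir lam rf re ρ' := by
  have hn : ContinuousAt (fun w : ℂ => ‖w‖) ρ := continuous_norm.continuousAt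
  have hi : ContinuousAt (fun w : ℂ => w.im) ρ := Complex.continuous_im.continuousAt
  have ha : ContinuousAt arg ρ := Complex.continuousAt_arg (Or.inr hρ.im.ne')
  filter_upwards [hn.eventually_const_lt hρ.r1, hn.eventually_lt_const hρ.r2,
    hi.eventually_const_lt hρ.im, ha.eventually_const_lt hρ.a1,
    ha.eventually_lt_const hρ.a2] with w h1 h2 h3 h4 h5
  exact ⟨h1, h2, h3, h4, h5⟩

/-- the points of the zone, for all directions near a given one -/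
private theorem zone_eventually {lam rf re : ℝ} {ρ z : ℂ} (hρ : Dir lam rf re ρ) {r : ℝ}
    (hz : ‖z + A * k‖ < r) :
    ∀ᶠ p : ℂ × ℂ in 𝓝 (z, ρ), Dir lam rf re p.2 ∧ ‖p.1 + A * k‖ < r := by
  have h1 := (continuous_snd.tendsto (z, ρ)).eventually (dir_eventually hρ)
  have h2 : ContinuousAt (fun p : ℂ × ℂ => ‖p.1 + A * k‖) (z, ρ) := by fun_prop
  exact h1.and (h2.eventually_lt_const hz)

/-- THE FUNCTION `G` IN THE START ZONE.

Proof. `hB.eqG` at the point `(b + ρ z, ρ)` of the label domain and `EqM.ray`: off the zeros of a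
denominator `B`, `Gz p = y2 (L) / y1 (L)` for `p` near `(z, ρ)`. The function `p ↦ y1 (b + lbl p)` is
analytic at `(z, ρ)` and is not locally zero: otherwise `y1 = 0` on the image of
`z ↦ b + lbl (z, ρ)`, an open set since the derivative is `exp (sg) sg' ≠ 0` (`sg_deriv`), so
`y1' = 0` there, contradiction to the Wronskian. So `D = B · y1 (b + lbl)` is a denominator. Off its
zeros: `m.at (Gz p) = (β (y2/y1) + α) / (β' (y2/y1) + α') = wc / wc' = exp (Gc (sg p))` at `σ = sg p`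
(`wc_div`, `Sol.hF`; `b + exp (sg p) = b + lbl p = L (..)`; `sg p` is in the box for `p` near `(z, ρ)`,
since `Dir` and the zone are open conditions). -/
theorem eqM_start (hB : Base Y h R C0 v G L) (hc : Cst A lam a) (hk : 2 ≤ k) (hη : η ≤ 1 / 4)
    (hη0 : 0 ≤ η) (H : Hyp Y h R v η lam a rf re k x0) {ρ z : ℂ} (hρ : Dir lam rf re ρ)
    (hz : ‖z + A * k‖ < A * k / 51200) {ν η' : ℝ} {α β α' β' : ℂ} {Gc n g : ℂ → ℂ}
    (hS : Sol Y ((x0:ℂ) + (h:ℂ) * I) ν η' (sL A k rf) (sR A k lam re) α β α' β' Gc n g)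
    {m : Mob} (ma : m.a = β) (mb : m.b = α) (mc : m.c = β') (md : m.d = α') :
    EqM (Fz G x0 h m) (fun p => cexp (Gc (sg L x0 h p))) (z, ρ) := by
  obtain ⟨hA0, hA1⟩ := cst_bd hc
  have hX : 0 < A * k := by positivity
  have hz' : ‖z + A * k‖ < A * k / 25600 := by linarith
  obtain ⟨hρ0, hz0, hmem, -⟩ := lbl_quot hB hc hk hη hη0 H hρ hz'
  set b : ℂ := (x0:ℂ) + (h:ℂ) * I with hb
  have hev := zone_eventually (A := A) (k := k) hρ hz'
  have hlbl : ∀ p : ℂ × ℂ, b + lbl L x0 h p = L (b + p.2 * p.1, p.2) := by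
    intro p
    unfold lbl
    rw [← hb]
    ring
  -- first step
  have h1 : EqM (Fz G x0 h m) (fun p : ℂ × ℂ => m.at (Y.y2 (L (b + p.2 * p.1, p.2)) /
      Y.y1 (L (b + p.2 * p.1, p.2)))) (z, ρ) :=
    (EqM.ray hρ0 (hB.eqG _ hmem)).map m.at
  refine h1.trans ?_
  -- the denominator
  have hLm := hB.maps _ hmem
  have hexp := (sg_exp hB hc hk hη hη0 H hρ hz').1
  have hanL : AnalyticAt ℂ (fun p : ℂ × ℂ => L (b + p.2 * p.1, p.2)) (z, ρ) :=
    AnalyticAt.fun_comp (g := L) (x := (z, ρ))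
      (f := fun p : ℂ × ℂ => (b + p.2 * p.1, p.2)) (hB.an _ hmem)
      ((analyticAt_const.add (analyticAt_snd.mul analyticAt_fst)).prod analyticAt_snd)
  have hD : Den (fun p : ℂ × ℂ => Y.y1 (L (b + p.2 * p.1, p.2))) (z, ρ) := by
    refine ⟨AnalyticAt.fun_comp (g := Y.y1) (x := (z, ρ))
      (f := fun p : ℂ × ℂ => L (b + p.2 * p.1, p.2))
      (Sys.an_y1 hB.on (Pool.Agent.MP_ae5b4e_an_NBT.isOpen_St _ _) _ hLm) hanL, fun h0 => ?_⟩
    have hsl : Tendsto (fun w : ℂ => (w, ρ)) (𝓝 z) (𝓝 (z, ρ)) :=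
      (Continuous.prodMk_left ρ).tendsto z
    have h2 : ∀ᶠ w in 𝓝 z, Y.y1 (b + cexp (sg L x0 h (w, ρ))) = 0 := by
      filter_upwards [hsl.eventually h0, hsl.eventually hev] with w hw hw'
      rw [(sg_exp hB hc hk hη hη0 H hw'.1 hw'.2).1, hlbl]
      exact hw
    have hsd : HasDerivAt (fun w => sg L x0 h (w, ρ)) (deriv (fun w => sg L x0 h (w, ρ)) z) z :=
      (AnalyticAt.fun_comp (g := sg L x0 h) (x := z) (f := fun w : ℂ => (w, ρ))
        (sg_exp hB hc hk hη hη0 H hρ hz').2.2.1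
        (analyticAt_id.prod analyticAt_const)).differentiableAt.hasDerivAt
    have hLz : b + cexp (sg L x0 h (z, ρ)) = L (b + ρ * z, ρ) := by
      rw [hexp, hlbl]
    have h3 : HasDerivAt (fun w => b + cexp (sg L x0 h (w, ρ)))
        (cexp (sg L x0 h (z, ρ)) * deriv (fun w => sg L x0 h (w, ρ)) z) z :=
      hsd.cexp.const_add b
    have h4 : HasDerivAt Y.y1 (Y.y1' (L (b + ρ * z, ρ))) (b + cexp (sg L x0 h (z, ρ))) := by
      rw [hLz]
      exact hB.on.d1 _ hLm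
    have h5 := h4.comp z h3
    have h6 : HasDerivAt (Y.y1 ∘ fun w => b + cexp (sg L x0 h (w, ρ))) 0 z :=
      (hasDerivAt_const z (0 : ℂ)).congr_of_eventuallyEq h2
    have h7 := h5.unique h6
    have h8 : Y.y1' (L (b + ρ * z, ρ)) = 0 :=
      (mul_eq_zero.1 h7).resolve_right
        (mul_ne_zero (Complex.exp_ne_zero _) (sg_deriv hB hc hk hη hη0 H hρ hz).2)
    have h9 : Y.y1 (L (b + ρ * z, ρ)) = 0 := h0.self_of_nhds
    have h10 := hB.on.wr _ hLm
    rw [h8, h9] at h10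
    simp at h10
  refine ⟨_, hD, ?_⟩
  filter_upwards [hev] with p hp hp0
  have h2 := sg_mem hB hc hk hη hη0 H hp.1 hp.2
  have h3 : b + cexp (sg L x0 h p) = L (b + p.2 * p.1, p.2) := by
    rw [(sg_exp hB hc hk hη hη0 H hp.1 hp.2).1, hlbl]
  have h4 := hS.hF _ h2
  change _ = cexp (Gc (sg L x0 h p))
  rw [h4, wc_div (by rw [h3]; exact hp0), h3, Mob.at, ma, mb, mc, md]

end Pool.Agent.MP_ae5b4e_an_N4
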