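import Pool.Agent.Lib.MP_ae5b4e_an_N4.Itf

/-!
# MP_ae5b4e_an, N4, part S: the linear equation in the coordinate `σ = log (l - b)`
-/

set_option autoImplicit false

noncomputable section

namespace Pool.Agent.MP_ae5b4e_an_N4

open Complex Set Filter Topology Metric
open Pool.Agent.MP_ae5b4e_an_NB2 (Sys)

/-- ENERGY ESTIMATE (replaces the trapping argument for the Riccati equation).

Proof. Put `A = w1 - m w`, `e = p - p0`, and along the segment `σ (s) = p0 + s e`, `0 ≤ s ≤ 1`: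
`dA/ds = e ((V - m²) w - m A)`, `dw/ds = e (m w + A)`. Let `E (s) = ‖A‖² - r² ‖w‖²`. Then
`dE/ds = 2 Re (conj A dA/ds) - 2 r² Re (conj w dw/ds)
≤ 2 ‖e‖ (e0 + r²) ‖A‖ ‖w‖ - 2 Re (m e) (‖A‖² + r² ‖w‖²)
≤ 2 ‖e‖ (e0 + r²) ‖A‖ ‖w‖ - 4 r Re (m e) ‖A‖ ‖w‖ ≤ 0` by `hdir` (`Re (m e) ≥ 0`). So
`E (1) ≤ E (0) = - r² ‖w p0‖² < 0`: `‖A‖ < r ‖w‖` and `w ≠ 0` at `p`. (`antitoneOn_of_deriv_nonpos` or
`image_le_of_deriv_right_le_deriv_boundary`; write `E` with `normSq`.) -/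
theorem ric {B : Set ℂ} (hB : Convex ℝ B) {V w w1 : ℂ → ℂ} {m : ℂ} {e0 r : ℝ} (hr : 0 < r)
    (hw : ∀ σ ∈ B, HasDerivAt w (w1 σ) σ) (hw1 : ∀ σ ∈ B, HasDerivAt w1 (V σ * w σ) σ)
    (hV : ∀ σ ∈ B, ‖V σ - m ^ 2‖ ≤ e0) {p0 p : ℂ} (hp0 : p0 ∈ B) (hp : p ∈ B)
    (h0 : w1 p0 = m * w p0) (h0' : w p0 ≠ 0)
    (hdir : (e0 + r ^ 2) * ‖p - p0‖ ≤ 2 * r * (m * (p - p0)).re) :
    ‖w1 p - m * w p‖ ≤ r * ‖w p‖ ∧ w p ≠ 0 := by
  have he0 : 0 ≤ e0 := (norm_nonneg _).trans (hV p0 hp0)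
  obtain ⟨e, he⟩ : ∃ e : ℂ, e = p - p0 := ⟨_, rfl⟩
  rw [← he] at hdir
  have hre : 0 ≤ (m * e).re := by
    have h1 : 0 ≤ (e0 + r ^ 2) * ‖e‖ := by positivity
    have h2 : 0 ≤ 2 * r * (m * e).re := h1.trans hdir
    exact nonneg_of_mul_nonneg_right h2 (by positivity)
  have hσ : ∀ s ∈ Icc (0:ℝ) 1, p0 + (s:ℂ) * e ∈ B := by
    intro s hs
    have h1 := hB hp0 hp (sub_nonneg.2 hs.2) hs.1 (by ring)
    have h2 : (1 - s) • p0 + s • p = p0 + (s:ℂ) * e := by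
      rw [he, Complex.real_smul, Complex.real_smul]
      push_cast
      ring
    rwa [h2] at h1
  have hd0 : ∀ s : ℝ, HasDerivAt (fun s : ℝ => p0 + (s:ℂ) * e) e s := by
    intro s
    have h1 := ((hasDerivAt_id s).ofReal_comp.mul_const e).const_add p0
    simpa using h1
  obtain ⟨W, hWd⟩ : ∃ W : ℝ → ℂ, W = fun s : ℝ => w (p0 + (s:ℂ) * e) := ⟨_, rfl⟩
  obtain ⟨A, hAd⟩ : ∃ A : ℝ → ℂ, A = fun s : ℝ => w1 (p0 + (s:ℂ) * e) - m * w (p0 + (s:ℂ) * e) :=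
    ⟨_, rfl⟩
  have hW : ∀ s ∈ Icc (0:ℝ) 1, HasDerivAt W (e * (m * W s + A s)) s := by
    intro s hs
    have h1 := HasDerivAt.scomp s (hw _ (hσ s hs)) (hd0 s)
    rw [hWd, hAd]
    refine h1.congr_deriv ?_
    simp only [smul_eq_mul]
    ring
  have hA : ∀ s ∈ Icc (0:ℝ) 1, HasDerivAt A
      (e * ((V (p0 + (s:ℂ) * e) - m ^ 2) * W s - m * A s)) s := by
    intro s hs
    have h1 := HasDerivAt.scomp s (hw _ (hσ s hs)) (hd0 s)
    have h2 := HasDerivAt.scomp s (hw1 _ (hσ s hs)) (hd0 s)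
    have h3 := h2.sub (h1.const_mul m)
    rw [hWd, hAd]
    refine h3.congr_deriv ?_
    simp only [smul_eq_mul]
    ring
  have hE : ∀ s ∈ Icc (0:ℝ) 1, HasDerivAt (fun s => ‖A s‖ ^ 2 - r ^ 2 * ‖W s‖ ^ 2)
      (2 * inner ℝ (A s) (e * ((V (p0 + (s:ℂ) * e) - m ^ 2) * W s - m * A s)) -
        r ^ 2 * (2 * inner ℝ (W s) (e * (m * W s + A s)))) s := by
    intro s hs
    exact (hA s hs).norm_sq.sub ((hW s hs).norm_sq.const_mul (r ^ 2))
  have hneg : ∀ s ∈ Icc (0:ℝ) 1,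
      2 * inner ℝ (A s) (e * ((V (p0 + (s:ℂ) * e) - m ^ 2) * W s - m * A s)) -
        r ^ 2 * (2 * inner ℝ (W s) (e * (m * W s + A s))) ≤ 0 := by
    intro s hs
    obtain ⟨v, hv⟩ : ∃ v : ℂ, v = V (p0 + (s:ℂ) * e) - m ^ 2 := ⟨_, rfl⟩
    have hvn : ‖v‖ ≤ e0 := by rw [hv]; exact hV _ (hσ s hs)
    rw [← hv]
    generalize A s = a
    generalize W s = b
    have i1 : inner ℝ a (e * (v * b - m * a)) = inner ℝ a (e * (v * b)) -
        (m * e).re * ‖a‖ ^ 2 := by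
      rw [mul_sub, inner_sub_right]
      congr 1
      have h1 : e * (m * a) = (m * e) * a := by ring
      rw [h1, ← Complex.normSq_eq_norm_sq, Complex.inner]
      simp only [Complex.mul_re, Complex.conj_re, Complex.conj_im, Complex.mul_im,
        Complex.normSq_apply]
      ring
    have i2 : inner ℝ b (e * (m * b + a)) = (m * e).re * ‖b‖ ^ 2 + inner ℝ b (e * a) := by
      rw [mul_add, inner_add_right]
      congr 1
      have h1 : e * (m * b) = (m * e) * b := by ring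
      rw [h1, ← Complex.normSq_eq_norm_sq, Complex.inner]
      simp only [Complex.mul_re, Complex.conj_re, Complex.conj_im, Complex.mul_im,
        Complex.normSq_apply]
      ring
    rw [i1, i2]
    have j1 : inner ℝ a (e * (v * b)) ≤ ‖a‖ * (‖e‖ * (e0 * ‖b‖)) := by
      refine (real_inner_le_norm _ _).trans ?_
      rw [norm_mul, norm_mul]
      gcongr
    have j2 : -inner ℝ b (e * a) ≤ ‖b‖ * (‖e‖ * ‖a‖) := by
      rw [← inner_neg_right]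
      refine (real_inner_le_norm _ _).trans ?_
      rw [norm_neg, norm_mul]
    have j3 : 2 * r * (‖a‖ * ‖b‖) ≤ ‖a‖ ^ 2 + r ^ 2 * ‖b‖ ^ 2 := by
      nlinarith [sq_nonneg (‖a‖ - r * ‖b‖)]
    have j4 := mul_le_mul_of_nonneg_left j3 hre
    have j5 : ((e0 + r ^ 2) * ‖e‖) * (‖a‖ * ‖b‖) ≤ (2 * r * (m * e).re) * (‖a‖ * ‖b‖) :=
      mul_le_mul_of_nonneg_right hdir (by positivity)
    have j6 := mul_le_mul_of_nonneg_left j2 (sq_nonneg r)
    nlinarith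
  have hcont : ContinuousOn (fun s => ‖A s‖ ^ 2 - r ^ 2 * ‖W s‖ ^ 2) (Icc (0:ℝ) 1) :=
    fun s hs => (hE s hs).continuousAt.continuousWithinAt
  have hanti := antitoneOn_of_hasDerivWithinAt_nonpos (convex_Icc (0:ℝ) 1) hcont
    (fun s hs => (hE s (interior_subset hs)).hasDerivWithinAt)
    (fun s hs => hneg s (interior_subset hs))
  have h01 := hanti (left_mem_Icc.2 zero_le_one) (right_mem_Icc.2 zero_le_one) zero_le_one
  have a0 : A 0 = 0 := by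
    rw [hAd]
    simp only [Complex.ofReal_zero, zero_mul, add_zero]
    rw [h0, sub_self]
  have w0 : W 0 = w p0 := by
    rw [hWd]
    simp only [Complex.ofReal_zero, zero_mul, add_zero]
  have hp1 : p0 + ((1:ℝ):ℂ) * e = p := by
    rw [he, Complex.ofReal_one]
    ring
  have a1 : A 1 = w1 p - m * w p := by
    rw [hAd]
    simp only [hp1]
  have w1' : W 1 = w p := by
    rw [hWd]
    simp only [hp1]
  simp only [a0, w0, a1, w1', norm_zero] at h01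
  have hpos : 0 < ‖w p0‖ := norm_pos_iff.2 h0'
  have h5 : ‖w1 p - m * w p‖ ^ 2 < (r * ‖w p‖) ^ 2 := by
    have h6 : 0 < r ^ 2 * ‖w p0‖ ^ 2 := by positivity
    rw [mul_pow]
    nlinarith
  have h7 : ‖w1 p - m * w p‖ < r * ‖w p‖ :=
    lt_of_pow_lt_pow_left₀ 2 (by positivity) h5
  refine ⟨h7.le, fun h => ?_⟩
  have h8 := norm_nonneg (w1 p - m * w p)
  have h9 : r * ‖w p‖ = 0 := by rw [h, norm_zero, mul_zero]
  linarith

/-- the potential in the coordinate `σ = log (l - b)` -/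
def Vc (Y : Sys) (b σ : ℂ) : ℂ := 1 / 4 - cexp (2 * σ) * Y.Q (b + cexp σ)

/-- the solution `α y1 + β y2` in the coordinate `σ`, times `exp (-σ / 2)` -/
def wc (Y : Sys) (b α β σ : ℂ) : ℂ :=
  cexp (-(σ / 2)) * (α * Y.y1 (b + cexp σ) + β * Y.y2 (b + cexp σ))

/-- its derivative -/
def wc1 (Y : Sys) (b α β σ : ℂ) : ℂ :=
  -(1 / 2) * wc Y b α β σ + cexp (σ / 2) * (α * Y.y1' (b + cexp σ) + β * Y.y2' (b + cexp σ))

theorem hasDerivAt_wc {Y : Sys} {S : Set ℂ} (hY : Y.On S) {b α β σ : ℂ} (h : b + cexp σ ∈ S) :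
    HasDerivAt (wc Y b α β) (wc1 Y b α β σ) σ := by
  have h1 : HasDerivAt (fun σ : ℂ => b + cexp σ) (cexp σ) σ :=
    (Complex.hasDerivAt_exp σ).const_add b
  have h2 := (hY.d1 _ h).comp σ h1
  have h3 := (hY.d2 _ h).comp σ h1
  have h4 : HasDerivAt (fun σ : ℂ => cexp (-(σ / 2))) (cexp (-(σ / 2)) * -(1 / 2)) σ :=
    (((hasDerivAt_id σ).div_const 2).neg).cexp
  have h5 := h4.mul ((h2.const_mul α).add (h3.const_mul β))
  refine h5.congr_deriv ?_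
  have h6 : cexp (-(σ / 2)) * cexp σ = cexp (σ / 2) := by
    rw [← Complex.exp_add]
    congr 1
    ring
  unfold wc1 wc
  simp only [Function.comp_apply, Pi.add_apply]
  rw [← h6]
  ring

theorem hasDerivAt_wc1 {Y : Sys} {S : Set ℂ} (hY : Y.On S) {b α β σ : ℂ} (h : b + cexp σ ∈ S) :
    HasDerivAt (wc1 Y b α β) (Vc Y b σ * wc Y b α β σ) σ := by
  have h1 : HasDerivAt (fun σ : ℂ => b + cexp σ) (cexp σ) σ :=
    (Complex.hasDerivAt_exp σ).const_add b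
  have h2 := (hY.d1' _ h).comp σ h1
  have h3 := (hY.d2' _ h).comp σ h1
  have h4 : HasDerivAt (fun σ : ℂ => cexp (σ / 2)) (cexp (σ / 2) * (1 / 2)) σ :=
    ((hasDerivAt_id σ).div_const 2).cexp
  have h5 := ((hasDerivAt_wc hY (α := α) (β := β) h).const_mul (-(1 / 2))).add
    (h4.mul ((h2.const_mul α).add (h3.const_mul β)))
  refine h5.congr_deriv ?_
  have h6 : cexp (2 * σ) * cexp (-(σ / 2)) = cexp (σ / 2) * cexp σ := by
    rw [← Complex.exp_add, ← Complex.exp_add]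
    congr 1
    ring
  unfold wc1 Vc wc
  simp only [Function.comp_apply, Pi.add_apply]
  linear_combination (α * Y.y1 (b + cexp σ) + β * Y.y2 (b + cexp σ)) * Y.Q (b + cexp σ) * h6

/-- the Wronskian of two solutions -/
theorem wc_wr {Y : Sys} {S : Set ℂ} (hY : Y.On S) {b α β α' β' σ : ℂ} (h : b + cexp σ ∈ S) :
    wc1 Y b α β σ * wc Y b α' β' σ - wc Y b α β σ * wc1 Y b α' β' σ = β * α' - α * β' := by
  have h1 := hY.wr _ h
  have h2 : cexp (σ / 2) * cexp (-(σ / 2)) = 1 := by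
    rw [← Complex.exp_add, add_neg_cancel, Complex.exp_zero]
  unfold wc1 wc
  linear_combination ((β * α' - α * β') * (Y.y1 (b + cexp σ) * Y.y2' (b + cexp σ) -
    Y.y1' (b + cexp σ) * Y.y2 (b + cexp σ))) * h2 + (β * α' - α * β') * h1

/-- initial values can be prescribed (the matrix of `(y1, y2; y1', y2')` is invertible) -/
theorem exists_wc {Y : Sys} {S : Set ℂ} (hY : Y.On S) {b σ : ℂ} (h : b + cexp σ ∈ S) (u u' : ℂ) :
    ∃ α β : ℂ, wc Y b α β σ = u ∧ wc1 Y b α β σ = u' := by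
  have h1 := hY.wr _ h
  have h2 : cexp (σ / 2) * cexp (-(σ / 2)) = 1 := by
    rw [← Complex.exp_add, add_neg_cancel, Complex.exp_zero]
  refine ⟨cexp (σ / 2) * u * Y.y2' (b + cexp σ) -
      cexp (-(σ / 2)) * (u' + u / 2) * Y.y2 (b + cexp σ),
    cexp (-(σ / 2)) * (u' + u / 2) * Y.y1 (b + cexp σ) -
      cexp (σ / 2) * u * Y.y1' (b + cexp σ), ?_⟩
  have h3 : wc Y b (cexp (σ / 2) * u * Y.y2' (b + cexp σ) -
      cexp (-(σ / 2)) * (u' + u / 2) * Y.y2 (b + cexp σ))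
      (cexp (-(σ / 2)) * (u' + u / 2) * Y.y1 (b + cexp σ) -
      cexp (σ / 2) * u * Y.y1' (b + cexp σ)) σ = u := by
    unfold wc
    linear_combination (u * (Y.y1 (b + cexp σ) * Y.y2' (b + cexp σ) -
      Y.y1' (b + cexp σ) * Y.y2 (b + cexp σ))) * h2 + u * h1
  refine ⟨h3, ?_⟩
  unfold wc1
  rw [h3]
  linear_combination ((u' + u / 2) * (Y.y1 (b + cexp σ) * Y.y2' (b + cexp σ) -
      Y.y1' (b + cexp σ) * Y.y2 (b + cexp σ))) * h2 + (u' + u / 2) * h1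

/-- the quotient of two solutions is a Moebius transformation of `y2 / y1` -/
theorem wc_div {Y : Sys} {b α β α' β' σ : ℂ} (h : Y.y1 (b + cexp σ) ≠ 0) :
    wc Y b α β σ / wc Y b α' β' σ =
      (β * (Y.y2 (b + cexp σ) / Y.y1 (b + cexp σ)) + α) /
        (β' * (Y.y2 (b + cexp σ) / Y.y1 (b + cexp σ)) + α') := by
  have h1 : β * (Y.y2 (b + cexp σ) / Y.y1 (b + cexp σ)) + α =
      (α * Y.y1 (b + cexp σ) + β * Y.y2 (b + cexp σ)) / Y.y1 (b + cexp σ) := by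
    field_simp
    ring
  have h2 : β' * (Y.y2 (b + cexp σ) / Y.y1 (b + cexp σ)) + α' =
      (α' * Y.y1 (b + cexp σ) + β' * Y.y2 (b + cexp σ)) / Y.y1 (b + cexp σ) := by
    field_simp
    ring
  rw [h1, h2, div_div_div_cancel_right₀ h]
  unfold wc
  rw [mul_div_mul_left _ _ (Complex.exp_ne_zero _)]

/-- NODE RELATION in terms of `F = w₊ / w₋`.

Proof. Let `y₊ = α y1 + β y2`, `y₋ = α' y1 + β' y2` as functions of `l`, `c = β α' - α β' ≠ 0`,
`F = y₊ / y₋ = wc / wc'`. For `l`, `u` with `y₋ ≠ 0`: `c Y.s u l = y₋ u y₋ l (F u - F l)` and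
`c Y.c u l = y₋ u (y₊' l - F u y₋' l) = y₋ u (c / y₋ l - (F u - F l) y₋' l)` (expand everything in
`y1, y2, y1', y2'` at `l`, `u`, with `y1 y2' - y1' y2 = 1` at `l`). So
`Y.c u l / Y.s u l = c / (y₋ l ^ 2 (F u - F l)) - y₋' l / y₋ l`, and the node relation divided by
`Y.s u l * Y.s w l` (not zero) gives
`c / (y₋² (F u - F l)) + c / (y₋² (F w - F l)) = 2 y₋' / y₋` at `l`. In the coordinate `σ`:
`w₋ = exp (-σ/2) y₋`, `w₊ w₋ = exp (-σ) F y₋²`, `n = w₊'/w₊ - w₋'/w₋ = c / (w₊ w₋) = c exp σ / (F y₋²)`.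
Multiplying by `F y₋² / c = exp σ / n`: `F / (F u - F l) + F / (F w - F l) = 2 (y₋'/y₋) exp σ / n`, and
`w₋'/w₋ = - 1/2 + exp σ y₋'/y₋`, so the right side is `(1 + 2 w₋'/w₋) / n`. Finally
`- n'/n = w₊'/w₊ + w₋'/w₋` (since `n w₊ w₋ = c`) `= n + 2 w₋'/w₋`, so `(1 + 2 w₋'/w₋) / n =
(1 - n - n'/n) / n = g - 1` with `g = (1 - n'/n) / n`. Here `d = n'` is a given number with
`- d / n = w₊'/w₊ + w₋'/w₋`. -/
theorem node_F {Y : Sys} {S : Set ℂ} (hY : Y.On S) {b α β α' β' σ σu σw n d : ℂ}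
    (hl : b + cexp σ ∈ S) (hu : b + cexp σu ∈ S) (hw : b + cexp σw ∈ S)
    (hc : β * α' - α * β' ≠ 0) (h1 : wc Y b α β σ ≠ 0) (h2 : wc Y b α' β' σ ≠ 0)
    (h3 : wc Y b α' β' σu ≠ 0) (h4 : wc Y b α' β' σw ≠ 0)
    (hn : n = wc1 Y b α β σ / wc Y b α β σ - wc1 Y b α' β' σ / wc Y b α' β' σ)
    (hd : -d / n = wc1 Y b α β σ / wc Y b α β σ + wc1 Y b α' β' σ / wc Y b α' β' σ)
    (hN : Y.node (b + cexp σ) (b + cexp σu) (b + cexp σw)) {F Fu Fw : ℂ}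
    (hF : F = wc Y b α β σ / wc Y b α' β' σ) (hFu : Fu = wc Y b α β σu / wc Y b α' β' σu)
    (hFw : Fw = wc Y b α β σw / wc Y b α' β' σw) (hu' : Fu ≠ F) (hw' : Fw ≠ F) :
    F / (Fu - F) + F / (Fw - F) + 1 = (1 - d / n) / n := by
  have hwr := wc_wr (α := α) (β := β) (α' := α') (β' := β') hY hl
  obtain ⟨c0, hc0⟩ : ∃ c0 : ℂ, c0 = β * α' - α * β' := ⟨_, rfl⟩
  rw [← hc0] at hwr hc
  have hw1 := hY.wr _ hl
  have hem : cexp (σ / 2) * cexp (-(σ / 2)) = 1 := by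
    rw [← Complex.exp_add, add_neg_cancel, Complex.exp_zero]
  have e1 : cexp (-(σ / 2)) ≠ 0 := Complex.exp_ne_zero _
  -- values
  obtain ⟨P, hP⟩ : ∃ P : ℂ, P = α * Y.y1 (b + cexp σ) + β * Y.y2 (b + cexp σ) := ⟨_, rfl⟩
  obtain ⟨M, hM⟩ : ∃ M : ℂ, M = α' * Y.y1 (b + cexp σ) + β' * Y.y2 (b + cexp σ) := ⟨_, rfl⟩
  obtain ⟨P', hP'⟩ : ∃ P' : ℂ, P' = α * Y.y1' (b + cexp σ) + β * Y.y2' (b + cexp σ) := ⟨_, rfl⟩
  obtain ⟨M', hM'⟩ : ∃ M' : ℂ, M' = α' * Y.y1' (b + cexp σ) + β' * Y.y2' (b + cexp σ) := ⟨_, rfl⟩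
  obtain ⟨Pu, hPu⟩ : ∃ P : ℂ, P = α * Y.y1 (b + cexp σu) + β * Y.y2 (b + cexp σu) := ⟨_, rfl⟩
  obtain ⟨Mu, hMu⟩ : ∃ M : ℂ, M = α' * Y.y1 (b + cexp σu) + β' * Y.y2 (b + cexp σu) := ⟨_, rfl⟩
  obtain ⟨Pw, hPw⟩ : ∃ P : ℂ, P = α * Y.y1 (b + cexp σw) + β * Y.y2 (b + cexp σw) := ⟨_, rfl⟩
  obtain ⟨Mw, hMw⟩ : ∃ M : ℂ, M = α' * Y.y1 (b + cexp σw) + β' * Y.y2 (b + cexp σw) := ⟨_, rfl⟩
  have k1 : wc Y b α β σ = cexp (-(σ / 2)) * P := by rw [hP]; rfl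
  have k2 : wc Y b α' β' σ = cexp (-(σ / 2)) * M := by rw [hM]; rfl
  have k3 : wc1 Y b α β σ = -(1 / 2) * (cexp (-(σ / 2)) * P) + cexp (σ / 2) * P' := by
    rw [← k1, hP']
    rfl
  have k4 : wc1 Y b α' β' σ = -(1 / 2) * (cexp (-(σ / 2)) * M) + cexp (σ / 2) * M' := by
    rw [← k2, hM']
    rfl
  have hP0 : P ≠ 0 := by
    rintro h
    rw [k1, h, mul_zero] at h1
    exact h1 rfl
  have hM0 : M ≠ 0 := by
    rintro h
    rw [k2, h, mul_zero] at h2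
    exact h2 rfl
  have hMu0 : Mu ≠ 0 := by
    rintro h
    apply h3
    unfold wc
    rw [← hMu, h, mul_zero]
  have hMw0 : Mw ≠ 0 := by
    rintro h
    apply h4
    unfold wc
    rw [← hMw, h, mul_zero]
  have f1 : F = P / M := by rw [hF, k1, k2, mul_div_mul_left _ _ e1]
  have f2 : Fu = Pu / Mu := by
    rw [hFu]
    unfold wc
    rw [mul_div_mul_left _ _ (Complex.exp_ne_zero _), ← hPu, ← hMu]
  have f3 : Fw = Pw / Mw := by
    rw [hFw]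
    unfold wc
    rw [mul_div_mul_left _ _ (Complex.exp_ne_zero _), ← hPw, ← hMw]
  -- node data
  obtain ⟨su, hsu⟩ : ∃ x : ℂ, x = Y.s (b + cexp σu) (b + cexp σ) := ⟨_, rfl⟩
  obtain ⟨cu, hcu⟩ : ∃ x : ℂ, x = Y.c (b + cexp σu) (b + cexp σ) := ⟨_, rfl⟩
  obtain ⟨sw, hsw⟩ : ∃ x : ℂ, x = Y.s (b + cexp σw) (b + cexp σ) := ⟨_, rfl⟩
  obtain ⟨cw, hcw⟩ : ∃ x : ℂ, x = Y.c (b + cexp σw) (b + cexp σ) := ⟨_, rfl⟩
  have hN' : cu * sw + cw * su = 0 := by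
    rw [hcu, hsw, hcw, hsu]
    exact hN
  have g1 : c0 * su = Pu * M - P * Mu := by
    rw [hsu, hPu, hM, hP, hMu, hc0]
    unfold Sys.s
    ring
  have g2 : c0 * cu = Mu * P' - Pu * M' := by
    rw [hcu, hMu, hP', hPu, hM', hc0]
    unfold Sys.c
    ring
  have g3 : c0 * sw = Pw * M - P * Mw := by
    rw [hsw, hPw, hM, hP, hMw, hc0]
    unfold Sys.s
    ring
  have g4 : c0 * cw = Mw * P' - Pw * M' := by
    rw [hcw, hMw, hP', hPw, hM', hc0]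
    unfold Sys.c
    ring
  have g5 : P' * M - P * M' = c0 := by
    rw [hP', hM, hP, hM', hc0]
    linear_combination (β * α' - α * β') * hw1
  have hsu0 : su ≠ 0 := by
    rintro h
    rw [h, mul_zero] at g1
    apply hu'
    rw [f2, f1, div_eq_div_iff hMu0 hM0]
    linear_combination -g1
  have hsw0 : sw ≠ 0 := by
    rintro h
    rw [h, mul_zero] at g3
    apply hw'
    rw [f3, f1, div_eq_div_iff hMw0 hM0]
    linear_combination -g3
  have q1 : F / (Fu - F) = P * Mu / (c0 * su) := by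
    have h : Fu - F = c0 * su / (M * Mu) := by
      rw [f2, f1, g1]
      field_simp
    rw [h, f1]
    field_simp
  have q2 : F / (Fw - F) = P * Mw / (c0 * sw) := by
    have h : Fw - F = c0 * sw / (M * Mw) := by
      rw [f3, f1, g3]
      field_simp
    rw [h, f1]
    field_simp
  have q3 : Mu * sw + Mw * su = 2 * M' * su * sw := by
    have r1 : M * cu = Mu - M' * su := by
      apply mul_left_cancel₀ hc
      linear_combination M * g2 + M' * g1 + Mu * g5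
    have r2 : M * cw = Mw - M' * sw := by
      apply mul_left_cancel₀ hc
      linear_combination M * g4 + M' * g3 + Mw * g5
    linear_combination M * hN' - sw * r1 - su * r2
  have q4 : (1 - d / n) / n = (P' * M + P * M') / c0 := by
    have hn' : n = c0 / (wc Y b α β σ * wc Y b α' β' σ) := by
      rw [hn, div_sub_div _ _ h1 h2, hwr]
    have hd' : 1 - d / n = 1 + (wc1 Y b α β σ / wc Y b α β σ +
        wc1 Y b α' β' σ / wc Y b α' β' σ) := by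
      rw [← hd, neg_div]
      ring
    rw [hd', hn', div_div_eq_mul_div]
    congr 1
    rw [div_add_div _ _ h1 h2, one_add_div (mul_ne_zero h1 h2),
      div_mul_cancel₀ _ (mul_ne_zero h1 h2), k3, k4, k1, k2]
    linear_combination (P' * M + P * M') * hem
  rw [q1, q2, q4]
  have q5 : P * Mu / (c0 * su) + P * Mw / (c0 * sw) = 2 * P * M' / c0 := by
    rw [div_add_div _ _ (mul_ne_zero hc hsu0) (mul_ne_zero hc hsw0),
      div_eq_div_iff (mul_ne_zero (mul_ne_zero hc hsu0) (mul_ne_zero hc hsw0)) hc]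
    linear_combination (P * c0 ^ 2) * q3
  rw [q5, div_add_one hc]
  congr 1
  linear_combination -g5

end Pool.Agent.MP_ae5b4e_an_N4
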