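import Pool.Agent.Lib.MP_ae5b4e_an_N4.SPsi

/-!
# MP_ae5b4e_an, N4, part S: the coordinate `s` in the start zone (one variable)
-/

set_option autoImplicit false

noncomputable section

namespace Pool.Agent.MP_ae5b4e_an_N4

open Complex Set Filter Topology Metric

/-- the numerical relations -/
structure Num (k A ν η δ : ℝ) : Prop where
  hk : 10 ^ 20 ≤ k
  kδ : 1000 ≤ δ * k
  hA : 10 ^ 10 ≤ A
  Aδ : 10 ^ 20 ≤ δ * A
  δ0 : 0 < δ
  δ1 : δ ≤ 1 / 10 ^ 12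
  η0 : 0 ≤ η
  η1 : η * A ^ 2 * 10 ^ 14 ≤ δ
  ν1 : 2 * k ≤ ν
  ν2 : ν ≤ 2 * k + 1

/-- the coordinate `s` of the point with the label coordinate `σ` -/
def sv (G σ : ℂ → ℂ) (z : ℂ) : ℂ := (cexp (G (σ (z + 1)) - G (σ z)) - 1)⁻¹

/-- the hypotheses on `σ = c + lgu + ψ` -/
structure Sgz (s1 s2 X A : ℝ) (c : ℂ) (σ ψ : ℂ → ℂ) : Prop where
  mem : ∀ z : ℂ, ‖z + X‖ < X / 25600 → σ z ∈ Bx s1 s2
  eq : ∀ z : ℂ, ‖z + X‖ < X / 25600 → σ z = c + lgu z + ψ z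
  dψ : DifferentiableOn ℂ ψ (ball (-(X:ℂ)) (X / 25600))
  bψ : ∀ z : ℂ, ‖z + X‖ < X / 25600 → ‖ψ z‖ ≤ 2 * 10 ^ 7 / A ^ 2

/-- `‖1 / (exp D - 1) - 1 / D + 1 / 2‖ ≤ ‖D‖` for `0 < ‖D‖ ≤ 1 / 2` -/
theorem bern {D : ℂ} (h0 : D ≠ 0) (h1 : ‖D‖ ≤ 1 / 2) :
    cexp D ≠ 1 ∧ ‖(cexp D - 1)⁻¹ - D⁻¹ + 1 / 2‖ ≤ ‖D‖ := by
  have hexp := Complex.exp_bound (x := D) (n := 3) (by linarith) (by norm_num)
  have hs : ∑ m ∈ Finset.range 3, D ^ m / (m.factorial : ℂ) = 1 + D + D ^ 2 / 2 := by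
    rw [Finset.sum_range_succ, Finset.sum_range_succ, Finset.sum_range_one]
    norm_num [Nat.factorial]
  rw [hs] at hexp
  obtain ⟨E, hE⟩ : ∃ E, E = cexp D - 1 := ⟨_, rfl⟩
  obtain ⟨R, hR⟩ : ∃ R, R = E - D - D ^ 2 / 2 := ⟨_, rfl⟩
  have hRb : ‖R‖ ≤ 2 / 9 * ‖D‖ ^ 3 := by
    have e : R = cexp D - (1 + D + D ^ 2 / 2) := by rw [hR, hE]; ring
    rw [e]
    refine hexp.trans (le_of_eq ?_)
    norm_num [Nat.factorial]
    ring
  have hD0 : 0 < ‖D‖ := norm_pos_iff.2 h0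
  have hD2 : ‖D‖ ^ 2 ≤ ‖D‖ / 2 := by nlinarith
  have hD3 : ‖D‖ ^ 3 ≤ ‖D‖ / 4 := by nlinarith
  have hEb : 25 / 36 * ‖D‖ ≤ ‖E‖ := by
    have e : D = E - (D ^ 2 / 2 + R) := by rw [hR]; ring
    have h2 : ‖D‖ ≤ ‖E‖ + ‖D ^ 2 / 2 + R‖ := by
      conv_lhs => rw [e]
      exact norm_sub_le _ _
    have h3 : ‖D ^ 2 / 2 + R‖ ≤ ‖D‖ ^ 2 / 2 + 2 / 9 * ‖D‖ ^ 3 := by
      refine (norm_add_le _ _).trans (add_le_add (le_of_eq ?_) hRb)
      rw [norm_div, norm_pow]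
      norm_num
    linarith
  have hE0 : E ≠ 0 := by
    intro h
    rw [h, norm_zero] at hEb
    linarith
  refine ⟨fun h => hE0 (by rw [hE, h, sub_self]), ?_⟩
  rw [← hE]
  have hnum : ‖D ^ 3 / 2 + (D - 2) * R‖ ≤ 19 / 18 * ‖D‖ ^ 3 := by
    refine (norm_add_le _ _).trans ?_
    have h2 : ‖D ^ 3 / 2‖ = ‖D‖ ^ 3 / 2 := by
      rw [norm_div, norm_pow]
      norm_num
    have h3 : ‖(D - 2) * R‖ ≤ (5 / 2) * (2 / 9 * ‖D‖ ^ 3) := by
      rw [norm_mul]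
      refine mul_le_mul ?_ hRb (norm_nonneg _) (by norm_num)
      refine (norm_sub_le _ _).trans ?_
      have : ‖(2 : ℂ)‖ = 2 := by norm_num
      rw [this]
      linarith
    rw [h2]
    linarith
  have e : E⁻¹ - D⁻¹ + 1 / 2 = (D ^ 3 / 2 + (D - 2) * R) / (2 * D * E) := by
    rw [eq_div_iff (mul_ne_zero (mul_ne_zero two_ne_zero h0) hE0), hR]
    field_simp
    ring
  rw [e, norm_div, norm_mul, norm_mul]
  have h2 : ‖(2 : ℂ)‖ = 2 := by norm_num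
  rw [h2, div_le_iff₀ (mul_pos (mul_pos two_pos hD0) (norm_pos_iff.2 hE0))]
  refine hnum.trans ?_
  have h3 : ‖D‖ * (2 * ‖D‖) * (25 / 36 * ‖D‖) ≤ ‖D‖ * (2 * ‖D‖) * ‖E‖ :=
    mul_le_mul_of_nonneg_left hEb (by positivity)
  have h4 : ‖D‖ * (2 * ‖D‖ * ‖E‖) = ‖D‖ * (2 * ‖D‖) * ‖E‖ := by ring
  rw [h4]
  refine le_trans ?_ h3
  have h5 : ‖D‖ * (2 * ‖D‖) * (25 / 36 * ‖D‖) = 25 / 18 * ‖D‖ ^ 3 := by ring
  rw [h5]
  have h6 : 0 ≤ ‖D‖ ^ 3 := by positivity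
  linarith

variable {k A ν η δ s1 s2 X : ℝ} {G n g σ ψ : ℂ → ℂ} {c : ℂ}

private theorem SSt_num (hN : Num k A ν η δ) (hX : X = A * k) :
    0 < A ∧ 0 < k ∧ 0 < ν ∧ 10 ^ 30 ≤ X ∧ 0 < X := by
  have h1 := hN.hA
  have h2 := hN.hk
  have hA : 0 < A := by linarith
  have hk : 0 < k := by linarith
  have h3 : (10 : ℝ) ^ 10 * 10 ^ 20 ≤ A * k := mul_le_mul h1 h2 (by norm_num) hA.le
  have h4 : (10 : ℝ) ^ 30 ≤ X := by
    rw [hX]
    refine le_trans (by norm_num) h3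
  exact ⟨hA, hk, by linarith [hN.ν1], h4, by linarith⟩

private theorem SSt_ball {w : ℂ} {X r : ℝ} (hw : ‖w + X‖ < r) : w ∈ ball (-(X : ℂ)) r := by
  rw [mem_ball_iff_norm, sub_neg_eq_add]
  exact hw

private theorem SSt_dpsi (hN : Num k A ν η δ) (hX : X = A * k) (hσ : Sgz s1 s2 X A c σ ψ) {w : ℂ}
    (hw : ‖w + X‖ ≤ X / 60000 + 1) :
    ‖deriv ψ w‖ ≤ 2 * 10 ^ 12 / (A ^ 2 * X) := by
  obtain ⟨hA, hk, hν, hX30, hX0⟩ := SSt_num hN hX
  have hR : 0 < X / 10 ^ 5 := by positivity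
  have hcl : ∀ z ∈ closedBall w (X / 10 ^ 5), ‖z + X‖ < X / 25600 := by
    intro z hz
    rw [mem_closedBall_iff_norm] at hz
    have e : z + X = (z - w) + (w + X) := by ring
    rw [e]
    refine (norm_add_le _ _).trans_lt ?_
    linarith
  have hd : DiffContOnCl ℂ ψ (ball w (X / 10 ^ 5)) := by
    refine DifferentiableOn.diffContOnCl ?_
    rw [closure_ball w hR.ne']
    exact hσ.dψ.mono fun z hz => SSt_ball (hcl z hz)
  have h1 := norm_deriv_le_of_forall_mem_sphere_norm_le hR hd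
    (fun z hz => hσ.bψ z (hcl z (sphere_subset_closedBall hz)))
  refine h1.trans (le_of_eq ?_)
  field_simp

private theorem SSt_diff (hN : Num k A ν η δ) (hX : X = A * k) (hσ : Sgz s1 s2 X A c σ ψ) {w : ℂ}
    (hw : ‖w + X‖ < X / 25600) :
    DifferentiableAt ℂ ψ w ∧ HasDerivAt σ (w⁻¹ + deriv ψ w) w := by
  obtain ⟨hA, hk, hν, hX30, hX0⟩ := SSt_num hN hX
  have h1 : DifferentiableAt ℂ ψ w :=
    (hσ.dψ w (SSt_ball hw)).differentiableAt (isOpen_ball.mem_nhds (SSt_ball hw))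
  refine ⟨h1, ?_⟩
  have h2 := (lgu_near hX0 hw.le).2.1
  have h3 : HasDerivAt (fun z => c + lgu z + ψ z) (w⁻¹ + deriv ψ w) w :=
    (h2.const_add c).add h1.hasDerivAt
  refine h3.congr_of_eventuallyEq ?_
  filter_upwards [isOpen_ball.mem_nhds (SSt_ball hw)] with z hz
  rw [mem_ball_iff_norm, sub_neg_eq_add] at hz
  exact hσ.eq z hz

private theorem SSt_psi (hN : Num k A ν η δ) (hX : X = A * k) (hσ : Sgz s1 s2 X A c σ ψ) {z : ℂ}
    (hz : ‖z + X‖ ≤ X / 60000) : ‖ψ (z + 1) - ψ z‖ ≤ 2 * 10 ^ 12 / (A ^ 2 * X) := by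
  obtain ⟨hA, hk, hν, hX30, hX0⟩ := SSt_num hN hX
  have hmem : ∀ w ∈ closedBall (-(X : ℂ)) (X / 60000 + 1), ‖w + X‖ ≤ X / 60000 + 1 := by
    intro w hw
    rwa [mem_closedBall_iff_norm, sub_neg_eq_add] at hw
  have h1 := (convex_closedBall (-(X : ℂ)) (X / 60000 + 1)).norm_image_sub_le_of_norm_deriv_le
    (f := ψ) (fun w hw => (SSt_diff hN hX hσ
      (lt_of_le_of_lt (hmem w hw) (by linarith))).1)
    (fun w hw => SSt_dpsi hN hX hσ (hmem w hw)) (x := z) (y := z + 1) (by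
      rw [mem_closedBall_iff_norm, sub_neg_eq_add]
      linarith) (by
      rw [mem_closedBall_iff_norm, sub_neg_eq_add]
      have e : z + 1 + X = (z + X) + 1 := by ring
      rw [e]
      refine (norm_add_le _ _).trans ?_
      rw [norm_one]
      linarith)
  rwa [add_sub_cancel_left, norm_one, mul_one] at h1

private theorem SSt_norm {z : ℂ} {X : ℝ} (hX0 : 0 < X) (hz : ‖z + X‖ ≤ X / 60000) :
    ‖z‖ ≤ 2 * X ∧ 9 / 10 * X ≤ ‖z‖ := by
  have hXn : ‖(X : ℂ)‖ = X := by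
    rw [norm_real, Real.norm_eq_abs, abs_of_pos hX0]
  constructor
  · have e : z = (z + X) - X := by ring
    rw [e]
    refine (norm_sub_le _ _).trans ?_
    rw [hXn]
    linarith
  · have e : (X : ℂ) = (z + X) - z := by ring
    have h1 : ‖(X : ℂ)‖ ≤ ‖z + X‖ + ‖z‖ := by
      conv_lhs => rw [e]
      exact norm_sub_le _ _
    rw [hXn] at h1
    linarith

/-- one step of the chain: `D = G (σ (z + 1)) - G (σ z)` is `ν / z` up to a small relative error.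

Proof. `‖z + X‖ ≤ X / 60000`, `X = A k ≥ 10 ^ 30`. `σ (z + 1) - σ z = (lgu (z + 1) - lgu z) +
(ψ (z + 1) - ψ z)`; the first is `1 / z` up to `4 / X²` (`lgu_step`), the second is at most
`sup ‖ψ'‖ ≤ (2 · 10 ^ 7 / A²) (10 ^ 5 / X) = 2 · 10 ^ 12 / (A² X)` (Cauchy's estimate with radius
`X / 10 ^ 5` about the points of the segment, `1/60000 + 1/10^5 + 1/X < 1/25600`). So
`‖z (σ (z + 1) - σ z) - 1‖ ≤ 2 X (4 / X² + 2 · 10 ^ 12 / (A² X)) = 8 / X + 4 · 10 ^ 12 / A² =: E1`, and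
`Gd.lin`: `‖D - ν (σ (z + 1) - σ z)‖ ≤ η ν ‖σ (z + 1) - σ z‖`. So `‖z D / ν - 1‖ ≤ E1 + 2 η =: E2`.
`E2 ≤ δ / (10 ^ 6 A)`: `8 / X = 8 / (A k) ≤ 8 δ / (1000 A) ..`: use `8 / X ≤ 8 δ 10 ^ (-3) / A`. -/
theorem st_D (hN : Num k A ν η δ) (hX : X = A * k) (hG : Gd ν η s1 s2 G n g)
    (hσ : Sgz s1 s2 X A c σ ψ) {z : ℂ} (hz : ‖z + X‖ ≤ X / 60000) :
    ‖z * (G (σ (z + 1)) - G (σ z)) / ν - 1‖ ≤ δ / (100 * A) ∧
      ‖G (σ (z + 1)) - G (σ z)‖ ≤ 10 / A ∧ G (σ (z + 1)) - G (σ z) ≠ 0 := by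
  obtain ⟨hA, hk, hν, hX30, hX0⟩ := SSt_num hN hX
  obtain ⟨hz2, hz9⟩ := SSt_norm hX0 hz
  have hz0 : z ≠ 0 := by
    rintro rfl
    rw [norm_zero] at hz9
    linarith
  have hνC : (ν : ℂ) ≠ 0 := by exact_mod_cast hν.ne'
  have hz1 : ‖z + 1 + X‖ ≤ X / 60000 + 1 := by
    have e : z + 1 + X = (z + X) + 1 := by ring
    rw [e]
    refine (norm_add_le _ _).trans ?_
    rw [norm_one]
    linarith
  have hzb : ‖z + X‖ < X / 25600 := by linarith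
  have hz1b : ‖z + 1 + X‖ < X / 25600 := by linarith
  have hl := hG.lin (hσ.mem z hzb) (hσ.mem (z + 1) hz1b)
  have hst := lgu_step (X := X) (by linarith) (z := z) (by linarith)
  have hψ := SSt_psi hN hX hσ hz
  obtain ⟨Δ, hΔ⟩ : ∃ Δ, Δ = σ (z + 1) - σ z := ⟨_, rfl⟩
  obtain ⟨D, hD⟩ : ∃ D, D = G (σ (z + 1)) - G (σ z) := ⟨_, rfl⟩
  rw [← hΔ, ← hD] at hl
  rw [← hD]
  have hΔb : ‖Δ - z⁻¹‖ ≤ 4 / X ^ 2 + 2 * 10 ^ 12 / (A ^ 2 * X) := by
    have e : Δ - z⁻¹ = (lgu (z + 1) - lgu z - z⁻¹) + (ψ (z + 1) - ψ z) := by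
      rw [hΔ, hσ.eq _ hzb, hσ.eq _ hz1b]
      ring
    rw [e]
    exact (norm_add_le _ _).trans (add_le_add hst hψ)
  obtain ⟨t, ht⟩ : ∃ t : ℝ, t = δ / A := ⟨_, rfl⟩
  have ht0 : 0 < t := by rw [ht]; exact div_pos hN.δ0 hA
  have hA10 : (10 : ℝ) ^ 10 ≤ A := hN.hA
  have hA1 : 1 ≤ A := by linarith
  have ht1 : t ≤ 1 / 10 ^ 12 := by
    rw [ht, div_le_iff₀ hA]
    have h1 := hN.δ1
    nlinarith
  -- `E1`
  have hE1 : ‖z * Δ - 1‖ ≤ 8 / 1000 * t + 4 / 10 ^ 8 * t := by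
    have e : z * Δ - 1 = z * (Δ - z⁻¹) := by
      rw [mul_sub, mul_inv_cancel₀ hz0]
    rw [e, norm_mul]
    have h1 : ‖z‖ * ‖Δ - z⁻¹‖ ≤ 2 * X * (4 / X ^ 2 + 2 * 10 ^ 12 / (A ^ 2 * X)) :=
      mul_le_mul hz2 hΔb (norm_nonneg _) (by positivity)
    refine h1.trans ?_
    have h2 : 2 * X * (4 / X ^ 2 + 2 * 10 ^ 12 / (A ^ 2 * X)) = 8 / X + 4 * 10 ^ 12 / A ^ 2 := by
      field_simp
      ring
    rw [h2]
    refine add_le_add ?_ ?_
    · rw [ht, hX, ← mul_div_assoc, div_le_div_iff₀ (by positivity) hA]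
      have h3 := hN.kδ
      nlinarith [mul_pos hA hk]
    · rw [ht, ← mul_div_assoc, div_le_div_iff₀ (by positivity) hA]
      have h3 := hN.Aδ
      nlinarith [mul_le_mul_of_nonneg_right h3 hA.le]
  have hη2 : 2 * η ≤ 2 / 10 ^ 14 * t := by
    rw [ht, ← mul_div_assoc, le_div_iff₀ hA]
    have h3 := hN.η1
    have h4 : η * A ≤ η * A ^ 2 := by
      refine mul_le_mul_of_nonneg_left ?_ hN.η0
      nlinarith
    nlinarith
  have hzΔ : ‖z * Δ‖ ≤ 2 := by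
    have e : z * Δ = (z * Δ - 1) + 1 := by ring
    rw [e]
    refine (norm_add_le _ _).trans ?_
    rw [norm_one]
    linarith
  have hmain : ‖z * D / ν - 1‖ ≤ δ / (100 * A) := by
    have e : z * D / ν - 1 = z * (D - ν * Δ) / ν + (z * Δ - 1) := by
      field_simp
      ring
    have h1 : ‖z * (D - ν * Δ) / ν‖ ≤ 2 * η := by
      rw [norm_div, norm_mul, norm_real, Real.norm_eq_abs, abs_of_pos hν, div_le_iff₀ hν]
      calc ‖z‖ * ‖D - ν * Δ‖ ≤ ‖z‖ * (η * ν * ‖Δ‖) := mul_le_mul_of_nonneg_left hl (norm_nonneg _)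
        _ = η * ν * ‖z * Δ‖ := by rw [norm_mul]; ring
        _ ≤ η * ν * 2 := mul_le_mul_of_nonneg_left hzΔ (mul_nonneg hN.η0 hν.le)
        _ = 2 * η * ν := by ring
    have h2 : δ / (100 * A) = 1 / 100 * t := by
      rw [ht]
      field_simp
    rw [e, h2]
    refine (norm_add_le _ _).trans ?_
    linarith
  have hsmall : δ / (100 * A) ≤ 1 / 10 := by
    have h2 : δ / (100 * A) = 1 / 100 * t := by
      rw [ht]
      field_simp
    rw [h2]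
    linarith
  refine ⟨hmain, ?_, ?_⟩
  · have h1 : ‖z * D / ν‖ ≤ 11 / 10 := by
      have e : z * D / ν = (z * D / ν - 1) + 1 := by ring
      rw [e]
      refine (norm_add_le _ _).trans ?_
      rw [norm_one]
      linarith
    rw [norm_div, norm_mul, norm_real, Real.norm_eq_abs, abs_of_pos hν, div_le_iff₀ hν] at h1
    have h2 : 9 / 10 * X * ‖D‖ ≤ ‖z‖ * ‖D‖ := mul_le_mul_of_nonneg_right hz9 (norm_nonneg _)
    have h3 : 9 / 10 * X * ‖D‖ ≤ 11 / 10 * (3 * k) := by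
      refine h2.trans (h1.trans ?_)
      have h4 := hN.ν2
      have h5 := hN.hk
      linarith
    rw [le_div_iff₀ hA]
    have h6 : 9 / 10 * X * ‖D‖ = k * (9 / 10 * (‖D‖ * A)) := by
      rw [hX]
      ring
    rw [h6, show 11 / 10 * (3 * k) = k * (33 / 10) by ring] at h3
    have h7 := le_of_mul_le_mul_left h3 hk
    linarith
  · rintro h0
    rw [h0, mul_zero, zero_div, zero_sub, norm_neg, norm_one] at hmain
    linarith

/-- Proof. `D = (ν / z)(1 + θ)`, `‖θ‖ ≤ δ / (100 A)`: `‖1 / D - z / ν‖ ≤ 2 ‖θ‖ ‖z / ν‖ ≤ 2 (δ / (100 A)) A ≤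
δ / 50` (`‖z‖ ≤ 2 X`, `ν ≥ 2 k`, so `‖z / ν‖ ≤ A`), and `bern`: error `‖D‖ ≤ 10 / A ≤ δ / 100`. -/
theorem st_s (hN : Num k A ν η δ) (hX : X = A * k) (hG : Gd ν η s1 s2 G n g)
    (hσ : Sgz s1 s2 X A c σ ψ) {z : ℂ} (hz : ‖z + X‖ ≤ X / 60000) :
    ‖sv G σ z - (z / ν - 1 / 2)‖ ≤ δ / 10 := by
  obtain ⟨hA, hk, hν, hX30, hX0⟩ := SSt_num hN hX
  obtain ⟨hz2, hz9⟩ := SSt_norm hX0 hz
  obtain ⟨h1, h2, h3⟩ := st_D hN hX hG hσ hz
  obtain ⟨D, hD⟩ : ∃ D, D = G (σ (z + 1)) - G (σ z) := ⟨_, rfl⟩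
  have hsv : sv G σ z = (cexp D - 1)⁻¹ := by rw [sv, hD]
  rw [← hD] at h1 h2 h3
  have hνC : (ν : ℂ) ≠ 0 := by exact_mod_cast hν.ne'
  have hA10 : (10 : ℝ) ^ 10 ≤ A := hN.hA
  have hδ := hN.δ0
  have hD12 : ‖D‖ ≤ 1 / 2 := by
    refine h2.trans ?_
    rw [div_le_div_iff₀ hA two_pos]
    linarith
  obtain ⟨-, hb⟩ := bern h3 hD12
  obtain ⟨q, hq⟩ : ∃ q, q = z * D / ν := ⟨_, rfl⟩
  rw [← hq] at h1
  have hq1 : δ / (100 * A) ≤ 1 / 2 := by
    rw [div_le_div_iff₀ (by positivity) two_pos]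
    have := hN.δ1
    nlinarith
  have hqn : 1 / 2 ≤ ‖q‖ := by
    have e : (1 : ℂ) = q - (q - 1) := by ring
    have h4 : ‖(1 : ℂ)‖ ≤ ‖q‖ + ‖q - 1‖ := by
      conv_lhs => rw [e]
      exact norm_sub_le _ _
    rw [norm_one] at h4
    linarith
  have hq0 : q ≠ 0 := by
    rintro h
    rw [h, norm_zero] at hqn
    linarith
  have hzν : ‖z / ν‖ ≤ A := by
    rw [norm_div, norm_real, Real.norm_eq_abs, abs_of_pos hν, div_le_iff₀ hν]
    refine hz2.trans ?_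
    rw [hX]
    have := hN.ν1
    nlinarith
  have hsec : ‖D⁻¹ - z / ν‖ ≤ δ / 50 := by
    have e : D⁻¹ - z / ν = (1 - q) / q * (z / ν) := by
      have h5 : (1 - q) / q = q⁻¹ - 1 := by
        field_simp
      rw [h5, hq]
      have hz0 : z ≠ 0 := by
        rintro rfl
        rw [norm_zero] at hz9
        linarith
      field_simp
    rw [e, norm_mul, norm_div, norm_sub_rev]
    have h6 : ‖q - 1‖ / ‖q‖ ≤ δ / (100 * A) * 2 := by
      rw [div_le_iff₀ (by linarith)]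
      have h7 : 0 ≤ δ / (100 * A) := by positivity
      nlinarith
    calc ‖q - 1‖ / ‖q‖ * ‖z / ν‖ ≤ δ / (100 * A) * 2 * A :=
          mul_le_mul h6 hzν (norm_nonneg _) (by positivity)
      _ = δ / 50 := by field_simp; norm_num
  have e : sv G σ z - (z / ν - 1 / 2) = ((cexp D - 1)⁻¹ - D⁻¹ + 1 / 2) + (D⁻¹ - z / ν) := by
    rw [hsv]
    ring
  rw [e]
  refine (norm_add_le _ _).trans ?_
  have h8 : ‖D‖ ≤ δ / 100 := by
    refine h2.trans ?_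
    rw [div_le_div_iff₀ hA (by norm_num)]
    have := hN.Aδ
    linarith
  linarith

/-- Proof. Cauchy's estimate for `sv G σ - (z / ν - 1 / 2)` on the disc of radius `k` (`sv G σ` is
holomorphic on `‖z + X‖ < X / 60000`): `‖s' - 1 / ν‖ ≤ δ / (10 k)`, times `ν ≤ 3 k`. The start zone and
its `k`-neighbourhood are in `‖z + X‖ ≤ X / 60000` (`k = X / A ≤ X / 10 ^ 10`). -/
theorem st_ds (hN : Num k A ν η δ) (hX : X = A * k) (hG : Gd ν η s1 s2 G n g)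
    (hσ : Sgz s1 s2 X A c σ ψ) {z : ℂ} (h1 : -X - 1 ≤ z.re) (h2 : z.re ≤ -X) (h3 : |z.im| ≤ k) :
    ‖ν * deriv (sv G σ) z - 1‖ ≤ δ ∧ ‖σ z - (c + lgu z)‖ ≤ δ ∧ ‖deriv σ z‖ ≤ 2 / X := by
  obtain ⟨hA, hk, hν, hX30, hX0⟩ := SSt_num hN hX
  have hA10 : (10 : ℝ) ^ 10 ≤ A := hN.hA
  have hk20 : (10 : ℝ) ^ 20 ≤ k := hN.hk
  have hXk : 10 ^ 10 * k ≤ X := by
    rw [hX]
    exact mul_le_mul_of_nonneg_right hA10 hk.le
  have hzn : ‖z + X‖ ≤ 1 + k := by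
    refine (Complex.norm_le_abs_re_add_abs_im _).trans ?_
    have e1 : (z + X).re = z.re + X := by simp
    have e2 : (z + X).im = z.im := by simp
    rw [e1, e2]
    refine add_le_add ?_ h3
    rw [abs_le]
    constructor <;> linarith
  have hz : ‖z + X‖ ≤ X / 60000 := by linarith
  obtain ⟨hz2, hz9⟩ := SSt_norm hX0 hz
  have hcl : ∀ w ∈ closedBall z k, ‖w + X‖ ≤ X / 60000 := by
    intro w hw
    rw [mem_closedBall_iff_norm] at hw
    have e : w + X = (w - z) + (z + X) := by ring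
    rw [e]
    refine (norm_add_le _ _).trans ?_
    linarith
  have hνC : (ν : ℂ) ≠ 0 := by exact_mod_cast hν.ne'
  have hσd : ∀ w : ℂ, ‖w + X‖ < X / 25600 → DifferentiableAt ℂ σ w := fun w hw =>
    (SSt_diff hN hX hσ hw).2.differentiableAt
  have hGd : ∀ w : ℂ, ‖w + X‖ < X / 25600 → DifferentiableAt ℂ (fun w => G (σ w)) w :=
    fun w hw => DifferentiableAt.comp (g := G) w
      (hG.dG _ (hσ.mem w hw)).differentiableAt (hσd w hw)
  have hsvd : ∀ w : ℂ, ‖w + X‖ ≤ X / 60000 → DifferentiableAt ℂ (sv G σ) w := by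
    intro w hw
    have hw1 : ‖w + 1 + X‖ < X / 25600 := by
      have e : w + 1 + X = (w + X) + 1 := by ring
      rw [e]
      refine (norm_add_le _ _).trans_lt ?_
      rw [norm_one]
      linarith
    have g1 : DifferentiableAt ℂ (fun w => G (σ (w + 1))) w :=
      DifferentiableAt.comp (g := fun w => G (σ w)) (f := fun w : ℂ => w + 1) w (hGd _ hw1)
        (by fun_prop)
    have g2 := hGd w (by linarith)
    obtain ⟨-, d2, d3⟩ := st_D hN hX hG hσ hw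
    have hD12 : ‖G (σ (w + 1)) - G (σ w)‖ ≤ 1 / 2 := by
      refine d2.trans ?_
      rw [div_le_div_iff₀ hA two_pos]
      linarith
    have hne := (bern d3 hD12).1
    have g3 : DifferentiableAt ℂ (fun w => cexp (G (σ (w + 1)) - G (σ w)) - 1) w :=
      ((g1.sub g2).cexp).sub_const 1
    exact g3.inv (sub_ne_zero.2 hne)
  refine ⟨?_, ?_, ?_⟩
  · obtain ⟨f, hf⟩ : ∃ f : ℂ → ℂ, f = fun w => sv G σ w - (w / ν - 1 / 2) := ⟨_, rfl⟩
    have hfd : DiffContOnCl ℂ f (ball z k) := by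
      refine DifferentiableOn.diffContOnCl ?_
      rw [closure_ball z hk.ne']
      intro w hw
      rw [hf]
      exact ((hsvd w (hcl w hw)).sub (by fun_prop)).differentiableWithinAt
    have hfb := norm_deriv_le_of_forall_mem_sphere_norm_le hk hfd (C := δ / 10) (fun w hw => by
      rw [hf]
      exact st_s hN hX hG hσ (hcl w (sphere_subset_closedBall hw)))
    have hfe : deriv f z = deriv (sv G σ) z - 1 / ν := by
      rw [hf]
      have g4 : HasDerivAt (fun w : ℂ => w / ν - 1 / 2) (1 / ν) z :=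
        ((hasDerivAt_id z).div_const (ν : ℂ)).sub_const _
      exact ((hsvd z hz).hasDerivAt.sub g4).deriv
    have e : ν * deriv (sv G σ) z - 1 = ν * deriv f z := by
      rw [hfe]
      field_simp
    rw [e, norm_mul, norm_real, Real.norm_eq_abs, abs_of_pos hν]
    have hν3 : ν ≤ 3 * k := by
      have := hN.ν2
      linarith
    calc ν * ‖deriv f z‖ ≤ 3 * k * (δ / 10 / k) :=
          mul_le_mul hν3 hfb (norm_nonneg _) (by positivity)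
      _ = 3 / 10 * δ := by field_simp
      _ ≤ δ := by linarith [hN.δ0]
  · rw [hσ.eq z (by linarith), add_sub_cancel_left]
    refine (hσ.bψ z (by linarith)).trans ?_
    rw [div_le_iff₀ (by positivity)]
    have g5 := hN.Aδ
    have g6 : 10 ^ 20 * A ≤ δ * A * A := mul_le_mul_of_nonneg_right g5 hA.le
    have g7 : δ * A ^ 2 = δ * A * A := by ring
    rw [g7]
    linarith
  · rw [(SSt_diff hN hX hσ (show ‖z + X‖ < X / 25600 by linarith)).2.deriv]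
    refine (norm_add_le _ _).trans ?_
    have g8 : ‖z⁻¹‖ ≤ 10 / 9 / X := by
      rw [norm_inv, inv_le_comm₀ (by linarith) (by positivity), inv_div, div_le_iff₀ (by norm_num)]
      linarith
    have g9 : ‖deriv ψ z‖ ≤ 1 / 10 / X := by
      refine (SSt_dpsi hN hX hσ (by linarith)).trans ?_
      rw [div_le_div_iff₀ (by positivity) hX0]
      have g10 : (10 : ℝ) ^ 20 ≤ A ^ 2 := by
        have := pow_le_pow_left₀ (by norm_num) hA10 2
        refine le_trans (by norm_num) this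
      have g11 : 2 * 10 ^ 12 * X ≤ 1 / 10 * 10 ^ 20 * X := by
        refine mul_le_mul_of_nonneg_right (by norm_num) hX0.le
      refine g11.trans ?_
      have g12 : 1 / 10 * (A ^ 2 * X) = 1 / 10 * A ^ 2 * X := by ring
      rw [g12]
      refine mul_le_mul_of_nonneg_right ?_ hX0.le
      linarith
    have g13 : 10 / 9 / X + 1 / 10 / X ≤ 2 / X := by
      rw [← add_div]
      exact div_le_div_of_nonneg_right (by norm_num) hX0.le
    linarith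

/-- the logarithm of one step: `log (1 + 1 / s) = G (σ (z + 1)) - G (σ z)` (principal branch:
`1 + 1 / s = exp D`, `‖D‖ ≤ 10 / A < π`). -/
theorem st_ell (hN : Num k A ν η δ) (hX : X = A * k) (hG : Gd ν η s1 s2 G n g)
    (hσ : Sgz s1 s2 X A c σ ψ) {z : ℂ} (hz : ‖z + X‖ ≤ X / 60000) :
    ellp (sv G σ z) = G (σ (z + 1)) - G (σ z) := by
  obtain ⟨hA, hk, hν, hX30, hX0⟩ := SSt_num hN hX
  obtain ⟨-, h2, -⟩ := st_D hN hX hG hσ hz
  have hA10 : (10 : ℝ) ^ 10 ≤ A := hN.hA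
  have h3 : ‖G (σ (z + 1)) - G (σ z)‖ ≤ 1 := by
    refine h2.trans ?_
    rw [div_le_one₀ hA]
    linarith
  have h4 := (abs_le.1 ((abs_im_le_norm _).trans h3))
  have h5 := Real.pi_gt_three
  rw [ellp, sv, inv_inv, add_sub_cancel]
  exact Complex.log_exp (by linarith [h4.1]) (by linarith [h4.2])

/-- the recursion for `s` follows from the node relation in the form of `node_F`:
`F / (F₊ - F) = s (z)`, `F / (F₋ - F) = - 1 - s (z - 1)`. -/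
theorem st_rec {F Fp Fm s sm gz : ℂ} (hF : F ≠ 0) (hFm : Fm ≠ 0) (hp : Fp ≠ F) (hm : F ≠ Fm)
    (hs : s = (Fp / F - 1)⁻¹) (hsm : sm = (F / Fm - 1)⁻¹)
    (h : F / (Fp - F) + F / (Fm - F) + 1 = gz) : s = sm + gz := by
  have h1 : Fp - F ≠ 0 := sub_ne_zero.2 hp
  have h2 : F - Fm ≠ 0 := sub_ne_zero.2 hm
  have h3 : Fm - F ≠ 0 := sub_ne_zero.2 (Ne.symm hm)
  have e1 : s = F / (Fp - F) := by
    rw [hs, div_sub_one hF, inv_div]
  have e2 : sm = Fm / (F - Fm) := by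
    rw [hsm, div_sub_one hFm, inv_div]
  have e3 : F / (Fm - F) + 1 = -(Fm / (F - Fm)) := by
    field_simp
    ring
  rw [← h, add_assoc, e3, e1, e2]
  ring

end Pool.Agent.MP_ae5b4e_an_N4
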